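import Pool.Agent.Work.MP_c9c104_nt.Defs

/-!
Pointwise ergodic theorem for bounded functions.
-/

open MeasureTheory Filter Topology Set ProbabilityTheory
open scoped ENNReal NNReal

namespace Pool.Agent.Work.MP_c9c104_nt

variable {X : Type} [TopologicalSpace X] [MeasurableSpace X] [MulAction G X] [HomSp X]
variable {Z : Type} [TopologicalSpace Z] [MeasurableSpace Z] [MulAction G Z] [PhSp Z]

/-- maximal function of the Birkhoff sums -/
noncomputable def bkM {Ω : Type} (T : Ω → Ω) (g : Ω → ℝ) : ℕ → Ω → ℝ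
  | 0 => fun _ => 0
  | n + 1 => fun x => max 0 (g x + bkM T g n (T x))

theorem bkM_nonneg {Ω : Type} (T : Ω → Ω) (g : Ω → ℝ) (n : ℕ) (x : Ω) : 0 ≤ bkM T g n x := by
  cases n with
  | zero => exact le_refl _
  | succ n => exact le_max_left _ _

theorem bkM_mono_succ {Ω : Type} (T : Ω → Ω) (g : Ω → ℝ) (n : ℕ) (x : Ω) :
    bkM T g n x ≤ bkM T g (n + 1) x := by
  induction n generalizing x with
  | zero => exact le_max_left _ _
  | succ n ih =>
    show max 0 (g x + bkM T g n (T x)) ≤ max 0 (g x + bkM T g (n + 1) (T x))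
    exact max_le_max le_rfl (by linarith [ih (T x)])

theorem bkM_mono {Ω : Type} (T : Ω → Ω) (g : Ω → ℝ) (x : Ω) : Monotone fun n => bkM T g n x :=
  monotone_nat_of_le_succ fun n => bkM_mono_succ T g n x

theorem bkM_measurable {Ω : Type} [MeasurableSpace Ω] (T : Ω → Ω) (hT : Measurable T) (g : Ω → ℝ)
    (hg : Measurable g) (n : ℕ) : Measurable (bkM T g n) := by
  induction n with
  | zero => exact measurable_const
  | succ n ih => exact measurable_const.max (hg.add (ih.comp hT))

theorem bkM_bound {Ω : Type} (T : Ω → Ω) (g : Ω → ℝ) (B : ℝ) (hb : ∀ z, |g z| ≤ B) (n : ℕ)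
    (x : Ω) : bkM T g n x ≤ n * B := by
  induction n generalizing x with
  | zero => simp [bkM]
  | succ n ih =>
    have h0 : 0 ≤ B := (abs_nonneg _).trans (hb x)
    refine max_le (by positivity) ?_
    have := ih (T x)
    have h1 := (le_abs_self _).trans (hb x)
    push_cast
    linarith

theorem sum_le_bkM {Ω : Type} (T : Ω → Ω) (g : Ω → ℝ) (n : ℕ) (x : Ω) :
    birkhoffSum T g n x ≤ bkM T g n x := by
  induction n generalizing x with
  | zero => simp [bkM]
  | succ n ih =>
    rw [birkhoffSum_succ']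
    refine le_trans ?_ (le_max_right _ _)
    linarith [ih (T x)]

theorem bkM_integrable {Ω : Type} [MeasurableSpace Ω] (μ : Measure Ω) [IsFiniteMeasure μ]
    (T : Ω → Ω) (hT : Measurable T) (g : Ω → ℝ)
    (hg : Measurable g) (B : ℝ) (hb : ∀ z, |g z| ≤ B) (n : ℕ) : Integrable (bkM T g n) μ := by
  refine Integrable.of_bound (bkM_measurable T hT g hg n).aestronglyMeasurable (n * B) ?_
  refine Eventually.of_forall fun x => ?_
  rw [Real.norm_eq_abs, abs_of_nonneg (bkM_nonneg T g n x)]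
  exact bkM_bound T g B hb n x

theorem maximal_ineq {Ω : Type} [MeasurableSpace Ω] (μ : Measure Ω) [IsFiniteMeasure μ]
    (T : Ω → Ω) (hT : MeasurePreserving T μ μ) (g : Ω → ℝ) (hg : Measurable g)
    (B : ℝ) (hb : ∀ z, |g z| ≤ B) (n : ℕ) : 0 ≤ ∫ x in {x | 0 < bkM T g n x}, g x ∂μ := by
  have hm := bkM_measurable T hT.measurable g hg n
  have hE : MeasurableSet {x | 0 < bkM T g n x} := measurableSet_lt measurable_const hm
  have hi := bkM_integrable μ T hT.measurable g hg B hb n
  have hiT : Integrable (fun x => bkM T g n (T x)) μ := hT.integrable_comp_of_integrable hi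
  have hgi : Integrable g μ := by
    refine Integrable.of_bound hg.aestronglyMeasurable B ?_
    exact Eventually.of_forall hb
  have h1 : ∫ x in {x | 0 < bkM T g n x}, (bkM T g n x - bkM T g n (T x)) ∂μ ≤
      ∫ x in {x | 0 < bkM T g n x}, g x ∂μ := by
    refine setIntegral_mono_on (hi.sub hiT).integrableOn hgi.integrableOn hE ?_
    intro x hx
    rcases n with _ | n
    · exact absurd hx (by simp [bkM])
    · have hx' : 0 < max 0 (g x + bkM T g n (T x)) := hx
      have h2 : bkM T g (n + 1) x = g x + bkM T g n (T x) := by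
        show max 0 (g x + bkM T g n (T x)) = _
        rcases lt_max_iff.1 hx' with h | h
        · exact absurd h (lt_irrefl _)
        · exact max_eq_right h.le
      have := bkM_mono_succ T g n (T x)
      linarith
  refine le_trans ?_ h1
  rw [integral_sub hi.integrableOn hiT.integrableOn]
  have h3 : ∫ x in {x | 0 < bkM T g n x}, bkM T g n x ∂μ = ∫ x, bkM T g n x ∂μ := by
    refine setIntegral_eq_integral_of_forall_compl_eq_zero fun x hx => ?_
    exact le_antisymm (not_lt.1 hx) (bkM_nonneg T g n x)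
  have h4 : ∫ x in {x | 0 < bkM T g n x}, bkM T g n (T x) ∂μ ≤ ∫ x, bkM T g n (T x) ∂μ :=
    setIntegral_le_integral hiT (Eventually.of_forall fun x => bkM_nonneg T g n (T x))
  have h5 : ∫ x, bkM T g n (T x) ∂μ = ∫ x, bkM T g n x ∂μ := by
    have := integral_map (μ := μ) (φ := T) hT.measurable.aemeasurable
      (f := bkM T g n) (by rw [hT.map_eq]; exact hm.aestronglyMeasurable)
    rw [hT.map_eq] at this
    exact this.symm
  linarith

theorem integral_nonneg_of_sum_pos {Ω : Type} [MeasurableSpace Ω] (μ : Measure Ω)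
    [IsFiniteMeasure μ]
    (T : Ω → Ω) (hT : MeasurePreserving T μ μ) (g : Ω → ℝ) (hg : Measurable g)
    (B : ℝ) (hb : ∀ z, |g z| ≤ B) (hpos : ∀ᵐ x ∂μ, ∃ k, 0 < birkhoffSum T g k x) :
    0 ≤ ∫ x, g x ∂μ := by
  have hgi : Integrable g μ := by
    refine Integrable.of_bound hg.aestronglyMeasurable B ?_
    exact Eventually.of_forall hb
  have h1 : Tendsto (fun n => ∫ x in {x | 0 < bkM T g n x}, g x ∂μ) atTop
      (𝓝 (∫ x in ⋃ n, {x | 0 < bkM T g n x}, g x ∂μ)) := by
    refine tendsto_setIntegral_of_monotone ?_ ?_ hgi.integrableOn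
    · exact fun n => measurableSet_lt measurable_const (bkM_measurable T hT.measurable g hg n)
    · intro m n hmn x hx
      exact lt_of_lt_of_le hx (bkM_mono T g x hmn)
  have h2 : ∫ x in ⋃ n, {x | 0 < bkM T g n x}, g x ∂μ = ∫ x, g x ∂μ := by
    rw [← setIntegral_univ (f := g) (μ := μ)]
    refine setIntegral_congr_set ?_
    filter_upwards [hpos] with x hx
    obtain ⟨k, hk⟩ := hx
    refine propext ⟨fun _ => trivial, fun _ => ?_⟩
    exact mem_iUnion.2 ⟨k, lt_of_lt_of_le hk (sum_le_bkM T g k x)⟩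
  rw [← h2]
  exact ge_of_tendsto' h1 fun n => maximal_ineq μ T hT g hg B hb n

/-- the limsup of the averages is bigger than `b` -/
def bkP {Ω : Type} (T : Ω → Ω) (f : Ω → ℝ) (b : ℝ) : Set Ω :=
  {x | ∃ q : ℚ, b < q ∧ ∃ᶠ n : ℕ in atTop, (q : ℝ) < birkhoffAverage ℝ T f n x}

theorem bkP_meas {Ω : Type} [MeasurableSpace Ω] (T : Ω → Ω) (hT : Measurable T) (f : Ω → ℝ)
    (hf : Measurable f) (b : ℝ) : MeasurableSet (bkP T f b) := by
  have hA : ∀ n : ℕ, Measurable (birkhoffAverage ℝ T f n) := by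
    intro n
    have : Measurable (birkhoffSum T f n) := by
      unfold birkhoffSum
      exact Finset.measurable_sum _ fun k _ => hf.comp (hT.iterate k)
    exact this.const_smul ((n : ℝ)⁻¹)
  have : bkP T f b = ⋃ q : ℚ, ⋃ _ : b < q, ⋂ N : ℕ, ⋃ n : ℕ, ⋃ _ : N ≤ n,
      {x | (q : ℝ) < birkhoffAverage ℝ T f n x} := by
    ext x
    simp only [bkP, frequently_atTop, mem_ofPred_eq, mem_iUnion, mem_iInter, exists_prop]
  rw [this]
  refine MeasurableSet.iUnion fun q => MeasurableSet.iUnion fun _ => MeasurableSet.iInter fun N =>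
    MeasurableSet.iUnion fun n => MeasurableSet.iUnion fun _ => ?_
  exact measurableSet_lt measurable_const (hA n)

theorem bkP_inv {Ω : Type} (T : Ω → Ω) (f : Ω → ℝ) (B : ℝ) (hb : ∀ z, |f z| ≤ B) (b : ℝ) :
    T ⁻¹' (bkP T f b) = bkP T f b := by
  have key : ∀ x, Tendsto (fun n : ℕ => birkhoffAverage ℝ T f n (T x) -
      birkhoffAverage ℝ T f n x) atTop (𝓝 0) := by
    intro x
    have := tendsto_birkhoffAverage_apply_sub_birkhoffAverage ℝ (f := T) (g := f) (x := x)
      (isBounded_iff_forall_norm_le.2 ⟨B, by rintro _ ⟨z, rfl⟩; exact hb _⟩)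
    exact this
  ext x
  constructor
  · rintro ⟨q, hq, hfr⟩
    obtain ⟨q', h1, h2⟩ := exists_rat_btwn hq
    refine ⟨q', h1, ?_⟩
    have hev := (key x).eventually (gt_mem_nhds (show (0 : ℝ) < (q : ℝ) - q' by linarith))
    refine (hfr.and_eventually hev).mono ?_
    rintro n ⟨h3, h4⟩
    linarith
  · rintro ⟨q, hq, hfr⟩
    obtain ⟨q', h1, h2⟩ := exists_rat_btwn hq
    refine ⟨q', h1, ?_⟩
    have hev := (key x).eventually (lt_mem_nhds (show -((q : ℝ) - q') < (0 : ℝ) by linarith))
    refine (hfr.and_eventually hev).mono ?_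
    rintro n ⟨h3, h4⟩
    linarith

theorem integral_ge_of_bkP {Ω : Type} [MeasurableSpace Ω] (ν : Measure Ω) [IsFiniteMeasure ν]
    (T : Ω → Ω) (hT : MeasurePreserving T ν ν) (f : Ω → ℝ) (hf : Measurable f)
    (B : ℝ) (hb : ∀ z, |f z| ≤ B) (b : ℝ) (C : Set Ω) (hC : MeasurableSet C)
    (hCi : T ⁻¹' C = C) (hCP : C ⊆ bkP T f b) : b * ν.real C ≤ ∫ x in C, f x ∂ν := by
  have hTr : MeasurePreserving T (ν.restrict C) (ν.restrict C) := by
    have := hT.restrict_preimage hC
    rwa [hCi] at this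
  have h0 : 0 ≤ ∫ x in C, (f x - b) ∂ν := by
    refine integral_nonneg_of_sum_pos (ν.restrict C) T hTr (fun x => f x - b)
      (hf.sub_const b) (B + |b|) (fun z => ?_) ?_
    · exact (abs_sub _ _).trans (by linarith [hb z])
    · refine (ae_restrict_iff' hC).2 (Eventually.of_forall fun x hx => ?_)
      obtain ⟨q, hq, hfr⟩ := hCP hx
      obtain ⟨n, hn, hn1⟩ := (hfr.and_eventually (eventually_gt_atTop 0)).exists
      refine ⟨n, ?_⟩
      have h1 : (b : ℝ) < (n : ℝ)⁻¹ * birkhoffSum T f n x := by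
        have : birkhoffAverage ℝ T f n x = (n : ℝ)⁻¹ * birkhoffSum T f n x := rfl
        rw [← this]
        exact hq.trans hn
      have hn0 : (0 : ℝ) < n := by exact_mod_cast hn1
      have h2 : birkhoffSum T (fun x => f x - b) n x = birkhoffSum T f n x - n * b := by
        simp [birkhoffSum, Finset.sum_sub_distrib]
      rw [h2]
      rw [inv_mul_eq_div, lt_div_iff₀ hn0] at h1
      linarith
  have hfi : Integrable f ν := Integrable.of_bound hf.aestronglyMeasurable B
    (Eventually.of_forall hb)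
  rw [integral_sub hfi.integrableOn (integrable_const b)] at h0
  simp only [integral_const, measureReal_restrict_apply_univ, smul_eq_mul] at h0
  linarith

theorem bk_null {Ω : Type} [MeasurableSpace Ω] (ν : Measure Ω) [IsFiniteMeasure ν]
    (T : Ω → Ω) (hT : MeasurePreserving T ν ν) (f : Ω → ℝ) (hf : Measurable f)
    (B : ℝ) (hb : ∀ z, |f z| ≤ B) (a b : ℝ) (hab : a < b) :
    ν (bkP T f b ∩ bkP T (fun x => - f x) (-a)) = 0 := by
  set C := bkP T f b ∩ bkP T (fun x => - f x) (-a) with hCdef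
  have hb' : ∀ z, |(fun x => - f x) z| ≤ B := fun z => by simpa using hb z
  have hC : MeasurableSet C := (bkP_meas T hT.measurable f hf b).inter
    (bkP_meas T hT.measurable _ hf.neg (-a))
  have hCi : T ⁻¹' C = C := by
    rw [hCdef, preimage_inter, bkP_inv T f B hb b, bkP_inv T _ B hb' (-a)]
  have h1 := integral_ge_of_bkP ν T hT f hf B hb b C hC hCi inter_subset_left
  have h2 := integral_ge_of_bkP ν T hT _ hf.neg B hb' (-a) C hC hCi inter_subset_right
  have h5 : ∫ x in C, (-f) x ∂ν = - ∫ x in C, f x ∂ν := integral_neg f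
  rw [h5] at h2
  have h3 : ν.real C * (b - a) ≤ 0 := by linarith
  have h4 : ν.real C = 0 := by
    have := measureReal_nonneg (μ := ν) (s := C)
    nlinarith
  rwa [measureReal_eq_zero_iff] at h4

theorem birkhoff {Ω : Type} [MeasurableSpace Ω] (ν : Measure Ω) [IsProbabilityMeasure ν]
    (T : Ω → Ω) (hT : MeasurePreserving T ν ν) (f : Ω → ℝ) (hf : Measurable f)
    (hb : ∃ B, ∀ z, |f z| ≤ B) :
    ∀ᵐ z ∂ν, ∃ L : ℝ, Tendsto (fun n : ℕ => birkhoffAverage ℝ T f n z) atTop (𝓝 L) := by
  obtain ⟨B, hb⟩ := hb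
  have h1 : ∀ᵐ z ∂ν, ∀ p : ℚ × ℚ, p.1 < p.2 →
      z ∉ bkP T f p.2 ∩ bkP T (fun x => - f x) (-p.1) := by
    refine ae_all_iff.2 fun p => ?_
    by_cases hp : p.1 < p.2
    · have := bk_null ν T hT f hf B hb p.1 p.2 (by exact_mod_cast hp)
      filter_upwards [measure_eq_zero_iff_ae_notMem.1 this] with z hz _
      exact hz
    · exact Eventually.of_forall fun z h => absurd h hp
  filter_upwards [h1] with z hz
  have hbd : ∀ n : ℕ, |birkhoffAverage ℝ T f n z| ≤ B := by
    intro n
    have h0 : 0 ≤ B := (abs_nonneg _).trans (hb z)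
    have h2 : |birkhoffSum T f n z| ≤ n * B := by
      unfold birkhoffSum
      refine (Finset.abs_sum_le_sum_abs _ _).trans ?_
      refine (Finset.sum_le_card_nsmul _ _ B fun k _ => hb _).trans ?_
      simp
    show |(n : ℝ)⁻¹ * birkhoffSum T f n z| ≤ B
    rw [abs_mul, abs_of_nonneg (by positivity : (0 : ℝ) ≤ (n : ℝ)⁻¹)]
    rcases Nat.eq_zero_or_pos n with rfl | hn
    · simpa using h0
    · have hn0 : (0 : ℝ) < n := by exact_mod_cast hn
      rw [inv_mul_le_iff₀ hn0]
      exact h2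
  refine tendsto_of_no_upcrossings (s := range ((↑) : ℚ → ℝ)) Rat.denseRange_cast ?_ ?_ ?_
  · rintro _ ⟨a, rfl⟩ _ ⟨b, rfl⟩ hab ⟨hfa, hfb⟩
    have hab' : a < b := by exact_mod_cast hab
    obtain ⟨c, hac, hcb⟩ := exists_between hab'
    obtain ⟨d, hcd, hdb⟩ := exists_between hcb
    refine hz (c, d) hcd ⟨⟨b, by exact_mod_cast hdb, hfb⟩, ⟨-a, ?_, ?_⟩⟩
    · push_cast
      have : (a : ℝ) < c := by exact_mod_cast hac
      simpa using this
    · refine hfa.mono fun n hn => ?_
      have : birkhoffAverage ℝ T (fun x => - f x) n z = - birkhoffAverage ℝ T f n z := by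
        show (n : ℝ)⁻¹ * birkhoffSum T (fun x => - f x) n z = - ((n : ℝ)⁻¹ * birkhoffSum T f n z)
        simp [birkhoffSum, Finset.sum_neg_distrib]
      rw [this]
      push_cast
      linarith
  · exact ⟨B, eventually_map.2 (Eventually.of_forall fun n => (le_abs_self _).trans (hbd n))⟩
  · exact ⟨-B, eventually_map.2 (Eventually.of_forall fun n => (abs_le.1 (hbd n)).1)⟩

end Pool.Agent.Work.MP_c9c104_nt
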