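import Pool.Agent.Work.MP_c9c104_nt.Basic

/-!
The space of right cosets as a homogeneous space.
-/

open MeasureTheory Filter Topology Set

namespace Pool.Agent.Work.MP_c9c104_nt

/-- the space of cosets `Γ g` -/
abbrev RQ (Γ : Subgroup G) : Type := Quotient (QuotientGroup.rightRel Γ)

/-- right translation `Γ x ↦ Γ x g` -/
def rmul (Γ : Subgroup G) (g : G) : RQ Γ → RQ Γ :=
  Quotient.map (fun x => x * g) (fun x y h => by
    have h' : y * x⁻¹ ∈ Γ := QuotientGroup.rightRel_apply.1 h
    refine QuotientGroup.rightRel_apply.2 ?_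
    simpa [mul_assoc] using h')

instance instMeasRQ (Γ : Subgroup G) : MeasurableSpace (RQ Γ) := borel _

/-- `Γ` is a lattice: discrete, and `Γ \\ G` carries a finite nonzero invariant Borel measure -/
def IsLattice (Γ : Subgroup G) : Prop :=
  DiscreteTopology Γ ∧ ∃ μ : Measure (RQ Γ), IsFiniteMeasure μ ∧ μ ≠ 0 ∧
    ∀ g : G, μ.map (rmul Γ g) = μ

/-- conjugation by `diag(1,-1)`; it sends `u t` to `u (-t)` -/
def theta (g : G) : G := ⟨!![g 0 0, - g 0 1; - g 1 0, g 1 1], by
  have := g.2
  rw [Matrix.det_fin_two] at this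
  simp [Matrix.det_fin_two, this]⟩

@[simp] theorem theta00 (g : G) : theta g 0 0 = g 0 0 := by simp [theta]
@[simp] theorem theta01 (g : G) : theta g 0 1 = - g 0 1 := by simp [theta]
@[simp] theorem theta10 (g : G) : theta g 1 0 = - g 1 0 := by simp [theta]
@[simp] theorem theta11 (g : G) : theta g 1 1 = g 1 1 := by simp [theta]

theorem theta_mul (g h : G) : theta (g * h) = theta g * theta h := by
  apply G_ext <;> simp <;> ring

@[simp] theorem theta_one : theta 1 = 1 := by
  apply G_ext <;> simp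

@[simp] theorem theta_theta (g : G) : theta (theta g) = g := by
  apply G_ext <;> simp

theorem continuous_theta : Continuous theta := by
  have := continuous_entry
  apply continuous_G
  · simpa using this 0 0
  · simp only [theta01]; exact (this 0 1).neg
  · simp only [theta10]; exact (this 1 0).neg
  · simpa using this 1 1

theorem rmul_mk (Γ : Subgroup G) (g x : G) :
    rmul Γ g (Quotient.mk (QuotientGroup.rightRel Γ) x) =
      Quotient.mk (QuotientGroup.rightRel Γ) (x * g) := rfl

theorem mk_open (Γ : Subgroup G) :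
    IsOpenQuotientMap (Quotient.mk (QuotientGroup.rightRel Γ)) := by
  refine ⟨Quot.mk_surjective, continuous_quot_mk, ?_⟩
  exact isOpenMap_quotient_mk'_mul (Γ := Γ) (T := G)

/-- The left action `g • Γ x = Γ x (theta g)⁻¹`, for which `u s • Γ x = Γ x u s`; with it the coset
space is a homogeneous space with discrete stabilizers. -/
theorem exists_homSp (Γ : Subgroup G) (hΓ : DiscreteTopology Γ) :
    ∃ inst : MulAction G (RQ Γ), @HomSp (RQ Γ) _ _ inst ∧
      ∀ (g : G) (x : RQ Γ), g • x = rmul Γ (theta g)⁻¹ x := by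
  let inst : MulAction G (RQ Γ) :=
    { smul := fun g x => rmul Γ (theta g)⁻¹ x
      one_smul := by
        intro x
        induction x using Quotient.inductionOn with
        | h x =>
          change rmul Γ (theta 1)⁻¹ _ = _
          rw [rmul_mk]
          simp
      mul_smul := by
        intro g h x
        induction x using Quotient.inductionOn with
        | h x =>
          change rmul Γ (theta (g * h))⁻¹ _ = rmul Γ (theta g)⁻¹ (rmul Γ (theta h)⁻¹ _)
          rw [rmul_mk, rmul_mk, rmul_mk, theta_mul, mul_inv_rev, mul_assoc] }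
  refine ⟨inst, ?_, fun g x => rfl⟩
  have hsmul : ∀ (g x : G), g • (Quotient.mk (QuotientGroup.rightRel Γ) x : RQ Γ) =
      Quotient.mk (QuotientGroup.rightRel Γ) (x * (theta g)⁻¹) := fun g x => rfl
  have hpd : ProperlyDiscontinuousSMul Γ G :=
    Γ.properlyDiscontinuousSMul_of_tendsto_cofinite
      (Subgroup.tendsto_coe_cofinite_of_discrete Γ ⟨hΓ⟩)
  have hT2 : T2Space (RQ Γ) := t2Space_of_properlyDiscontinuousSMul_of_t2Space (Γ := Γ) (T := G)
  have hSC : SecondCountableTopology (RQ Γ) :=
    ContinuousConstSMul.secondCountableTopology (Γ := Γ) (T := G)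
  have hop := mk_open Γ
  have hLC : LocallyCompactSpace (RQ Γ) := by
    refine ⟨fun q n hn => ?_⟩
    obtain ⟨x, rfl⟩ := Quotient.exists_rep q
    have h1 : (Quotient.mk (QuotientGroup.rightRel Γ)) ⁻¹' n ∈ 𝓝 x :=
      hop.continuous.continuousAt.preimage_mem_nhds hn
    obtain ⟨K, hK, hKn, hKc⟩ := local_compact_nhds h1
    refine ⟨Quotient.mk (QuotientGroup.rightRel Γ) '' K, hop.isOpenMap.image_mem_nhds hK, ?_,
      hKc.image hop.continuous⟩
    rintro _ ⟨y, hy, rfl⟩
    exact hKn hy
  have hB : BorelSpace (RQ Γ) := ⟨rfl⟩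
  have hC : ContinuousSMul G (RQ Γ) := by
    refine ⟨?_⟩
    have h1 : IsOpenQuotientMap (Prod.map (id : G → G) (Quotient.mk (QuotientGroup.rightRel Γ))) :=
      IsOpenQuotientMap.id.prodMap hop
    rw [← h1.continuous_comp_iff]
    have h2 : ((fun p : G × RQ Γ => p.1 • p.2) ∘
        Prod.map (id : G → G) (Quotient.mk (QuotientGroup.rightRel Γ))) =
        fun p : G × G => Quotient.mk (QuotientGroup.rightRel Γ) (p.2 * (theta p.1)⁻¹) := by
      funext p
      rfl
    rw [h2]
    apply hop.continuous.comp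
    exact continuous_snd.mul ((continuous_theta.comp continuous_fst).inv)
  have hP : MulAction.IsPretransitive G (RQ Γ) := by
    refine ⟨fun p q => ?_⟩
    obtain ⟨x, rfl⟩ := Quotient.exists_rep p
    obtain ⟨y, rfl⟩ := Quotient.exists_rep q
    refine ⟨theta (y⁻¹ * x), ?_⟩
    rw [hsmul, theta_theta]
    congr 1
    group
  have hD : DiscStab (RQ Γ) := by
    refine ⟨fun p => ?_⟩
    obtain ⟨x, rfl⟩ := Quotient.exists_rep p
    obtain ⟨U, hU, hUΓ⟩ : ∃ U ∈ 𝓝 (1 : G), ∀ g ∈ U, g ∈ Γ → g = 1 := by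
      have h1 : ({1} : Set Γ) ∈ 𝓝 (1 : Γ) := by
        rw [nhds_discrete]; exact rfl
      rw [nhds_subtype_eq_comap] at h1
      obtain ⟨U, hU, hU1⟩ := h1
      refine ⟨U, hU, fun g hg hgΓ => ?_⟩
      have h2 : (⟨g, hgΓ⟩ : Γ) ∈ ({1} : Set Γ) := hU1 hg
      exact congrArg Subtype.val h2
    have hcont : Continuous fun g : G => x * (theta g)⁻¹ * x⁻¹ :=
      (continuous_const.mul continuous_theta.inv).mul continuous_const
    have h2 : (fun g : G => x * (theta g)⁻¹ * x⁻¹) ⁻¹' U ∈ 𝓝 (1 : G) := by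
      apply hcont.continuousAt.preimage_mem_nhds
      simpa using hU
    obtain ⟨r, hr, hrU⟩ := exists_nrm h2
    refine ⟨r, hr, fun g hg hgr => ?_⟩
    rw [MulAction.mem_stabilizer_iff, hsmul] at hg
    have h3 : (QuotientGroup.rightRel Γ) (x * (theta g)⁻¹) x := Quotient.exact hg
    rw [QuotientGroup.rightRel_apply] at h3
    have h4 : x * (theta g)⁻¹ * x⁻¹ ∈ Γ := by
      have h5 := Γ.inv_mem h3
      simpa [mul_assoc] using h5
    have h5 : x * (theta g)⁻¹ * x⁻¹ = 1 := hUΓ _ (hrU g hgr) h4
    have h6 : theta g = 1 := by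
      have h7 : (theta g)⁻¹ = x⁻¹ * (x * (theta g)⁻¹ * x⁻¹) * x := by group
      rw [h5] at h7
      simpa using h7
    have h7 := congrArg theta h6
    simpa using h7
  exact { hT2, hLC, hSC, hB, hC, hP, hD with }

theorem theta_u (t : ℝ) : (theta (u t))⁻¹ = u t := by
  apply G_ext <;> simp

end Pool.Agent.Work.MP_c9c104_nt
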