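import Pool.Agent.Work.MP_c9c104_nt.Sep

/-!
The action on the second coordinate; transport of joinings and generic measures.
-/

open MeasureTheory Filter Topology Set ProbabilityTheory
open scoped ENNReal NNReal

namespace Pool.Agent.Work.MP_c9c104_nt

variable {X : Type} [TopologicalSpace X] [MeasurableSpace X] [MulAction G X] [HomSp X]

theorem act2_mul (g h : G) (z : X × X) : act2 (g * h) z = act2 g (act2 h z) := by
  simp [act2, mul_smul]

@[simp] theorem act2_one (z : X × X) : act2 (1 : G) z = z := by simp [act2]

theorem act2_comp (g h : G) : act2 (X := X) g ∘ act2 h = act2 (g * h) := by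
  funext z; simp [act2_mul]

theorem continuous_act2 (g : G) : Continuous (act2 (X := X) g) :=
  continuous_fst.prodMk ((continuous_const_smul g).comp continuous_snd)

theorem measurable_act2 (g : G) : Measurable (act2 (X := X) g) := (continuous_act2 g).measurable

/-- `act2 g` as a homeomorphism -/
def act2H (g : G) : (X × X) ≃ₜ (X × X) where
  toFun := act2 g
  invFun := act2 g⁻¹
  left_inv z := by rw [← act2_mul]; simp
  right_inv z := by rw [← act2_mul]; simp
  continuous_toFun := continuous_act2 g
  continuous_invFun := continuous_act2 g⁻¹

@[simp] theorem act2H_apply (g : G) (z : X × X) : act2H g z = act2 g z := rfl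

theorem coe_act2H (g : G) : ⇑(act2H (X := X) g) = act2 g := rfl

theorem u_act2 (s c : ℝ) (z : X × X) : u s • act2 (u c) z = act2 (u c) (u s • z) := by
  refine Prod.ext rfl ?_
  change u s • u c • z.2 = u c • u s • z.2
  rw [← mul_smul, ← mul_smul, ← u_add, ← u_add, add_comm]

theorem map_act2_act2 (ν : Measure (X × X)) (g h : G) :
    (ν.map (act2 h)).map (act2 g) = ν.map (act2 (g * h)) := by
  rw [Measure.map_map (measurable_act2 g) (measurable_act2 h), act2_comp]

theorem map_act2_one (ν : Measure (X × X)) : ν.map (act2 (1 : G)) = ν := by
  have : act2 (X := X) (1 : G) = id := by funext z; simp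
  rw [this, Measure.map_id]

theorem map_smul_inv (m : Measure X) [SMulInvariantMeasure G X m] (g : G) :
    m.map (fun x => g • x) = m := MeasureTheory.map_smul g (μ := m)

theorem join_act2 {m : Measure X} [SMulInvariantMeasure G X m] {ν : Measure (X × X)}
    (h : IsJoin m ν) (g : G) : IsJoin m (ν.map (act2 g)) := by
  have := h.prob
  refine ⟨Measure.isProbabilityMeasure_map (measurable_act2 g).aemeasurable, ?_, ?_⟩
  · rw [Measure.map_map measurable_fst (measurable_act2 g)]
    exact h.fst
  · rw [Measure.map_map measurable_snd (measurable_act2 g)]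
    have e : Prod.snd ∘ act2 (X := X) g = (fun x => g • x) ∘ Prod.snd := rfl
    rw [e, ← Measure.map_map (measurable_const_smul g) measurable_snd, h.snd]
    exact map_smul_inv m g

theorem prod_act2 (m : Measure X) [IsProbabilityMeasure m] [SMulInvariantMeasure G X m] (g : G) :
    (m.prod m).map (act2 g) = m.prod m := by
  have e : act2 (X := X) g = Prod.map (fun x => x) (fun x => g • x) := rfl
  rw [e, ← Measure.map_prod_map m m measurable_id' (measurable_const_smul g), map_smul_inv m g]
  congr 1
  exact Measure.map_id'

theorem map_smul_smul (ν : Measure (X × X)) (g h : G) :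
    (ν.map (fun z => h • z)).map (fun z => g • z) = ν.map (fun z => (g * h) • z) := by
  rw [Measure.map_map (measurable_const_smul g) (measurable_const_smul h)]
  congr 1
  funext z
  simp [mul_smul]

/-- measures invariant under the two unipotent groups are invariant under `G` -/
theorem inv_of_uv (ν : Measure (X × X)) (hu : ∀ s, ν.map (fun z => u s • z) = ν)
    (hv : ∀ r, ν.map (fun z => v r • z) = ν) (g : G) : ν.map (fun z => g • z) = ν := by
  let S : Subgroup G :=
    { carrier := {g | ν.map (fun z => g • z) = ν}
      mul_mem' := by
        intro a b ha hb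
        change ν.map (fun z => (a * b) • z) = ν
        rw [← map_smul_smul, hb, ha]
      one_mem' := by
        change ν.map (fun z => (1 : G) • z) = ν
        simp
      inv_mem' := by
        intro a ha
        change ν.map (fun z => a⁻¹ • z) = ν
        change ν.map (fun z => a • z) = ν at ha
        conv_lhs => rw [← ha]
        rw [map_smul_smul]
        simp }
  have : S = ⊤ := G_gen S hu hv
  have hg : g ∈ S := by rw [this]; trivial
  exact hg

theorem gen_act2 {ν : Measure (X × X)} (h : IsGen ν) (c : ℝ) : IsGen (ν.map (act2 (u c))) := by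
  obtain ⟨hp, hz⟩ := h
  refine ⟨Measure.isProbabilityMeasure_map (measurable_act2 _).aemeasurable, ?_⟩
  have hm : ∀ᵐ z ∂ν, GenPt (ν.map (act2 (u c))) (act2 (u c) z) := by
    filter_upwards [hz] with z hz
    have := genPt_map (ν := ν) (act2H (X := X) (u c)) 1 one_pos
      (fun s z => by rw [one_mul]; exact u_act2 s c z) hz
    exact this
  have := (act2H (X := X) (u c)).measurableEmbedding.ae_map_iff
    (p := fun z => GenPt (ν.map (act2 (u c))) z) (μ := ν)
  exact this.2 hm

end Pool.Agent.Work.MP_c9c104_nt
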