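import Pool.Agent.Work.MP_c9c104_nt.Prod
import Pool.Agent.Work.MP_c9c104_nt.Act

/-!
After a shift the joining is invariant under the diagonal flow.
-/

open MeasureTheory Filter Topology Set ProbabilityTheory
open scoped ENNReal NNReal

namespace Pool.Agent.Work.MP_c9c104_nt

variable {X : Type} [TopologicalSpace X] [MeasurableSpace X] [MulAction G X] [HomSp X]
variable {Z : Type} [TopologicalSpace Z] [MeasurableSpace Z] [MulAction G Z] [PhSp Z]

theorem u_mul_a (b t : ℝ) : u b * a t = a t * u (Real.exp (-(2 * t)) * b) := by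
  rw [a_mul_u, ← mul_assoc, ← Real.exp_add]
  simp

/-- the symmetry with parameters `τ` and `b` -/
noncomputable def phiT (τ b : ℝ) (z : X × X) : X × X := (a τ • z.1, a τ • u b • z.2)

theorem measurable_phiT (τ b : ℝ) : Measurable (phiT (X := X) τ b) := by
  have h : Continuous (phiT (X := X) τ b) :=
    ((continuous_const_smul (a τ)).comp continuous_fst).prodMk
      ((continuous_const_smul (a τ)).comp ((continuous_const_smul (u b)).comp continuous_snd))
  exact h.measurable

omit [TopologicalSpace X] [MeasurableSpace X] [HomSp X] in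
theorem phiT_comp (τ1 b1 τ2 b2 : ℝ) : phiT (X := X) τ2 b2 ∘ phiT τ1 b1 =
    phiT (τ2 + τ1) (Real.exp (-(2 * τ1)) * b2 + b1) := by
  funext z
  refine Prod.ext ?_ ?_
  · change a τ2 • a τ1 • z.1 = a (τ2 + τ1) • z.1
    rw [← mul_smul, ← a_add]
  · change a τ2 • u b2 • a τ1 • u b1 • z.2 =
      a (τ2 + τ1) • u (Real.exp (-(2 * τ1)) * b2 + b1) • z.2
    rw [← mul_smul, ← mul_smul, ← mul_smul, ← mul_smul]
    congr 1
    rw [a_add, u_add, mul_assoc (a τ2) (u b2) (a τ1), u_mul_a]
    group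

omit [TopologicalSpace X] [MeasurableSpace X] [HomSp X] in
theorem phiT_act2 (τ b b' : ℝ) : phiT (X := X) τ b ∘ act2 (u (b' - b)) = phiT τ b' := by
  funext z
  refine Prod.ext rfl ?_
  change a τ • u b • u (b' - b) • z.2 = a τ • u b' • z.2
  rw [← mul_smul (u b), ← u_add]
  congr 3
  ring

theorem phiT_inj (τ b : ℝ) {ν ν' : Measure (X × X)}
    (h : ν.map (phiT τ b) = ν'.map (phiT τ b)) : ν = ν' := by
  have hc : phiT (X := X) (-τ) (-(Real.exp (2 * τ) * b)) ∘ phiT τ b = id := by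
    rw [phiT_comp]
    funext z
    have e1 : -τ + τ = 0 := by ring
    have e2 : Real.exp (-(2 * τ)) * -(Real.exp (2 * τ) * b) + b = 0 := by
      have : Real.exp (-(2 * τ)) * -(Real.exp (2 * τ) * b) + b =
        b * (1 - Real.exp (-(2 * τ)) * Real.exp (2 * τ)) := by ring
      rw [this, ← Real.exp_add]
      simp
    rw [e1, e2]
    simp [phiT]
  have h2 := congrArg (fun μ : Measure (X × X) =>
    μ.map (phiT (-τ) (-(Real.exp (2 * τ) * b)))) h
  beta_reduce at h2
  rw [Measure.map_map (measurable_phiT _ _) (measurable_phiT _ _),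
    Measure.map_map (measurable_phiT _ _) (measurable_phiT _ _), hc, Measure.map_id,
    Measure.map_id] at h2
  exact h2

variable (m : Measure X) [IsProbabilityMeasure m] [SMulInvariantMeasure G X m]

theorem phiT_uniq {ν : Measure (X × X)} (hj : IsJoin m ν) (hp : ν ≠ m.prod m) {τ b b' : ℝ}
    (h : ν.map (phiT τ b) = ν) (h' : ν.map (phiT τ b') = ν) : b = b' := by
  by_contra hne
  apply hp
  refine join_prod m hj (s := b' - b) (sub_ne_zero.2 (Ne.symm hne)) ?_
  apply phiT_inj τ b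
  rw [Measure.map_map (measurable_phiT _ _) (measurable_act2 _), phiT_act2, h, h']

theorem a_shift {ν : Measure (X × X)} (hj : IsJoin m ν) (hp : ν ≠ m.prod m)
    (hA : ∃ τ0 > 0, ∀ τ : ℝ, |τ| ≤ τ0 → ∃ b : ℝ,
      ν.map (fun z => (a τ • z.1, a τ • u b • z.2)) = ν) :
    ∃ c : ℝ, ∀ τ : ℝ, (ν.map (act2 (u c))).map (fun z => a τ • z) = ν.map (act2 (u c)) := by
  obtain ⟨τ0, hτ0, hA⟩ := hA
  have hA' : ∀ τ : ℝ, |τ| ≤ τ0 → ∃ b : ℝ, ν.map (phiT τ b) = ν := hA
  obtain ⟨b0, hb0⟩ := hA' τ0 (by rw [abs_of_pos hτ0])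
  have hexp : Real.exp (-(2 * τ0)) - 1 ≠ 0 := by
    have : Real.exp (-(2 * τ0)) < 1 := by
      rw [Real.exp_lt_one_iff]
      linarith
    linarith
  obtain ⟨c', hc'⟩ : ∃ c', c' = b0 / (Real.exp (-(2 * τ0)) - 1) := ⟨_, rfl⟩
  have hb0' : b0 = c' * (Real.exp (-(2 * τ0)) - 1) := by rw [hc']; field_simp
  have hb : ∀ τ b : ℝ, ν.map (phiT τ b) = ν → b = c' * (Real.exp (-(2 * τ)) - 1) := by
    intro τ b h
    have h1 : ν.map (phiT (τ0 + τ) (Real.exp (-(2 * τ)) * b0 + b)) = ν := by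
      rw [← phiT_comp, ← Measure.map_map (measurable_phiT _ _) (measurable_phiT _ _), h, hb0]
    have h2 : ν.map (phiT (τ0 + τ) (Real.exp (-(2 * τ0)) * b + b0)) = ν := by
      rw [add_comm τ0 τ, ← phiT_comp, ← Measure.map_map (measurable_phiT _ _)
        (measurable_phiT _ _), hb0, h]
    have h3 := phiT_uniq m hj hp h1 h2
    have h4 : b * (Real.exp (-(2 * τ0)) - 1) = b0 * (Real.exp (-(2 * τ)) - 1) := by linarith
    rw [hb0'] at h4
    have h5 : (b - c' * (Real.exp (-(2 * τ)) - 1)) * (Real.exp (-(2 * τ0)) - 1) = 0 := by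
      linear_combination h4
    rcases mul_eq_zero.1 h5 with h6 | h6
    · linarith
    · exact absurd h6 hexp
  refine ⟨-c', ?_⟩
  set σ : Measure (X × X) := ν.map (act2 (u (-c'))) with hσ
  have hsmall : ∀ τ : ℝ, |τ| ≤ τ0 → σ.map (fun z => a τ • z) = σ := by
    intro τ hτ
    obtain ⟨b, hbτ⟩ := hA' τ hτ
    have hbe := hb τ b hbτ
    have hcomp : (fun z : X × X => a τ • z) ∘ act2 (u (-c')) = act2 (u (-c')) ∘ phiT τ b := by
      funext z
      refine Prod.ext rfl ?_
      change a τ • u (-c') • z.2 = u (-c') • a τ • u b • z.2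
      rw [← mul_smul, ← mul_smul, ← mul_smul]
      congr 1
      rw [u_mul_a, mul_assoc, ← u_add, hbe]
      congr 2
      ring
    rw [hσ, Measure.map_map (measurable_const_smul _) (measurable_act2 _), hcomp,
      ← Measure.map_map (measurable_act2 _) (measurable_phiT _ _), hbτ]
  have hmul : ∀ τ : ℝ, σ.map (fun z => a τ • z) = σ → ∀ n : ℕ,
      σ.map (fun z => a ((n : ℝ) * τ) • z) = σ := by
    intro τ hτ n
    induction n with
    | zero =>
      simp only [Nat.cast_zero, zero_mul, a_zero, one_smul]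
      exact Measure.map_id'
    | succ n ih =>
      have e : a (((n + 1 : ℕ) : ℝ) * τ) = a τ * a ((n : ℝ) * τ) := by
        rw [← a_add]
        congr 1
        push_cast
        ring
      rw [e, ← map_smul_smul, ih, hτ]
  intro τ
  obtain ⟨n, hn⟩ := exists_nat_gt (|τ| / τ0)
  have hn0 : (0 : ℝ) < n := lt_of_le_of_lt (by positivity) hn
  have h1 : |τ / n| ≤ τ0 := by
    rw [abs_div, abs_of_pos hn0, div_le_iff₀ hn0]
    rw [div_lt_iff₀ hτ0] at hn
    linarith
  have h2 := hmul _ (hsmall _ h1) n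
  have h3 : (n : ℝ) * (τ / n) = τ := by field_simp
  rwa [h3] at h2

end Pool.Agent.Work.MP_c9c104_nt
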