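import Pool.Agent.Work.MP_c9c104_nt.Match

/-!
Invariance under the lower unipotent group.
-/

open MeasureTheory Filter Topology Set ProbabilityTheory
open scoped ENNReal NNReal

namespace Pool.Agent.Work.MP_c9c104_nt

variable {X : Type} [TopologicalSpace X] [MeasurableSpace X] [MulAction G X] [HomSp X]
variable {Z : Type} [TopologicalSpace Z] [MeasurableSpace Z] [MulAction G Z] [PhSp Z]

/-- measure of the set of points that lie in infinitely many of the sets -/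
theorem meas_freq {Ω : Type} [MeasurableSpace Ω] (μ : Measure Ω) {δ : ℝ≥0∞} {A : ℕ → Set Ω}
    (h : ∀ n, μ (A n)ᶜ ≤ δ) : μ {x | ∃ᶠ n in atTop, x ∈ A n}ᶜ ≤ δ := by
  have e : {x | ∃ᶠ n in atTop, x ∈ A n}ᶜ = ⋃ N : ℕ, ⋂ n : {n // N ≤ n}, (A n)ᶜ := by
    ext x
    simp only [mem_compl_iff, mem_ofPred_eq, not_frequently, eventually_atTop, mem_iUnion,
      mem_iInter, Subtype.forall]
  rw [e, Monotone.measure_iUnion]
  · refine iSup_le fun N => ?_
    refine le_trans (measure_mono ?_) (h N)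
    exact iInter_subset (fun n : {n // N ≤ n} => (A n)ᶜ) ⟨N, le_rfl⟩
  · intro N M hNM x hx
    simp only [mem_iInter, Subtype.forall] at hx ⊢
    exact fun n hn => hx n (le_trans hNM hn)

/-- size of a conjugate by the diagonal flow of an element that stays small for a long time -/
theorem nrm_conj_small {w : G} {r κ E : ℝ} (hκ : 0 < κ) (hr : 0 < r) (n : ℝ)
    (hn : 0 ≤ n) (hE : E = Real.exp (-(2 * n)))
    (hw : ∀ s ∈ Icc 0 (κ / (r * E)), nrm (u s * w * u (-s)) ≤ 1 / 2) :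
    nrm (a (-n) * w * a n) ≤ (1 + 4 * r / κ + 4 * (r / κ) ^ 2) * E := by
  have hEpos : 0 < E := by rw [hE]; exact Real.exp_pos _
  have hE1 : E ≤ 1 := by
    rw [hE, Real.exp_le_one_iff]
    linarith
  obtain ⟨S, hS⟩ : ∃ S, S = κ / (r * E) := ⟨_, rfl⟩
  have hSpos : 0 < S := by rw [hS]; positivity
  rw [← hS] at hw
  have h1 : ∀ s ∈ Icc 0 S, |w 0 1 + (w 1 1 - w 0 0) * s + (-(w 1 0)) * s ^ 2| ≤ 1 / 2 := by
    intro s hs
    have := (nrm_le_iff.1 (hw s hs)).2.2.1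
    rw [conj01] at this
    have e : w 0 1 + (w 1 1 - w 0 0) * s + (-(w 1 0)) * s ^ 2 =
      w 0 1 + s * (w 1 1 - w 0 0) - s ^ 2 * w 1 0 := by ring
    rwa [e]
  obtain ⟨q1, q2, q3⟩ := quad_coef _ _ _ _ _ hSpos h1
  have hq2 : |w 1 1 - w 0 0| ≤ 4 * (r / κ) * E := by
    have e : 8 * (1 / 2) / S = 4 * (r / κ) * E := by
      rw [hS]; field_simp; ring
    rwa [e] at q2
  have hq3 : |w 1 0| ≤ 4 * (r / κ) ^ 2 * E ^ 2 := by
    have e : 8 * (1 / 2) / S ^ 2 = 4 * (r / κ) ^ 2 * E ^ 2 := by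
      rw [hS]; field_simp; ring
    rwa [e, abs_neg] at q3
  have h0 := nrm_le_iff.1 (hw 0 ⟨le_rfl, hSpos.le⟩)
  simp only [neg_zero, u_zero, one_mul, mul_one] at h0
  obtain ⟨b00, b11, b01, b10⟩ := h0
  have hdet := G_det w
  obtain ⟨R, hR⟩ : ∃ R, R = r / κ := ⟨_, rfl⟩
  have hRpos : 0 < R := by rw [hR]; positivity
  have e4 : 4 * r / κ = 4 * R := by rw [hR]; ring
  rw [e4, ← hR]
  rw [← hR] at hq2 hq3
  -- entries of the conjugate
  have c00 : (a (-n) * w * a n) 0 0 = w 0 0 := by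
    have := aconj00 (-n) w; rwa [neg_neg] at this
  have c11 : (a (-n) * w * a n) 1 1 = w 1 1 := by
    have := aconj11 (-n) w; rwa [neg_neg] at this
  have c01 : (a (-n) * w * a n) 0 1 = E * w 0 1 := by
    have := aconj01 (-n) w
    rw [neg_neg] at this
    rw [this, hE]
    congr 2
    ring
  have c10 : E * (a (-n) * w * a n) 1 0 = w 1 0 := by
    have := aconj10 (-n) w
    rw [neg_neg] at this
    rw [this, hE, ← mul_assoc, ← Real.exp_add]
    have e : -(2 * n) + -(2 * -n) = 0 := by ring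
    rw [e]; simp
  have hc10 : |(a (-n) * w * a n) 1 0| ≤ 4 * R ^ 2 * E := by
    have h2 : E * |(a (-n) * w * a n) 1 0| ≤ 4 * R ^ 2 * E ^ 2 := by
      rw [← abs_of_pos hEpos, ← abs_mul, c10, abs_of_pos hEpos]
      exact hq3
    have h3 : E * |(a (-n) * w * a n) 1 0| ≤ E * (4 * R ^ 2 * E) := by
      rw [show E * (4 * R ^ 2 * E) = 4 * R ^ 2 * E ^ 2 by ring]
      exact h2
    exact le_of_mul_le_mul_left h3 hEpos
  -- the diagonal entries
  have habs : |w 0 1 * w 1 0| ≤ 2 * R ^ 2 * E := by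
    rw [abs_mul]
    have h5 : |w 0 1| * |w 1 0| ≤ 1 / 2 * (4 * R ^ 2 * E ^ 2) :=
      mul_le_mul q1 hq3 (abs_nonneg _) (by norm_num)
    have h6 : R ^ 2 * E ^ 2 ≤ R ^ 2 * E := by
      apply mul_le_mul_of_nonneg_left _ (by positivity)
      nlinarith
    linarith
  have a00 := abs_le.1 b00
  have a11 := abs_le.1 b11
  have k2 := abs_le.1 hq2
  have k3 := abs_le.1 habs
  have h9 : 0 ≤ R * E := by positivity
  have h10 : 0 ≤ R ^ 2 * E := by positivity
  have hw00 : |w 0 0 - 1| ≤ 4 * R * E + 2 * R ^ 2 * E := by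
    -- (p - 1)(p + 1) = t - d p
    have h7 : (w 0 0 - 1) * (w 0 0 + 1) = w 0 1 * w 1 0 - (w 1 1 - w 0 0) * w 0 0 := by
      linear_combination hdet
    have h8 : |(w 0 0 - 1) * (w 0 0 + 1)| ≤ 2 * R ^ 2 * E + 4 * R * E * |w 0 0| := by
      rw [h7]
      refine (abs_sub _ _).trans ?_
      rw [abs_mul (w 1 1 - w 0 0)]
      exact add_le_add habs (mul_le_mul_of_nonneg_right hq2 (abs_nonneg _))
    rw [abs_mul, abs_of_pos (by linarith : 0 < w 0 0 + 1),
      abs_of_pos (by linarith : 0 < w 0 0)] at h8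
    have h12 : 0 ≤ R ^ 2 * E * w 0 0 := mul_nonneg h10 (by linarith)
    have h13 : (4 * R * E + 2 * R ^ 2 * E) * (w 0 0 + 1) =
      (2 * R ^ 2 * E + 4 * R * E * w 0 0) + (4 * (R * E) + 2 * (R ^ 2 * E * w 0 0)) := by ring
    exact le_of_mul_le_mul_right (a := w 0 0 + 1) (by linarith) (by linarith)
  have hw11 : |w 1 1 - 1| ≤ 4 * R * E + 2 * R ^ 2 * E := by
    have h7 : (w 1 1 - 1) * (w 1 1 + 1) = w 0 1 * w 1 0 + (w 1 1 - w 0 0) * w 1 1 := by
      linear_combination hdet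
    have h8 : |(w 1 1 - 1) * (w 1 1 + 1)| ≤ 2 * R ^ 2 * E + 4 * R * E * |w 1 1| := by
      rw [h7]
      refine (abs_add_le _ _).trans ?_
      rw [abs_mul (w 1 1 - w 0 0)]
      exact add_le_add habs (mul_le_mul_of_nonneg_right hq2 (abs_nonneg _))
    rw [abs_mul, abs_of_pos (by linarith : 0 < w 1 1 + 1),
      abs_of_pos (by linarith : 0 < w 1 1)] at h8
    have h12 : 0 ≤ R ^ 2 * E * w 1 1 := mul_nonneg h10 (by linarith)
    have h13 : (4 * R * E + 2 * R ^ 2 * E) * (w 1 1 + 1) =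
      (2 * R ^ 2 * E + 4 * R * E * w 1 1) + (4 * (R * E) + 2 * (R ^ 2 * E * w 1 1)) := by ring
    exact le_of_mul_le_mul_right (a := w 1 1 + 1) (by linarith) (by linarith)
  have h14 : (1 + 4 * R + 4 * R ^ 2) * E = E + 4 * (R * E) + 4 * (R ^ 2 * E) := by ring
  have h15 : 4 * R * E + 2 * R ^ 2 * E = 4 * (R * E) + 2 * (R ^ 2 * E) := by ring
  have h16 : 4 * R ^ 2 * E = 4 * (R ^ 2 * E) := by ring
  rw [nrm_le_iff, c00, c11, c01, h14]
  refine ⟨by linarith, by linarith, ?_, by linarith⟩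
  rw [abs_mul, abs_of_pos hEpos]
  have h17 : E * |w 0 1| ≤ E * (1 / 2) := mul_le_mul_of_nonneg_left q1 hEpos.le
  linarith

variable (m : Measure X) [IsProbabilityMeasure m] [SMulInvariantMeasure G X m]

theorem v_step_ae {ν : Measure (X × X)} {k : ℕ} {κ : Kernel X X} (hF : Fib m ν k κ)
    (hU : ∀ s : ℝ, ν.map (fun z => u s • z) = ν)
    (hA : ∀ τ : ℝ, ν.map (fun z => a τ • z) = ν) {r : ℝ} (hr : r ≠ 0) {δ : ℝ} (hδ : 0 < δ) :
    m {x | ¬ (fun y => v r • y) '' fib κ x ⊆ fib κ (v r • x)} ≤ ENNReal.ofReal δ := by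
  obtain ⟨κ0, hκ0, hmatch⟩ := matching m hF hU hδ (r1 := 1 / 2) (by norm_num)
  have hrpos : 0 < |r| := abs_pos.2 hr
  -- the matrices v_{r_n}
  obtain ⟨E, hE⟩ : ∃ E : ℕ → ℝ, ∀ n, E n = Real.exp (-(2 * (n : ℝ))) := ⟨_, fun _ => rfl⟩
  have hEpos : ∀ n, 0 < E n := fun n => by rw [hE]; exact Real.exp_pos _
  have hElim : Tendsto E atTop (𝓝 0) := by
    have h1 : Tendsto (fun n : ℕ => -(2 * (n : ℝ))) atTop atBot :=
      tendsto_neg_atTop_atBot.comp (tendsto_natCast_atTop_atTop.const_mul_atTop two_pos)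
    have h2 := Real.tendsto_exp_atBot.comp h1
    refine h2.congr fun n => ?_
    rw [hE]; rfl
  have hnrmv : ∀ t : ℝ, nrm (v t) = |t| := by
    intro t
    simp [nrm]
  -- the set for index n; trivial for small n
  have hchoice : ∀ n : ℕ, ∃ A : Set X, m Aᶜ ≤ ENNReal.ofReal δ ∧
      (|E n * r| ≤ κ0 → ∀ x ∈ A, ∀ y ∈ fib κ x, ∃ w : G,
        v (E n * r) • w • y ∈ fib κ (v (E n * r) • x) ∧
        ∀ s ∈ Icc 0 (κ0 / (|r| * E n)), nrm (u s * w * u (-s)) ≤ 1 / 2) := by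
    intro n
    by_cases h : |E n * r| ≤ κ0
    · obtain ⟨A, _, hA2, hA3⟩ := hmatch (v (E n * r)) (by rw [hnrmv]; exact h)
        (κ0 / (|r| * E n)) (by have := hEpos n; positivity) (by
          rw [v10, abs_mul, abs_of_pos (hEpos n)]
          have := hEpos n
          apply le_of_eq
          field_simp)
      exact ⟨A, hA2, fun _ => hA3⟩
    · exact ⟨univ, by simp, fun h' => absurd h' h⟩
  choose A hA1 hA2 using hchoice
  obtain ⟨B, hB⟩ : ∃ B : ℕ → Set X, ∀ n, B n = (fun x => a (n : ℝ) • x) ⁻¹' A n :=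
    ⟨_, fun _ => rfl⟩
  have hBm : ∀ n, m (B n)ᶜ ≤ ENNReal.ofReal δ := by
    intro n
    rw [hB, ← preimage_compl]
    have h1 := (measurePreserving_smul (a (n : ℝ)) m)
    refine le_trans ?_ (hA1 n)
    have h2 : (A n)ᶜ ⊆ toMeasurable m (A n)ᶜ := subset_toMeasurable _ _
    refine le_trans (measure_mono (preimage_mono h2)) ?_
    rw [h1.measure_preimage (measurableSet_toMeasurable _ _).nullMeasurableSet,
      measure_toMeasurable]
  have hfreq := meas_freq m hBm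
  -- almost everywhere conditions
  have hinv : ∀ τ : ℝ, ν.map (fun z => (a τ • z.1, a τ • z.2)) = ν := hA
  have e1 : ∀ᵐ x ∂m, ∀ n : ℕ, fib κ (a (n : ℝ) • x) = (fun y => a (n : ℝ) • y) '' fib κ x :=
    ae_all_iff.2 fun n => fib_equiv m hF _ _ (hinv n)
  have hqv := (measurePreserving_smul (v r) m).quasiMeasurePreserving
  have e2 : ∀ᵐ x ∂m, ∀ n : ℕ, fib κ (a (n : ℝ) • v r • x) =
      (fun y => a (n : ℝ) • y) '' fib κ (v r • x) := hqv.ae e1
  have e3 : ∀ᵐ x ∂m, (fib κ (v r • x)).Finite ∧ (fib κ (v r • x)).ncard = k :=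
    hqv.ae (fib_card m hF)
  have hall := e1.and (e2.and e3)
  have hsub : {x | ¬ (fun y => v r • y) '' fib κ x ⊆ fib κ (v r • x)} ⊆
      {x | ∃ᶠ n in atTop, x ∈ B n}ᶜ ∪ {x | ¬ ((∀ n : ℕ, fib κ (a (n : ℝ) • x) =
        (fun y => a (n : ℝ) • y) '' fib κ x) ∧ (∀ n : ℕ, fib κ (a (n : ℝ) • v r • x) =
      (fun y => a (n : ℝ) • y) '' fib κ (v r • x)) ∧
      ((fib κ (v r • x)).Finite ∧ (fib κ (v r • x)).ncard = k))} := by
    intro x hx
    by_contra hcon
    rw [mem_union, not_or] at hcon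
    obtain ⟨hx1, hx2⟩ := hcon
    rw [mem_compl_iff, not_not, mem_ofPred_eq] at hx1
    rw [mem_ofPred_eq, not_not] at hx2
    obtain ⟨f1, f2, f3, -⟩ := hx2
    apply hx
    rintro _ ⟨y, hy, rfl⟩
    -- the elements w'
    have hstep : ∀ n : ℕ, |E n * r| ≤ κ0 → x ∈ B n → ∃ w : G,
        v r • w • y ∈ fib κ (v r • x) ∧
        nrm w ≤ (1 + 4 * |r| / κ0 + 4 * (|r| / κ0) ^ 2) * E n := by
      intro n hn hxn
      rw [hB] at hxn
      have hy' : a (n : ℝ) • y ∈ fib κ (a (n : ℝ) • x) := by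
        rw [f1 n]; exact ⟨y, hy, rfl⟩
      obtain ⟨w, hw1, hw2⟩ := hA2 n hn _ hxn _ hy'
      have hva : v (E n * r) * a (n : ℝ) = a (n : ℝ) * v r := by
        rw [a_mul_v, hE]
      have hx' : v (E n * r) • a (n : ℝ) • x = a (n : ℝ) • v r • x := by
        rw [← mul_smul, hva, mul_smul]
      rw [hx', f2 n] at hw1
      obtain ⟨y'', hy'', he⟩ := hw1
      refine ⟨a (-(n : ℝ)) * w * a (n : ℝ), ?_, ?_⟩
      · have h5 : v r • (a (-(n : ℝ)) * w * a (n : ℝ)) • y = y'' := by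
          have h6 : y'' = (a (n : ℝ))⁻¹ • v (E n * r) • w • a (n : ℝ) • y := by
            rw [← he, inv_smul_smul]
          rw [h6, ← mul_smul, ← mul_smul, ← mul_smul, ← mul_smul]
          congr 1
          have h7 : (a (n : ℝ))⁻¹ * v (E n * r) = v r * (a (n : ℝ))⁻¹ := by
            rw [inv_mul_eq_iff_eq_mul, ← mul_assoc, ← hva]
            group
          rw [h7, a_inv]
          group
        rw [h5]; exact hy''
      · exact nrm_conj_small hκ0 hrpos (n : ℝ) (Nat.cast_nonneg n) (hE n) hw2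
    have hchoice2 : ∀ n : ℕ, ∃ w : G, (|E n * r| ≤ κ0 → x ∈ B n →
        v r • w • y ∈ fib κ (v r • x)) ∧
        nrm w ≤ (1 + 4 * |r| / κ0 + 4 * (|r| / κ0) ^ 2) * E n := by
      intro n
      by_cases h : |E n * r| ≤ κ0 ∧ x ∈ B n
      · obtain ⟨w, hw1, hw2⟩ := hstep n h.1 h.2
        exact ⟨w, fun _ _ => hw1, hw2⟩
      · refine ⟨1, fun h1 h2 => absurd ⟨h1, h2⟩ h, ?_⟩
        rw [nrm_one]
        have := hEpos n
        positivity
    choose W hW1 hW2 using hchoice2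
    have hW : Tendsto W atTop (𝓝 1) := by
      rw [tendsto_one_iff]
      refine squeeze_zero (fun _ => nrm_nonneg _) hW2 ?_
      have := hElim.const_mul (1 + 4 * |r| / κ0 + 4 * (|r| / κ0) ^ 2)
      rwa [mul_zero] at this
    have hlim : Tendsto (fun n => v r • W n • y) atTop (𝓝 (v r • y)) := by
      have h1 : Tendsto (fun n => W n • y) atTop (𝓝 ((1 : G) • y)) := hW.smul_const y
      rw [one_smul] at h1
      exact h1.const_smul (v r)
    have hev : ∀ᶠ n in atTop, |E n * r| ≤ κ0 := by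
      have h1 : Tendsto (fun n => |E n * r|) atTop (𝓝 0) := by
        have := (hElim.mul_const r).abs
        rwa [zero_mul, abs_zero] at this
      exact (h1.eventually (gt_mem_nhds hκ0)).mono fun n hn => hn.le
    have hfr : ∃ᶠ n in atTop, v r • W n • y ∈ fib κ (v r • x) :=
      (hx1.and_eventually hev).mono fun n hn => hW1 n hn.2 hn.1
    exact f3.isClosed.mem_of_frequently_of_tendsto hfr hlim
  refine le_trans (measure_mono hsub) (le_trans (measure_union_le _ _) ?_)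
  have hnull : m {x | ¬ ((∀ n : ℕ, fib κ (a (n : ℝ) • x) =
        (fun y => a (n : ℝ) • y) '' fib κ x) ∧ (∀ n : ℕ, fib κ (a (n : ℝ) • v r • x) =
      (fun y => a (n : ℝ) • y) '' fib κ (v r • x)) ∧
      ((fib κ (v r • x)).Finite ∧ (fib κ (v r • x)).ncard = k))} = 0 := hall
  rw [hnull, add_zero]
  exact hfreq

theorem v_step {ν : Measure (X × X)} {k : ℕ} {κ : Kernel X X} (hF : Fib m ν k κ)
    (hU : ∀ s : ℝ, ν.map (fun z => u s • z) = ν)
    (hA : ∀ τ : ℝ, ν.map (fun z => a τ • z) = ν) (r : ℝ) : ν.map (fun z => v r • z) = ν := by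
  by_cases hr : r = 0
  · subst hr
    simp only [v_zero, one_smul]
    exact Measure.map_id'
  · apply inv_of_fib m hF
    have h0 : m {x | ¬ (fun y => v r • y) '' fib κ x ⊆ fib κ (v r • x)} = 0 := by
      refine le_antisymm ?_ zero_le
      refine ENNReal.le_of_forall_pos_le_add fun δ hδ _ => ?_
      rw [zero_add]
      have := v_step_ae m hF hU hA hr (δ := (δ : ℝ)) hδ
      rwa [ENNReal.ofReal_coe_nnreal] at this
    exact h0

end Pool.Agent.Work.MP_c9c104_nt
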