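import Pool.Agent.Work.MP_c9c104_nt.Match
import Pool.Agent.Work.MP_c9c104_nt.VStep

/-!
Symmetry under the diagonal flow.
-/

open MeasureTheory Filter Topology Set ProbabilityTheory
open scoped ENNReal NNReal

namespace Pool.Agent.Work.MP_c9c104_nt

variable {X : Type} [TopologicalSpace X] [MeasurableSpace X] [MulAction G X] [HomSp X]
variable {Z : Type} [TopologicalSpace Z] [MeasurableSpace Z] [MulAction G Z] [PhSp Z]

/-- elements whose conjugates by the horocycle flow stay small for all positive times -/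
theorem eq_u_of_small {w : G} (h : ∀ s : ℝ, 0 ≤ s → nrm (u s * w * u (-s)) ≤ 1 / 2) :
    ∃ b : ℝ, w = u b := by
  have h10 : w 1 0 = 0 := by
    by_contra hne
    have hpos : 0 < |w 1 0| := abs_pos.2 hne
    have h0 := (nrm_le_iff.1 (h 0 le_rfl)).2.1
    rw [conj11] at h0
    have h1 := (nrm_le_iff.1 (h (2 / |w 1 0|) (by positivity))).2.1
    rw [conj11] at h1
    have h2 : |2 / |w 1 0| * w 1 0| = 2 := by
      rw [abs_mul, abs_of_nonneg (by positivity : 0 ≤ 2 / |w 1 0|)]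
      field_simp
    have h3 : 2 / |w 1 0| * w 1 0 = (w 1 1 - 0 * w 1 0 - 1) - (w 1 1 - 2 / |w 1 0| * w 1 0 - 1) := by
      ring
    rw [h3] at h2
    have h4 := abs_sub (w 1 1 - 0 * w 1 0 - 1) (w 1 1 - 2 / |w 1 0| * w 1 0 - 1)
    linarith
  have hdiag : w 1 1 = w 0 0 := by
    by_contra hne
    have hne' : w 1 1 - w 0 0 ≠ 0 := sub_ne_zero.2 hne
    have hpos : 0 < |w 1 1 - w 0 0| := abs_pos.2 hne'
    have h0 := (nrm_le_iff.1 (h 0 le_rfl)).2.2.1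
    rw [conj01] at h0
    have h1 := (nrm_le_iff.1 (h (2 / |w 1 1 - w 0 0|) (by positivity))).2.2.1
    rw [conj01, h10] at h1
    rw [h10] at h0
    have h2 : |2 / |w 1 1 - w 0 0| * (w 1 1 - w 0 0)| = 2 := by
      rw [abs_mul, abs_of_nonneg (by positivity : 0 ≤ 2 / |w 1 1 - w 0 0|)]
      field_simp
    have h3 : 2 / |w 1 1 - w 0 0| * (w 1 1 - w 0 0) =
      (w 0 1 + 2 / |w 1 1 - w 0 0| * (w 1 1 - w 0 0) - (2 / |w 1 1 - w 0 0|) ^ 2 * 0) -
        (w 0 1 + 0 * (w 1 1 - w 0 0) - 0 ^ 2 * 0) := by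
      ring
    rw [h3] at h2
    have h4 := abs_sub
      (w 0 1 + 2 / |w 1 1 - w 0 0| * (w 1 1 - w 0 0) - (2 / |w 1 1 - w 0 0|) ^ 2 * 0)
      (w 0 1 + 0 * (w 1 1 - w 0 0) - 0 ^ 2 * 0)
    linarith
  have h00 : w 0 0 = 1 := by
    have hdet := G_det w
    rw [h10, hdiag] at hdet
    have h0 := (nrm_le_iff.1 (h 0 le_rfl)).1
    rw [conj00, h10] at h0
    have h1 := abs_le.1 h0
    have h2 : (w 0 0 - 1) * (w 0 0 + 1) = 0 := by linear_combination hdet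
    rcases mul_eq_zero.1 h2 with h3 | h3
    · linarith
    · linarith
  refine ⟨w 0 1, G_ext ?_ ?_ ?_ ?_⟩
  · rw [h00, u00]
  · rw [u01]
  · rw [h10, u10]
  · rw [hdiag, h00, u11]

/-- the symmetry as a homeomorphism -/
noncomputable def phiHo (τ b : ℝ) : (X × X) ≃ₜ (X × X) :=
  (Homeomorph.smul (a τ)).prodCongr ((Homeomorph.smul (u b)).trans (Homeomorph.smul (a τ)))

variable (m : Measure X) [IsProbabilityMeasure m] [SMulInvariantMeasure G X m]

theorem a_step {ν : Measure (X × X)} (hg : IsGen ν) (hj : IsJoin m ν) (hp : ν ≠ m.prod m) :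
    ∃ τ0 > 0, ∀ τ : ℝ, |τ| ≤ τ0 → ∃ b : ℝ,
      ν.map (fun z => (a τ • z.1, a τ • u b • z.2)) = ν := by
  have hprob := hg.1
  obtain ⟨k, κ, hF⟩ := exists_fib m hg hj hp
  have hU : ∀ s : ℝ, ν.map (fun z => u s • z) = ν := gen_inv hg
  obtain ⟨κ0, hκ0, hmatch⟩ := matching m hF hU (δ := 1 / 2) (r1 := 1 / 2) (by norm_num)
    (by norm_num)
  -- small times
  have hcont : Tendsto (fun τ => nrm (a τ)) (𝓝 0) (𝓝 0) := by
    have := (continuous_nrm.comp continuous_a).tendsto 0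
    simpa [Function.comp_def] using this
  obtain ⟨τ0, hτ0, hsm⟩ := Metric.eventually_nhds_iff.1 (hcont.eventually (gt_mem_nhds hκ0))
  refine ⟨τ0 / 2, by positivity, fun τ hτ => ?_⟩
  have hτκ : nrm (a τ) ≤ κ0 := by
    apply le_of_lt
    apply hsm
    rw [Real.dist_eq, sub_zero]
    linarith
  have hA : ∀ n : ℕ, ∃ A : Set X, m Aᶜ ≤ ENNReal.ofReal (1 / 2) ∧ ∀ x ∈ A, ∀ y ∈ fib κ x,
      ∃ w : G, a τ • w • y ∈ fib κ (a τ • x) ∧
        ∀ s ∈ Icc 0 ((n : ℝ) + 1), nrm (u s * w * u (-s)) ≤ 1 / 2 := by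
    intro n
    obtain ⟨A, _, h2, h3⟩ := hmatch (a τ) hτκ ((n : ℝ) + 1) (by positivity) (by
      rw [a10, abs_zero, mul_zero]; exact hκ0.le)
    exact ⟨A, h2, h3⟩
  choose A hA1 hA2 using hA
  have hfreq := meas_freq m hA1
  have hqa := (measurePreserving_smul (a τ) m).quasiMeasurePreserving
  have f1 := fib_card m hF
  have f2 : ∀ᵐ x ∂m, ∀ y ∈ fib κ x, GenPt ν (x, y) := ae_fib m hF hg.2
  have g1 : ∀ᵐ x ∂m, (fib κ (a τ • x)).Finite ∧ (fib κ (a τ • x)).ncard = k := hqa.ae f1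
  have g2 : ∀ᵐ x ∂m, ∀ y ∈ fib κ (a τ • x), GenPt ν (a τ • x, y) := hqa.ae f2
  have hex : ∃ x, (∃ᶠ n in atTop, x ∈ A n) ∧ ((fib κ x).Finite ∧ (fib κ x).ncard = k) ∧
      (∀ y ∈ fib κ x, GenPt ν (x, y)) ∧ ((fib κ (a τ • x)).Finite ∧
        (fib κ (a τ • x)).ncard = k) ∧ (∀ y ∈ fib κ (a τ • x), GenPt ν (a τ • x, y)) := by
    by_contra hcon
    push Not at hcon
    have hall := f1.and (f2.and (g1.and g2))
    have hz : ∀ᵐ x ∂m, x ∈ {x | ∃ᶠ n in atTop, x ∈ A n}ᶜ := by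
      filter_upwards [hall] with x hx hx2
      obtain ⟨y, hy, hy2⟩ := hcon x hx2 hx.1 hx.2.1 hx.2.2.1
      exact hy2 (hx.2.2.2 y hy)
    have h1 : m {x | ∃ᶠ n in atTop, x ∈ A n}ᶜ = 1 := by
      rw [(ae_eq_univ (s := {x | ∃ᶠ n in atTop, x ∈ A n}ᶜ)).2 hz |> measure_congr]
      exact measure_univ
    rw [h1] at hfreq
    have : (1 : ℝ≥0∞) ≤ ENNReal.ofReal (1 / 2) := hfreq
    rw [← ENNReal.ofReal_one, ENNReal.ofReal_le_ofReal_iff (by norm_num)] at this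
    norm_num at this
  obtain ⟨x, hx, ⟨f3, f4⟩, f5, ⟨f6, -⟩, f7⟩ := hex
  obtain ⟨y, hy⟩ : (fib κ x).Nonempty := by
    rw [← Set.ncard_pos f3, f4]; exact hF.kpos
  -- one element for infinitely many times
  have hfin : {w : G | ∃ y' ∈ fib κ (a τ • x), w • y = (a τ)⁻¹ • y' ∧
      ∀ i j, |w i j| ≤ 3 / 2}.Finite := by
    have : {w : G | ∃ y' ∈ fib κ (a τ • x), w • y = (a τ)⁻¹ • y' ∧ ∀ i j, |w i j| ≤ 3 / 2} =
        ⋃ y' ∈ fib κ (a τ • x), {w : G | w • y = (a τ)⁻¹ • y' ∧ ∀ i j, |w i j| ≤ 3 / 2} := by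
      ext w
      simp only [mem_ofPred_eq, mem_iUnion, exists_prop]
    rw [this]
    exact f6.biUnion fun y' _ => between_finite y _ _
  have hw : ∃ᶠ n : ℕ in atTop, ∃ w ∈ {w : G | ∃ y' ∈ fib κ (a τ • x), w • y = (a τ)⁻¹ • y' ∧
      ∀ i j, |w i j| ≤ 3 / 2}, ∀ s ∈ Icc 0 ((n : ℝ) + 1), nrm (u s * w * u (-s)) ≤ 1 / 2 := by
    refine hx.mono fun n hn => ?_
    obtain ⟨w, hw1, hw2⟩ := hA2 n x hn y hy
    refine ⟨w, ⟨_, hw1, by rw [inv_smul_smul], fun i j => ?_⟩, hw2⟩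
    have h0 := hw2 0 ⟨le_rfl, by positivity⟩
    simp only [neg_zero, u_zero, one_mul, mul_one] at h0
    have := entry_le_nrm w i j
    linarith
  have hone : ∃ w ∈ {w : G | ∃ y' ∈ fib κ (a τ • x), w • y = (a τ)⁻¹ • y' ∧
      ∀ i j, |w i j| ≤ 3 / 2}, ∃ᶠ n : ℕ in atTop,
      ∀ s ∈ Icc 0 ((n : ℝ) + 1), nrm (u s * w * u (-s)) ≤ 1 / 2 := by
    by_contra hcon
    push Not at hcon
    apply hw
    have hcon' : ∀ w ∈ {w : G | ∃ y' ∈ fib κ (a τ • x), w • y = (a τ)⁻¹ • y' ∧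
      ∀ i j, |w i j| ≤ 3 / 2}, ∀ᶠ n : ℕ in atTop,
      ¬ ∀ s ∈ Icc 0 ((n : ℝ) + 1), nrm (u s * w * u (-s)) ≤ 1 / 2 := by
      intro w hw
      exact not_frequently.1 (by
        intro h
        have h1 := hcon w hw
        exact h (h1.mono fun n hn => by
          push Not
          exact hn))
    filter_upwards [(eventually_all_finite hfin).2 hcon'] with n hn
    rintro ⟨w, hw1, hw2⟩
    exact hn w hw1 hw2
  obtain ⟨w, ⟨y', hy', hwy, -⟩, hwfr⟩ := hone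
  obtain ⟨b, rfl⟩ := eq_u_of_small (w := w) (by
    intro s hs
    obtain ⟨N, hN⟩ := exists_nat_ge s
    obtain ⟨n, hn1, hn2⟩ := (hwfr.and_eventually (eventually_ge_atTop N)).exists
    apply hn1 s ⟨hs, ?_⟩
    have : (N : ℝ) ≤ n := by exact_mod_cast hn2
    linarith)
  refine ⟨b, ?_⟩
  have hgen1 : GenPt ν ((phiHo τ b) (x, y)) := by
    have e : (phiHo τ b) (x, y) = (a τ • x, y') := by
      refine Prod.ext rfl ?_
      change a τ • u b • y = y'
      rw [hwy, smul_inv_smul]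
    rw [e]
    exact f7 y' hy'
  have hgen2 : GenPt (ν.map (phiHo τ b)) ((phiHo τ b) (x, y)) := by
    refine genPt_map (phiHo τ b) (Real.exp (-(2 * τ))) (Real.exp_pos _) ?_ (f5 y hy)
    intro s z
    refine Prod.ext ?_ ?_
    · change u s • a τ • z.1 = a τ • u (Real.exp (-(2 * τ)) * s) • z.1
      rw [← mul_smul, ← mul_smul]
      congr 1
      rw [a_mul_u, ← mul_assoc, ← Real.exp_add]
      simp
    · change u s • a τ • u b • z.2 = a τ • u b • u (Real.exp (-(2 * τ)) * s) • z.2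
      rw [← mul_smul, ← mul_smul, ← mul_smul, ← mul_smul]
      congr 1
      have h1 : u s * a τ = a τ * u (Real.exp (-(2 * τ)) * s) := by
        rw [a_mul_u, ← mul_assoc, ← Real.exp_add]
        simp
      rw [h1, mul_assoc, mul_assoc, ← u_add, ← u_add, add_comm]
  have hpm : IsProbabilityMeasure (ν.map (phiHo τ b)) :=
    Measure.isProbabilityMeasure_map (phiHo τ b).continuous.measurable.aemeasurable
  exact (genPt_unique hgen1 hgen2).symm

end Pool.Agent.Work.MP_c9c104_nt
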