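import Pool.Agent.Work.MP_c9c104_nt.Defs

/-!
Elementary algebra and topology of SL(2,R).
-/

open MeasureTheory Filter Topology Set

namespace Pool.Agent.Work.MP_c9c104_nt

theorem G_ext {g h : G} (h00 : g 0 0 = h 0 0) (h01 : g 0 1 = h 0 1) (h10 : g 1 0 = h 1 0)
    (h11 : g 1 1 = h 1 1) : g = h := by
  ext i j
  fin_cases i <;> fin_cases j <;> assumption

theorem G_det (g : G) : g 0 0 * g 1 1 - g 0 1 * g 1 0 = 1 := by
  have := g.2
  rwa [Matrix.det_fin_two] at this

@[simp] theorem mul00 (g h : G) : (g * h) 0 0 = g 0 0 * h 0 0 + g 0 1 * h 1 0 := by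
  simp [Matrix.mul_apply, Fin.sum_univ_two]
@[simp] theorem mul01 (g h : G) : (g * h) 0 1 = g 0 0 * h 0 1 + g 0 1 * h 1 1 := by
  simp [Matrix.mul_apply, Fin.sum_univ_two]
@[simp] theorem mul10 (g h : G) : (g * h) 1 0 = g 1 0 * h 0 0 + g 1 1 * h 1 0 := by
  simp [Matrix.mul_apply, Fin.sum_univ_two]
@[simp] theorem mul11 (g h : G) : (g * h) 1 1 = g 1 0 * h 0 1 + g 1 1 * h 1 1 := by
  simp [Matrix.mul_apply, Fin.sum_univ_two]

@[simp] theorem one00 : (1 : G) 0 0 = 1 := by simp
@[simp] theorem one01 : (1 : G) 0 1 = 0 := by simp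
@[simp] theorem one10 : (1 : G) 1 0 = 0 := by simp
@[simp] theorem one11 : (1 : G) 1 1 = 1 := by simp

@[simp] theorem inv00 (g : G) : (g⁻¹) 0 0 = g 1 1 := by
  simp [Matrix.SpecialLinearGroup.coe_inv, Matrix.adjugate_fin_two]
@[simp] theorem inv01 (g : G) : (g⁻¹) 0 1 = - g 0 1 := by
  simp [Matrix.SpecialLinearGroup.coe_inv, Matrix.adjugate_fin_two]
@[simp] theorem inv10 (g : G) : (g⁻¹) 1 0 = - g 1 0 := by
  simp [Matrix.SpecialLinearGroup.coe_inv, Matrix.adjugate_fin_two]
@[simp] theorem inv11 (g : G) : (g⁻¹) 1 1 = g 0 0 := by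
  simp [Matrix.SpecialLinearGroup.coe_inv, Matrix.adjugate_fin_two]

@[simp] theorem u00 (t : ℝ) : u t 0 0 = 1 := by simp [u]
@[simp] theorem u01 (t : ℝ) : u t 0 1 = t := by simp [u]
@[simp] theorem u10 (t : ℝ) : u t 1 0 = 0 := by simp [u]
@[simp] theorem u11 (t : ℝ) : u t 1 1 = 1 := by simp [u]
@[simp] theorem v00 (t : ℝ) : v t 0 0 = 1 := by simp [v]
@[simp] theorem v01 (t : ℝ) : v t 0 1 = 0 := by simp [v]
@[simp] theorem v10 (t : ℝ) : v t 1 0 = t := by simp [v]
@[simp] theorem v11 (t : ℝ) : v t 1 1 = 1 := by simp [v]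
@[simp] theorem a00 (t : ℝ) : a t 0 0 = Real.exp t := by simp [a]
@[simp] theorem a01 (t : ℝ) : a t 0 1 = 0 := by simp [a]
@[simp] theorem a10 (t : ℝ) : a t 1 0 = 0 := by simp [a]
@[simp] theorem a11 (t : ℝ) : a t 1 1 = Real.exp (-t) := by simp [a]

theorem u_add (s t : ℝ) : u (s + t) = u s * u t := by
  apply G_ext <;> simp; ring
theorem v_add (s t : ℝ) : v (s + t) = v s * v t := by
  apply G_ext <;> simp
theorem a_add (s t : ℝ) : a (s + t) = a s * a t := by
  apply G_ext <;> simp [Real.exp_add]; ring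
@[simp] theorem u_zero : u 0 = 1 := by apply G_ext <;> simp
@[simp] theorem v_zero : v 0 = 1 := by apply G_ext <;> simp
@[simp] theorem a_zero : a 0 = 1 := by apply G_ext <;> simp
theorem u_inv (s : ℝ) : (u s)⁻¹ = u (-s) := by apply G_ext <;> simp
theorem v_inv (s : ℝ) : (v s)⁻¹ = v (-s) := by apply G_ext <;> simp
theorem a_inv (s : ℝ) : (a s)⁻¹ = a (-s) := by apply G_ext <;> simp
@[simp] theorem u_mul_neg (s : ℝ) : u s * u (-s) = 1 := by rw [← u_add]; simp
@[simp] theorem u_neg_mul (s : ℝ) : u (-s) * u s = 1 := by rw [← u_add]; simp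

theorem a_mul_u (t s : ℝ) : a t * u s = u (Real.exp (2 * t) * s) * a t := by
  apply G_ext <;> simp
  rw [show 2 * t = t + t by ring, Real.exp_add, show Real.exp t * Real.exp t * s * Real.exp (-t) =
    Real.exp t * s * (Real.exp t * Real.exp (-t)) by ring, ← Real.exp_add]
  simp
theorem a_mul_v (t r : ℝ) : a t * v r = v (Real.exp (-(2 * t)) * r) * a t := by
  apply G_ext <;> simp
  rw [show -(2 * t) = -t + -t by ring, Real.exp_add,
    show Real.exp (-t) * Real.exp (-t) * r * Real.exp t =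
    Real.exp (-t) * r * (Real.exp (-t) * Real.exp t) by ring, ← Real.exp_add (-t) t]
  simp

theorem conj00 (s : ℝ) (w : G) : (u s * w * u (-s)) 0 0 = w 0 0 + s * w 1 0 := by simp
theorem conj01 (s : ℝ) (w : G) :
    (u s * w * u (-s)) 0 1 = w 0 1 + s * (w 1 1 - w 0 0) - s ^ 2 * w 1 0 := by simp; ring
theorem conj10 (s : ℝ) (w : G) : (u s * w * u (-s)) 1 0 = w 1 0 := by simp
theorem conj11 (s : ℝ) (w : G) : (u s * w * u (-s)) 1 1 = w 1 1 - s * w 1 0 := by simp; ring

theorem aconj01 (t : ℝ) (w : G) : (a t * w * a (-t)) 0 1 = Real.exp (2 * t) * w 0 1 := by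
  simp; rw [show 2 * t = t + t by ring, Real.exp_add]; ring
theorem aconj10 (t : ℝ) (w : G) : (a t * w * a (-t)) 1 0 = Real.exp (-(2 * t)) * w 1 0 := by
  simp; rw [show -(2 * t) = -t + -t by ring, Real.exp_add]; ring
theorem aconj00 (t : ℝ) (w : G) : (a t * w * a (-t)) 0 0 = w 0 0 := by
  simp; rw [mul_comm, ← mul_assoc, ← Real.exp_add]; simp
theorem aconj11 (t : ℝ) (w : G) : (a t * w * a (-t)) 1 1 = w 1 1 := by
  simp; rw [mul_comm, ← mul_assoc, ← Real.exp_add]; simp

/-! continuity -/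

theorem continuous_entry (i j : Fin 2) : Continuous fun g : G => g i j := by
  have h := Matrix.SpecialLinearGroup.continuous_apply (n := Fin 2) (R := ℝ) (fun g : G => g)
    continuous_id i
  exact (continuous_apply j).comp h

theorem continuous_G {α : Type*} [TopologicalSpace α] {f : α → G}
    (h00 : Continuous fun x => f x 0 0) (h01 : Continuous fun x => f x 0 1)
    (h10 : Continuous fun x => f x 1 0) (h11 : Continuous fun x => f x 1 1) : Continuous f := by
  refine Continuous.subtype_mk (f := fun x => (f x : Matrix (Fin 2) (Fin 2) ℝ)) ?_ _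
  refine continuous_matrix fun i j => ?_
  fin_cases i <;> fin_cases j <;> assumption

theorem continuous_u : Continuous u := by
  apply continuous_G <;> simp <;> fun_prop
theorem continuous_v : Continuous v := by
  apply continuous_G <;> simp <;> fun_prop
theorem continuous_a : Continuous a := by
  apply continuous_G <;> simp <;> fun_prop

theorem nrm_nonneg (w : G) : 0 ≤ nrm w := le_max_of_le_left (le_max_of_le_left (abs_nonneg _))
theorem ynrm_nonneg (w : G) : 0 ≤ ynrm w := le_max_of_le_left (abs_nonneg _)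

theorem nrm_lt_iff {w : G} {r : ℝ} : nrm w < r ↔
    |w 0 0 - 1| < r ∧ |w 1 1 - 1| < r ∧ |w 0 1| < r ∧ |w 1 0| < r := by
  simp [nrm, and_assoc]
theorem nrm_le_iff {w : G} {r : ℝ} : nrm w ≤ r ↔
    |w 0 0 - 1| ≤ r ∧ |w 1 1 - 1| ≤ r ∧ |w 0 1| ≤ r ∧ |w 1 0| ≤ r := by
  simp [nrm, and_assoc]
theorem ynrm_lt_iff {w : G} {r : ℝ} : ynrm w < r ↔
    |w 0 0 - w 1 1| < r ∧ |w 0 1| < r ∧ |w 1 0| < r := by
  simp [ynrm]
theorem ynrm_le_iff {w : G} {r : ℝ} : ynrm w ≤ r ↔
    |w 0 0 - w 1 1| ≤ r ∧ |w 0 1| ≤ r ∧ |w 1 0| ≤ r := by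
  simp [ynrm]

theorem continuous_nrm : Continuous nrm := by
  unfold nrm
  have := continuous_entry
  exact ((((this 0 0).sub continuous_const).abs).max (((this 1 1).sub continuous_const).abs)).max
    ((this 0 1).abs.max (this 1 0).abs)
theorem continuous_ynrm : Continuous ynrm := by
  unfold ynrm
  have := continuous_entry
  exact (((this 0 0).sub (this 1 1)).abs).max ((this 0 1).abs.max (this 1 0).abs)

@[simp] theorem nrm_one : nrm 1 = 0 := by simp [nrm]
@[simp] theorem ynrm_one : ynrm 1 = 0 := by simp [ynrm]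

theorem nrm_eq_zero {w : G} : nrm w = 0 ↔ w = 1 := by
  constructor
  · intro h
    have h1 := nrm_le_iff.1 h.le
    obtain ⟨e1, e2, e3, e4⟩ := h1
    have e1 := abs_nonpos_iff.1 e1
    have e2 := abs_nonpos_iff.1 e2
    have e3 := abs_nonpos_iff.1 e3
    have e4 := abs_nonpos_iff.1 e4
    apply G_ext <;> simp <;> linarith
  · rintro rfl; simp

theorem tendsto_G {α : Type*} {l : Filter α} {f : α → G} {g : G}
    (h00 : Tendsto (fun x => f x 0 0) l (𝓝 (g 0 0)))
    (h01 : Tendsto (fun x => f x 0 1) l (𝓝 (g 0 1)))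
    (h10 : Tendsto (fun x => f x 1 0) l (𝓝 (g 1 0)))
    (h11 : Tendsto (fun x => f x 1 1) l (𝓝 (g 1 1))) : Tendsto f l (𝓝 g) := by
  refine (Matrix.SpecialLinearGroup.isClosedEmbedding_val (n := Fin 2)
    (R := ℝ)).isEmbedding.isInducing.tendsto_nhds_iff.2 ?_
  refine tendsto_pi_nhds.2 fun i => tendsto_pi_nhds.2 fun j => ?_
  fin_cases i <;> fin_cases j <;> assumption

theorem tendsto_one_iff {α : Type*} {l : Filter α} {f : α → G} :
    Tendsto f l (𝓝 1) ↔ Tendsto (fun x => nrm (f x)) l (𝓝 0) := by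
  constructor
  · intro h
    have := (continuous_nrm.tendsto 1).comp h
    rwa [nrm_one] at this
  · intro h
    have key : ∀ w : G, |w 0 0 - 1| ≤ nrm w ∧ |w 1 1 - 1| ≤ nrm w ∧ |w 0 1| ≤ nrm w ∧
        |w 1 0| ≤ nrm w := fun w => nrm_le_iff.1 le_rfl
    apply tendsto_G
    · rw [tendsto_iff_dist_tendsto_zero]
      refine squeeze_zero (fun _ => dist_nonneg) (fun x => ?_) h
      rw [Real.dist_eq, one00]; exact (key _).1
    · rw [tendsto_iff_dist_tendsto_zero]
      refine squeeze_zero (fun _ => dist_nonneg) (fun x => ?_) h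
      rw [Real.dist_eq, one01, sub_zero]; exact (key _).2.2.1
    · rw [tendsto_iff_dist_tendsto_zero]
      refine squeeze_zero (fun _ => dist_nonneg) (fun x => ?_) h
      rw [Real.dist_eq, one10, sub_zero]; exact (key _).2.2.2
    · rw [tendsto_iff_dist_tendsto_zero]
      refine squeeze_zero (fun _ => dist_nonneg) (fun x => ?_) h
      rw [Real.dist_eq, one11]; exact (key _).2.1

theorem nhds_one_eq : 𝓝 (1 : G) = comap nrm (𝓝 0) := by
  refine le_antisymm ?_ ?_
  · rw [← tendsto_iff_comap]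
    have := continuous_nrm.tendsto 1
    rwa [nrm_one] at this
  · have : Tendsto (fun g : G => g) (comap nrm (𝓝 0)) (𝓝 1) :=
      tendsto_one_iff.2 tendsto_comap
    exact this

theorem nhds_one_basis : (𝓝 (1 : G)).HasBasis (fun r : ℝ => 0 < r) (fun r => {g | nrm g < r}) := by
  rw [nhds_one_eq]
  have := (nhds_basis_zero_abs_lt ℝ).comap nrm
  refine this.congr (fun _ => Iff.rfl) (fun r _ => ?_)
  ext g
  simp [abs_of_nonneg (nrm_nonneg g)]

/-- for every neighbourhood of `1` there is a radius -/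
theorem exists_nrm {V : Set G} (hV : V ∈ 𝓝 (1 : G)) : ∃ r > 0, ∀ g, nrm g < r → g ∈ V := by
  obtain ⟨r, hr, h⟩ := nhds_one_basis.mem_iff.1 hV
  exact ⟨r, hr, fun g hg => h hg⟩

theorem nrm_mem (r : ℝ) (hr : 0 < r) : {g : G | nrm g < r} ∈ 𝓝 (1 : G) :=
  nhds_one_basis.mem_of_mem hr

/-- bounded subsets of `G` are relatively compact -/
theorem isCompact_bdd (R : ℝ) : IsCompact {g : G | ∀ i j, |g i j| ≤ R} := by
  have hce := Matrix.SpecialLinearGroup.isClosedEmbedding_val (n := Fin 2) (R := ℝ)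
  have hK : IsCompact {M : Matrix (Fin 2) (Fin 2) ℝ | ∀ i j, |M i j| ≤ R} := by
    have h1 := isCompact_univ_pi (fun _ : Fin 2 => isCompact_univ_pi
      (fun _ : Fin 2 => isCompact_Icc (a := -R) (b := R)))
    have h2 : {M : Fin 2 → Fin 2 → ℝ | ∀ i j, |M i j| ≤ R} =
        Set.pi univ fun _ => Set.pi univ fun _ => Icc (-R) R := by
      ext M
      simp only [Set.mem_pi, abs_le, mem_ofPred_eq, mem_univ, true_implies, mem_Icc]
    rw [← h2] at h1
    exact h1
  exact hce.isCompact_preimage hK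

/-- `G` is generated by the two unipotent groups -/
theorem G_gen (S : Subgroup G) (hu : ∀ s, u s ∈ S) (hv : ∀ r, v r ∈ S) : S = ⊤ := by
  have key : ∀ g : G, g 1 0 ≠ 0 → g ∈ S := by
    intro g hg
    have e : g = u ((g 0 0 - 1) / g 1 0) * v (g 1 0) * u ((g 1 1 - 1) / g 1 0) := by
      have hd := G_det g
      apply G_ext
      · simp; field_simp; ring
      · simp; field_simp; linear_combination -hd
      · simp
      · simp; field_simp; ring
    rw [e]
    exact S.mul_mem (S.mul_mem (hu _) (hv _)) (hu _)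
  rw [eq_top_iff]
  intro g _
  by_cases hg : g 1 0 = 0
  · have h0 : g 0 0 ≠ 0 := by
      intro h0
      have hd := G_det g
      rw [hg, h0] at hd
      simp at hd
    have h1 : (v 1 * g) ∈ S := by
      apply key
      simp [hg, h0]
    have h2 : g = v (-1) * (v 1 * g) := by
      rw [← mul_assoc, ← v_add]; simp
    rw [h2]
    exact S.mul_mem (hv _) h1
  · exact key g hg

theorem conj_neg (η : G) (s : ℝ) : u s * (u (-s) * η * u s) * u (-s) = η := by
  have h1 : u s * (u (-s) * η * u s) * u (-s) = (u s * u (-s)) * η * (u s * u (-s)) := by group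
  rw [h1]; simp

end Pool.Agent.Work.MP_c9c104_nt
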