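import Pool.Agent.Work.MP_c9c104_nt.Quot

/-!
Elementary facts on finite orbits of the diagonal action.
-/

open MeasureTheory Filter Topology Set ProbabilityTheory
open scoped ENNReal NNReal

namespace Pool.Agent.Work.MP_c9c104_nt

variable {X : Type} [TopologicalSpace X] [MeasurableSpace X] [MulAction G X] [HomSp X]
variable {Z : Type} [TopologicalSpace Z] [MeasurableSpace Z] [MulAction G Z] [PhSp Z]

theorem finOrb_smul {O : Set (X × X)} (hO : FinOrb O) (g : G) (z : X × X) :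
    g • z ∈ O ↔ z ∈ O := by
  obtain ⟨z0, rfl, _⟩ := hO
  constructor
  · rintro ⟨h, hh⟩
    have hh' : h • z0 = g • z := hh
    refine ⟨g⁻¹ * h, ?_⟩
    change (g⁻¹ * h) • z0 = z
    rw [mul_smul, hh', inv_smul_smul]
  · rintro ⟨h, hh⟩
    have hh' : h • z0 = z := hh
    refine ⟨g * h, ?_⟩
    change (g * h) • z0 = g • z
    rw [mul_smul, hh']

theorem finOrb_fibre {O : Set (X × X)} (hO : FinOrb O) :
    ∃ k : ℕ, 0 < k ∧ ∀ x : X, {y | (x, y) ∈ O}.Finite ∧ {y | (x, y) ∈ O}.ncard = k := by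
  have hsm := finOrb_smul hO
  obtain ⟨z0, hz0, hfin⟩ := hO
  refine ⟨{y | (z0.1, y) ∈ O}.ncard, ?_, ?_⟩
  · rw [Set.ncard_pos hfin]
    refine ⟨z0.2, ?_⟩
    change z0 ∈ O
    rw [hz0]
    exact MulAction.mem_orbit_self z0
  · intro x
    obtain ⟨g, rfl⟩ := MulAction.exists_smul_eq G z0.1 x
    have he : {y | (g • z0.1, y) ∈ O} = (fun y : X => g • y) '' {y | (z0.1, y) ∈ O} := by
      ext y
      constructor
      · intro hy
        refine ⟨g⁻¹ • y, ?_, smul_inv_smul g y⟩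
        have h1 := (hsm g⁻¹ (g • z0.1, y)).2 hy
        have h2 : g⁻¹ • ((g • z0.1, y) : X × X) = (z0.1, g⁻¹ • y) := by
          rw [Prod.smul_mk, inv_smul_smul]
        rw [h2] at h1
        exact h1
      · rintro ⟨w, hw, rfl⟩
        exact (hsm g (z0.1, w)).2 hw
    rw [he]
    exact ⟨hfin.image _, Set.ncard_image_of_injective _ (MulAction.injective g)⟩

theorem finOrb_eq_orbit {O : Set (X × X)} (hO : FinOrb O) {z : X × X} (hz : z ∈ O) :
    O = MulAction.orbit G z := by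
  obtain ⟨z0, rfl, _⟩ := hO
  exact (MulAction.orbit_eq_iff.2 hz).symm

theorem finOrb_closed {O : Set (X × X)} (hO : FinOrb O) : IsClosed O := by
  refine isClosed_of_closure_subset ?_
  rintro ⟨x, y⟩ hz
  have : (𝓝[O] ((x, y) : X × X)).NeBot := mem_closure_iff_nhdsWithin_neBot.1 hz
  have h1 : Tendsto (fun w : X × X => w.1) (𝓝[O] ((x, y) : X × X)) (𝓝 x) :=
    (continuous_fst.tendsto (x, y)).mono_left nhdsWithin_le_nhds
  have h2 : Tendsto (fun w : X × X => w.2) (𝓝[O] ((x, y) : X × X)) (𝓝 y) :=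
    (continuous_snd.tendsto (x, y)).mono_left nhdsWithin_le_nhds
  obtain ⟨g, hg, hgx⟩ := exists_small x h1
  obtain ⟨k, _, hk⟩ := finOrb_fibre hO
  have h3 : Tendsto (fun w : X × X => (g w)⁻¹ • w.2) (𝓝[O] ((x, y) : X × X)) (𝓝 y) := by
    have := (hg.inv).smul h2
    simpa using this
  have h4 : ∀ᶠ w in 𝓝[O] ((x, y) : X × X), (g w)⁻¹ • w.2 ∈ {y' | (x, y') ∈ O} := by
    filter_upwards [self_mem_nhdsWithin] with w hw
    have h5 := (finOrb_smul hO (g w)⁻¹ w).2 hw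
    have h6 : (g w)⁻¹ • w = (x, (g w)⁻¹ • w.2) := by
      refine Prod.ext ?_ rfl
      change (g w)⁻¹ • w.1 = x
      rw [hgx w, inv_smul_smul]
    rw [h6] at h5
    exact h5
  exact (hk x).1.isClosed.mem_of_tendsto h3 h4

theorem isOpen_nbh {O : Set (X × X)} (hO : FinOrb O) (r S : ℝ) : IsOpen (nbh O r S) := by
  rw [isOpen_iff_mem_nhds]
  rintro ⟨x, y⟩ ⟨W, hW, h1, h2, h3, h4⟩
  have hopen : IsOpen {V : G | |V 0 0 - 1| < r ∧ |V 1 1 - 1| < r ∧ |V 1 0| < r ∧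
      |V 0 1| < S + r} := by
    refine (isOpen_lt (((continuous_entry 0 0).sub continuous_const).abs) continuous_const).inter ?_
    refine (isOpen_lt (((continuous_entry 1 1).sub continuous_const).abs) continuous_const).inter ?_
    exact (isOpen_lt (continuous_entry 1 0).abs continuous_const).inter
      (isOpen_lt (continuous_entry 0 1).abs continuous_const)
  have hcont : Continuous fun p : G × G => p.2 * W * p.1⁻¹ := by fun_prop
  have h5 : (fun p : G × G => p.2 * W * p.1⁻¹) ⁻¹' {V : G | |V 0 0 - 1| < r ∧ |V 1 1 - 1| < r ∧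
      |V 1 0| < r ∧ |V 0 1| < S + r} ∈ 𝓝 ((1 : G), (1 : G)) := by
    apply (hopen.preimage hcont).mem_nhds
    rw [mem_preimage]
    simpa using ⟨h1, h2, h3, h4⟩
  rw [nhds_prod_eq, Filter.mem_prod_iff] at h5
  obtain ⟨A, hA, B, hB, hAB⟩ := h5
  have h6 : ((fun g : G => g • x) '' A) ×ˢ ((fun g : G => g • y) '' B) ∈ 𝓝 ((x, y) : X × X) :=
    prod_mem_nhds (smul_mem_nhds x hA) (smul_mem_nhds y hB)
  refine Filter.mem_of_superset h6 ?_
  rintro ⟨_, _⟩ ⟨⟨g, hg, rfl⟩, ⟨h, hh, rfl⟩⟩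
  have h7 := hAB (Set.mk_mem_prod hg hh)
  rw [mem_preimage] at h7
  refine ⟨h * W * g⁻¹, ?_, h7⟩
  change (g • x, (h * W * g⁻¹)⁻¹ • h • y) ∈ O
  have h8 : ((g • x, (h * W * g⁻¹)⁻¹ • h • y) : X × X) = g • (x, W⁻¹ • y) := by
    rw [Prod.smul_mk, smul_smul, smul_smul]
    congr 2
    group
  rw [h8, finOrb_smul hO]
  exact hW

theorem act2_mem_nbh {O : Set (X × X)} {z : X × X} (hz : z ∈ O) {r S c : ℝ} (hr : 0 < r)
    (hc : |c| ≤ S) : act2 (u c) z ∈ nbh O r S := by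
  refine ⟨u c, ?_, by simpa using hr, by simpa using hr, by simpa using hr, ?_⟩
  · change (z.1, (u c)⁻¹ • (u c) • z.2) ∈ O
    rw [inv_smul_smul]
    exact hz
  · rw [u01]; linarith

/-- the displacement set is discrete -/
theorem disp_finite {O : Set (X × X)} (hO : FinOrb O) (z : X × X) (R : ℝ) :
    {W : G | W ∈ disp O z ∧ ∀ i j, |W i j| ≤ R}.Finite := by
  obtain ⟨k, _, hk⟩ := finOrb_fibre hO
  have h1 : (⋃ y ∈ {y | (z.1, y) ∈ O}, {W : G | W • y = z.2 ∧ ∀ i j, |W i j| ≤ R}).Finite :=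
    (hk z.1).1.biUnion fun y _ => between_finite y z.2 R
  refine h1.subset ?_
  rintro W ⟨hW, hb⟩
  have hW' : (z.1, W⁻¹ • z.2) ∈ O := hW
  exact mem_biUnion (show W⁻¹ • z.2 ∈ {y | (z.1, y) ∈ O} from hW') ⟨smul_inv_smul W z.2, hb⟩

theorem disp_smul {O : Set (X × X)} (hO : FinOrb O) (z : X × X) (g W : G) :
    W ∈ disp O z ↔ g * W * g⁻¹ ∈ disp O (g • z) := by
  change (z.1, W⁻¹ • z.2) ∈ O ↔ (g • z.1, (g * W * g⁻¹)⁻¹ • g • z.2) ∈ O
  have h8 : ((g • z.1, (g * W * g⁻¹)⁻¹ • g • z.2) : X × X) = g • (z.1, W⁻¹ • z.2) := by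
    rw [Prod.smul_mk, smul_smul, smul_smul]
    congr 2
    group
  rw [h8, finOrb_smul hO]

end Pool.Agent.Work.MP_c9c104_nt
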