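import Pool.Agent.Work.MP_c9c104_nt.Quot

/-!
Haar measure on SL(2,R) and the invariant measure on the homogeneous space.
-/

open MeasureTheory Filter Topology Set ProbabilityTheory
open scoped ENNReal NNReal

namespace Pool.Agent.Work.MP_c9c104_nt

variable {X : Type} [TopologicalSpace X] [MeasurableSpace X] [MulAction G X] [HomSp X]
variable {Z : Type} [TopologicalSpace Z] [MeasurableSpace Z] [MulAction G Z] [PhSp Z]

variable (m : Measure X) [IsProbabilityMeasure m] [SMulInvariantMeasure G X m]

private theorem meas_img (x : X) {E : Set G} (hE : MeasurableSet E)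
    (hi : InjOn (fun g : G => g • x) E) : MeasurableSet ((fun g : G => g • x) '' E) :=
  hE.image_of_continuousOn_injOn (continuous_id.smul continuous_const).continuousOn hi

/-- compact neighbourhoods of `1` whose translates inject into `X` -/
private theorem exists_injK (x : X) : ∃ K : Set G, IsCompact K ∧ K ∈ 𝓝 (1 : G) ∧
    ∀ h : G, InjOn (fun g : G => g • x) ((fun k => h * k) '' K) := by
  obtain ⟨ε, hε, hd⟩ := DiscStab.disc x
  have hc : Tendsto (fun p : G × G => p.1⁻¹ * p.2) (𝓝 (1, 1)) (𝓝 1) := by
    have h : Continuous fun p : G × G => p.1⁻¹ * p.2 := continuous_fst.inv.mul continuous_snd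
    have h2 := h.tendsto (1, 1)
    rwa [inv_one, one_mul] at h2
  have h1 : (fun p : G × G => p.1⁻¹ * p.2) ⁻¹' {g : G | nrm g < ε} ∈ 𝓝 (1 : G) ×ˢ 𝓝 (1 : G) := by
    rw [← nhds_prod_eq]
    exact hc (nrm_mem ε hε)
  obtain ⟨V, hV, hVs⟩ := mem_prod_same_iff.1 h1
  obtain ⟨K, hK, hK2, hK3⟩ := local_compact_nhds hV
  refine ⟨K, hK3, hK, fun h => ?_⟩
  rintro _ ⟨k, hk, rfl⟩ _ ⟨l, hl, rfl⟩ he
  have he' : k • x = l • x := by
    have h5 : (h * k) • x = (h * l) • x := he
    rw [mul_smul, mul_smul] at h5
    exact smul_left_cancel h h5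
  have h2 : (k⁻¹ * l) ∈ MulAction.stabilizer G x := by
    rw [MulAction.mem_stabilizer_iff, mul_smul, ← he', inv_smul_smul]
  have h6 : (k, l) ∈ V ×ˢ V := ⟨hK2 hk, hK2 hl⟩
  have h3 := hVs h6
  rw [mem_preimage, mem_ofPred_eq] at h3
  have h4 := hd _ h2 h3
  have h5 : k = l := inv_mul_eq_one.1 h4
  rw [h5]

/-- partition of `G` into small pieces -/
private theorem exists_partition {K : Set G} (hKc : IsCompact K) (hK : K ∈ 𝓝 (1 : G)) :
    ∃ E : ℕ → Set G, (∀ n, MeasurableSet (E n)) ∧ Pairwise (Function.onFun Disjoint E) ∧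
      (⋃ n, E n = univ) ∧ ∀ n, ∃ h : G, E n ⊆ (fun k => h * k) '' K := by
  obtain ⟨s, hs, hcov⟩ := TopologicalSpace.countable_cover_nhds
    (f := fun h : G => (fun k => h * k) '' K) (fun h => by
      have := (Homeomorph.mulLeft h).isOpenMap.image_mem_nhds hK
      simpa using this)
  have hne : s.Nonempty := by
    by_contra h
    rw [not_nonempty_iff_eq_empty] at h
    rw [h] at hcov
    simp at hcov
    exact (univ_nonempty (α := G)).ne_empty hcov.symm
  obtain ⟨e, he⟩ := hs.exists_eq_range hne
  have hm : ∀ n, MeasurableSet ((fun k => e n * k) '' K) := fun n =>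
    (hKc.image (continuous_const.mul continuous_id)).isClosed.measurableSet
  refine ⟨disjointed fun n => (fun k => e n * k) '' K, fun n => ?_, disjoint_disjointed _, ?_, ?_⟩
  · exact MeasurableSet.disjointed hm n
  · rw [iUnion_disjointed]
    rw [he, biUnion_range] at hcov
    exact hcov
  · exact fun n => ⟨e n, disjointed_subset _ n⟩

private theorem char_u (s : ℝ) : Measure.modularCharacter (u s) = 1 := by
  have h1 : u s = a 1 * u (s / (Real.exp 2 - 1)) * (a 1)⁻¹ * (u (s / (Real.exp 2 - 1)))⁻¹ := by
    have h2 : (Real.exp 2 - 1) ≠ 0 := by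
      have := Real.add_one_lt_exp (x := 2) (by norm_num)
      linarith
    have h3 := a_mul_u 1 (s / (Real.exp 2 - 1))
    rw [h3, mul_inv_cancel_right, u_inv, ← u_add]
    congr 1
    field_simp
    ring_nf
  rw [h1, map_mul, map_mul, map_mul, mul_right_comm (Measure.modularCharacter (a 1)),
    ← map_mul, mul_inv_cancel, map_one, one_mul, ← map_mul, mul_inv_cancel, map_one]

private theorem char_v (r : ℝ) : Measure.modularCharacter (v r) = 1 := by
  have h1 : v r = a 1 * v (r / (Real.exp (-2) - 1)) * (a 1)⁻¹ * (v (r / (Real.exp (-2) - 1)))⁻¹ := by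
    have h2 : (Real.exp (-2) - 1) ≠ 0 := by
      have h0 : Real.exp (-2) < Real.exp 0 := Real.exp_lt_exp.2 (by norm_num)
      rw [Real.exp_zero] at h0
      linarith
    have h3 := a_mul_v 1 (r / (Real.exp (-2) - 1))
    rw [h3, mul_inv_cancel_right, v_inv, ← v_add]
    congr 1
    field_simp
    ring_nf
  rw [h1, map_mul, map_mul, map_mul, mul_right_comm (Measure.modularCharacter (a 1)),
    ← map_mul, mul_inv_cancel, map_one, one_mul, ← map_mul, mul_inv_cancel, map_one]

private theorem char_one (g : G) : Measure.modularCharacterFun g = 1 := by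
  have h := G_gen (Measure.modularCharacter (G := G)).ker (fun s => char_u s) (fun r => char_v r)
  have : g ∈ (Measure.modularCharacter (G := G)).ker := by rw [h]; trivial
  exact this

private theorem haar_right (lam : Measure G) [lam.IsHaarMeasure] : lam.IsMulRightInvariant := by
  refine ⟨fun g => ?_⟩
  have h := Measure.map_right_mul_eq_modularCharacterFun_smul lam g
  rw [h, char_one, one_smul]

include m in
/-- The local Haar measure: `m (E x) = lam E` for sets `E` on which the orbit map is injective;
it is a two-sided Haar measure. -/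
theorem exists_haar : ∃ lam : Measure G, lam.IsHaarMeasure ∧ lam.IsMulRightInvariant ∧
    ∀ (x : X) (E : Set G), MeasurableSet E → InjOn (fun g : G => g • x) E →
      m ((fun g : G => g • x) '' E) = lam E := by
  have hX : Nonempty X := by
    by_contra h
    rw [not_nonempty_iff] at h
    have := measure_univ (μ := m)
    rw [univ_eq_empty_iff.2 h] at this
    simp at this
  obtain ⟨x0⟩ := hX
  obtain ⟨K, hKc, hK, hKi⟩ := exists_injK x0
  obtain ⟨E, hEm, hEd, hEu, hEK⟩ := exists_partition hKc hK
  have hEi : ∀ n, InjOn (fun g : G => g • x0) (E n) := fun n => by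
    obtain ⟨h, hh⟩ := hEK n
    exact (hKi h).mono hh
  have hcont : Continuous fun g : G => g • x0 := by fun_prop
  -- the measure
  let μn : ℕ → Measure G := fun n =>
    (Measure.comap (fun g : E n => (g : G) • x0) m).map Subtype.val
  let lam : Measure G := Measure.sum μn
  have hμn : ∀ n (A : Set G), MeasurableSet A →
      μn n A = m ((fun g : G => g • x0) '' (A ∩ E n)) := by
    intro n A hA
    have hinj : Function.Injective (fun g : E n => (g : G) • x0) := by
      intro g h hgh
      exact Subtype.ext (hEi n g.2 h.2 hgh)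
    have hAm : MeasurableSet ((Subtype.val : E n → G) ⁻¹' A) := measurable_subtype_coe hA
    rw [show μn n A = (Measure.comap (fun g : E n => (g : G) • x0) m) (Subtype.val ⁻¹' A) from
      Measure.map_apply measurable_subtype_coe hA]
    have himg : ∀ B : Set (E n), (fun g : E n => (g : G) • x0) '' B =
        (fun g : G => g • x0) '' (Subtype.val '' B) := by
      intro B
      rw [image_image]
    rw [Measure.comap_apply _ hinj ?_ _ hAm]
    · rw [himg, Subtype.image_preimage_coe, inter_comm]
    · intro B hB
      rw [himg]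
      apply meas_img
      · exact (MeasurableEmbedding.subtype_coe (hEm n)).measurableSet_image.2 hB
      · exact (hEi n).mono (by simp)
  have hlam : ∀ A : Set G, MeasurableSet A →
      lam A = ∑' n, m ((fun g : G => g • x0) '' (A ∩ E n)) := by
    intro A hA
    rw [Measure.sum_apply _ hA]
    exact tsum_congr fun n => hμn n A hA
  have hsplit : ∀ A : Set G, A = ⋃ n, A ∩ E n := fun A => by
    rw [← inter_iUnion, hEu, inter_univ]
  have hinjA : ∀ A : Set G, MeasurableSet A → InjOn (fun g : G => g • x0) A →
      m ((fun g : G => g • x0) '' A) = lam A := by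
    intro A hA hi
    rw [hlam A hA]
    conv_lhs => rw [hsplit A, image_iUnion]
    rw [measure_iUnion]
    · intro i j hij
      have h1 : Disjoint (A ∩ E i) (A ∩ E j) :=
        (hEd hij).mono inter_subset_right inter_subset_right
      refine disjoint_left.2 ?_
      rintro _ ⟨g, hg, rfl⟩ ⟨g', hg', he⟩
      have h2 : g' = g := hi hg'.1 hg.1 he
      exact disjoint_left.1 h1 hg (h2 ▸ hg')
    · intro n
      exact meas_img x0 (hA.inter (hEm n)) (hi.mono inter_subset_left)
  -- left invariance
  have hleft : lam.IsMulLeftInvariant := by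
    refine ⟨fun h => ?_⟩
    refine Measure.ext fun A hA => ?_
    have hmul : Measurable fun g : G => h * g := (continuous_const.mul continuous_id).measurable
    rw [Measure.map_apply hmul hA, hlam _ (hmul hA)]
    have hA' : A = ⋃ n, (fun g => h * g) '' ((fun g => h * g) ⁻¹' A ∩ E n) := by
      rw [← image_iUnion, ← hsplit, image_preimage_eq]
      exact (Equiv.mulLeft h).surjective
    have hme : ∀ n, MeasurableSet ((fun g => h * g) '' ((fun g => h * g) ⁻¹' A ∩ E n)) := fun n =>
      ((Homeomorph.mulLeft h).measurableEmbedding.measurableSet_image).2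
        ((hmul hA).inter (hEm n))
    have hd : Pairwise (Function.onFun Disjoint
        fun n => (fun g => h * g) '' ((fun g => h * g) ⁻¹' A ∩ E n)) := by
      intro i j hij
      have h1 : Disjoint ((fun g => h * g) ⁻¹' A ∩ E i) ((fun g => h * g) ⁻¹' A ∩ E j) :=
        (hEd hij).mono inter_subset_right inter_subset_right
      exact (disjoint_image_iff (mul_right_injective h)).2 h1
    conv_rhs => rw [hA', measure_iUnion hd hme]
    refine tsum_congr fun n => ?_
    have hi : InjOn (fun g : G => g • x0) ((fun g => h * g) '' ((fun g => h * g) ⁻¹' A ∩ E n)) := by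
      rintro _ ⟨k, hk, rfl⟩ _ ⟨l, hl, rfl⟩ he
      simp only [mul_smul] at he
      have he' := smul_left_cancel h he
      rw [hEi n hk.2 hl.2 he']
    rw [← hinjA _ (hme n) hi]
    have h2 : (fun g : G => g • x0) '' ((fun g => h * g) '' ((fun g => h * g) ⁻¹' A ∩ E n)) =
        (fun y : X => h⁻¹ • y) ⁻¹' ((fun g : G => g • x0) '' ((fun g => h * g) ⁻¹' A ∩ E n)) := by
      ext y
      simp only [mem_image, mem_preimage, exists_exists_and_eq_and]
      constructor
      · rintro ⟨g, hg, rfl⟩
        exact ⟨g, hg, by rw [mul_smul, inv_smul_smul]⟩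
      · rintro ⟨g, hg, he⟩
        exact ⟨g, hg, by rw [mul_smul, he, smul_inv_smul]⟩
    rw [h2, measure_preimage_smul]
  -- Haar
  have hKm : MeasurableSet K := hKc.isClosed.measurableSet
  have hKi1 : InjOn (fun g : G => g • x0) K := by
    have := hKi 1
    simpa using this
  have hlamK : lam K ≠ ∞ := by
    rw [← hinjA K hKm hKi1]
    exact measure_ne_top _ _
  have hlamK0 : lam K ≠ 0 := by
    intro h0
    have h1 : ∀ n, lam (E n) = 0 := by
      intro n
      obtain ⟨h, hh⟩ := hEK n
      refine measure_mono_null hh ?_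
      have h2 : (fun k => h * k) '' K = (fun k => h⁻¹ * k) ⁻¹' K := by
        ext g
        simp only [mem_image, mem_preimage]
        constructor
        · rintro ⟨k, hk, rfl⟩
          simpa using hk
        · intro hg
          exact ⟨_, hg, by simp⟩
      rw [h2, measure_preimage_mul]
      exact h0
    have h3 : m univ = 0 := by
      have h4 : (univ : Set X) = ⋃ n, (fun g : G => g • x0) '' (E n) := by
        rw [← image_iUnion, hEu, image_univ]
        symm
        rw [range_eq_univ]
        exact fun y => MulAction.exists_smul_eq G x0 y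
      rw [h4, measure_iUnion_null_iff]
      intro n
      rw [hinjA _ (hEm n) (hEi n), h1]
    simp at h3
  have hHaar : lam.IsHaarMeasure := by
    refine Measure.isHaarMeasure_of_isCompact_nonempty_interior lam K hKc ?_ hlamK0 hlamK
    exact ⟨1, mem_interior_iff_mem_nhds.2 hK⟩
  have hright := haar_right lam
  refine ⟨lam, hHaar, hright, fun x A hA hi => ?_⟩
  obtain ⟨h, rfl⟩ := MulAction.exists_smul_eq G x0 x
  have h1 : (fun g : G => g • h • x0) '' A = (fun g : G => g • x0) '' ((fun g => g * h) '' A) := by
    rw [image_image]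
    simp only [mul_smul]
  have hm : MeasurableSet ((fun g => g * h) '' A) :=
    ((Homeomorph.mulRight h).measurableEmbedding.measurableSet_image).2 hA
  have hi2 : InjOn (fun g : G => g • x0) ((fun g => g * h) '' A) := by
    rintro _ ⟨k, hk, rfl⟩ _ ⟨l, hl, rfl⟩ he
    simp only [mul_smul] at he
    rw [hi hk hl he]
  rw [h1, hinjA _ hm hi2]
  have h2 : (fun g => g * h) '' A = (fun g => g * h⁻¹) ⁻¹' A := by
    ext g
    simp only [mem_image, mem_preimage]
    constructor
    · rintro ⟨k, hk, rfl⟩
      simpa using hk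
    · intro hg
      exact ⟨_, hg, by simp⟩
  rw [h2, measure_preimage_mul_right]

/-- null sets: general form -/
private theorem null_aux (lam : Measure G) [lam.IsHaarMeasure] (x : X) :
    (∀ A : Set X, m A = 0 → lam {g : G | g • x ∈ A} = 0) ∧
    (∀ A : Set X, lam {g : G | g • x ∈ A} = 0 → m A = 0) := by
  obtain ⟨lam', hH, hR, hl⟩ := exists_haar m
  have hac1 : lam ≪ lam' := Measure.absolutelyContinuous_isHaarMeasure lam lam'
  have hac2 : lam' ≪ lam := Measure.absolutelyContinuous_isHaarMeasure lam' lam
  obtain ⟨K, hKc, hK, hKi⟩ := exists_injK x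
  obtain ⟨E, hEm, hEd, hEu, hEK⟩ := exists_partition hKc hK
  have hEi : ∀ n, InjOn (fun g : G => g • x) (E n) := fun n => by
    obtain ⟨h, hh⟩ := hEK n
    exact (hKi h).mono hh
  have hcont : Continuous fun g : G => g • x := by fun_prop
  constructor
  · intro A hA
    apply hac1
    obtain ⟨B, hAB, hBm, hB⟩ := exists_measurable_superset_of_null hA
    refine measure_mono_null (t := ⋃ n, {g : G | g • x ∈ B} ∩ E n) ?_ ?_
    · rw [← inter_iUnion, hEu, inter_univ]
      exact fun g hg => hAB hg
    · rw [measure_iUnion_null_iff]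
      intro n
      have h5 := hl x ({g : G | g • x ∈ B} ∩ E n) ((hcont.measurable hBm).inter (hEm n))
        ((hEi n).mono inter_subset_right)
      rw [← h5]
      refine measure_mono_null ?_ hB
      rintro _ ⟨g, hg, rfl⟩
      exact hg.1
  · intro A hA
    have h0 := hac2 hA
    obtain ⟨B, hAB, hBm, hB⟩ := exists_measurable_superset_of_null h0
    refine measure_mono_null (t := ⋃ n, (fun g : G => g • x) '' (B ∩ E n)) ?_ ?_
    · intro y hy
      obtain ⟨g, rfl⟩ := MulAction.exists_smul_eq G x y
      have hg : g ∈ ⋃ n, E n := by rw [hEu]; trivial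
      obtain ⟨n, hn⟩ := mem_iUnion.1 hg
      exact mem_iUnion.2 ⟨n, g, ⟨hAB hy, hn⟩, rfl⟩
    · rw [measure_iUnion_null_iff]
      intro n
      rw [hl x _ (hBm.inter (hEm n)) ((hEi n).mono inter_subset_right)]
      exact measure_mono_null inter_subset_left hB

/-- null sets of `m` and of any Haar measure correspond -/
theorem null_iff (lam : Measure G) [lam.IsHaarMeasure] (x : X) {A : Set X}
    (hA : MeasurableSet A) : m A = 0 ↔ lam {g : G | g • x ∈ A} = 0 :=
  have _ := hA
  ⟨(null_aux m lam x).1 A, (null_aux m lam x).2 A⟩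

theorem ae_iff_ae (lam : Measure G) [lam.IsHaarMeasure] (x : X) (p : X → Prop) :
    (∀ᵐ y ∂m, p y) ↔ ∀ᵐ g ∂lam, p (g • x) := by
  rw [ae_iff, ae_iff]
  exact ⟨(null_aux m lam x).1 {y | ¬ p y}, (null_aux m lam x).2 {y | ¬ p y}⟩

end Pool.Agent.Work.MP_c9c104_nt
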