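import Pool.Agent.Work.MP_c9c104_nt.Fibres
import Pool.Agent.Work.MP_c9c104_nt.Unfold
import Pool.Agent.Work.MP_c9c104_nt.OrbBasic

/-!
Joinings with finite fibres which are invariant under `G` live on one finite orbit.
-/

open MeasureTheory Filter Topology Set ProbabilityTheory
open scoped ENNReal NNReal

namespace Pool.Agent.Work.MP_c9c104_nt

variable {X : Type} [TopologicalSpace X] [MeasurableSpace X] [MulAction G X] [HomSp X]
variable {Z : Type} [TopologicalSpace Z] [MeasurableSpace Z] [MulAction G Z] [PhSp Z]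

theorem measurableSet_orbit (z : Z) : MeasurableSet (MulAction.orbit G z) := by
  have h1 : MulAction.orbit G z = ⋃ n, (fun g : G => g • z) '' (compactCovering G n) := by
    rw [← image_iUnion, iUnion_compactCovering, image_univ]
    rfl
  rw [h1]
  refine MeasurableSet.iUnion fun n => ?_
  refine ((isCompact_compactCovering G n).image ?_).isClosed.measurableSet
  exact continuous_id.smul continuous_const

theorem preimage_orbit (z : Z) (g : G) :
    (fun w => g • w) ⁻¹' (MulAction.orbit G z) = MulAction.orbit G z := by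
  ext w
  simp only [mem_preimage]
  constructor
  · rintro ⟨h, hh⟩
    refine ⟨g⁻¹ * h, ?_⟩
    simp only at hh ⊢
    rw [mul_smul, hh, inv_smul_smul]
  · rintro ⟨h, rfl⟩
    exact ⟨g * h, by simp only; rw [mul_smul]⟩

variable (m : Measure X) [IsProbabilityMeasure m] [SMulInvariantMeasure G X m]

omit [SMulInvariantMeasure G X m] in
/-- converse of `ae_fib` -/
theorem ae_of_fib {ν : Measure (X × X)} {k : ℕ} {κ : Kernel X X} (hF : Fib m ν k κ)
    {p : X × X → Prop} (hp : MeasurableSet {z | p z})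
    (h : ∀ᵐ x ∂m, ∀ y ∈ fib κ x, p (x, y)) : ∀ᵐ z ∂ν, p z := by
  have := hF.markov
  rw [← hF.comp]
  refine Measure.ae_compProd_of_ae_ae hp ?_
  filter_upwards [h, hF.fin] with x hx hfin
  obtain ⟨F, hcard, hκ⟩ := hfin
  have hk : ((k : ℝ≥0∞)⁻¹) ≠ 0 := by simp
  rw [ae_iff, hκ]
  simp only [Measure.coe_finsetSum, Finset.sum_apply, Measure.smul_apply, smul_eq_mul]
  refine Finset.sum_eq_zero fun y hy => ?_
  have h1 : y ∈ fib κ x := by
    show κ x {y} ≠ 0
    rw [hκ]
    simp only [Measure.coe_finsetSum, Finset.sum_apply, Measure.smul_apply, smul_eq_mul]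
    refine ne_of_gt (lt_of_lt_of_le ?_ (Finset.single_le_sum
      (f := fun c => (k : ℝ≥0∞)⁻¹ * (Measure.dirac c) {y}) (fun _ _ => zero_le) hy))
    simp
  have h2 := hx y h1
  rw [Measure.dirac_apply]
  simp [h2]

theorem orbit_str {ν : Measure (X × X)} (hg : IsGen ν) (hj : IsJoin m ν) {k : ℕ}
    {κ : Kernel X X} (hF : Fib m ν k κ) (hG : ∀ g : G, ν.map (fun z => g • z) = ν) :
    ∃ O : Set (X × X), IsFO m ν O := by
  have hν := hj.prob
  set lam : Measure G := Measure.haar with hlam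
  have hE := fib_equiv_group m hF lam hG
  have hC := fib_card m hF
  obtain ⟨x0, hx0, hx0f, -⟩ := (hE.and hC).exists
  have hfull : ∀ᵐ z ∂ν, z ∈ ⋃ y ∈ fib κ x0, MulAction.orbit G (x0, y) := by
    refine ae_of_fib m hF (p := fun z => z ∈ ⋃ y ∈ fib κ x0, MulAction.orbit G (x0, y)) ?_ ?_
    · exact hx0f.measurableSet_biUnion fun y _ => measurableSet_orbit _
    · rw [ae_iff_ae m lam x0]
      filter_upwards [hx0] with g hg y hy
      rw [hg] at hy
      obtain ⟨y', hy', rfl⟩ := hy
      exact mem_biUnion hy' ⟨g, rfl⟩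
  have hex : ∃ y1 ∈ fib κ x0, ν (MulAction.orbit G (x0, y1)) ≠ 0 := by
    by_contra hcon
    push Not at hcon
    have h1 : ν (⋃ y ∈ fib κ x0, MulAction.orbit G (x0, y)) = 0 :=
      (measure_biUnion_null_iff hx0f.countable).2 hcon
    have h2 : ∀ᵐ z ∂ν, False := by
      filter_upwards [hfull, measure_eq_zero_iff_ae_notMem.1 h1] with z h3 h4
      exact h4 h3
    rw [ae_iff] at h2
    simp at h2
  obtain ⟨y1, hy1, hy1ν⟩ := hex
  have h1 : ν (MulAction.orbit G (x0, y1))ᶜ = 0 := by
    refine (gen_erg hg (measurableSet_orbit _) fun s => ?_).resolve_left hy1ν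
    rw [preimage_orbit]
  refine ⟨MulAction.orbit G (x0, y1), hj, hG, ⟨(x0, y1), rfl, ?_⟩, ?_⟩
  · refine hx0f.subset ?_
    rintro y ⟨γ, hγ⟩
    simp only [Prod.smul_mk, Prod.mk.injEq] at hγ
    obtain ⟨hγ1, rfl⟩ := hγ
    have h2 : ∀ᵐ g ∂lam, fib κ ((g * γ) • x0) = (fun y => (g * γ) • y) '' fib κ x0 :=
      (quasiMeasurePreserving_mul_right lam γ).ae hx0
    obtain ⟨g, hg1, hg2⟩ := (hx0.and h2).exists
    rw [mul_smul, hγ1, hg1] at hg2
    have h3 : g • γ • y1 ∈ (fun y => g • y) '' fib κ x0 := by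
      rw [hg2]
      exact ⟨y1, hy1, by simp only; rw [mul_smul]⟩
    obtain ⟨y', hy', he⟩ := h3
    have : y' = γ • y1 := smul_left_cancel g he
    rw [← this]
    exact hy'
  · exact measure_eq_zero_iff_ae_notMem.1 h1 |>.mono fun z hz => by simpa using hz

end Pool.Agent.Work.MP_c9c104_nt
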