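import Pool.Agent.Work.MP_c9c104_nt.AStep
import Pool.Agent.Work.MP_c9c104_nt.AShift
import Pool.Agent.Work.MP_c9c104_nt.VStep
import Pool.Agent.Work.MP_c9c104_nt.Orbit
import Pool.Agent.Work.MP_c9c104_nt.Act

/-!
Classification of generic self joinings.
-/

open MeasureTheory Filter Topology Set ProbabilityTheory
open scoped ENNReal NNReal

namespace Pool.Agent.Work.MP_c9c104_nt

variable {X : Type} [TopologicalSpace X] [MeasurableSpace X] [MulAction G X] [HomSp X]
variable (m : Measure X) [IsProbabilityMeasure m] [SMulInvariantMeasure G X m]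

theorem joining_class {ν : Measure (X × X)} (hg : IsGen ν) (hj : IsJoin m ν) :
    ν = m.prod m ∨ ∃ (c : ℝ) (O : Set (X × X)) (σ : Measure (X × X)), IsFO m σ O ∧
      ν = σ.map (act2 (u c)) := by
  by_cases hp : ν = m.prod m
  · exact Or.inl hp
  right
  obtain ⟨c, hc⟩ := a_shift m hj hp (a_step m hg hj hp)
  have hback : (ν.map (act2 (u c))).map (act2 (u (-c))) = ν := by
    rw [map_act2_act2, u_neg_mul, map_act2_one]
  have hg' := gen_act2 hg c
  have hj' := join_act2 hj (u c)
  have hp' : ν.map (act2 (u c)) ≠ m.prod m := by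
    intro h
    apply hp
    rw [← hback, h, prod_act2]
  obtain ⟨k, κ, hF⟩ := exists_fib m hg' hj' hp'
  have hU := gen_inv hg'
  have hV := v_step m hF hU hc
  have hG := inv_of_uv _ hU hV
  obtain ⟨O, hO⟩ := orbit_str m hg' hj' hF hG
  exact ⟨-c, O, ν.map (act2 (u c)), hO, hback.symm⟩

end Pool.Agent.Work.MP_c9c104_nt
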