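import Pool.Agent.Work.MP_c9c104_nt.NonAb
import Pool.Agent.Work.MP_c9c104_nt.OrbBasic

/-!
There are only countably many finite orbits.
-/

open MeasureTheory Filter Topology Set ProbabilityTheory
open scoped ENNReal NNReal

namespace Pool.Agent.Work.MP_c9c104_nt

variable {X : Type} [TopologicalSpace X] [MeasurableSpace X] [MulAction G X] [HomSp X]
variable {Z : Type} [TopologicalSpace Z] [MeasurableSpace Z] [MulAction G Z] [PhSp Z]

variable (m : Measure X) [IsProbabilityMeasure m] [SMulInvariantMeasure G X m]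

/-- stabilizers are countable -/
theorem stab_countable (x : X) : {g : G | g ∈ MulAction.stabilizer G x}.Countable := by
  have h1 : {g : G | g ∈ MulAction.stabilizer G x} ⊆
      ⋃ n : ℕ, {g : G | g • x = x ∧ ∀ i j, |g i j| ≤ n} := by
    intro g hg
    obtain ⟨n, hn⟩ := exists_nat_ge (nrm g + 1)
    refine mem_iUnion.2 ⟨n, MulAction.mem_stabilizer_iff.1 hg, fun i j => ?_⟩
    exact (entry_le_nrm g i j).trans hn
  exact (countable_iUnion fun n : ℕ => (between_finite x x (n : ℝ)).countable).mono h1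

/-- an element which commutes with two non commuting elements is central -/
theorem ynrm_of_comm {c γ₁ γ₂ : G} (h1 : c * γ₁ = γ₁ * c) (h2 : c * γ₂ = γ₂ * c)
    (h : γ₁ * γ₂ ≠ γ₂ * γ₁) : ynrm c = 0 := by
  by_contra h0
  obtain ⟨s, a1, a2, a3⟩ := commute_prop h1 h0
  obtain ⟨t, b1, b2, b3⟩ := commute_prop h2 h0
  apply h
  apply G_ext
  · simp only [mul00]; rw [a2, a3, b2, b3]; ring
  · simp only [mul01]; rw [a2, b2]
    linear_combination (t * c 0 1) * a1 - (s * c 0 1) * b1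
  · simp only [mul10]; rw [a3, b3]
    linear_combination (s * c 1 0) * b1 - (t * c 1 0) * a1
  · simp only [mul11]; rw [a2, a3, b2, b3]; ring

theorem central_finite : {c : G | ynrm c = 0}.Finite := by
  have hsub : {c : G | ynrm c = 0} ⊆ {1, -1} := by
    intro c hc
    obtain ⟨h1, h2, h3⟩ := ynrm_le_iff.1 (show ynrm c = 0 from hc).le
    have h1' := sub_eq_zero.1 (abs_nonpos_iff.1 h1)
    have h2' := abs_nonpos_iff.1 h2
    have h3' := abs_nonpos_iff.1 h3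
    have hd := G_det c
    rw [h2', h3', ← h1'] at hd
    have hd' : (c 0 0 - 1) * (c 0 0 + 1) = 0 := by linarith
    rcases mul_eq_zero.1 hd' with h4 | h4
    · left
      have h5 : c 0 0 = 1 := by linarith
      apply G_ext <;> simp [h2', h3', ← h1', h5]
    · right
      have h5 : c 0 0 = -1 := by linarith
      apply G_ext <;> simp [h2', h3', ← h1', h5]
  exact (Set.toFinite _).subset hsub

/-- elements conjugating two non commuting elements into given ones -/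
theorem conj_two_finite {γ₁ γ₂ : G} (h : γ₁ * γ₂ ≠ γ₂ * γ₁) (η₁ η₂ : G) :
    {δ : G | δ⁻¹ * γ₁ * δ = η₁ ∧ δ⁻¹ * γ₂ * δ = η₂}.Finite := by
  rcases Set.eq_empty_or_nonempty {δ : G | δ⁻¹ * γ₁ * δ = η₁ ∧ δ⁻¹ * γ₂ * δ = η₂} with h0 | h0
  · rw [h0]; exact Set.finite_empty
  · obtain ⟨δ₀, e1, e2⟩ := h0
    refine (central_finite.image (fun c => c * δ₀)).subset ?_
    rintro δ ⟨f1, f2⟩
    refine ⟨δ * δ₀⁻¹, ?_, by simp⟩
    refine ynrm_of_comm (γ₁ := γ₁) (γ₂ := γ₂) ?_ ?_ h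
    · have e3 : γ₁ * δ = δ * (δ₀⁻¹ * γ₁ * δ₀) := by rw [e1, ← f1]; group
      calc δ * δ₀⁻¹ * γ₁ = (δ * (δ₀⁻¹ * γ₁ * δ₀)) * δ₀⁻¹ := by group
        _ = γ₁ * (δ * δ₀⁻¹) := by rw [← e3]; group
    · have e3 : γ₂ * δ = δ * (δ₀⁻¹ * γ₂ * δ₀) := by rw [e2, ← f2]; group
      calc δ * δ₀⁻¹ * γ₂ = (δ * (δ₀⁻¹ * γ₂ * δ₀)) * δ₀⁻¹ := by group
        _ = γ₂ * (δ * δ₀⁻¹) := by rw [← e3]; group

include m in
theorem countable_finOrb : {O : Set (X × X) | FinOrb O}.Countable := by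
  have hne : Nonempty X := by
    by_contra h0
    rw [not_nonempty_iff] at h0
    have : m univ = 0 := by rw [Set.univ_eq_empty_iff.2 h0, measure_empty]
    rw [measure_univ] at this
    exact one_ne_zero this
  obtain ⟨x0⟩ := hne
  set St : Set G := {g : G | g ∈ MulAction.stabilizer G x0} with hSt
  have hStc : St.Countable := stab_countable x0
  set D : Set G := ⋃ γ₁ ∈ St, ⋃ γ₂ ∈ St, ⋃ η₁ ∈ St, ⋃ η₂ ∈ St,
    {δ : G | γ₁ * γ₂ ≠ γ₂ * γ₁ ∧ δ⁻¹ * γ₁ * δ = η₁ ∧ δ⁻¹ * γ₂ * δ = η₂} with hD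
  have hDc : D.Countable := by
    refine hStc.biUnion fun γ₁ _ => hStc.biUnion fun γ₂ _ => hStc.biUnion fun η₁ _ =>
      hStc.biUnion fun η₂ _ => ?_
    by_cases h : γ₁ * γ₂ = γ₂ * γ₁
    · have : {δ : G | γ₁ * γ₂ ≠ γ₂ * γ₁ ∧ δ⁻¹ * γ₁ * δ = η₁ ∧ δ⁻¹ * γ₂ * δ = η₂} = ∅ := by
        ext δ
        simp [h]
      rw [this]
      exact Set.countable_empty
    · exact ((conj_two_finite h η₁ η₂).subset fun δ hδ => hδ.2).countable
  refine (hDc.image (fun δ : G => MulAction.orbit G ((x0, δ • x0) : X × X))).mono ?_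
  intro O hO
  obtain ⟨z0, hz0, -⟩ := id hO
  have hz0O : z0 ∈ O := by rw [hz0]; exact MulAction.mem_orbit_self z0
  obtain ⟨g, hg⟩ := MulAction.exists_smul_eq G z0.1 x0
  obtain ⟨y, hy⟩ : ∃ y : X, y = g • z0.2 := ⟨_, rfl⟩
  have hyO : ((x0, y) : X × X) ∈ O := by
    have h1 : ((x0, y) : X × X) = g • z0 := by
      rw [hy, ← hg]; rfl
    rw [h1, finOrb_smul hO]
    exact hz0O
  obtain ⟨δ, hδ⟩ := MulAction.exists_smul_eq G x0 y
  refine ⟨δ, ?_, ?_⟩
  · obtain ⟨k, _, hk⟩ := finOrb_fibre hO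
    have hfin : {z : X | ∃ γ ∈ MulAction.stabilizer G x0, z = γ • y}.Finite := by
      refine (hk x0).1.subset ?_
      rintro z ⟨γ, hγ, rfl⟩
      have h2 : ((x0, γ • y) : X × X) = γ • ((x0, y) : X × X) := by
        rw [Prod.smul_mk, MulAction.mem_stabilizer_iff.1 hγ]
      change ((x0, γ • y) : X × X) ∈ O
      rw [h2, finOrb_smul hO]
      exact hyO
    obtain ⟨γ₁, h1, γ₂, h2, h3, h4, h5⟩ := nonab m x0 y hfin
    have hst : ∀ γ : G, γ • y = y → δ⁻¹ * γ * δ ∈ St := by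
      intro γ hγ
      change δ⁻¹ * γ * δ ∈ MulAction.stabilizer G x0
      rw [MulAction.mem_stabilizer_iff, mul_smul, mul_smul, hδ, hγ, ← hδ, inv_smul_smul]
    rw [hD]
    simp only [mem_iUnion]
    exact ⟨γ₁, h1, γ₂, h2, δ⁻¹ * γ₁ * δ, hst γ₁ h3, δ⁻¹ * γ₂ * δ, hst γ₂ h4, h5, rfl, rfl⟩
  · change MulAction.orbit G ((x0, δ • x0) : X × X) = O
    rw [hδ, finOrb_eq_orbit hO hyO]

end Pool.Agent.Work.MP_c9c104_nt
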