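import Mathlib

/-!
Basic definitions for the uniform Moebius disjointness of horocycle flows.
-/

open MeasureTheory Filter Topology Set

namespace Pool.Agent.Work.MP_c9c104_nt

theorem standardBorel_of_measurableEquiv {α β : Type*} [MeasurableSpace α] [MeasurableSpace β]
    [StandardBorelSpace β] (e : α ≃ᵐ β) : StandardBorelSpace α := by
  obtain ⟨τ, h1, h2⟩ := StandardBorelSpace.polish (α := β)
  refine ⟨⟨τ.induced e, ?_, e.toEquiv.polishSpace_induced⟩⟩
  refine @BorelSpace.mk _ (τ.induced e) _ ?_
  rw [borel_comap, ← h1.measurable_eq]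
  refine le_antisymm ?_ e.measurable.comap_le
  intro s hs
  exact ⟨e.symm ⁻¹' s, e.symm.measurable hs, by ext x; simp⟩

instance (priority := 50) standardBorel_lcsc (Z : Type*) [TopologicalSpace Z] [MeasurableSpace Z]
    [BorelSpace Z] [T2Space Z] [LocallyCompactSpace Z] [SecondCountableTopology Z] :
    StandardBorelSpace Z := by
  let := TopologicalSpace.metrizableSpaceMetric Z
  let f : Z → UniformSpace.Completion Z := fun z => z
  have hf : IsEmbedding f := UniformSpace.Completion.isUniformEmbedding_coe Z |>.isEmbedding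
  let : MeasurableSpace (UniformSpace.Completion Z) := borel _
  have : BorelSpace (UniformSpace.Completion Z) := ⟨rfl⟩
  have hr : MeasurableSet (range f) := by
    have : range f = ⋃ n, f '' (compactCovering Z n) := by
      rw [← image_iUnion, iUnion_compactCovering, image_univ]
    rw [this]
    exact MeasurableSet.iUnion fun n =>
      ((isCompact_compactCovering Z n).image hf.continuous).isClosed.measurableSet
  have : StandardBorelSpace (range f) := hr.standardBorel
  exact standardBorel_of_measurableEquiv (hf.measurableEmbedding hr).equivRange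

/-- the group SL(2,R) -/
abbrev G := Matrix.SpecialLinearGroup (Fin 2) ℝ

noncomputable section

instance instLCG : LocallyCompactSpace G :=
  haveI : LocallyCompactSpace (Matrix (Fin 2) (Fin 2) ℝ) :=
    inferInstanceAs (LocallyCompactSpace (Fin 2 → Fin 2 → ℝ))
  (Matrix.SpecialLinearGroup.isClosedEmbedding_val (n := Fin 2) (R := ℝ)).locallyCompactSpace

instance instSCG : SecondCountableTopology G :=
  haveI : SecondCountableTopology (Matrix (Fin 2) (Fin 2) ℝ) :=
    inferInstanceAs (SecondCountableTopology (Fin 2 → Fin 2 → ℝ))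
  (Matrix.SpecialLinearGroup.isClosedEmbedding_val (n := Fin 2)
    (R := ℝ)).isEmbedding.secondCountableTopology

instance instMeasG : MeasurableSpace G := borel G

instance instBorelG : BorelSpace G := ⟨rfl⟩

instance instPolishG : PolishSpace G :=
  haveI : PolishSpace (Matrix (Fin 2) (Fin 2) ℝ) :=
    inferInstanceAs (PolishSpace (Fin 2 → Fin 2 → ℝ))
  (Matrix.SpecialLinearGroup.isClosedEmbedding_val (n := Fin 2) (R := ℝ)).polishSpace

/-- upper unipotent -/
def u (t : ℝ) : G := ⟨!![1, t; 0, 1], by simp [Matrix.det_fin_two]⟩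

/-- lower unipotent -/
def v (r : ℝ) : G := ⟨!![1, 0; r, 1], by simp [Matrix.det_fin_two]⟩

/-- diagonal -/
def a (t : ℝ) : G := ⟨!![Real.exp t, 0; 0, Real.exp (-t)], by
  simp [Matrix.det_fin_two, ← Real.exp_add]⟩

/-- distance to the identity (largest entry of `w - 1`) -/
def nrm (w : G) : ℝ := max (max |w 0 0 - 1| |w 1 1 - 1|) (max |w 0 1| |w 1 0|)

/-- size of the trace free part of `w`; it vanishes exactly at `1` and `-1` -/
def ynrm (w : G) : ℝ := max |w 0 0 - w 1 1| (max |w 0 1| |w 1 0|)

/-- discrete stabilizers -/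
class DiscStab (X : Type) [MulAction G X] : Prop where
  disc : ∀ x : X, ∃ ε > 0, ∀ g ∈ MulAction.stabilizer G x, nrm g < ε → g = 1

/-- homogeneous space of `G` with discrete stabilizers -/
class HomSp (X : Type) [TopologicalSpace X] [MeasurableSpace X] [MulAction G X] : Prop
    extends T2Space X, LocallyCompactSpace X, SecondCountableTopology X, BorelSpace X,
      ContinuousSMul G X, MulAction.IsPretransitive G X, DiscStab X

/-- general phase space: locally compact, second countable, with a continuous action of `G` -/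
class PhSp (Z : Type) [TopologicalSpace Z] [MeasurableSpace Z] [MulAction G Z] : Prop
    extends T2Space Z, LocallyCompactSpace Z, SecondCountableTopology Z, BorelSpace Z,
      ContinuousSMul G Z

instance (X : Type) [TopologicalSpace X] [MeasurableSpace X] [MulAction G X] [HomSp X] :
    PhSp X where

instance (X : Type) [TopologicalSpace X] [MeasurableSpace X] [MulAction G X] [HomSp X] :
    PhSp (X × X) where

/-- thick part -/
def thick (X : Type) [MulAction G X] (ρ : ℝ) : Set X :=
  {x | ∀ η ∈ MulAction.stabilizer G x, ynrm η < ρ → ynrm η = 0}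

/-- `x` has a non central stabilizer element which stays of size at most `C` along the
horocycle segment of length `N`. -/
def TypeC {X : Type} [MulAction G X] (C : ℝ) (x : X) (N : ℝ) : Prop :=
  ∃ η ∈ MulAction.stabilizer G x, ynrm η ≠ 0 ∧ ∀ s ∈ Icc 0 N, ynrm (u s * η * u (-s)) ≤ C

/-- average over the horocycle flow -/
def avg {Z : Type} [MulAction G Z] (f : Z → ℝ) (T : ℝ) (z : Z) : ℝ :=
  (1 / T) * ∫ s in (0 : ℝ)..T, f (u s • z)

/-- continuous with compact support -/
def Cc {Z : Type} [TopologicalSpace Z] (f : Z → ℝ) : Prop := Continuous f ∧ HasCompactSupport f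

/-- generic points -/
def GenPt {Z : Type} [TopologicalSpace Z] [MeasurableSpace Z] [MulAction G Z]
    (ν : Measure Z) (z : Z) : Prop :=
  ∀ f : Z → ℝ, Cc f → Tendsto (fun T : ℝ => avg f T z) atTop (𝓝 (∫ z, f z ∂ν))

/-- generic (equivalently ergodic) measures of the horocycle flow -/
def IsGen {Z : Type} [TopologicalSpace Z] [MeasurableSpace Z] [MulAction G Z]
    (ν : Measure Z) : Prop :=
  IsProbabilityMeasure ν ∧ ∀ᵐ z ∂ν, GenPt ν z

/-- joinings of `m` with itself -/
structure IsJoin {X : Type} [MeasurableSpace X] (m : Measure X) (ν : Measure (X × X)) : Prop where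
  prob : IsProbabilityMeasure ν
  fst : ν.map Prod.fst = m
  snd : ν.map Prod.snd = m

/-- action of `G` on the second coordinate -/
def act2 {X : Type} [MulAction G X] (g : G) (z : X × X) : X × X := (z.1, g • z.2)

/-- finite orbits: orbits of the diagonal action with finite fibres -/
def FinOrb {X : Type} [MulAction G X] (O : Set (X × X)) : Prop :=
  ∃ z0 : X × X, O = MulAction.orbit G z0 ∧ {y | (z0.1, y) ∈ O}.Finite

/-- `σ` is the invariant measure of the finite orbit `O` -/
structure IsFO {X : Type} [MeasurableSpace X] [MulAction G X] (m : Measure X)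
    (σ : Measure (X × X)) (O : Set (X × X)) : Prop where
  join : IsJoin m σ
  inv : ∀ g : G, σ.map (g • ·) = σ
  orb : FinOrb O
  full : ∀ᵐ z ∂σ, z ∈ O

/-- displacements from `O` to `z` in the second coordinate -/
def disp {X : Type} [MulAction G X] (O : Set (X × X)) (z : X × X) : Set G :=
  {W | (z.1, W⁻¹ • z.2) ∈ O}

/-- neighbourhood of `(1, u_[-S,S]) O` -/
def nbh {X : Type} [MulAction G X] (O : Set (X × X)) (r S : ℝ) : Set (X × X) :=
  {z | ∃ W ∈ disp O z, |W 0 0 - 1| < r ∧ |W 1 1 - 1| < r ∧ |W 1 0| < r ∧ |W 0 1| < S + r}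

end

end Pool.Agent.Work.MP_c9c104_nt
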