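import Pool.Agent.Work.MP_c9c104_nt.Basic

/-!
Diagonalization of perturbed diagonal elements.
-/

open MeasureTheory Filter Topology Set ProbabilityTheory
open scoped ENNReal NNReal

namespace Pool.Agent.Work.MP_c9c104_nt

variable {X : Type} [TopologicalSpace X] [MeasurableSpace X] [MulAction G X] [HomSp X]
variable {Z : Type} [TopologicalSpace Z] [MeasurableSpace Z] [MulAction G Z] [PhSp Z]

/-- explicit diagonalization of a hyperbolic matrix -/
private lemma diag_aux (B : G) (t : ℝ) (htr : B 0 0 + B 1 1 = Real.exp t + Real.exp (-t))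
    (ht : Real.exp t ≠ Real.exp (-t)) (hq : B 1 1 ≠ Real.exp t) :
    ∃ h : G, h * B * h⁻¹ = a t := by
  have hd := G_det B
  obtain ⟨l, hl⟩ : ∃ l, l = Real.exp t := ⟨_, rfl⟩
  obtain ⟨m, hm⟩ : ∃ m, m = Real.exp (-t) := ⟨_, rfl⟩
  rw [← hl, ← hm] at htr ht
  rw [← hl] at hq
  have hlm : l * m = 1 := by
    rw [hl, hm, ← Real.exp_add]
    simp
  have hD : (l - m) * (B 1 1 - l) ≠ 0 := mul_ne_zero (sub_ne_zero.2 ht) (sub_ne_zero.2 hq)
  have hbc : B 0 1 * B 1 0 = B 0 0 * B 1 1 - 1 := by linarith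
  have hdet : (l - B 1 1) * (m - B 0 0) - B 0 1 * B 1 0 = (l - m) * (B 1 1 - l) := by
    have hp : B 0 0 = l + m - B 1 1 := by linarith
    rw [hbc, hp]
    linear_combination (-1 : ℝ) * hlm
  obtain ⟨h, e00, e01, e10, e11⟩ : ∃ h : G, h 0 0 = l - B 1 1 ∧ h 0 1 = B 0 1 ∧
      h 1 0 = B 1 0 / ((l - m) * (B 1 1 - l)) ∧
      h 1 1 = (m - B 0 0) / ((l - m) * (B 1 1 - l)) := by
    refine ⟨⟨!![l - B 1 1, B 0 1; B 1 0 / ((l - m) * (B 1 1 - l)),
      (m - B 0 0) / ((l - m) * (B 1 1 - l))], ?_⟩, ?_, ?_, ?_, ?_⟩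
    · rw [Matrix.det_fin_two]
      simp only [Matrix.of_apply, Matrix.cons_val', Matrix.cons_val_zero, Matrix.cons_val_one,
        Matrix.cons_val_fin_one]
      have e : (l - B 1 1) * ((m - B 0 0) / ((l - m) * (B 1 1 - l))) -
          B 0 1 * (B 1 0 / ((l - m) * (B 1 1 - l))) =
          ((l - B 1 1) * (m - B 0 0) - B 0 1 * B 1 0) / ((l - m) * (B 1 1 - l)) := by ring
      rw [e, hdet, div_self hD]
    all_goals simp
  refine ⟨h, ?_⟩
  rw [mul_inv_eq_iff_eq_mul]
  apply G_ext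
  · rw [mul00, mul00, a00, a01, e00, e01, e10, ← hl]
    linear_combination (1 : ℝ) * hbc + l * htr + hlm
  · rw [mul01, mul01, a00, a01, e00, e01, ← hl]
    ring
  · rw [mul10, mul10, a10, a11, e10, e11, ← hm]
    ring
  · rw [mul11, mul11, a10, a11, e10, e11, ← hm]
    have e : B 1 0 * B 0 1 + (m - B 0 0) * B 1 1 = m * (m - B 0 0) := by
      linear_combination (1 : ℝ) * hbc + m * htr + hlm
    have e2 : B 1 0 / ((l - m) * (B 1 1 - l)) * B 0 1 +
        (m - B 0 0) / ((l - m) * (B 1 1 - l)) * B 1 1 =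
        (B 1 0 * B 0 1 + (m - B 0 0) * B 1 1) / ((l - m) * (B 1 1 - l)) := by ring
    rw [e2, e]
    ring

/-- the diagonal entries are near `1` -/
private lemma near_one {L M δ : ℝ} (hL : 0 < L) (hM : 0 < M) (hx : L / M ≤ 1)
    (hx' : L / M ≤ δ / 2) {W : G} (h01 : |W 0 1| ≤ L) (hdiag : |W 0 0 - W 1 1| ≤ L / M)
    (h10 : |W 1 0| ≤ L / M ^ 2) (hpos : 0 < W 0 0 + W 1 1) :
    |W 0 0 - 1| ≤ δ ∧ |W 1 1 - 1| ≤ δ := by
  have hd := G_det W
  set x := L / M with hxdef
  have hx0 : 0 < x := by positivity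
  have hbc : |W 0 1 * W 1 0| ≤ x ^ 2 := by
    rw [abs_mul]
    have e : x ^ 2 = L * (L / M ^ 2) := by rw [hxdef]; ring
    rw [e]
    exact mul_le_mul h01 h10 (abs_nonneg _) hL.le
  have hbc' := abs_le.1 hbc
  set s := W 0 0 + W 1 1 with hs
  set d := W 0 0 - W 1 1 with hdd
  have hd2 : d ^ 2 ≤ x ^ 2 := by
    rw [← sq_abs d]
    exact pow_le_pow_left₀ (abs_nonneg _) hdiag 2
  have hs2 : s ^ 2 = d ^ 2 + 4 * (1 + W 0 1 * W 1 0) := by
    rw [hs, hdd]
    linear_combination 4 * hd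
  have hs3 : |s - 2| ≤ 5 / 2 * x ^ 2 := by
    have h1 : (s - 2) * (s + 2) = d ^ 2 + 4 * (W 0 1 * W 1 0) := by
      linear_combination hs2
    rw [abs_le]
    have hd0 : 0 ≤ d ^ 2 := sq_nonneg d
    constructor
    · by_contra hc
      push Not at hc
      nlinarith
    · by_contra hc
      push Not at hc
      nlinarith
  have hs4 := abs_le.1 hs3
  have hd4 := abs_le.1 hdiag
  have hx2 : x ^ 2 ≤ x := by nlinarith
  have e0 : W 0 0 - 1 = (s - 2) / 2 + d / 2 := by rw [hs, hdd]; ring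
  have e1 : W 1 1 - 1 = (s - 2) / 2 - d / 2 := by rw [hs, hdd]; ring
  rw [e0, e1, abs_le, abs_le]
  refine ⟨⟨?_, ?_⟩, ⟨?_, ?_⟩⟩ <;> linarith

theorem diagonalize {τ : ℝ} (hτ : τ ≠ 0) {L ε : ℝ} (hL : 0 < L) (hε : 0 < ε) :
    ∃ M0 > 0, ∀ M ≥ M0, ∀ W : G, |W 0 1| ≤ L → |W 0 0 - W 1 1| ≤ L / M →
      |W 1 0| ≤ L / M ^ 2 → 0 < W 0 0 + W 1 1 →
      ∃ (h : G) (τ' : ℝ), |τ' - τ| < ε ∧ h * (W⁻¹ * a τ) * h⁻¹ = a τ' := by
  have hτ0 : 0 < |τ| := abs_pos.2 hτ
  set e1 : ℝ := min ε |τ| / 2 with he1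
  have he1pos : 0 < e1 := by
    rw [he1]
    have := lt_min hε hτ0
    linarith
  have he1ε : e1 < ε := by
    have h1 : min ε |τ| ≤ ε := min_le_left _ _
    rw [he1]; linarith
  have he1τ : e1 < |τ| := by
    have h1 : min ε |τ| ≤ |τ| := min_le_right _ _
    rw [he1]; linarith
  set F : ℝ → ℝ := fun t => Real.exp t + Real.exp (-t) with hF
  have hFcosh : ∀ t, F t = 2 * Real.cosh t := fun t => by
    rw [hF, Real.cosh_eq]; ring
  have hFabs : ∀ s t, |s| < |t| → F s < F t := by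
    intro s t hst
    rw [hFcosh, hFcosh]
    have := Real.cosh_lt_cosh.2 hst
    linarith
  have hFc : Continuous F := by rw [hF]; fun_prop
  -- the two end points
  have hends : ∃ η > 0, ∀ T, |T - F τ| ≤ η → T ∈ uIcc (F (τ - e1)) (F (τ + e1)) := by
    rcases lt_or_gt_of_ne hτ with hneg | hpos
    · have a1 : |τ + e1| < |τ| := by
        rw [abs_of_neg hneg] at he1τ ⊢
        rw [abs_lt]; constructor <;> linarith
      have a2 : |τ| < |τ - e1| := by
        rw [abs_of_neg hneg, abs_of_neg (by linarith)]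
        linarith
      have b1 := hFabs _ _ a1
      have b2 := hFabs _ _ a2
      refine ⟨min (F τ - F (τ + e1)) (F (τ - e1) - F τ), lt_min (by linarith) (by linarith), ?_⟩
      intro T hT
      rw [le_min_iff] at hT
      have c1 := abs_le.1 hT.1
      have c2 := abs_le.1 hT.2
      rw [uIcc_comm, uIcc_of_le (by linarith)]
      exact ⟨by linarith, by linarith⟩
    · have a1 : |τ - e1| < |τ| := by
        rw [abs_of_pos hpos] at he1τ ⊢
        rw [abs_lt]; constructor <;> linarith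
      have a2 : |τ| < |τ + e1| := by
        rw [abs_of_pos hpos, abs_of_pos (by linarith)]
        linarith
      have b1 := hFabs _ _ a1
      have b2 := hFabs _ _ a2
      refine ⟨min (F τ - F (τ - e1)) (F (τ + e1) - F τ), lt_min (by linarith) (by linarith), ?_⟩
      intro T hT
      rw [le_min_iff] at hT
      have c1 := abs_le.1 hT.1
      have c2 := abs_le.1 hT.2
      rw [uIcc_of_le (by linarith)]
      exact ⟨by linarith, by linarith⟩
  obtain ⟨η, hη, hIVT⟩ := hends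
  have hFpos : 0 < F τ := by rw [hF]; positivity
  have hexp1 : Real.exp τ ≠ 1 := by
    rw [Ne, Real.exp_eq_one_iff]; exact hτ
  set δ : ℝ := min (η / F τ) (|Real.exp τ - 1| / 2) with hδ
  have hδ0 : 0 < δ := lt_min (by positivity)
    (by have := abs_pos.2 (sub_ne_zero.2 hexp1); linarith)
  have hδ1 : δ * F τ ≤ η := by
    have : δ ≤ η / F τ := min_le_left _ _
    rwa [le_div_iff₀ hFpos] at this
  have hδ2 : δ ≤ |Real.exp τ - 1| / 2 := min_le_right _ _
  set x0 : ℝ := min 1 (δ / 2) with hx0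
  have hx0pos : 0 < x0 := lt_min one_pos (by linarith)
  refine ⟨L / x0, by positivity, ?_⟩
  intro M hM W h01 hdiag h10 hpos
  have hM0 : 0 < M := lt_of_lt_of_le (by positivity) hM
  have hx : L / M ≤ x0 := by
    rw [ge_iff_le, div_le_iff₀ hx0pos] at hM
    rw [div_le_iff₀ hM0]
    linarith
  obtain ⟨n0, n1⟩ := near_one hL hM0 (hx.trans (min_le_left _ _)) (hx.trans (min_le_right _ _))
    h01 hdiag h10 hpos
  set B : G := W⁻¹ * a τ with hB
  have B00 : B 0 0 = W 1 1 * Real.exp τ := by simp [hB]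
  have B11 : B 1 1 = W 0 0 * Real.exp (-τ) := by simp [hB]
  have hT : |B 0 0 + B 1 1 - F τ| ≤ η := by
    have e : B 0 0 + B 1 1 - F τ = (W 1 1 - 1) * Real.exp τ + (W 0 0 - 1) * Real.exp (-τ) := by
      rw [B00, B11, hF]; ring
    rw [e]
    have c1 : |(W 1 1 - 1) * Real.exp τ| ≤ δ * Real.exp τ := by
      rw [abs_mul, abs_of_pos (Real.exp_pos _)]
      exact mul_le_mul_of_nonneg_right n1 (Real.exp_pos _).le
    have c2 : |(W 0 0 - 1) * Real.exp (-τ)| ≤ δ * Real.exp (-τ) := by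
      rw [abs_mul, abs_of_pos (Real.exp_pos _)]
      exact mul_le_mul_of_nonneg_right n0 (Real.exp_pos _).le
    have c3 := abs_add_le ((W 1 1 - 1) * Real.exp τ) ((W 0 0 - 1) * Real.exp (-τ))
    have c4 : δ * F τ = δ * Real.exp τ + δ * Real.exp (-τ) := by rw [hF]; ring
    linarith
  obtain ⟨t, ht, hFt⟩ := intermediate_value_uIcc (hFc.continuousOn) (hIVT _ hT)
  rw [uIcc_of_le (by linarith), mem_Icc] at ht
  have hFt' : B 0 0 + B 1 1 = Real.exp t + Real.exp (-t) := hFt.symm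
  have n0' := abs_le.1 n0
  have key : Real.exp t ≠ Real.exp (-t) ∧ B 1 1 ≠ Real.exp t := by
    rcases lt_or_gt_of_ne hτ with hneg | hpos'
    · have htneg : t < 0 := by
        rw [abs_of_neg hneg] at he1τ
        linarith [ht.2]
      refine ⟨fun h => ?_, fun h => ?_⟩
      · have := Real.exp_injective h
        linarith
      · have h1 : Real.exp τ < 1 := Real.exp_lt_one_iff.2 hneg
        rw [abs_of_neg (by linarith)] at hδ2
        have h2 : Real.exp τ < W 0 0 := by linarith [n0'.1]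
        have h3 : 1 < B 1 1 := by
          rw [B11]
          have h4 : Real.exp τ * Real.exp (-τ) = 1 := by rw [← Real.exp_add]; simp
          have h5 := mul_lt_mul_of_pos_right h2 (Real.exp_pos (-τ))
          linarith
        have h6 : Real.exp t < 1 := Real.exp_lt_one_iff.2 htneg
        linarith
    · have htpos : 0 < t := by
        rw [abs_of_pos hpos'] at he1τ
        linarith [ht.1]
      refine ⟨fun h => ?_, fun h => ?_⟩
      · have := Real.exp_injective h
        linarith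
      · have h1 : 1 < Real.exp τ := Real.one_lt_exp_iff.2 hpos'
        rw [abs_of_pos (by linarith)] at hδ2
        have h2 : W 0 0 < Real.exp τ := by linarith [n0'.2]
        have h3 : B 1 1 < 1 := by
          rw [B11]
          have h4 : Real.exp τ * Real.exp (-τ) = 1 := by rw [← Real.exp_add]; simp
          have h5 := mul_lt_mul_of_pos_right h2 (Real.exp_pos (-τ))
          linarith
        have h6 : 1 < Real.exp t := Real.one_lt_exp_iff.2 htpos
        linarith
  obtain ⟨h, hh⟩ := diag_aux B t hFt' key.1 key.2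
  refine ⟨h, t, ?_, hh⟩
  rw [abs_lt]
  constructor <;> linarith [ht.1, ht.2]

end Pool.Agent.Work.MP_c9c104_nt
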