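import Pool.Agent.Work.MP_c9c104_nt.Sep

/-!
Discrete time limits equal continuous time limits.
-/

open MeasureTheory Filter Topology Set ProbabilityTheory
open scoped ENNReal NNReal

set_option linter.unusedSectionVars false

namespace Pool.Agent.Work.MP_c9c104_nt

variable {X : Type} [TopologicalSpace X] [MeasurableSpace X] [MulAction G X] [HomSp X]
variable {Z : Type} [TopologicalSpace Z] [MeasurableSpace Z] [MulAction G Z] [PhSp Z]

private theorem dc_cont : Continuous fun p : ℝ × Z => u p.1 • p.2 :=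
  (continuous_u.comp continuous_fst).smul continuous_snd

private noncomputable def dm (νd : Measure Z) (r : ℝ) : Measure Z :=
  ((volume.restrict (Ioc 0 r)).prod νd).map fun p : ℝ × Z => u p.1 • p.2

private theorem dm_apply (νd : Measure Z) [IsProbabilityMeasure νd] (r : ℝ) {A : Set Z}
    (hA : MeasurableSet A) :
    dm νd r A = ∫⁻ s in Ioc 0 r, νd ((fun z => u s • z) ⁻¹' A) := by
  unfold dm
  rw [Measure.map_apply dc_cont.measurable hA, Measure.prod_apply (dc_cont.measurable hA)]
  rfl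

private theorem dm_univ (νd : Measure Z) [IsProbabilityMeasure νd] (r : ℝ) :
    dm νd r univ = ENNReal.ofReal r := by
  rw [dm_apply νd r MeasurableSet.univ]
  simp

private instance dm_fin (νd : Measure Z) [IsProbabilityMeasure νd] (r : ℝ) :
    IsFiniteMeasure (dm νd r) := ⟨by rw [dm_univ]; exact ENNReal.ofReal_lt_top⟩

private theorem dc_int {μ : Measure Z} [IsFiniteMeasure μ] {f : Z → ℝ} (hf : Cc f) :
    Integrable f μ := by
  obtain ⟨B, hB⟩ := hf.2.exists_bound_of_continuous hf.1
  exact Integrable.of_bound (C := B) hf.1.aestronglyMeasurable (Eventually.of_forall hB)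

private theorem dm_integral (νd : Measure Z) [IsProbabilityMeasure νd] {r : ℝ} (hr : 0 ≤ r)
    {f : Z → ℝ} (hf : Cc f) :
    ∫ z, f z ∂(dm νd r) = ∫ s in (0 : ℝ)..r, ∫ z, f (u s • z) ∂νd := by
  obtain ⟨B, hB⟩ := hf.2.exists_bound_of_continuous hf.1
  unfold dm
  rw [integral_map dc_cont.measurable.aemeasurable hf.1.aestronglyMeasurable,
    integral_prod, intervalIntegral.integral_of_le hr]
  exact Integrable.of_bound (C := B) (hf.1.comp dc_cont).aestronglyMeasurable
    (Eventually.of_forall fun p => hB _)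

private theorem dc_meas (s : ℝ) : Measurable fun z : Z => u s • z :=
  (continuous_const_smul _).measurable

theorem disc_cont (νd νc : Measure Z) [IsProbabilityMeasure νd] [IsProbabilityMeasure νc]
    {h : ℝ} (hh : 0 < h) (hinv : νd.map (fun z => u h • z) = νd)
    (hc : ∀ f : Z → ℝ, Cc f →
      ∫ z, f z ∂νc = (1 / h) * ∫ s in (0 : ℝ)..h, ∫ z, f (u s • z) ∂νd)
    (κ : Kernel Z Z) [IsMarkovKernel κ] (hκ : νc.bind κ = νc)
    (hκi : ∀ᵐ ω ∂νc, ∀ s : ℝ, (κ ω).map (fun z => u s • z) = κ ω)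
    (hκe : ∀ᵐ ω ∂νc, Ergodic (fun z : Z => u h • z) (κ ω)) : νd = νc := by
  -- νc as an average
  have hνc : νc = ENNReal.ofReal (1 / h) • dm νd h := by
    have hp : IsProbabilityMeasure (ENNReal.ofReal (1 / h) • dm νd h) := by
      constructor
      rw [Measure.smul_apply, dm_univ, smul_eq_mul, ← ENNReal.ofReal_mul (by positivity)]
      rw [one_div, inv_mul_cancel₀ hh.ne', ENNReal.ofReal_one]
    refine meas_ext fun f hf => ?_
    rw [hc f hf, integral_smul_measure, dm_integral νd hh.le hf, ENNReal.toReal_ofReal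
      (by positivity), smul_eq_mul]
  have hνc2 : ∀ A : Set Z, MeasurableSet A →
      ∫⁻ s in Ioc 0 h, νd ((fun z => u s • z) ⁻¹' A) = ENNReal.ofReal h * νc A := by
    intro A hA
    rw [← dm_apply νd h hA]
    conv_rhs => rw [hνc]
    rw [Measure.smul_apply, smul_eq_mul, ← mul_assoc, ← ENNReal.ofReal_mul hh.le, one_div,
      mul_inv_cancel₀ hh.ne', ENNReal.ofReal_one, one_mul]
  -- invariance of νc
  have hνi : ∀ s : ℝ, νc.map (fun z => u s • z) = νc := by
    intro s
    ext A hA
    rw [Measure.map_apply (dc_meas s) hA]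
    conv_lhs => rw [← hκ]
    conv_rhs => rw [← hκ]
    rw [Measure.bind_apply (dc_meas s hA) κ.aemeasurable, Measure.bind_apply hA κ.aemeasurable]
    refine lintegral_congr_ae ?_
    filter_upwards [hκi] with ω hω
    have := hω s
    rw [← Measure.map_apply (dc_meas s) hA, this]
  -- invariance of dm
  have hcomm : ∀ (s t : ℝ) (A : Set Z), (fun z : Z => u s • z) ⁻¹' ((fun z => u t • z) ⁻¹' A) =
      (fun z => u t • z) ⁻¹' ((fun z => u s • z) ⁻¹' A) := by
    intro s t A
    ext z
    simp only [mem_preimage, ← mul_smul, ← u_add, add_comm s t]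
  have main : ∀ r : ℝ, 0 < r → r ≤ h → ∀ A : Set Z, MeasurableSet A →
      dm νd r A = ENNReal.ofReal r * νc A := by
    intro r hr hrh
    have hac : dm νd r ≪ νc := by
      refine Measure.AbsolutelyContinuous.mk fun A hA h0 => ?_
      have h1 := hνc2 A hA
      rw [h0, mul_zero] at h1
      rw [dm_apply νd r hA]
      refine le_antisymm ?_ zero_le
      rw [← h1]
      exact lintegral_mono_set (Ioc_subset_Ioc_right hrh)
    have hT : MeasurePreserving (fun z : Z => u h • z) (dm νd r) (dm νd r) := by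
      refine ⟨dc_meas h, ?_⟩
      ext A hA
      rw [Measure.map_apply (dc_meas h) hA, dm_apply νd r (dc_meas h hA), dm_apply νd r hA]
      refine lintegral_congr fun s => ?_
      rw [hcomm s h A, ← Measure.map_apply (dc_meas h) (dc_meas s hA), hinv]
    have hTc : MeasurePreserving (fun z : Z => u h • z) νc νc := ⟨dc_meas h, hνi h⟩
    have hρ := hT.rnDeriv_comp_aeEq hTc
    set ρ := (dm νd r).rnDeriv νc with hρdef
    have hρm : Measurable ρ := Measure.measurable_rnDeriv _ _
    have hρs : ∀ s : ℝ, ∀ᵐ z ∂νc, ρ (u s • z) = ρ z := by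
      intro s
      have h1 : ∀ᵐ ω ∂νc, ∀ᵐ z ∂(κ ω), (ρ ∘ fun z : Z => u h • z) z = ρ z := by
        have h0 : ∀ᵐ z ∂(νc.bind κ), (ρ ∘ fun z : Z => u h • z) z = ρ z := by rw [hκ]; exact hρ
        exact Measure.ae_ae_of_ae_comp h0
      have h2 : ∀ᵐ ω ∂νc, ∀ᵐ z ∂(κ ω), ρ (u s • z) = ρ z := by
        filter_upwards [h1, hκi, hκe] with ω a1 a2 a3
        obtain ⟨c, hc⟩ := a3.ae_eq_const_of_ae_eq_comp₀ hρm.nullMeasurable a1
        have hc2 : ∀ᵐ z ∂(κ ω), ρ (u s • z) = c := by
          have hq : MeasurePreserving (fun z : Z => u s • z) (κ ω) (κ ω) := ⟨dc_meas s, a2 s⟩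
          exact hq.quasiMeasurePreserving.ae hc
        filter_upwards [hc, hc2] with z b1 b2
        rw [b1, b2]
        rfl
      rw [← hκ]
      refine Measure.ae_comp_of_ae_ae ?_ h2
      exact measurableSet_eq_fun (hρm.comp (dc_meas s)) hρm
    have hinv2 : ∀ s : ℝ, ∀ A : Set Z, MeasurableSet A →
        dm νd r ((fun z => u s • z) ⁻¹' A) = dm νd r A := by
      intro s A hA
      rw [← Measure.setLIntegral_rnDeriv hac, ← Measure.setLIntegral_rnDeriv hac]
      rw [← hρdef]
      have h1 : ∫⁻ z in (fun z => u s • z) ⁻¹' A, ρ z ∂νc =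
          ∫⁻ z in (fun z => u s • z) ⁻¹' A, ρ (u s • z) ∂νc := by
        refine lintegral_congr_ae (ae_restrict_of_ae ?_)
        filter_upwards [hρs s] with z hz
        rw [hz]
      rw [h1, ← setLIntegral_map hA hρm (dc_meas s), hνi s]
    intro A hA
    have hm1 : Measurable fun p : ℝ × ℝ => νd ((fun z => u p.2 • z) ⁻¹' ((fun z => u p.1 • z) ⁻¹' A)) := by
      have : MeasurableSet {q : (ℝ × ℝ) × Z | u q.1.1 • u q.1.2 • q.2 ∈ A} := by
        have hcq : Continuous fun q : (ℝ × ℝ) × Z => u q.1.1 • u q.1.2 • q.2 :=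
          (continuous_u.comp (continuous_fst.comp continuous_fst)).smul
            ((continuous_u.comp (continuous_snd.comp continuous_fst)).smul continuous_snd)
        exact hcq.measurable hA
      exact measurable_measure_prodMk_left this
    have e1 : ENNReal.ofReal h * dm νd r A = ∫⁻ s in Ioc 0 h, dm νd r ((fun z => u s • z) ⁻¹' A) := by
      simp only [hinv2 _ A hA]
      simp [mul_comm]
    have e2 : ∫⁻ s in Ioc 0 h, dm νd r ((fun z => u s • z) ⁻¹' A) =
        ∫⁻ s in Ioc 0 h, ∫⁻ t in Ioc 0 r, νd ((fun z => u t • z) ⁻¹' ((fun z => u s • z) ⁻¹' A)) :=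
      lintegral_congr fun s => dm_apply νd r (dc_meas s hA)
    have e3 : ∫⁻ s in Ioc 0 h, ∫⁻ t in Ioc 0 r,
        νd ((fun z => u t • z) ⁻¹' ((fun z => u s • z) ⁻¹' A)) =
        ∫⁻ t in Ioc 0 r, ∫⁻ s in Ioc 0 h,
        νd ((fun z => u t • z) ⁻¹' ((fun z => u s • z) ⁻¹' A)) :=
      lintegral_lintegral_swap hm1.aemeasurable
    have e4 : ∫⁻ t in Ioc 0 r, ∫⁻ s in Ioc 0 h,
        νd ((fun z => u t • z) ⁻¹' ((fun z => u s • z) ⁻¹' A)) =
        ∫⁻ t in Ioc 0 r, ENNReal.ofReal h * νc A := by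
      refine lintegral_congr fun t => ?_
      have h1 : ∀ s : ℝ, νd ((fun z => u t • z) ⁻¹' ((fun z => u s • z) ⁻¹' A)) =
          νd ((fun z => u s • z) ⁻¹' ((fun z => u t • z) ⁻¹' A)) := fun s => by rw [hcomm]
      simp only [h1]
      rw [hνc2 _ (dc_meas t hA), ← Measure.map_apply (dc_meas t) hA, hνi t]
    have e5 : ∫⁻ t in Ioc 0 r, ENNReal.ofReal h * νc A =
        ENNReal.ofReal h * (ENNReal.ofReal r * νc A) := by
      simp
      ring
    rw [e2, e3, e4, e5] at e1
    exact (ENNReal.mul_right_inj (by simpa using hh) ENNReal.ofReal_ne_top).1 e1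
  -- conclusion
  refine meas_ext fun f hf => ?_
  obtain ⟨B, hB⟩ := hf.2.exists_bound_of_continuous hf.1
  set φ : ℝ → ℝ := fun s => ∫ z, f (u s • z) ∂νd with hφ
  have hφc : Continuous φ := by
    refine continuous_of_dominated (bound := fun _ => B) (fun s => ?_) (fun s => ?_)
      (integrable_const B) ?_
    · exact (hf.1.comp (continuous_const_smul _)).aestronglyMeasurable
    · exact Eventually.of_forall fun z => hB _
    · exact Eventually.of_forall fun z =>
        hf.1.comp (dc_cont.comp (Continuous.prodMk_left z))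
  have hφi : ∀ r : ℝ, 0 < r → r ≤ h → ∫ s in (0 : ℝ)..r, φ s = r * ∫ z, f z ∂νc := by
    intro r hr hrh
    rw [← dm_integral νd hr.le hf]
    have : dm νd r = ENNReal.ofReal r • νc := by
      ext A hA
      rw [main r hr hrh A hA]
      rfl
    rw [this, integral_smul_measure, ENNReal.toReal_ofReal hr.le, smul_eq_mul]
  have h0 : φ 0 = ∫ z, f z ∂νd := by simp [hφ]
  rw [← h0]
  have key : ∀ ε > 0, |φ 0 - ∫ z, f z ∂νc| ≤ ε := by
    intro ε hε
    obtain ⟨δ, hδ, hδ2⟩ := Metric.continuous_iff.1 hφc 0 ε hε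
    set r := min (δ / 2) h with hr
    have hr0 : 0 < r := lt_min (by positivity) hh
    have hrh : r ≤ h := min_le_right _ _
    have hrδ : r ≤ δ / 2 := min_le_left _ _
    have i1 : ∫ s in (0 : ℝ)..r, (φ 0 - φ s) = r * (φ 0 - ∫ z, f z ∂νc) := by
      rw [intervalIntegral.integral_sub (by simp) (hφc.intervalIntegrable _ _), hφi r hr0 hrh]
      simp
      ring
    have i2 : ‖∫ s in (0 : ℝ)..r, (φ 0 - φ s)‖ ≤ ε * |r - 0| := by
      refine intervalIntegral.norm_integral_le_of_norm_le_const fun s hs => ?_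
      rw [uIoc_of_le hr0.le] at hs
      have := hδ2 s (by rw [Real.dist_eq, sub_zero, abs_of_pos hs.1]; linarith [hs.2])
      rw [Real.norm_eq_abs, abs_sub_comm, ← Real.dist_eq]
      exact this.le
    rw [i1, sub_zero, Real.norm_eq_abs, abs_mul, abs_of_pos hr0, mul_comm ε r] at i2
    exact le_of_mul_le_mul_left i2 hr0
  have : |φ 0 - ∫ z, f z ∂νc| ≤ 0 := le_of_forall_pos_le_add fun ε hε => by simpa using key ε hε
  have h3 := abs_nonpos_iff.1 this
  linarith

end Pool.Agent.Work.MP_c9c104_nt
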