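import Pool.Agent.Work.MP_c9c104_nt.Defs

/-!
Limits of tight families of probability measures along ultrafilters.
-/

open MeasureTheory Filter Topology Set ProbabilityTheory
open scoped ENNReal NNReal CompactlySupported

namespace Pool.Agent.Work.MP_c9c104_nt

variable {X : Type} [TopologicalSpace X] [MeasurableSpace X] [MulAction G X] [HomSp X]
variable {Z : Type} [TopologicalSpace Z] [MeasurableSpace Z] [MulAction G Z] [PhSp Z]

theorem ultra_lim_exists {ι : Type} (𝒰 : Ultrafilter ι) (F : ι → ℝ) (B : ℝ)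
    (h : ∀ i, |F i| ≤ B) : ∃ x : ℝ, Tendsto F 𝒰 (𝓝 x) := by
  have h1 : Icc (-B) B ∈ (𝒰.map F : Filter ℝ) := by
    rw [Ultrafilter.coe_map, mem_map]
    exact univ_mem' (fun i => abs_le.mp (h i))
  obtain ⟨x, -, hx⟩ := isCompact_Icc.ultrafilter_le_nhds' (𝒰.map F) h1
  exact ⟨x, hx⟩

theorem cut_bound {Z : Type} [TopologicalSpace Z] [MeasurableSpace Z] [BorelSpace Z]
    (P : Measure Z) [IsProbabilityMeasure P] {φ χ : Z → ℝ}
    (hφ : Continuous φ) (hχ : Continuous χ) {B : ℝ} (hB : ∀ z, |φ z| ≤ B)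
    (h0 : ∀ z, 0 ≤ χ z) (h1 : ∀ z, χ z ≤ 1) :
    |∫ z, φ z ∂P - ∫ z, φ z * χ z ∂P| ≤ B * (1 - ∫ z, χ z ∂P) := by
  have hBd : ∀ {f : Z → ℝ} (C : ℝ), Continuous f → (∀ z, |f z| ≤ C) → Integrable f P := by
    intro f C hf hC
    exact Integrable.of_bound hf.aestronglyMeasurable C (ae_of_all _ (fun z => by
      rw [Real.norm_eq_abs]; exact hC z))
  have iφ : Integrable φ P := hBd B hφ hB
  have iχ : Integrable χ P := hBd 1 hχ (fun z => by rw [abs_of_nonneg (h0 z)]; exact h1 z)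
  have iφχ : Integrable (fun z => φ z * χ z) P := hBd B (hφ.mul hχ) (fun z => by
    rw [abs_mul, abs_of_nonneg (h0 z)]
    have := hB z
    have := h1 z
    have := h0 z
    nlinarith [abs_nonneg (φ z)])
  rw [← integral_sub iφ iφχ]
  have e1 : B * (1 - ∫ z, χ z ∂P) = ∫ z, B * (1 - χ z) ∂P := by
    rw [integral_const_mul, integral_sub (integrable_const _) iχ]
    simp
  rw [e1, ← Real.norm_eq_abs]
  refine norm_integral_le_of_norm_le ((((integrable_const (1 : ℝ)).sub iχ)).const_mul B) ?_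
  refine ae_of_all _ (fun z => ?_)
  rw [Real.norm_eq_abs, show φ z - φ z * χ z = φ z * (1 - χ z) by ring, abs_mul,
    abs_of_nonneg (sub_nonneg.mpr (h1 z))]
  exact mul_le_mul_of_nonneg_right (hB z) (sub_nonneg.mpr (h1 z))

theorem lim_meas {ι : Type} (𝒰 : Ultrafilter ι) (ρ : ι → Measure Z)
    (hρ : ∀ i, IsProbabilityMeasure (ρ i))
    (tight : ∀ ε > 0, ∃ K : Set Z, IsCompact K ∧ ∀ᶠ i in (𝒰 : Filter ι),
      ρ i Kᶜ ≤ ENNReal.ofReal ε) :
    ∃ ν : Measure Z, IsProbabilityMeasure ν ∧ ∀ φ : Z → ℝ, Continuous φ →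
      (∃ B, ∀ z, |φ z| ≤ B) →
      Tendsto (fun i => ∫ z, φ z ∂(ρ i)) 𝒰 (𝓝 (∫ z, φ z ∂ν)) := by
  have hbd : ∀ (g : C_c(Z, ℝ)) (z : Z), |g z| ≤ ‖g.toBoundedContinuousFunction‖ := fun g z =>
    g.toBoundedContinuousFunction.norm_coe_le_norm z
  have hint : ∀ (g : C_c(Z, ℝ)) (i : ι), Integrable (fun z => g z) (ρ i) := fun g i =>
    g.continuous.integrable_of_hasCompactSupport g.hasCompactSupport
  have L (g : C_c(Z, ℝ)) : ∃ x : ℝ, Tendsto (fun i => ∫ z, g z ∂(ρ i)) 𝒰 (𝓝 x) := by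
    refine ultra_lim_exists 𝒰 _ ‖g.toBoundedContinuousFunction‖ (fun i => ?_)
    have := norm_integral_le_of_norm_le_const (μ := ρ i) (f := fun z => g z)
      (ae_of_all _ (fun z => hbd g z))
    rwa [probReal_univ, mul_one] at this
  choose Λ hΛ using L
  let Λ' : C_c(Z, ℝ) →ₚ[ℝ] ℝ :=
  { toFun := Λ
    map_add' g g' := by
      have : Tendsto (fun i => ∫ z, g z + g' z ∂(ρ i)) 𝒰 (𝓝 (Λ g + Λ g')) := by
        convert! (hΛ g).add (hΛ g')
        rw [integral_add (hint g _) (hint g' _)]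
      exact tendsto_nhds_unique (hΛ (g + g')) this
    map_smul' c g := by
      have : Tendsto (fun i => ∫ z, c • g z ∂(ρ i)) 𝒰 (𝓝 (c • Λ g)) := by
        convert! (hΛ g).const_smul c
        rw [integral_smul]
      exact tendsto_nhds_unique (hΛ (c • g)) this
    monotone' g g' hgg' := by
      apply le_of_tendsto_of_tendsto' (hΛ g) (hΛ g') (fun i => ?_)
      exact integral_mono (hint g i) (hint g' i) hgg' }
  set ν : Measure Z := RealRMK.rieszMeasure Λ' with hν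
  have hrep : ∀ g : C_c(Z, ℝ), Tendsto (fun i => ∫ z, g z ∂(ρ i)) 𝒰 (𝓝 (∫ z, g z ∂ν)) := by
    intro g
    have := RealRMK.integral_rieszMeasure Λ' g
    rw [hν, this]
    exact hΛ g
  -- cutoffs
  have hcut : ∀ K : Set Z, IsCompact K → ∃ g : C_c(Z, ℝ), (∀ z ∈ K, g z = 1) ∧
      (∀ z, 0 ≤ g z) ∧ ∀ z, g z ≤ 1 := by
    intro K hK
    obtain ⟨f, hf1, hf2, hf3, hf4⟩ :=
      exists_continuousMap_one_of_isCompact_subset_isOpen hK isOpen_univ (subset_univ _)
    exact ⟨⟨f, hasCompactSupport_def.mpr hf2⟩, fun z hz => hf1 hz, fun z => (hf4 z).1,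
      fun z => (hf4 z).2⟩
  have hχle : ∀ (g : C_c(Z, ℝ)), (∀ z, g z ≤ 1) → Λ g ≤ 1 := by
    intro g hg
    refine le_of_tendsto' (hΛ g) (fun i => ?_)
    have := integral_mono (hint g i) (integrable_const (1 : ℝ)) hg
    simpa using this
  have hKle : ∀ K : Set Z, IsCompact K → ν K ≤ 1 := by
    intro K hK
    obtain ⟨g, hg1, hg2, hg3⟩ := hcut K hK
    have h1 := RealRMK.rieszMeasure_le_of_eq_one Λ' (f := g) hg2 hK hg1
    refine h1.trans ?_
    rw [← ENNReal.ofReal_one]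
    exact ENNReal.ofReal_le_ofReal (hχle g hg3)
  have huniv : ν univ ≤ 1 := by
    rw [← iUnion_compactCovering Z]
    have hm : Monotone (compactCovering Z) := fun a b h => compactCovering_subset Z h
    rw [hm.measure_iUnion]
    exact iSup_le (fun n => hKle _ (isCompact_compactCovering Z n))
  have hfin : IsFiniteMeasure ν := ⟨huniv.trans_lt ENNReal.one_lt_top⟩
  -- mass at least 1 - ε on cutoffs
  have hbig : ∀ ε > 0, ∃ g : C_c(Z, ℝ), (∀ z, 0 ≤ g z) ∧ (∀ z, g z ≤ 1) ∧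
      (∀ᶠ i in (𝒰 : Filter ι), 1 - ε ≤ ∫ z, g z ∂(ρ i)) ∧ 1 - ε ≤ ∫ z, g z ∂ν := by
    intro ε hε
    obtain ⟨K, hK, hKε⟩ := tight ε hε
    obtain ⟨g, hg1, hg2, hg3⟩ := hcut K hK
    have h1 : ∀ᶠ i in (𝒰 : Filter ι), 1 - ε ≤ ∫ z, g z ∂(ρ i) := by
      filter_upwards [hKε] with i hi
      have e1 : (ρ i).real Kᶜ ≤ ε := by
        rw [measureReal_def]
        exact ENNReal.toReal_le_of_le_ofReal hε.le hi
      have e2 : (ρ i).real K = 1 - (ρ i).real Kᶜ := by
        have := probReal_compl_eq_one_sub (μ := ρ i) hK.measurableSet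
        linarith
      have e3 : (ρ i).real K ≤ ∫ z, g z ∂(ρ i) := by
        rw [← integral_indicator_one hK.measurableSet]
        refine integral_mono ?_ (hint g i) ?_
        · exact (integrable_const (1 : ℝ)).indicator hK.measurableSet
        · intro z
          by_cases hz : z ∈ K
          · simp [hz, hg1 z hz]
          · simp [hz, hg2 z]
      linarith
    refine ⟨g, hg2, hg3, h1, ?_⟩
    exact ge_of_tendsto (hrep g) h1
  have hprob : IsProbabilityMeasure ν := by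
    constructor
    refine le_antisymm huniv ?_
    refine ENNReal.le_of_forall_pos_le_add (fun ε hε _ => ?_)
    obtain ⟨g, hg2, hg3, -, hg5⟩ := hbig ε (by exact_mod_cast hε)
    have h1 : ∫ z, g z ∂ν ≤ ν.real univ := by
      have := integral_mono (μ := ν)
        (g.continuous.integrable_of_hasCompactSupport g.hasCompactSupport)
        (integrable_const (1 : ℝ)) hg3
      simpa using this
    have h2 : 1 ≤ ν.real univ + ε := by linarith
    have h3 : ν univ = ENNReal.ofReal (ν.real univ) := by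
      rw [measureReal_def, ENNReal.ofReal_toReal (measure_ne_top _ _)]
    rw [h3, ← ENNReal.ofReal_coe_nnreal, ← ENNReal.ofReal_add measureReal_nonneg (by positivity),
      ← ENNReal.ofReal_one]
    exact ENNReal.ofReal_le_ofReal h2
  refine ⟨ν, hprob, fun φ hφ ⟨B, hB⟩ => ?_⟩
  set B' := |B| + 1 with hB'def
  have hB' : ∀ z, |φ z| ≤ B' := fun z => (hB z).trans (by rw [hB'def]; linarith [le_abs_self B])
  have hB'0 : 0 < B' := by positivity
  rw [Metric.tendsto_nhds]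
  intro ε hε
  obtain ⟨g, hg2, hg3, hg4, hg5⟩ := hbig (ε / (4 * B')) (by positivity)
  have hcs : HasCompactSupport (fun z => φ z * g z) := g.hasCompactSupport.mul_left
  let ψ : C_c(Z, ℝ) := ⟨⟨fun z => φ z * g z, hφ.mul g.continuous⟩, hcs⟩
  have hψ := hrep ψ
  rw [Metric.tendsto_nhds] at hψ
  filter_upwards [hg4, hψ (ε / 4) (by positivity)] with i hi4 hi5
  have c1 : |∫ z, φ z ∂(ρ i) - ∫ z, φ z * g z ∂(ρ i)| ≤ B' * (1 - ∫ z, g z ∂(ρ i)) :=
    cut_bound (ρ i) hφ (χ := fun z => g z) g.continuous hB' hg2 hg3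
  have c2 : |∫ z, φ z ∂ν - ∫ z, φ z * g z ∂ν| ≤ B' * (1 - ∫ z, g z ∂ν) :=
    cut_bound ν hφ (χ := fun z => g z) g.continuous hB' hg2 hg3
  have d1 : B' * (1 - ∫ z, g z ∂(ρ i)) ≤ ε / 4 := by
    have : 1 - ∫ z, g z ∂(ρ i) ≤ ε / (4 * B') := by linarith
    calc B' * (1 - ∫ z, g z ∂(ρ i)) ≤ B' * (ε / (4 * B')) :=
          mul_le_mul_of_nonneg_left this hB'0.le
      _ = ε / 4 := by field_simp
  have d2 : B' * (1 - ∫ z, g z ∂ν) ≤ ε / 4 := by
    have : 1 - ∫ z, g z ∂ν ≤ ε / (4 * B') := by linarith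
    calc B' * (1 - ∫ z, g z ∂ν) ≤ B' * (ε / (4 * B')) :=
          mul_le_mul_of_nonneg_left this hB'0.le
      _ = ε / 4 := by field_simp
  have d3 : |∫ z, φ z * g z ∂(ρ i) - ∫ z, φ z * g z ∂ν| < ε / 4 := hi5
  rw [Real.dist_eq]
  have t1 := c1.trans d1
  have t2 := c2.trans d2
  rw [abs_le] at t1 t2
  rw [abs_lt] at d3 ⊢
  constructor <;> linarith [t1.1, t1.2, t2.1, t2.2, d3.1, d3.2]

end Pool.Agent.Work.MP_c9c104_nt
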