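import Pool.Agent.Work.MP_c9c104_nt.Basic

/-!
Elementary facts on homogeneous spaces of SL(2,R) with discrete stabilizers.
-/

open MeasureTheory Filter Topology Set ProbabilityTheory
open scoped ENNReal NNReal

namespace Pool.Agent.Work.MP_c9c104_nt

variable {X : Type} [TopologicalSpace X] [MeasurableSpace X] [MulAction G X] [HomSp X]
variable {Z : Type} [TopologicalSpace Z] [MeasurableSpace Z] [MulAction G Z] [PhSp Z]

/-- translates of a point by a neighbourhood of `1` form a neighbourhood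
(open mapping theorem `isOpenMap_smul_of_sigmaCompact`) -/
theorem smul_mem_nhds (x : X) {V : Set G} (hV : V ∈ 𝓝 (1 : G)) :
    (fun g : G => g • x) '' V ∈ 𝓝 x := by
  have h := smul_singleton_mem_nhds_of_sigmaCompact hV x
  rwa [smul_singleton] at h

theorem nrm_inv (g : G) : nrm g⁻¹ = nrm g := by
  simp only [nrm, inv00, inv01, inv10, inv11, abs_neg]
  rw [max_comm |g 1 1 - 1|]

/-- entries are bounded by `nrm + 1` -/
theorem entry_le_nrm (g : G) (i j : Fin 2) : |g i j| ≤ nrm g + 1 := by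
  obtain ⟨h1, h2, h3, h4⟩ := (nrm_le_iff (w := g)).1 le_rfl
  fin_cases i <;> fin_cases j
  · have := abs_sub_abs_le_abs_sub (g 0 0) 1
    rw [abs_one] at this
    change |g 0 0| ≤ _
    linarith
  · change |g 0 1| ≤ _
    linarith
  · change |g 1 0| ≤ _
    linarith
  · have := abs_sub_abs_le_abs_sub (g 1 1) 1
    rw [abs_one] at this
    change |g 1 1| ≤ _
    linarith

theorem isCompact_nrm_le (R : ℝ) : IsCompact {g : G | nrm g ≤ R} := by
  refine (isCompact_bdd (R + 1)).of_isClosed_subset (isClosed_le continuous_nrm continuous_const) ?_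
  intro g hg i j
  have := entry_le_nrm g i j
  have hg' : nrm g ≤ R := hg
  linarith

theorem mul_entry_le {g h : G} {A B : ℝ} (hg : ∀ i j, |g i j| ≤ A) (hh : ∀ i j, |h i j| ≤ B)
    (i j : Fin 2) : |(g * h) i j| ≤ 2 * (A * B) := by
  have hA : 0 ≤ A := (abs_nonneg _).trans (hg 0 0)
  have e : (g * h) i j = g i 0 * h 0 j + g i 1 * h 1 j := by
    simp [Matrix.mul_apply, Fin.sum_univ_two]
  rw [e]
  refine (abs_add_le _ _).trans ?_
  rw [abs_mul, abs_mul]
  have h1 := mul_le_mul (hg i 0) (hh 0 j) (abs_nonneg _) hA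
  have h2 := mul_le_mul (hg i 1) (hh 1 j) (abs_nonneg _) hA
  linarith

theorem inv_entry_le {g : G} {A : ℝ} (hg : ∀ i j, |g i j| ≤ A) (i j : Fin 2) :
    |(g⁻¹) i j| ≤ A := by
  fin_cases i <;> fin_cases j
  · change |(g⁻¹) 0 0| ≤ A
    rw [inv00]; exact hg _ _
  · change |(g⁻¹) 0 1| ≤ A
    rw [inv01, abs_neg]; exact hg _ _
  · change |(g⁻¹) 1 0| ≤ A
    rw [inv10, abs_neg]; exact hg _ _
  · change |(g⁻¹) 1 1| ≤ A
    rw [inv11]; exact hg _ _

theorem exists_min_nrm {A : Set G} (hA : IsClosed A) (hne : A.Nonempty) :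
    ∃ g ∈ A, ∀ h ∈ A, nrm g ≤ nrm h := by
  obtain ⟨g0, hg0⟩ := hne
  have hc : IsCompact (A ∩ {g : G | nrm g ≤ nrm g0}) := (isCompact_nrm_le _).inter_left hA
  obtain ⟨g, hg, hmin⟩ := hc.exists_isMinOn ⟨g0, hg0, le_refl (nrm g0)⟩ continuous_nrm.continuousOn
  refine ⟨g, hg.1, fun h hh => ?_⟩
  by_cases hle : nrm h ≤ nrm g0
  · exact hmin ⟨hh, hle⟩
  · have : nrm g ≤ nrm g0 := hg.2
    linarith [not_le.1 hle]

/-- convergence in `X` is realised by small group elements -/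
theorem exists_small (x : X) {ι : Type} {l : Filter ι} {y : ι → X} (h : Tendsto y l (𝓝 x)) :
    ∃ g : ι → G, Tendsto g l (𝓝 1) ∧ ∀ i, y i = g i • x := by
  have key : ∀ i, ∃ g : G, g • x = y i ∧ ∀ h : G, h • x = y i → nrm g ≤ nrm h := by
    intro i
    have hcl : IsClosed {g : G | g • x = y i} :=
      isClosed_eq (continuous_id.smul continuous_const) continuous_const
    exact exists_min_nrm hcl (MulAction.exists_smul_eq G x (y i))
  choose g hg hmin using key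
  refine ⟨g, ?_, fun i => (hg i).symm⟩
  rw [tendsto_one_iff]
  rw [(nhds_basis_zero_abs_lt ℝ).tendsto_right_iff]
  intro r hr
  have h1 := h (smul_mem_nhds x (nrm_mem r hr))
  filter_upwards [h1] with i hi
  obtain ⟨k, hk, hk'⟩ := hi
  have hk1 : nrm k < r := hk
  simp only [abs_of_nonneg (nrm_nonneg _)]
  exact (hmin i k hk').trans_lt hk1

/-- stabilizers are uniformly discrete over compact sets -/
theorem unif_disc {K : Set X} (hK : IsCompact K) :
    ∃ ε > 0, ∀ x ∈ K, ∀ g ∈ MulAction.stabilizer G x, nrm g < ε → g = 1 := by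
  refine hK.induction_on (p := fun S : Set X => ∃ ε > 0, ∀ x ∈ S,
    ∀ g ∈ MulAction.stabilizer G x, nrm g < ε → g = 1) ?_ ?_ ?_ ?_
  · exact ⟨1, one_pos, fun x hx => absurd hx (notMem_empty x)⟩
  · rintro s t hst ⟨ε, hε, h⟩
    exact ⟨ε, hε, fun x hx => h x (hst hx)⟩
  · rintro s t ⟨ε, hε, h⟩ ⟨ε', hε', h'⟩
    refine ⟨min ε ε', lt_min hε hε', fun x hx g hg hn => ?_⟩
    rcases hx with hx | hx
    · exact h x hx g hg (hn.trans_le (min_le_left _ _))
    · exact h' x hx g hg (hn.trans_le (min_le_right _ _))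
  · intro x _
    obtain ⟨ε, hε, hdisc⟩ := DiscStab.disc x
    have hcont : Continuous fun p : G × G => p.1⁻¹ * p.2 * p.1 := by fun_prop
    have h1 : (fun p : G × G => p.1⁻¹ * p.2 * p.1) ⁻¹' {g : G | nrm g < ε} ∈ 𝓝 ((1 : G), (1 : G)) := by
      apply hcont.continuousAt
      simpa using nrm_mem ε hε
    rw [nhds_prod_eq, Filter.mem_prod_iff] at h1
    obtain ⟨A, hA, B, hB, hAB⟩ := h1
    obtain ⟨r, hr, hrB⟩ := exists_nrm hB
    refine ⟨(fun g : G => g • x) '' A, mem_nhdsWithin_of_mem_nhds (smul_mem_nhds x hA), r, hr, ?_⟩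
    rintro _ ⟨h, hh, rfl⟩ g hg hn
    have h2 : h⁻¹ * g * h ∈ MulAction.stabilizer G x := by
      rw [MulAction.mem_stabilizer_iff] at hg ⊢
      have hg' : g • h • x = h • x := hg
      rw [mul_smul, mul_smul, hg', inv_smul_smul]
    have h3' := hAB (Set.mk_mem_prod hh (hrB g hn))
    rw [mem_preimage] at h3'
    have h3 : nrm (h⁻¹ * g * h) < ε := h3'
    have h4 := hdisc _ h2 h3
    have h5 : g = h * (h⁻¹ * g * h) * h⁻¹ := by group
    rw [h5, h4]; group

theorem between_finite (x y : X) (R : ℝ) :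
    {g : G | g • x = y ∧ ∀ i j, |g i j| ≤ R}.Finite := by
  have hcl : IsClosed {g : G | g • x = y} :=
    isClosed_eq (continuous_id.smul continuous_const) continuous_const
  have hc : IsCompact {g : G | g • x = y ∧ ∀ i j, |g i j| ≤ R} := (isCompact_bdd R).inter_left hcl
  obtain ⟨ε, hε, hdisc⟩ := DiscStab.disc x
  refine hc.finite ?_
  rw [isDiscrete_iff_discreteTopology, discreteTopology_subtype_iff]
  intro g hg
  rw [← disjoint_iff, disjoint_principal_right]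
  have hcont : Continuous fun h : G => g⁻¹ * h := by fun_prop
  have h1 : (fun h : G => g⁻¹ * h) ⁻¹' {k : G | nrm k < ε} ∈ 𝓝 g := by
    apply hcont.continuousAt
    simpa using nrm_mem ε hε
  have h2 : (fun h : G => g⁻¹ * h) ⁻¹' {k : G | nrm k < ε} ∈ 𝓝[≠] g :=
    mem_nhdsWithin_of_mem_nhds h1
  filter_upwards [h2, self_mem_nhdsWithin] with h hh hne hS
  apply hne
  have hh' : nrm (g⁻¹ * h) < ε := hh
  have h3 : g⁻¹ * h ∈ MulAction.stabilizer G x := by
    rw [MulAction.mem_stabilizer_iff, mul_smul, hS.1, ← hg.1, inv_smul_smul]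
  have h4 := hdisc _ h3 hh'
  have : h = g := by
    rw [inv_mul_eq_one] at h4
    exact h4.symm
  exact this

/-- compact sets are covered by a compact set of group elements -/
theorem compact_lift {K : Set X} (hK : IsCompact K) (x0 : X) :
    ∃ R : ℝ, ∀ x ∈ K, ∃ g : G, g • x0 = x ∧ ∀ i j, |g i j| ≤ R := by
  refine hK.induction_on (p := fun S : Set X => ∃ R : ℝ, ∀ x ∈ S, ∃ g : G, g • x0 = x ∧
    ∀ i j, |g i j| ≤ R) ?_ ?_ ?_ ?_
  · exact ⟨1, fun x hx => absurd hx (notMem_empty x)⟩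
  · rintro s t hst ⟨R, h⟩
    exact ⟨R, fun x hx => h x (hst hx)⟩
  · rintro s t ⟨R, h⟩ ⟨R', h'⟩
    refine ⟨max R R', fun x hx => ?_⟩
    rcases hx with hx | hx
    · obtain ⟨g, hg, hb⟩ := h x hx
      exact ⟨g, hg, fun i j => (hb i j).trans (le_max_left _ _)⟩
    · obtain ⟨g, hg, hb⟩ := h' x hx
      exact ⟨g, hg, fun i j => (hb i j).trans (le_max_right _ _)⟩
  · intro x _
    obtain ⟨h, hh⟩ := MulAction.exists_smul_eq G x0 x
    refine ⟨(fun g : G => g • x) '' {g | nrm g < 1},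
      mem_nhdsWithin_of_mem_nhds (smul_mem_nhds x (nrm_mem 1 one_pos)), 2 * (2 * (nrm h + 1)), ?_⟩
    rintro _ ⟨g, hg, rfl⟩
    have hg' : nrm g < 1 := hg
    refine ⟨g * h, by rw [mul_smul, hh], ?_⟩
    apply mul_entry_le
    · intro i j
      have := entry_le_nrm g i j
      linarith
    · exact entry_le_nrm h

/-- bounded stabilizer elements over a compact set, up to conjugacy -/
theorem conj_finite {K : Set X} (hK : IsCompact K) (R : ℝ) (x0 : X) :
    ∃ F : Finset G, (∀ γ ∈ F, γ ∈ MulAction.stabilizer G x0) ∧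
      ∀ x ∈ K, ∀ g ∈ MulAction.stabilizer G x, (∀ i j, |g i j| ≤ R) →
        ∃ h : G, ∃ γ ∈ F, h • x0 = x ∧ g = h * γ * h⁻¹ := by
  obtain ⟨R', hR'⟩ := compact_lift hK x0
  have hfin := between_finite x0 x0 (2 * (2 * (R' * R) * R'))
  refine ⟨hfin.toFinset, ?_, ?_⟩
  · intro γ hγ
    rw [Set.Finite.mem_toFinset] at hγ
    exact hγ.1
  · intro x hx g hg hb
    obtain ⟨h, hh, hhb⟩ := hR' x hx
    refine ⟨h, h⁻¹ * g * h, ?_, hh, by group⟩
    rw [Set.Finite.mem_toFinset]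
    refine ⟨?_, ?_⟩
    · rw [MulAction.mem_stabilizer_iff] at hg
      rw [mul_smul, mul_smul, hh, hg, ← hh, inv_smul_smul]
    · exact mul_entry_le (mul_entry_le (inv_entry_le hhb) hb) hhb

theorem uc_gen {H Y : Type} [Group H] [TopologicalSpace H] [IsTopologicalGroup H]
    [TopologicalSpace Y] (Φ : H → Y → Y) (hΦ : Continuous fun p : H × Y => Φ p.1 p.2)
    (h1 : ∀ y, Φ 1 y = y) (hinv : ∀ g y, Φ g⁻¹ (Φ g y) = y)
    {f : Y → ℝ} (hf : Continuous f) (hf' : HasCompactSupport f) {ε : ℝ} (hε : 0 < ε) :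
    ∃ U ∈ 𝓝 (1 : H), ∀ g ∈ U, ∀ y, |f (Φ g y) - f y| ≤ ε := by
  have hK : IsCompact (tsupport f) := hf'
  have hopen : IsOpen {p : H × Y | |f (Φ p.1 p.2) - f p.2| < ε} :=
    isOpen_lt (((hf.comp hΦ).sub (hf.comp continuous_snd)).abs) continuous_const
  have hsub : ({(1 : H)} : Set H) ×ˢ (tsupport f) ⊆ {p : H × Y | |f (Φ p.1 p.2) - f p.2| < ε} := by
    rintro ⟨g, y⟩ ⟨hg, _⟩
    have hg' : g = 1 := hg
    subst hg'
    simp [h1, hε]
  obtain ⟨U, V, hU, hV, hU1, hV1, hUV⟩ := generalized_tube_lemma isCompact_singleton hK hopen hsub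
  have hU2 : U ∈ 𝓝 (1 : H) := hU.mem_nhds (hU1 rfl)
  have hUi : U⁻¹ ∈ 𝓝 (1 : H) := inv_mem_nhds_one H hU2
  refine ⟨U ∩ U⁻¹, inter_mem hU2 hUi, ?_⟩
  rintro g ⟨hg, hg'⟩ y
  by_cases hy : y ∈ tsupport f
  · exact (hUV (show (g, y) ∈ U ×ˢ V from ⟨hg, hV1 hy⟩)).le
  · have hy0 : f y = 0 := image_eq_zero_of_notMem_tsupport hy
    by_cases hw : Φ g y ∈ tsupport f
    · have h2 : |f (Φ g⁻¹ (Φ g y)) - f (Φ g y)| < ε :=
        hUV (show (g⁻¹, Φ g y) ∈ U ×ˢ V from ⟨hg', hV1 hw⟩)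
      rw [hinv, abs_sub_comm] at h2
      exact h2.le
    · have hw0 : f (Φ g y) = 0 := image_eq_zero_of_notMem_tsupport hw
      rw [hy0, hw0]
      simp [hε.le]

/-- uniform continuity of compactly supported functions -/
theorem uc_one {f : Z → ℝ} (hf : Cc f) {ε : ℝ} (hε : 0 < ε) :
    ∃ δ > 0, ∀ g : G, nrm g < δ → ∀ z, |f (g • z) - f z| ≤ ε := by
  obtain ⟨U, hU, h⟩ := uc_gen (fun (g : G) (z : Z) => g • z) continuous_smul (one_smul G)
    (fun g z => inv_smul_smul g z) hf.1 hf.2 hε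
  obtain ⟨r, hr, hrU⟩ := exists_nrm hU
  exact ⟨r, hr, fun g hg z => h g (hrU g hg) z⟩

theorem uc_two {f : X × X → ℝ} (hf : Cc f) {ε : ℝ} (hε : 0 < ε) :
    ∃ δ > 0, ∀ g h : G, nrm g < δ → nrm h < δ →
      ∀ z : X × X, |f (g • z.1, h • z.2) - f z| ≤ ε := by
  obtain ⟨U, hU, hmain⟩ := uc_gen (fun (g : G × G) (z : X × X) => (g.1 • z.1, g.2 • z.2))
    (by fun_prop) (fun z => by simp) (fun g z => by simp) hf.1 hf.2 hε
  rw [show (1 : G × G) = ((1 : G), (1 : G)) from rfl, nhds_prod_eq, Filter.mem_prod_iff] at hU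
  obtain ⟨A, hA, B, hB, hAB⟩ := hU
  obtain ⟨r, hr, hrA⟩ := exists_nrm hA
  obtain ⟨r', hr', hrB⟩ := exists_nrm hB
  refine ⟨min r r', lt_min hr hr', fun g h hg hh z => ?_⟩
  exact hmain (g, h) (hAB ⟨hrA g (hg.trans_le (min_le_left _ _)),
    hrB h (hh.trans_le (min_le_right _ _))⟩) z

end Pool.Agent.Work.MP_c9c104_nt
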