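import Pool.Agent.Work.MP_c9c104_nt.Sep
import Pool.Agent.Work.MP_c9c104_nt.LimMeas
import Pool.Agent.Work.MP_c9c104_nt.Quot

/-!
Limits of empirical measures along an ultrafilter, discrete and continuous time.
-/

open MeasureTheory Filter Topology Set ProbabilityTheory
open scoped ENNReal NNReal

namespace Pool.Agent.Work.MP_c9c104_nt

variable {Z : Type} [TopologicalSpace Z] [MeasurableSpace Z] [MulAction G Z] [PhSp Z]

/-- interchange of an ultrafilter limit and an integral, by equicontinuity -/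
theorem lim_integral {ι : Type} (𝒰 : Filter ι) {F : ι → ℝ → ℝ} {F' : ℝ → ℝ} {h : ℝ} (hh : 0 < h)
    [𝒰.NeBot]
    (heq : ∀ ε > 0, ∃ δ > 0, ∀ i s s', |s - s'| ≤ δ → |F i s - F i s'| ≤ ε)
    (hpt : ∀ s, Tendsto (fun i => F i s) 𝒰 (𝓝 (F' s))) :
    Tendsto (fun i => ∫ s in (0 : ℝ)..h, F i s) 𝒰 (𝓝 (∫ s in (0 : ℝ)..h, F' s)) := by
  have heq' : ∀ ε > 0, ∃ δ > 0, ∀ s s', |s - s'| ≤ δ → |F' s - F' s'| ≤ ε := by
    intro ε hε
    obtain ⟨δ, hδ, H⟩ := heq ε hε
    refine ⟨δ, hδ, fun s s' hs => ?_⟩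
    exact le_of_tendsto ((hpt s).sub (hpt s')).abs (Eventually.of_forall fun i => H i s s' hs)
  have cont : ∀ i, Continuous (F i) := by
    intro i
    rw [Metric.continuous_iff]
    intro b ε hε
    obtain ⟨δ, hδ, H⟩ := heq (ε / 2) (half_pos hε)
    refine ⟨δ, hδ, fun a ha => ?_⟩
    rw [Real.dist_eq] at ha ⊢
    exact (H i a b ha.le).trans_lt (half_lt_self hε)
  have cont' : Continuous F' := by
    rw [Metric.continuous_iff]
    intro b ε hε
    obtain ⟨δ, hδ, H⟩ := heq' (ε / 2) (half_pos hε)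
    refine ⟨δ, hδ, fun a ha => ?_⟩
    rw [Real.dist_eq] at ha ⊢
    exact (H a b ha.le).trans_lt (half_lt_self hε)
  rw [Metric.tendsto_nhds]
  intro ε hε
  have hε' : 0 < ε / (4 * h) := by positivity
  obtain ⟨δ, hδ, H⟩ := heq (ε / (4 * h)) hε'
  obtain ⟨δ', hδ', H'⟩ := heq' (ε / (4 * h)) hε'
  set d := min δ δ' with hd
  have hdpos : 0 < d := lt_min hδ hδ'
  obtain ⟨n, hn⟩ := exists_nat_gt (h / d)
  have hall : ∀ᶠ i in 𝒰, ∀ k ∈ Finset.range (n + 1), |F i (k * d) - F' (k * d)| ≤
      ε / (4 * h) := by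
    rw [Filter.eventually_all_finset]
    intro k _
    have := (hpt (k * d)).sub_const (F' (k * d))
    rw [sub_self] at this
    have := this.abs
    rw [abs_zero] at this
    exact ((tendsto_order.1 this).2 _ hε').mono fun i hi => hi.le
  filter_upwards [hall] with i hi
  have key : ∀ s ∈ Icc 0 h, |F i s - F' s| ≤ 3 * (ε / (4 * h)) := by
    intro s hs
    set k := ⌊s / d⌋₊ with hk
    have hsd : 0 ≤ s / d := div_nonneg hs.1 hdpos.le
    have h1 : (k : ℝ) ≤ s / d := Nat.floor_le hsd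
    have h2 : s / d < k + 1 := Nat.lt_floor_add_one _
    have h1' : (k : ℝ) * d ≤ s := by rwa [le_div_iff₀ hdpos] at h1
    have h2' : s < (k + 1) * d := by rwa [div_lt_iff₀ hdpos] at h2
    have hkn : k ∈ Finset.range (n + 1) := by
      rw [Finset.mem_range]
      have : (k : ℝ) < n + 1 := by
        have : s / d ≤ h / d := div_le_div_of_nonneg_right hs.2 hdpos.le
        linarith
      exact_mod_cast this
    have h3 : |s - k * d| ≤ d := by
      rw [abs_le]; constructor <;> nlinarith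
    have h4 := H i s (k * d) (h3.trans (min_le_left _ _))
    have h5 := H' s (k * d) (h3.trans (min_le_right _ _))
    have h6 := hi k hkn
    rw [abs_le] at h4 h5 h6 ⊢
    constructor <;> linarith
  rw [Real.dist_eq, ← intervalIntegral.integral_sub ((cont i).intervalIntegrable _ _)
    (cont'.intervalIntegrable _ _)]
  have h7 := intervalIntegral.norm_integral_le_of_norm_le_const (a := 0) (b := h)
    (f := fun s => F i s - F' s) (C := 3 * (ε / (4 * h))) (fun s hs => by
      rw [uIoc_of_le hh.le] at hs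
      exact key s ⟨hs.1.le, hs.2⟩)
  rw [Real.norm_eq_abs, sub_zero, abs_of_pos hh] at h7
  refine h7.trans_lt ?_
  have : 3 * (ε / (4 * h)) * h = 3 / 4 * ε := by field_simp
  rw [this]; linarith

theorem cc_bound {f : Z → ℝ} (hf : Cc f) : ∃ B, 0 ≤ B ∧ ∀ z, |f z| ≤ B := by
  obtain ⟨B, hB⟩ := hf.2.exists_bound_of_continuous hf.1
  refine ⟨|B|, abs_nonneg _, fun z => ?_⟩
  have := hB z
  rw [Real.norm_eq_abs] at this
  exact this.trans (le_abs_self B)

theorem u_cont (z : Z) : Continuous fun s : ℝ => u s • z :=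
  continuous_u.smul continuous_const

/-- modulus of continuity along the flow -/
theorem uc_flow {f : Z → ℝ} (hf : Cc f) {ε : ℝ} (hε : 0 < ε) :
    ∃ δ > 0, ∀ (s s' : ℝ), |s - s'| ≤ δ → ∀ z : Z, |f (u s • z) - f (u s' • z)| ≤ ε := by
  obtain ⟨δ, hδ, H⟩ := uc_one hf hε
  have hc : Tendsto (fun r : ℝ => nrm (u r)) (𝓝 0) (𝓝 0) := by
    have := (continuous_nrm.comp continuous_u).tendsto 0
    simpa [Function.comp_def] using this
  obtain ⟨η, hη, hη'⟩ := Metric.eventually_nhds_iff.1 ((tendsto_order.1 hc).2 δ hδ)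
  refine ⟨η / 2, half_pos hη, fun s s' hs z => ?_⟩
  have h1 : u s • z = u (s - s') • u s' • z := by rw [← mul_smul, ← u_add]; congr 2; ring
  rw [h1]
  refine H _ (hη' ?_) _
  rw [Real.dist_eq, sub_zero]
  linarith

/-- the empirical measure -/
noncomputable def empM (M : ℕ) (h : ℝ) (z : Z) : Measure Z :=
  if M = 0 then Measure.dirac z else
    ((M : ℝ≥0∞)⁻¹) • ∑ n ∈ Finset.Icc 1 M, Measure.dirac (u (h * n) • z)

theorem empM_prob (M : ℕ) (h : ℝ) (z : Z) : IsProbabilityMeasure (empM M h z) := by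
  unfold empM
  split_ifs with hM
  · infer_instance
  · refine ⟨?_⟩
    simp only [Measure.smul_apply, Measure.finsetSum_apply, measure_univ, Finset.sum_const,
      Nat.card_Icc, smul_eq_mul, nsmul_eq_mul, mul_one, Nat.add_sub_cancel]
    exact ENNReal.inv_mul_cancel (by exact_mod_cast hM) (ENNReal.natCast_ne_top M)

theorem empM_integral {M : ℕ} (hM : M ≠ 0) (h : ℝ) (z : Z) {φ : Z → ℝ} (hφ : Continuous φ)
    (hb : ∃ B, ∀ z, |φ z| ≤ B) :
    ∫ y, φ y ∂(empM M h z) = (1 / (M : ℝ)) * ∑ n ∈ Finset.Icc 1 M, φ (u (h * n) • z) := by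
  obtain ⟨B, hB⟩ := hb
  unfold empM
  rw [if_neg hM, integral_smul_measure, integral_finsetSum_measure]
  · rw [smul_eq_mul, ENNReal.toReal_inv, ENNReal.toReal_natCast, one_div]
    congr 1
    refine Finset.sum_congr rfl fun n _ => ?_
    rw [integral_dirac]
  · intro n _
    exact Integrable.of_bound hφ.aestronglyMeasurable B (ae_of_all _ fun y => hB y)

theorem shift_sum (M : ℕ) (g : ℕ → ℝ) {B : ℝ} (hB : ∀ n, |g n| ≤ B) :
    |∑ n ∈ Finset.range M, g n - ∑ n ∈ Finset.Icc 1 M, g n| ≤ 2 * B := by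
  have h1 : ∑ n ∈ Finset.Icc 1 M, g n = ∑ n ∈ Finset.range M, g (n + 1) := by
    rw [Finset.range_eq_Ico, Finset.sum_Ico_add' g 0 M 1]
    rfl
  rw [h1, ← Finset.sum_sub_distrib]
  have h2 : ∑ n ∈ Finset.range M, (g n - g (n + 1)) = g 0 - g M := Finset.sum_range_sub' g M
  rw [h2]
  have := abs_sub (g 0) (g M)
  have a := hB 0
  have b := hB M
  linarith

theorem avg_eq (h : ℝ) (hh : 0 < h) (M : ℕ) {φ : Z → ℝ} (hφ : Continuous φ) (z : Z) :
    avg φ (h * M) z = (1 / h) * ∫ s in (0 : ℝ)..h,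
      (1 / (M : ℝ)) * ∑ n ∈ Finset.range M, φ (u (h * n) • u s • z) := by
  have hc : Continuous fun s : ℝ => φ (u s • z) := hφ.comp (u_cont z)
  rw [intervalIntegral.integral_const_mul, intervalIntegral.integral_finsetSum]
  · unfold avg
    have h1 : ∫ s in (0 : ℝ)..(h * M), φ (u s • z) =
        ∑ n ∈ Finset.range M, ∫ s in (h * n : ℝ)..(h * (n + 1 : ℕ)), φ (u s • z) := by
      rw [intervalIntegral.sum_integral_adjacent_intervals
        (a := fun n : ℕ => h * (n : ℝ)) (fun k _ => hc.intervalIntegrable _ _)]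
      simp
    rw [h1]
    have h2 : ∀ n : ℕ, ∫ s in (h * n : ℝ)..(h * (n + 1 : ℕ)), φ (u s • z) =
        ∫ s in (0 : ℝ)..h, φ (u (h * n) • u s • z) := by
      intro n
      have := intervalIntegral.integral_comp_add_left (fun s => φ (u s • z)) (h * n)
        (a := 0) (b := h)
      rw [add_zero, show h * (n : ℝ) + h = h * ((n + 1 : ℕ) : ℝ) by push_cast; ring] at this
      rw [← this]
      refine intervalIntegral.integral_congr fun s _ => ?_
      simp only [u_add, mul_smul]
    rw [Finset.sum_congr rfl fun n _ => h2 n]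
    by_cases hM : (M : ℝ) = 0
    · simp [hM]
    · field_simp
  · intro n _
    exact ((hφ.comp ((continuous_const_smul _).comp (u_cont z)))).intervalIntegrable _ _

/-- average over `[0,h]` of the translates of `νd` -/
noncomputable def smear (h : ℝ) (νd : Measure Z) : Measure Z :=
  ENNReal.ofReal (1 / h) • Measure.map (fun p : ℝ × Z => u p.1 • p.2)
    ((volume.restrict (Icc 0 h)).prod νd)

theorem meas_act : Measurable (fun p : ℝ × Z => u p.1 • p.2) :=
  ((continuous_u.comp continuous_fst).smul continuous_snd).measurable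

theorem smear_apply {h : ℝ} (νd : Measure Z) [IsProbabilityMeasure νd] {E : Set Z}
    (hE : MeasurableSet E) : smear h νd E =
      ENNReal.ofReal (1 / h) * ∫⁻ s in Icc 0 h, νd ((fun z => u s • z) ⁻¹' E) := by
  unfold smear
  rw [Measure.smul_apply, smul_eq_mul, Measure.map_apply meas_act hE,
    Measure.prod_apply (meas_act hE)]
  rfl

theorem smear_prob {h : ℝ} (hh : 0 < h) (νd : Measure Z) [IsProbabilityMeasure νd] :
    IsProbabilityMeasure (smear h νd) := by
  refine ⟨?_⟩
  rw [smear_apply νd MeasurableSet.univ]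
  simp only [preimage_univ, measure_univ, lintegral_const, MeasurableSet.univ,
    Measure.restrict_apply, univ_inter, one_mul, Real.volume_Icc, sub_zero]
  rw [← ENNReal.ofReal_mul (by positivity), one_div, inv_mul_cancel₀ hh.ne', ENNReal.ofReal_one]

theorem smear_integral {h : ℝ} (hh : 0 < h) (νd : Measure Z) [IsProbabilityMeasure νd] {f : Z → ℝ}
    (hf : Cc f) : ∫ z, f z ∂(smear h νd) =
      (1 / h) * ∫ s in (0 : ℝ)..h, ∫ z, f (u s • z) ∂νd := by
  obtain ⟨B, hB0, hB⟩ := cc_bound hf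
  unfold smear
  rw [integral_smul_measure, integral_map meas_act.aemeasurable hf.1.aestronglyMeasurable,
    integral_prod, smul_eq_mul, ENNReal.toReal_ofReal (by positivity),
    intervalIntegral.integral_of_le hh.le, integral_Icc_eq_integral_Ioc]
  exact Integrable.of_bound (hf.1.measurable.comp meas_act).aestronglyMeasurable B
    (ae_of_all _ fun y => hB _)

theorem smear_inv {h : ℝ} (hh : 0 < h) (νd : Measure Z) [IsProbabilityMeasure νd]
    (hinv : νd.map (fun z => u h • z) = νd) (t : ℝ) :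
    (smear h νd).map (fun z => u t • z) = smear h νd := by
  have := smear_prob hh νd
  have hm : Measurable (fun z : Z => u t • z) := measurable_const_smul _
  have := Measure.isProbabilityMeasure_map (μ := smear h νd) hm.aemeasurable
  refine meas_ext fun f hf => ?_
  rw [integral_map hm.aemeasurable hf.1.aestronglyMeasurable, smear_integral hh νd hf,
    smear_integral hh νd (cc_smul hf (u t))]
  congr 1
  set g : ℝ → ℝ := fun s => ∫ z, f (u s • z) ∂νd with hg
  have hper : Function.Periodic g h := by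
    intro s
    simp only [hg]
    have hm' : Measurable (fun z : Z => u h • z) := measurable_const_smul _
    have e1 : ∫ z, f (u s • z) ∂νd = ∫ z, f (u s • z) ∂(νd.map (fun z => u h • z)) := by
      rw [hinv]
    rw [e1, integral_map hm'.aemeasurable
      (cc_smul hf (u s)).1.aestronglyMeasurable]
    refine integral_congr_ae (ae_of_all _ fun z => ?_)
    simp only [u_add, mul_smul]
  have e2 : ∀ s : ℝ, ∫ z, f (u t • u s • z) ∂νd = g (s + t) := by
    intro s
    simp only [hg]
    refine integral_congr_ae (ae_of_all _ fun z => ?_)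
    simp only [← mul_smul, ← u_add, add_comm]
  rw [intervalIntegral.integral_congr (fun s _ => e2 s),
    intervalIntegral.integral_comp_add_right g t, zero_add, add_comm h t]
  have := hper.intervalIntegral_add_eq t 0
  rw [zero_add] at this
  exact this

/-- discrete and continuous time limits of empirical measures -/
theorem emp_limit {ι : Type} (𝒰 : Ultrafilter ι) {h : ℝ} (hh : 0 < h) {M : ι → ℕ}
    (hM : Tendsto M 𝒰 atTop) (z : ι → Z)
    (tight : ∀ ε > 0, ∃ χ : Z → ℝ, Cc χ ∧ (∀ z, 0 ≤ χ z ∧ χ z ≤ 1) ∧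
      ∀ᶠ i in (𝒰 : Filter ι), 1 - ε ≤
        (1 / (M i : ℝ)) * ∑ n ∈ Finset.Icc 1 (M i), χ (u (h * n) • z i)) :
    ∃ νd νc : Measure Z, IsProbabilityMeasure νd ∧ IsProbabilityMeasure νc ∧
      (∀ φ : Z → ℝ, Continuous φ → (∃ B, ∀ z, |φ z| ≤ B) →
        Tendsto (fun i => (1 / (M i : ℝ)) * ∑ n ∈ Finset.Icc 1 (M i), φ (u (h * n) • z i)) 𝒰
          (𝓝 (∫ z, φ z ∂νd))) ∧
      νd.map (fun z => u h • z) = νd ∧
      (∀ φ : Z → ℝ, Cc φ → Tendsto (fun i => avg φ (h * M i) (z i)) 𝒰 (𝓝 (∫ z, φ z ∂νc))) ∧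
      (∀ f : Z → ℝ, Cc f →
        ∫ z, f z ∂νc = (1 / h) * ∫ s in (0 : ℝ)..h, ∫ z, f (u s • z) ∂νd) ∧
      (∀ s : ℝ, νc.map (fun z => u s • z) = νc) ∧
      (∀ E : Set Z, MeasurableSet E →
        νc E = ENNReal.ofReal (1 / h) * ∫⁻ s in Icc 0 h, νd ((fun z => u s • z) ⁻¹' E)) := by
  have hM0 : ∀ᶠ i in (𝒰 : Filter ι), M i ≠ 0 :=
    (hM.eventually_ge_atTop 1).mono fun i hi => by omega
  have hMr : Tendsto (fun i => (M i : ℝ)) 𝒰 atTop := tendsto_natCast_atTop_atTop.comp hM
  obtain ⟨νd, hνd, hlim⟩ := lim_meas 𝒰 (fun i => empM (M i) h (z i)) (fun i => empM_prob _ _ _)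
    (by
      intro ε hε
      obtain ⟨χ, hχ, hχ1, hev⟩ := tight ε hε
      refine ⟨tsupport χ, hχ.2, ?_⟩
      filter_upwards [hev, hM0] with i hi hi0
      have := empM_prob (M i) h (z i)
      have hbd : ∃ B, ∀ z, |χ z| ≤ B := ⟨1, fun z => by
        rw [abs_of_nonneg (hχ1 z).1]; exact (hχ1 z).2⟩
      rw [← empM_integral hi0 h (z i) hχ.1 hbd] at hi
      have hint : Integrable χ (empM (M i) h (z i)) :=
        Integrable.of_bound hχ.1.aestronglyMeasurable 1 (ae_of_all _ fun y => by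
          rw [Real.norm_eq_abs, abs_of_nonneg (hχ1 y).1]; exact (hχ1 y).2)
      have hcl : IsClosed (tsupport χ) := isClosed_tsupport χ
      have h1 : (empM (M i) h (z i)).real (tsupport χ)ᶜ ≤ ε := by
        have h2 : ∫ y, χ y ∂(empM (M i) h (z i)) ≤
            (empM (M i) h (z i)).real (tsupport χ) := by
          rw [← integral_indicator_one hcl.measurableSet]
          refine integral_mono hint ((integrable_const (1 : ℝ)).indicator hcl.measurableSet) ?_
          intro y
          by_cases hy : y ∈ tsupport χ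
          · simp only [indicator_of_mem hy, Pi.one_apply]; exact (hχ1 y).2
          · simp only [indicator_of_notMem hy]
            rw [image_eq_zero_of_notMem_tsupport hy]
        rw [probReal_compl_eq_one_sub hcl.measurableSet]
        linarith
      rw [← ENNReal.ofReal_toReal (measure_ne_top (empM (M i) h (z i)) (tsupport χ)ᶜ)]
      exact ENNReal.ofReal_le_ofReal h1)
  have ha : ∀ φ : Z → ℝ, Continuous φ → (∃ B, ∀ z, |φ z| ≤ B) →
        Tendsto (fun i => (1 / (M i : ℝ)) * ∑ n ∈ Finset.Icc 1 (M i), φ (u (h * n) • z i)) 𝒰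
          (𝓝 (∫ z, φ z ∂νd)) := by
    intro φ hφ hb
    refine (hlim φ hφ hb).congr' ?_
    filter_upwards [hM0] with i hi
    exact empM_integral hi h (z i) hφ hb
  have hinv : νd.map (fun z => u h • z) = νd := by
    have hm : Measurable (fun z : Z => u h • z) := measurable_const_smul _
    have := Measure.isProbabilityMeasure_map (μ := νd) hm.aemeasurable
    refine meas_ext fun f hf => ?_
    rw [integral_map hm.aemeasurable hf.1.aestronglyMeasurable]
    obtain ⟨B, hB0, hB⟩ := cc_bound hf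
    have h1 := ha _ (cc_smul hf (u h)).1 ⟨B, fun z => hB _⟩
    have h2 := ha _ hf.1 ⟨B, hB⟩
    refine tendsto_nhds_unique h1 ?_
    have h3 : Tendsto (fun i => 2 * B / (M i : ℝ)) 𝒰 (𝓝 0) :=
      hMr.const_div_atTop (2 * B)
    refine tendsto_of_tendsto_of_dist h2 (squeeze_zero (fun _ => dist_nonneg) (fun i => ?_) h3)
    rw [Real.dist_eq, ← mul_sub, abs_mul, abs_of_nonneg (by positivity)]
    have h4 : |∑ n ∈ Finset.Icc 1 (M i), f (u (h * n) • z i) -
        ∑ n ∈ Finset.Icc 1 (M i), f (u h • u (h * n) • z i)| ≤ 2 * B := by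
      have := shift_sum (M i) (fun n => f (u (h * (n + 1 : ℕ)) • z i)) (fun n => hB _)
      have e1 : ∑ n ∈ Finset.range (M i), f (u (h * (n + 1 : ℕ)) • z i) =
          ∑ n ∈ Finset.Icc 1 (M i), f (u (h * n) • z i) := by
        rw [Finset.range_eq_Ico, Finset.sum_Ico_add' (fun n : ℕ => f (u (h * n) • z i)) 0 (M i) 1]
        rfl
      have e2 : ∑ n ∈ Finset.Icc 1 (M i), f (u (h * (n + 1 : ℕ)) • z i) =
          ∑ n ∈ Finset.Icc 1 (M i), f (u h • u (h * n) • z i) := by
        refine Finset.sum_congr rfl fun n _ => ?_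
        rw [← mul_smul, ← u_add]
        congr 3
        push_cast; ring
      rwa [e1, e2] at this
    calc 1 / (M i : ℝ) * _ ≤ 1 / (M i : ℝ) * (2 * B) := by gcongr
      _ = 2 * B / (M i : ℝ) := by ring
  refine ⟨νd, smear h νd, hνd, smear_prob hh νd, ha, hinv, ?_, fun f hf => smear_integral hh νd hf,
    smear_inv hh νd hinv, fun E hE => smear_apply νd hE⟩
  intro φ hφ
  rw [smear_integral hh νd hφ]
  obtain ⟨B, hB0, hB⟩ := cc_bound hφ
  have e : ∀ i, avg φ (h * M i) (z i) = (1 / h) * ∫ s in (0 : ℝ)..h,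
      (1 / (M i : ℝ)) * ∑ n ∈ Finset.range (M i), φ (u (h * n) • u s • z i) :=
    fun i => avg_eq h hh (M i) hφ.1 (z i)
  simp_rw [e]
  refine Tendsto.const_mul _ (lim_integral (𝒰 : Filter ι) hh ?_ ?_)
  · intro ε hε
    obtain ⟨δ, hδ, H⟩ := uc_flow hφ hε
    refine ⟨δ, hδ, fun i s s' hs => ?_⟩
    rw [← mul_sub, ← Finset.sum_sub_distrib, abs_mul, abs_of_nonneg (by positivity)]
    have h5 : |∑ n ∈ Finset.range (M i), (φ (u (h * n) • u s • z i) -
        φ (u (h * n) • u s' • z i))| ≤ (M i : ℝ) * ε := by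
      refine (Finset.abs_sum_le_sum_abs _ _).trans ?_
      refine (Finset.sum_le_sum (g := fun _ => ε) fun n _ => ?_).trans ?_
      · have := H s s' hs (u (h * n) • z i)
        rw [← mul_smul, ← mul_smul, ← u_add, ← u_add, add_comm s, add_comm s'] at this
        rw [← mul_smul, ← mul_smul, ← u_add, ← u_add]
        exact this
      · simp
    by_cases hMi : (M i : ℝ) = 0
    · simp [hMi, hε.le]
    · have : 0 < (M i : ℝ) := lt_of_le_of_ne (Nat.cast_nonneg _) (Ne.symm hMi)
      calc 1 / (M i : ℝ) * _ ≤ 1 / (M i : ℝ) * ((M i : ℝ) * ε) := by gcongr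
        _ = ε := by field_simp
  · intro s
    have h1 := ha _ (cc_smul hφ (u s)).1 ⟨B, fun z => hB _⟩
    have h3 : Tendsto (fun i => 2 * B / (M i : ℝ)) 𝒰 (𝓝 0) :=
      hMr.const_div_atTop (2 * B)
    refine tendsto_of_tendsto_of_dist h1 (squeeze_zero (fun _ => dist_nonneg) (fun i => ?_) h3)
    rw [Real.dist_eq, ← mul_sub, abs_mul, abs_of_nonneg (by positivity)]
    have h4 := shift_sum (M i) (fun n => φ (u (h * n) • u s • z i)) (fun n => hB _)
    have e1 : ∑ n ∈ Finset.Icc 1 (M i), φ (u (h * n) • u s • z i) =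
        ∑ n ∈ Finset.Icc 1 (M i), φ (u s • u (h * n) • z i) := by
      refine Finset.sum_congr rfl fun n _ => ?_
      rw [← mul_smul, ← mul_smul, ← u_add, ← u_add, add_comm]
    rw [e1, abs_sub_comm] at h4
    calc 1 / (M i : ℝ) * _ ≤ 1 / (M i : ℝ) * (2 * B) := by gcongr
      _ = 2 * B / (M i : ℝ) := by ring

end Pool.Agent.Work.MP_c9c104_nt
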