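import Pool.Agent.Work.MP_c9c104_nt.Defs

/-!
Quadratic polynomials and the covering lemma.
-/

open MeasureTheory Filter Topology Set ProbabilityTheory
open scoped ENNReal NNReal

namespace Pool.Agent.Work.MP_c9c104_nt

variable {X : Type} [TopologicalSpace X] [MeasurableSpace X] [MulAction G X] [HomSp X]
variable {Z : Type} [TopologicalSpace Z] [MeasurableSpace Z] [MulAction G Z] [PhSp Z]

/-- sublevel sets of quadratic polynomials -/
theorem quad_good (α β γ a b ρ ρ' : ℝ) (hab : a < b) (hρ : 0 < ρ) (hρ' : 0 ≤ ρ')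
    (hs : ∃ s ∈ Icc a b, ρ ≤ |α + β * s + γ * s ^ 2|) :
    volume {s ∈ Icc a b | |α + β * s + γ * s ^ 2| ≤ ρ'} ≤
      ENNReal.ofReal (4 * √(ρ' / ρ) * (b - a)) := by
  by_contra hcon
  push Not at hcon
  obtain ⟨s, hs1, hs2⟩ := hs
  set p : ℝ → ℝ := fun s => α + β * s + γ * s ^ 2 with hp
  set F : Set ℝ := {s ∈ Icc a b | |p s| ≤ ρ'} with hF
  have hpc : Continuous p := by fun_prop
  have hFc : IsCompact F := by
    have h1 : IsClosed {s : ℝ | |p s| ≤ ρ'} := isClosed_le hpc.abs continuous_const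
    exact isCompact_Icc.inter_right h1
  have hFsub : F ⊆ Icc a b := fun x hx => hx.1
  have hfin : volume F ≠ ∞ := hFc.measure_lt_top.ne
  set m : ℝ := (volume F).toReal with hm
  have hvF : volume F = ENNReal.ofReal m := (ENNReal.ofReal_toReal hfin).symm
  have hsq : 0 ≤ √(ρ' / ρ) := Real.sqrt_nonneg _
  have hL : 0 < b - a := sub_pos.2 hab
  have hmc : 4 * √(ρ' / ρ) * (b - a) < m := by
    rw [hvF] at hcon
    exact (ENNReal.ofReal_lt_ofReal_iff_of_nonneg (by positivity)).1 hcon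
  have hm0 : 0 < m := lt_of_le_of_lt (by positivity) hmc
  have hne : F.Nonempty := by
    rw [nonempty_iff_ne_empty]
    intro h
    rw [h] at hm
    simp at hm
    linarith
  obtain ⟨s0, hs0, hmin⟩ := hFc.exists_isLeast hne
  obtain ⟨s2, hs2', hmax⟩ := hFc.exists_isGreatest hne
  have hgap : m ≤ s2 - s0 := by
    have h1 : F ⊆ Icc s0 s2 := fun x hx => ⟨hmin hx, hmax hx⟩
    have h2 := measure_mono (μ := volume) h1
    rw [hvF, Real.volume_Icc, ENNReal.ofReal_le_ofReal_iff (sub_nonneg.2 (hmin hs2'))] at h2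
    exact h2
  have hmid : ∃ s1 ∈ F, m / 4 ≤ s1 - s0 ∧ m / 4 ≤ s2 - s1 := by
    by_contra hno
    push Not at hno
    have h1 : F ⊆ Icc s0 (s0 + m / 4) ∪ Icc (s2 - m / 4) s2 := by
      intro x hx
      by_cases h : m / 4 ≤ x - s0
      · right
        have := hno x hx h
        exact ⟨by linarith, hmax hx⟩
      · left
        push Not at h
        exact ⟨hmin hx, by linarith⟩
    have h2 := (measure_mono (μ := volume) h1).trans (measure_union_le _ _)
    rw [hvF, Real.volume_Icc, Real.volume_Icc, ← ENNReal.ofReal_add (by linarith) (by linarith),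
      ENNReal.ofReal_le_ofReal_iff (by linarith)] at h2
    linarith
  obtain ⟨s1, hs1F, hg1, hg2⟩ := hmid
  have e0 : |p s0| ≤ ρ' := hs0.2
  have e1 : |p s1| ≤ ρ' := hs1F.2
  have e2 : |p s2| ≤ ρ' := hs2'.2
  have hid : p s * ((s1 - s0) * (s2 - s0) * (s2 - s1)) =
      p s0 * ((s - s1) * (s - s2)) * (s2 - s1) - p s1 * ((s - s0) * (s - s2)) * (s2 - s0) +
        p s2 * ((s - s0) * (s - s1)) * (s1 - s0) := by
    simp only [hp]; ring
  have hd : ∀ x ∈ F, |s - x| ≤ b - a := by
    intro x hx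
    have := hFsub hx
    rw [abs_le]
    constructor <;> linarith [this.1, this.2, hs1.1, hs1.2]
  have d0 := hd s0 hs0
  have d1 := hd s1 hs1F
  have d2 := hd s2 hs2'
  have hb : ∀ (c x y : ℝ), |c| ≤ ρ' → |x| ≤ b - a → |y| ≤ b - a →
      |c * (x * y)| ≤ ρ' * (b - a) ^ 2 := by
    intro c x y hc hx hy
    rw [abs_mul, abs_mul, pow_two]
    gcongr
  have b0 := hb _ _ _ e0 d1 d2
  have b1 := hb _ _ _ e1 d0 d2
  have b2 := hb _ _ _ e2 d0 d1
  have hpos1 : 0 < s1 - s0 := by linarith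
  have hpos2 : 0 < s2 - s1 := by linarith
  have hpos3 : 0 < s2 - s0 := by linarith
  have hmain : |p s| * ((s1 - s0) * (s2 - s0) * (s2 - s1)) ≤
      2 * ρ' * (b - a) ^ 2 * (s2 - s0) := by
    have h1 : |p s| * ((s1 - s0) * (s2 - s0) * (s2 - s1)) =
        |p s * ((s1 - s0) * (s2 - s0) * (s2 - s1))| := by
      rw [abs_mul, abs_of_pos (by positivity : 0 < (s1 - s0) * (s2 - s0) * (s2 - s1))]
    rw [h1, hid]
    have t0 : |p s0 * ((s - s1) * (s - s2)) * (s2 - s1)| ≤ ρ' * (b - a) ^ 2 * (s2 - s1) := by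
      rw [abs_mul, abs_of_pos hpos2]; gcongr
    have t1 : |p s1 * ((s - s0) * (s - s2)) * (s2 - s0)| ≤ ρ' * (b - a) ^ 2 * (s2 - s0) := by
      rw [abs_mul, abs_of_pos hpos3]; gcongr
    have t2 : |p s2 * ((s - s0) * (s - s1)) * (s1 - s0)| ≤ ρ' * (b - a) ^ 2 * (s1 - s0) := by
      rw [abs_mul, abs_of_pos hpos1]; gcongr
    have u0 := abs_le.1 t0
    have u1 := abs_le.1 t1
    have u2 := abs_le.1 t2
    rw [abs_le]
    constructor <;> nlinarith [u0.1, u0.2, u1.1, u1.2, u2.1, u2.2]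
  have hmain2 : ρ * ((s1 - s0) * (s2 - s1)) ≤ 2 * ρ' * (b - a) ^ 2 := by
    have h1 : |p s| * ((s1 - s0) * (s2 - s1)) ≤ 2 * ρ' * (b - a) ^ 2 := by
      have h2 : (|p s| * ((s1 - s0) * (s2 - s1))) * (s2 - s0) ≤
          (2 * ρ' * (b - a) ^ 2) * (s2 - s0) := by
        calc _ = |p s| * ((s1 - s0) * (s2 - s0) * (s2 - s1)) := by ring
          _ ≤ _ := hmain
      exact le_of_mul_le_mul_right h2 hpos3
    refine le_trans ?_ h1
    gcongr
  have hprod : 3 * m ^ 2 / 16 ≤ (s1 - s0) * (s2 - s1) := by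
    nlinarith [mul_nonneg (sub_nonneg.2 hg1) (sub_nonneg.2 hg2)]
  have h3 : ρ * (3 * m ^ 2 / 16) ≤ 2 * ρ' * (b - a) ^ 2 :=
    (mul_le_mul_of_nonneg_left hprod hρ.le).trans hmain2
  have h4 : (4 * √(ρ' / ρ) * (b - a)) ^ 2 < m ^ 2 := by
    apply pow_lt_pow_left₀ hmc (by positivity) (by norm_num)
  have h5 : (4 * √(ρ' / ρ) * (b - a)) ^ 2 = 16 * (ρ' / ρ) * (b - a) ^ 2 := by
    rw [mul_pow, mul_pow, Real.sq_sqrt (by positivity)]; norm_num
  rw [h5] at h4
  have h6 : 16 * ρ' * (b - a) ^ 2 < ρ * m ^ 2 := by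
    have := mul_lt_mul_of_pos_left h4 hρ
    calc 16 * ρ' * (b - a) ^ 2 = ρ * (16 * (ρ' / ρ) * (b - a) ^ 2) := by field_simp
      _ < _ := this
  have h7 : 0 ≤ ρ' * (b - a) ^ 2 := by positivity
  nlinarith

/-- coefficients of quadratic polynomials -/
theorem quad_coef (α β γ S R : ℝ) (hS : 0 < S)
    (h : ∀ s ∈ Icc 0 S, |α + β * s + γ * s ^ 2| ≤ R) :
    |α| ≤ R ∧ |β| ≤ 8 * R / S ∧ |γ| ≤ 8 * R / S ^ 2 := by
  have h0 := h 0 ⟨le_rfl, hS.le⟩
  have h1 := h (S / 2) ⟨by linarith, by linarith⟩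
  have h2 := h S ⟨hS.le, le_rfl⟩
  simp only [mul_zero, add_zero, ne_eq, OfNat.ofNat_ne_zero, not_false_eq_true, zero_pow] at h0
  have a0 := abs_le.1 h0
  have a1 := abs_le.1 h1
  have a2 := abs_le.1 h2
  refine ⟨h0, ?_, ?_⟩
  · rw [le_div_iff₀ hS, show |β| * S = |β * S| by rw [abs_mul, abs_of_pos hS], abs_le]
    constructor <;> nlinarith [a0.1, a0.2, a1.1, a1.2, a2.1, a2.2]
  · have hS2 : 0 < S ^ 2 := by positivity
    rw [le_div_iff₀ hS2, show |γ| * S ^ 2 = |γ * S ^ 2| by rw [abs_mul, abs_of_pos hS2], abs_le]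
    constructor <;> nlinarith [a0.1, a0.2, a1.1, a1.2, a2.1, a2.2]

/-- closed intervals bounding a component of a strict sublevel set -/
structure PolyCmp (P : ℝ → ℝ) (ρ S a b : ℝ) : Prop where
  h0 : 0 ≤ a
  hab : a < b
  hS : b ≤ S
  hlt : ∀ x ∈ Ioo a b, P x < ρ
  ha : a = 0 ∨ P a = ρ
  hb : b = S ∨ P b = ρ

theorem PolyCmp.left_le {P : ℝ → ℝ} {ρ S a b a' b' t : ℝ} (h : PolyCmp P ρ S a b)
    (h' : PolyCmp P ρ S a' b') (ht : P t < ρ) (hm : t ∈ Icc a b) (hm' : t ∈ Icc a' b') :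
    a' ≤ a := by
  by_contra hc
  push Not at hc
  have h1 : P a' = ρ := by
    rcases h'.ha with h2 | h2
    · linarith [h.h0]
    · exact h2
  have h2 : a' ≠ t := by rintro rfl; linarith
  have h3 : a' < t := lt_of_le_of_ne hm'.1 h2
  have := h.hlt a' ⟨hc, lt_of_lt_of_le h3 hm.2⟩
  linarith

theorem PolyCmp.le_right {P : ℝ → ℝ} {ρ S a b a' b' t : ℝ} (h : PolyCmp P ρ S a b)
    (h' : PolyCmp P ρ S a' b') (ht : P t < ρ) (hm : t ∈ Icc a b) (hm' : t ∈ Icc a' b') :
    b ≤ b' := by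
  by_contra hc
  push Not at hc
  have h1 : P b' = ρ := by
    rcases h'.hb with h2 | h2
    · linarith [h.hS]
    · exact h2
  have h2 : t ≠ b' := by rintro rfl; linarith
  have h3 : t < b' := lt_of_le_of_ne hm'.2 h2
  have := h.hlt b' ⟨lt_of_le_of_lt hm.1 h3, hc⟩
  linarith

theorem poly_exists_cmp {P : ℝ → ℝ} (hP : Continuous P) {ρ S s : ℝ} (hS : 0 < S)
    (hs : s ∈ Icc 0 S) (hPs : P s < ρ) : ∃ a b, PolyCmp P ρ S a b ∧ s ∈ Icc a b := by
  have hA : IsCompact (insert 0 {x ∈ Icc 0 s | ρ ≤ P x}) :=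
    (isCompact_Icc.inter_right (isClosed_le continuous_const hP)).insert 0
  have hB : IsCompact (insert S {x ∈ Icc s S | ρ ≤ P x}) :=
    (isCompact_Icc.inter_right (isClosed_le continuous_const hP)).insert S
  obtain ⟨a, ha, ha'⟩ := hA.exists_isGreatest (insert_nonempty _ _)
  obtain ⟨b, hb, hb'⟩ := hB.exists_isLeast (insert_nonempty _ _)
  have has : a ≤ s := by
    rcases ha with rfl | h
    · exact hs.1
    · exact h.1.2
  have hsb : s ≤ b := by
    rcases hb with rfl | h
    · exact hs.2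
    · exact h.1.1
  have ha0 : 0 ≤ a := ha' (mem_insert _ _)
  have hbS : b ≤ S := hb' (mem_insert _ _)
  have hltl : ∀ x, a < x → x ≤ s → P x < ρ := by
    intro x h1 h2
    by_contra hc
    push Not at hc
    have := ha' (mem_insert_of_mem _ ⟨⟨by linarith, h2⟩, hc⟩)
    linarith
  have hltr : ∀ x, s ≤ x → x < b → P x < ρ := by
    intro x h1 h2
    by_contra hc
    push Not at hc
    have := hb' (mem_insert_of_mem _ ⟨⟨h1, by linarith⟩, hc⟩)
    linarith
  have hlt : ∀ x ∈ Ioo a b, P x < ρ := by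
    intro x hx
    rcases le_total x s with h | h
    · exact hltl x hx.1 h
    · exact hltr x h hx.2
  have hab : a < b := by
    rcases (has.trans hsb).lt_or_eq with h | h
    · exact h
    · exfalso
      have e1 : a = s := le_antisymm has (by rw [h]; exact hsb)
      have e2 : b = s := by rw [← h]; exact e1
      rcases ha with h1 | h1
      · rcases hb with h2 | h2
        · linarith
        · have := h2.2; rw [e2] at this; linarith
      · have := h1.2; rw [e1] at this; linarith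
  refine ⟨a, b, ⟨ha0, hab, hbS, hlt, ?_, ?_⟩, has, hsb⟩
  · rcases ha with h | h
    · exact Or.inl h
    · right
      refine le_antisymm ?_ h.2
      have h1 : a ∈ closure (Ioo a b) := by
        rw [closure_Ioo hab.ne]; exact ⟨le_rfl, hab.le⟩
      have h2 : closure (Ioo a b) ⊆ {x | P x ≤ ρ} :=
        closure_minimal (fun x hx => (hlt x hx).le) (isClosed_le hP continuous_const)
      exact h2 h1
  · rcases hb with h | h
    · exact Or.inl h
    · right
      refine le_antisymm ?_ h.2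
      have h1 : b ∈ closure (Ioo a b) := by
        rw [closure_Ioo hab.ne]; exact ⟨hab.le, le_rfl⟩
      have h2 : closure (Ioo a b) ⊆ {x | P x ≤ ρ} :=
        closure_minimal (fun x hx => (hlt x hx).le) (isClosed_le hP continuous_const)
      exact h2 h1

/-- one dimensional covering lemma -/
theorem covering {PP : Set (ℝ → ℝ)} {S ρ' ρ θ : ℝ} (hS : 0 < S) (hρ : ρ' < ρ) (hθ : 0 ≤ θ)
    (hcont : ∀ P ∈ PP, Continuous P)
    (hgood : ∀ P ∈ PP, ∀ a b, 0 ≤ a → a < b → b ≤ S → (∀ s ∈ Icc a b, P s ≤ ρ) →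
      (∃ s ∈ Icc a b, P s = ρ) →
      volume {s ∈ Icc a b | P s ≤ ρ'} ≤ ENNReal.ofReal (θ * (b - a)))
    {E : Set ℝ} (hE : MeasurableSet E) (hES : E ⊆ Icc 0 S)
    (hex : ∀ s ∈ E, ∃ P ∈ PP, P s ≤ ρ')
    (huniq : ∀ s ∈ E, ∀ P ∈ PP, ∀ P' ∈ PP, P s ≤ ρ → P' s ≤ ρ → P = P')
    (hbig : ENNReal.ofReal (2 * θ * S) < volume E) :
    ∃ P ∈ PP, (∀ s ∈ Icc 0 S, P s ≤ ρ) ∧ ∃ s ∈ E, P s ≤ ρ' := by
  by_contra hcon
  push Not at hcon
  choose! P hPP hPs using hex
  have hcmp : ∀ s ∈ E, ∃ a b, PolyCmp (P s) ρ S a b ∧ s ∈ Icc a b := fun s hs =>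
    poly_exists_cmp (hcont _ (hPP s hs)) hS (hES hs) (lt_of_le_of_lt (hPs s hs) hρ)
  choose! a b hab hmem using hcmp
  set I : ℝ → Set ℝ := fun s => Icc (a s) (b s) with hI
  have hle : ∀ s ∈ E, ∀ x ∈ I s, P s x ≤ ρ := by
    intro s hs x hx
    have h2 : closure (Ioo (a s) (b s)) ⊆ {x | P s x ≤ ρ} :=
      closure_minimal (fun x hx => ((hab s hs).hlt x hx).le)
        (isClosed_le (hcont _ (hPP s hs)) continuous_const)
    rw [closure_Ioo (hab s hs).hab.ne] at h2
    exact h2 hx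
  -- coincidence
  have hsame : ∀ s ∈ E, ∀ t ∈ E, s ∈ I t → P s = P t ∧ I s = I t := by
    intro s hs t ht hst
    have e : P s = P t := huniq s hs _ (hPP s hs) _ (hPP t ht)
      ((hPs s hs).trans hρ.le) (hle t ht s hst)
    refine ⟨e, ?_⟩
    have hlt : P t s < ρ := by rw [← e]; exact lt_of_le_of_lt (hPs s hs) hρ
    have c1 := hab s hs
    rw [e] at c1
    have c2 := hab t ht
    have m1 := hmem s hs
    have ea : a s = a t := le_antisymm (c2.left_le c1 hlt hst m1) (c1.left_le c2 hlt m1 hst)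
    have eb : b s = b t := le_antisymm (c1.le_right c2 hlt m1 hst) (c2.le_right c1 hlt hst m1)
    simp only [hI, ea, eb]
  -- measure of the pieces
  have hpiece : ∀ s ∈ E, volume (E ∩ I s) ≤ ENNReal.ofReal θ * volume (I s) := by
    intro s hs
    have c := hab s hs
    have h1 : E ∩ I s ⊆ {x ∈ Icc (a s) (b s) | P s x ≤ ρ'} := by
      intro x hx
      refine ⟨hx.2, ?_⟩
      have := (hsame x hx.1 s hs hx.2).1
      rw [← this]
      exact hPs x hx.1
    have h2 : ∃ x ∈ Icc (a s) (b s), P s x = ρ := by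
      rcases c.ha with h | h
      · rcases c.hb with h' | h'
        · exfalso
          obtain ⟨x, hx, hx'⟩ : ∃ x ∈ Icc 0 S, ρ < P s x := by
            by_contra hno
            push Not at hno
            have := hcon _ (hPP s hs) hno s hs
            linarith [hPs s hs]
          have := hle s hs x (by simp only [hI]; rw [h, h']; exact hx)
          linarith
        · exact ⟨_, ⟨c.hab.le, le_rfl⟩, h'⟩
      · exact ⟨_, ⟨le_rfl, c.hab.le⟩, h⟩
    have h3 := hgood _ (hPP s hs) (a s) (b s) c.h0 c.hab c.hS (hle s hs) h2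
    refine (measure_mono h1).trans (h3.trans ?_)
    simp only [hI]
    rw [Real.volume_Icc, ENNReal.ofReal_mul hθ]
  -- neighbourhoods
  have hnhd : ∀ s ∈ E, I s ∈ 𝓝[E] s := by
    intro s hs
    have c := hab s hs
    have hm := hmem s hs
    have hlt : P s s < ρ := lt_of_le_of_lt (hPs s hs) hρ
    have h1 : ∀ᶠ x in 𝓝[E] s, a s ≤ x := by
      rcases c.ha with h | h
      · rw [h]
        filter_upwards [self_mem_nhdsWithin] with x hx
        exact (hES hx).1
      · have hne : a s ≠ s := by intro h'; rw [h'] at h; linarith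
        have hlt' : a s < s := lt_of_le_of_ne hm.1 hne
        exact (eventually_ge_nhds hlt').filter_mono nhdsWithin_le_nhds
    have h2 : ∀ᶠ x in 𝓝[E] s, x ≤ b s := by
      rcases c.hb with h | h
      · rw [h]
        filter_upwards [self_mem_nhdsWithin] with x hx
        exact (hES hx).2
      · have hne : s ≠ b s := by intro h'; rw [← h'] at h; linarith
        have hlt' : s < b s := lt_of_le_of_ne hm.2 hne
        exact (eventually_le_nhds hlt').filter_mono nhdsWithin_le_nhds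
    filter_upwards [h1, h2] with x hx1 hx2
    exact ⟨hx1, hx2⟩
  obtain ⟨t, htE, htc, htcov⟩ := TopologicalSpace.countable_cover_nhdsWithin hnhd
  obtain ⟨t', ht't, hbij⟩ := SurjOn.exists_bijOn_subset (surjOn_image I t)
  have ht'E : t' ⊆ E := ht't.trans htE
  have ht'c : t'.Countable := htc.mono ht't
  have hcov' : E ⊆ ⋃ i ∈ t', (E ∩ I i) := by
    intro x hx
    obtain ⟨i, hi, hxi⟩ := mem_iUnion₂.1 (htcov hx)
    obtain ⟨j, hj, hij⟩ := hbij.surjOn (mem_image_of_mem I hi)
    exact mem_iUnion₂.2 ⟨j, hj, hx, by rw [hij]; exact hxi⟩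
  have : Countable t' := ht'c.to_subtype
  have hsum : volume E ≤ ∑' i : t', ENNReal.ofReal θ * volume (I i) := by
    calc volume E ≤ volume (⋃ i ∈ t', (E ∩ I i)) := measure_mono hcov'
      _ ≤ ∑' i : t', volume (E ∩ I i) := measure_biUnion_le _ ht'c _
      _ ≤ _ := ENNReal.tsum_le_tsum fun i => hpiece i (ht'E i.2)
  have hmult : ∀ x : ℝ, ∑' i : t', (I i).indicator (1 : ℝ → ℝ≥0∞) x ≤
      (Icc 0 S).indicator (fun _ => (2 : ℝ≥0∞)) x := by
    intro x
    by_cases hx : x ∈ Icc 0 S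
    · rw [indicator_of_mem hx]
      refine ENNReal.summable.tsum_le_of_sum_le fun s => ?_
      classical
      have h1 : ∑ i ∈ s, (I i).indicator (1 : ℝ → ℝ≥0∞) x =
          ((s.filter fun i : t' => x ∈ I i).card : ℝ≥0∞) := by
        rw [Finset.card_filter]
        push_cast
        refine Finset.sum_congr rfl fun i _ => ?_
        by_cases hi : x ∈ I i
        · rw [indicator_of_mem hi]; simp [hi]
        · rw [indicator_of_notMem hi]; simp [hi]
      rw [h1]
      have h2 : (s.filter fun i : t' => x ∈ I i).card ≤ (Finset.univ : Finset Bool).card := by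
        refine Finset.card_le_card_of_injOn (fun i => decide ((i : ℝ) ≤ x))
          (fun i _ => Finset.mem_coe.2 (Finset.mem_univ _)) ?_
        have key : ∀ i j : t', x ∈ I i → x ∈ I j → ((i : ℝ) ≤ x ↔ (j : ℝ) ≤ x) →
            (i : ℝ) ≤ j → i = j := by
          intro i j hi hj hij hle'
          by_cases hix : (i : ℝ) ≤ x
          · have hjx := hij.1 hix
            have hji : (j : ℝ) ∈ I i := ⟨(hmem i (ht'E i.2)).1.trans hle', hjx.trans hi.2⟩
            have := (hsame j (ht'E j.2) i (ht'E i.2) hji).2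
            exact Subtype.ext (hbij.injOn j.2 i.2 this).symm
          · have hjx : ¬ ((j : ℝ) ≤ x) := fun h => hix (hij.2 h)
            push Not at hix hjx
            have hij' : (i : ℝ) ∈ I j := ⟨hj.1.trans hix.le, hle'.trans (hmem j (ht'E j.2)).2⟩
            have := (hsame i (ht'E i.2) j (ht'E j.2) hij').2
            exact Subtype.ext (hbij.injOn i.2 j.2 this)
        intro i hi j hj hij
        simp only [Finset.coe_filter, mem_ofPred_eq] at hi hj
        have hij' : ((i : ℝ) ≤ x ↔ (j : ℝ) ≤ x) := by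
          simpa [decide_eq_decide] using hij
        rcases le_total (i : ℝ) j with h | h
        · exact key i j hi.2 hj.2 hij' h
        · exact (key j i hj.2 hi.2 hij'.symm h).symm
      rw [Finset.card_univ, Fintype.card_bool] at h2
      exact_mod_cast h2
    · rw [indicator_of_notMem hx]
      refine le_of_eq ?_
      rw [ENNReal.tsum_eq_zero]
      intro i
      refine indicator_of_notMem (fun h => hx ?_) _
      have c := hab i (ht'E i.2)
      exact ⟨c.h0.trans h.1, h.2.trans c.hS⟩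
  have htot : ∑' i : t', volume (I i) ≤ 2 * ENNReal.ofReal S := by
    have hmeas : ∀ i : t', MeasurableSet (I i) := fun i => measurableSet_Icc
    calc ∑' i : t', volume (I i) = ∑' i : t', ∫⁻ x, (I i).indicator (1 : ℝ → ℝ≥0∞) x := by
          refine tsum_congr fun i => ?_
          rw [lintegral_indicator_one (hmeas i)]
      _ = ∫⁻ x, ∑' i : t', (I i).indicator (1 : ℝ → ℝ≥0∞) x := by
          rw [lintegral_tsum]
          intro i
          exact (measurable_one.indicator (hmeas i)).aemeasurable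
      _ ≤ ∫⁻ x, (Icc 0 S).indicator (fun _ => (2 : ℝ≥0∞)) x := lintegral_mono hmult
      _ = 2 * ENNReal.ofReal S := by
          rw [lintegral_indicator measurableSet_Icc, setLIntegral_const, Real.volume_Icc, sub_zero]
  have hfinal : volume E ≤ ENNReal.ofReal (2 * θ * S) := by
    refine hsum.trans ?_
    rw [ENNReal.tsum_mul_left]
    calc ENNReal.ofReal θ * ∑' i : t', volume (I i) ≤
          ENNReal.ofReal θ * (2 * ENNReal.ofReal S) := by gcongr
      _ = ENNReal.ofReal (2 * θ * S) := by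
          rw [show 2 * θ * S = θ * (2 * S) by ring, ENNReal.ofReal_mul hθ,
            ENNReal.ofReal_mul (by norm_num)]
          norm_num
  exact absurd hbig (not_lt.2 hfinal)

end Pool.Agent.Work.MP_c9c104_nt
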