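import Pool.Agent.Work.MP_c9c104_nt.Zass
import Pool.Agent.Work.MP_c9c104_nt.Poly

/-!
Quantitative non divergence of horocycle segments.
-/

open MeasureTheory Filter Topology Set ProbabilityTheory
open scoped ENNReal NNReal

namespace Pool.Agent.Work.MP_c9c104_nt

variable {X : Type} [TopologicalSpace X] [MeasurableSpace X] [MulAction G X] [HomSp X]
variable {Z : Type} [TopologicalSpace Z] [MeasurableSpace Z] [MulAction G Z] [PhSp Z]

/-- the trace free part of `k` is `c` times the one of `g` -/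
private def Par (g k : G) (c : ℝ) : Prop :=
  k 0 0 - k 1 1 = c * (g 0 0 - g 1 1) ∧ k 0 1 = c * g 0 1 ∧ k 1 0 = c * g 1 0

private lemma Par.ynrm {g k : G} {c : ℝ} (h : Par g k c) : ynrm k = |c| * ynrm g := by
  obtain ⟨h1, h2, h3⟩ := h
  unfold MP_c9c104_nt.ynrm
  rw [h1, h2, h3, abs_mul, abs_mul, abs_mul, mul_max_of_nonneg _ _ (abs_nonneg c),
    mul_max_of_nonneg _ _ (abs_nonneg c)]

private lemma Par.conj {g k : G} {c : ℝ} (h : Par g k c) (s : ℝ) :
    Par (u s * g * u (-s)) (u s * k * u (-s)) c := by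
  obtain ⟨h1, h2, h3⟩ := h
  refine ⟨?_, ?_, ?_⟩
  · rw [conj00, conj11, conj00, conj11, h3]
    linear_combination h1
  · rw [conj01, conj01, h2, h3]
    linear_combination (-s) * h1
  · rw [conj10, conj10, h3]

private lemma Par.symm {g k : G} {c : ℝ} (h : Par g k c) (hc : c ≠ 0) : Par k g c⁻¹ := by
  obtain ⟨h1, h2, h3⟩ := h
  refine ⟨?_, ?_, ?_⟩
  · rw [h1]; field_simp
  · rw [h2]; field_simp
  · rw [h3]; field_simp

private lemma Par.trans {g k l : G} {c d : ℝ} (h : Par g k c) (h' : Par k l d) :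
    Par g l (d * c) := by
  obtain ⟨h1, h2, h3⟩ := h
  obtain ⟨k1, k2, k3⟩ := h'
  refine ⟨?_, ?_, ?_⟩
  · rw [k1, h1]; ring
  · rw [k2, h2]; ring
  · rw [k3, h3]; ring

private lemma ynrm_conj_zero {g : G} (h : ynrm g = 0) (s : ℝ) : ynrm (u s * g * u (-s)) = 0 := by
  have h0 : Par g g 0 := by
    obtain ⟨h1, h2, h3⟩ := ynrm_le_iff.1 h.le
    refine ⟨?_, ?_, ?_⟩
    · rw [zero_mul]; exact abs_nonpos_iff.1 h1
    · rw [zero_mul]; exact abs_nonpos_iff.1 h2
    · rw [zero_mul]; exact abs_nonpos_iff.1 h3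
  have := (h0.conj s).ynrm
  rw [this]
  simp

private lemma unconj (g : G) (s : ℝ) : u (-s) * (u s * g * u (-s)) * u s = g := by
  have := conj_neg g (-s)
  rwa [neg_neg] at this

private lemma ynrm_conj_ne {g : G} (h : ynrm g ≠ 0) (s : ℝ) : ynrm (u s * g * u (-s)) ≠ 0 := by
  intro h0
  apply h
  have := ynrm_conj_zero h0 (-s)
  rwa [neg_neg, unconj] at this

/-- bounded parts of discrete subgroups are finite -/
private lemma finite_bdd {Λ : Subgroup G} {ε : ℝ} (hε : 0 < ε)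
    (h : ∀ g ∈ Λ, nrm g < ε → g = 1) (R : ℝ) :
    {g : G | g ∈ Λ ∧ ∀ i j, |g i j| ≤ R}.Finite := by
  by_contra hinf
  obtain ⟨g0, _, hacc⟩ := Set.Infinite.exists_accPt_of_subset_isCompact hinf (isCompact_bdd R)
    (fun g hg => hg.2)
  have hc : Continuous fun p : G × G => nrm (p.1⁻¹ * p.2) :=
    continuous_nrm.comp (continuous_fst.inv.mul continuous_snd)
  have hopen : IsOpen {p : G × G | nrm (p.1⁻¹ * p.2) < ε} := isOpen_lt hc continuous_const
  have hmem : (g0, g0) ∈ {p : G × G | nrm (p.1⁻¹ * p.2) < ε} := by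
    rw [mem_ofPred_eq]
    simp only [inv_mul_cancel, nrm_one]
    exact hε
  obtain ⟨U1, hU1, U2, hU2, hUU⟩ := mem_nhds_prod_iff.1 (hopen.mem_nhds hmem)
  rw [accPt_iff_nhds] at hacc
  obtain ⟨g, ⟨hgU, hgS⟩, hg0⟩ := hacc (U1 ∩ U2) (inter_mem hU1 hU2)
  obtain ⟨k, ⟨hkU, hkS⟩, _⟩ := hacc (U1 ∩ U2 ∩ {g}ᶜ)
    (inter_mem (inter_mem hU1 hU2) (isOpen_compl_singleton.mem_nhds (Ne.symm hg0)))
  have h2 := hUU (mk_mem_prod hgU.1 hkU.1.2)
  have h1 : g⁻¹ * k = 1 := h _ (Λ.mul_mem (Λ.inv_mem hgS.1) hkS.1) h2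
  exact hkU.2 (inv_mul_eq_one.1 h1).symm

private lemma entries_bdd (g : G) (i j : Fin 2) : |g i j| ≤ 1 + 2 * ynrm g := by
  obtain ⟨h1, h2, h3⟩ := ynrm_le_iff.1 (le_refl (ynrm g))
  have hd := G_det g
  have y0 := ynrm_nonneg g
  set y := ynrm g
  have hBC : |g 0 1 * g 1 0| ≤ y * y := by
    rw [abs_mul]; exact mul_le_mul h2 h3 (abs_nonneg _) y0
  have hBC' := abs_le.1 hBC
  have a00 : |g 0 0| ≤ 1 + 2 * y := by
    by_contra hc
    push Not at hc
    have e : |g 0 0| * |g 0 0| = g 0 0 * (g 0 0 - g 1 1) + (1 + g 0 1 * g 1 0) := by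
      rw [abs_mul_abs_self]; linarith
    have e2 : g 0 0 * (g 0 0 - g 1 1) ≤ |g 0 0| * y := by
      refine le_trans (le_abs_self _) ?_
      rw [abs_mul]
      exact mul_le_mul_of_nonneg_left h1 (abs_nonneg _)
    nlinarith
  have a11 : |g 1 1| ≤ 1 + 2 * y := by
    by_contra hc
    push Not at hc
    have e : |g 1 1| * |g 1 1| = g 1 1 * (g 1 1 - g 0 0) + (1 + g 0 1 * g 1 0) := by
      rw [abs_mul_abs_self]; linarith
    have e2 : g 1 1 * (g 1 1 - g 0 0) ≤ |g 1 1| * y := by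
      refine le_trans (le_abs_self _) ?_
      rw [abs_mul]
      rw [abs_sub_comm] at h1
      exact mul_le_mul_of_nonneg_left h1 (abs_nonneg _)
    nlinarith
  fin_cases i <;> fin_cases j
  · exact a00
  · change |g 0 1| ≤ _; linarith
  · change |g 1 0| ≤ _; linarith
  · exact a11

/-- primitive elements -/
private def Prim (Λ : Subgroup G) (p : G) : Prop :=
  p ∈ Λ ∧ ynrm p ≠ 0 ∧ ∀ k ∈ Λ, ynrm k ≠ 0 → ∀ c, Par p k c → 1 ≤ |c|

private lemma exists_prim {Λ : Subgroup G} {ε : ℝ} (hε : 0 < ε)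
    (h : ∀ g ∈ Λ, nrm g < ε → g = 1) {η : G} (hη : η ∈ Λ) (h0 : ynrm η ≠ 0) :
    ∃ p, Prim Λ p ∧ ∃ c, 1 ≤ |c| ∧ Par p η c := by
  set T : Set G := {p | p ∈ Λ ∧ ynrm p ≠ 0 ∧ ynrm p ≤ ynrm η ∧ ∃ c, Par η p c} with hT
  have hfin : T.Finite := by
    refine (finite_bdd hε h (1 + 2 * ynrm η)).subset ?_
    rintro p ⟨h1, _, h3, _⟩
    exact ⟨h1, fun i j => (entries_bdd p i j).trans (by linarith)⟩
  have hne : T.Nonempty := ⟨η, hη, h0, le_rfl, 1, by simp, by simp, by simp⟩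
  obtain ⟨p, hpT, hmin⟩ := Set.exists_min_image T ynrm hfin hne
  obtain ⟨hp1, hp2, hp3, c, hc⟩ := hpT
  have hyp : 0 < ynrm p := lt_of_le_of_ne (ynrm_nonneg p) (Ne.symm hp2)
  have hyη : 0 < ynrm η := lt_of_le_of_ne (ynrm_nonneg η) (Ne.symm h0)
  refine ⟨p, ⟨hp1, hp2, ?_⟩, ?_⟩
  · intro k hk hk0 d hd
    by_contra hlt
    push Not at hlt
    have hyk := hd.ynrm
    have hlt2 : ynrm k < ynrm p := by
      rw [hyk]
      nlinarith
    have hkT : k ∈ T := ⟨hk, hk0, by linarith, d * c, hc.trans hd⟩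
    have := hmin k hkT
    linarith
  · have hc0 : c ≠ 0 := by
      rintro rfl
      apply hp2
      rw [hc.ynrm]
      simp
    refine ⟨c⁻¹, ?_, hc.symm hc0⟩
    have hle : |c| ≤ 1 := by
      have e := hc.ynrm
      rw [e] at hp3
      by_contra hlt
      push Not at hlt
      nlinarith
    rw [abs_inv]
    exact (one_le_inv₀ (abs_pos.2 hc0)).2 hle

private lemma conj_mem_stab {X : Type} [MulAction G X] {x : X} {η : G}
    (h : η ∈ MulAction.stabilizer G x) (k : G) :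
    k * η * k⁻¹ ∈ MulAction.stabilizer G (k • x) := by
  rw [MulAction.mem_stabilizer_iff] at h ⊢
  rw [smul_smul, mul_assoc, mul_assoc, inv_mul_cancel, mul_one, ← smul_smul, h]

private lemma uconj_mem_stab {X : Type} [MulAction G X] {x : X} {η : G}
    (h : η ∈ MulAction.stabilizer G x) (s : ℝ) :
    u s * η * u (-s) ∈ MulAction.stabilizer G (u s • x) := by
  have := conj_mem_stab h (u s)
  rwa [u_inv] at this

private lemma not_thick_iff {X : Type} [MulAction G X] (x : X) (ρ s : ℝ) :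
    u s • x ∉ thick X ρ ↔ ∃ η ∈ MulAction.stabilizer G x, ynrm η ≠ 0 ∧
      ynrm (u s * η * u (-s)) < ρ := by
  constructor
  · intro h
    simp only [thick, mem_ofPred_eq, not_forall] at h
    obtain ⟨k, hk, hk1, hk2⟩ := h
    refine ⟨u (-s) * k * u s, ?_, ?_, ?_⟩
    · have := uconj_mem_stab hk (-s)
      rwa [neg_neg, smul_smul, u_neg_mul, one_smul] at this
    · intro h0
      apply hk2
      have := ynrm_conj_zero h0 s
      rwa [conj_neg] at this
    · rw [conj_neg]; exact hk1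
  · rintro ⟨η, hη, h0, hlt⟩ h
    exact ynrm_conj_ne h0 s (h _ (uconj_mem_stab hη s) hlt)

private lemma continuous_P (η : G) : Continuous fun s : ℝ => ynrm (u s * η * u (-s)) :=
  continuous_ynrm.comp ((continuous_u.mul continuous_const).mul (continuous_u.comp continuous_neg))

private lemma P_eq (η : G) (s : ℝ) : ynrm (u s * η * u (-s)) =
    max |(η 0 0 - η 1 1) + (2 * η 1 0) * s + 0 * s ^ 2|
      (max |η 0 1 + (η 1 1 - η 0 0) * s + (- η 1 0) * s ^ 2| |η 1 0 + 0 * s + 0 * s ^ 2|) := by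
  have e1 : η 0 0 + s * η 1 0 - (η 1 1 - s * η 1 0) =
      (η 0 0 - η 1 1) + (2 * η 1 0) * s + 0 * s ^ 2 := by ring
  have e2 : η 0 1 + s * (η 1 1 - η 0 0) - s ^ 2 * η 1 0 =
      η 0 1 + (η 1 1 - η 0 0) * s + (- η 1 0) * s ^ 2 := by ring
  have e3 : η 1 0 + 0 * s + 0 * s ^ 2 = η 1 0 := by ring
  unfold ynrm
  rw [conj00, conj01, conj10, conj11, e1, e2, e3]

theorem nondiv : ∃ ρ0 > 0, ∃ C > 0, ∀ (X : Type) [MulAction G X] [DiscStab X] (x : X)
    (N : ℝ), 0 < N → ∀ ρ, 0 < ρ → ρ < ρ0 →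
    (∀ η ∈ MulAction.stabilizer G x, ynrm η ≠ 0 →
      ∃ s ∈ Icc 0 N, ρ0 ≤ ynrm (u s * η * u (-s))) →
    volume {s ∈ Icc 0 N | u s • x ∉ thick X ρ} ≤ ENNReal.ofReal (C * √(ρ / ρ0) * N) := by
  obtain ⟨ρz, hρz, hz⟩ := zassenhaus
  refine ⟨ρz, hρz, 12, by norm_num, ?_⟩
  intro X _ _ x N hN ρ hρ hρlt hbig
  have hr0 : 0 ≤ √(ρ / ρz) := Real.sqrt_nonneg _
  rcases le_or_gt (ρz / 2) ρ with hle | hlt
  · -- trivial case
    have h1 : volume {s ∈ Icc 0 N | u s • x ∉ thick X ρ} ≤ ENNReal.ofReal N := by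
      refine le_trans (measure_mono (fun s hs => hs.1)) ?_
      rw [Real.volume_Icc, sub_zero]
    refine le_trans h1 (ENNReal.ofReal_le_ofReal ?_)
    have h2 : (1 / 2 : ℝ) ≤ √(ρ / ρz) := by
      apply Real.le_sqrt_of_sq_le
      rw [le_div_iff₀ hρz]
      linarith
    nlinarith
  -- main case
  obtain ⟨ε, hε, hdisc⟩ := DiscStab.disc x
  set Λ := MulAction.stabilizer G x with hΛ
  by_contra hcon
  push Not at hcon
  set E : Set ℝ := {s ∈ Icc 0 N | u s • x ∉ thick X ρ} with hE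
  have hEm : MeasurableSet E := by
    have hEe : E = Icc 0 N ∩ ⋃ η ∈ {η : G | η ∈ Λ ∧ ynrm η ≠ 0},
        {s : ℝ | ynrm (u s * η * u (-s)) < ρ} := by
      ext s
      simp only [hE, mem_inter_iff, mem_ofPred_eq, mem_iUnion, not_thick_iff, exists_prop]
      constructor
      · rintro ⟨h1, η, h2, h3, h4⟩
        exact ⟨h1, η, ⟨h2, h3⟩, h4⟩
      · rintro ⟨h1, η, ⟨h2, h3⟩, h4⟩
        exact ⟨h1, η, h2, h3, h4⟩
    rw [hEe]
    refine measurableSet_Icc.inter (IsOpen.measurableSet ?_)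
    exact isOpen_biUnion fun η _ => isOpen_lt (continuous_P η) continuous_const
  set PP : Set (ℝ → ℝ) := {P | ∃ p, Prim Λ p ∧ P = fun s => ynrm (u s * p * u (-s))} with hPP
  have hcov := covering (PP := PP) (S := N) (ρ' := ρ) (ρ := ρz / 2)
    (θ := 4 * √(ρ / (ρz / 2))) hN hlt (by positivity)
    (by rintro P ⟨p, _, rfl⟩; exact continuous_P p)
    (by
      rintro P ⟨p, _, rfl⟩ a b _ hab _ _ ⟨s1, hs1, hs1e⟩
      have hpick : ∀ (f : ℝ → ℝ) (α β γ : ℝ), (∀ s, f s = α + β * s + γ * s ^ 2) →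
          (∀ s, |f s| ≤ ynrm (u s * p * u (-s))) → ρz / 2 ≤ |f s1| →
          volume {s ∈ Icc a b | ynrm (u s * p * u (-s)) ≤ ρ} ≤
            ENNReal.ofReal (4 * √(ρ / (ρz / 2)) * (b - a)) := by
        intro f α β γ hf hle hge
        refine le_trans (measure_mono ?_)
          (quad_good α β γ a b (ρz / 2) ρ hab (by linarith) hρ.le ⟨s1, hs1, ?_⟩)
        · rintro s ⟨hs, hsle⟩
          refine ⟨hs, ?_⟩
          rw [← hf]
          exact (hle s).trans hsle
        · rw [← hf]; exact hge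
      have hmax := P_eq p s1
      simp only at hs1e
      rw [hs1e] at hmax
      rcases max_choice |(p 0 0 - p 1 1) + (2 * p 1 0) * s1 + 0 * s1 ^ 2|
        (max |p 0 1 + (p 1 1 - p 0 0) * s1 + (- p 1 0) * s1 ^ 2| |p 1 0 + 0 * s1 + 0 * s1 ^ 2|)
        with h | h
      · refine hpick (fun s => (p 0 0 - p 1 1) + (2 * p 1 0) * s + 0 * s ^ 2) _ _ _
          (fun s => rfl) (fun s => ?_) ?_
        · rw [P_eq]; exact le_max_left _ _
        · rw [hmax, h]
      · rcases max_choice |p 0 1 + (p 1 1 - p 0 0) * s1 + (- p 1 0) * s1 ^ 2|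
          |p 1 0 + 0 * s1 + 0 * s1 ^ 2| with h' | h'
        · refine hpick (fun s => p 0 1 + (p 1 1 - p 0 0) * s + (- p 1 0) * s ^ 2) _ _ _
            (fun s => rfl) (fun s => ?_) ?_
          · rw [P_eq]; exact le_max_of_le_right (le_max_left _ _)
          · rw [hmax, h, h']
        · refine hpick (fun s => p 1 0 + 0 * s + 0 * s ^ 2) _ _ _
            (fun s => rfl) (fun s => ?_) ?_
          · rw [P_eq]; exact le_max_of_le_right (le_max_right _ _)
          · rw [hmax, h, h'])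
    hEm (fun s hs => hs.1)
    (by
      rintro s ⟨_, hs⟩
      rw [not_thick_iff] at hs
      obtain ⟨η, hη, h0, hlt'⟩ := hs
      obtain ⟨p, hp, c, hc, hpar⟩ := exists_prim hε hdisc hη h0
      refine ⟨_, ⟨p, hp, rfl⟩, ?_⟩
      have h1 := (hpar.conj s).ynrm
      rw [h1] at hlt'
      have h2 := ynrm_nonneg (u s * p * u (-s))
      nlinarith)
    (by
      rintro s _ P ⟨p, hp, rfl⟩ P' ⟨p', hp', rfl⟩ h1 h2
      simp only at h1 h2
      have hcomm := hz (MulAction.stabilizer G (u s • x)) (DiscStab.disc (u s • x))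
        _ (uconj_mem_stab hp.1 s) _ (uconj_mem_stab hp'.1 s) (by linarith) (by linarith)
      obtain ⟨c, hc⟩ := commute_prop hcomm (ynrm_conj_ne hp.2.1 s)
      have hpar : Par (u s * p * u (-s)) (u s * p' * u (-s)) c := hc
      have hpar' : Par p p' c := by
        have := hpar.conj (-s)
        rwa [neg_neg, unconj, unconj] at this
      have hc1 : 1 ≤ |c| := hp.2.2 p' hp'.1 hp'.2.1 c hpar'
      have hc0 : c ≠ 0 := by
        rintro rfl
        simp at hc1
        linarith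
      have hc2 : 1 ≤ |c⁻¹| := hp'.2.2 p hp.1 hp.2.1 _ (hpar'.symm hc0)
      have hc3 : |c| = 1 := by
        rw [abs_inv] at hc2
        have := (one_le_inv₀ (abs_pos.2 hc0)).1 hc2
        linarith
      funext r
      have := (hpar'.conj r).ynrm
      rw [hc3, one_mul] at this
      exact this.symm)
    (by
      refine lt_of_le_of_lt (ENNReal.ofReal_le_ofReal ?_) hcon
      have e : ρ / (ρz / 2) = 2 * (ρ / ρz) := by field_simp
      have hs2 : √(2 : ℝ) ≤ 3 / 2 := by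
        rw [Real.sqrt_le_left (by norm_num)]
        norm_num
      rw [e, Real.sqrt_mul (by norm_num)]
      have h5 : √(2 : ℝ) * √(ρ / ρz) ≤ 3 / 2 * √(ρ / ρz) := mul_le_mul_of_nonneg_right hs2 hr0
      nlinarith)
  obtain ⟨P, ⟨p, hp, rfl⟩, hP, _⟩ := hcov
  obtain ⟨s, hs, hs'⟩ := hbig p hp.1 hp.2.1
  have := hP s hs
  simp only at this
  linarith

set_option linter.unusedVariables false in
theorem typeC_scale (θ C : ℝ) (hθ : 0 < θ) (hθ1 : θ ≤ 1) : ∃ C' : ℝ, ∀ (X : Type)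
    [MulAction G X] (x : X) (N : ℝ), 0 < N → TypeC C x (θ * N) → TypeC C' x N := by
  refine ⟨C + 8 * C / θ + 8 * C / θ ^ 2, ?_⟩
  rintro X _ x N hN ⟨η, hη, h0, hb⟩
  refine ⟨η, hη, h0, ?_⟩
  have hθN : 0 < θ * N := by positivity
  have hC0 : 0 ≤ C := (ynrm_nonneg _).trans (hb 0 ⟨le_rfl, hθN.le⟩)
  have hb' : ∀ s ∈ Icc 0 (θ * N), _ := fun s hs => (P_eq η s) ▸ (hb s hs)
  obtain ⟨p1, p2, p3⟩ := quad_coef (η 0 0 - η 1 1) (2 * η 1 0) 0 (θ * N) C hθN
    (fun s hs => (le_max_left _ _).trans (hb' s hs))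
  obtain ⟨q1, q2, q3⟩ := quad_coef (η 0 1) (η 1 1 - η 0 0) (- η 1 0) (θ * N) C hθN
    (fun s hs => (le_max_left _ _).trans ((le_max_right _ _).trans (hb' s hs)))
  obtain ⟨r1, r2, r3⟩ := quad_coef (η 1 0) 0 0 (θ * N) C hθN
    (fun s hs => (le_max_right _ _).trans ((le_max_right _ _).trans (hb' s hs)))
  have b1 : ∀ β s : ℝ, |β| ≤ 8 * C / (θ * N) → s ∈ Icc 0 N → |β * s| ≤ 8 * C / θ := by
    intro β s hβ hs
    rw [abs_mul, abs_of_nonneg hs.1]
    calc |β| * s ≤ (8 * C / (θ * N)) * N := mul_le_mul hβ hs.2 hs.1 (by positivity)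
      _ = 8 * C / θ := by field_simp
  have b2 : ∀ γ s : ℝ, |γ| ≤ 8 * C / (θ * N) ^ 2 → s ∈ Icc 0 N → |γ * s ^ 2| ≤ 8 * C / θ ^ 2 := by
    intro γ s hγ hs
    rw [abs_mul, abs_of_nonneg (sq_nonneg s)]
    calc |γ| * s ^ 2 ≤ (8 * C / (θ * N) ^ 2) * N ^ 2 :=
          mul_le_mul hγ (pow_le_pow_left₀ hs.1 hs.2 2) (sq_nonneg s) (by positivity)
      _ = 8 * C / θ ^ 2 := by field_simp
  have hc1 : 0 ≤ 8 * C / θ := by positivity
  have hc2 : 0 ≤ 8 * C / θ ^ 2 := by positivity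
  intro s hs
  rw [P_eq]
  refine max_le ?_ (max_le ?_ ?_)
  · have e1 := b1 _ s p2 hs
    have e0 : η 0 0 - η 1 1 + 2 * η 1 0 * s + 0 * s ^ 2 = η 0 0 - η 1 1 + 2 * η 1 0 * s := by
      ring
    have e3 := abs_add_le (η 0 0 - η 1 1) (2 * η 1 0 * s)
    rw [e0]
    linarith
  · have e1 := b1 _ s q2 hs
    have e1' := b2 _ s q3 hs
    have e2 := abs_add_le (η 0 1 + (η 1 1 - η 0 0) * s) (- η 1 0 * s ^ 2)
    have e3 := abs_add_le (η 0 1) ((η 1 1 - η 0 0) * s)
    linarith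
  · rw [zero_mul, zero_mul, add_zero, add_zero]
    linarith

theorem typeC_a (t C : ℝ) : ∃ C' : ℝ, ∀ (X : Type) [MulAction G X] (x : X) (N : ℝ), 0 < N →
    TypeC C (a t • x) (Real.exp (2 * t) * N) → TypeC C' x N := by
  refine ⟨(1 + Real.exp (2 * t) + Real.exp (-(2 * t))) * C, ?_⟩
  rintro X _ x N hN ⟨η, hη, h0, hb⟩
  have hC0 : 0 ≤ C := (ynrm_nonneg _).trans (hb 0 ⟨le_rfl, by positivity⟩)
  have hE1 := Real.exp_pos (2 * t)
  have hE2 := Real.exp_pos (-(2 * t))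
  have hkey : ∀ w : G, ynrm (a (-t) * w * a t) ≤
      (1 + Real.exp (2 * t) + Real.exp (-(2 * t))) * ynrm w := by
    intro w
    obtain ⟨h1, h2, h3⟩ := ynrm_le_iff.1 (le_refl (ynrm w))
    have hy := ynrm_nonneg w
    have e00 := aconj00 (-t) w
    have e01 := aconj01 (-t) w
    have e10 := aconj10 (-t) w
    have e11 := aconj11 (-t) w
    rw [neg_neg] at e00 e01 e10 e11
    rw [ynrm_le_iff, e00, e01, e10, e11]
    refine ⟨?_, ?_, ?_⟩
    · nlinarith [mul_nonneg hE1.le hy, mul_nonneg hE2.le hy]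
    · rw [abs_mul, abs_of_pos (Real.exp_pos _), show 2 * -t = -(2 * t) by ring]
      have := mul_le_mul_of_nonneg_left h2 hE2.le
      nlinarith [mul_nonneg hE1.le hy]
    · rw [abs_mul, abs_of_pos (Real.exp_pos _), show -(2 * -t) = 2 * t by ring]
      have := mul_le_mul_of_nonneg_left h3 hE1.le
      nlinarith [mul_nonneg hE2.le hy]
  have hat : a (-t) * a t = 1 := by rw [← a_add]; simp
  have hat' : a t * a (-t) = 1 := by rw [← a_add]; simp
  refine ⟨a (-t) * η * a t, ?_, ?_, ?_⟩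
  · have := conj_mem_stab hη (a (-t))
    rwa [a_inv, neg_neg, smul_smul, hat, one_smul] at this
  · intro hz
    apply h0
    have e : η = a t * (a (-t) * η * a t) * a (-t) := by
      calc η = (a t * a (-t)) * η * (a t * a (-t)) := by rw [hat']; simp
        _ = a t * (a (-t) * η * a t) * a (-t) := by group
    obtain ⟨k1, k2, k3⟩ := ynrm_le_iff.1 hz.le
    have k1 := abs_nonpos_iff.1 k1
    have k2 := abs_nonpos_iff.1 k2
    have k3 := abs_nonpos_iff.1 k3
    have e' := e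
    set w := a (-t) * η * a t with hw
    refine le_antisymm ?_ (ynrm_nonneg _)
    rw [e', ynrm_le_iff, aconj00, aconj01, aconj10, aconj11, k1, k2, k3]
    simp
  · intro s hs
    have e : u s * (a (-t) * η * a t) * u (-s) =
        a (-t) * (u (Real.exp (2 * t) * s) * η * u (-(Real.exp (2 * t) * s))) * a t := by
      have h1 : u s * a (-t) = a (-t) * u (Real.exp (2 * t) * s) := by
        have := a_mul_u t s
        calc u s * a (-t) = a (-t) * (a t * u s) * a (-t) := by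
              rw [← mul_assoc (a (-t)), hat, one_mul]
          _ = a (-t) * (u (Real.exp (2 * t) * s) * a t) * a (-t) := by rw [this]
          _ = a (-t) * u (Real.exp (2 * t) * s) * (a t * a (-t)) := by group
          _ = a (-t) * u (Real.exp (2 * t) * s) := by rw [hat', mul_one]
      have h2 : a t * u (-s) = u (-(Real.exp (2 * t) * s)) * a t := by
        have := a_mul_u t (-s)
        rwa [mul_neg] at this
      calc u s * (a (-t) * η * a t) * u (-s) = (u s * a (-t)) * η * (a t * u (-s)) := by group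
        _ = _ := by rw [h1, h2]; group
    rw [e]
    refine (hkey _).trans ?_
    have h3 := hb (Real.exp (2 * t) * s) ⟨by have := hs.1; positivity,
      mul_le_mul_of_nonneg_left hs.2 hE1.le⟩
    exact mul_le_mul_of_nonneg_left h3 (by positivity)

end Pool.Agent.Work.MP_c9c104_nt
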