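import Pool.Agent.Work.MP_c9c104_nt.Basic

/-!
Zassenhaus lemma: small elements of a discrete subgroup of SL(2,R) commute.
-/

open MeasureTheory Filter Topology Set ProbabilityTheory
open scoped ENNReal NNReal

namespace Pool.Agent.Work.MP_c9c104_nt

variable {X : Type} [TopologicalSpace X] [MeasurableSpace X] [MulAction G X] [HomSp X]
variable {Z : Type} [TopologicalSpace Z] [MeasurableSpace Z] [MulAction G Z] [PhSp Z]

private lemma le_of_ynrm (g : G) :
    |g 0 0 - g 1 1| ≤ ynrm g ∧ |g 0 1| ≤ ynrm g ∧ |g 1 0| ≤ ynrm g := ynrm_le_iff.1 le_rfl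

private lemma entry_bd {g : G} (h : ynrm g ≤ 1 / 100) : |g 0 0| ≤ 11 / 10 ∧ |g 1 1| ≤ 11 / 10 := by
  obtain ⟨h1, h2, h3⟩ := ynrm_le_iff.1 h
  have hd := G_det g
  set A := g 0 0
  set B := g 0 1
  set C := g 1 0
  set D := g 1 1
  have hBC : |B * C| ≤ 1 / 10000 := by
    rw [abs_mul]
    nlinarith [abs_nonneg B, abs_nonneg C]
  have hBC' := abs_le.1 hBC
  constructor
  · by_contra hc
    push Not at hc
    have e : |A| * |A| = A * (A - D) + (1 + B * C) := by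
      rw [abs_mul_abs_self]; linarith
    have e2 : A * (A - D) ≤ |A| * (1 / 100) := by
      refine le_trans (le_abs_self _) ?_
      rw [abs_mul]
      exact mul_le_mul_of_nonneg_left h1 (abs_nonneg _)
    nlinarith
  · by_contra hc
    push Not at hc
    have e : |D| * |D| = D * (D - A) + (1 + B * C) := by
      rw [abs_mul_abs_self]; linarith
    have e2 : D * (D - A) ≤ |D| * (1 / 100) := by
      refine le_trans (le_abs_self _) ?_
      rw [abs_mul]
      rw [abs_sub_comm] at h1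
      exact mul_le_mul_of_nonneg_left h1 (abs_nonneg _)
    nlinarith

private lemma central_of_ynrm {g : G} (h : ynrm g = 0) :
    g 0 1 = 0 ∧ g 1 0 = 0 ∧ g 0 0 = g 1 1 := by
  obtain ⟨h1, h2, h3⟩ := ynrm_le_iff.1 h.le
  exact ⟨abs_nonpos_iff.1 h2, abs_nonpos_iff.1 h3, sub_eq_zero.1 (abs_nonpos_iff.1 h1)⟩

private lemma comm_of_ynrm {g : G} (h : ynrm g = 0) (k : G) : g * k = k * g := by
  obtain ⟨h1, h2, h3⟩ := central_of_ynrm h
  apply G_ext <;> simp [h1, h2, h3] <;> ring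

theorem commute_prop {η η' : G} (h : η * η' = η' * η) (h0 : ynrm η ≠ 0) :
    ∃ c : ℝ, η' 0 0 - η' 1 1 = c * (η 0 0 - η 1 1) ∧ η' 0 1 = c * η 0 1 ∧
      η' 1 0 = c * η 1 0 := by
  have e00 : (η * η') 0 0 = (η' * η) 0 0 := by rw [h]
  have e01 : (η * η') 0 1 = (η' * η) 0 1 := by rw [h]
  have e10 : (η * η') 1 0 = (η' * η) 1 0 := by rw [h]
  simp only [mul00, mul01, mul10] at e00 e01 e10
  by_cases hB : η 0 1 = 0
  · by_cases hC : η 1 0 = 0
    · have hA : η 0 0 - η 1 1 ≠ 0 := by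
        intro hA
        apply h0
        rw [ynrm, hB, hC, hA]
        simp
      refine ⟨(η' 0 0 - η' 1 1) / (η 0 0 - η 1 1), ?_, ?_, ?_⟩
      · field_simp
      · rw [hB, mul_zero]
        rw [hB] at e01
        have : η' 0 1 * (η 0 0 - η 1 1) = 0 := by linarith
        exact (mul_eq_zero.1 this).resolve_right hA
      · rw [hC, mul_zero]
        rw [hC] at e10
        have : η' 1 0 * (η 0 0 - η 1 1) = 0 := by linarith
        exact (mul_eq_zero.1 this).resolve_right hA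
    · refine ⟨η' 1 0 / η 1 0, ?_, ?_, ?_⟩
      · field_simp
        linarith
      · field_simp
        linarith
      · field_simp
  · refine ⟨η' 0 1 / η 0 1, ?_, ?_, ?_⟩
    · field_simp
      linarith
    · field_simp
    · field_simp
      linarith

private lemma comm_of_prop {η1 η η' : G} {c c' : ℝ}
    (h1 : η 0 0 - η 1 1 = c * (η1 0 0 - η1 1 1)) (h2 : η 0 1 = c * η1 0 1)
    (h3 : η 1 0 = c * η1 1 0)
    (h1' : η' 0 0 - η' 1 1 = c' * (η1 0 0 - η1 1 1)) (h2' : η' 0 1 = c' * η1 0 1)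
    (h3' : η' 1 0 = c' * η1 1 0) : η * η' = η' * η := by
  apply G_ext
  · simp only [mul00]; rw [h2, h3, h2', h3']; ring
  · simp only [mul01]; rw [h2, h2']
    linear_combination (c' * η1 0 1) * h1 - (c * η1 0 1) * h1'
  · simp only [mul10]; rw [h3, h3']
    linear_combination (c * η1 1 0) * h1' - (c' * η1 1 0) * h1
  · simp only [mul11]; rw [h2, h3, h2', h3']; ring

/-- the commutator of two small elements -/
private lemma nrm_commutator {g k : G} (hg : ynrm g ≤ 1 / 100) (hk : ynrm k ≤ 1 / 100) :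
    nrm (g * k * (g⁻¹ * k⁻¹)) ≤ 6 * ynrm g * ynrm k := by
  obtain ⟨a1, a2, a3⟩ := le_of_ynrm g
  obtain ⟨b1, b2, b3⟩ := le_of_ynrm k
  obtain ⟨c1, c2⟩ := entry_bd hg
  obtain ⟨d1, d2⟩ := entry_bd hk
  have y0 := ynrm_nonneg g
  have z0 := ynrm_nonneg k
  set y := ynrm g
  set z := ynrm k
  -- entries of `g⁻¹ * k⁻¹`
  set w := g⁻¹ * k⁻¹ with hw
  have w00 : |w 0 0| ≤ 13 / 10 := by
    simp only [hw, mul00, inv00, inv01, inv10]
    have e1 : |g 1 1 * k 1 1| ≤ 121 / 100 := by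
      rw [abs_mul]; nlinarith [abs_nonneg (g 1 1), abs_nonneg (k 1 1)]
    have e2 : |-g 0 1 * -k 1 0| ≤ 1 / 10000 := by
      rw [abs_mul, abs_neg, abs_neg]; nlinarith [abs_nonneg (g 0 1), abs_nonneg (k 1 0)]
    linarith [abs_add_le (g 1 1 * k 1 1) (-g 0 1 * -k 1 0)]
  have w01 : |w 0 1| ≤ 13 / 10 := by
    simp only [hw, mul01, inv00, inv01, inv11]
    have e1 : |g 1 1 * -k 0 1| ≤ 11 / 1000 := by
      rw [abs_mul, abs_neg]; nlinarith [abs_nonneg (g 1 1), abs_nonneg (k 0 1)]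
    have e2 : |-g 0 1 * k 0 0| ≤ 11 / 1000 := by
      rw [abs_mul, abs_neg]; nlinarith [abs_nonneg (g 0 1), abs_nonneg (k 0 0)]
    linarith [abs_add_le (g 1 1 * -k 0 1) (-g 0 1 * k 0 0)]
  have w10 : |w 1 0| ≤ 13 / 10 := by
    simp only [hw, mul10, inv00, inv10, inv11]
    have e1 : |-g 1 0 * k 1 1| ≤ 11 / 1000 := by
      rw [abs_mul, abs_neg]; nlinarith [abs_nonneg (g 1 0), abs_nonneg (k 1 1)]
    have e2 : |g 0 0 * -k 1 0| ≤ 11 / 1000 := by
      rw [abs_mul, abs_neg]; nlinarith [abs_nonneg (g 0 0), abs_nonneg (k 1 0)]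
    linarith [abs_add_le (-g 1 0 * k 1 1) (g 0 0 * -k 1 0)]
  have w11 : |w 1 1| ≤ 13 / 10 := by
    simp only [hw, mul11, inv01, inv10, inv11]
    have e1 : |-g 1 0 * -k 0 1| ≤ 1 / 10000 := by
      rw [abs_mul, abs_neg, abs_neg]; nlinarith [abs_nonneg (g 1 0), abs_nonneg (k 0 1)]
    have e2 : |g 0 0 * k 0 0| ≤ 121 / 100 := by
      rw [abs_mul]; nlinarith [abs_nonneg (g 0 0), abs_nonneg (k 0 0)]
    linarith [abs_add_le (-g 1 0 * -k 0 1) (g 0 0 * k 0 0)]
  -- the commutator of the matrices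
  have m1 : |g 0 1 * k 1 0 - k 0 1 * g 1 0| ≤ 2 * y * z := by
    have e1 : |g 0 1 * k 1 0| ≤ y * z := by
      rw [abs_mul]; exact mul_le_mul a2 b3 (abs_nonneg _) y0
    have e2 : |k 0 1 * g 1 0| ≤ z * y := by
      rw [abs_mul]; exact mul_le_mul b2 a3 (abs_nonneg _) z0
    linarith [abs_sub (g 0 1 * k 1 0) (k 0 1 * g 1 0)]
  have m2 : |k 0 1 * (g 0 0 - g 1 1) - g 0 1 * (k 0 0 - k 1 1)| ≤ 2 * y * z := by
    have e1 : |k 0 1 * (g 0 0 - g 1 1)| ≤ z * y := by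
      rw [abs_mul]; exact mul_le_mul b2 a1 (abs_nonneg _) z0
    have e2 : |g 0 1 * (k 0 0 - k 1 1)| ≤ y * z := by
      rw [abs_mul]; exact mul_le_mul a2 b1 (abs_nonneg _) y0
    linarith [abs_sub (k 0 1 * (g 0 0 - g 1 1)) (g 0 1 * (k 0 0 - k 1 1))]
  have m3 : |g 1 0 * (k 0 0 - k 1 1) - k 1 0 * (g 0 0 - g 1 1)| ≤ 2 * y * z := by
    have e1 : |g 1 0 * (k 0 0 - k 1 1)| ≤ y * z := by
      rw [abs_mul]; exact mul_le_mul a3 b1 (abs_nonneg _) y0
    have e2 : |k 1 0 * (g 0 0 - g 1 1)| ≤ z * y := by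
      rw [abs_mul]; exact mul_le_mul b3 a1 (abs_nonneg _) z0
    linarith [abs_sub (g 1 0 * (k 0 0 - k 1 1)) (k 1 0 * (g 0 0 - g 1 1))]
  -- `k * g * w = 1`
  have hkg : k * g * w = 1 := by rw [hw]; group
  have k00 : (k * g * w) 0 0 = 1 := by rw [hkg]; simp
  have k01 : (k * g * w) 0 1 = 0 := by rw [hkg]; simp
  have k10 : (k * g * w) 1 0 = 0 := by rw [hkg]; simp
  have k11 : (k * g * w) 1 1 = 1 := by rw [hkg]; simp
  simp only [mul00, mul01, mul10, mul11] at k00 k01 k10 k11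
  have yz : 0 ≤ y * z := mul_nonneg y0 z0
  have fin : ∀ p q r s : ℝ, |p| ≤ 2 * y * z → |q| ≤ 2 * y * z → |r| ≤ 13 / 10 → |s| ≤ 13 / 10 →
      |p * r + q * s| ≤ 6 * y * z := by
    intro p q r s hp hq hr hs
    have e1 : |p * r| ≤ 2 * y * z * (13 / 10) := by
      rw [abs_mul]; exact mul_le_mul hp hr (abs_nonneg _) (by linarith)
    have e2 : |q * s| ≤ 2 * y * z * (13 / 10) := by
      rw [abs_mul]; exact mul_le_mul hq hs (abs_nonneg _) (by linarith)
    have e3 := abs_add_le (p * r) (q * s)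
    nlinarith
  rw [nrm_le_iff]
  simp only [mul00, mul01, mul10, mul11]
  refine ⟨?_, ?_, ?_, ?_⟩
  · have := fin _ _ _ _ m1 m2 w00 w10
    convert this using 2
    linear_combination k00
  · have m1' : |-(g 0 1 * k 1 0 - k 0 1 * g 1 0)| ≤ 2 * y * z := by rw [abs_neg]; exact m1
    have := fin _ _ _ _ m3 m1' w01 w11
    convert this using 2
    linear_combination k11
  · have := fin _ _ _ _ m1 m2 w01 w11
    convert this using 2
    linear_combination k01
  · have m1' : |-(g 0 1 * k 1 0 - k 0 1 * g 1 0)| ≤ 2 * y * z := by rw [abs_neg]; exact m1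
    have := fin _ _ _ _ m3 m1' w00 w10
    convert this using 2
    linear_combination k10

private lemma ynrm_le_nrm (w : G) : ynrm w ≤ 2 * nrm w := by
  obtain ⟨h1, h2, h3, h4⟩ := nrm_le_iff.1 (le_refl (nrm w))
  have h0 := nrm_nonneg w
  rw [ynrm_le_iff]
  refine ⟨?_, by linarith, by linarith⟩
  have e : w 0 0 - w 1 1 = (w 0 0 - 1) - (w 1 1 - 1) := by ring
  rw [e]
  linarith [abs_sub (w 0 0 - 1) (w 1 1 - 1)]

/-- no very small non central elements -/
private lemma no_small {Λ : Subgroup G} {ε : ℝ} (h : ∀ g ∈ Λ, nrm g < ε → g = 1)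
    {g : G} (hg : g ∈ Λ) (hy : ynrm g ≤ 1 / 100) (hy' : 3 * ynrm g < ε) : ynrm g = 0 := by
  obtain ⟨a1, a2, a3⟩ := le_of_ynrm g
  obtain ⟨c1, c2⟩ := entry_bd hy
  have y0 := ynrm_nonneg g
  have hd := G_det g
  set y := ynrm g with hydef
  have hBC : |g 0 1 * g 1 0| ≤ y * (1 / 100) := by
    rw [abs_mul]
    exact mul_le_mul a2 (a3.trans hy) (abs_nonneg _) y0
  have hn : nrm (g * g) ≤ 3 * y := by
    rw [nrm_le_iff]
    simp only [mul00, mul01, mul10, mul11]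
    refine ⟨?_, ?_, ?_, ?_⟩
    · have e : g 0 0 * g 0 0 + g 0 1 * g 1 0 - 1 =
          g 0 0 * (g 0 0 - g 1 1) + 2 * (g 0 1 * g 1 0) := by linarith
      rw [e]
      have e1 : |g 0 0 * (g 0 0 - g 1 1)| ≤ 11 / 10 * y := by
        rw [abs_mul]; exact mul_le_mul c1 a1 (abs_nonneg _) (by norm_num)
      have e2 := abs_add_le (g 0 0 * (g 0 0 - g 1 1)) (2 * (g 0 1 * g 1 0))
      rw [abs_mul 2, abs_two] at e2
      linarith
    · have e : g 1 0 * g 0 1 + g 1 1 * g 1 1 - 1 =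
          g 1 1 * (g 1 1 - g 0 0) + 2 * (g 0 1 * g 1 0) := by linarith
      rw [e]
      have e1 : |g 1 1 * (g 1 1 - g 0 0)| ≤ 11 / 10 * y := by
        rw [abs_mul, abs_sub_comm]; exact mul_le_mul c2 a1 (abs_nonneg _) (by norm_num)
      have e2 := abs_add_le (g 1 1 * (g 1 1 - g 0 0)) (2 * (g 0 1 * g 1 0))
      rw [abs_mul 2, abs_two] at e2
      linarith
    · have e1 : |g 0 0 * g 0 1| ≤ 11 / 10 * y := by
        rw [abs_mul]; exact mul_le_mul c1 a2 (abs_nonneg _) (by norm_num)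
      have e2 : |g 0 1 * g 1 1| ≤ y * (11 / 10) := by
        rw [abs_mul]; exact mul_le_mul a2 c2 (abs_nonneg _) y0
      linarith [abs_add_le (g 0 0 * g 0 1) (g 0 1 * g 1 1)]
    · have e1 : |g 1 0 * g 0 0| ≤ y * (11 / 10) := by
        rw [abs_mul]; exact mul_le_mul a3 c1 (abs_nonneg _) y0
      have e2 : |g 1 1 * g 1 0| ≤ 11 / 10 * y := by
        rw [abs_mul]; exact mul_le_mul c2 a3 (abs_nonneg _) (by norm_num)
      linarith [abs_add_le (g 1 0 * g 0 0) (g 1 1 * g 1 0)]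
  have hg2 : g * g = 1 := h _ (Λ.mul_mem hg hg) (lt_of_le_of_lt hn hy')
  have e00 : (g * g) 0 0 = 1 := by rw [hg2]; simp
  have e01 : (g * g) 0 1 = 0 := by rw [hg2]; simp
  have e10 : (g * g) 1 0 = 0 := by rw [hg2]; simp
  simp only [mul00, mul01, mul10] at e00 e01 e10
  have hs : g 0 0 * (g 0 0 + g 1 1) = 2 := by linarith
  have hs0 : g 0 0 + g 1 1 ≠ 0 := by
    intro h0
    rw [h0] at hs
    norm_num at hs
  have hB : g 0 1 = 0 := by
    have : g 0 1 * (g 0 0 + g 1 1) = 0 := by linarith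
    exact (mul_eq_zero.1 this).resolve_right hs0
  have hC : g 1 0 = 0 := by
    have : g 1 0 * (g 0 0 + g 1 1) = 0 := by linarith
    exact (mul_eq_zero.1 this).resolve_right hs0
  have hA : g 0 0 - g 1 1 = 0 := by
    rw [hB] at e00 hd
    have : g 0 0 * (g 0 0 - g 1 1) = 0 := by linarith
    rcases mul_eq_zero.1 this with h0 | h0
    · rw [h0] at hs
      norm_num at hs
    · exact h0
  rw [hydef, ynrm, hA, hB, hC]
  simp

theorem zassenhaus : ∃ ρ0 > 0, ∀ Λ : Subgroup G, (∃ ε > 0, ∀ g ∈ Λ, nrm g < ε → g = 1) →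
    ∀ η ∈ Λ, ∀ η' ∈ Λ, ynrm η < ρ0 → ynrm η' < ρ0 → η * η' = η' * η := by
  refine ⟨1 / 100, by norm_num, ?_⟩
  rintro Λ ⟨ε, hε, hdisc⟩ η hη η' hη' hy hy'
  by_cases h0 : ynrm η = 0
  · exact comm_of_ynrm h0 η'
  -- near minimal element
  set S : Set ℝ := {r | ∃ g ∈ Λ, ynrm g = r ∧ r ≠ 0 ∧ r < 1 / 100} with hS
  have hne : S.Nonempty := ⟨ynrm η, η, hη, rfl, h0, hy⟩
  have hlb : ∀ r ∈ S, ε / 3 ≤ r := by
    rintro r ⟨g, hg, rfl, hr0, hr1⟩
    by_contra hc
    push Not at hc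
    exact hr0 (no_small hdisc hg hr1.le (by linarith))
  have hbdd : BddBelow S := ⟨ε / 3, fun r hr => hlb r hr⟩
  have hinf : ε / 3 ≤ sInf S := le_csInf hne hlb
  obtain ⟨r, ⟨η1, hη1, hr, hr0, hr1⟩, hr2⟩ := exists_lt_of_csInf_lt hne
    (show sInf S < 2 * sInf S by linarith)
  have hcomm : ∀ k ∈ Λ, ynrm k < 1 / 100 → η1 * k = k * η1 := by
    intro k hk hyk
    have hn := nrm_commutator (g := η1) (k := k) (by rw [hr]; exact hr1.le) hyk.le
    set w := η1 * k * (η1⁻¹ * k⁻¹) with hw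
    have hwΛ : w ∈ Λ := Λ.mul_mem (Λ.mul_mem hη1 hk) (Λ.mul_mem (Λ.inv_mem hη1) (Λ.inv_mem hk))
    have hyw := ynrm_le_nrm w
    have y0 := ynrm_nonneg k
    have z0 := ynrm_nonneg η1
    rw [hr] at hn z0
    have hn2 : nrm w ≤ 6 / 100 * r := by nlinarith
    have hyw0 : ynrm w = 0 := by
      by_contra hc
      have hmem : ynrm w ∈ S := ⟨w, hwΛ, rfl, hc, by linarith⟩
      have := csInf_le hbdd hmem
      linarith
    have hw1 : w = 1 := by
      obtain ⟨h1, h2, h3⟩ := central_of_ynrm hyw0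
      have hd := G_det w
      rw [h1, h3] at hd
      have h4 : |w 0 0 - 1| ≤ nrm w := (nrm_le_iff.1 (le_refl (nrm w))).1
      have h5 : |w 0 0 - 1| < 1 := by linarith
      have h6 : w 1 1 = 1 := by
        rw [h3] at h5
        have h7 := (abs_lt.1 h5).1
        nlinarith
      apply G_ext
      · rw [h3, h6]; simp
      · rw [h1]; simp
      · rw [h2]; simp
      · rw [h6]; simp
    have e : η1 * k = w * (k * η1) := by rw [hw]; group
    rw [e, hw1, one_mul]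
  have hη1y : ynrm η1 ≠ 0 := by rw [hr]; exact hr0
  obtain ⟨c, h1, h2, h3⟩ := commute_prop (hcomm η hη hy) hη1y
  obtain ⟨c', h1', h2', h3'⟩ := commute_prop (hcomm η' hη' hy') hη1y
  exact comm_of_prop h1 h2 h3 h1' h2' h3'

end Pool.Agent.Work.MP_c9c104_nt
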