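import Pool.Agent.Work.MP_c9c104_nt.Unfold
import Pool.Agent.Work.MP_c9c104_nt.Zass

/-!
The thick part is compact.
-/

open MeasureTheory Filter Topology Set ProbabilityTheory
open scoped ENNReal NNReal

namespace Pool.Agent.Work.MP_c9c104_nt

variable {X : Type} [TopologicalSpace X] [MeasurableSpace X] [MulAction G X] [HomSp X]
variable {Z : Type} [TopologicalSpace Z] [MeasurableSpace Z] [MulAction G Z] [PhSp Z]

variable (m : Measure X) [IsProbabilityMeasure m] [SMulInvariantMeasure G X m]

theorem ynrm_le_two_nrm (w : G) : ynrm w ≤ 2 * nrm w := by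
  obtain ⟨h1, h2, h3, h4⟩ := (nrm_le_iff (w := w)).1 le_rfl
  have h0 := nrm_nonneg w
  rw [ynrm_le_iff]
  refine ⟨?_, by linarith, by linarith⟩
  have h5 : w 0 0 - w 1 1 = (w 0 0 - 1) - (w 1 1 - 1) := by ring
  rw [h5]
  have := abs_sub (w 0 0 - 1) (w 1 1 - 1)
  linarith

theorem eq_one_of_ynrm {w : G} (h : ynrm w = 0) (h1 : nrm w < 1) : w = 1 := by
  obtain ⟨e1, e2, e3⟩ := ynrm_le_iff.1 h.le
  have e1 := abs_nonpos_iff.1 e1
  have e2 := abs_nonpos_iff.1 e2
  have e3 := abs_nonpos_iff.1 e3
  obtain ⟨f1, f2, f3, f4⟩ := nrm_lt_iff.1 h1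
  have hd := G_det w
  have e4 : w 1 1 = w 0 0 := by linarith
  rw [e4, e2] at hd
  rw [abs_lt] at f1
  have h5 : (w 0 0 - 1) * (w 0 0 + 1) = 0 := by linarith
  have h6 : w 0 0 = 1 := by
    rcases mul_eq_zero.1 h5 with h6 | h6
    · linarith
    · linarith
  apply G_ext
  · rw [h6, one00]
  · rw [e2, one01]
  · rw [e3, one10]
  · rw [e4, h6, one11]

theorem thick_closed (ρ : ℝ) : IsClosed (thick X ρ) := by
  refine isClosed_of_closure_subset ?_
  intro x hx η hη hlt
  have : (𝓝[thick X ρ] x).NeBot := mem_closure_iff_nhdsWithin_neBot.1 hx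
  have h1 : Tendsto (fun w : X => w) (𝓝[thick X ρ] x) (𝓝 x) := tendsto_id.mono_left nhdsWithin_le_nhds
  obtain ⟨g, hg, hgx⟩ := exists_small x h1
  have h2 : Tendsto (fun w : X => ynrm (g w * η * (g w)⁻¹)) (𝓝[thick X ρ] x) (𝓝 (ynrm η)) := by
    have h3 : Tendsto (fun w : X => g w * η * (g w)⁻¹) (𝓝[thick X ρ] x) (𝓝 (1 * η * 1⁻¹)) :=
      (hg.mul_const η).mul hg.inv
    have h4 := (continuous_ynrm.tendsto _).comp h3
    have h5 : (1 : G) * η * 1⁻¹ = η := by simp
    rw [h5] at h4
    exact h4
  have h5 : ∀ᶠ w in 𝓝[thick X ρ] x, ynrm (g w * η * (g w)⁻¹) = 0 := by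
    filter_upwards [self_mem_nhdsWithin, h2.eventually (gt_mem_nhds hlt)] with w hw hw2
    refine hw _ ?_ hw2
    rw [MulAction.mem_stabilizer_iff] at hη ⊢
    rw [mul_smul, mul_smul]
    have h6 : (g w)⁻¹ • w = x := by
      rw [inv_smul_eq_iff]; exact hgx w
    rw [h6, hη, ← hgx w]
  have h7 : Tendsto (fun w : X => ynrm (g w * η * (g w)⁻¹)) (𝓝[thick X ρ] x) (𝓝 0) :=
    tendsto_const_nhds.congr' (h5.mono fun w hw => hw.symm)
  exact tendsto_nhds_unique h2 h7

include m in
theorem thick_compact {ρ : ℝ} (hρ : 0 < ρ) : IsCompact (thick X ρ) := by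
  by_contra hnc
  obtain ⟨lam, hlam, _, hform⟩ := exists_haar m
  -- the neighbourhood
  have hcont : Continuous fun p : G × G => p.1⁻¹ * p.2 := by fun_prop
  have h1 : (fun p : G × G => p.1⁻¹ * p.2) ⁻¹' {g : G | nrm g < min 1 (ρ / 2)} ∈
      𝓝 ((1 : G), (1 : G)) := by
    apply hcont.continuousAt
    simpa using nrm_mem (min 1 (ρ / 2)) (by positivity)
  rw [nhds_prod_eq, Filter.mem_prod_iff] at h1
  obtain ⟨A, hA, B, hB, hAB⟩ := h1
  obtain ⟨r, hr, hrAB⟩ := exists_nrm (Filter.inter_mem hA hB)
  set V : Set G := {g : G | nrm g < r} with hV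
  have hVopen : IsOpen V := isOpen_lt continuous_nrm continuous_const
  have hVne : V.Nonempty := ⟨1, by simpa [hV] using hr⟩
  have hinj : ∀ x ∈ thick X ρ, InjOn (fun g : G => g • x) V := by
    intro x hx g hg g' hg' hgg
    have hgg' : g • x = g' • x := hgg
    have h2 := hAB (Set.mk_mem_prod (hrAB g hg).1 (hrAB g' hg').2)
    rw [mem_preimage] at h2
    have h3 : nrm (g⁻¹ * g') < min 1 (ρ / 2) := h2
    have h4 : g⁻¹ * g' ∈ MulAction.stabilizer G x := by
      rw [MulAction.mem_stabilizer_iff, mul_smul, ← hgg', inv_smul_smul]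
    have h5 : ynrm (g⁻¹ * g') < ρ := by
      have := ynrm_le_two_nrm (g⁻¹ * g')
      have h6 := h3.trans_le (min_le_right _ _)
      linarith
    have h7 := eq_one_of_ynrm (hx _ h4 h5) (h3.trans_le (min_le_left _ _))
    rwa [inv_mul_eq_one] at h7
  have hmeas : ∀ x : X, MeasurableSet ((fun g : G => g • x) '' V) := fun x =>
    (isOpenMap_smul_of_sigmaCompact (G := G) x V hVopen).measurableSet
  -- arbitrarily many disjoint translates
  have hmany : ∀ n : ℕ, ∃ s : Finset X, s.card = n ∧ (s : Set X) ⊆ thick X ρ ∧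
      (s : Set X).PairwiseDisjoint fun x => (fun g : G => g • x) '' V := by
    intro n
    induction n with
    | zero => exact ⟨∅, rfl, by simp, by simp⟩
    | succ n ih =>
      obtain ⟨s, hcard, hsub, hdisj⟩ := ih
      set K : Set X := ⋃ x ∈ s, (fun g : G => g • x) '' {g : G | ∀ i j, |g i j| ≤
        2 * ((r + 1) * (r + 1))} with hK
      have hKc : IsCompact K := s.isCompact_biUnion fun x _ =>
        (isCompact_bdd _).image (continuous_id.smul continuous_const)
      have hex : ∃ y ∈ thick X ρ, y ∉ K := by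
        by_contra hcon
        push Not at hcon
        exact hnc (hKc.of_isClosed_subset (thick_closed ρ) hcon)
      obtain ⟨y, hy, hyK⟩ := hex
      have hdy : ∀ x ∈ s, Disjoint ((fun g : G => g • y) '' V) ((fun g : G => g • x) '' V) := by
        intro x hx
        rw [Set.disjoint_left]
        rintro _ ⟨g, hg, rfl⟩ ⟨g', hg', hgg⟩
        have hgg' : g' • x = g • y := hgg
        apply hyK
        rw [hK]
        refine mem_biUnion hx ⟨g⁻¹ * g', ?_, ?_⟩
        · apply mul_entry_le
          · apply inv_entry_le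
            intro i j
            have h3 := entry_le_nrm g i j
            have h4 : nrm g < r := hg
            linarith
          · intro i j
            have h3 := entry_le_nrm g' i j
            have h4 : nrm g' < r := hg'
            linarith
        · change (g⁻¹ * g') • x = y
          rw [mul_smul, hgg', inv_smul_smul]
      have hys : y ∉ s := by
        intro hys
        have := hdy y hys
        rw [disjoint_self] at this
        obtain ⟨g, hg⟩ := hVne
        have h3 : g • y ∈ ((fun g : G => g • y) '' V) := ⟨g, hg, rfl⟩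
        rw [this] at h3
        exact h3
      classical
      refine ⟨insert y s, ?_, ?_, ?_⟩
      · rw [Finset.card_insert_of_notMem hys, hcard]
      · rw [Finset.coe_insert]
        exact insert_subset hy hsub
      · rw [Finset.coe_insert]
        exact hdisj.insert fun x hx _ => hdy x hx
  -- contradiction
  have hpos : 0 < lam V := hVopen.measure_pos lam hVne
  have hbound : ∀ n : ℕ, (n : ℝ≥0∞) * lam V ≤ 1 := by
    intro n
    obtain ⟨s, hcard, hsub, hdisj⟩ := hmany n
    have h2 := measure_biUnion_finset (μ := m) hdisj fun x _ => hmeas x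
    have h3 : ∑ x ∈ s, m ((fun g : G => g • x) '' V) = ∑ _x ∈ s, lam V :=
      Finset.sum_congr rfl fun x hx => hform x V hVopen.measurableSet (hinj x (hsub hx))
    rw [h3, Finset.sum_const, hcard, nsmul_eq_mul] at h2
    rw [← h2]
    exact prob_le_one
  obtain ⟨n, hn⟩ := ENNReal.exists_nat_mul_gt hpos.ne' (ENNReal.one_ne_top)
  exact absurd (hbound n) (not_le.2 hn)

end Pool.Agent.Work.MP_c9c104_nt
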