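import Pool.Agent.Work.MP_c9c104_nt.ExpArc
import Pool.Agent.Work.MP_c9c104_nt.Thick
import Pool.Agent.Work.MP_c9c104_nt.Nondiv

/-!
Equidistribution of horocycle segments which are not of type C.
-/

open MeasureTheory Filter Topology Set ProbabilityTheory
open scoped ENNReal NNReal

namespace Pool.Agent.Work.MP_c9c104_nt

variable {X : Type} [TopologicalSpace X] [MeasurableSpace X] [MulAction G X] [HomSp X]
variable {Z : Type} [TopologicalSpace Z] [MeasurableSpace Z] [MulAction G Z] [PhSp Z]

variable (m : Measure X) [IsProbabilityMeasure m] [SMulInvariantMeasure G X m]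

theorem swap_scale {g : ℝ → ℝ} (hg : Continuous g) {B : ℝ} (hB : ∀ s, |g s| ≤ B) {L N' : ℝ}
    (hL : 0 < L) :
    |(∫ s in (0 : ℝ)..(L * N'), g s) -
      L * ∫ s in (0 : ℝ)..N', ∫ r in (0 : ℝ)..1, g (L * s + L * r)| ≤ 2 * B * L := by
  have hc2 : Continuous (Function.uncurry fun s r : ℝ => g (L * s + L * r)) := by
    unfold Function.uncurry
    fun_prop
  have hB0 : 0 ≤ B := (abs_nonneg _).trans (hB 0)
  have hii : ∀ a b : ℝ, IntervalIntegrable g volume a b := fun a b => hg.intervalIntegrable a b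
  have e1 : ∫ s in (0 : ℝ)..N', ∫ r in (0 : ℝ)..1, g (L * s + L * r) =
      ∫ r in (0 : ℝ)..1, ∫ s in (0 : ℝ)..N', g (L * s + L * r) := by
    apply intervalIntegral_intervalIntegral_swap
    have h1 : IntegrableOn (Function.uncurry fun s r : ℝ => g (L * s + L * r))
        (uIcc 0 N' ×ˢ uIcc 0 1) :=
      hc2.continuousOn.integrableOn_compact (isCompact_uIcc.prod isCompact_uIcc)
    exact h1.mono_set (prod_mono uIoc_subset_uIcc uIoc_subset_uIcc)
  rw [e1, ← intervalIntegral.integral_const_mul]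
  have e2 : ∀ r : ℝ, L * ∫ s in (0 : ℝ)..N', g (L * s + L * r) =
      ∫ s in (L * r)..(L * N' + L * r), g s := by
    intro r
    have := intervalIntegral.smul_integral_comp_mul_add (a := 0) (b := N') g L (L * r)
    rw [smul_eq_mul] at this
    rw [this]
    simp
  simp_rw [e2]
  have hc3 : Continuous fun r : ℝ => ∫ s in (L * r)..(L * N' + L * r), g s := by
    have : (fun r : ℝ => ∫ s in (L * r)..(L * N' + L * r), g s) =
        fun r : ℝ => (∫ s in (0 : ℝ)..(L * N' + L * r), g s) - ∫ s in (0 : ℝ)..(L * r), g s := by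
      funext r
      rw [intervalIntegral.integral_interval_sub_left (hii _ _) (hii _ _)]
    rw [this]
    have h0 := intervalIntegral.continuous_primitive hii 0
    exact (h0.comp (by fun_prop)).sub (h0.comp (by fun_prop))
  have e3 : (∫ s in (0 : ℝ)..(L * N'), g s) =
      ∫ r in (0 : ℝ)..1, ∫ s in (0 : ℝ)..(L * N'), g s := by simp
  rw [e3, ← intervalIntegral.integral_sub (by simp) (hc3.intervalIntegrable _ _)]
  rw [← Real.norm_eq_abs]
  have hmain : ∀ r ∈ uIoc (0 : ℝ) 1, ‖(∫ s in (0 : ℝ)..(L * N'), g s) -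
      ∫ s in (L * r)..(L * N' + L * r), g s‖ ≤ 2 * B * L := by
    intro r hr
    rw [uIoc_of_le zero_le_one] at hr
    have h1 : (∫ s in (0 : ℝ)..(L * N'), g s) - ∫ s in (L * r)..(L * N' + L * r), g s =
        (∫ s in (0 : ℝ)..(L * r), g s) - ∫ s in (L * N')..(L * N' + L * r), g s := by
      have a1 := intervalIntegral.integral_add_adjacent_intervals (hii 0 (L * N'))
        (hii (L * N') (L * N' + L * r))
      have a2 := intervalIntegral.integral_add_adjacent_intervals (hii 0 (L * r))
        (hii (L * r) (L * N' + L * r))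
      linarith
    have h2 : ‖∫ s in (0 : ℝ)..(L * r), g s‖ ≤ B * |L * r - 0| :=
      intervalIntegral.norm_integral_le_of_norm_le_const (fun x _ => by
        rw [Real.norm_eq_abs]; exact hB x)
    have h3 : ‖∫ s in (L * N')..(L * N' + L * r), g s‖ ≤ B * |L * N' + L * r - L * N'| :=
      intervalIntegral.norm_integral_le_of_norm_le_const (fun x _ => by
        rw [Real.norm_eq_abs]; exact hB x)
    have h4 : |L * r| ≤ L := by
      rw [abs_of_nonneg (mul_nonneg hL.le hr.1.le)]
      nlinarith [hr.2]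
    rw [sub_zero] at h2
    rw [add_sub_cancel_left] at h3
    have h5 : B * |L * r| ≤ B * L := mul_le_mul_of_nonneg_left h4 hB0
    rw [h1]
    refine (norm_sub_le _ _).trans ?_
    linarith
  have := intervalIntegral.norm_integral_le_of_norm_le_const hmain
  simpa using this

theorem int_bad {H : ℝ → ℝ} (hH : Continuous H) {b : ℝ} (hb : ∀ s, |H s| ≤ b) {ε N' η : ℝ}
    (hN : 0 ≤ N') (hε : 0 ≤ ε) (hη : 0 ≤ η) {S : Set ℝ} (hS : MeasurableSet S)
    (hgood : ∀ s ∈ Icc 0 N', s ∉ S → |H s| ≤ ε)
    (hbad : volume {s ∈ Icc 0 N' | s ∈ S} ≤ ENNReal.ofReal η) :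
    |∫ s in (0 : ℝ)..N', H s| ≤ ε * N' + b * η := by
  have hb0 : 0 ≤ b := (abs_nonneg _).trans (hb 0)
  have h1 : |∫ s in (0 : ℝ)..N', H s| ≤ ∫ s in (0 : ℝ)..N', |H s| :=
    intervalIntegral.abs_integral_le_integral_abs hN
  refine h1.trans ?_
  rw [intervalIntegral.integral_of_le hN, ← integral_Icc_eq_integral_Ioc]
  have hfin : volume (Icc 0 N') < ⊤ := by simp
  have hi1 : IntegrableOn (fun s => |H s|) (Icc 0 N') volume :=
    (hH.abs.continuousOn.integrableOn_compact isCompact_Icc)
  have hi2 : IntegrableOn (fun s => ε + S.indicator (fun _ => b) s) (Icc 0 N') volume := by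
    refine Integrable.add (integrable_const _) ?_
    exact (integrable_const b).indicator hS
  have h2 : ∫ s in Icc 0 N', |H s| ≤ ∫ s in Icc 0 N', (ε + S.indicator (fun _ => b) s) := by
    refine setIntegral_mono_on hi1 hi2 measurableSet_Icc (fun s hs => ?_)
    by_cases hsS : s ∈ S
    · rw [indicator_of_mem hsS]
      have := hb s
      linarith
    · rw [indicator_of_notMem hsS]
      have := hgood s hs hsS
      linarith
  refine h2.trans ?_
  rw [integral_add (integrable_const _) ((integrable_const b).indicator hS),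
    integral_indicator hS, Measure.restrict_restrict hS]
  simp only [integral_const, smul_eq_mul, measureReal_restrict_apply_univ]
  have h3 : volume.real (Icc 0 N') = N' := by simp [hN]
  have h4 : volume.real (S ∩ Icc 0 N') ≤ η := by
    rw [measureReal_def]
    refine ENNReal.toReal_le_of_le_ofReal hη ?_
    refine le_of_eq_of_le (congrArg volume ?_) hbad
    ext s
    simp only [mem_inter_iff, Set.mem_ofPred_eq]
    tauto
  rw [h3]
  have h5 : volume.real (S ∩ Icc 0 N') * b ≤ η * b := mul_le_mul_of_nonneg_right h4 hb0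
  linarith

/-- one segment: given that most of the pushed segment is in the thick part -/
theorem seg_bound {f : X → ℝ} (hf : Continuous f) {B : ℝ} (hB : ∀ z, |f z| ≤ B) {ε I T0 : ℝ}
    (hε : 0 ≤ ε) (hI : |I| ≤ B) {K : Set X} (hK : IsClosed K)
    (harc : ∀ y ∈ K, |(∫ s in (0 : ℝ)..1, f (a T0 • u s • y)) - I| ≤ ε) (x : X) {N : ℝ}
    (hN : 0 < N)
    (hbad : volume {s ∈ Icc 0 (Real.exp (-(2 * T0)) * N) | u s • a (-T0) • x ∉ K} ≤
      ENNReal.ofReal (ε * (Real.exp (-(2 * T0)) * N))) :
    |avg f N x - I| ≤ ε + 2 * B * ε + 2 * B * Real.exp (2 * T0) / N := by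
  set L := Real.exp (2 * T0) with hL
  have hLpos : 0 < L := Real.exp_pos _
  set N' := Real.exp (-(2 * T0)) * N with hN'
  have hN'pos : 0 < N' := mul_pos (Real.exp_pos _) hN
  have hLN : L * N' = N := by
    rw [hL, hN', ← mul_assoc, ← Real.exp_add]
    simp
  have hcx : Continuous fun s : ℝ => u s • x := continuous_u.smul continuous_const
  have hg : Continuous fun s : ℝ => f (u s • x) := hf.comp hcx
  have h1 := swap_scale hg (fun s => hB _) (N' := N') hLpos
  rw [hLN] at h1
  have key : ∀ s r : ℝ, f (u (L * s + L * r) • x) = f (a T0 • u r • u s • a (-T0) • x) := by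
    intro s r
    have : u (L * s + L * r) = a T0 * (u r * (u s * a (-T0))) := by
      have e1 : a T0 * (u r * (u s * a (-T0))) = (a T0 * u (r + s)) * a (-T0) := by
        rw [u_add]
        simp only [mul_assoc]
      rw [e1, a_mul_u, mul_assoc, ← a_add]
      simp only [add_neg_cancel, a_zero, mul_one, hL]
      congr 1
      ring
    rw [this, mul_smul, mul_smul, mul_smul]
  simp_rw [key] at h1
  set H : ℝ → ℝ := fun s => (∫ r in (0 : ℝ)..1, f (a T0 • u r • u s • a (-T0) • x)) - I with hH
  have hjc : Continuous (Function.uncurry fun s r : ℝ => f (a T0 • u r • u s • a (-T0) • x)) := by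
    have : Continuous fun p : ℝ × ℝ => a T0 • u p.2 • u p.1 • a (-T0) • x := by
      refine (continuous_const_smul (a T0)).comp ?_
      refine (continuous_u.comp continuous_snd).smul ?_
      exact (continuous_u.comp continuous_fst).smul continuous_const
    exact hf.comp this
  have hc1 : Continuous fun s : ℝ => ∫ r in (0 : ℝ)..1, f (a T0 • u r • u s • a (-T0) • x) :=
    intervalIntegral.continuous_parametric_intervalIntegral_of_continuous' hjc 0 1
  have hHc : Continuous H := hc1.sub continuous_const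
  have hHb : ∀ s, |H s| ≤ 2 * B := by
    intro s
    have h2 : ‖∫ r in (0 : ℝ)..1, f (a T0 • u r • u s • a (-T0) • x)‖ ≤ B * |1 - 0| :=
      intervalIntegral.norm_integral_le_of_norm_le_const (fun r _ => by
        rw [Real.norm_eq_abs]; exact hB _)
    rw [Real.norm_eq_abs] at h2
    have h3 : |(1 : ℝ) - 0| = 1 := by norm_num
    rw [h3, mul_one] at h2
    have := abs_sub (∫ r in (0 : ℝ)..1, f (a T0 • u r • u s • a (-T0) • x)) I
    rw [hH]
    simp only
    linarith
  have hmS : MeasurableSet {s : ℝ | u s • a (-T0) • x ∉ K} := by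
    have : Continuous fun s : ℝ => u s • a (-T0) • x := continuous_u.smul continuous_const
    exact (hK.preimage this).measurableSet.compl
  have h2 := int_bad hHc hHb (N' := N') hN'pos.le hε (η := ε * N')
    (mul_nonneg hε hN'pos.le) hmS (fun s _ hs => by
      have hs' : u s • a (-T0) • x ∈ K := by
        by_contra hc
        exact hs hc
      exact harc _ hs') hbad
  have h3 : ∫ s in (0 : ℝ)..N', H s =
      (∫ s in (0 : ℝ)..N', ∫ r in (0 : ℝ)..1, f (a T0 • u r • u s • a (-T0) • x)) - N' * I := by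
    rw [hH, intervalIntegral.integral_sub (hc1.intervalIntegrable _ _) (by simp)]
    simp
  rw [h3] at h2
  set J := ∫ s in (0 : ℝ)..N', ∫ r in (0 : ℝ)..1, f (a T0 • u r • u s • a (-T0) • x) with hJ
  have h4 : |(∫ s in (0 : ℝ)..N, f (u s • x)) - N * I| ≤ 2 * B * L + (ε + 2 * B * ε) * N := by
    have e1 : (∫ s in (0 : ℝ)..N, f (u s • x)) - N * I =
        ((∫ s in (0 : ℝ)..N, f (u s • x)) - L * J) + L * (J - N' * I) := by
      rw [← hLN]
      ring
    rw [e1]
    refine (abs_add_le _ _).trans ?_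
    rw [abs_mul, abs_of_pos hLpos]
    have e2 : L * |J - N' * I| ≤ L * (ε * N' + 2 * B * (ε * N')) :=
      mul_le_mul_of_nonneg_left h2 hLpos.le
    have e3 : L * (ε * N' + 2 * B * (ε * N')) = (ε + 2 * B * ε) * N := by
      rw [← hLN]
      ring
    linarith
  have e5 : avg f N x - I = ((∫ s in (0 : ℝ)..N, f (u s • x)) - N * I) / N := by
    unfold avg
    field_simp
  rw [e5, abs_div, abs_of_pos hN, div_le_iff₀ hN]
  refine h4.trans (le_of_eq ?_)
  field_simp
  ring

theorem equi_cont {ι : Type} {l : Filter ι} {x : ι → X} {N : ι → ℝ} (hN : Tendsto N l atTop)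
    (hT : ∀ C : ℝ, ∀ᶠ i in l, ¬ TypeC C (x i) (N i)) {f : X → ℝ} (hf : Cc f) :
    Tendsto (fun i => avg f (N i) (x i)) l (𝓝 (∫ x, f x ∂m)) := by
  obtain ⟨B0, hB0⟩ := hf.2.exists_bound_of_continuous hf.1
  set B := |B0| + 1 with hBdef
  have hB : ∀ z, |f z| ≤ B := fun z => by
    have := hB0 z
    rw [Real.norm_eq_abs] at this
    rw [hBdef]
    linarith [le_abs_self B0]
  have hBpos : 0 < B := by positivity
  set I := ∫ x, f x ∂m with hIdef
  have hI : |I| ≤ B := by
    have := norm_integral_le_of_norm_le_const (μ := m) (f := f) (C := B)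
      (ae_of_all _ (fun z => by rw [Real.norm_eq_abs]; exact hB z))
    rwa [probReal_univ, mul_one, Real.norm_eq_abs] at this
  obtain ⟨ρ0, hρ0, C, hC, hnd⟩ := nondiv
  rw [Metric.tendsto_nhds]
  intro ε' hε'
  set ε := ε' / (4 * (1 + 2 * B)) with hεdef
  have hε : 0 < ε := by positivity
  -- choice of ρ
  set ρ := min (ρ0 / 2) (ρ0 * (ε / C) ^ 2) with hρdef
  have hρpos : 0 < ρ := by
    rw [hρdef]
    exact lt_min (by positivity) (by positivity)
  have hρlt : ρ < ρ0 := (min_le_left _ _).trans_lt (by linarith)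
  have hsq : C * √(ρ / ρ0) ≤ ε := by
    have h1 : ρ / ρ0 ≤ (ε / C) ^ 2 := by
      rw [div_le_iff₀ hρ0, mul_comm]
      exact min_le_right _ _
    have h2 : √(ρ / ρ0) ≤ ε / C := by
      rw [← Real.sqrt_sq (by positivity : (0 : ℝ) ≤ ε / C)]
      exact Real.sqrt_le_sqrt h1
    calc C * √(ρ / ρ0) ≤ C * (ε / C) := mul_le_mul_of_nonneg_left h2 hC.le
      _ = ε := by field_simp
  have hK : IsCompact (thick X ρ) := thick_compact m hρpos
  obtain ⟨T0, hT0, harc⟩ := exp_arc m hf hK hε
  obtain ⟨C', hC'⟩ := typeC_a (-T0) ρ0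
  have hlim : Tendsto (fun i => 2 * B * Real.exp (2 * T0) / N i) l (𝓝 0) :=
    hN.const_div_atTop _
  filter_upwards [hT C', hN.eventually_gt_atTop 0,
    hlim.eventually (gt_mem_nhds (show (0 : ℝ) < ε' / 4 by positivity))] with i hi1 hi2 hi3
  have hbad : volume {s ∈ Icc 0 (Real.exp (-(2 * T0)) * N i) | u s • a (-T0) • x i ∉ thick X ρ} ≤
      ENNReal.ofReal (ε * (Real.exp (-(2 * T0)) * N i)) := by
    have hpos : 0 < Real.exp (-(2 * T0)) * N i := mul_pos (Real.exp_pos _) hi2
    refine (hnd X (a (-T0) • x i) _ hpos ρ hρpos hρlt ?_).trans ?_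
    · intro η hη hη0
      by_contra hcon
      push Not at hcon
      refine hi1 (hC' X (x i) (N i) hi2 ?_)
      have e : Real.exp (2 * -T0) = Real.exp (-(2 * T0)) := by ring_nf
      rw [e]
      exact ⟨η, hη, hη0, fun s hs => (hcon s hs).le⟩
    · exact ENNReal.ofReal_le_ofReal (mul_le_mul_of_nonneg_right hsq hpos.le)
  have h := seg_bound hf.1 hB hε.le hI (thick_closed ρ) (harc T0 le_rfl) (x i) hi2 hbad
  rw [Real.dist_eq]
  have e6 : ε + 2 * B * ε = ε' / 4 := by
    rw [hεdef]
    field_simp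
  linarith

end Pool.Agent.Work.MP_c9c104_nt
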