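import Pool.Agent.Work.MP_c9c104_nt.Mautner

/-!
Mixing of the diagonal and of the unipotent flow.
-/

open MeasureTheory Filter Topology Set ProbabilityTheory
open scoped ENNReal NNReal InnerProductSpace

namespace Pool.Agent.Work.MP_c9c104_nt

variable {X : Type} [TopologicalSpace X] [MeasurableSpace X] [MulAction G X] [HomSp X]
variable {Z : Type} [TopologicalSpace Z] [MeasurableSpace Z] [MulAction G Z] [PhSp Z]

/-- the Weyl element -/
noncomputable def wey : G := ⟨!![0, 1; -1, 0], by simp [Matrix.det_fin_two]⟩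

@[simp] theorem wey00 : wey 0 0 = 0 := by simp [wey]
@[simp] theorem wey01 : wey 0 1 = 1 := by simp [wey]
@[simp] theorem wey10 : wey 1 0 = -1 := by simp [wey]
@[simp] theorem wey11 : wey 1 1 = 0 := by simp [wey]

theorem wey_conj (r : ℝ) : wey⁻¹ * u (-r) = v r * wey⁻¹ := by
  apply G_ext <;> simp

theorem u_eq (t : ℝ) (ht : 0 < t) :
    u t = v (1 / t) * (a (Real.log t) * (wey * v (1 / t))) := by
  have h1 : Real.exp (Real.log t) = t := Real.exp_log ht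
  have h2 : Real.exp (-Real.log t) = 1 / t := by
    rw [Real.exp_neg, h1, one_div]
  apply G_ext
  · simp [h1, ht.ne']
  · simp [h1]
  · simp [h1, h2, ht.ne']
  · simp [h1, ht.ne']

section L2

variable (σ : Measure Z) [IsProbabilityMeasure σ] [SMulInvariantMeasure G Z σ]

/-- Koopman operator -/
noncomputable def kp (g : G) : Lp ℝ 2 σ →ₗᵢ[ℝ] Lp ℝ 2 σ :=
  Lp.compMeasurePreservingₗᵢ ℝ (fun z : Z => g • z) (mp_smul σ g)

omit [IsProbabilityMeasure σ] in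
theorem kp_apply (g : G) (f : Lp ℝ 2 σ) :
    kp σ g f = Lp.compMeasurePreserving (fun z : Z => g • z) (mp_smul σ g) f := rfl

omit [IsProbabilityMeasure σ] in
theorem kp_coe (g : G) (f : Lp ℝ 2 σ) : kp σ g f =ᵐ[σ] fun z => f (g • z) :=
  Lp.coeFn_compMeasurePreserving f (mp_smul σ g)

omit [IsProbabilityMeasure σ] in
theorem kp_mul (g h : G) (f : Lp ℝ 2 σ) : kp σ (g * h) f = kp σ h (kp σ g f) := by
  apply Lp.ext
  have h1 := kp_coe σ (g * h) f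
  have h2 := kp_coe σ h (kp σ g f)
  have h3 : (fun z => (kp σ g f : Z → ℝ) (h • z)) =ᵐ[σ] fun z => f (g • h • z) :=
    (mp_smul σ h).quasiMeasurePreserving.ae_eq_comp (kp_coe σ g f)
  refine h1.trans ((h2.trans h3).trans ?_).symm
  refine Eventually.of_forall fun z => ?_
  show f (g • h • z) = f ((g * h) • z)
  rw [mul_smul]

omit [IsProbabilityMeasure σ] in
theorem kp_one (f : Lp ℝ 2 σ) : kp σ 1 f = f := by
  apply Lp.ext
  refine (kp_coe σ 1 f).trans (Eventually.of_forall fun z => ?_)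
  show f ((1 : G) • z) = f z
  rw [one_smul]

theorem kp_tendsto {α : Type*} {l : Filter α} {γ : α → G} {g : G} (h : Tendsto γ l (𝓝 g))
    (f : Lp ℝ 2 σ) : Tendsto (fun x => kp σ (γ x) f) l (𝓝 (kp σ g f)) := by
  have h1 : Tendsto (fun x => actC Z (γ x)) l (𝓝 (actC Z g)) :=
    (continuous_actC.tendsto g).comp h
  exact Filter.Tendsto.compMeasurePreservingLp (f := fun _ : α => f) (f₀ := f)
    tendsto_const_nhds h1 (fun x => mp_smul σ (γ x)) (mp_smul σ g) (by norm_num)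

omit [IsProbabilityMeasure σ] in
theorem kp_inner (g : G) (f h : Lp ℝ 2 σ) : ⟪kp σ g f, kp σ g h⟫_ℝ = ⟪f, h⟫_ℝ :=
  (kp σ g).inner_map_map f h

omit [IsProbabilityMeasure σ] in
theorem kp_adj (g : G) (f h : Lp ℝ 2 σ) : ⟪kp σ g f, h⟫_ℝ = ⟪f, kp σ g⁻¹ h⟫_ℝ := by
  rw [← kp_inner σ g⁻¹ (kp σ g f) h, ← kp_mul, mul_inv_cancel, kp_one]

/-- the constant function one -/
noncomputable def one2 : Lp ℝ 2 σ := (memLp_const (1 : ℝ)).toLp (fun _ : Z => (1 : ℝ))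

theorem kp_one2 (g : G) : kp σ g (one2 σ) = one2 σ := by
  apply Lp.ext
  have h1 : one2 σ =ᵐ[σ] fun _ => (1 : ℝ) := MemLp.coeFn_toLp _
  have h2 : (fun z => (one2 σ : Z → ℝ) (g • z)) =ᵐ[σ] fun _ => (1 : ℝ) :=
    (mp_smul σ g).quasiMeasurePreserving.ae_eq_comp h1
  exact ((kp_coe σ g _).trans h2).trans h1.symm

omit [TopologicalSpace Z] [MulAction G Z] [PhSp Z] [SMulInvariantMeasure G Z σ] in
theorem one2_inner : ⟪one2 σ, one2 σ⟫_ℝ = 1 := by
  rw [L2.inner_def]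
  have h1 : one2 σ =ᵐ[σ] fun _ => (1 : ℝ) := MemLp.coeFn_toLp _
  have h2 : (fun z => ⟪(one2 σ : Z → ℝ) z, (one2 σ : Z → ℝ) z⟫_ℝ) =ᵐ[σ] fun _ => (1 : ℝ) := by
    filter_upwards [h1] with z hz
    rw [hz]
    simp
  rw [integral_congr_ae h2]
  simp

/-- vectors invariant under `v` are constant -/
theorem const_of_v (z0 : Z) (h0 : ∀ᵐ z ∂σ, z ∈ MulAction.orbit G z0) (f : Lp ℝ 2 σ)
    (hf : ∀ r, kp σ (v r) f = f) : ∃ c : ℝ, f = c • one2 σ := by
  obtain ⟨F, hFm, hFe⟩ : ∃ F : Z → ℝ, Measurable F ∧ (f : Z → ℝ) =ᵐ[σ] F := by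
    have h1 := (Lp.memLp f).1.aemeasurable
    exact ⟨h1.mk _, h1.measurable_mk, h1.ae_eq_mk⟩
  have hFv : ∀ r, (fun z => F (v r • z)) =ᵐ[σ] F := by
    intro r
    have h1 : (fun z => f (v r • z)) =ᵐ[σ] fun z => F (v r • z) :=
      (mp_smul σ (v r)).quasiMeasurePreserving.ae_eq_comp hFe
    have h2 := kp_coe σ (v r) f
    rw [hf r] at h2
    exact (h1.symm.trans h2.symm).trans hFe
  let F' : Z → ℝ := fun z => F (wey⁻¹ • z)
  have hF'm : Measurable F' := hFm.comp (measurable_const_smul _)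
  have hF'u : ∀ s, (fun z => F' (u s • z)) =ᵐ[σ] F' := by
    intro s
    have h1 : (fun z => F (v (-s) • wey⁻¹ • z)) =ᵐ[σ] fun z => F (wey⁻¹ • z) :=
      (mp_smul σ wey⁻¹).quasiMeasurePreserving.ae_eq_comp (hFv (-s))
    refine EventuallyEq.trans (Eventually.of_forall fun z => ?_) h1
    show F (wey⁻¹ • u s • z) = F (v (-s) • wey⁻¹ • z)
    have h2 := wey_conj (-s)
    rw [neg_neg] at h2
    rw [smul_smul, h2, mul_smul]
  have hc : ∃ c : ℝ, F' =ᵐ[σ] fun _ => c := by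
    refine exists_eventuallyEq_const_of_forall_separating MeasurableSet fun U hU => ?_
    have h1 : ∀ s : ℝ, (fun z => u s • z) ⁻¹' (F' ⁻¹' U) =ᵐ[σ] F' ⁻¹' U := by
      intro s
      filter_upwards [hF'u s] with z hz
      have : (F' (u s • z) ∈ U) = (F' z ∈ U) := by rw [hz]
      exact this
    rcases mautner σ z0 h0 (hF'm hU) h1 with h2 | h2
    · right
      exact measure_eq_zero_iff_ae_notMem.mp h2
    · left
      exact h2
  obtain ⟨c, hc⟩ := hc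
  refine ⟨c, ?_⟩
  apply Lp.ext
  have h1 : (fun z => F' (wey • z)) =ᵐ[σ] fun _ => c :=
    (mp_smul σ wey).quasiMeasurePreserving.ae_eq_comp hc
  have h2 : F =ᵐ[σ] fun _ => c := by
    refine EventuallyEq.trans (Eventually.of_forall fun z => ?_) h1
    show F z = F (wey⁻¹ • wey • z)
    rw [inv_smul_smul]
  have h3 : (c • one2 σ : Lp ℝ 2 σ) =ᵐ[σ] fun _ => c := by
    have h4 : one2 σ =ᵐ[σ] fun _ => (1 : ℝ) := MemLp.coeFn_toLp _
    refine (Lp.coeFn_smul c (one2 σ)).trans ?_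
    filter_upwards [h4] with z hz
    simp [hz]
  exact (hFe.trans h2).trans h3.symm

theorem tendsto_exp_neg (r : ℝ) :
    Tendsto (fun t : ℝ => v (Real.exp (-(2 * t)) * r)) atTop (𝓝 1) := by
  have h1 : Tendsto (fun t : ℝ => Real.exp (-(2 * t)) * r) atTop (𝓝 0) := by
    have h2 : Tendsto (fun t : ℝ => -(2 * t)) atTop atBot :=
      tendsto_neg_atTop_atBot.comp (tendsto_id.const_mul_atTop (by norm_num))
    have h3 := (Real.tendsto_exp_atBot.comp h2).mul_const r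
    rwa [zero_mul] at h3
  have h4 := (continuous_v.tendsto 0).comp h1
  rwa [v_zero] at h4

/-- Howe-Moore for the diagonal flow -/
theorem hm_a (z0 : Z) (h0 : ∀ᵐ z ∂σ, z ∈ MulAction.orbit G z0) (f h : Lp ℝ 2 σ) :
    Tendsto (fun t : ℝ => ⟪kp σ (a t) f, h⟫_ℝ) atTop
      (𝓝 (⟪f, one2 σ⟫_ℝ * ⟪one2 σ, h⟫_ℝ)) := by
  rw [tendsto_iff_ultrafilter]
  intro U hU
  have hK := WeakDual.isCompact_closedBall (𝕜 := ℝ) (E := Lp ℝ 2 σ) 0 ‖f‖
  let N : ℝ → WeakDual ℝ (Lp ℝ 2 σ) := fun t =>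
    StrongDual.toWeakDual (InnerProductSpace.toDual ℝ (Lp ℝ 2 σ) (kp σ (a t) f))
  have hN : ∀ t, N t ∈ WeakDual.toStrongDual ⁻¹' Metric.closedBall (0 : StrongDual ℝ (Lp ℝ 2 σ))
      ‖f‖ := by
    intro t
    have : ‖InnerProductSpace.toDual ℝ (Lp ℝ 2 σ) (kp σ (a t) f)‖ = ‖f‖ := by
      rw [LinearIsometryEquiv.norm_map, LinearIsometry.norm_map]
    show InnerProductSpace.toDual ℝ (Lp ℝ 2 σ) (kp σ (a t) f) ∈ Metric.closedBall _ _
    rw [mem_closedBall_zero_iff, this]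
  obtain ⟨Λ, -, hΛ⟩ := hK.ultrafilter_le_nhds (U.map N)
    (le_principal_iff.mpr (Eventually.of_forall hN : ∀ᶠ t in (U : Filter ℝ), N t ∈ _))
  have hlim : ∀ k : Lp ℝ 2 σ, Tendsto (fun t : ℝ => ⟪kp σ (a t) f, k⟫_ℝ) U (𝓝 (Λ k)) := by
    intro k
    have h1 : Tendsto N U (𝓝 Λ) := hΛ
    exact ((WeakDual.eval_continuous k).tendsto Λ).comp h1
  let Λ' : StrongDual ℝ (Lp ℝ 2 σ) := WeakDual.toStrongDual Λ
  set φ := (InnerProductSpace.toDual ℝ (Lp ℝ 2 σ)).symm Λ' with hφ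
  have hφi : ∀ k, ⟪φ, k⟫_ℝ = Λ k := fun k => InnerProductSpace.toDual_symm_apply
  have hinv : ∀ r k, ⟪φ, kp σ (v r) k⟫_ℝ = ⟪φ, k⟫_ℝ := by
    intro r k
    rw [hφi, hφi]
    have h1 := hlim (kp σ (v r) k)
    have h2 : ∀ t : ℝ, ⟪kp σ (a t) f, kp σ (v r) k⟫_ℝ =
        ⟪kp σ (a t) (kp σ (v (Real.exp (-(2 * t)) * (-r))) f), k⟫_ℝ := by
      intro t
      rw [← kp_mul, ← a_mul_v, kp_mul, kp_adj σ (v (-r)), v_inv, neg_neg]
    simp only [h2] at h1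
    have h3 : Tendsto (fun t : ℝ => ⟪kp σ (a t) (kp σ (v (Real.exp (-(2 * t)) * (-r))) f), k⟫_ℝ -
        ⟪kp σ (a t) f, k⟫_ℝ) atTop (𝓝 0) := by
      have h4 : Tendsto (fun t : ℝ => ‖kp σ (v (Real.exp (-(2 * t)) * (-r))) f - f‖ * ‖k‖) atTop
          (𝓝 0) := by
        have h5 := kp_tendsto σ (tendsto_exp_neg (-r)) f
        rw [kp_one] at h5
        have h6 := (tendsto_iff_norm_sub_tendsto_zero.mp h5).mul_const ‖k‖
        rwa [zero_mul] at h6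
      refine squeeze_zero_norm (fun t => ?_) h4
      rw [← inner_sub_left, ← map_sub]
      refine le_trans (norm_inner_le_norm _ _) ?_
      rw [LinearIsometry.norm_map]
    have h7 := (h3.mono_left hU).add (hlim k)
    simp only [sub_add_cancel, zero_add] at h7
    exact tendsto_nhds_unique h1 h7
  have hfix : ∀ r, kp σ (v r) φ = φ := by
    intro r
    have h1 : ‖kp σ (v r) φ - φ‖ ^ 2 = 0 := by
      rw [norm_sub_sq_real, LinearIsometry.norm_map, real_inner_comm, hinv r φ,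
        real_inner_self_eq_norm_sq]
      ring
    have h2 : ‖kp σ (v r) φ - φ‖ = 0 := by
      rwa [sq_eq_zero_iff] at h1
    exact sub_eq_zero.mp (norm_eq_zero.mp h2)
  obtain ⟨c, hc⟩ := const_of_v σ z0 h0 φ hfix
  have hcv : c = ⟪f, one2 σ⟫_ℝ := by
    have h1 := hlim (one2 σ)
    have h2 : ∀ t : ℝ, ⟪kp σ (a t) f, one2 σ⟫_ℝ = ⟪f, one2 σ⟫_ℝ := by
      intro t
      conv_lhs => rw [← kp_one2 σ (a t)]
      exact kp_inner σ _ _ _
    simp only [h2] at h1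
    have h3 := tendsto_nhds_unique h1 tendsto_const_nhds
    rw [← h3, ← hφi, hc, inner_smul_left, one2_inner]
    simp
  have h1 := hlim h
  rw [← hφi, hc, inner_smul_left, hcv] at h1
  exact h1

/-- Howe-Moore for the unipotent flow -/
theorem hm_u (z0 : Z) (h0 : ∀ᵐ z ∂σ, z ∈ MulAction.orbit G z0) (f h : Lp ℝ 2 σ) :
    Tendsto (fun t : ℝ => ⟪kp σ (u t) f, h⟫_ℝ) atTop
      (𝓝 (⟪f, one2 σ⟫_ℝ * ⟪one2 σ, h⟫_ℝ)) := by
  have hv : Tendsto (fun t : ℝ => v (1 / t)) atTop (𝓝 1) := by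
    have h1 : Tendsto (fun t : ℝ => 1 / t) atTop (𝓝 0) := by
      simpa using tendsto_inv_atTop_zero (𝕜 := ℝ)
    have h4 := (continuous_v.tendsto 0).comp h1
    rwa [v_zero] at h4
  have hw : Tendsto (fun t : ℝ => (wey * v (1 / t))⁻¹) atTop (𝓝 wey⁻¹) := by
    have h1 := (hv.const_mul wey).inv
    rwa [mul_one] at h1
  have e1 : ∀ t : ℝ, 0 < t → ⟪kp σ (u t) f, h⟫_ℝ =
      ⟪kp σ (a (Real.log t)) (kp σ (v (1 / t)) f), kp σ (wey * v (1 / t))⁻¹ h⟫_ℝ := by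
    intro t ht
    rw [← kp_adj, ← kp_mul, ← kp_mul, ← u_eq t ht]
  have h1 := kp_tendsto σ hv f
  rw [kp_one] at h1
  have h2 := kp_tendsto σ hw h
  have h3 : Tendsto (fun t : ℝ => ⟪kp σ (a (Real.log t)) f, kp σ wey⁻¹ h⟫_ℝ) atTop
      (𝓝 (⟪f, one2 σ⟫_ℝ * ⟪one2 σ, kp σ wey⁻¹ h⟫_ℝ)) :=
    (hm_a σ z0 h0 f (kp σ wey⁻¹ h)).comp Real.tendsto_log_atTop
  have h4 : ⟪one2 σ, kp σ wey⁻¹ h⟫_ℝ = ⟪one2 σ, h⟫_ℝ := by
    rw [← kp_adj, kp_one2]
  rw [h4] at h3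
  have h5 : Tendsto (fun t : ℝ => ⟪kp σ (a (Real.log t)) (kp σ (v (1 / t)) f),
      kp σ (wey * v (1 / t))⁻¹ h⟫_ℝ - ⟪kp σ (a (Real.log t)) f, kp σ wey⁻¹ h⟫_ℝ) atTop
      (𝓝 0) := by
    have h6 : Tendsto (fun t : ℝ => ‖kp σ (v (1 / t)) f - f‖ * ‖h‖ +
        ‖f‖ * ‖kp σ (wey * v (1 / t))⁻¹ h - kp σ wey⁻¹ h‖) atTop (𝓝 0) := by
      have h7 := (tendsto_iff_norm_sub_tendsto_zero.mp h1).mul_const ‖h‖
      have h8 := (tendsto_iff_norm_sub_tendsto_zero.mp h2).const_mul ‖f‖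
      have h9 := h7.add h8
      simpa using h9
    refine squeeze_zero_norm (fun t => ?_) h6
    have e2 : ⟪kp σ (a (Real.log t)) (kp σ (v (1 / t)) f),
        kp σ (wey * v (1 / t))⁻¹ h⟫_ℝ - ⟪kp σ (a (Real.log t)) f, kp σ wey⁻¹ h⟫_ℝ =
        ⟪kp σ (a (Real.log t)) (kp σ (v (1 / t)) f - f), kp σ (wey * v (1 / t))⁻¹ h⟫_ℝ +
        ⟪kp σ (a (Real.log t)) f, kp σ (wey * v (1 / t))⁻¹ h - kp σ wey⁻¹ h⟫_ℝ := by
      rw [map_sub, inner_sub_left, inner_sub_right]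
      ring
    rw [e2]
    refine le_trans (norm_add_le _ _) (add_le_add ?_ ?_)
    · refine le_trans (norm_inner_le_norm _ _) ?_
      rw [LinearIsometry.norm_map, LinearIsometry.norm_map]
    · refine le_trans (norm_inner_le_norm _ _) ?_
      rw [LinearIsometry.norm_map]
  have h10 := h5.add h3
  simp only [sub_add_cancel, zero_add] at h10
  refine h10.congr' ?_
  filter_upwards [eventually_gt_atTop 0] with t ht
  exact (e1 t ht).symm

omit [TopologicalSpace Z] [MulAction G Z] [PhSp Z] [SMulInvariantMeasure G Z σ] in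
theorem memLp_bdd {φ : Z → ℝ} (hφ : Measurable φ) (bφ : ∃ B, ∀ z, |φ z| ≤ B) :
    MemLp φ 2 σ := by
  obtain ⟨B, hB⟩ := bφ
  exact MemLp.of_bound hφ.aestronglyMeasurable B (Eventually.of_forall hB)

omit [IsProbabilityMeasure σ] in
theorem inner_kp_eq {φ ψ : Z → ℝ} (hφ : MemLp φ 2 σ) (hψ : MemLp ψ 2 σ) (g : G) :
    ⟪kp σ g (hφ.toLp φ), hψ.toLp ψ⟫_ℝ = ∫ z, φ (g • z) * ψ z ∂σ := by
  rw [L2.inner_def]
  apply integral_congr_ae
  have h1 : kp σ g (hφ.toLp φ) =ᵐ[σ] fun z => φ (g • z) :=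
    (kp_coe σ g _).trans ((mp_smul σ g).quasiMeasurePreserving.ae_eq_comp hφ.coeFn_toLp)
  filter_upwards [h1, hψ.coeFn_toLp] with z hz1 hz2
  rw [hz1, hz2]
  simp [mul_comm]

theorem inner_one2 {φ : Z → ℝ} (hφ : MemLp φ 2 σ) :
    ⟪hφ.toLp φ, one2 σ⟫_ℝ = ∫ z, φ z ∂σ := by
  have h1 := inner_kp_eq σ hφ (memLp_const (1 : ℝ)) 1
  rw [kp_one] at h1
  simp only [one_smul, mul_one] at h1
  exact h1

end L2

theorem mix_a (σ : Measure Z) [IsProbabilityMeasure σ] [SMulInvariantMeasure G Z σ]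
    (z0 : Z) (h0 : ∀ᵐ z ∂σ, z ∈ MulAction.orbit G z0) {φ ψ : Z → ℝ} (hφ : Measurable φ)
    (hψ : Measurable ψ) (bφ : ∃ B, ∀ z, |φ z| ≤ B) (bψ : ∃ B, ∀ z, |ψ z| ≤ B) :
    Tendsto (fun t : ℝ => ∫ z, φ (a t • z) * ψ z ∂σ) atTop
      (𝓝 ((∫ z, φ z ∂σ) * ∫ z, ψ z ∂σ)) := by
  have hφ2 := memLp_bdd σ hφ bφ
  have hψ2 := memLp_bdd σ hψ bψ
  have h1 := hm_a σ z0 h0 (hφ2.toLp φ) (hψ2.toLp ψ)
  rw [real_inner_comm (hψ2.toLp ψ) (one2 σ), inner_one2, inner_one2] at h1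
  simpa only [inner_kp_eq] using h1

theorem mix_u (σ : Measure Z) [IsProbabilityMeasure σ] [SMulInvariantMeasure G Z σ]
    (z0 : Z) (h0 : ∀ᵐ z ∂σ, z ∈ MulAction.orbit G z0) {φ ψ : Z → ℝ} (hφ : Measurable φ)
    (hψ : Measurable ψ) (bφ : ∃ B, ∀ z, |φ z| ≤ B) (bψ : ∃ B, ∀ z, |ψ z| ≤ B) :
    Tendsto (fun t : ℝ => ∫ z, φ (u t • z) * ψ z ∂σ) atTop
      (𝓝 ((∫ z, φ z ∂σ) * ∫ z, ψ z ∂σ)) := by
  have hφ2 := memLp_bdd σ hφ bφ
  have hψ2 := memLp_bdd σ hψ bψ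
  have h1 := hm_u σ z0 h0 (hφ2.toLp φ) (hψ2.toLp ψ)
  rw [real_inner_comm (hψ2.toLp ψ) (one2 σ), inner_one2, inner_one2] at h1
  simpa only [inner_kp_eq] using h1

theorem zero_one_u (σ : Measure Z) [IsProbabilityMeasure σ] [SMulInvariantMeasure G Z σ]
    (z0 : Z) (h0 : ∀ᵐ z ∂σ, z ∈ MulAction.orbit G z0) {h : ℝ} (hh : 0 < h) {A : Set Z}
    (hA : MeasurableSet A) (hinv : (fun z : Z => u h • z) ⁻¹' A = A) :
    σ A = 0 ∨ σ A = 1 := by
  have hmem : ∀ z, u h • z ∈ A ↔ z ∈ A := by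
    intro z
    have : z ∈ (fun z : Z => u h • z) ⁻¹' A ↔ z ∈ A := by rw [hinv]
    exact this
  have hmemn : ∀ (n : ℕ) z, u (n * h) • z ∈ A ↔ z ∈ A := by
    intro n
    induction n with
    | zero =>
      intro z
      simp
    | succ n ih =>
      intro z
      have e : ((n + 1 : ℕ) : ℝ) * h = h + n * h := by
        push_cast
        ring
      rw [e, u_add, mul_smul, hmem, ih]
  let χ : Z → ℝ := A.indicator 1
  have hχm : Measurable χ := measurable_one.indicator hA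
  have hχb : ∃ B, ∀ z, |χ z| ≤ B := by
    refine ⟨1, fun z => ?_⟩
    by_cases hz : z ∈ A
    · simp [χ, hz]
    · simp [χ, hz]
  have hχi : ∫ z, χ z ∂σ = σ.real A := by
    simp [χ, integral_indicator_one hA]
  have h1 := mix_u σ z0 h0 hχm hχm hχb hχb
  rw [hχi] at h1
  have h2 : Tendsto (fun n : ℕ => (n : ℝ) * h) atTop atTop :=
    tendsto_natCast_atTop_atTop.atTop_mul_const hh
  have h3 := h1.comp h2
  have h4 : ∀ n : ℕ, ∫ z, χ (u ((n : ℝ) * h) • z) * χ z ∂σ = σ.real A := by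
    intro n
    rw [← hχi]
    congr 1
    funext z
    by_cases hz : z ∈ A
    · simp [χ, hz, hmemn n z]
    · simp [χ, hz]
  have h5 : Tendsto (fun _ : ℕ => σ.real A) atTop (𝓝 (σ.real A * σ.real A)) := by
    refine h3.congr fun n => ?_
    exact h4 n
  have h6 := tendsto_nhds_unique tendsto_const_nhds h5
  have h7 : σ.real A = 0 ∨ σ.real A = 1 := by
    have : σ.real A * (σ.real A - 1) = 0 := by linarith
    rcases mul_eq_zero.mp this with h8 | h8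
    · exact Or.inl h8
    · exact Or.inr (by linarith)
  rcases h7 with h8 | h8
  · left
    exact (measureReal_eq_zero_iff).mp h8
  · right
    simp only [Measure.real] at h8
    exact (ENNReal.toReal_eq_one_iff _).mp h8

theorem ergodic_u (σ : Measure Z) [IsProbabilityMeasure σ] [SMulInvariantMeasure G Z σ]
    (z0 : Z) (h0 : ∀ᵐ z ∂σ, z ∈ MulAction.orbit G z0) {h : ℝ} (hh : h ≠ 0) :
    Ergodic (fun z : Z => u h • z) σ := by
  refine ⟨mp_smul σ (u h), ⟨fun A hA hinv => ?_⟩⟩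
  have key : σ A = 0 ∨ σ A = 1 := by
    rcases lt_or_gt_of_ne hh with h1 | h1
    · refine zero_one_u σ z0 h0 (h := -h) (by linarith) hA ?_
      ext z
      have h2 : u (-h) • z ∈ (fun z : Z => u h • z) ⁻¹' A ↔ u (-h) • z ∈ A := by rw [hinv]
      simp only [mem_preimage, smul_smul, ← u_add] at h2
      simp only [add_neg_cancel, u_zero, one_smul] at h2
      exact h2.symm
    · exact zero_one_u σ z0 h0 h1 hA hinv
  rw [eventuallyConst_set']
  rcases key with h1 | h1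
  · left
    exact ae_eq_empty.mpr h1
  · right
    rw [ae_eq_univ]
    exact (prob_compl_eq_zero_iff hA).mpr h1

end Pool.Agent.Work.MP_c9c104_nt
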