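import Pool.Agent.Work.MP_c9c104_nt.Act

/-!
Auxiliary facts: integrals over decompositions, cut-off functions.
-/

open MeasureTheory Filter Topology Set ProbabilityTheory
open scoped ENNReal NNReal

namespace Pool.Agent.Work.MP_c9c104_nt

variable {X : Type} [TopologicalSpace X] [MeasurableSpace X] [MulAction G X] [HomSp X]
variable {Z : Type} [TopologicalSpace Z] [MeasurableSpace Z] [MulAction G Z] [PhSp Z]

/-- integrals over a decomposition -/
theorem bind_integral {α β : Type} [MeasurableSpace α] [MeasurableSpace β] (μ : Measure α)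
    [IsProbabilityMeasure μ] (κ : Kernel α β) [IsMarkovKernel κ] {φ : β → ℝ}
    (hφ : Measurable φ) (hb : ∃ B, ∀ z, |φ z| ≤ B) :
    ∫ z, φ z ∂(μ.bind κ) = ∫ w, ∫ z, φ z ∂(κ w) ∂μ := by
  obtain ⟨B, hB⟩ := hb
  have h1 := Measure.comp_eq_comp_const_apply (κ := κ) (μ := μ)
  rw [h1, Kernel.integral_comp]
  · simp
  · rw [← h1]
    exact Integrable.of_bound hφ.aestronglyMeasurable B (ae_of_all _ fun y => hB y)

theorem bind_bound {α β : Type} [MeasurableSpace α] [MeasurableSpace β] (μ : Measure α)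
    [IsProbabilityMeasure μ] (κ : Kernel α β) [IsMarkovKernel κ] {φ : β → ℝ}
    (hφ : Measurable φ) (hb : ∃ B, ∀ z, |φ z| ≤ B) {ε : ℝ}
    (h : ∀ᵐ w ∂μ, |∫ z, φ z ∂(κ w)| ≤ ε) : |∫ z, φ z ∂(μ.bind κ)| ≤ ε := by
  rw [bind_integral μ κ hφ hb]
  have := norm_integral_le_of_norm_le_const (μ := μ) (f := fun w => ∫ z, φ z ∂(κ w)) (C := ε)
    (by simpa [Real.norm_eq_abs] using h)
  simpa [Real.norm_eq_abs] using this

/-- lower approximation of open sets -/
theorem exists_cc_lower (ν : Measure Z) [IsProbabilityMeasure ν] {U : Set Z} (hU : IsOpen U)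
    {r : ℝ} (hr : r < ν.real U) :
    ∃ φ : Z → ℝ, Cc φ ∧ (∀ z, 0 ≤ φ z ∧ φ z ≤ 1) ∧ (∀ z ∉ U, φ z = 0) ∧ r < ∫ z, φ z ∂ν := by
  by_cases hr0 : r < 0
  · refine ⟨fun _ => 0, ⟨continuous_const, HasCompactSupport.zero⟩, fun z => ⟨le_rfl, zero_le_one⟩,
      fun z _ => rfl, by simpa using hr0⟩
  push Not at hr0
  have h1 : ENNReal.ofReal r < ν U := by
    rw [← ENNReal.ofReal_toReal (measure_ne_top ν U)]
    exact (ENNReal.ofReal_lt_ofReal_iff_of_nonneg hr0).2 hr
  obtain ⟨K, hKU, hK, hrK⟩ := hU.exists_lt_isCompact h1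
  obtain ⟨f, hf1, hf0, hfc, hf01⟩ := exists_continuous_one_zero_of_isCompact hK
    hU.isClosed_compl (disjoint_compl_right_iff_subset.2 hKU)
  refine ⟨f, ⟨f.continuous, hfc⟩, fun z => hf01 z, fun z hz => hf0 hz, ?_⟩
  have h2 : r < ν.real K := by
    rw [← ENNReal.ofReal_lt_ofReal_iff_of_nonneg hr0]
    rwa [Measure.real, ENNReal.ofReal_toReal (measure_ne_top ν K)]
  refine h2.trans_le ?_
  rw [← integral_indicator_one hK.measurableSet]
  refine integral_mono ((integrable_const (1 : ℝ)).indicator hK.measurableSet)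
    (Integrable.of_bound f.continuous.aestronglyMeasurable 1 (ae_of_all _ fun y => ?_)) ?_
  · rw [Real.norm_eq_abs, abs_of_nonneg (hf01 y).1]; exact (hf01 y).2
  · intro y
    by_cases hy : y ∈ K
    · simp only [indicator_of_mem hy, Pi.one_apply]; rw [hf1 hy]; rfl
    · simp only [indicator_of_notMem hy]; exact (hf01 y).1

/-- compactly supported functions close to `1` in mean -/
theorem exists_cc_one (ν : Measure Z) [IsProbabilityMeasure ν] {ε : ℝ} (hε : 0 < ε) :
    ∃ φ : Z → ℝ, Cc φ ∧ (∀ z, 0 ≤ φ z ∧ φ z ≤ 1) ∧ 1 - ε < ∫ z, φ z ∂ν := by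
  obtain ⟨φ, h1, h2, _, h4⟩ := exists_cc_lower ν (U := univ) isOpen_univ (r := 1 - ε) (by simp [hε])
  exact ⟨φ, h1, h2, h4⟩

/-- time spent in an open set -/
theorem time_lower {U : Set Z} {φ : Z → ℝ} (hφ : Cc φ) (h01 : ∀ z, 0 ≤ φ z ∧ φ z ≤ 1)
    (h0 : ∀ z ∉ U, φ z = 0) {M r : ℝ} (hM : 0 < M) (z : Z) (h : r ≤ avg φ M z) :
    ENNReal.ofReal (r * M) ≤ volume {s ∈ Icc 0 M | u s • z ∈ U} := by
  have hc : Continuous fun s : ℝ => φ (u s • z) :=
    hφ.1.comp (continuous_u.smul continuous_const)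
  have h1 : r * M ≤ ∫ s in (0 : ℝ)..M, φ (u s • z) := by
    unfold avg at h
    rw [one_div, ← div_eq_inv_mul, le_div_iff₀ hM] at h
    exact h
  rw [intervalIntegral.integral_of_le hM.le, ← integral_Icc_eq_integral_Ioc] at h1
  refine (ENNReal.ofReal_le_ofReal h1).trans ?_
  rw [ofReal_integral_eq_lintegral_ofReal
    (hc.integrableOn_Icc) (ae_of_all _ fun s => (h01 _).1)]
  set T := {s ∈ Icc (0 : ℝ) M | φ (u s • z) ≠ 0} with hT
  have hTm : MeasurableSet T :=
    measurableSet_Icc.inter ((isClosed_singleton.preimage hc).isOpen_compl.measurableSet)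
  calc ∫⁻ s in Icc 0 M, ENNReal.ofReal (φ (u s • z))
      ≤ ∫⁻ s in Icc 0 M, T.indicator 1 s := by
        refine setLIntegral_mono' measurableSet_Icc fun s hs => ?_
        by_cases h2 : φ (u s • z) = 0
        · simp [h2]
        · rw [indicator_of_mem (show s ∈ T from ⟨hs, h2⟩)]
          exact ENNReal.ofReal_le_one.2 (h01 _).2
    _ = volume (T ∩ Icc 0 M) := by
        rw [lintegral_indicator_one hTm, Measure.restrict_apply hTm]
    _ ≤ _ := by
        refine measure_mono ?_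
        rintro s ⟨⟨h3, h4⟩, _⟩
        exact ⟨h3, by_contra fun h5 => h4 (h0 _ h5)⟩

end Pool.Agent.Work.MP_c9c104_nt
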