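import Pool.Agent.Work.MP_c9c104_nt.EquiCont
import Pool.Agent.Work.MP_c9c104_nt.LimMeas
import Pool.Agent.Work.MP_c9c104_nt.Disc
import Pool.Agent.Work.MP_c9c104_nt.Emp
import Pool.Agent.Work.MP_c9c104_nt.Tools
import Pool.Agent.Work.MP_c9c104_nt.Mix

/-!
Discrete time equidistribution.
-/

open MeasureTheory Filter Topology Set ProbabilityTheory
open scoped ENNReal NNReal

namespace Pool.Agent.Work.MP_c9c104_nt

variable {X : Type} [TopologicalSpace X] [MeasurableSpace X] [MulAction G X] [HomSp X]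
variable {Z : Type} [TopologicalSpace Z] [MeasurableSpace Z] [MulAction G Z] [PhSp Z]

/-- a discrete average dominates a continuous one -/
theorem cut_compare {χ1 : Z → ℝ} (h1 : Cc χ1) (h01 : ∀ z, 0 ≤ χ1 z ∧ χ1 z ≤ 1) {h : ℝ}
    (hh : 0 < h) : ∃ χ : Z → ℝ, Cc χ ∧ (∀ z, 0 ≤ χ z ∧ χ z ≤ 1) ∧ ∀ (M : ℕ) (z : Z),
      avg χ1 (h * M) z ≤ (1 / (M : ℝ)) * ∑ n ∈ Finset.Icc 1 M, χ (u (h * n) • z) := by
  set K : Set Z := (fun p : ℝ × Z => u p.1 • p.2) '' (Icc 0 h ×ˢ tsupport χ1) with hKdef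
  have hK : IsCompact K :=
    (isCompact_Icc.prod h1.2).image
      ((continuous_u.comp continuous_fst).smul continuous_snd)
  obtain ⟨χ, hχ1, hχ2, -, hχ4⟩ :=
    exists_continuousMap_one_of_isCompact_subset_isOpen hK isOpen_univ (subset_univ _)
  refine ⟨fun z => χ z, ⟨χ.continuous, hasCompactSupport_def.mpr hχ2⟩, fun z => hχ4 z, ?_⟩
  intro M z
  have hle : ∀ s ∈ Icc (0 : ℝ) h, ∀ n : ℕ, χ1 (u (h * n) • u s • z) ≤
      χ (u (h * (n + 1 : ℕ)) • z) := by
    intro s hs n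
    by_cases hz : u (h * n) • u s • z ∈ tsupport χ1
    · have hmem : u (h * (n + 1 : ℕ)) • z ∈ K := by
        refine ⟨(h - s, u (h * n) • u s • z), ⟨⟨by linarith [hs.2], by linarith [hs.1]⟩, hz⟩, ?_⟩
        simp only
        rw [← mul_smul, ← mul_smul, ← u_add, ← u_add]
        congr 2
        push_cast
        ring
      have e : χ (u (h * (n + 1 : ℕ)) • z) = 1 := hχ1 hmem
      rw [e]
      exact (h01 _).2
    · rw [image_eq_zero_of_notMem_tsupport hz]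
      exact (hχ4 _).1
  rw [avg_eq h hh M h1.1 z]
  have hM0 : (0 : ℝ) ≤ 1 / (M : ℝ) := by positivity
  have hsum : ∑ n ∈ Finset.Icc 1 M, χ (u (h * n) • z) =
      ∑ n ∈ Finset.range M, χ (u (h * (n + 1 : ℕ)) • z) := by
    rw [Finset.range_eq_Ico, Finset.sum_Ico_add' (fun n : ℕ => χ (u (h * n) • z)) 0 M 1]
    rfl
  have hcont : Continuous fun s : ℝ =>
      (1 / (M : ℝ)) * ∑ n ∈ Finset.range M, χ1 (u (h * n) • u s • z) := by
    refine continuous_const.mul (continuous_finsetSum _ (fun n _ => ?_))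
    exact h1.1.comp ((continuous_const_smul _).comp (continuous_u.smul continuous_const))
  have hint : ∫ s in (0 : ℝ)..h, (1 / (M : ℝ)) *
      ∑ n ∈ Finset.range M, χ1 (u (h * n) • u s • z) ≤
      ∫ s in (0 : ℝ)..h, (1 / (M : ℝ)) *
      ∑ n ∈ Finset.range M, χ (u (h * (n + 1 : ℕ)) • z) := by
    refine intervalIntegral.integral_mono_on hh.le (hcont.intervalIntegrable _ _) (by simp) ?_
    intro s hs
    exact mul_le_mul_of_nonneg_left (Finset.sum_le_sum (fun n _ => hle s hs n)) hM0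
  rw [hsum]
  have hc : (1 / h) * ∫ s in (0 : ℝ)..h, (1 / (M : ℝ)) *
      ∑ n ∈ Finset.range M, χ (u (h * (n + 1 : ℕ)) • z) =
      (1 / (M : ℝ)) * ∑ n ∈ Finset.range M, χ (u (h * (n + 1 : ℕ)) • z) := by
    rw [intervalIntegral.integral_const, sub_zero, smul_eq_mul, ← mul_assoc, one_div_mul_cancel hh.ne',
      one_mul]
  rw [← hc]
  exact mul_le_mul_of_nonneg_left hint (by positivity)

variable (m : Measure X) [IsProbabilityMeasure m] [SMulInvariantMeasure G X m]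

theorem equi_disc {ι : Type} (𝒰 : Ultrafilter ι) {h : ℝ} (hh : 0 < h) {M : ι → ℕ}
    (hM : Tendsto M 𝒰 atTop) {x : ι → X}
    (hT : ∀ C : ℝ, ∀ᶠ i in (𝒰 : Filter ι), ¬ TypeC C (x i) (h * M i)) {f : X → ℝ}
    (hf : Cc f) :
    Tendsto (fun i => (1 / (M i : ℝ)) * ∑ n ∈ Finset.Icc 1 (M i), f (u (h * n) • x i)) 𝒰
      (𝓝 (∫ x, f x ∂m)) := by
  have hN : Tendsto (fun i => h * (M i : ℝ)) 𝒰 atTop :=
    (tendsto_natCast_atTop_atTop.comp hM).const_mul_atTop hh
  have hcont : ∀ g : X → ℝ, Cc g →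
      Tendsto (fun i => avg g (h * M i) (x i)) 𝒰 (𝓝 (∫ x, g x ∂m)) := fun g hg =>
    equi_cont m hN hT hg
  have tight : ∀ ε > 0, ∃ χ : X → ℝ, Cc χ ∧ (∀ z, 0 ≤ χ z ∧ χ z ≤ 1) ∧
      ∀ᶠ i in (𝒰 : Filter ι), 1 - ε ≤
        (1 / (M i : ℝ)) * ∑ n ∈ Finset.Icc 1 (M i), χ (u (h * n) • x i) := by
    intro ε hε
    obtain ⟨χ1, hχ1, h01, hint⟩ := exists_cc_one m hε
    obtain ⟨χ, hχ, hχ01, hcomp⟩ := cut_compare hχ1 h01 hh
    refine ⟨χ, hχ, hχ01, ?_⟩
    filter_upwards [(hcont χ1 hχ1).eventually (lt_mem_nhds hint)] with i hi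
    exact hi.le.trans (hcomp (M i) (x i))
  obtain ⟨νd, νc, hνd, hνc, hlim, hinv, hlimc, hrel, -, -⟩ := emp_limit 𝒰 hh hM x tight
  have hνcm : νc = m := meas_ext (fun g hg => tendsto_nhds_unique (hlimc g hg) (hcont g hg))
  obtain ⟨x0⟩ : Nonempty X := nonempty_of_isProbabilityMeasure m
  have herg : Ergodic (fun z : X => u h • z) m :=
    ergodic_u m x0 (ae_of_all _ (fun z => by
      obtain ⟨g, hg⟩ := MulAction.exists_smul_eq G x0 z
      exact ⟨g, hg⟩)) hh.ne'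
  have hdm : νd = νc := by
    refine disc_cont νd νc hh hinv hrel (Kernel.const X m) ?_ ?_ ?_
    · rw [hνcm]
      change m.bind (fun _ => m) = m
      rw [Measure.bind_const]
      simp
    · refine ae_of_all _ (fun ω s => ?_)
      rw [Kernel.const_apply]
      exact (mp_smul m (u s)).map_eq
    · refine ae_of_all _ (fun ω => ?_)
      rw [Kernel.const_apply]
      exact herg
  obtain ⟨B, -, hB⟩ := cc_bound hf
  have := hlim f hf.1 ⟨B, hB⟩
  rw [hdm, hνcm] at this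
  exact this

end Pool.Agent.Work.MP_c9c104_nt
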