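import Pool.Agent.Work.MP_c9c104_nt.Sep
import Pool.Agent.Work.MP_c9c104_nt.Birkhoff

/-!
Ergodic decomposition of the horocycle flow.
-/

open MeasureTheory Filter Topology Set ProbabilityTheory
open scoped ENNReal NNReal

set_option linter.unusedSectionVars false
set_option warn.classDefReducibility false

namespace Pool.Agent.Work.MP_c9c104_nt

variable {X : Type} [TopologicalSpace X] [MeasurableSpace X] [MulAction G X] [HomSp X]
variable {Z : Type} [TopologicalSpace Z] [MeasurableSpace Z] [MulAction G Z] [PhSp Z]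

private theorem ed_cont {f : Z → ℝ} (hf : Continuous f) :
    Continuous fun p : Z × ℝ => f (u p.2 • p.1) :=
  hf.comp ((continuous_u.comp continuous_snd).smul continuous_fst)

private theorem ed_bdd {f : Z → ℝ} (hf : Cc f) : ∃ B, 0 ≤ B ∧ ∀ z, |f z| ≤ B := by
  obtain ⟨B, hB⟩ := hf.2.exists_bound_of_continuous hf.1
  exact ⟨max B 0, le_max_right _ _, fun z => (hB z).trans (le_max_left _ _)⟩

private theorem ed_cont1 {f : Z → ℝ} (hf : Continuous f) (z : Z) :
    Continuous fun t : ℝ => f (u t • z) :=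
  (ed_cont hf).comp (Continuous.prodMk_right z)

private theorem ed_avg_cont {f : Z → ℝ} (hf : Continuous f) (T : ℝ) : Continuous (avg f T) := by
  unfold avg
  refine continuous_const.mul ?_
  exact intervalIntegral.continuous_parametric_intervalIntegral_of_continuous' (ed_cont hf) 0 T

private theorem ed_avg_le {f : Z → ℝ} {B : ℝ} (hB0 : 0 ≤ B) (hB : ∀ z, |f z| ≤ B) {T : ℝ}
    (hT : 0 ≤ T) (z : Z) : |avg f T z| ≤ B := by
  rcases hT.eq_or_lt with rfl | hT
  · simp [avg, hB0]
  · unfold avg
    have := intervalIntegral.norm_integral_le_of_norm_le_const (a := 0) (b := T)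
      (f := fun s => f (u s • z)) (C := B) (fun s _ => hB _)
    rw [Real.norm_eq_abs, sub_zero, abs_of_pos hT] at this
    rw [abs_mul, abs_of_pos (by positivity : 0 < 1 / T)]
    calc 1 / T * |∫ s in (0 : ℝ)..T, f (u s • z)| ≤ 1 / T * (B * T) := by gcongr
      _ = B := by field_simp

private theorem ed_avg_shift {f : Z → ℝ} (hf : Continuous f) {B : ℝ} (hB : ∀ z, |f z| ≤ B)
    {T : ℝ} (hT : 0 < T) (s : ℝ) (z : Z) :
    |avg f T (u s • z) - avg f T z| ≤ 2 * B * |s| / T := by
  have hc := ed_cont1 hf z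
  have h1 : avg f T (u s • z) = (1 / T) * ∫ t in s..(T + s), f (u t • z) := by
    unfold avg
    congr 1
    have := intervalIntegral.integral_comp_add_right (a := 0) (b := T)
      (fun t => f (u t • z)) s
    rw [zero_add] at this
    rw [← this]
    refine intervalIntegral.integral_congr fun t _ => ?_
    simp only [u_add, mul_smul]
  have hi : ∀ a b : ℝ, IntervalIntegrable (fun t => f (u t • z)) volume a b :=
    fun a b => hc.intervalIntegrable a b
  have h2 : (∫ t in s..(T + s), f (u t • z)) - ∫ t in (0 : ℝ)..T, f (u t • z) =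
      (∫ t in T..(T + s), f (u t • z)) - ∫ t in (0 : ℝ)..s, f (u t • z) := by
    rw [← intervalIntegral.integral_add_adjacent_intervals (hi 0 s) (hi s T)]
    rw [← intervalIntegral.integral_add_adjacent_intervals (hi s T) (hi T (T + s))]
    ring
  have b1 := intervalIntegral.norm_integral_le_of_norm_le_const (a := T) (b := T + s)
      (f := fun s => f (u s • z)) (C := B) (fun s _ => hB _)
  have b2 := intervalIntegral.norm_integral_le_of_norm_le_const (a := 0) (b := s)
      (f := fun s => f (u s • z)) (C := B) (fun s _ => hB _)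
  rw [Real.norm_eq_abs] at b1 b2
  rw [add_sub_cancel_left] at b1
  rw [sub_zero] at b2
  have h3 : avg f T (u s • z) - avg f T z = (1 / T) * ((∫ t in T..(T + s), f (u t • z)) -
      ∫ t in (0 : ℝ)..s, f (u t • z)) := by
    rw [h1, ← h2]; unfold avg; ring
  rw [h3, abs_mul, abs_of_pos (by positivity : 0 < 1 / T)]
  calc 1 / T * |(∫ t in T..(T + s), f (u t • z)) - ∫ t in (0 : ℝ)..s, f (u t • z)|
      ≤ 1 / T * (B * |s| + B * |s|) := by
        gcongr
        exact (abs_sub _ _).trans (add_le_add b1 b2)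
    _ = 2 * B * |s| / T := by ring

private theorem ed_tend {f : Z → ℝ} (hf : Cc f) (s : ℝ) (z : Z) (L : ℝ) :
    Tendsto (fun n : ℕ => avg f n (u s • z)) atTop (𝓝 L) ↔
      Tendsto (fun n : ℕ => avg f n z) atTop (𝓝 L) := by
  obtain ⟨B, hB0, hB⟩ := ed_bdd hf
  have h0 : Tendsto (fun n : ℕ => avg f n (u s • z) - avg f n z) atTop (𝓝 0) := by
    refine squeeze_zero_norm' ?_ (tendsto_const_div_atTop_nhds_zero_nat (2 * B * |s|))
    filter_upwards [eventually_gt_atTop 0] with n hn
    exact ed_avg_shift hf.1 hB (by exact_mod_cast hn) s z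
  constructor
  · intro h
    have := h.sub h0
    simpa using this
  · intro h
    have := h.add h0
    simpa using this

/-- the σ-algebra of invariant sets -/
private def edI (Z : Type) [MeasurableSpace Z] [MulAction G Z] : MeasurableSpace Z where
  MeasurableSet' A := MeasurableSet A ∧ ∀ s : ℝ, (fun z : Z => u s • z) ⁻¹' A = A
  measurableSet_empty := by simp
  measurableSet_compl A hA := ⟨hA.1.compl, fun s => by rw [preimage_compl, hA.2 s]⟩
  measurableSet_iUnion A hA := ⟨MeasurableSet.iUnion fun i => (hA i).1, fun s => by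
    rw [preimage_iUnion]; simp only [(hA _).2 s]⟩

private theorem edI_le : edI Z ≤ (inferInstance : MeasurableSpace Z) := fun _ h => h.1

private noncomputable def edLim (f : Z → ℝ) (z : Z) : ℝ := limUnder atTop fun n : ℕ => avg f n z

private theorem edLim_inv {f : Z → ℝ} (hf : Cc f) (s : ℝ) (z : Z) :
    edLim f (u s • z) = edLim f z := by
  unfold edLim limUnder lim
  congr 1
  funext L
  exact propext (ed_tend hf s z L)

private theorem edLim_meas0 {f : Z → ℝ} (hf : Cc f) : Measurable (edLim f) := by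
  refine StronglyMeasurable.measurable ?_
  refine StronglyMeasurable.limUnder (fun n => ?_)
  exact (ed_avg_cont hf.1 n).stronglyMeasurable

private theorem edLim_meas {f : Z → ℝ} (hf : Cc f) : Measurable[edI Z] (edLim f) := by
  intro A hA
  refine ⟨edLim_meas0 hf hA, fun s => ?_⟩
  ext z
  simp only [mem_preimage, edLim_inv hf]

private theorem edLim_tend {f : Z → ℝ} {z : Z} {L : ℝ}
    (h : Tendsto (fun n : ℕ => avg f n z) atTop (𝓝 L)) : edLim f z = L := h.limUnder_eq

private theorem edLim_le {f : Z → ℝ} {B : ℝ} (hB0 : 0 ≤ B) (hB : ∀ z, |f z| ≤ B) {z : Z}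
    (h : ∃ L, Tendsto (fun n : ℕ => avg f n z) atTop (𝓝 L)) : |edLim f z| ≤ B := by
  obtain ⟨L, hL⟩ := h
  rw [edLim_tend hL]
  exact le_of_tendsto hL.abs (Eventually.of_forall fun n => ed_avg_le hB0 hB (Nat.cast_nonneg n) z)

private theorem ed_conv (ν : Measure Z) [IsProbabilityMeasure ν]
    (hinv : ∀ s : ℝ, ν.map (fun z => u s • z) = ν) {f : Z → ℝ} (hf : Cc f) :
    ∀ᵐ z ∂ν, Tendsto (fun n : ℕ => avg f n z) atTop (𝓝 (edLim f z)) := by
  obtain ⟨B, hB0, hB⟩ := ed_bdd hf
  have hmp : MeasurePreserving (fun z : Z => u 1 • z) ν ν :=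
    ⟨(continuous_const_smul _).measurable, hinv 1⟩
  have := birkhoff ν _ hmp (avg f 1) (ed_avg_cont hf.1 1).measurable
    ⟨B, fun z => ed_avg_le hB0 hB zero_le_one z⟩
  filter_upwards [this] with z hz
  obtain ⟨L, hL⟩ := hz
  have h2 : (fun n : ℕ => birkhoffAverage ℝ (fun z : Z => u 1 • z) (avg f 1) n z) =
      fun n : ℕ => avg f n z := by
    funext n
    have hit : ∀ k : ℕ, (fun z : Z => u 1 • z)^[k] z = u k • z := by
      intro k
      induction k with
      | zero => simp
      | succ k ih =>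
        rw [Function.iterate_succ_apply', ih, Nat.cast_succ, add_comm, u_add, mul_smul]
    have hk : ∀ k : ℕ, avg f 1 (u k • z) = ∫ t in (k : ℝ)..((k + 1 : ℕ) : ℝ), f (u t • z) := by
      intro k
      unfold avg
      rw [div_one, one_mul]
      have := intervalIntegral.integral_comp_add_right (a := 0) (b := 1)
        (fun t => f (u t • z)) k
      rw [zero_add, add_comm (1 : ℝ)] at this
      rw [Nat.cast_succ, ← this]
      refine intervalIntegral.integral_congr fun t _ => ?_
      simp only [u_add, mul_smul]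
    unfold birkhoffAverage birkhoffSum avg
    simp only [hit]
    simp only [smul_eq_mul, one_div]
    congr 1
    have hs := intervalIntegral.sum_integral_adjacent_intervals (a := fun k : ℕ => (k : ℝ))
      (n := n) (f := fun t => f (u t • z)) (μ := volume)
      (fun k _ => (ed_cont1 hf.1 z).intervalIntegrable _ _)
    rw [Nat.cast_zero] at hs
    rw [← hs]
    refine Finset.sum_congr rfl fun k _ => ?_
    have := hk k
    unfold avg at this
    simpa using this
  rw [h2] at hL
  rw [edLim_tend hL]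
  exact hL

private theorem ed_set_avg (ν : Measure Z) [IsProbabilityMeasure ν]
    (hinv : ∀ s : ℝ, ν.map (fun z => u s • z) = ν) {f : Z → ℝ} (hf : Cc f) {A : Set Z}
    (hA : MeasurableSet[edI Z] A) {n : ℕ} (hn : 0 < n) :
    ∫ z in A, avg f n z ∂ν = ∫ z in A, f z ∂ν := by
  obtain ⟨B, hB0, hB⟩ := ed_bdd hf
  have hAm : MeasurableSet A := hA.1
  have h1 : ∀ s : ℝ, ∫ z in A, f (u s • z) ∂ν = ∫ z in A, f z ∂ν := by
    intro s
    have hme : MeasurableEmbedding (fun z : Z => u s • z) :=
      (Homeomorph.smul (u s)).measurableEmbedding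
    have := hme.setIntegral_map (μ := ν) f A
    rw [hinv s, hA.2 s] at this
    exact this.symm
  have h2 : ∫ z in A, (∫ s in (0 : ℝ)..n, f (u s • z)) ∂ν =
      ∫ s in (0 : ℝ)..n, (∫ z in A, f (u s • z) ∂ν) := by
    rw [intervalIntegral.integral_of_le (Nat.cast_nonneg n)]
    simp only [intervalIntegral.integral_of_le (Nat.cast_nonneg n : (0 : ℝ) ≤ n)]
    rw [integral_integral_swap]
    refine Integrable.of_bound (C := B) (ed_cont hf.1).aestronglyMeasurable ?_
    exact Eventually.of_forall fun p => hB _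
  unfold avg
  rw [integral_const_mul, h2]
  simp only [h1]
  rw [intervalIntegral.integral_const]
  have : (n : ℝ) ≠ 0 := by positivity
  simp
  field_simp

private theorem ed_condExp (ν : Measure Z) [IsProbabilityMeasure ν]
    (hinv : ∀ s : ℝ, ν.map (fun z => u s • z) = ν) {f : Z → ℝ} (hf : Cc f) :
    edLim f =ᵐ[ν] ν[f | edI Z] := by
  obtain ⟨B, hB0, hB⟩ := ed_bdd hf
  have hc := ed_conv ν hinv hf
  have hfi : Integrable f ν :=
    Integrable.of_bound (C := B) hf.1.aestronglyMeasurable (Eventually.of_forall fun p => hB _)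
  have hli : Integrable (edLim f) ν := by
    refine Integrable.of_bound (C := B) (edLim_meas0 hf).aestronglyMeasurable ?_
    filter_upwards [hc] with z hz
    exact edLim_le hB0 hB ⟨_, hz⟩
  refine ae_eq_condExp_of_forall_setIntegral_eq edI_le hfi (fun A _ _ => hli.integrableOn) ?_
    (edLim_meas hf).stronglyMeasurable.aestronglyMeasurable
  intro A hA _
  have ht : Tendsto (fun n : ℕ => ∫ z in A, avg f n z ∂ν) atTop (𝓝 (∫ z in A, edLim f z ∂ν)) := by
    refine tendsto_integral_of_dominated_convergence (fun _ => B)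
      (fun n => (ed_avg_cont hf.1 n).aestronglyMeasurable) (integrable_const B)
      (fun n => Eventually.of_forall fun z => ed_avg_le hB0 hB (Nat.cast_nonneg n) z) ?_
    exact ae_restrict_of_ae hc
  have ht2 : Tendsto (fun n : ℕ => ∫ z in A, avg f n z ∂ν) atTop (𝓝 (∫ z in A, f z ∂ν)) := by
    refine tendsto_const_nhds.congr' ?_
    filter_upwards [eventually_gt_atTop 0] with n hn
    exact (ed_set_avg ν hinv hf hA hn).symm
  exact tendsto_nhds_unique ht ht2

theorem erg_decomp (ν : Measure Z) [IsProbabilityMeasure ν]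
    (hinv : ∀ s : ℝ, ν.map (fun z => u s • z) = ν) :
    ∃ κ : Kernel Z Z, IsMarkovKernel κ ∧ ν.bind κ = ν ∧ ∀ᵐ ω ∂ν, IsGen (κ ω) := by
  let κ : Kernel Z Z := Kernel.comap (condExpKernel ν (edI Z)) id (measurable_id'' edI_le)
  have hκv : ∀ ω, κ ω = condExpKernel ν (edI Z) ω := fun ω => rfl
  have hκM : IsMarkovKernel κ := by
    constructor
    intro ω
    rw [hκv]
    infer_instance
  have hbind : ν.bind κ = ν := by
    ext A hA
    rw [Measure.bind_apply hA κ.aemeasurable]
    have h1 := condExpKernel_comp_trim (μ := ν) (edI_le (Z := Z))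
    have h2 : (condExpKernel ν (edI Z) ∘ₘ ν.trim edI_le) A = ν A := by rw [h1]
    rw [Measure.bind_apply hA (Kernel.aemeasurable _)] at h2
    rw [lintegral_trim edI_le] at h2
    · exact h2
    · exact measurable_condExpKernel hA
  obtain ⟨D, hDc, hD, hDd⟩ := exists_dense (Z := Z)
  refine ⟨κ, hκM, hbind, ?_⟩
  -- for f in D : value of the kernel
  have e1 : ∀ f ∈ D, ∀ᵐ ω ∂ν, ∫ z, f z ∂(κ ω) = edLim f ω := by
    intro f hf
    obtain ⟨B, hB0, hB⟩ := ed_bdd (hD f hf)
    have hfi : Integrable f ν := Integrable.of_bound (C := B)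
      (hD f hf).1.aestronglyMeasurable (Eventually.of_forall fun p => hB _)
    filter_upwards [ed_condExp ν hinv (hD f hf),
      condExp_ae_eq_integral_condExpKernel (edI_le (Z := Z)) hfi] with ω h1 h2
    rw [h1, h2, hκv]
  have e2 : ∀ f ∈ D, ∀ᵐ ω ∂ν, ∀ᵐ z ∂(κ ω), Tendsto (fun n : ℕ => avg f n z) atTop
      (𝓝 (edLim f z)) := by
    intro f hf
    have := ed_conv ν hinv (hD f hf)
    rw [← hbind] at this
    exact Measure.ae_ae_of_ae_comp this
  have e3 : ∀ f ∈ D, ∀ q : ℚ, ∀ᵐ ω ∂ν, ∀ᵐ z ∂(κ ω), ((q : ℝ) < edLim f z ↔ (q : ℝ) < edLim f ω) := by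
    intro f hf q
    have hS : MeasurableSet[edI Z] {z | (q : ℝ) < edLim f z} :=
      edLim_meas (hD f hf) measurableSet_Ioi
    have h1 := condExpKernel_ae_eq_condExp (μ := ν) (edI_le (Z := Z)) (s := {z | (q : ℝ) < edLim f z})
      (edI_le _ hS)
    have h2 : ν⟦{z | (q : ℝ) < edLim f z} | edI Z⟧ = ({z | (q : ℝ) < edLim f z}).indicator
        fun _ => (1 : ℝ) := by
      refine condExp_of_stronglyMeasurable edI_le (stronglyMeasurable_const.indicator hS) ?_
      exact (integrable_const _).indicator (edI_le _ hS)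
    rw [h2] at h1
    filter_upwards [h1] with ω hω
    rw [← hκv] at hω
    by_cases hq : (q : ℝ) < edLim f ω
    · rw [indicator_of_mem (by exact hq)] at hω
      have : {z | (q : ℝ) < edLim f z} ∈ ae (κ ω) := by
        rw [mem_ae_iff_prob_eq_one (edI_le _ hS)]
        have h3 : ((κ ω) {z | (q : ℝ) < edLim f z}).toReal = 1 := hω
        rwa [ENNReal.toReal_eq_one_iff] at h3
      filter_upwards [this] with z hz
      exact ⟨fun _ => hq, fun _ => hz⟩
    · rw [indicator_of_notMem (by exact hq)] at hω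
      have : ∀ᵐ z ∂(κ ω), z ∉ {z | (q : ℝ) < edLim f z} := by
        have h3 : ((κ ω) {z | (q : ℝ) < edLim f z}).toReal = 0 := hω
        rw [ENNReal.toReal_eq_zero_iff] at h3
        rcases h3 with h3 | h3
        · exact measure_eq_zero_iff_ae_notMem.1 h3
        · exact absurd h3 (measure_ne_top _ _)
      filter_upwards [this] with z hz
      exact ⟨fun h => (hz h).elim, fun h => (hq h).elim⟩
  have a1 := (ae_ball_iff hDc).2 e1
  have a2 := (ae_ball_iff hDc).2 e2
  have a3 : ∀ᵐ ω ∂ν, ∀ f ∈ D, ∀ q : ℚ, ∀ᵐ z ∂(κ ω),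
      ((q : ℝ) < edLim f z ↔ (q : ℝ) < edLim f ω) :=
    (ae_ball_iff hDc).2 fun f hf => ae_all_iff.2 fun q => e3 f hf q
  filter_upwards [a1, a2, a3] with ω h1 h2 h3
  refine ⟨inferInstance, ae_genPt (κ ω) ?_⟩
  have key : ∀ᵐ z ∂(κ ω), ∀ f ∈ D, Tendsto (fun n : ℕ => avg f n z) atTop
      (𝓝 (∫ z, f z ∂(κ ω))) := by
    refine (ae_ball_iff hDc).2 fun f hf => ?_
    filter_upwards [h2 f hf, ae_all_iff.2 (h3 f hf)] with z hz hz2
    have : edLim f z = edLim f ω := by
      refine le_antisymm ?_ ?_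
      · refine le_of_forall_rat_lt_imp_le fun q hq => ((hz2 q).1 hq).le
      · refine le_of_forall_rat_lt_imp_le fun q hq => ((hz2 q).2 hq).le
    rw [h1 f hf, ← this]
    exact hz
  intro f hf
  filter_upwards [key] with z hz
  rw [Metric.tendsto_atTop]
  intro ε hε
  obtain ⟨g, hg, hgf⟩ := hDd f hf (ε / 4) (by positivity)
  obtain ⟨N, hN⟩ := Metric.tendsto_atTop.1 (hz g hg) (ε / 4) (by positivity)
  refine ⟨N, fun n hn => ?_⟩
  have b0 := hN n hn
  rw [Real.dist_eq] at b0 ⊢
  have b1 : |avg f n z - avg g n z| ≤ ε / 4 := by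
    have : avg f n z - avg g n z = avg (fun y => f y - g y) n z := by
      unfold avg
      rw [intervalIntegral.integral_sub ((ed_cont1 hf.1 z).intervalIntegrable _ _)
        ((ed_cont1 (hD g hg).1 z).intervalIntegrable _ _)]
      ring
    rw [this]
    exact ed_avg_le (by positivity) hgf (Nat.cast_nonneg n) z
  have b2 : |∫ z, g z ∂(κ ω) - ∫ z, f z ∂(κ ω)| ≤ ε / 4 := by
    have hint : ∀ f : Z → ℝ, Cc f → Integrable f (κ ω) := by
      intro f hf
      obtain ⟨B, hB0, hB⟩ := ed_bdd hf
      exact Integrable.of_bound (C := B) hf.1.aestronglyMeasurable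
        (Eventually.of_forall fun p => hB _)
    rw [← integral_sub (hint g (hD g hg)) (hint f hf)]
    have := norm_integral_le_of_norm_le_const (μ := κ ω) (f := fun z => g z - f z) (C := ε / 4)
      (Eventually.of_forall fun z => by rw [Real.norm_eq_abs, abs_sub_comm]; exact hgf z)
    simpa using this
  calc |avg f n z - ∫ z, f z ∂(κ ω)| = |(avg f n z - avg g n z) + (avg g n z - ∫ z, g z ∂(κ ω)) +
        (∫ z, g z ∂(κ ω) - ∫ z, f z ∂(κ ω))| := by ring_nf
    _ ≤ |avg f n z - avg g n z| + |avg g n z - ∫ z, g z ∂(κ ω)| +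
        |∫ z, g z ∂(κ ω) - ∫ z, f z ∂(κ ω)| := abs_add_three _ _ _
    _ < ε := by linarith

/-- invariant measures which are ergodic for the time one map are generic -/
theorem gen_of_ergodic (ν : Measure Z) [IsProbabilityMeasure ν]
    (hinv : ∀ s : ℝ, ν.map (fun z => u s • z) = ν)
    (herg : Ergodic (fun z : Z => u 1 • z) ν) : IsGen ν := by
  refine ⟨inferInstance, ae_genPt ν fun f hf => ?_⟩
  obtain ⟨B, hB0, hB⟩ := ed_bdd hf
  have h1 : edLim f ∘ (fun z : Z => u 1 • z) = edLim f := by
    funext z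
    exact edLim_inv hf 1 z
  obtain ⟨c, hc⟩ := herg.toPreErgodic.ae_eq_const_of_ae_eq_comp (edLim_meas0 hf) h1
  have h2 : ∫ z, edLim f z ∂ν = ∫ z, f z ∂ν := by
    have hfi : Integrable f ν :=
      Integrable.of_bound (C := B) hf.1.aestronglyMeasurable (Eventually.of_forall fun p => hB _)
    rw [integral_congr_ae (ed_condExp ν hinv hf), integral_condExp edI_le]
  have h3 : c = ∫ z, f z ∂ν := by
    rw [← h2, integral_congr_ae hc]
    simp
  filter_upwards [hc, ed_conv ν hinv hf] with z hz hz2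
  rw [hz] at hz2
  rw [← h3]
  exact hz2

end Pool.Agent.Work.MP_c9c104_nt
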