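import Pool.Agent.Work.MP_c9c104_nt.Basic

/-!
Invariant measures living on one orbit are ergodic.
-/

open MeasureTheory Filter Topology Set ProbabilityTheory
open scoped ENNReal NNReal

namespace Pool.Agent.Work.MP_c9c104_nt

variable {X : Type} [TopologicalSpace X] [MeasurableSpace X] [MulAction G X] [HomSp X]
variable {Z : Type} [TopologicalSpace Z] [MeasurableSpace Z] [MulAction G Z] [PhSp Z]

theorem erg_trans_aux (σ : Measure Z) [IsProbabilityMeasure σ] [SMulInvariantMeasure G Z σ]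
    (z0 : Z) (h0 : ∀ᵐ z ∂σ, z ∈ MulAction.orbit G z0) {A : Set Z} (hA : MeasurableSet A)
    (z1 : Z) (hz1 : z1 ∈ MulAction.orbit G z0)
    (h1 : ∀ᵐ g ∂(Measure.haar : Measure G), g • z1 ∈ A) : σ Aᶜ = 0 := by
  have hm : Measurable (fun p : Z × G => p.2 • p.1) :=
    (continuous_snd.smul continuous_fst).measurable
  have h2 : ∀ᵐ z ∂σ, ∀ᵐ g ∂(Measure.haar : Measure G), g • z ∈ A := by
    filter_upwards [h0] with z hz
    have hz' : z ∈ MulAction.orbit G z1 := by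
      rw [MulAction.orbit_eq_iff.mpr hz1]
      exact hz
    obtain ⟨h, rfl⟩ := MulAction.mem_orbit_iff.mp hz'
    have h3 := (quasiMeasurePreserving_mul_right (Measure.haar : Measure G) h).ae h1
    filter_upwards [h3] with g hg
    rwa [smul_smul]
  have h4 : MeasurableSet {p : Z × G | p.2 • p.1 ∈ A} := hm hA
  have h5 : ∀ᵐ g ∂(Measure.haar : Measure G), ∀ᵐ z ∂σ, g • z ∈ A :=
    (Measure.ae_ae_comm (p := fun z g => g • z ∈ A) h4).mp h2
  obtain ⟨g, hg⟩ := h5.exists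
  have h6 : σ ((fun z => g • z) ⁻¹' Aᶜ) = 0 := hg
  rwa [measure_preimage_smul] at h6

theorem erg_trans (σ : Measure Z) [IsProbabilityMeasure σ] [SMulInvariantMeasure G Z σ]
    (z0 : Z) (h0 : ∀ᵐ z ∂σ, z ∈ MulAction.orbit G z0) {A : Set Z} (hA : MeasurableSet A)
    (hinv : ∀ g : G, (fun z => g • z) ⁻¹' A =ᵐ[σ] A) : σ A = 0 ∨ σ Aᶜ = 0 := by
  have hm : Measurable (fun p : Z × G => p.2 • p.1) :=
    (continuous_snd.smul continuous_fst).measurable
  have hS : MeasurableSet {p : Z × G | p.2 • p.1 ∈ A ↔ p.1 ∈ A} := by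
    have e : {p : Z × G | p.2 • p.1 ∈ A ↔ p.1 ∈ A} =
        ({p : Z × G | p.2 • p.1 ∈ A} ∩ {p : Z × G | p.1 ∈ A}) ∪
        ({p : Z × G | p.2 • p.1 ∈ A}ᶜ ∩ {p : Z × G | p.1 ∈ A}ᶜ) := by
      ext p
      simp only [mem_ofPred_eq, mem_union, mem_inter_iff, mem_compl_iff]
      tauto
    rw [e]
    have e1 : MeasurableSet {p : Z × G | p.2 • p.1 ∈ A} := hm hA
    have e2 : MeasurableSet {p : Z × G | p.1 ∈ A} := measurable_fst hA
    exact (e1.inter e2).union (e1.compl.inter e2.compl)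
  have h1 : ∀ᵐ g ∂(Measure.haar : Measure G), ∀ᵐ z ∂σ, (g • z ∈ A ↔ z ∈ A) := by
    refine Eventually.of_forall fun g => ?_
    filter_upwards [hinv g] with z hz
    exact iff_of_eq hz
  have h2 : ∀ᵐ z ∂σ, ∀ᵐ g ∂(Measure.haar : Measure G), (g • z ∈ A ↔ z ∈ A) :=
    (Measure.ae_ae_comm (p := fun z g => (g • z ∈ A ↔ z ∈ A)) hS).mpr h1
  obtain ⟨z1, hz1, hz1'⟩ := (h2.and h0).exists
  by_cases hc : z1 ∈ A
  · right
    refine erg_trans_aux σ z0 h0 hA z1 hz1' ?_
    filter_upwards [hz1] with g hg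
    exact hg.mpr hc
  · left
    have := erg_trans_aux σ z0 h0 hA.compl z1 hz1' (by
      filter_upwards [hz1] with g hg
      exact fun h => hc (hg.mp h))
    rwa [compl_compl] at this

end Pool.Agent.Work.MP_c9c104_nt
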