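import Pool.Agent.Work.MP_c9c104_nt.Unfold
import Pool.Agent.Work.MP_c9c104_nt.Mix

/-!
Expanding horocycle arcs equidistribute, uniformly on compact sets.
-/

open MeasureTheory Filter Topology Set ProbabilityTheory
open scoped ENNReal NNReal

namespace Pool.Agent.Work.MP_c9c104_nt

variable {X : Type} [TopologicalSpace X] [MeasurableSpace X] [MulAction G X] [HomSp X]
variable {Z : Type} [TopologicalSpace Z] [MeasurableSpace Z] [MulAction G Z] [PhSp Z]

/-- tent weight around `1` -/
noncomputable def wt (δ : ℝ) (g : G) : ℝ := max (1 - nrm g / δ) 0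

theorem wt_nonneg (δ : ℝ) (g : G) : 0 ≤ wt δ g := le_max_right _ _

theorem wt_le_one {δ : ℝ} (hδ : 0 < δ) (g : G) : wt δ g ≤ 1 := by
  refine max_le ?_ zero_le_one
  have := div_nonneg (nrm_nonneg g) hδ.le
  linarith

theorem continuous_wt (δ : ℝ) : Continuous (wt δ) :=
  (continuous_const.sub (continuous_nrm.div_const δ)).max continuous_const

theorem wt_eq_zero {δ : ℝ} (hδ : 0 < δ) {g : G} (h : δ ≤ nrm g) : wt δ g = 0 := by
  refine max_eq_right ?_
  have := (one_le_div hδ).2 h
  linarith

theorem nrm_lt_of_wt {δ : ℝ} (hδ : 0 < δ) {g : G} (h : wt δ g ≠ 0) : nrm g < δ := by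
  by_contra hc
  exact h (wt_eq_zero hδ (not_lt.1 hc))

theorem entry_le_of_nrm {g : G} {r : ℝ} (h : nrm g ≤ r) (i j : Fin 2) : |g i j| ≤ 1 + r := by
  obtain ⟨h1, h2, h3, h4⟩ := nrm_le_iff.1 h
  have t1 := abs_le.1 h1
  have t2 := abs_le.1 h2
  have t3 := abs_le.1 h3
  have t4 := abs_le.1 h4
  fin_cases i <;> fin_cases j <;> simp only [Fin.zero_eta, Fin.mk_one] <;> rw [abs_le] <;>
    constructor <;> linarith

theorem hasCompactSupport_wt {δ : ℝ} (hδ : 0 < δ) : HasCompactSupport (wt δ) := by
  refine HasCompactSupport.intro (isCompact_bdd (1 + δ)) (fun g hg => ?_)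
  refine wt_eq_zero hδ ?_
  by_contra hc
  exact hg (fun i j => entry_le_of_nrm (not_le.1 hc).le i j)

theorem integrable_wt (lam : Measure G) [IsFiniteMeasureOnCompacts lam] {δ : ℝ} (hδ : 0 < δ) :
    Integrable (wt δ) lam :=
  (continuous_wt δ).integrable_of_hasCompactSupport (hasCompactSupport_wt hδ)

theorem integral_wt_pos (lam : Measure G) [lam.IsHaarMeasure] {δ : ℝ} (hδ : 0 < δ) :
    0 < ∫ g, wt δ g ∂lam := by
  refine (continuous_wt δ).integral_pos_of_hasCompactSupport_nonneg_nonzero
    (hasCompactSupport_wt hδ) (wt_nonneg δ) (x := 1) ?_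
  simp [wt]

theorem continuous_orb (x : X) : Continuous fun g : G => g • x :=
  continuous_id.smul continuous_const

/-- small changes on the right -/
theorem diff_small (lam : Measure G) [IsFiniteMeasureOnCompacts lam] {δ : ℝ} (hδ : 0 < δ)
    (hδ1 : δ ≤ 1) {η : ℝ} (hη : 0 < η) :
    ∃ r > 0, ∀ h : G, nrm h < r → ∫ b, |wt δ (b * h⁻¹) - wt δ b| ∂lam ≤ η := by
  have hcont : Continuous fun p : G × G => wt δ (p.2 * p.1⁻¹) := by
    refine (continuous_wt δ).comp ?_
    exact continuous_snd.mul continuous_fst.inv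
  have hK := isCompact_bdd (16 : ℝ)
  have hKm : MeasurableSet {g : G | ∀ i j, |g i j| ≤ (16 : ℝ)} := hK.measurableSet
  have hlim : Tendsto (fun h : G => ∫ b, |wt δ (b * h⁻¹) - wt δ b| ∂lam) (𝓝 1)
      (𝓝 (∫ b, (fun _ : G => (0 : ℝ)) b ∂lam)) := by
    refine tendsto_integral_filter_of_dominated_convergence
      (fun b => ({g : G | ∀ i j, |g i j| ≤ (16 : ℝ)}).indicator (fun _ => (1 : ℝ)) b) ?_ ?_ ?_ ?_
    · refine Eventually.of_forall (fun h => ?_)
      have hc : Continuous fun b : G => |wt δ (b * h⁻¹) - wt δ b| := by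
        have h1 : Continuous fun b : G => wt δ (b * h⁻¹) :=
          (continuous_wt δ).comp (continuous_id.mul continuous_const)
        exact (h1.sub (continuous_wt δ)).abs
      exact hc.aestronglyMeasurable
    · filter_upwards [nrm_mem 1 one_pos] with h hh
      refine Eventually.of_forall (fun b => ?_)
      rw [Real.norm_eq_abs, abs_abs]
      by_cases hb : b ∈ {g : G | ∀ i j, |g i j| ≤ (16 : ℝ)}
      · rw [indicator_of_mem hb]
        have h1 := wt_nonneg δ b
        have h2 := wt_le_one hδ b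
        have h3 := wt_nonneg δ (b * h⁻¹)
        have h4 := wt_le_one hδ (b * h⁻¹)
        rw [abs_le]
        constructor <;> linarith
      · rw [indicator_of_notMem hb]
        have h1 : wt δ b = 0 := by
          refine wt_eq_zero hδ ?_
          by_contra hc
          refine hb (fun i j => (entry_le_of_nrm (not_le.1 hc).le i j).trans ?_)
          linarith
        have h2 : wt δ (b * h⁻¹) = 0 := by
          refine wt_eq_zero hδ ?_
          by_contra hc
          apply hb
          have e : b = (b * h⁻¹) * h := by group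
          have k1 := fun i j => entry_le_of_nrm (not_le.1 hc).le i j
          have k2 := fun i j => entry_le_of_nrm (g := h) (le_of_lt hh) i j
          have k3 : ∀ i j, |(b * h⁻¹) i j| ≤ 2 := fun i j => (k1 i j).trans (by linarith)
          have k4 : ∀ i j, |h i j| ≤ 2 := fun i j => (k2 i j).trans (by norm_num)
          generalize b * h⁻¹ = c at e k3
          intro i j
          rw [e]
          have key : ∀ p q r s : ℝ, |p| ≤ 2 → |q| ≤ 2 → |r| ≤ 2 → |s| ≤ 2 →
              |p * q + r * s| ≤ 16 := by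
            intro p q r s hp hq hr hs
            have e1 : |p * q| ≤ 2 * 2 := by
              rw [abs_mul]; exact mul_le_mul hp hq (abs_nonneg _) (by norm_num)
            have e2 : |r * s| ≤ 2 * 2 := by
              rw [abs_mul]; exact mul_le_mul hr hs (abs_nonneg _) (by norm_num)
            linarith [abs_add_le (p * q) (r * s)]
          fin_cases i <;> fin_cases j <;>
            simp only [Fin.zero_eta, Fin.mk_one, mul00, mul01, mul10, mul11] <;>
            exact key _ _ _ _ (k3 _ _) (k4 _ _) (k3 _ _) (k4 _ _)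
        rw [h1, h2]
        simp
    · rw [integrable_indicator_iff hKm]
      exact integrableOn_const hK.measure_lt_top.ne
    · refine Eventually.of_forall (fun b => ?_)
      have h1 : Continuous fun h : G => |wt δ (b * h⁻¹) - wt δ b| := by
        have h2 : Continuous fun h : G => wt δ (b * h⁻¹) :=
          (continuous_wt δ).comp (continuous_const.mul continuous_id.inv)
        exact (h2.sub continuous_const).abs
      have h2 := h1.tendsto 1
      simpa using h2
  simp only [integral_zero] at hlim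
  have h2 : ∀ᶠ h in 𝓝 (1 : G), ∫ b, |wt δ (b * h⁻¹) - wt δ b| ∂lam ≤ η :=
    (hlim.eventually (gt_mem_nhds hη)).mono (fun _ h => le_of_lt h)
  obtain ⟨r, hr, h3⟩ := exists_nrm h2
  exact ⟨r, hr, fun h hh => h3 h hh⟩

variable (m : Measure X) [IsProbabilityMeasure m] [SMulInvariantMeasure G X m]

/-- the weighted local Haar measure pushed to `X` -/
noncomputable def push (lam : Measure G) (δ : ℝ) (y : X) : Measure X :=
  (lam.withDensity (fun b => ((wt δ b).toNNReal : ℝ≥0∞))).map (fun g : G => g • y)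

omit [IsProbabilityMeasure m] [SMulInvariantMeasure G X m] in
theorem push_le (lam : Measure G) {δ : ℝ} (hδ : 0 < δ) (y : X)
    (hinj : InjOn (fun g : G => g • y) {g | nrm g < δ})
    (hl : ∀ E : Set G, MeasurableSet E → InjOn (fun g : G => g • y) E →
      m ((fun g : G => g • y) '' E) = lam E) : push lam δ y ≤ m := by
  have hmeas : Measurable fun g : G => g • y := (continuous_orb y).measurable
  refine Measure.le_iff.2 (fun A hA => ?_)
  have hpre : MeasurableSet ((fun g : G => g • y) ⁻¹' A) := hmeas hA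
  have hW : MeasurableSet {g : G | nrm g < δ} :=
    (isOpen_lt continuous_nrm continuous_const).measurableSet
  rw [push, Measure.map_apply hmeas hA, withDensity_apply _ hpre]
  have h1 : ∀ b : G, ((wt δ b).toNNReal : ℝ≥0∞) ≤ ({g : G | nrm g < δ}).indicator 1 b := by
    intro b
    by_cases hb : b ∈ {g : G | nrm g < δ}
    · rw [indicator_of_mem hb, Pi.one_apply]
      have := wt_le_one hδ b
      exact_mod_cast Real.toNNReal_le_one.2 this
    · rw [indicator_of_notMem hb, wt_eq_zero hδ (not_lt.1 hb)]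
      simp
  refine (lintegral_mono h1).trans ?_
  rw [lintegral_indicator_one hW, Measure.restrict_apply hW,
    ← hl _ (hW.inter hpre) (hinj.mono inter_subset_left)]
  refine measure_mono ?_
  rintro _ ⟨g, hg, rfl⟩
  exact hg.2

omit [SMulInvariantMeasure G X m] in
theorem integral_push (lam : Measure G) (δ : ℝ) (y : X) {φ : X → ℝ} (hφ : Measurable φ) :
    ∫ z, φ z ∂(push lam δ y) = ∫ b, wt δ b * φ (b • y) ∂lam := by
  have hmeas : Measurable fun g : G => g • y := (continuous_orb y).measurable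
  rw [push, integral_map hmeas.aemeasurable hφ.aestronglyMeasurable,
    integral_withDensity_eq_integral_smul ((continuous_wt δ).measurable.real_toNNReal)]
  refine integral_congr_ae (Eventually.of_forall (fun b => ?_))
  simp only [NNReal.smul_def, Real.coe_toNNReal _ (wt_nonneg δ b), smul_eq_mul]

/-- convergence for a single base point -/
theorem conv_one (lam : Measure G) [IsFiniteMeasureOnCompacts lam] {δ : ℝ} (hδ : 0 < δ) (y : X)
    (hinj : InjOn (fun g : G => g • y) {g | nrm g < δ})
    (hl : ∀ E : Set G, MeasurableSet E → InjOn (fun g : G => g • y) E →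
      m ((fun g : G => g • y) '' E) = lam E) {f : X → ℝ} (hf : Measurable f)
    (bf : ∃ B, ∀ z, |f z| ≤ B) :
    Tendsto (fun t : ℝ => ∫ b, wt δ b * f (a t • b • y) ∂lam) atTop
      (𝓝 ((∫ x, f x ∂m) * ∫ b, wt δ b ∂lam)) := by
  have hle := push_le m lam hδ y hinj hl
  have hfin : IsFiniteMeasure (push lam δ y) := isFiniteMeasure_of_le m hle
  have hac : push lam δ y ≪ m := Measure.absolutelyContinuous_of_le hle
  set ψ : X → ℝ := fun z => min (((push lam δ y).rnDeriv m z).toReal) 1 with hψ
  have hψm : Measurable ψ :=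
    ((Measure.measurable_rnDeriv _ _).ennreal_toReal).min measurable_const
  have hψb : ∃ B, ∀ z, |ψ z| ≤ B := by
    refine ⟨1, fun z => ?_⟩
    rw [abs_of_nonneg (le_min ENNReal.toReal_nonneg zero_le_one)]
    exact min_le_right _ _
  have hψe : ∀ᵐ z ∂m, ((push lam δ y).rnDeriv m z).toReal = ψ z := by
    filter_upwards [Measure.rnDeriv_le_one_of_le hle] with z hz
    rw [hψ]
    refine (min_eq_left ?_).symm
    have := ENNReal.toReal_mono ENNReal.one_ne_top hz
    simpa using this
  have key : ∀ φ : X → ℝ, Measurable φ → ∫ b, wt δ b * φ (b • y) ∂lam = ∫ z, φ z * ψ z ∂m := by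
    intro φ hφ
    rw [← integral_push lam δ y hφ, ← integral_rnDeriv_smul hac]
    refine integral_congr_ae ?_
    filter_upwards [hψe] with z hz
    rw [hz, smul_eq_mul, mul_comm]
  have hx0 : ∀ᵐ z ∂m, z ∈ MulAction.orbit G y :=
    Eventually.of_forall (fun z => MulAction.exists_smul_eq G y z)
  have h1 := mix_a m y hx0 hf hψm bf hψb
  have h2 : ∫ z, ψ z ∂m = ∫ b, wt δ b ∂lam := by
    have := key (fun _ => 1) measurable_const
    simp only [mul_one, one_mul] at this
    exact this.symm
  rw [h2] at h1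
  refine h1.congr (fun t => ?_)
  exact (key (fun z => f (a t • z)) (hf.comp (measurable_const_smul (a t)))).symm

theorem bdd_mul_integrable (lam : Measure G) {w φ : G → ℝ} (hw : Integrable w lam)
    (hwc : Continuous w) (hφ : Continuous φ) {B : ℝ} (hB : ∀ b, |φ b| ≤ B) :
    Integrable (fun b => w b * φ b) lam := by
  refine Integrable.mono' (g := fun b => |w b| * B) (hw.abs.mul_const B)
    (hwc.mul hφ).aestronglyMeasurable (Eventually.of_forall (fun b => ?_))
  rw [Real.norm_eq_abs, abs_mul]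
  exact mul_le_mul_of_nonneg_left (hB b) (abs_nonneg _)

/-- uniform convergence over a compact set of base points -/
theorem conv_unif (lam : Measure G) [lam.IsHaarMeasure] [lam.IsMulRightInvariant]
    {δ : ℝ} (hδ : 0 < δ) (hδ1 : δ ≤ 1) {K : Set X} (hK : IsCompact K)
    (hinj : ∀ y ∈ K, InjOn (fun g : G => g • y) {g | nrm g < δ})
    (hl : ∀ (y : X) (E : Set G), MeasurableSet E → InjOn (fun g : G => g • y) E →
      m ((fun g : G => g • y) '' E) = lam E) {f : X → ℝ} (hf : Continuous f) {B : ℝ}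
    (hB0 : 0 ≤ B) (hB : ∀ z, |f z| ≤ B) {η : ℝ} (hη : 0 < η) :
    ∃ T0 > 0, ∀ t ≥ T0, ∀ y ∈ K,
      |(∫ b, wt δ b * f (a t • b • y) ∂lam) - (∫ x, f x ∂m) * ∫ b, wt δ b ∂lam| ≤ η := by
  obtain ⟨r, hr, hdiff⟩ := diff_small lam hδ hδ1 (η := η / (2 * (B + 1))) (by positivity)
  refine hK.induction_on (p := fun s => ∃ T0 > 0, ∀ t ≥ T0, ∀ y ∈ s,
      |(∫ b, wt δ b * f (a t • b • y) ∂lam) - (∫ x, f x ∂m) * ∫ b, wt δ b ∂lam| ≤ η) ?_ ?_ ?_ ?_
  · exact ⟨1, one_pos, fun t _ y hy => absurd hy (notMem_empty y)⟩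
  · rintro s t hst ⟨T, hT, h⟩
    exact ⟨T, hT, fun τ hτ y hy => h τ hτ y (hst hy)⟩
  · rintro s t ⟨T, hT, h⟩ ⟨T', hT', h'⟩
    refine ⟨max T T', lt_max_of_lt_left hT, fun τ hτ y hy => ?_⟩
    rcases hy with hy | hy
    · exact h τ ((le_max_left _ _).trans hτ) y hy
    · exact h' τ ((le_max_right _ _).trans hτ) y hy
  · intro y0 hy0
    have h1 := conv_one m lam hδ y0 (hinj y0 hy0) (hl y0) hf.measurable ⟨B, hB⟩
    rw [Metric.tendsto_atTop] at h1
    obtain ⟨T, hT⟩ := h1 (η / 2) (by positivity)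
    refine ⟨_, mem_nhdsWithin_of_mem_nhds (smul_mem_nhds y0 (nrm_mem r hr)), max T 1,
      lt_max_of_lt_right one_pos, ?_⟩
    rintro t ht _ ⟨h, hh, rfl⟩
    have h2 := (hT t ((le_max_left _ _).trans ht)).le
    rw [Real.dist_eq] at h2
    have hφc : Continuous fun b : G => f (a t • b • y0) :=
      hf.comp ((continuous_const_smul (a t)).comp (continuous_orb y0))
    have e1 : ∫ b, wt δ b * f (a t • b • h • y0) ∂lam =
        ∫ b, wt δ (b * h⁻¹) * f (a t • b • y0) ∂lam := by
      rw [← integral_mul_right_eq_self (fun b => wt δ (b * h⁻¹) * f (a t • b • y0)) h]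
      refine integral_congr_ae (Eventually.of_forall (fun b => ?_))
      simp only [mul_inv_cancel_right, mul_smul]
    have hwc : Continuous fun b : G => wt δ (b * h⁻¹) :=
      (continuous_wt δ).comp (continuous_id.mul continuous_const)
    have i1 : Integrable (fun b => wt δ (b * h⁻¹)) lam := (integrable_wt lam hδ).comp_mul_right h⁻¹
    have i2 := integrable_wt lam hδ
    have e2 : (∫ b, wt δ (b * h⁻¹) * f (a t • b • y0) ∂lam) - ∫ b, wt δ b * f (a t • b • y0) ∂lam
        = ∫ b, (wt δ (b * h⁻¹) - wt δ b) * f (a t • b • y0) ∂lam := by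
      rw [← integral_sub (bdd_mul_integrable lam i1 hwc hφc (fun b => hB _))
        (bdd_mul_integrable lam i2 (continuous_wt δ) hφc (fun b => hB _))]
      refine integral_congr_ae (Eventually.of_forall (fun b => ?_))
      simp only [sub_mul]
    have e3 : |∫ b, (wt δ (b * h⁻¹) - wt δ b) * f (a t • b • y0) ∂lam| ≤ η / 2 := by
      have h3 : ∀ᵐ b ∂lam, ‖(wt δ (b * h⁻¹) - wt δ b) * f (a t • b • y0)‖ ≤
          |wt δ (b * h⁻¹) - wt δ b| * B := by
        refine Eventually.of_forall (fun b => ?_)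
        rw [Real.norm_eq_abs, abs_mul]
        exact mul_le_mul_of_nonneg_left (hB _) (abs_nonneg _)
      have h4 := norm_integral_le_of_norm_le ((i1.sub i2).abs.mul_const B) h3
      rw [Real.norm_eq_abs] at h4
      refine h4.trans ?_
      rw [integral_mul_const]
      refine (mul_le_mul_of_nonneg_right (hdiff h hh) hB0).trans ?_
      rw [div_mul_eq_mul_div, div_le_div_iff₀ (by positivity) (by norm_num)]
      nlinarith
    have e4 : (∫ b, wt δ b * f (a t • b • h • y0) ∂lam) - (∫ x, f x ∂m) * ∫ b, wt δ b ∂lam =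
        (∫ b, (wt δ (b * h⁻¹) - wt δ b) * f (a t • b • y0) ∂lam) +
        ((∫ b, wt δ b * f (a t • b • y0) ∂lam) - (∫ x, f x ∂m) * ∫ b, wt δ b ∂lam) := by
      rw [e1, ← e2]; ring
    show |(∫ b, wt δ b * f (a t • b • h • y0) ∂lam) - (∫ x, f x ∂m) * ∫ b, wt δ b ∂lam| ≤ η
    rw [e4]
    refine (abs_add_le _ _).trans ?_
    linarith

theorem inj_small {K : Set X} (hK : IsCompact K) :
    ∃ δ > 0, ∀ y ∈ K, InjOn (fun g : G => g • y) {g | nrm g < δ} := by
  obtain ⟨ε, hε, h⟩ := unif_disc hK
  have h1 : Continuous fun p : G × G => nrm (p.1⁻¹ * p.2) :=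
    continuous_nrm.comp (continuous_fst.inv.mul continuous_snd)
  have h2 := h1.tendsto (1, 1)
  simp only [inv_one, mul_one, nrm_one] at h2
  have h3 := h2.eventually (gt_mem_nhds hε)
  rw [nhds_prod_eq, eventually_prod_self_iff'] at h3
  obtain ⟨V, hV, h4⟩ := h3
  obtain ⟨δ, hδ, h5⟩ := exists_nrm hV
  refine ⟨δ, hδ, fun y hy g hg g' hg' he => ?_⟩
  have h6 := h y hy (g⁻¹ * g') (by
    rw [MulAction.mem_stabilizer_iff, mul_smul]
    rw [show g' • y = g • y from he.symm, inv_smul_smul]) (h4 g (h5 g hg) g' (h5 g' hg'))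
  exact inv_mul_eq_one.1 h6

/-- moving the base point of an arc by a small group element -/
theorem arc_shift {f : X → ℝ} (hf : Continuous f) {B : ℝ} (hB : ∀ z, |f z| ≤ B)
    {δ δ1 ε : ℝ} (hδ : 0 < δ) (hδ2 : δ ≤ 1 / 2) (hδ1 : 2 * δ < δ1)
    (huc : ∀ g : G, nrm g < δ1 → ∀ z, |f (g • z) - f z| ≤ ε) {b : G} (hb : nrm b < δ) {t : ℝ}
    (ht : 0 ≤ t) (x : X) :
    |(∫ s in (0 : ℝ)..1, f (a t • b • u s • x)) - ∫ s in (0 : ℝ)..1, f (a t • u s • x)| ≤
      ε + 4 * B * δ := by
  obtain ⟨b1, b2, b3, b4⟩ := nrm_lt_iff.1 hb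
  have b1' := abs_lt.1 b1
  have b2' := abs_lt.1 b2
  have b3' := abs_lt.1 b3
  have b4' := abs_lt.1 b4
  have h00 : 1 / 2 < b 0 0 := by linarith
  have h00p : 0 < b 0 0 := by linarith
  have hB0 : 0 ≤ B := (abs_nonneg _).trans (hB x)
  set τ : ℝ := b 0 1 / b 0 0 with hτ
  have hτb : |τ| ≤ 2 * δ := by
    rw [hτ, abs_div, abs_of_pos h00p, div_le_iff₀ h00p]
    nlinarith
  set c : G := b * u (-τ) with hc
  have hc00 : c 0 0 = b 0 0 := by simp [hc]
  have hc01 : c 0 1 = 0 := by
    simp only [hc, mul01, u01, u11, mul_one, hτ]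
    field_simp
    ring
  have hc10 : c 1 0 = b 1 0 := by simp [hc]
  have hc11 : c 1 1 * b 0 0 = 1 := by
    have := G_det c
    rw [hc01, hc00] at this
    linarith
  have hn : nrm (a t * c * a (-t)) < δ1 := by
    rw [nrm_lt_iff, aconj00, aconj11, aconj01, aconj10, hc01, hc00, hc10, mul_zero, abs_zero]
    refine ⟨by linarith, ?_, by linarith, ?_⟩
    · have h1 : (c 1 1 - 1) * b 0 0 = 1 - b 0 0 := by linarith
      have h2 : |c 1 1 - 1| * b 0 0 = |b 0 0 - 1| := by
        rw [← abs_of_pos h00p, ← abs_mul, abs_of_pos h00p, h1, abs_sub_comm]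
      have h3 : 0 ≤ |c 1 1 - 1| := abs_nonneg _
      nlinarith
    · have h1 : Real.exp (-(2 * t)) ≤ 1 := Real.exp_le_one_iff.2 (by linarith)
      have h2 : 0 < Real.exp (-(2 * t)) := Real.exp_pos _
      rw [abs_mul, abs_of_pos h2]
      have h3 : 0 ≤ |b 1 0| := abs_nonneg _
      nlinarith
  have hid : ∀ s : ℝ, a t • b • u s • x = (a t * c * a (-t)) • (a t • u (τ + s) • x) := by
    intro s
    rw [← mul_smul, ← mul_smul, ← mul_smul, ← mul_smul]
    congr 1
    have e1 : a (-t) * a t = 1 := by rw [← a_add]; simp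
    have e2 : b = c * u τ := by rw [hc, mul_assoc, u_neg_mul, mul_one]
    calc a t * b * u s = a t * c * u τ * u s := by rw [e2]; group
      _ = a t * c * (a (-t) * a t) * u (τ + s) := by rw [e1, u_add]; group
      _ = _ := by group
  have hcont : Continuous fun s : ℝ => f (a t • u s • x) :=
    hf.comp ((continuous_const_smul (a t)).comp (continuous_u.smul continuous_const))
  have hcontb : Continuous fun s : ℝ => f (a t • b • u s • x) :=
    hf.comp ((continuous_const_smul (a t)).comp ((continuous_const_smul b).comp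
      (continuous_u.smul continuous_const)))
  have hconts : Continuous fun s : ℝ => f (a t • u (τ + s) • x) :=
    hcont.comp (continuous_const.add continuous_id)
  have s1 : |(∫ s in (0 : ℝ)..1, f (a t • b • u s • x)) -
      ∫ s in (0 : ℝ)..1, f (a t • u (τ + s) • x)| ≤ ε := by
    rw [← intervalIntegral.integral_sub (hcontb.intervalIntegrable _ _)
      (hconts.intervalIntegrable _ _)]
    have := intervalIntegral.norm_integral_le_of_norm_le_const (a := (0 : ℝ)) (b := 1) (C := ε)
      (f := fun s => f (a t • b • u s • x) - f (a t • u (τ + s) • x)) (by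
        intro s _
        rw [Real.norm_eq_abs, hid s]
        exact huc _ hn _)
    simpa using this
  have s2 : |(∫ s in (0 : ℝ)..1, f (a t • u (τ + s) • x)) -
      ∫ s in (0 : ℝ)..1, f (a t • u s • x)| ≤ 4 * B * δ := by
    rw [intervalIntegral.integral_comp_add_left (fun s => f (a t • u s • x)) τ]
    have e1 : (∫ s in (τ + 0)..(τ + 1), f (a t • u s • x)) - ∫ s in (0 : ℝ)..1, f (a t • u s • x)
        = (∫ s in (1 : ℝ)..(τ + 1), f (a t • u s • x)) -
          ∫ s in (0 : ℝ)..(τ + 0), f (a t • u s • x) := by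
      have i := fun p q : ℝ => hcont.intervalIntegrable (μ := volume) p q
      have k1 := intervalIntegral.integral_add_adjacent_intervals (i 0 (τ + 0)) (i (τ + 0) (τ + 1))
      have k2 := intervalIntegral.integral_add_adjacent_intervals (i 0 1) (i 1 (τ + 1))
      linarith
    rw [e1]
    have bd : ∀ p q : ℝ, |∫ s in p..q, f (a t • u s • x)| ≤ B * |q - p| := by
      intro p q
      have := intervalIntegral.norm_integral_le_of_norm_le_const (a := p) (b := q) (C := B)
        (f := fun s => f (a t • u s • x)) (fun s _ => by rw [Real.norm_eq_abs]; exact hB _)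
      simpa using this
    have k1 := bd 1 (τ + 1)
    have k2 := bd 0 (τ + 0)
    rw [show τ + 1 - 1 = τ by ring] at k1
    rw [show τ + 0 - 0 = τ by ring] at k2
    have k3 : B * |τ| ≤ B * (2 * δ) := mul_le_mul_of_nonneg_left hτb hB0
    have k4 := abs_sub (∫ s in (1 : ℝ)..(τ + 1), f (a t • u s • x))
      (∫ s in (0 : ℝ)..(τ + 0), f (a t • u s • x))
    linarith
  have s3 := abs_sub_le (∫ s in (0 : ℝ)..1, f (a t • b • u s • x))
    (∫ s in (0 : ℝ)..1, f (a t • u (τ + s) • x)) (∫ s in (0 : ℝ)..1, f (a t • u s • x))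
  linarith

theorem exp_arc {f : X → ℝ} (hf : Cc f) {K : Set X} (hK : IsCompact K) {ε : ℝ} (hε : 0 < ε) :
    ∃ T0 > 0, ∀ t ≥ T0, ∀ x ∈ K,
      |(∫ s in (0 : ℝ)..1, f (a t • u s • x)) - ∫ x, f x ∂m| ≤ ε := by
  obtain ⟨hfc, hfs⟩ := hf
  obtain ⟨B, hB⟩ := hfs.exists_bound_of_continuous hfc
  simp only [Real.norm_eq_abs] at hB
  obtain ⟨lam, hHaar, hR, hlam⟩ := exists_haar m
  obtain ⟨δ1, hδ1, huc⟩ := uc_one (f := f) ⟨hfc, hfs⟩ (ε := ε / 4) (by positivity)
  set K' : Set X := (fun p : ℝ × X => u p.1 • p.2) '' (Icc 0 1 ×ˢ K) with hK'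
  have hK'c : IsCompact K' :=
    (isCompact_Icc.prod hK).image ((continuous_u.comp continuous_fst).smul continuous_snd)
  obtain ⟨δ2, hδ2, hinj⟩ := inj_small hK'c
  rcases K.eq_empty_or_nonempty with rfl | ⟨x0, hx0⟩
  · exact ⟨1, one_pos, fun t _ x hx => absurd hx (notMem_empty x)⟩
  have hB0 : 0 ≤ B := (abs_nonneg _).trans (hB x0)
  set δ : ℝ := min (min (δ1 / 3) δ2) (min (1 / 2) (ε / (16 * (B + 1)))) with hδdef
  have hδ : 0 < δ := by
    refine lt_min (lt_min (by positivity) hδ2) (lt_min (by norm_num) (by positivity))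
  have d1 : δ ≤ δ1 / 3 := (min_le_left _ _).trans (min_le_left _ _)
  have d2 : δ ≤ δ2 := (min_le_left _ _).trans (min_le_right _ _)
  have d3 : δ ≤ 1 / 2 := (min_le_right _ _).trans (min_le_left _ _)
  have d4 : δ ≤ ε / (16 * (B + 1)) := (min_le_right _ _).trans (min_le_right _ _)
  have hBδ : 4 * B * δ ≤ ε / 4 := by
    have h1 : δ * (16 * (B + 1)) ≤ ε := (le_div_iff₀ (by positivity)).1 d4
    nlinarith
  set I : ℝ := ∫ b, wt δ b ∂lam with hI
  have hIpos : 0 < I := integral_wt_pos lam hδ
  obtain ⟨T0, hT0, hconv⟩ := conv_unif m lam hδ (d3.trans (by norm_num)) hK'c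
    (fun y hy => (hinj y hy).mono (fun g hg => lt_of_lt_of_le hg d2)) hlam hfc hB0 hB
    (η := I * (ε / 2)) (by positivity)
  refine ⟨T0, hT0, fun t ht x hx => ?_⟩
  have ht0 : 0 ≤ t := hT0.le.trans ht
  -- averages over the weight
  have hcont2 : Continuous fun p : G × ℝ => wt δ p.1 * f (a t • p.1 • u p.2 • x) := by
    refine ((continuous_wt δ).comp continuous_fst).mul (hfc.comp ?_)
    exact (continuous_const_smul (a t)).comp
      (continuous_fst.smul ((continuous_u.comp continuous_snd).smul continuous_const))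
  have hint : Integrable (fun p : G × ℝ => wt δ p.1 * f (a t • p.1 • u p.2 • x))
      (lam.prod (volume.restrict (Ioc (0 : ℝ) 1))) := by
    have h1 : Integrable (fun p : G × ℝ => wt δ p.1 * B)
        (lam.prod (volume.restrict (Ioc (0 : ℝ) 1))) :=
      (integrable_wt lam hδ).mul_prod (integrable_const B)
    refine h1.mono' hcont2.aestronglyMeasurable (Eventually.of_forall (fun p => ?_))
    rw [Real.norm_eq_abs, abs_mul, abs_of_nonneg (wt_nonneg δ _)]
    exact mul_le_mul_of_nonneg_left (hB _) (wt_nonneg δ _)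
  have hswap : ∫ b, wt δ b * (∫ s in (0 : ℝ)..1, f (a t • b • u s • x)) ∂lam =
      ∫ s in (0 : ℝ)..1, ∫ b, wt δ b * f (a t • b • u s • x) ∂lam := by
    rw [intervalIntegral.integral_of_le zero_le_one]
    have h1 := integral_integral_swap (μ := lam) (ν := volume.restrict (Ioc (0 : ℝ) 1))
      (f := fun b s => wt δ b * f (a t • b • u s • x)) hint
    rw [← h1]
    refine integral_congr_ae (Eventually.of_forall (fun b => ?_))
    simp only [intervalIntegral.integral_of_le (zero_le_one (α := ℝ)), integral_const_mul]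
  set A : ℝ := ∫ s in (0 : ℝ)..1, f (a t • u s • x) with hA
  set J : ℝ := ∫ x, f x ∂m with hJ
  have hinner : |(∫ s in (0 : ℝ)..1, ∫ b, wt δ b * f (a t • b • u s • x) ∂lam) - J * I| ≤
      I * (ε / 2) := by
    have hii : IntervalIntegrable (fun s => ∫ b, wt δ b * f (a t • b • u s • x) ∂lam)
        volume 0 1 := by
      rw [intervalIntegrable_iff_integrableOn_Ioc_of_le zero_le_one]
      exact hint.integral_prod_right
    have e1 : (∫ s in (0 : ℝ)..1, ∫ b, wt δ b * f (a t • b • u s • x) ∂lam) - J * I =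
        ∫ s in (0 : ℝ)..1, ((∫ b, wt δ b * f (a t • b • u s • x) ∂lam) - J * I) := by
      rw [intervalIntegral.integral_sub hii intervalIntegrable_const]
      simp
    rw [e1]
    have := intervalIntegral.norm_integral_le_of_norm_le_const (a := (0 : ℝ)) (b := 1)
      (C := I * (ε / 2)) (f := fun s => (∫ b, wt δ b * f (a t • b • u s • x) ∂lam) - J * I) (by
        intro s hs
        rw [uIoc_of_le zero_le_one] at hs
        rw [Real.norm_eq_abs]
        exact hconv t ht (u s • x) ⟨(s, x), ⟨⟨hs.1.le, hs.2⟩, hx⟩, rfl⟩)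
    simpa using this
  have houter : |(∫ b, wt δ b * (∫ s in (0 : ℝ)..1, f (a t • b • u s • x)) ∂lam) - A * I| ≤
      (ε / 4 + 4 * B * δ) * I := by
    have i1 : Integrable (fun b => wt δ b * (∫ s in (0 : ℝ)..1, f (a t • b • u s • x))) lam := by
      have := hint.integral_prod_left
      refine this.congr (Eventually.of_forall (fun b => ?_))
      simp only [intervalIntegral.integral_of_le (zero_le_one (α := ℝ)), integral_const_mul]
    have i2 : Integrable (fun b => wt δ b * A) lam := (integrable_wt lam hδ).mul_const A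
    have e1 : A * I = ∫ b, wt δ b * A ∂lam := by rw [integral_mul_const, mul_comm]
    rw [e1, ← integral_sub i1 i2]
    have h3 : ∀ᵐ b ∂lam, ‖wt δ b * (∫ s in (0 : ℝ)..1, f (a t • b • u s • x)) - wt δ b * A‖ ≤
        wt δ b * (ε / 4 + 4 * B * δ) := by
      refine Eventually.of_forall (fun b => ?_)
      rw [← mul_sub, Real.norm_eq_abs, abs_mul, abs_of_nonneg (wt_nonneg δ b)]
      by_cases hb : nrm b < δ
      · exact mul_le_mul_of_nonneg_left
          (arc_shift hfc hB hδ d3 (by linarith) huc hb ht0 x) (wt_nonneg δ b)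
      · rw [wt_eq_zero hδ (not_lt.1 hb)]
        simp
    have h4 := norm_integral_le_of_norm_le ((integrable_wt lam hδ).mul_const _) h3
    rw [Real.norm_eq_abs, integral_mul_const] at h4
    rw [mul_comm]
    exact h4
  rw [hswap] at houter
  have hfin : |A * I - J * I| ≤ ε * I := by
    generalize (∫ s in (0 : ℝ)..1, ∫ b, wt δ b * f (a t • b • u s • x) ∂lam) = M at hinner houter
    have k1 := abs_sub_le (A * I) M (J * I)
    have k2 := abs_sub_comm (A * I) M
    have k3 : 4 * B * δ * I ≤ ε / 4 * I := mul_le_mul_of_nonneg_right hBδ hIpos.le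
    rw [k2] at k1
    linarith
  rw [← sub_mul, abs_mul, abs_of_pos hIpos] at hfin
  exact le_of_mul_le_mul_right hfin hIpos

end Pool.Agent.Work.MP_c9c104_nt
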