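import Pool.Agent.Work.MP_c9c104_nt.Basic

/-!
Joinings with finite fibres.
-/

open MeasureTheory Filter Topology Set ProbabilityTheory
open scoped ENNReal NNReal

namespace Pool.Agent.Work.MP_c9c104_nt

variable {X : Type} [TopologicalSpace X] [MeasurableSpace X] [MulAction G X] [HomSp X]
variable {Z : Type} [TopologicalSpace Z] [MeasurableSpace Z] [MulAction G Z] [PhSp Z]

/-- `ν` is disintegrated over `m` by `κ`, with uniform measures on `k` points as fibres -/
structure Fib (m : Measure X) (ν : Measure (X × X)) (k : ℕ) (κ : Kernel X X) : Prop where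
  markov : IsMarkovKernel κ
  kpos : 0 < k
  comp : m.compProd κ = ν
  fin : ∀ᵐ x ∂m, ∃ F : Finset X, F.card = k ∧
    κ x = ∑ y ∈ F, ((k : ℝ≥0∞)⁻¹) • Measure.dirac y

/-- the fibre -/
def fib (κ : Kernel X X) (x : X) : Set X := {y | κ x {y} ≠ 0}

end Pool.Agent.Work.MP_c9c104_nt
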