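import Pool.Agent.Work.MP_c9c104_nt.Shear
import Pool.Agent.Work.MP_c9c104_nt.FibDef
import Pool.Agent.Work.MP_c9c104_nt.Quot

/-!
Finite fibres of non product generic joinings; equivariance of fibres.
-/

open MeasureTheory Filter Topology Set ProbabilityTheory
open scoped ENNReal NNReal

namespace Pool.Agent.Work.MP_c9c104_nt

variable {X : Type} [TopologicalSpace X] [MeasurableSpace X] [MulAction G X] [HomSp X]
variable {Z : Type} [TopologicalSpace Z] [MeasurableSpace Z] [MulAction G Z] [PhSp Z]

variable (m : Measure X) [IsProbabilityMeasure m] [SMulInvariantMeasure G X m]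

/-- equivariance of disintegration kernels -/
theorem ker_equiv {ν : Measure (X × X)} (κ : Kernel X X) [IsMarkovKernel κ]
    (hc : m.compProd κ = ν) (g h : G)
    (hinv : ν.map (fun z => (g • z.1, h • z.2)) = ν) :
    ∀ᵐ x ∂m, κ (g • x) = (κ x).map (fun y => h • y) := by
  have hgm : Measurable (fun x : X => g⁻¹ • x) := measurable_const_smul _
  have hhm : Measurable (fun x : X => h • x) := measurable_const_smul _
  let η : Kernel X X := (κ.comap (fun x => g⁻¹ • x) hgm).map (fun y => h • y)
  have hη : ∀ x, η x = (κ (g⁻¹ • x)).map (fun y => h • y) := by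
    intro x
    simp only [η]
    rw [Kernel.map_apply _ hhm, Kernel.comap_apply]
  have hmk : IsMarkovKernel η := by
    refine ⟨fun x => ?_⟩
    rw [hη]
    exact Measure.isProbabilityMeasure_map hhm.aemeasurable
  have hΦ : Measurable (fun z : X × X => (g • z.1, h • z.2)) :=
    (measurable_fst.const_smul g).prodMk (measurable_snd.const_smul h)
  have hmp : MeasurePreserving (fun x : X => g • x) m m := measurePreserving_smul g m
  have key : m.compProd η = m.compProd κ := by
    rw [hc, ← hinv, ← hc]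
    ext s hs
    rw [Measure.compProd_apply hs, Measure.map_apply hΦ hs, Measure.compProd_apply (hΦ hs),
      ← hmp.lintegral_comp (Kernel.measurable_kernel_prodMk_left hs)]
    refine lintegral_congr fun x => ?_
    rw [hη, inv_smul_smul, Measure.map_apply hhm (measurable_prodMk_left hs)]
    rfl
  have h2 : η =ᵐ[m] κ := Kernel.ae_eq_of_compProd_eq key
  have h3 : ∀ᵐ x ∂m, η (g • x) = κ (g • x) := hmp.quasiMeasurePreserving.ae h2
  filter_upwards [h3] with x hx
  rw [← hx, hη, inv_smul_smul]

theorem measurable_atom (κ : Kernel X X) [IsMarkovKernel κ] :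
    Measurable fun z : X × X => κ z.1 {z.2} := by
  let κ' : Kernel (X × X) X := κ.comap Prod.fst measurable_fst
  have h := Kernel.measurable_kernel_prodMk_left (κ := κ')
    (t := {p : (X × X) × X | p.1.2 = p.2})
    (measurableSet_eq_fun (measurable_snd.comp measurable_fst) measurable_snd)
  convert h using 2 with z
  simp only [κ', Kernel.comap_apply]
  congr 1
  ext y
  simp [eq_comm]

omit [TopologicalSpace X] [MulAction G X] [HomSp X] in
/-- a finite combination of Dirac masses evaluated at a set -/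
theorem sum_dirac_apply (k : ℕ) (F : Finset X) (s : Set X) (hs : MeasurableSet s) :
    (∑ y ∈ F, ((k : ℝ≥0∞)⁻¹) • Measure.dirac y) s
      = ∑ y ∈ F, (k : ℝ≥0∞)⁻¹ * s.indicator 1 y := by
  rw [Measure.finsetSum_apply]
  refine Finset.sum_congr rfl fun y _ => ?_
  rw [Measure.smul_apply, Measure.dirac_apply' _ hs, smul_eq_mul]

theorem fib_eq_of {k : ℕ} {κ : Kernel X X} {x : X} {F : Finset X}
    (hF : κ x = ∑ y ∈ F, ((k : ℝ≥0∞)⁻¹) • Measure.dirac y) : fib κ x = F := by
  classical
  ext y
  simp only [fib, mem_ofPred_eq, hF, Finset.mem_coe]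
  rw [sum_dirac_apply k F {y} (measurableSet_singleton y)]
  rw [Ne, Finset.sum_eq_zero_iff]
  push Not
  constructor
  · rintro ⟨i, hi, h⟩
    by_cases h2 : i = y
    · rwa [← h2]
    · exfalso; apply h; rw [indicator_of_notMem (by simpa using h2), mul_zero]
  · intro h
    refine ⟨y, h, ?_⟩
    rw [indicator_of_mem (mem_singleton y)]
    simp

omit [SMulInvariantMeasure G X m] in
theorem fib_card {ν : Measure (X × X)} {k : ℕ} {κ : Kernel X X} (hF : Fib m ν k κ) :
    ∀ᵐ x ∂m, (fib κ x).Finite ∧ (fib κ x).ncard = k := by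
  filter_upwards [hF.fin] with x ⟨F, hc, hx⟩
  rw [fib_eq_of hx]
  exact ⟨F.finite_toSet, by rw [Set.ncard_coe_finset, hc]⟩

omit [SMulInvariantMeasure G X m] in
theorem ae_fib {ν : Measure (X × X)} {k : ℕ} {κ : Kernel X X} (hF : Fib m ν k κ)
    {p : X × X → Prop} (h : ∀ᵐ z ∂ν, p z) : ∀ᵐ x ∂m, ∀ y ∈ fib κ x, p (x, y) := by
  have := hF.markov
  rw [← hF.comp] at h
  filter_upwards [Measure.ae_ae_of_ae_compProd h] with x hx y hy
  by_contra hc
  apply hy
  refine measure_mono_null ?_ (ae_iff.1 hx)
  intro y' hy'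
  rw [mem_singleton_iff.1 hy']
  exact hc

theorem fib_of_map {κ : Kernel X X} {x : X} {g h : G}
    (hx : κ (g • x) = (κ x).map (fun y => h • y)) :
    fib κ (g • x) = (fun y => h • y) '' fib κ x := by
  ext y
  have hhm : Measurable (fun x : X => h • x) := measurable_const_smul _
  simp only [fib, mem_ofPred_eq, mem_image, hx]
  rw [Measure.map_apply hhm (measurableSet_singleton y)]
  have e : (fun x : X => h • x) ⁻¹' {y} = {h⁻¹ • y} := by
    ext z; simp [eq_inv_smul_iff]
  rw [e]
  constructor
  · intro hy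
    exact ⟨h⁻¹ • y, hy, by simp⟩
  · rintro ⟨z, hz, rfl⟩
    simpa using hz

/-- equivariance of the fibres under symmetries of `ν` -/
theorem fib_equiv {ν : Measure (X × X)} {k : ℕ} {κ : Kernel X X} (hF : Fib m ν k κ) (g h : G)
    (hinv : ν.map (fun z => (g • z.1, h • z.2)) = ν) :
    ∀ᵐ x ∂m, fib κ (g • x) = (fun y => h • y) '' fib κ x := by
  have := hF.markov
  filter_upwards [ker_equiv m κ hF.comp g h hinv] with x hx
  exact fib_of_map hx

/-- converse: equivariant fibres give a symmetry of `ν` -/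
theorem inv_of_fib {ν : Measure (X × X)} {k : ℕ} {κ : Kernel X X} (hF : Fib m ν k κ) (g : G)
    (h : ∀ᵐ x ∂m, (fun y => g • y) '' fib κ x ⊆ fib κ (g • x)) :
    ν.map (fun z => g • z) = ν := by
  classical
  have := hF.markov
  have hgm : Measurable (fun x : X => g • x) := measurable_const_smul _
  have hΦ : Measurable (fun z : X × X => g • z) := measurable_const_smul _
  have hmp : MeasurePreserving (fun x : X => g • x) m m := measurePreserving_smul g m
  have hfin := hF.fin
  have hfin' := hmp.quasiMeasurePreserving.ae hfin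
  have key : ∀ᵐ x ∂m, κ (g • x) = (κ x).map (fun y => g • y) := by
    filter_upwards [hfin, hfin', h] with x ⟨F, hc, hx⟩ ⟨F', hc', hx'⟩ hsub
    rw [fib_eq_of hx, fib_eq_of hx'] at hsub
    have e : F' = F.image (fun y => g • y) := by
      symm
      apply Finset.eq_of_subset_of_card_le
      · intro y hy
        rw [Finset.mem_image] at hy
        obtain ⟨z, hz, rfl⟩ := hy
        exact hsub ⟨z, hz, rfl⟩
      · rw [Finset.card_image_of_injective _ (MulAction.injective g), hc, hc']
    rw [hx', hx, e, Finset.sum_image (fun a _ b _ hab => MulAction.injective g hab)]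
    ext s hs
    rw [Measure.map_apply hgm hs, Measure.finsetSum_apply, Measure.finsetSum_apply]
    refine Finset.sum_congr rfl fun y _ => ?_
    rw [Measure.smul_apply, Measure.smul_apply, Measure.dirac_apply' _ hs,
      Measure.dirac_apply' _ (hgm hs)]
    rfl
  rw [← hF.comp]
  ext s hs
  rw [Measure.map_apply hΦ hs, Measure.compProd_apply (hΦ hs), Measure.compProd_apply hs,
    ← hmp.lintegral_comp (Kernel.measurable_kernel_prodMk_left hs)]
  refine lintegral_congr_ae ?_
  filter_upwards [key] with x hx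
  rw [hx, Measure.map_apply hgm (measurable_prodMk_left hs)]
  rfl

omit [TopologicalSpace X] [MulAction G X] [HomSp X] in
theorem exists_countable_pi [MeasurableSpace.CountablyGenerated X] : ∃ B : Set (Set X),
    B.Countable ∧ (‹MeasurableSpace X› = MeasurableSpace.generateFrom B) ∧ IsPiSystem B ∧
    ∀ b ∈ B, MeasurableSet b := by
  let C := MeasurableSpace.countableGeneratingSet X
  have hC : C.Countable := MeasurableSpace.countable_countableGeneratingSet
  have hCg : MeasurableSpace.generateFrom C = ‹MeasurableSpace X› :=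
    MeasurableSpace.generateFrom_countableGeneratingSet
  have hCm : ∀ b ∈ C, MeasurableSet b := by
    intro b hb
    rw [← hCg]
    exact MeasurableSpace.measurableSet_generateFrom hb
  have hBm : ∀ b ∈ sInter '' {F : Set (Set X) | F.Finite ∧ F ⊆ C}, MeasurableSet b := by
    rintro _ ⟨F, hF, rfl⟩
    exact hF.1.measurableSet_sInter fun t ht => hCm t (hF.2 ht)
  refine ⟨sInter '' {F : Set (Set X) | F.Finite ∧ F ⊆ C},
    (Set.countable_ofPred_finite_subset hC).image _, ?_, ?_, hBm⟩
  · apply le_antisymm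
    · conv_lhs => rw [← hCg]
      refine MeasurableSpace.generateFrom_mono ?_
      intro b hb
      exact ⟨{b}, ⟨finite_singleton b, by simpa using hb⟩, sInter_singleton b⟩
    · exact MeasurableSpace.generateFrom_le hBm
  · rintro _ ⟨F, hF, rfl⟩ _ ⟨F', hF', rfl⟩ _
    exact ⟨F ∪ F', ⟨hF.1.union hF'.1, union_subset hF.2 hF'.2⟩, sInter_union F F'⟩

/-- joint measurability -/
theorem ker_equiv_param {ν : Measure (X × X)} (κ : Kernel X X) [IsMarkovKernel κ]
    (hc : m.compProd κ = ν) {P : Type*} [MeasurableSpace P] (θ : Measure P) [SFinite θ]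
    (φ : P → G) (hφ : Measurable φ) (hinv : ∀ p : P, ν.map (fun z => φ p • z) = ν) :
    ∀ᵐ x ∂m, ∀ᵐ p ∂θ, κ (φ p • x) = (κ x).map (fun y => φ p • y) := by
  classical
  -- countable generating pi system
  obtain ⟨B, hBc, hBg, hBp, hBm⟩ := exists_countable_pi (X := X)
  have hact : Measurable fun q : X × P => φ q.2 • q.1 :=
    (hφ.comp measurable_snd).smul measurable_fst
  have hE : ∀ b ∈ B, MeasurableSet {q : X × P | κ (φ q.2 • q.1) b
      = κ q.1 ((fun y => φ q.2 • y) ⁻¹' b)} := by
    intro b hb
    refine measurableSet_eq_fun ((Kernel.measurable_coe κ (hBm b hb)).comp hact) ?_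
    let κ' : Kernel (X × P) X := κ.comap Prod.fst measurable_fst
    have h := Kernel.measurable_kernel_prodMk_left (κ := κ')
      (t := {r : (X × P) × X | φ r.1.2 • r.2 ∈ b})
      (((hφ.comp (measurable_snd.comp measurable_fst)).smul measurable_snd) (hBm b hb))
    exact h
  have hall : ∀ᵐ x ∂m, ∀ᵐ p ∂θ, ∀ b ∈ B, κ (φ p • x) b = κ x ((fun y => φ p • y) ⁻¹' b) := by
    have h1 : ∀ b ∈ B, ∀ᵐ x ∂m, ∀ᵐ p ∂θ, κ (φ p • x) b = κ x ((fun y => φ p • y) ⁻¹' b) := by
      intro b hb
      rw [Measure.ae_ae_comm (hE b hb)]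
      refine Eventually.of_forall fun p => ?_
      filter_upwards [ker_equiv m κ hc (φ p) (φ p) (hinv p)] with x hx
      rw [hx, Measure.map_apply (measurable_const_smul _) (hBm b hb)]
    have h2 := (ae_ball_iff hBc).2 h1
    filter_upwards [h2] with x hx
    exact (ae_ball_iff hBc).2 hx
  filter_upwards [hall] with x hx
  filter_upwards [hx] with p hp
  have h1 : IsProbabilityMeasure ((κ x).map (fun y => φ p • y)) :=
    Measure.isProbabilityMeasure_map (measurable_const_smul _).aemeasurable
  refine ext_of_generate_finite B hBg hBp (fun b hb => ?_) (by simp)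
  rw [hp b hb, Measure.map_apply (measurable_const_smul _) (hBm b hb)]

theorem fib_equiv_time {ν : Measure (X × X)} {k : ℕ} {κ : Kernel X X} (hF : Fib m ν k κ)
    (hU : ∀ s : ℝ, ν.map (fun z => u s • z) = ν) :
    ∀ᵐ x ∂m, ∀ᵐ s : ℝ, fib κ (u s • x) = (fun y => u s • y) '' fib κ x := by
  have := hF.markov
  filter_upwards [ker_equiv_param m κ hF.comp volume u continuous_u.measurable hU] with x hx
  filter_upwards [hx] with s hs
  exact fib_of_map hs

/-- the same over the whole group, for a Haar measure `lam` -/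
theorem fib_equiv_group {ν : Measure (X × X)} {k : ℕ} {κ : Kernel X X} (hF : Fib m ν k κ)
    (lam : Measure G) [lam.IsHaarMeasure]
    (hG : ∀ g : G, ν.map (fun z => g • z) = ν) :
    ∀ᵐ x ∂m, ∀ᵐ g ∂lam, fib κ (g • x) = (fun y => g • y) '' fib κ x := by
  have := hF.markov
  filter_upwards [ker_equiv_param m κ hF.comp lam (fun g => g) measurable_id hG] with x hx
  filter_upwards [hx] with s hs
  exact fib_of_map hs

/-- sections of the shearing set are countable -/
theorem section_countable {K : Set (X × X)} {r0 : ℝ} (hr0 : 0 < r0)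
    (hK : ∀ (x y : X) (w : G), (x, y) ∈ K → (x, w • y) ∈ K → nrm w ≤ r0 → w • y = y) (x : X) :
    {y | (x, y) ∈ K}.Countable := by
  have hd : DiscreteTopology {y | (x, y) ∈ K} := by
    rw [discreteTopology_subtype_iff]
    intro y hy
    have hV := smul_mem_nhds y (nrm_mem r0 hr0)
    rw [← Filter.empty_mem_iff_bot]
    have h1 : {z | z ≠ y} ∈ 𝓝[≠] y ⊓ 𝓟 {y | (x, y) ∈ K} :=
      mem_inf_of_left self_mem_nhdsWithin
    have h2 : {y | (x, y) ∈ K} ∈ 𝓝[≠] y ⊓ 𝓟 {y | (x, y) ∈ K} :=
      mem_inf_of_right (mem_principal_self _)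
    have h3 : (fun g : G => g • y) '' {g | nrm g < r0} ∈ 𝓝[≠] y ⊓ 𝓟 {y | (x, y) ∈ K} :=
      mem_inf_of_left (mem_nhdsWithin_of_mem_nhds hV)
    filter_upwards [h1, h2, h3] with z hz1 hz2 hz3
    obtain ⟨w, hw, rfl⟩ := hz3
    exact hz1 (hK x y w hy hz2 (le_of_lt hw))
  exact countable_of_Lindelof_of_discrete (X := {y | (x, y) ∈ K})

theorem exists_fib {ν : Measure (X × X)} (hg : IsGen ν) (hj : IsJoin m ν)
    (hp : ν ≠ m.prod m) : ∃ (k : ℕ) (κ : Kernel X X), Fib m ν k κ := by
  classical
  have := hj.prob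
  have hne : Nonempty X := nonempty_of_isProbabilityMeasure m
  let κ : Kernel X X := ν.condKernel
  have hmk : IsMarkovKernel κ := inferInstanceAs (IsMarkovKernel ν.condKernel)
  have hc : m.compProd κ = ν := by
    have h := ν.disintegrate ν.condKernel
    rwa [Measure.fst, hj.fst] at h
  have hF : Measurable fun z : X × X => (κ z.1 {z.2}).toReal := (measurable_atom κ).ennreal_toReal
  obtain ⟨c, hcc⟩ := gen_const hg hF (by
    intro s
    have h1 := ker_equiv m κ hc (u s) (u s) (gen_inv hg s)
    rw [← hj.fst] at h1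
    have h2 := ae_of_ae_map measurable_fst.aemeasurable h1
    filter_upwards [h2] with z hz
    have hhm : Measurable (fun x : X => u s • x) := measurable_const_smul _
    change (κ (u s • z.1) {u s • z.2}).toReal = _
    rw [hz, Measure.map_apply hhm (measurableSet_singleton _)]
    congr 2
    ext y
    simp)
  let C : ℝ≥0∞ := ENNReal.ofReal c
  have hC : ∀ᵐ z ∂(m.compProd κ), κ z.1 {z.2} = C := by
    rw [hc]
    filter_upwards [hcc] with z hz
    simp only [C, ← hz]
    rw [ENNReal.ofReal_toReal (measure_ne_top _ _)]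
  have hC2 : ∀ᵐ x ∂m, ∀ᵐ y ∂(κ x), κ x {y} = C := Measure.ae_ae_of_ae_compProd hC
  have hC0 : C ≠ 0 := by
    intro h0
    obtain ⟨K, hKc, hK0, r0, hr0, hKr⟩ := shear m hg hj hp
    apply hK0
    rw [← hc, Measure.compProd_apply hKc.measurableSet]
    rw [lintegral_eq_zero_iff (Kernel.measurable_kernel_prodMk_left hKc.measurableSet)]
    filter_upwards [hC2] with x hx
    change κ x {y | (x, y) ∈ K} = 0
    rw [← biUnion_of_singleton {y | (x, y) ∈ K},
      measure_biUnion_null_iff (section_countable hr0 hKr x)]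
    intro y _
    by_contra hy
    apply hy
    have : ∃ y' ∈ ({y} : Set X), κ x {y'} = C := by
      by_contra hcon
      push Not at hcon
      apply hy
      refine measure_mono_null ?_ (ae_iff.1 hx)
      intro y' hy'
      exact hcon y' hy'
    obtain ⟨y', hy', h⟩ := this
    rw [mem_singleton_iff.1 hy'] at h
    rw [h, h0]
  have hfin : ∀ᵐ x ∂m, ∃ F : Finset X, (F.card : ℝ≥0∞) * C = 1 ∧
      κ x = ∑ y ∈ F, C • Measure.dirac y := by
    filter_upwards [hC2] with x hx
    have hfinite : {y | κ x {y} = C}.Finite := by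
      by_contra hinf
      obtain ⟨n, hn⟩ := ENNReal.exists_nat_mul_gt hC0 ENNReal.one_ne_top
      obtain ⟨t, ht, htn⟩ := Set.Infinite.exists_subset_card_eq hinf n
      have h1 : κ x (t : Set X) = n * C := by
        rw [← sum_measure_singleton, Finset.sum_congr rfl (fun y hy => (ht hy : κ x {y} = C)),
          Finset.sum_const, htn, nsmul_eq_mul]
      have h2 : κ x (t : Set X) ≤ 1 := prob_le_one
      rw [h1] at h2
      exact absurd hn (not_lt.2 h2)
    let F := hfinite.toFinset
    have hFm : ∀ y, y ∈ F ↔ κ x {y} = C := fun y => by simp [F]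
    have hFc : κ x (F : Set X)ᶜ = 0 := by
      refine measure_mono_null ?_ (ae_iff.1 hx)
      intro y hy hy'
      apply hy
      exact Finset.mem_coe.2 ((hFm y).2 hy')
    have hkx : κ x = ∑ y ∈ F, C • Measure.dirac y := by
      ext s hs
      have h1 : κ x s = κ x (s ∩ F) := by
        rw [← measure_inter_add_sdiff s (Finset.measurableSet F)]
        rw [measure_mono_null (sdiff_subset_compl s (F : Set X)) hFc, add_zero]
      have h2 : s ∩ (F : Set X) = ((F.filter (· ∈ s) : Finset X) : Set X) := by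
        ext y; simp [and_comm]
      rw [h1, h2, ← sum_measure_singleton, Measure.finsetSum_apply, Finset.sum_filter]
      refine Finset.sum_congr rfl fun y hy => ?_
      rw [Measure.smul_apply, Measure.dirac_apply' _ hs, smul_eq_mul, (hFm y).1 hy]
      by_cases hys : y ∈ s <;> simp [hys]
    refine ⟨F, ?_, hkx⟩
    have h1 : κ x univ = 1 := measure_univ
    rw [hkx, Measure.finsetSum_apply] at h1
    simpa using h1
  obtain ⟨x0, F0, hF0, -⟩ := hfin.exists
  have hkpos : 0 < F0.card := by
    rw [Nat.pos_iff_ne_zero]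
    intro h
    rw [h] at hF0
    simp at hF0
  have hCk : C = (F0.card : ℝ≥0∞)⁻¹ := by
    rw [mul_comm] at hF0
    exact ENNReal.eq_inv_of_mul_eq_one_left hF0
  refine ⟨F0.card, κ, hmk, hkpos, hc, ?_⟩
  filter_upwards [hfin] with x ⟨F, hF1, hF2⟩
  refine ⟨F, ?_, by rw [← hCk]; exact hF2⟩
  have h1 : C = (F.card : ℝ≥0∞)⁻¹ := by
    rw [mul_comm] at hF1
    exact ENNReal.eq_inv_of_mul_eq_one_left hF1
  rw [h1] at hCk
  have := inv_injective hCk
  exact_mod_cast this

end Pool.Agent.Work.MP_c9c104_nt
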