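import Pool.Agent.Work.MP_c9c104_nt.Basic

/-!
Null sets in SL(2,R).
-/

open MeasureTheory Filter Topology Set ProbabilityTheory
open scoped ENNReal NNReal

namespace Pool.Agent.Work.MP_c9c104_nt

variable {X : Type} [TopologicalSpace X] [MeasurableSpace X] [MulAction G X] [HomSp X]
variable {Z : Type} [TopologicalSpace Z] [MeasurableSpace Z] [MulAction G Z] [PhSp Z]

theorem null_borel (lam : Measure G) [lam.IsHaarMeasure] (g0 : G) :
    lam {g : G | (g * g0) 1 0 = 0} = 0 := by
  have hcl : IsClosed {g : G | (g * g0) 1 0 = 0} :=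
    isClosed_eq ((continuous_entry 1 0).comp (continuous_id.mul continuous_const)) continuous_const
  have hmeas : ∀ r : ℝ, MeasurableSet ((fun g : G => v (-r) * g) ⁻¹' {g : G | (g * g0) 1 0 = 0}) :=
    fun r => (hcl.preimage (continuous_const.mul continuous_id)).measurableSet
  have hdisj : Pairwise (Function.onFun Disjoint
      fun r : ℝ => (fun g : G => v (-r) * g) ⁻¹' {g : G | (g * g0) 1 0 = 0}) := by
    intro r s hrs
    rw [Function.onFun, Set.disjoint_left]
    intro g hr hs
    have hr' : (v (-r) * g * g0) 1 0 = 0 := hr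
    have hs' : (v (-s) * g * g0) 1 0 = 0 := hs
    rw [mul_assoc] at hr' hs'
    have hd := G_det (g * g0)
    rw [mul10] at hr' hs'
    simp only [v10, v11, one_mul] at hr' hs'
    have h1 : (s - r) * (g * g0) 0 0 = 0 := by linear_combination hr' - hs'
    rcases mul_eq_zero.1 h1 with h2 | h2
    · exact hrs (by linarith)
    · rw [h2] at hr' hd
      simp only [mul_zero, zero_add, zero_mul, zero_sub] at hr' hd
      rw [hr'] at hd
      simp at hd
  have hc := Measure.countable_meas_pos_of_disjoint_iUnion (μ := lam) hmeas hdisj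
  by_contra hne
  have hpos : 0 < lam {g : G | (g * g0) 1 0 = 0} := pos_iff_ne_zero.2 hne
  have huniv : {r : ℝ | 0 < lam ((fun g : G => v (-r) * g) ⁻¹' {g : G | (g * g0) 1 0 = 0})} =
      univ := by
    ext r
    simp only [mem_univ, iff_true]
    change 0 < lam ((fun g : G => v (-r) * g) ⁻¹' {g : G | (g * g0) 1 0 = 0})
    rw [measure_preimage_mul]
    exact hpos
  rw [huniv] at hc
  exact Cardinal.not_countable_real hc

/-- for `δ ≠ 1` almost no conjugate of `δ` is in the group `U` -/
theorem null_conj (lam : Measure G) [lam.IsHaarMeasure] (δ : G) (hδ : δ ≠ 1) :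
    ∀ᵐ g ∂lam, ∀ c : ℝ, g * δ * g⁻¹ ≠ u c := by
  by_cases hex : ∃ g0 : G, ∃ c0 : ℝ, g0 * δ * g0⁻¹ = u c0
  · obtain ⟨g0, c0, h0⟩ := hex
    have hc0 : c0 ≠ 0 := by
      rintro rfl
      apply hδ
      rw [u_zero] at h0
      have h1 : g0 * δ = g0 := by
        rw [mul_inv_eq_one] at h0; exact h0
      simpa using h1
    have hnull := null_borel lam g0⁻¹
    have hsub : {g : G | ¬ ∀ c : ℝ, g * δ * g⁻¹ ≠ u c} ⊆ {g : G | (g * g0⁻¹) 1 0 = 0} := by
      intro g hg
      have hg' : ¬ ∀ c : ℝ, g * δ * g⁻¹ ≠ u c := hg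
      push Not at hg'
      obtain ⟨c, hc⟩ := hg'
      have h1 : (g * g0⁻¹) * u c0 = u c * (g * g0⁻¹) := by
        rw [← h0, ← hc]; group
      have h2 := congrArg (fun k : G => k 1 1) h1
      simp only [mul11 (g * g0⁻¹) (u c0), mul11 (u c) (g * g0⁻¹), u01, u11, u10, mul_one,
        zero_mul, one_mul, zero_add] at h2
      have h3 : (g * g0⁻¹) 1 0 * c0 = 0 := by linarith
      rcases mul_eq_zero.1 h3 with h4 | h4
      · exact h4
      · exact absurd h4 hc0
    rw [ae_iff]
    exact measure_mono_null hsub hnull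
  · push Not at hex
    exact Filter.Eventually.of_forall fun g c => hex g c

end Pool.Agent.Work.MP_c9c104_nt
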