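import Pool.Agent.Work.MP_c9c104_nt.OrbBasic
import Pool.Agent.Work.MP_c9c104_nt.Unfold
import Pool.Agent.Work.MP_c9c104_nt.NullU
import Pool.Agent.Work.MP_c9c104_nt.Poly

/-!
Linearization near a finite orbit.
-/

open MeasureTheory Filter Topology Set ProbabilityTheory
open scoped ENNReal NNReal

namespace Pool.Agent.Work.MP_c9c104_nt

variable {X : Type} [TopologicalSpace X] [MeasurableSpace X] [MulAction G X] [HomSp X]
variable {Z : Type} [TopologicalSpace Z] [MeasurableSpace Z] [MulAction G Z] [PhSp Z]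

/-- neighbourhood of the segment `u c`, `|c| ≤ S` -/
def linN (r S : ℝ) : Set G :=
  {W | |W 0 0 - 1| ≤ r ∧ |W 1 1 - 1| ≤ r ∧ |W 1 0| ≤ r ∧ |W 0 1| ≤ S}

theorem linN_compact (r S : ℝ) : IsCompact (linN r S) := by
  have c := continuous_entry
  refine (isCompact_bdd (max (1 + r) S)).of_isClosed_subset ?_ ?_
  · refine (isClosed_le ((c 0 0).sub continuous_const).abs continuous_const).inter
      ((isClosed_le ((c 1 1).sub continuous_const).abs continuous_const).inter
      ((isClosed_le (c 1 0).abs continuous_const).inter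
      (isClosed_le (c 0 1).abs continuous_const)))
  · rintro W ⟨h1, h2, h3, h4⟩
    have m1 : 1 + r ≤ max (1 + r) S := le_max_left _ _
    have m2 : S ≤ max (1 + r) S := le_max_right _ _
    have hr : 0 ≤ r := (abs_nonneg _).trans h1
    have t1 := abs_le.1 h1
    have t2 := abs_le.1 h2
    intro i j
    fin_cases i <;> fin_cases j
    · show |W 0 0| ≤ _
      rw [abs_le]; constructor <;> linarith
    · show |W 0 1| ≤ _
      linarith
    · show |W 1 0| ≤ _
      linarith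
    · show |W 1 1| ≤ _
      rw [abs_le]; constructor <;> linarith

/-- products stay in a slightly larger neighbourhood -/
theorem linN_mul {r r1 S1 : ℝ} (hS1 : 1 ≤ S1) (hr1 : 0 ≤ r1) (hr1' : r1 ≤ 1)
    (hr : (4 + S1) * r1 ≤ r) {W W' : G} (h : W ∈ linN r1 S1) (h' : W' ∈ linN r1 S1) :
    W⁻¹ * W' ∈ linN r (4 * S1) := by
  obtain ⟨a1, a2, a3, a4⟩ := h
  obtain ⟨b1, b2, b3, b4⟩ := h'
  obtain ⟨x, hx⟩ : ∃ x, x = W 0 0 - 1 := ⟨_, rfl⟩
  obtain ⟨y, hy⟩ : ∃ y, y = W 1 1 - 1 := ⟨_, rfl⟩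
  obtain ⟨x', hx'⟩ : ∃ x, x = W' 0 0 - 1 := ⟨_, rfl⟩
  obtain ⟨y', hy'⟩ : ∃ y, y = W' 1 1 - 1 := ⟨_, rfl⟩
  rw [← hx] at a1
  rw [← hy] at a2
  rw [← hx'] at b1
  rw [← hy'] at b2
  have e1 : W 0 0 = 1 + x := by rw [hx]; ring
  have e2 : W 1 1 = 1 + y := by rw [hy]; ring
  have e3 : W' 0 0 = 1 + x' := by rw [hx']; ring
  have e4 : W' 1 1 = 1 + y' := by rw [hy']; ring
  have mulb : ∀ p q P Q : ℝ, |p| ≤ P → |q| ≤ Q → |p * q| ≤ P * Q := by
    intro p q P Q hp hq
    rw [abs_mul]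
    exact mul_le_mul hp hq (abs_nonneg _) ((abs_nonneg _).trans hp)
  refine ⟨?_, ?_, ?_, ?_⟩
  · simp only [mul00, inv00, inv01, e2, e3]
    have h1 := abs_le.1 (mulb _ _ _ _ a2 b1)
    have h2 := abs_le.1 (mulb _ _ _ _ a4 b3)
    have h3 := abs_le.1 a2
    have h4 := abs_le.1 b1
    rw [abs_le]
    constructor <;> nlinarith
  · simp only [mul11, inv10, inv11, e1, e4]
    have h1 := abs_le.1 (mulb _ _ _ _ a3 b4)
    have h2 := abs_le.1 (mulb _ _ _ _ a1 b2)
    have h3 := abs_le.1 a1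
    have h4 := abs_le.1 b2
    rw [abs_le]
    constructor <;> nlinarith
  · simp only [mul10, inv10, inv11, e1, e3]
    have h1 := abs_le.1 (mulb _ _ _ _ a3 b1)
    have h2 := abs_le.1 (mulb _ _ _ _ a1 b3)
    have h3 := abs_le.1 a3
    have h4 := abs_le.1 b3
    rw [abs_le]
    constructor <;> nlinarith
  · simp only [mul01, inv00, inv01, e2, e4]
    have h1 := abs_le.1 (mulb _ _ _ _ a2 b4)
    have h2 := abs_le.1 (mulb _ _ _ _ a4 b2)
    have h3 := abs_le.1 a4
    have h4 := abs_le.1 b4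
    rw [abs_le]
    constructor <;> nlinarith

/-- limits of bounded displacements -/
theorem lin_lim {ι : Type} (l : Ultrafilter ι) {W : ι → G} {W0 : G} {a1 a2 : X}
    (hW : Tendsto W l (𝓝 W0)) (h1 : ∀ᶠ i in (l : Filter ι), W i • a2 = a1)
    (h2 : ∀ᶠ i in (l : Filter ι), W i ≠ 1) : W0 • a2 = a1 ∧ W0 ≠ 1 := by
  have hc : Continuous fun h : G => h • a2 := continuous_id.smul continuous_const
  have h3 : W0 • a2 = a1 := by
    have ht : Tendsto (fun i => W i • a2) l (𝓝 (W0 • a2)) := (hc.tendsto W0).comp hW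
    have hcst : Tendsto (fun i => W i • a2) l (𝓝 a1) :=
      tendsto_const_nhds.congr' (h1.mono fun i hi => hi.symm)
    exact tendsto_nhds_unique ht hcst
  refine ⟨h3, ?_⟩
  rintro rfl
  rw [one_smul] at h3
  subst h3
  obtain ⟨ε, hε, hd⟩ := DiscStab.disc a2
  obtain ⟨i, hi⟩ := ((hW.eventually (nrm_mem ε hε)).and (h1.and h2)).exists
  exact hi.2.2 (hd _ hi.2.1 hi.1)

/-- an ultrafilter is constant on a finite set -/
theorem lin_ultra {ι α : Type} (l : Ultrafilter ι) {f : ι → α} {F : Set α} (hF : F.Finite)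
    (h : ∀ᶠ i in (l : Filter ι), f i ∈ F) : ∃ a ∈ F, ∀ᶠ i in (l : Filter ι), f i = a := by
  have h1 : ⋃ a ∈ F, {i | f i = a} ∈ l := by
    refine Filter.mem_of_superset h ?_
    intro i hi
    exact mem_biUnion (show f i ∈ F from hi) rfl
  rw [Ultrafilter.finite_biUnion_mem_iff hF] at h1
  exact h1

/-- base points over which two points of the fibre are close along the flow direction -/
def linBad (O : Set (X × X)) (r S : ℝ) : Set X :=
  {x | ∃ y1 y2 : X, ∃ W : G, (x, y1) ∈ O ∧ (x, y2) ∈ O ∧ W ≠ 1 ∧ W ∈ linN r S ∧ W • y2 = y1}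

theorem linBad_closed {O : Set (X × X)} (hO : FinOrb O) (r S : ℝ) :
    IsClosed (linBad O r S) := by
  rw [isClosed_iff_ultrafilter]
  intro x l hl hmem
  have hmem' : ∀ᶠ x' in (l : Filter X), x' ∈ linBad O r S := hmem
  obtain ⟨g, hg, hgx⟩ := exists_small x (l := (l : Filter X)) (y := fun x' => x')
    (tendsto_id'.2 hl)
  have hch : ∀ x' : X, ∃ y1 y2 : X, ∃ W : G, x' ∈ linBad O r S →
      ((x', y1) ∈ O ∧ (x', y2) ∈ O ∧ W ≠ 1 ∧ W ∈ linN r S ∧ W • y2 = y1) := by
    intro x'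
    by_cases h : x' ∈ linBad O r S
    · obtain ⟨y1, y2, W, h1⟩ := h
      exact ⟨y1, y2, W, fun _ => h1⟩
    · exact ⟨x', x', 1, fun h' => absurd h' h⟩
  choose y1 y2 W hW using hch
  obtain ⟨k, hk, hfib⟩ := finOrb_fibre hO
  have hfin := (hfib x).1
  have hpull : ∀ x' y' : X, (x', y') ∈ O → (x, (g x')⁻¹ • y') ∈ O := by
    intro x' y' h
    have h1 := (finOrb_smul hO (g x')⁻¹ (x', y')).2 h
    have h2 : (g x')⁻¹ • (x', y') = (x, (g x')⁻¹ • y') := by
      rw [Prod.smul_mk]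
      congr 1
      rw [inv_smul_eq_iff]
      exact hgx x'
    rw [h2] at h1
    exact h1
  obtain ⟨a1, ha1, hc1⟩ := lin_ultra l (f := fun x' => (g x')⁻¹ • y1 x') hfin
    (hmem'.mono fun x' hx' => hpull _ _ (hW x' hx').1)
  obtain ⟨a2, ha2, hc2⟩ := lin_ultra l (f := fun x' => (g x')⁻¹ • y2 x') hfin
    (hmem'.mono fun x' hx' => hpull _ _ (hW x' hx').2.1)
  obtain ⟨W0, hW0, hlim⟩ := (linN_compact r S).ultrafilter_le_nhds (l.map W) (by
    rw [le_principal_iff]
    exact hmem'.mono fun x' hx' => (hW x' hx').2.2.2.1)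
  have hlim' : Tendsto W l (𝓝 W0) := hlim
  have hlim2 : Tendsto (fun x' => (g x')⁻¹ * W x' * g x') l (𝓝 W0) := by
    have := (hg.inv.mul hlim').mul hg
    simpa using this
  obtain ⟨e1, e2⟩ := lin_lim l (a1 := a1) (a2 := a2) hlim2 (by
    filter_upwards [hmem', hc1, hc2] with x' h1 h2 h3
    have h4 := (hW x' h1).2.2.2.2
    rw [← h2, ← h3, mul_smul, mul_smul, smul_inv_smul, h4]) (by
    filter_upwards [hmem'] with x' h1 h2
    have h4 := (hW x' h1).2.2.1
    apply h4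
    have : W x' = g x' * ((g x')⁻¹ * W x' * g x') * (g x')⁻¹ := by group
    rw [this, h2]
    group)
  exact ⟨a1, a2, W0, ha1, ha2, e2, hW0, e1⟩

omit [TopologicalSpace X] [MeasurableSpace X] [HomSp X] in
theorem linBad_antitone (O : Set (X × X)) (S : ℝ) :
    Antitone fun n : ℕ => linBad O (1 / ((n : ℝ) + 1)) S := by
  rintro i j hij x ⟨y1, y2, W, h1, h2, h3, ⟨h4, h5, h6, h7⟩, h8⟩
  have h : (1 : ℝ) / ((j : ℝ) + 1) ≤ 1 / ((i : ℝ) + 1) := by
    have : (i : ℝ) ≤ j := by exact_mod_cast hij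
    exact one_div_le_one_div_of_le (by positivity) (by linarith)
  exact ⟨y1, y2, W, h1, h2, h3, ⟨h4.trans h, h5.trans h, h6.trans h, h7⟩, h8⟩

theorem linBad_iInter {O : Set (X × X)} (hO : FinOrb O) (S : ℝ) :
    ⋂ n : ℕ, linBad O (1 / ((n : ℝ) + 1)) S ⊆ linBad O 0 S := by
  intro x hx
  rw [mem_iInter] at hx
  choose y1 y2 W h1 h2 h3 h4 h5 using hx
  set l : Ultrafilter ℕ := hyperfilter ℕ with hl
  have hUtop : (l : Filter ℕ) ≤ atTop := by
    rw [← Nat.cofinite_eq_atTop]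
    exact hyperfilter_le_cofinite
  have hnat : Tendsto (fun n : ℕ => 1 / ((n : ℝ) + 1)) l (𝓝 0) :=
    tendsto_one_div_add_atTop_nhds_zero_nat.mono_left hUtop
  obtain ⟨k, hk, hfib⟩ := finOrb_fibre hO
  have hfin := (hfib x).1
  obtain ⟨a1, ha1, hc1⟩ := lin_ultra l (f := y1) hfin (Filter.Eventually.of_forall h1)
  obtain ⟨a2, ha2, hc2⟩ := lin_ultra l (f := y2) hfin (Filter.Eventually.of_forall h2)
  have hle1 : ∀ n : ℕ, (1 : ℝ) / ((n : ℝ) + 1) ≤ 1 := by
    intro n
    rw [div_le_one (by positivity)]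
    linarith [Nat.cast_nonneg (α := ℝ) n]
  obtain ⟨W0, hW0, hlim⟩ := (linN_compact 1 S).ultrafilter_le_nhds (l.map W) (by
    rw [le_principal_iff]
    refine Filter.Eventually.of_forall (f := (l : Filter ℕ)) fun n => ?_
    obtain ⟨b1, b2, b3, b4⟩ := h4 n
    exact ⟨b1.trans (hle1 n), b2.trans (hle1 n), b3.trans (hle1 n), b4⟩)
  have hlim' : Tendsto W l (𝓝 W0) := hlim
  obtain ⟨e1, e2⟩ := lin_lim l (a1 := a1) (a2 := a2) hlim' (by
    filter_upwards [hc1, hc2] with n q1 q2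
    rw [← q1, ← q2]
    exact h5 n) (Filter.Eventually.of_forall h3)
  have c := continuous_entry
  refine ⟨a1, a2, W0, ha1, ha2, e2, ⟨?_, ?_, ?_, hW0.2.2.2⟩, e1⟩
  · exact le_of_tendsto_of_tendsto'
      (((((c 0 0).sub continuous_const).abs).tendsto W0).comp hlim') hnat (fun n => (h4 n).1)
  · exact le_of_tendsto_of_tendsto'
      (((((c 1 1).sub continuous_const).abs).tendsto W0).comp hlim') hnat (fun n => (h4 n).2.1)
  · exact le_of_tendsto_of_tendsto'
      (((c 1 0).abs.tendsto W0).comp hlim') hnat (fun n => (h4 n).2.2.1)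

/-- size of a displacement along the flow -/
noncomputable def linP (r1 S1 : ℝ) (W : G) (s : ℝ) : ℝ :=
  max (max (|(u s * W * u (-s)) 0 0 - 1| / r1) (|(u s * W * u (-s)) 1 1 - 1| / r1))
    (max (|(u s * W * u (-s)) 1 0| / r1) (|(u s * W * u (-s)) 0 1| / S1))

theorem linP_le {r1 S1 : ℝ} {W : G} {s R : ℝ} (hr : 0 < r1) (hS : 0 < S1) :
    linP r1 S1 W s ≤ R ↔ |(u s * W * u (-s)) 0 0 - 1| ≤ R * r1 ∧
      |(u s * W * u (-s)) 1 1 - 1| ≤ R * r1 ∧ |(u s * W * u (-s)) 1 0| ≤ R * r1 ∧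
      |(u s * W * u (-s)) 0 1| ≤ R * S1 := by
  unfold linP
  rw [max_le_iff, max_le_iff, max_le_iff, div_le_iff₀ hr, div_le_iff₀ hr, div_le_iff₀ hr,
    div_le_iff₀ hS, and_assoc]

theorem linP_continuous (r1 S1 : ℝ) (W : G) : Continuous (linP r1 S1 W) := by
  have c := continuous_entry
  have h : Continuous fun s : ℝ => u s * W * u (-s) :=
    (continuous_u.mul continuous_const).mul (continuous_u.comp continuous_neg)
  unfold linP
  exact (((((c 0 0).comp h).sub continuous_const).abs.div_const _).max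
    ((((c 1 1).comp h).sub continuous_const).abs.div_const _)).max
    (((c 1 0).comp h).abs.div_const _ |>.max (((c 0 1).comp h).abs.div_const _))

theorem linP_good {r1 S1 : ℝ} (hr : 0 < r1) (hS : 0 < S1) (W : G) {a b ρ' : ℝ} (hab : a < b)
    (hρ' : 0 ≤ ρ') (hs : ∃ s ∈ Icc a b, linP r1 S1 W s = 1) :
    volume {s ∈ Icc a b | linP r1 S1 W s ≤ ρ'} ≤ ENNReal.ofReal (4 * √ρ' * (b - a)) := by
  obtain ⟨s0, hs0, hP⟩ := hs
  have key : ∃ α β γ : ℝ, (∀ s, |α + β * s + γ * s ^ 2| ≤ linP r1 S1 W s) ∧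
      |α + β * s0 + γ * s0 ^ 2| = 1 := by
    have hdiv : ∀ (x c : ℝ), 0 < c → |x / c| = |x| / c := by
      intro x c hc
      rw [abs_div, abs_of_pos hc]
    have e1 : ∀ s, |(W 0 0 - 1) / r1 + W 1 0 / r1 * s + 0 * s ^ 2| =
        |(u s * W * u (-s)) 0 0 - 1| / r1 := by
      intro s
      rw [← hdiv _ _ hr, conj00]
      congr 1
      field_simp
      ring
    have e2 : ∀ s, |(W 1 1 - 1) / r1 + (-W 1 0 / r1) * s + 0 * s ^ 2| =
        |(u s * W * u (-s)) 1 1 - 1| / r1 := by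
      intro s
      rw [← hdiv _ _ hr, conj11]
      congr 1
      field_simp
      ring
    have e3 : ∀ s, |W 1 0 / r1 + 0 * s + 0 * s ^ 2| = |(u s * W * u (-s)) 1 0| / r1 := by
      intro s
      rw [← hdiv _ _ hr, conj10]
      congr 1
      ring
    have e4 : ∀ s, |W 0 1 / S1 + ((W 1 1 - W 0 0) / S1) * s + (-W 1 0 / S1) * s ^ 2| =
        |(u s * W * u (-s)) 0 1| / S1 := by
      intro s
      rw [← hdiv _ _ hS, conj01]
      congr 1
      field_simp
      ring
    have b1 : ∀ s, |(u s * W * u (-s)) 0 0 - 1| / r1 ≤ linP r1 S1 W s :=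
      fun s => le_max_of_le_left (le_max_left _ _)
    have b2 : ∀ s, |(u s * W * u (-s)) 1 1 - 1| / r1 ≤ linP r1 S1 W s :=
      fun s => le_max_of_le_left (le_max_right _ _)
    have b3 : ∀ s, |(u s * W * u (-s)) 1 0| / r1 ≤ linP r1 S1 W s :=
      fun s => le_max_of_le_right (le_max_left _ _)
    have b4 : ∀ s, |(u s * W * u (-s)) 0 1| / S1 ≤ linP r1 S1 W s :=
      fun s => le_max_of_le_right (le_max_right _ _)
    have hmax : (1 : ℝ) ≤ max (max (|(u s0 * W * u (-s0)) 0 0 - 1| / r1)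
        (|(u s0 * W * u (-s0)) 1 1 - 1| / r1))
        (max (|(u s0 * W * u (-s0)) 1 0| / r1) (|(u s0 * W * u (-s0)) 0 1| / S1)) := hP.ge
    rcases le_max_iff.1 hmax with h | h
    · rcases le_max_iff.1 h with h | h
      · exact ⟨_, _, _, fun s => (e1 s).trans_le (b1 s),
          le_antisymm ((e1 s0).trans_le ((b1 s0).trans hP.le)) (by rw [e1]; exact h)⟩
      · exact ⟨_, _, _, fun s => (e2 s).trans_le (b2 s),
          le_antisymm ((e2 s0).trans_le ((b2 s0).trans hP.le)) (by rw [e2]; exact h)⟩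
    · rcases le_max_iff.1 h with h | h
      · exact ⟨_, _, _, fun s => (e3 s).trans_le (b3 s),
          le_antisymm ((e3 s0).trans_le ((b3 s0).trans hP.le)) (by rw [e3]; exact h)⟩
      · exact ⟨_, _, _, fun s => (e4 s).trans_le (b4 s),
          le_antisymm ((e4 s0).trans_le ((b4 s0).trans hP.le)) (by rw [e4]; exact h)⟩
  obtain ⟨α, β, γ, h1, h2⟩ := key
  have h3 := quad_good α β γ a b 1 ρ' hab one_pos hρ' ⟨s0, hs0, h2.ge⟩
  rw [div_one] at h3
  refine le_trans (measure_mono ?_) h3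
  rintro s ⟨hs1, hs2⟩
  exact ⟨hs1, le_trans (h1 s) hs2⟩

/-- time spent where the cutoff vanishes -/
theorem lin_time {χ : ℝ → ℝ} (hχ : Continuous χ) (h01 : ∀ s, 0 ≤ χ s ∧ χ s ≤ 1) {M : ℝ}
    (hM : 0 < M) : volume {s ∈ Icc 0 M | χ s = 0} ≤
      ENNReal.ofReal (∫ s in (0 : ℝ)..M, (1 - χ s)) := by
  set D := {s ∈ Icc 0 M | χ s = 0} with hD
  have hDm : MeasurableSet D := measurableSet_Icc.inter (hχ.measurable (measurableSet_singleton 0))
  have hDfin : volume D ≠ ∞ := by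
    refine ne_top_of_le_ne_top (measure_Icc_lt_top (μ := volume) (a := (0 : ℝ)) (b := M)).ne ?_
    exact measure_mono fun s hs => hs.1
  rw [← ENNReal.ofReal_toReal hDfin]
  refine ENNReal.ofReal_le_ofReal ?_
  rw [intervalIntegral.integral_of_le hM.le, ← integral_Icc_eq_integral_Ioc]
  have hint : IntegrableOn (fun s => 1 - χ s) (Icc 0 M) :=
    (continuous_const.sub hχ).continuousOn.integrableOn_Icc
  calc (volume D).toReal = ∫ s in Icc 0 M, D.indicator (fun _ => (1 : ℝ)) s := by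
        rw [integral_indicator hDm, Measure.restrict_restrict hDm]
        have : D ∩ Icc 0 M = D := inter_eq_left.2 fun s hs => hs.1
        rw [this]
        simp [Measure.real]
    _ ≤ ∫ s in Icc 0 M, (1 - χ s) := by
        refine integral_mono ?_ hint fun s => ?_
        · exact (integrable_const (1 : ℝ)).indicator hDm
        · by_cases hs : s ∈ D
          · simp only [hs, indicator_of_mem]
            have := hs.2
            linarith
          · simp only [hs, not_false_eq_true, indicator_of_notMem]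
            linarith [(h01 s).2]

variable (m : Measure X) [IsProbabilityMeasure m] [SMulInvariantMeasure G X m]

theorem linBad_null {O : Set (X × X)} (hO : FinOrb O) (S : ℝ) : m (linBad O 0 S) = 0 := by
  obtain ⟨lam, hlam, -, -⟩ := exists_haar m
  have hO' := hO
  obtain ⟨z0, hz0, hfin⟩ := hO'
  set F0 := {y | (z0.1, y) ∈ O} with hF0
  have hcount : (⋃ a1 ∈ F0, ⋃ a2 ∈ F0, {δ : G | δ • a2 = a1}).Countable := by
    refine hfin.countable.biUnion fun a1 _ => hfin.countable.biUnion fun a2 _ => ?_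
    have : {δ : G | δ • a2 = a1} = ⋃ R : ℕ, {g : G | g • a2 = a1 ∧ ∀ i j, |g i j| ≤ (R : ℝ)} := by
      ext g
      simp only [mem_ofPred_eq, mem_iUnion]
      constructor
      · intro h
        obtain ⟨R, hR⟩ := exists_nat_ge (max (max |g 0 0| |g 0 1|) (max |g 1 0| |g 1 1|))
        refine ⟨R, h, fun i j => le_trans ?_ hR⟩
        fin_cases i <;> fin_cases j
        · exact le_max_of_le_left (le_max_left _ _)
        · exact le_max_of_le_left (le_max_right _ _)
        · exact le_max_of_le_right (le_max_left _ _)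
        · exact le_max_of_le_right (le_max_right _ _)
      · rintro ⟨R, h, -⟩
        exact h
    rw [this]
    exact countable_iUnion fun R => (between_finite a2 a1 R).countable
  set T := (⋃ a1 ∈ F0, ⋃ a2 ∈ F0, {δ : G | δ • a2 = a1}) \ {1} with hT
  have hTc : T.Countable := hcount.mono sdiff_subset
  have hae : ∀ᵐ g ∂lam, ∀ δ ∈ T, ∀ c : ℝ, g * δ * g⁻¹ ≠ u c :=
    (ae_ball_iff hTc).2 fun δ hδ => null_conj lam δ hδ.2
  have hkey : ∀ᵐ x ∂m, x ∉ linBad O 0 S := by
    rw [ae_iff_ae m lam z0.1]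
    filter_upwards [hae] with g hg
    rintro ⟨y1, y2, W, h1, h2, h3, ⟨b1, b2, b3, b4⟩, h5⟩
    have hWu : W = u (W 0 1) := by
      have t1 := abs_nonpos_iff.1 b1
      have t2 := abs_nonpos_iff.1 b2
      have t3 := abs_nonpos_iff.1 b3
      apply G_ext
      · simp; linarith
      · simp
      · simp; linarith
      · simp; linarith
    have hpull : ∀ y' : X, (g • z0.1, y') ∈ O → g⁻¹ • y' ∈ F0 := by
      intro y' h
      have q1 := (finOrb_smul hO g⁻¹ (g • z0.1, y')).2 h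
      rw [Prod.smul_mk, inv_smul_smul] at q1
      exact q1
    have hmem : g⁻¹ * W * g ∈ T := by
      refine ⟨?_, ?_⟩
      · refine mem_biUnion (hpull y1 h1) (mem_biUnion (hpull y2 h2) ?_)
        show (g⁻¹ * W * g) • g⁻¹ • y2 = g⁻¹ • y1
        rw [mul_smul, mul_smul, smul_inv_smul, h5]
      · intro h6
        rw [mem_singleton_iff] at h6
        apply h3
        have : W = g * (g⁻¹ * W * g) * g⁻¹ := by group
        rw [this, h6]
        group
    refine hg _ hmem (W 0 1) ?_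
    rw [← hWu]
    group
  rw [ae_iff] at hkey
  simpa using hkey

/-- a cutoff function vanishing on the bad set -/
theorem lin_theta {O : Set (X × X)} (hO : FinOrb O) (S : ℝ) {ε : ℝ} (hε : 0 < ε) :
    ∃ r > 0, ∃ χ : X → ℝ, Cc χ ∧ (∀ x, 0 ≤ χ x ∧ χ x ≤ 1) ∧ ∫ x, (1 - χ x) ∂m ≤ ε ∧
      ∀ x, χ x ≠ 0 → x ∉ linBad O r S := by
  have hcl : ∀ n : ℕ, IsClosed (linBad O (1 / ((n : ℝ) + 1)) S) := fun n => linBad_closed hO _ _
  have htend := tendsto_measure_iInter_atTop (μ := m)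
    (s := fun n : ℕ => linBad O (1 / ((n : ℝ) + 1)) S)
    (fun n => (hcl n).measurableSet.nullMeasurableSet) (linBad_antitone O S)
    ⟨0, measure_ne_top _ _⟩
  rw [measure_mono_null (linBad_iInter hO S) (linBad_null m hO S)] at htend
  have hε2 : (0 : ℝ≥0∞) < ENNReal.ofReal (ε / 2) := by
    rw [ENNReal.ofReal_pos]; positivity
  obtain ⟨n, hn⟩ := (htend.eventually (gt_mem_nhds hε2)).exists
  simp only [Function.comp_apply] at hn
  obtain ⟨K, hKs, hKc, hKm⟩ := (hcl n).measurableSet.compl.exists_isCompact_sdiff_lt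
    (measure_ne_top m _) hε2.ne'
  obtain ⟨f, hf1, hf0, hfc, hf01⟩ := exists_continuous_one_zero_of_isCompact hKc (hcl n)
    (disjoint_left.2 fun x hx hx' => hKs hx hx')
  refine ⟨1 / ((n : ℝ) + 1), by positivity, f, ⟨f.continuous, hfc⟩, hf01, ?_, ?_⟩
  · have hKcm : m Kᶜ ≤ ENNReal.ofReal ε := by
      have hsub : Kᶜ ⊆ linBad O (1 / ((n : ℝ) + 1)) S ∪
          ((linBad O (1 / ((n : ℝ) + 1)) S)ᶜ \ K) := by
        intro x hx
        by_cases h : x ∈ linBad O (1 / ((n : ℝ) + 1)) S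
        · exact Or.inl h
        · exact Or.inr ⟨h, hx⟩
      calc m Kᶜ ≤ _ := measure_mono hsub
        _ ≤ _ := measure_union_le _ _
        _ ≤ ENNReal.ofReal (ε / 2) + ENNReal.ofReal (ε / 2) := add_le_add hn.le hKm.le
        _ = ENNReal.ofReal ε := by
          rw [← ENNReal.ofReal_add (by positivity) (by positivity)]
          congr 1
          ring
    have hint : Integrable (fun x => 1 - f x) m := by
      refine (integrable_const (1 : ℝ)).mono' (by fun_prop) ?_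
      filter_upwards with x
      have := hf01 x
      rw [Real.norm_eq_abs, abs_le]
      constructor <;> linarith [this.1, this.2]
    calc ∫ x, (1 - f x) ∂m ≤ ∫ x, Kᶜ.indicator (fun _ => (1 : ℝ)) x ∂m := by
          refine integral_mono hint ((integrable_const (1 : ℝ)).indicator
            hKc.isClosed.measurableSet.compl) fun x => ?_
          by_cases hx : x ∈ K
          · have h1 := hf1 hx
            simp only [Pi.one_apply] at h1
            simp [hx, h1]
          · have := hf01 x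
            simp only [mem_compl_iff, hx, not_false_eq_true, indicator_of_mem]
            linarith [this.1]
      _ = m.real Kᶜ := by
          rw [integral_indicator hKc.isClosed.measurableSet.compl]
          simp
      _ ≤ ε := ENNReal.toReal_le_of_le_ofReal hε.le hKcm
  · intro x hx hbad
    exact hx (by simpa using hf0 hbad)

theorem linearize {O : Set (X × X)} (hO : FinOrb O) {S0 ε0 : ℝ} (hS : 0 < S0) (hε : 0 < ε0) :
    ∃ L > 0, ∃ r2 > 0, ∃ θ : X → ℝ, Cc (fun x => 1 - θ x) ∧ (∀ x, 0 ≤ θ x ∧ θ x ≤ 1) ∧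
      ∫ x, θ x ∂m ≤ ε0 / 8 ∧
      ∀ (z : X × X) (M : ℝ), 0 < M →
        ENNReal.ofReal (ε0 * M) ≤ volume {s ∈ Icc 0 M | u s • z ∈ nbh O r2 S0} →
        avg θ M z.1 ≤ ε0 / 4 →
        ∃ W ∈ disp O z, |W 0 1| ≤ L ∧ |W 0 0 - W 1 1| ≤ L / M ∧ |W 1 0| ≤ L / M ^ 2 ∧
          0 < W 0 0 + W 1 1 := by
  obtain ⟨ρ', hρd⟩ : ∃ ρ', ρ' = min (1 / 2) ((ε0 / 16) ^ 2) := ⟨_, rfl⟩
  have hρ' : 0 < ρ' := by rw [hρd]; positivity
  have hρ1 : ρ' ≤ 1 / 2 := hρd ▸ min_le_left _ _
  have hρ2 : ρ' ≤ (ε0 / 16) ^ 2 := hρd ▸ min_le_right _ _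
  have hsq : 4 * √ρ' ≤ ε0 / 4 := by
    have : √ρ' ≤ ε0 / 16 := Real.sqrt_le_iff.2 ⟨by positivity, hρ2⟩
    linarith
  obtain ⟨S1, hS1d⟩ : ∃ S1, S1 = (S0 + 1) / ρ' := ⟨_, rfl⟩
  have hS1ρ : S0 + 1 = ρ' * S1 := by rw [hS1d]; field_simp
  have hS1 : 1 ≤ S1 := by
    by_contra hcon
    rw [not_le] at hcon
    nlinarith
  have hS10 : 0 < S1 := by linarith
  obtain ⟨r, hr, χ, hχc, hχ01, hχint, hχbad⟩ := lin_theta m hO (4 * S1) (ε := ε0 / 8)
    (by positivity)
  obtain ⟨r1, hr1d⟩ : ∃ r1, r1 = min (1 / 4) (r / (4 + S1)) := ⟨_, rfl⟩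
  have hr1 : 0 < r1 := by rw [hr1d]; positivity
  have hr14 : r1 ≤ 1 / 4 := hr1d ▸ min_le_left _ _
  have hr1r : (4 + S1) * r1 ≤ r := by
    have : r1 ≤ r / (4 + S1) := hr1d ▸ min_le_right _ _
    rw [le_div_iff₀ (by positivity)] at this
    linarith
  refine ⟨8 * S1, by positivity, ρ' * r1, by positivity, fun x => 1 - χ x, ?_, ?_, hχint, ?_⟩
  · simpa using hχc
  · intro x
    have := hχ01 x
    constructor <;> linarith [this.1, this.2]
  intro z M hM hvol havg
  have hpath : Continuous fun s : ℝ => u s • z := continuous_u.smul continuous_const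
  have hpath1 : Continuous fun s : ℝ => χ ((u s • z).1) :=
    hχc.1.comp (continuous_fst.comp hpath)
  set E := {s ∈ Icc 0 M | u s • z ∈ nbh O (ρ' * r1) S0 ∧ χ ((u s • z).1) ≠ 0} with hE
  have hEm : MeasurableSet E := by
    refine measurableSet_Icc.inter (MeasurableSet.inter ?_ ?_)
    · exact ((isOpen_nbh hO _ _).preimage hpath).measurableSet
    · exact (hpath1.measurable (measurableSet_singleton 0)).compl
  have hEvol : ENNReal.ofReal (2 * (ε0 / 4) * M) < volume E := by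
    by_contra hcon
    rw [not_lt] at hcon
    have h1 : volume {s ∈ Icc 0 M | χ ((u s • z).1) = 0} ≤ ENNReal.ofReal (ε0 / 4 * M) := by
      refine (lin_time hpath1 (fun s => hχ01 _) hM).trans (ENNReal.ofReal_le_ofReal ?_)
      have h2 : avg (fun x => 1 - χ x) M z.1 =
          (1 / M) * ∫ s in (0 : ℝ)..M, (1 - χ ((u s • z).1)) := rfl
      rw [h2] at havg
      have h3 : (∫ s in (0 : ℝ)..M, (1 - χ ((u s • z).1))) =
          M * ((1 / M) * ∫ s in (0 : ℝ)..M, (1 - χ ((u s • z).1))) := by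
        field_simp
      rw [h3]
      nlinarith
    have h2 : {s ∈ Icc 0 M | u s • z ∈ nbh O (ρ' * r1) S0} ⊆
        E ∪ {s ∈ Icc 0 M | χ ((u s • z).1) = 0} := by
      rintro s ⟨hs1, hs2⟩
      by_cases h : χ ((u s • z).1) = 0
      · exact Or.inr ⟨hs1, h⟩
      · exact Or.inl ⟨hs1, hs2, h⟩
    have h3 := hvol.trans ((measure_mono h2).trans ((measure_union_le _ _).trans
      (add_le_add hcon h1)))
    rw [← ENNReal.ofReal_add (by positivity) (by positivity),
      ENNReal.ofReal_le_ofReal_iff (by positivity)] at h3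
    nlinarith [mul_pos hε hM]
  obtain ⟨P, ⟨W, hW, rfl⟩, hP1, -⟩ := covering
    (PP := {P : ℝ → ℝ | ∃ W ∈ disp O z, P = linP r1 S1 W})
    (S := M) (ρ' := ρ') (ρ := 1) (θ := ε0 / 4) hM (by linarith) (by positivity)
    (by
      rintro P ⟨W, hW, rfl⟩
      exact linP_continuous _ _ _)
    (by
      rintro P ⟨W, hW, rfl⟩ a b ha hab hb hle hex
      refine (linP_good hr1 hS10 W hab hρ'.le hex).trans (ENNReal.ofReal_le_ofReal ?_)
      exact mul_le_mul_of_nonneg_right hsq (by linarith))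
    hEm (fun s hs => hs.1)
    (by
      rintro s ⟨hs1, ⟨W, hW, b1, b2, b3, b4⟩, hs3⟩
      have hconj : u s * (u (-s) * W * u s) * u (-s) = W := conj_neg W s
      refine ⟨_, ⟨u (-s) * W * u s, ?_, rfl⟩, ?_⟩
      · rw [disp_smul hO z (u s), u_inv, hconj]
        exact hW
      · rw [linP_le hr1 hS10, hconj]
        refine ⟨b1.le, b2.le, b3.le, b4.le.trans ?_⟩
        rw [← hS1ρ]
        nlinarith)
    (by
      rintro s ⟨hs1, hs2, hs3⟩ P ⟨W, hW, rfl⟩ P' ⟨W', hW', rfl⟩ hP hP'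
      rw [linP_le hr1 hS10, one_mul, one_mul] at hP hP'
      rw [disp_smul hO z (u s), u_inv] at hW hW'
      set V := u s * W * u (-s) with hV
      set V' := u s * W' * u (-s) with hV'
      have h1 : V⁻¹ * V' ∈ linN r (4 * S1) := linN_mul hS1 hr1.le (by linarith) hr1r
        ⟨hP.1, hP.2.1, hP.2.2.1, hP.2.2.2⟩ ⟨hP'.1, hP'.2.1, hP'.2.2.1, hP'.2.2.2⟩
      have h2 : V⁻¹ * V' = 1 := by
        by_contra hne
        refine hχbad _ hs3 ⟨_, _, V⁻¹ * V', hW, hW', hne, h1, ?_⟩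
        rw [mul_smul, smul_inv_smul]
      have h3 : V = V' := (inv_mul_eq_one.1 h2)
      have h5 : W = W' := by
        have e1 : W = (u s)⁻¹ * V * (u (-s))⁻¹ := by rw [hV]; group
        have e2 : W' = (u s)⁻¹ * V' * (u (-s))⁻¹ := by rw [hV']; group
        rw [e1, e2, h3]
      rw [h5])
    hEvol
  have hP2 : ∀ s ∈ Icc 0 M, |(u s * W * u (-s)) 0 0 - 1| ≤ r1 ∧
      |(u s * W * u (-s)) 1 1 - 1| ≤ r1 ∧ |(u s * W * u (-s)) 1 0| ≤ r1 ∧
      |(u s * W * u (-s)) 0 1| ≤ S1 := by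
    intro s hs
    have := hP1 s hs
    rw [linP_le hr1 hS10, one_mul, one_mul] at this
    exact this
  have hq := quad_coef (W 0 1) (W 1 1 - W 0 0) (-W 1 0) M S1 hM (by
    intro s hs
    have := (hP2 s hs).2.2.2
    rw [conj01] at this
    convert this using 2
    ring)
  obtain ⟨q1, q2, q3⟩ := hq
  refine ⟨W, hW, ?_, ?_, ?_, ?_⟩
  · linarith
  · rw [abs_sub_comm]
    exact q2
  · rw [abs_neg] at q3
    exact q3
  · have h0 := hP2 0 ⟨le_refl _, hM.le⟩
    simp only [neg_zero, u_zero, one_mul, mul_one] at h0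
    have t1 := abs_le.1 h0.1
    have t2 := abs_le.1 h0.2.1
    linarith

end Pool.Agent.Work.MP_c9c104_nt
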