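import Pool.Agent.Work.MP_c9c104_nt.Basic

/-!
Countable dense sets of test functions; generic points.
-/

open MeasureTheory Filter Topology Set ProbabilityTheory
open scoped ENNReal NNReal

namespace Pool.Agent.Work.MP_c9c104_nt

variable {X : Type} [TopologicalSpace X] [MeasurableSpace X] [MulAction G X] [HomSp X]
variable {Z : Type} [TopologicalSpace Z] [MeasurableSpace Z] [MulAction G Z] [PhSp Z]

/-- a countable family of compactly supported functions which is uniformly dense -/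
theorem exists_dense : ∃ D : Set (Z → ℝ), D.Countable ∧ (∀ f ∈ D, Cc f) ∧
    ∀ f : Z → ℝ, Cc f → ∀ ε > 0, ∃ g ∈ D, ∀ z, |f z - g z| ≤ ε := by
  classical
  let K := CompactExhaustion.choice Z
  let S : ℕ → Set C(Z, ℝ) := fun n => {f | ∀ z, z ∉ K n → f z = 0}
  have hS : ∀ n, ∃ D : Set C(Z, ℝ), D.Countable ∧ D ⊆ S n ∧ S n ⊆ closure D := by
    intro n
    have h := TopologicalSpace.IsSeparable.of_separableSpace (S n)
    obtain ⟨t, h1, h2, h3⟩ := h.exists_countable_dense_subset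
    exact ⟨t, h2, h1, h3⟩
  choose D hDc hDS hDd using hS
  refine ⟨⋃ n, (fun f : C(Z, ℝ) => (f : Z → ℝ)) '' D n,
    countable_iUnion fun n => (hDc n).image _, ?_, ?_⟩
  · intro f hf
    obtain ⟨n, g, hg, rfl⟩ := by simpa only [mem_iUnion, mem_image] using hf
    refine ⟨g.continuous, HasCompactSupport.intro (K.isCompact n) ?_⟩
    exact fun z hz => hDS n hg z hz
  · intro f hf ε hε
    obtain ⟨n, hn⟩ : ∃ n, tsupport f ⊆ K n := by
      obtain ⟨n, hn⟩ := K.exists_superset_of_isCompact hf.2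
      exact ⟨n, hn⟩
    let F : C(Z, ℝ) := ⟨f, hf.1⟩
    have hF : F ∈ S n := by
      intro z hz
      exact image_eq_zero_of_notMem_tsupport fun h => hz (hn h)
    have hcl := hDd n hF
    have hopen : IsOpen {g : C(Z, ℝ) | MapsTo (F - g) (K n) (Metric.ball 0 ε)} := by
      have h1 : IsOpen {h : C(Z, ℝ) | MapsTo h (K n) (Metric.ball 0 ε)} :=
        ContinuousMap.isOpen_setOfPred_mapsTo (K.isCompact n) Metric.isOpen_ball
      have h2 : Continuous fun g : C(Z, ℝ) => F - g := continuous_const.sub continuous_id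
      exact h1.preimage h2
    have hmem : F ∈ {g : C(Z, ℝ) | MapsTo (F - g) (K n) (Metric.ball 0 ε)} := by
      intro z _
      simp [hε]
    obtain ⟨g, hg1, hg2⟩ := mem_closure_iff.mp hcl _ hopen hmem
    refine ⟨g, mem_iUnion.mpr ⟨n, g, hg2, rfl⟩, fun z => ?_⟩
    by_cases hz : z ∈ K n
    · have h3 := hg1 hz
      rw [mem_ball_zero_iff, Real.norm_eq_abs] at h3
      exact h3.le
    · have h4 : f z = 0 := hF z hz
      have h5 : g z = 0 := hDS n hg2 z hz
      rw [h4, h5]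
      simpa using hε.le

omit [MeasurableSpace Z] [MulAction G Z] [PhSp Z] in
theorem cc_bdd {f : Z → ℝ} (hf : Cc f) : ∃ B : ℝ, 0 ≤ B ∧ ∀ z, |f z| ≤ B := by
  obtain ⟨C, hC⟩ := hf.2.exists_bound_of_continuous hf.1
  exact ⟨max C 0, le_max_right _ _, fun z => le_trans (hC z) (le_max_left _ _)⟩

theorem cc_integrable {f : Z → ℝ} (hf : Cc f) (ν : Measure Z) [IsProbabilityMeasure ν] :
    Integrable f ν := hf.1.integrable_of_hasCompactSupport hf.2

theorem cont_orbit {f : Z → ℝ} (hf : Continuous f) (z : Z) :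
    Continuous fun s : ℝ => f (u s • z) :=
  hf.comp (continuous_u.smul continuous_const)

theorem avg_continuous {f : Z → ℝ} (hf : Continuous f) (T : ℝ) : Continuous (avg f T) := by
  unfold avg
  refine continuous_const.mul ?_
  apply intervalIntegral.continuous_parametric_intervalIntegral_of_continuous'
  exact hf.comp ((continuous_u.comp continuous_snd).smul continuous_fst)

omit [TopologicalSpace Z] [MeasurableSpace Z] [PhSp Z] in
theorem avg_abs_le {f : Z → ℝ} {B : ℝ} (hB : ∀ z, |f z| ≤ B) {T : ℝ} (hT : 0 < T) (z : Z) :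
    |avg f T z| ≤ B := by
  unfold avg
  have h1 : ‖∫ s in (0 : ℝ)..T, f (u s • z)‖ ≤ B * |T - 0| :=
    intervalIntegral.norm_integral_le_of_norm_le_const fun s _ => hB _
  rw [Real.norm_eq_abs, sub_zero, abs_of_pos hT] at h1
  rw [abs_mul, abs_of_pos (one_div_pos.mpr hT)]
  calc 1 / T * |∫ s in (0 : ℝ)..T, f (u s • z)| ≤ 1 / T * (B * T) :=
        mul_le_mul_of_nonneg_left h1 (one_div_pos.mpr hT).le
    _ = B := by field_simp

theorem avg_sub {f g : Z → ℝ} (hf : Continuous f) (hg : Continuous g) (T : ℝ) (z : Z) :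
    avg f T z - avg g T z = avg (fun z => f z - g z) T z := by
  unfold avg
  rw [← mul_sub, intervalIntegral.integral_sub ((cont_orbit hf z).intervalIntegrable _ _)
    ((cont_orbit hg z).intervalIntegrable _ _)]

theorem avg_sub_le {f g : Z → ℝ} (hf : Continuous f) (hg : Continuous g) {ε : ℝ}
    (h : ∀ z, |f z - g z| ≤ ε) {T : ℝ} (hT : 0 < T) (z : Z) :
    |avg f T z - avg g T z| ≤ ε := by
  rw [avg_sub hf hg]
  exact avg_abs_le h hT z

/-- comparison of averages of different lengths -/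
theorem avg_len {f : Z → ℝ} (hf : Continuous f) {B : ℝ} (hB : ∀ z, |f z| ≤ B) {S T : ℝ}
    (hS : 0 < S) (hST : S ≤ T) (z : Z) :
    |avg f T z - avg f S z| ≤ 2 * B * (T - S) / T := by
  have hT : 0 < T := lt_of_lt_of_le hS hST
  have hi := fun a b : ℝ => (cont_orbit hf z).intervalIntegrable (μ := volume) a b
  have h1 : ∫ s in (0 : ℝ)..T, f (u s • z) =
      (∫ s in (0 : ℝ)..S, f (u s • z)) + ∫ s in S..T, f (u s • z) :=
    (intervalIntegral.integral_add_adjacent_intervals (hi 0 S) (hi S T)).symm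
  have h2 : |∫ s in S..T, f (u s • z)| ≤ B * (T - S) := by
    have := intervalIntegral.norm_integral_le_of_norm_le_const (a := S) (b := T)
      (f := fun s => f (u s • z)) fun s _ => hB _
    rwa [Real.norm_eq_abs, abs_of_nonneg (by linarith : 0 ≤ T - S)] at this
  have h3 : |∫ s in (0 : ℝ)..S, f (u s • z)| ≤ B * S := by
    have := intervalIntegral.norm_integral_le_of_norm_le_const (a := 0) (b := S)
      (f := fun s => f (u s • z)) fun s _ => hB _
    rwa [Real.norm_eq_abs, sub_zero, abs_of_pos hS] at this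
  unfold avg
  rw [h1]
  set I := ∫ s in (0 : ℝ)..S, f (u s • z)
  set J := ∫ s in S..T, f (u s • z)
  have e : 1 / T * (I + J) - 1 / S * I = (S * J - (T - S) * I) / (S * T) := by
    field_simp
    ring
  rw [e, abs_div, abs_of_pos (mul_pos hS hT)]
  have h4 : |S * J - (T - S) * I| ≤ S * (B * (T - S)) + (T - S) * (B * S) := by
    calc |S * J - (T - S) * I| ≤ |S * J| + |(T - S) * I| := abs_sub _ _
      _ = S * |J| + (T - S) * |I| := by
          rw [abs_mul, abs_mul, abs_of_pos hS, abs_of_nonneg (by linarith : 0 ≤ T - S)]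
      _ ≤ _ := add_le_add (mul_le_mul_of_nonneg_left h2 hS.le)
          (mul_le_mul_of_nonneg_left h3 (by linarith))
  calc |S * J - (T - S) * I| / (S * T) ≤ (S * (B * (T - S)) + (T - S) * (B * S)) / (S * T) :=
        div_le_div_of_nonneg_right h4 (mul_pos hS hT).le
    _ = 2 * B * (T - S) / T := by
        field_simp
        ring

theorem avg_floor {f : Z → ℝ} (hf : Continuous f) {B : ℝ} (hB0 : 0 ≤ B) (hB : ∀ z, |f z| ≤ B)
    {T : ℝ} (hT : 1 ≤ T) (z : Z) :
    |avg f T z - avg f ((⌊T⌋₊ : ℕ) : ℝ) z| ≤ 2 * B / T := by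
  have h1 : (1 : ℝ) ≤ (⌊T⌋₊ : ℝ) := by
    have : 1 ≤ ⌊T⌋₊ := Nat.le_floor (by simpa using hT)
    exact_mod_cast this
  have h2 : ((⌊T⌋₊ : ℕ) : ℝ) ≤ T := Nat.floor_le (by linarith)
  have h3 : T < (⌊T⌋₊ : ℝ) + 1 := Nat.lt_floor_add_one T
  refine le_trans (avg_len hf hB (by linarith) h2 z) ?_
  refine div_le_div_of_nonneg_right ?_ (by linarith)
  have : T - (⌊T⌋₊ : ℝ) ≤ 1 := by linarith
  nlinarith

theorem avg_shift {f : Z → ℝ} (hf : Continuous f) {B : ℝ} (hB : ∀ z, |f z| ≤ B)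
    {T : ℝ} (hT : 0 < T) (s : ℝ) (z : Z) :
    |avg (fun z => f (u s • z)) T z - avg f T z| ≤ 2 * B * |s| / T := by
  have hi := fun a b : ℝ => (cont_orbit hf z).intervalIntegrable (μ := volume) a b
  have h1 : ∫ r in (0 : ℝ)..T, f (u s • u r • z) = ∫ r in s..(T + s), f (u r • z) := by
    have h2 : ∀ r : ℝ, f (u s • u r • z) = f (u (r + s) • z) := by
      intro r
      rw [smul_smul, ← u_add, add_comm]
    simp only [h2]
    rw [intervalIntegral.integral_comp_add_right (fun r => f (u r • z)) s, zero_add]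
  have h3 : (∫ r in s..(T + s), f (u r • z)) - ∫ r in (0 : ℝ)..T, f (u r • z) =
      (∫ r in T..(T + s), f (u r • z)) - ∫ r in (0 : ℝ)..s, f (u r • z) := by
    have e1 := intervalIntegral.integral_add_adjacent_intervals (hi 0 s) (hi s (T + s))
    have e2 := intervalIntegral.integral_add_adjacent_intervals (hi 0 T) (hi T (T + s))
    linarith
  have h4 : |∫ r in T..(T + s), f (u r • z)| ≤ B * |s| := by
    have := intervalIntegral.norm_integral_le_of_norm_le_const (a := T) (b := T + s)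
      (f := fun s => f (u s • z)) fun s _ => hB _
    rwa [Real.norm_eq_abs, add_sub_cancel_left] at this
  have h5 : |∫ r in (0 : ℝ)..s, f (u r • z)| ≤ B * |s| := by
    have := intervalIntegral.norm_integral_le_of_norm_le_const (a := 0) (b := s)
      (f := fun s => f (u s • z)) fun s _ => hB _
    rwa [Real.norm_eq_abs, sub_zero] at this
  unfold avg
  rw [← mul_sub, h1, h3, abs_mul, abs_of_pos (one_div_pos.mpr hT)]
  calc 1 / T * |(∫ r in T..(T + s), f (u r • z)) - ∫ r in (0 : ℝ)..s, f (u r • z)|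
      ≤ 1 / T * (B * |s| + B * |s|) :=
        mul_le_mul_of_nonneg_left (le_trans (abs_sub _ _) (add_le_add h4 h5))
          (one_div_pos.mpr hT).le
    _ = 2 * B * |s| / T := by ring

theorem tendsto_avg_real {f : Z → ℝ} (hf : Cc f) {z : Z} {c : ℝ}
    (h : Tendsto (fun n : ℕ => avg f n z) atTop (𝓝 c)) :
    Tendsto (fun T : ℝ => avg f T z) atTop (𝓝 c) := by
  obtain ⟨B, hB0, hB⟩ := cc_bdd hf
  have h1 : Tendsto (fun T : ℝ => avg f ((⌊T⌋₊ : ℕ) : ℝ) z) atTop (𝓝 c) :=
    h.comp tendsto_nat_floor_atTop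
  have h2 : Tendsto (fun T : ℝ => avg f T z - avg f ((⌊T⌋₊ : ℕ) : ℝ) z) atTop (𝓝 0) := by
    have h3 : Tendsto (fun T : ℝ => 2 * B / T) atTop (𝓝 0) :=
      tendsto_const_nhds.div_atTop tendsto_id
    refine squeeze_zero_norm' ?_ h3
    filter_upwards [eventually_ge_atTop 1] with T hT
    exact avg_floor hf.1 hB0 hB hT z
  have h4 := h2.add h1
  simpa using h4

/-- genericity can be tested on a dense family, along integers -/
theorem genPt_of_dense {ν : Measure Z} [IsProbabilityMeasure ν] {D : Set (Z → ℝ)}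
    (hD : ∀ f ∈ D, Cc f)
    (hD2 : ∀ f : Z → ℝ, Cc f → ∀ ε > 0, ∃ g ∈ D, ∀ z, |f z - g z| ≤ ε) {z : Z}
    (h : ∀ f ∈ D, Tendsto (fun n : ℕ => avg f n z) atTop (𝓝 (∫ z, f z ∂ν))) : GenPt ν z := by
  intro f hf
  apply tendsto_avg_real hf
  rw [Metric.tendsto_atTop]
  intro ε hε
  obtain ⟨g, hg, hfg⟩ := hD2 f hf (ε / 4) (by positivity)
  obtain ⟨N, hN⟩ := Metric.tendsto_atTop.mp (h g hg) (ε / 4) (by positivity)
  refine ⟨max N 1, fun n hn => ?_⟩
  have hn1 : N ≤ n := le_trans (le_max_left _ _) hn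
  have hn2 : 1 ≤ n := le_trans (le_max_right _ _) hn
  have e1 := hN n hn1
  rw [Real.dist_eq] at e1 ⊢
  have e2 := avg_sub_le hf.1 (hD g hg).1 hfg (T := (n : ℝ)) (by exact_mod_cast hn2) z
  have e3 : |∫ z, f z ∂ν - ∫ z, g z ∂ν| ≤ ε / 4 := by
    rw [← integral_sub (cc_integrable hf ν) (cc_integrable (hD g hg) ν)]
    have := norm_integral_le_of_norm_le_const (μ := ν) (f := fun z => f z - g z)
      (Eventually.of_forall hfg)
    simpa using this
  have e4 : avg f n z - ∫ z, f z ∂ν = (avg f n z - avg g n z) + (avg g n z - ∫ z, g z ∂ν) -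
      (∫ z, f z ∂ν - ∫ z, g z ∂ν) := by ring
  rw [e4]
  have e5 := abs_sub ((avg f n z - avg g n z) + (avg g n z - ∫ z, g z ∂ν))
    (∫ z, f z ∂ν - ∫ z, g z ∂ν)
  have e6 := abs_add_le (avg f n z - avg g n z) (avg g n z - ∫ z, g z ∂ν)
  linarith

/-- genericity can be tested function by function -/
theorem ae_genPt (ν : Measure Z) [IsProbabilityMeasure ν]
    (h : ∀ f : Z → ℝ, Cc f → ∀ᵐ z ∂ν, Tendsto (fun n : ℕ => avg f n z) atTop
      (𝓝 (∫ z, f z ∂ν))) : ∀ᵐ z ∂ν, GenPt ν z := by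
  obtain ⟨D, hDc, hD1, hD2⟩ := exists_dense (Z := Z)
  have h1 : ∀ᵐ z ∂ν, ∀ f ∈ D, Tendsto (fun n : ℕ => avg f n z) atTop (𝓝 (∫ z, f z ∂ν)) :=
    (ae_ball_iff hDc).mpr fun f hf => h f (hD1 f hf)
  filter_upwards [h1] with z hz
  exact genPt_of_dense hD1 hD2 hz

/-- measures are determined by compactly supported functions -/
theorem meas_ext {ν ν' : Measure Z} [IsProbabilityMeasure ν] [IsProbabilityMeasure ν']
    (h : ∀ f : Z → ℝ, Cc f → ∫ z, f z ∂ν = ∫ z, f z ∂ν') : ν = ν' := by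
  apply Measure.ext_of_integral_eq_on_compactlySupported
  intro f
  exact h f ⟨f.continuous, f.hasCompactSupport⟩

theorem genPt_unique {ν ν' : Measure Z} [IsProbabilityMeasure ν] [IsProbabilityMeasure ν']
    {z : Z} (h : GenPt ν z) (h' : GenPt ν' z) : ν = ν' :=
  meas_ext fun f hf => tendsto_nhds_unique (h f hf) (h' f hf)

theorem cc_smul {f : Z → ℝ} (hf : Cc f) (g : G) : Cc fun z => f (g • z) := by
  refine ⟨hf.1.comp (continuous_const_smul g), ?_⟩
  exact hf.2.comp_homeomorph (Homeomorph.smul g)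

/-- generic measures are invariant -/
theorem gen_inv {ν : Measure Z} (h : IsGen ν) (s : ℝ) : ν.map (fun z => u s • z) = ν := by
  have := h.1
  have hmeas : Measurable fun z : Z => u s • z := measurable_const_smul (u s)
  have hp : IsProbabilityMeasure (ν.map (fun z => u s • z)) :=
    Measure.isProbabilityMeasure_map hmeas.aemeasurable
  obtain ⟨z, hz⟩ := h.2.exists
  apply meas_ext
  intro f hf
  rw [integral_map hmeas.aemeasurable hf.1.aestronglyMeasurable]
  have h1 := hz f hf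
  have h2 := hz _ (cc_smul hf (u s))
  obtain ⟨B, hB0, hB⟩ := cc_bdd hf
  have h3 : Tendsto (fun T : ℝ => avg (fun z => f (u s • z)) T z - avg f T z) atTop (𝓝 0) := by
    have h4 : Tendsto (fun T : ℝ => 2 * B * |s| / T) atTop (𝓝 0) :=
      tendsto_const_nhds.div_atTop tendsto_id
    refine squeeze_zero_norm' ?_ h4
    filter_upwards [eventually_gt_atTop 0] with T hT
    exact avg_shift hf.1 hB hT s z
  have h5 := tendsto_nhds_unique (h2.sub h1) h3
  linarith

theorem gen_mp {ν : Measure Z} (h : IsGen ν) (s : ℝ) :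
    MeasurePreserving (fun z : Z => u s • z) ν ν :=
  ⟨measurable_const_smul (u s), gen_inv h s⟩

/-- integrals over invariant sets -/
theorem gen_setIntegral {ν : Measure Z} (h : IsGen ν) {A : Set Z} (_hA : MeasurableSet A)
    (hinv : ∀ s : ℝ, (fun z => u s • z) ⁻¹' A =ᵐ[ν] A) {f : Z → ℝ} (hf : Cc f) :
    ∫ z in A, f z ∂ν = ν.real A * ∫ z, f z ∂ν := by
  have := h.1
  obtain ⟨B, hB0, hB⟩ := cc_bdd hf
  have h1 : ∀ s : ℝ, ∫ z in A, f (u s • z) ∂ν = ∫ z in A, f z ∂ν := by
    intro s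
    have e1 : ∫ z in A, f (u s • z) ∂ν =
        ∫ z in (fun z => u s • z) ⁻¹' A, f (u s • z) ∂ν := by
      rw [Measure.restrict_congr_set (hinv s)]
    rw [e1]
    exact (gen_mp h s).setIntegral_preimage_emb
      (measurableEmbedding_const_smul (u s)) f A
  have h2 : ∀ T : ℝ, 0 < T → ∫ z in A, avg f T z ∂ν = ∫ z in A, f z ∂ν := by
    intro T hT
    unfold avg
    rw [integral_const_mul]
    have e2 : ∫ z in A, (∫ s in (0 : ℝ)..T, f (u s • z)) ∂ν =
        ∫ s in (0 : ℝ)..T, (∫ z in A, f (u s • z) ∂ν) := by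
      rw [intervalIntegral.integral_of_le hT.le]
      simp only [intervalIntegral.integral_of_le hT.le]
      rw [integral_integral_swap]
      refine Integrable.mono' (integrable_const B) ?_ ?_
      · exact (hf.1.comp ((continuous_u.comp continuous_snd).smul
          continuous_fst)).aestronglyMeasurable
      · exact Eventually.of_forall fun p => hB _
    rw [e2]
    simp only [h1]
    rw [intervalIntegral.integral_const, sub_zero, smul_eq_mul]
    field_simp
  have h3 : Tendsto (fun n : ℕ => ∫ z in A, avg f ((n : ℝ) + 1) z ∂ν) atTop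
      (𝓝 (∫ z in A, (∫ y, f y ∂ν) ∂ν)) := by
    refine tendsto_integral_of_dominated_convergence (fun _ => B) ?_ (integrable_const B) ?_ ?_
    · intro n
      exact (avg_continuous hf.1 _).aestronglyMeasurable
    · intro n
      exact Eventually.of_forall fun z => avg_abs_le hB (by positivity) z
    · refine ae_restrict_of_ae ?_
      filter_upwards [h.2] with z hz
      exact (hz f hf).comp (tendsto_atTop_add_const_right _ _ tendsto_natCast_atTop_atTop)
  have h4 : Tendsto (fun n : ℕ => ∫ z in A, avg f ((n : ℝ) + 1) z ∂ν) atTop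
      (𝓝 (∫ z in A, f z ∂ν)) := by
    have : (fun n : ℕ => ∫ z in A, avg f ((n : ℝ) + 1) z ∂ν) =
        fun _ => ∫ z in A, f z ∂ν := by
      funext n
      exact h2 _ (by positivity)
    rw [this]
    exact tendsto_const_nhds
  have h5 := tendsto_nhds_unique h4 h3
  rw [h5, setIntegral_const, smul_eq_mul]

/-- generic measures are ergodic -/
theorem gen_erg {ν : Measure Z} (h : IsGen ν) {A : Set Z} (hA : MeasurableSet A)
    (hinv : ∀ s : ℝ, (fun z => u s • z) ⁻¹' A =ᵐ[ν] A) : ν A = 0 ∨ ν Aᶜ = 0 := by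
  have := h.1
  by_cases h0 : ν A = 0
  · exact Or.inl h0
  · right
    have hp : IsProbabilityMeasure (ProbabilityTheory.cond ν A) :=
      ProbabilityTheory.cond_isProbabilityMeasure h0
    have hreal : ν.real A ≠ 0 := by
      simp only [Measure.real]
      exact ENNReal.toReal_ne_zero.mpr ⟨h0, measure_ne_top _ _⟩
    have h1 : ProbabilityTheory.cond ν A = ν := by
      apply meas_ext
      intro f hf
      rw [ProbabilityTheory.cond, integral_smul_measure, gen_setIntegral h hA hinv hf,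
        ENNReal.toReal_inv, smul_eq_mul, ← mul_assoc]
      have : ((ν A).toReal)⁻¹ * ν.real A = 1 := inv_mul_cancel₀ hreal
      rw [this, one_mul]
    have h2 : ProbabilityTheory.cond ν A Aᶜ = 0 := by
      rw [ProbabilityTheory.cond_apply hA]
      simp
    rwa [h1] at h2

theorem gen_const {ν : Measure Z} (h : IsGen ν) {F : Z → ℝ} (hF : Measurable F)
    (hinv : ∀ s : ℝ, (fun z => F (u s • z)) =ᵐ[ν] F) : ∃ c : ℝ, F =ᵐ[ν] fun _ => c := by
  have := h.1
  refine exists_eventuallyEq_const_of_forall_separating MeasurableSet fun U hU => ?_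
  have h1 : ∀ s : ℝ, (fun z => u s • z) ⁻¹' (F ⁻¹' U) =ᵐ[ν] F ⁻¹' U := by
    intro s
    filter_upwards [hinv s] with z hz
    have : (F (u s • z) ∈ U) = (F z ∈ U) := by rw [hz]
    exact this
  rcases gen_erg h (hF hU) h1 with h2 | h2
  · right
    exact measure_eq_zero_iff_ae_notMem.mp h2
  · left
    exact h2

/-- uniformity on large compact sets (Egorov) -/
theorem gen_egorov {ν : Measure Z} (h : IsGen ν) (F : Finset (Z → ℝ)) (hF : ∀ f ∈ F, Cc f)
    {ε δ : ℝ} (hε : 0 < ε) (hδ : 0 < δ) : ∃ K : Set Z, IsCompact K ∧ ν Kᶜ ≤ ENNReal.ofReal ε ∧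
      ∃ T0 > 0, ∀ z ∈ K, GenPt ν z ∧ ∀ T ≥ T0, ∀ f ∈ F, |avg f T z - ∫ z, f z ∂ν| ≤ δ := by
  have := h.1
  -- the bad sets
  let Bn : ℕ → Set Z := fun N => {z | ∀ n : ℕ, N ≤ n → ∀ f ∈ F,
    |avg f n z - ∫ z, f z ∂ν| ≤ δ / 2}
  have hBc : ∀ N, IsClosed (Bn N) := by
    intro N
    have e : Bn N = ⋂ n : ℕ, ⋂ (_ : N ≤ n), ⋂ f ∈ F, {z | |avg f n z - ∫ z, f z ∂ν| ≤ δ / 2} := by
      ext z
      simp [Bn]
    rw [e]
    refine isClosed_iInter fun n => isClosed_iInter fun _ => isClosed_iInter fun f =>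
      isClosed_iInter fun hf => ?_
    exact isClosed_le (((avg_continuous (hF f hf).1 _).sub continuous_const).abs) continuous_const
  have hmono : Antitone fun N => (Bn N)ᶜ := by
    intro M N hMN
    apply compl_subset_compl.mpr
    intro z hz n hn
    exact hz n (le_trans hMN hn)
  have hlim : Tendsto (fun N => ν (Bn N)ᶜ) atTop (𝓝 (ν (⋂ N, (Bn N)ᶜ))) :=
    tendsto_measure_iInter_atTop (fun N => (hBc N).measurableSet.compl.nullMeasurableSet) hmono
      ⟨0, measure_ne_top _ _⟩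
  have hzero : ν (⋂ N, (Bn N)ᶜ) = 0 := by
    have h1 : ∀ᵐ z ∂ν, z ∉ ⋂ N, (Bn N)ᶜ := by
      filter_upwards [h.2] with z hz
      simp only [mem_iInter, mem_compl_iff, not_forall, not_not]
      have h2 : ∀ f ∈ F, ∀ᶠ n : ℕ in atTop, |avg f n z - ∫ z, f z ∂ν| ≤ δ / 2 := by
        intro f hf
        have h3 := (hz f (hF f hf)).comp tendsto_natCast_atTop_atTop (α := ℕ)
        have h4 := (tendsto_iff_dist_tendsto_zero.mp h3).eventually
          (ge_mem_nhds (show (0 : ℝ) < δ / 2 by positivity))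
        filter_upwards [h4] with n hn
        simpa [Real.dist_eq] using hn
      have h5 : ∀ᶠ n : ℕ in atTop, ∀ f ∈ F, |avg f n z - ∫ z, f z ∂ν| ≤ δ / 2 :=
        (eventually_all_finset F).mpr h2
      obtain ⟨N, hN⟩ := eventually_atTop.mp h5
      exact ⟨N, hN⟩
    exact measure_eq_zero_iff_ae_notMem.mpr h1
  rw [hzero] at hlim
  have hε2 : (0 : ℝ≥0∞) < ENNReal.ofReal (ε / 2) := ENNReal.ofReal_pos.mpr (by positivity)
  obtain ⟨N, hN⟩ := (hlim.eventually (gt_mem_nhds hε2)).exists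
  -- a measurable set of generic points
  set E : Set Z := (toMeasurable ν {z | ¬ GenPt ν z})ᶜ with hE
  have hEm : MeasurableSet E := (measurableSet_toMeasurable _ _).compl
  have hE0 : ν Eᶜ = 0 := by
    rw [hE, compl_compl, measure_toMeasurable]
    exact h.2
  have hEg : ∀ z ∈ E, GenPt ν z := by
    intro z hz
    by_contra hcon
    exact hz (subset_toMeasurable ν _ hcon)
  obtain ⟨K, hK1, hK2, hK3⟩ := ((hBc N).measurableSet.inter hEm).exists_isCompact_sdiff_lt
    (measure_ne_top ν _) hε2.ne'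
  obtain ⟨B, hB0, hB⟩ : ∃ B : ℝ, 0 ≤ B ∧ ∀ f ∈ F, ∀ z, |f z| ≤ B := by
    classical
    have hb : ∀ f : Z → ℝ, ∃ B : ℝ, 0 ≤ B ∧ (f ∈ F → ∀ z, |f z| ≤ B) := by
      intro f
      by_cases hf : f ∈ F
      · obtain ⟨B, h0, h1⟩ := cc_bdd (hF f hf)
        exact ⟨B, h0, fun _ => h1⟩
      · exact ⟨0, le_rfl, fun h => absurd h hf⟩
    choose B h0 h1 using hb
    refine ⟨∑ f ∈ F, B f, Finset.sum_nonneg fun f _ => h0 f, fun f hf z => ?_⟩
    exact le_trans (h1 f hf z) (Finset.single_le_sum (fun f _ => h0 f) hf)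
  refine ⟨K, hK2, ?_, max ((N : ℝ) + 1) (4 * B / δ), by positivity, ?_⟩
  · have hsub : Kᶜ ⊆ (Bn N)ᶜ ∪ (Eᶜ ∪ ((Bn N ∩ E) \ K)) := by
      intro z hz
      by_cases h1 : z ∈ Bn N
      · by_cases h2 : z ∈ E
        · exact Or.inr (Or.inr ⟨⟨h1, h2⟩, hz⟩)
        · exact Or.inr (Or.inl h2)
      · exact Or.inl h1
    calc ν Kᶜ ≤ ν (Bn N)ᶜ + (ν Eᶜ + ν ((Bn N ∩ E) \ K)) :=
          le_trans (measure_mono hsub) (le_trans (measure_union_le _ _)
            (add_le_add le_rfl (measure_union_le _ _)))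
      _ ≤ ENNReal.ofReal (ε / 2) + (0 + ENNReal.ofReal (ε / 2)) :=
          add_le_add hN.le (add_le_add hE0.le hK3.le)
      _ = ENNReal.ofReal ε := by
          rw [zero_add, ← ENNReal.ofReal_add (by positivity) (by positivity)]
          congr 1
          ring
  · intro z hz
    refine ⟨hEg z (hK1 hz).2, fun T hT f hf => ?_⟩
    have hT1 : (N : ℝ) + 1 ≤ T := le_trans (le_max_left _ _) hT
    have hT2 : 4 * B / δ ≤ T := le_trans (le_max_right _ _) hT
    have hN0 : (0 : ℝ) ≤ N := Nat.cast_nonneg N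
    have hT3 : 1 ≤ T := by linarith
    have hfl : N ≤ ⌊T⌋₊ := Nat.le_floor (by linarith)
    have e1 := (hK1 hz).1 ⌊T⌋₊ hfl f hf
    have e2 := avg_floor (hF f hf).1 hB0 (hB f hf) hT3 z
    have e3 : 2 * B / T ≤ δ / 2 := by
      rw [div_le_iff₀ hδ] at hT2
      rw [div_le_iff₀ (by linarith)]
      nlinarith
    have e4 : avg f T z - ∫ z, f z ∂ν = (avg f T z - avg f ((⌊T⌋₊ : ℕ) : ℝ) z) +
        (avg f ((⌊T⌋₊ : ℕ) : ℝ) z - ∫ z, f z ∂ν) := by ring
    rw [e4]
    have e5 := abs_add_le (avg f T z - avg f ((⌊T⌋₊ : ℕ) : ℝ) z)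
      (avg f ((⌊T⌋₊ : ℕ) : ℝ) z - ∫ z, f z ∂ν)
    linarith

/-- transport of generic measures by maps commuting with the flow up to time change -/
theorem genPt_map {ν : Measure Z} [IsProbabilityMeasure ν] {Z' : Type} [TopologicalSpace Z']
    [MeasurableSpace Z'] [MulAction G Z'] [PhSp Z'] (Φ : Z ≃ₜ Z') (lam : ℝ) (hl : 0 < lam)
    (hΦ : ∀ s z, u s • Φ z = Φ (u (lam * s) • z)) {z : Z} (hz : GenPt ν z) :
    GenPt (ν.map Φ) (Φ z) := by
  intro f hf
  have hfΦ : Cc fun z => f (Φ z) := ⟨hf.1.comp Φ.continuous, hf.2.comp_homeomorph Φ⟩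
  rw [integral_map Φ.measurable.aemeasurable hf.1.aestronglyMeasurable]
  have h1 : ∀ T : ℝ, 0 < T → avg f T (Φ z) = avg (fun z => f (Φ z)) (lam * T) z := by
    intro T hT
    unfold avg
    simp only [hΦ]
    rw [intervalIntegral.integral_comp_mul_left (fun s => f (Φ (u s • z))) hl.ne', mul_zero,
      smul_eq_mul]
    field_simp
  have h2 : Tendsto (fun T : ℝ => lam * T) atTop atTop := tendsto_id.const_mul_atTop hl
  have h3 := (hz _ hfΦ).comp h2
  refine h3.congr' ?_
  filter_upwards [eventually_gt_atTop 0] with T hT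
  exact (h1 T hT).symm

end Pool.Agent.Work.MP_c9c104_nt
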