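import Pool.Agent.Work.MP_c9c104_nt.Mix
import Pool.Agent.Work.MP_c9c104_nt.Sep

/-!
Products, joinings.
-/

open MeasureTheory Filter Topology Set ProbabilityTheory
open scoped ENNReal NNReal

namespace Pool.Agent.Work.MP_c9c104_nt

variable {X : Type} [TopologicalSpace X] [MeasurableSpace X] [MulAction G X] [HomSp X]
variable {Z : Type} [TopologicalSpace Z] [MeasurableSpace Z] [MulAction G Z] [PhSp Z]

/-- mixing extends from a pi-system to the sigma-algebra: first slot -/
theorem mix_ext_fst {Ω : Type} [mΩ : MeasurableSpace Ω] (σ : Measure Ω) [IsProbabilityMeasure σ]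
    (S : ℕ → Ω → Ω) (hS : ∀ n, MeasurePreserving (S n) σ σ) (C : Set (Set Ω))
    (hC : mΩ = MeasurableSpace.generateFrom C) (hpi : IsPiSystem C) (D : Set Ω)
    (hD : MeasurableSet D)
    (h : ∀ A ∈ C, Tendsto (fun n => σ.real (S n ⁻¹' A ∩ D)) atTop (𝓝 (σ.real A * σ.real D)))
    (A : Set Ω) (hA : MeasurableSet A) :
    Tendsto (fun n => σ.real (S n ⁻¹' A ∩ D)) atTop (𝓝 (σ.real A * σ.real D)) := by
  induction A, hA using MeasurableSpace.induction_on_inter hC hpi with
  | empty => simp
  | basic A hA => exact h A hA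
  | compl A hA ih =>
    have h1 : ∀ n, σ.real (S n ⁻¹' Aᶜ ∩ D) = σ.real D - σ.real (S n ⁻¹' A ∩ D) := by
      intro n
      have hm : MeasurableSet (S n ⁻¹' A) := (hS n).measurable hA
      have := measureReal_sdiff_add_inter (μ := σ) (s := D) hm
      have h2 : D \ (S n ⁻¹' A) = S n ⁻¹' Aᶜ ∩ D := by
        rw [preimage_compl, sdiff_eq, inter_comm]
      rw [h2, inter_comm D] at this
      linarith
    simp_rw [h1]
    have h3 : σ.real Aᶜ * σ.real D = σ.real D - σ.real A * σ.real D := by
      rw [probReal_compl_eq_one_sub hA]; ring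
    rw [h3]
    exact tendsto_const_nhds.sub ih
  | iUnion f hd hf ih =>
    have h1 : ∀ n, σ.real (S n ⁻¹' (⋃ i, f i) ∩ D) = ∑' i, σ.real (S n ⁻¹' f i ∩ D) := by
      intro n
      rw [preimage_iUnion, iUnion_inter]
      rw [measureReal_def, measure_iUnion, ENNReal.tsum_toReal_eq]
      · rfl
      · intro i; exact measure_ne_top _ _
      · intro i j hij
        exact ((hd hij).preimage (S n)).mono inter_subset_left inter_subset_left
      · intro i; exact ((hS n).measurable (hf i)).inter hD
    have h2 : σ.real (⋃ i, f i) * σ.real D = ∑' i, σ.real (f i) * σ.real D := by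
      rw [tsum_mul_right]
      congr 1
      rw [measureReal_def, measure_iUnion hd hf, ENNReal.tsum_toReal_eq]
      · rfl
      · intro i; exact measure_ne_top _ _
    have hsum : Summable fun i => σ.real (f i) := by
      have : ∑' i, σ (f i) ≠ ∞ := by
        rw [← measure_iUnion hd hf]; exact measure_ne_top _ _
      exact ENNReal.summable_toReal this
    simp_rw [h1]
    rw [h2]
    refine tendsto_tsum_of_dominated_convergence (bound := fun i => σ.real (f i)) hsum
      (fun i => ih i) ?_
    refine Eventually.of_forall fun n i => ?_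
    rw [Real.norm_eq_abs, abs_of_nonneg measureReal_nonneg]
    refine (measureReal_mono inter_subset_left).trans ?_
    rw [measureReal_def, (hS n).measure_preimage (hf i).nullMeasurableSet]
    rfl

/-- mixing extends from a pi-system to the sigma-algebra: second slot -/
theorem mix_ext_snd {Ω : Type} [mΩ : MeasurableSpace Ω] (σ : Measure Ω) [IsProbabilityMeasure σ]
    (S : ℕ → Ω → Ω) (hS : ∀ n, MeasurePreserving (S n) σ σ) (C : Set (Set Ω))
    (hC : mΩ = MeasurableSpace.generateFrom C) (hpi : IsPiSystem C) (A : Set Ω)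
    (hA : MeasurableSet A)
    (h : ∀ D ∈ C, Tendsto (fun n => σ.real (S n ⁻¹' A ∩ D)) atTop (𝓝 (σ.real A * σ.real D)))
    (D : Set Ω) (hD : MeasurableSet D) :
    Tendsto (fun n => σ.real (S n ⁻¹' A ∩ D)) atTop (𝓝 (σ.real A * σ.real D)) := by
  induction D, hD using MeasurableSpace.induction_on_inter hC hpi with
  | empty => simp
  | basic A hA => exact h A hA
  | compl D hD ih =>
    have h1 : ∀ n, σ.real (S n ⁻¹' A ∩ Dᶜ) = σ.real A - σ.real (S n ⁻¹' A ∩ D) := by
      intro n
      have := measureReal_sdiff_add_inter (μ := σ) (s := S n ⁻¹' A) hD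
      rw [sdiff_eq] at this
      have h2 : σ.real (S n ⁻¹' A) = σ.real A := by
        rw [measureReal_def, (hS n).measure_preimage hA.nullMeasurableSet]
        rfl
      linarith
    simp_rw [h1]
    have h3 : σ.real A * σ.real Dᶜ = σ.real A - σ.real A * σ.real D := by
      rw [probReal_compl_eq_one_sub hD]; ring
    rw [h3]
    exact tendsto_const_nhds.sub ih
  | iUnion f hd hf ih =>
    have h1 : ∀ n, σ.real (S n ⁻¹' A ∩ (⋃ i, f i)) = ∑' i, σ.real (S n ⁻¹' A ∩ f i) := by
      intro n
      rw [inter_iUnion]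
      rw [measureReal_def, measure_iUnion, ENNReal.tsum_toReal_eq]
      · rfl
      · intro i; exact measure_ne_top _ _
      · intro i j hij
        exact (hd hij).mono inter_subset_right inter_subset_right
      · intro i; exact ((hS n).measurable hA).inter (hf i)
    have h2 : σ.real A * σ.real (⋃ i, f i) = ∑' i, σ.real A * σ.real (f i) := by
      rw [tsum_mul_left]
      congr 1
      rw [measureReal_def, measure_iUnion hd hf, ENNReal.tsum_toReal_eq]
      · rfl
      · intro i; exact measure_ne_top _ _
    have hsum : Summable fun i => σ.real (f i) := by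
      have : ∑' i, σ (f i) ≠ ∞ := by
        rw [← measure_iUnion hd hf]; exact measure_ne_top _ _
      exact ENNReal.summable_toReal this
    simp_rw [h1]
    rw [h2]
    refine tendsto_tsum_of_dominated_convergence (bound := fun i => σ.real (f i)) hsum
      (fun i => ih i) ?_
    refine Eventually.of_forall fun n i => ?_
    rw [Real.norm_eq_abs, abs_of_nonneg measureReal_nonneg]
    exact measureReal_mono inter_subset_right

variable (m : Measure X) [IsProbabilityMeasure m] [SMulInvariantMeasure G X m]

theorem nonempty_of_prob {Ω : Type} [MeasurableSpace Ω] (μ : Measure Ω)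
    [IsProbabilityMeasure μ] : Nonempty Ω := by
  by_contra hX
  rw [not_nonempty_iff] at hX
  have := IsProbabilityMeasure.ne_zero μ
  exact this (Measure.eq_zero_of_isEmpty μ)

theorem ergodic_uX {h : ℝ} (hh : h ≠ 0) : Ergodic (fun z : X => u h • z) m := by
  obtain ⟨z0⟩ := nonempty_of_prob m
  refine ergodic_u m z0 ?_ hh
  rw [MulAction.orbit_eq_univ]
  simp

theorem mix_set {h : ℝ} (hh : h ≠ 0) {A D : Set X} (hA : MeasurableSet A) (hD : MeasurableSet D) :
    Tendsto (fun n : ℕ => m.real ((fun x : X => u ((n : ℝ) * h) • x) ⁻¹' A ∩ D)) atTop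
      (𝓝 (m.real A * m.real D)) := by
  obtain ⟨z0⟩ := nonempty_of_prob m
  have h0 : ∀ᵐ z ∂m, z ∈ MulAction.orbit G z0 := by
    rw [MulAction.orbit_eq_univ]
    simp
  have hms : ∀ t : ℝ, Measurable fun x : X => u t • x := fun t => measurable_const_smul (u t)
  have key : ∀ (A D : Set X), MeasurableSet A → MeasurableSet D →
      Tendsto (fun t : ℝ => m.real ((fun x : X => u t • x) ⁻¹' A ∩ D)) atTop
      (𝓝 (m.real A * m.real D)) := by
    intro A D hA hD
    have := mix_u m z0 h0 (φ := A.indicator fun _ => (1 : ℝ)) (ψ := D.indicator fun _ => (1 : ℝ))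
      (measurable_const.indicator hA) (measurable_const.indicator hD)
      ⟨1, fun z => by
        by_cases hz : z ∈ A <;> simp [hz]⟩ ⟨1, fun z => by
        by_cases hz : z ∈ D <;> simp [hz]⟩
    have e1 : ∫ z, A.indicator (fun _ => (1 : ℝ)) z ∂m = m.real A := by
      rw [integral_indicator hA]; simp
    have e2 : ∫ z, D.indicator (fun _ => (1 : ℝ)) z ∂m = m.real D := by
      rw [integral_indicator hD]; simp
    rw [e1, e2] at this
    refine this.congr fun t => ?_
    have hm : MeasurableSet ((fun x : X => u t • x) ⁻¹' A ∩ D) := (hms t hA).inter hD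
    have e3 : ∀ z, A.indicator (fun _ => (1 : ℝ)) (u t • z) * D.indicator (fun _ => (1 : ℝ)) z =
        ((fun x : X => u t • x) ⁻¹' A ∩ D).indicator (fun _ => (1 : ℝ)) z := by
      intro z
      by_cases h1 : u t • z ∈ A <;> by_cases h2 : z ∈ D <;> simp [indicator, h1, h2]
    simp_rw [e3]
    rw [integral_indicator hm]; simp
  rcases lt_or_gt_of_ne hh with hneg | hpos
  · have h1 : Tendsto (fun n : ℕ => (n : ℝ) * (-h)) atTop atTop :=
      tendsto_natCast_atTop_atTop.atTop_mul_const (by linarith)
    have h2 := (key D A hD hA).comp h1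
    rw [mul_comm]
    refine h2.congr fun n => ?_
    have hm : MeasurableSet ((fun x : X => u ((n : ℝ) * h) • x) ⁻¹' A ∩ D) := (hms _ hA).inter hD
    have h3 := (measurePreserving_smul (u ((n : ℝ) * (-h))) m).measure_preimage
      hm.nullMeasurableSet
    simp only [Function.comp_apply]
    rw [measureReal_def, measureReal_def, ← h3]
    congr 2
    ext x
    have h4 : u ((n : ℝ) * h) • u ((n : ℝ) * (-h)) • x = x := by
      rw [← mul_smul, ← u_add]
      simp
    simp only [mem_inter_iff, mem_preimage, h4]
    tauto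
  · have h1 : Tendsto (fun n : ℕ => (n : ℝ) * h) atTop atTop :=
      tendsto_natCast_atTop_atTop.atTop_mul_const hpos
    exact (key A D hA hD).comp h1

theorem ergodic_prod {h : ℝ} (hh : h ≠ 0) :
    Ergodic (fun z : X × X => u h • z) (m.prod m) := by
  have hS : ∀ n : ℕ, MeasurePreserving (fun z : X × X => u ((n : ℝ) * h) • z)
      (m.prod m) (m.prod m) := fun n =>
    (measurePreserving_smul (u ((n : ℝ) * h)) m).prod (measurePreserving_smul (u ((n : ℝ) * h)) m)
  have hT : MeasurePreserving (fun z : X × X => u h • z) (m.prod m) (m.prod m) :=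
    (measurePreserving_smul (u h) m).prod (measurePreserving_smul (u h) m)
  have hrect : ∀ A ∈ image2 (· ×ˢ ·) {s : Set X | MeasurableSet s} {t : Set X | MeasurableSet t},
      ∀ D ∈ image2 (· ×ˢ ·) {s : Set X | MeasurableSet s} {t : Set X | MeasurableSet t},
      Tendsto (fun n : ℕ => (m.prod m).real ((fun z : X × X => u ((n : ℝ) * h) • z) ⁻¹' A ∩ D))
        atTop (𝓝 ((m.prod m).real A * (m.prod m).real D)) := by
    rintro _ ⟨A1, hA1, A2, hA2, rfl⟩ _ ⟨D1, hD1, D2, hD2, rfl⟩
    have h1 := (mix_set m hh hA1 hD1).mul (mix_set m hh hA2 hD2)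
    simp only [measureReal_prod_prod]
    have e : m.real A1 * m.real D1 * (m.real A2 * m.real D2) =
        m.real A1 * m.real A2 * (m.real D1 * m.real D2) := by ring
    rw [e] at h1
    refine h1.congr fun n => ?_
    rw [← measureReal_prod_prod]
    congr 1
    ext ⟨x, y⟩
    simp only [mem_prod, mem_inter_iff, mem_preimage, Prod.smul_mk]
    tauto
  have hmix : ∀ A D : Set (X × X), MeasurableSet A → MeasurableSet D →
      Tendsto (fun n : ℕ => (m.prod m).real ((fun z : X × X => u ((n : ℝ) * h) • z) ⁻¹' A ∩ D))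
        atTop (𝓝 ((m.prod m).real A * (m.prod m).real D)) := by
    intro A D hA hD
    refine mix_ext_snd (m.prod m) _ hS _ generateFrom_prod.symm isPiSystem_prod A hA ?_ D hD
    intro D' hD'
    have hDm : MeasurableSet D' := by
      obtain ⟨D1, hD1, D2, hD2, rfl⟩ := hD'
      exact MeasurableSet.prod hD1 hD2
    exact mix_ext_fst (m.prod m) _ hS _ generateFrom_prod.symm isPiSystem_prod D' hDm
      (fun A' hA' => hrect A' hA' D' hD') A hA
  refine ⟨hT, ⟨fun A hA hinv => ?_⟩⟩
  have hpre : ∀ n : ℕ, (fun z : X × X => u ((n : ℝ) * h) • z) ⁻¹' A = A := by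
    intro n
    induction n with
    | zero => simp
    | succ n ih =>
      have : (fun z : X × X => u (((n + 1 : ℕ) : ℝ) * h) • z) =
          (fun z : X × X => u ((n : ℝ) * h) • z) ∘ (fun z : X × X => u h • z) := by
        funext z
        simp only [Function.comp_apply]
        rw [← mul_smul, ← u_add]
        congr 2
        push_cast
        ring
      rw [this, preimage_comp, ih, hinv]
  have h1 := hmix A A hA hA
  simp_rw [hpre, inter_self] at h1
  have h2 := tendsto_nhds_unique tendsto_const_nhds h1
  rw [eventuallyConst_set']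
  have h3 : (m.prod m).real A = 0 ∨ (m.prod m).real A = 1 := by
    have : (m.prod m).real A * ((m.prod m).real A - 1) = 0 := by linarith
    rcases mul_eq_zero.1 this with h | h
    · exact Or.inl h
    · exact Or.inr (by linarith)
  rcases h3 with h3 | h3
  · left
    rw [measureReal_eq_zero_iff] at h3
    exact ae_eq_empty.2 h3
  · right
    rw [ae_eq_univ]
    have := probReal_compl_eq_one_sub (μ := m.prod m) hA
    rw [h3, sub_self, measureReal_eq_zero_iff] at this
    exact this

/-- a joining invariant under `(1, u s)`, `s ≠ 0`, is the product -/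
theorem join_prod {ν : Measure (X × X)} (hν : IsJoin m ν) {s : ℝ} (hs : s ≠ 0)
    (h : ν.map (act2 (u s)) = ν) : ν = m.prod m := by
  have := hν.prob
  symm
  refine Measure.prod_eq fun A B hA hB => ?_
  set μA : Measure X := (ν.restrict (A ×ˢ univ)).map Prod.snd with hμA
  have happ : ∀ B : Set X, MeasurableSet B → μA B = ν (A ×ˢ B) := by
    intro B hB
    rw [hμA, Measure.map_apply measurable_snd hB, Measure.restrict_apply (measurable_snd hB)]
    congr 1
    ext ⟨x, y⟩
    simp [and_comm]
  have hact : Measurable (act2 (u s) : X × X → X × X) :=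
    measurable_fst.prodMk ((measurable_const_smul (u s)).comp measurable_snd)
  have hpres : MeasurePreserving (fun x : X => u s • x) μA μA := by
    refine ⟨measurable_const_smul (u s), ?_⟩
    ext B hB
    have hB' : MeasurableSet ((fun x : X => u s • x) ⁻¹' B) := measurable_const_smul (u s) hB
    rw [Measure.map_apply (measurable_const_smul (u s)) hB, happ _ hB', happ _ hB]
    conv_rhs => rw [← h, Measure.map_apply hact (hA.prod hB)]
    rfl
  have hac : μA ≪ m := by
    refine Measure.AbsolutelyContinuous.mk fun B hB h0 => ?_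
    rw [happ B hB]
    refine measure_mono_null (t := Prod.snd ⁻¹' B) ?_ ?_
    · rintro ⟨x, y⟩ hxy
      exact hxy.2
    · rw [← Measure.map_apply measurable_snd hB, hν.snd, h0]
  have hfin : IsFiniteMeasure μA := by
    rw [hμA]
    infer_instance
  obtain ⟨c, hc⟩ := (ergodic_uX m hs).eq_smul_of_absolutelyContinuous hpres hac
  have h1 : c = m A := by
    have e1 : μA univ = m A := by
      rw [happ _ MeasurableSet.univ, ← hν.fst, Measure.map_apply measurable_fst hA]
      congr 1
      ext ⟨x, y⟩
      simp
    rw [hc] at e1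
    simpa using e1
  rw [← happ B hB, hc, h1]
  simp

theorem comp_aux (Φ : X × X → X) (hΦ : Measurable Φ) (hc : ∀ z, Φ (u 1 • z) = u 1 • Φ z)
    (ν : Measure (X × X)) [IsProbabilityMeasure ν] (hm : ν.map Φ = m)
    (κ : Kernel (X × X) (X × X)) [IsMarkovKernel κ] (hκ : ν.bind κ = ν)
    (hinv : ∀ᵐ ω ∂ν, (κ ω).map (fun z => u 1 • z) = κ ω) :
    ∀ᵐ ω ∂ν, (κ ω).map Φ = m := by
  have h1 : (κ.map Φ) =ᵐ[ν] (Kernel.const _ m) := by
    refine Kernel.ae_eq_of_compProd_eq ?_
    rw [Measure.compProd_const]
    symm
    refine Measure.prod_eq fun S B hS hB => ?_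
    rw [Measure.compProd_apply_prod hS hB]
    set μS : Measure X := ((ν.restrict S).bind κ).map Φ with hμS
    have happ : ∀ B : Set X, MeasurableSet B → μS B = ∫⁻ ω in S, κ ω (Φ ⁻¹' B) ∂ν := by
      intro B hB
      rw [hμS, Measure.map_apply hΦ hB, Measure.bind_apply (hΦ hB) κ.measurable.aemeasurable]
    have hu1 : Measurable (fun z : X × X => u 1 • z) := measurable_const_smul (u 1)
    have hpres : MeasurePreserving (fun x : X => u 1 • x) μS μS := by
      refine ⟨measurable_const_smul (u 1), ?_⟩
      ext B hB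
      have hB' : MeasurableSet ((fun x : X => u 1 • x) ⁻¹' B) := measurable_const_smul (u 1) hB
      rw [Measure.map_apply (measurable_const_smul (u 1)) hB, happ _ hB', happ _ hB]
      refine lintegral_congr_ae ?_
      filter_upwards [ae_restrict_of_ae hinv] with ω hω
      conv_rhs => rw [← hω, Measure.map_apply hu1 (hΦ hB)]
      congr 1
      ext z
      simp only [mem_preimage, hc]
    have hac : μS ≪ m := by
      refine Measure.AbsolutelyContinuous.mk fun B hB h0 => ?_
      rw [happ B hB]
      refine le_antisymm ?_ zero_le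
      calc ∫⁻ ω in S, κ ω (Φ ⁻¹' B) ∂ν ≤ ∫⁻ ω, κ ω (Φ ⁻¹' B) ∂ν :=
            lintegral_mono' Measure.restrict_le_self le_rfl
        _ = ν.bind κ (Φ ⁻¹' B) := (Measure.bind_apply (hΦ hB) κ.measurable.aemeasurable).symm
        _ = 0 := by rw [hκ, ← Measure.map_apply hΦ hB, hm, h0]
    have hfin : IsFiniteMeasure μS := by
      refine ⟨?_⟩
      rw [happ _ MeasurableSet.univ]
      simp
    obtain ⟨c, hcc⟩ := (ergodic_uX m one_ne_zero).eq_smul_of_absolutelyContinuous hpres hac
    have h1 : c = ν S := by
      have e1 : μS univ = ν S := by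
        rw [happ _ MeasurableSet.univ]
        simp
      rw [hcc] at e1
      simpa using e1
    have h2 : ∫⁻ a in S, (κ.map Φ) a B ∂ν = μS B := by
      rw [happ B hB]
      refine lintegral_congr fun ω => ?_
      rw [Kernel.map_apply' _ hΦ _ hB]
    rw [h2, hcc, h1]
    simp
  filter_upwards [h1] with ω hω
  rw [Kernel.map_apply _ hΦ, Kernel.const_apply] at hω
  exact hω

/-- components of a joining are joinings -/
theorem comp_join {ν : Measure (X × X)} (hν : IsJoin m ν) (κ : Kernel (X × X) (X × X))
    [IsMarkovKernel κ] (hκ : ν.bind κ = ν) (hg : ∀ᵐ ω ∂ν, IsGen (κ ω)) :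
    ∀ᵐ ω ∂ν, IsJoin m (κ ω) := by
  have := hν.prob
  have hinv : ∀ᵐ ω ∂ν, (κ ω).map (fun z => u 1 • z) = κ ω := by
    filter_upwards [hg] with ω hω
    exact gen_inv hω 1
  filter_upwards [comp_aux m Prod.fst measurable_fst (fun _ => rfl) ν hν.fst κ hκ hinv,
    comp_aux m Prod.snd measurable_snd (fun _ => rfl) ν hν.snd κ hκ hinv] with ω h1 h2
  exact ⟨inferInstance, h1, h2⟩

end Pool.Agent.Work.MP_c9c104_nt
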