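import Pool.Agent.Work.MP_c9c104_nt.Class
import Pool.Agent.Work.MP_c9c104_nt.Count
import Pool.Agent.Work.MP_c9c104_nt.Lin
import Pool.Agent.Work.MP_c9c104_nt.LimMeas
import Pool.Agent.Work.MP_c9c104_nt.ErgDec
import Pool.Agent.Work.MP_c9c104_nt.Prod
import Pool.Agent.Work.MP_c9c104_nt.Tools

/-!
Finiteness of the bad orbits.
-/

open MeasureTheory Filter Topology Set ProbabilityTheory
open scoped ENNReal NNReal

namespace Pool.Agent.Work.MP_c9c104_nt

variable {X : Type} [TopologicalSpace X] [MeasurableSpace X] [MulAction G X] [HomSp X]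
variable {Z : Type} [TopologicalSpace Z] [MeasurableSpace Z] [MulAction G Z] [PhSp Z]

variable (m : Measure X) [IsProbabilityMeasure m] [SMulInvariantMeasure G X m]

omit [SMulInvariantMeasure G X m] in
/-- joinings are uniformly tight -/
theorem fin_tight {ε : ℝ} (hε : 0 < ε) : ∃ K : Set (X × X), IsCompact K ∧
    ∀ ν : Measure (X × X), IsJoin m ν → ν Kᶜ ≤ ENNReal.ofReal ε := by
  obtain ⟨χ, hχ, hχ1, hχ2⟩ := exists_cc_one m (ε := ε / 2) (half_pos hε)
  have hcl : IsClosed (tsupport χ) := isClosed_tsupport χ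
  have hK0 : m (tsupport χ)ᶜ ≤ ENNReal.ofReal (ε / 2) := by
    have h2 : ∫ y, χ y ∂m ≤ m.real (tsupport χ) := by
      rw [← integral_indicator_one hcl.measurableSet]
      refine integral_mono (cc_integrable hχ m)
        ((integrable_const (1 : ℝ)).indicator hcl.measurableSet) ?_
      intro y
      by_cases hy : y ∈ tsupport χ
      · simp only [indicator_of_mem hy, Pi.one_apply]; exact (hχ1 y).2
      · simp only [indicator_of_notMem hy]
        rw [image_eq_zero_of_notMem_tsupport hy]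
    have h3 : m.real (tsupport χ)ᶜ ≤ ε / 2 := by
      rw [probReal_compl_eq_one_sub hcl.measurableSet]; linarith
    rw [← ENNReal.ofReal_toReal (measure_ne_top m (tsupport χ)ᶜ)]
    exact ENNReal.ofReal_le_ofReal h3
  refine ⟨tsupport χ ×ˢ tsupport χ, hχ.2.prod hχ.2, fun ν hν => ?_⟩
  have h1 : (tsupport χ ×ˢ tsupport χ)ᶜ ⊆
      (Prod.fst ⁻¹' (tsupport χ)ᶜ : Set (X × X)) ∪ Prod.snd ⁻¹' (tsupport χ)ᶜ := by
    rintro ⟨x, y⟩ hz
    simp only [mem_compl_iff, mem_prod, not_and_or] at hz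
    exact hz
  calc ν (tsupport χ ×ˢ tsupport χ)ᶜ ≤ ν (Prod.fst ⁻¹' (tsupport χ)ᶜ) +
        ν (Prod.snd ⁻¹' (tsupport χ)ᶜ) := (measure_mono h1).trans (measure_union_le _ _)
    _ = m (tsupport χ)ᶜ + m (tsupport χ)ᶜ := by
        rw [← Measure.map_apply measurable_fst hcl.measurableSet.compl, hν.fst,
          ← Measure.map_apply measurable_snd hcl.measurableSet.compl, hν.snd]
    _ ≤ ENNReal.ofReal (ε / 2) + ENNReal.ofReal (ε / 2) := add_le_add hK0 hK0
    _ = ENNReal.ofReal ε := by rw [← ENNReal.ofReal_add (by positivity) (by positivity)]; ring_nf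

omit [SMulInvariantMeasure G X m] in
/-- limits of joinings are joinings -/
theorem fin_lim {ι : Type} (𝒰 : Ultrafilter ι) (ρ : ι → Measure (X × X))
    (hρ : ∀ i, IsJoin m (ρ i)) : ∃ ν : Measure (X × X), IsJoin m ν ∧
      ∀ φ : X × X → ℝ, Continuous φ → (∃ B, ∀ z, |φ z| ≤ B) →
      Tendsto (fun i => ∫ z, φ z ∂(ρ i)) 𝒰 (𝓝 (∫ z, φ z ∂ν)) := by
  obtain ⟨ν, hν, hlim⟩ := lim_meas 𝒰 ρ (fun i => (hρ i).prob) (by
    intro ε hε
    obtain ⟨K, hK, hK'⟩ := fin_tight m hε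
    exact ⟨K, hK, Eventually.of_forall fun i => hK' _ (hρ i)⟩)
  refine ⟨ν, ⟨hν, ?_, ?_⟩, hlim⟩
  · have := Measure.isProbabilityMeasure_map (μ := ν) (f := Prod.fst) measurable_fst.aemeasurable
    refine meas_ext fun f hf => ?_
    obtain ⟨B, hB0, hB⟩ := cc_bdd hf
    rw [integral_map measurable_fst.aemeasurable hf.1.aestronglyMeasurable]
    refine tendsto_nhds_unique (hlim (fun z => f z.1) (hf.1.comp continuous_fst)
      ⟨B, fun z => hB _⟩) ?_
    refine tendsto_const_nhds.congr fun i => ?_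
    rw [← (hρ i).fst, integral_map measurable_fst.aemeasurable hf.1.aestronglyMeasurable]
  · have := Measure.isProbabilityMeasure_map (μ := ν) (f := Prod.snd) measurable_snd.aemeasurable
    refine meas_ext fun f hf => ?_
    obtain ⟨B, hB0, hB⟩ := cc_bdd hf
    rw [integral_map measurable_snd.aemeasurable hf.1.aestronglyMeasurable]
    refine tendsto_nhds_unique (hlim (fun z => f z.2) (hf.1.comp continuous_snd)
      ⟨B, fun z => hB _⟩) ?_
    refine tendsto_const_nhds.congr fun i => ?_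
    rw [← (hρ i).snd, integral_map measurable_snd.aemeasurable hf.1.aestronglyMeasurable]

/-- small elements do not change integrals of compactly supported functions -/
theorem fin_small {ι : Type} {l : Filter ι} {φ : Z → ℝ} (hφ : Cc φ) {g : ι → G}
    (hg : Tendsto g l (𝓝 1)) {ε : ℝ} (hε : 0 < ε) :
    ∀ᶠ i in l, ∀ z, |φ (g i • z) - φ z| ≤ ε := by
  obtain ⟨δ, hδ, H⟩ := uc_one hφ hε
  filter_upwards [hg.eventually (nrm_mem δ hδ)] with i hi z
  exact H _ hi z

omit [IsProbabilityMeasure m] [SMulInvariantMeasure G X m] [HomSp X] [MulAction G X]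
  [TopologicalSpace X] in
theorem fin_int_close {α : Type} [MeasurableSpace α] (μ : Measure α) [IsProbabilityMeasure μ]
    {F H : α → ℝ} (hF : Integrable F μ) (hH : Integrable H μ) {ε : ℝ}
    (h : ∀ z, |F z - H z| ≤ ε) : |∫ z, F z ∂μ - ∫ z, H z ∂μ| ≤ ε := by
  rw [← integral_sub hF hH]
  have := norm_integral_le_of_norm_le_const (μ := μ) (f := fun w => F w - H w) (C := ε)
    (ae_of_all _ fun z => by simpa [Real.norm_eq_abs] using h z)
  simpa [Real.norm_eq_abs] using this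

omit m [IsProbabilityMeasure m] [SMulInvariantMeasure G X m] in
/-- correlations with moving parameters -/
theorem fin_corr {ι : Type} {𝒰 : Filter ι} {ρ : ι → Measure (X × X)}
    (hρ : ∀ i, IsProbabilityMeasure (ρ i)) {ν : Measure (X × X)} [IsProbabilityMeasure ν]
    (hlim : ∀ φ : X × X → ℝ, Continuous φ → (∃ B, ∀ z, |φ z| ≤ B) →
      Tendsto (fun i => ∫ z, φ z ∂(ρ i)) 𝒰 (𝓝 (∫ z, φ z ∂ν)))
    {f : X → ℝ} (hf : Cc f) {g : ι → G} {g0 : G} (hg : Tendsto g 𝒰 (𝓝 g0)) :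
    Tendsto (fun i => ∫ z, f z.1 * f (g i • z.2) ∂(ρ i)) 𝒰
      (𝓝 (∫ z, f z.1 * f (g0 • z.2) ∂ν)) := by
  obtain ⟨B, hB0, hB⟩ := cc_bdd hf
  have hc : ∀ h : G, Continuous fun z : X × X => f z.1 * f (h • z.2) := fun h =>
    (hf.1.comp continuous_fst).mul
      (hf.1.comp ((continuous_const_smul h).comp continuous_snd))
  have hb : ∀ (h : G) (z : X × X), |f z.1 * f (h • z.2)| ≤ B * B := fun h z => by
    rw [abs_mul]; exact mul_le_mul (hB _) (hB _) (abs_nonneg _) hB0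
  have h0 := hlim _ (hc g0) ⟨B * B, hb g0⟩
  have hgg : Tendsto (fun i => g i * g0⁻¹) 𝒰 (𝓝 1) := by
    have := hg.mul_const g0⁻¹
    rwa [mul_inv_cancel] at this
  rw [Metric.tendsto_nhds] at h0 ⊢
  intro ε hε
  have hB1 : 0 < B + 1 := by linarith
  filter_upwards [h0 (ε / 2) (half_pos hε),
    fin_small hf hgg (ε := ε / (4 * (B + 1))) (by positivity)] with i h1 h2
  have := hρ i
  have hint : ∀ h : G, Integrable (fun z : X × X => f z.1 * f (h • z.2)) (ρ i) := fun h =>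
    Integrable.of_bound (hc h).aestronglyMeasurable (B * B) (ae_of_all _ fun y => hb h y)
  have h3 := fin_int_close (ρ i) (hint (g i)) (hint g0) (ε := ε / 4) (by
    intro z
    rw [← mul_sub, abs_mul]
    have e1 : g i • z.2 = (g i * g0⁻¹) • g0 • z.2 := by
      rw [← mul_smul]; congr 1; group
    rw [e1]
    have h4 := h2 (g0 • z.2)
    calc |f z.1| * _ ≤ (B + 1) * (ε / (4 * (B + 1))) :=
          mul_le_mul (by linarith [hB z.1]) h4 (abs_nonneg _) hB1.le
      _ = ε / 4 := by field_simp)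
  rw [Real.dist_eq] at h1 ⊢
  have h1' := abs_lt.1 h1
  have h3' := abs_le.1 h3
  rw [abs_lt]
  constructor <;> linarith [h1'.1, h1'.2, h3'.1, h3'.2]

theorem fin_prod_corr {f : X → ℝ} (g : G) :
    ∫ z, f z.1 * f (g • z.2) ∂(m.prod m) = (∫ x, f x ∂m) ^ 2 := by
  have h1 := integral_prod_mul (μ := m) (ν := m) f (fun y => f (g • y))
  have h2 : ∫ y, f (g • y) ∂m = ∫ y, f y ∂m := integral_smul_eq_self f (g := g)
  rw [h1, h2, sq]

/-- if the limit of joinings is the product then the correlations are small -/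
theorem fin_corr_contra {ι : Type} {𝒰 : Filter ι} [𝒰.NeBot] {ρ : ι → Measure (X × X)}
    (hρ : ∀ i, IsProbabilityMeasure (ρ i))
    (hlim : ∀ φ : X × X → ℝ, Continuous φ → (∃ B, ∀ z, |φ z| ≤ B) →
      Tendsto (fun i => ∫ z, φ z ∂(ρ i)) 𝒰 (𝓝 (∫ z, φ z ∂(m.prod m))))
    {f : X → ℝ} (hf : Cc f) {g : ι → G} {g0 : G} (hg : Tendsto g 𝒰 (𝓝 g0)) {ε : ℝ} (hε : 0 < ε)
    (h : ∀ i, ε ≤ |(∫ z, f z.1 * f (g i • z.2) ∂(ρ i)) - (∫ x, f x ∂m) ^ 2|) : False := by
  have h1 := fin_corr hρ hlim hf hg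
  rw [fin_prod_corr m g0] at h1
  have h2 := (h1.sub_const ((∫ x, f x ∂m) ^ 2)).abs
  rw [sub_self, abs_zero] at h2
  obtain ⟨i, hi⟩ := ((tendsto_order.1 h2).2 ε hε).exists
  exact absurd (h i) (not_le.2 hi)

omit [IsProbabilityMeasure m] [SMulInvariantMeasure G X m] in
theorem fin_gen {σ : Measure (X × X)} {O : Set (X × X)} (hσ : IsFO m σ O) : IsGen σ := by
  have := hσ.join.prob
  have hs : SMulInvariantMeasure G (X × X) σ := by
    refine ⟨fun g s hs => ?_⟩
    have h1 := hσ.inv g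
    conv_rhs => rw [← h1]
    rw [Measure.map_apply (measurable_const_smul g) hs]
  obtain ⟨z0, hz0, _⟩ := hσ.orb
  refine gen_of_ergodic σ (fun s => hσ.inv (u s)) (ergodic_u σ z0 ?_ one_ne_zero)
  rw [← hz0]; exact hσ.full

include m in
theorem fin_gen_m : IsGen m :=
  gen_of_ergodic m (fun s => map_smul_inv m (u s)) (ergodic_uX m one_ne_zero)

/-- the union of the translates of `O` by `u_c` with `|c| ≤ S` -/
def finE (O : Set (X × X)) (S : ℝ) : Set (X × X) := {z | ∃ c : ℝ, |c| ≤ S ∧ act2 (u c) z ∈ O}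

omit [MeasurableSpace X] in
theorem fin_continuous_act2u [ContinuousSMul G X] :
    Continuous fun p : ℝ × (X × X) => act2 (u p.1) p.2 :=
  (continuous_fst.comp continuous_snd).prodMk
    ((continuous_u.comp continuous_fst).smul (continuous_snd.comp continuous_snd))

theorem fin_isClosed_E {O : Set (X × X)} (hO : IsClosed O) (S : ℝ) : IsClosed (finE O S) := by
  let C : Set (Icc (-S) S × (X × X)) := {p | act2 (u (p.1 : ℝ)) p.2 ∈ O}
  have hC : IsClosed C := by
    refine hO.preimage ?_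
    exact fin_continuous_act2u.comp ((continuous_subtype_val.comp continuous_fst).prodMk
      continuous_snd)
  have hE : finE O S = Prod.snd '' C := by
    ext z
    constructor
    · rintro ⟨c, hc, hz⟩
      exact ⟨(⟨c, abs_le.1 hc⟩, z), hz, rfl⟩
    · rintro ⟨⟨c, z'⟩, hz, rfl⟩
      exact ⟨c, abs_le.2 c.2, hz⟩
  rw [hE]
  exact isClosedMap_snd_of_compactSpace _ hC

theorem fin_E_subset_nbh {O : Set (X × X)} {S r : ℝ} (hr : 0 < r) :
    finE O S ⊆ nbh O r S := by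
  rintro z ⟨c, hc, hz⟩
  have h1 := act2_mem_nbh (S := S) hz hr (c := -c) (by rwa [abs_neg])
  have h2 : act2 (u (-c)) (act2 (u c) z) = z := by
    rw [← act2_mul, u_neg_mul, act2_one]
  rwa [h2] at h1

/-- a nontrivial invariant joining charges the neighbourhood of some finite orbit -/
theorem fin_exists_orbit {ν : Measure (X × X)} (hj : IsJoin m ν)
    (hinv : ∀ s : ℝ, ν.map (fun z => u s • z) = ν) (hp : ν ≠ m.prod m) :
    ∃ O : Set (X × X), FinOrb O ∧ ∃ S : ℕ, 0 < ν (finE O S) := by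
  have := hj.prob
  obtain ⟨κ, hκ, hκν, hgen⟩ := erg_decomp ν hinv
  have hjo := comp_join m hj κ hκν hgen
  by_contra hcon
  push Not at hcon
  have hE : ∀ O : Set (X × X), FinOrb O → ∀ S : ℕ, ∀ᵐ ω ∂ν, κ ω (finE O S) = 0 := by
    intro O hO S
    have h1 : ν (finE O S) = 0 := le_antisymm (hcon O hO S) bot_le
    have hm : MeasurableSet (finE O S) := (fin_isClosed_E (finOrb_closed hO) S).measurableSet
    rw [← hκν, Measure.bind_apply hm κ.measurable.aemeasurable] at h1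
    rw [lintegral_eq_zero_iff (κ.measurable_coe hm)] at h1
    exact h1
  have hE' : ∀ᵐ ω ∂ν, ∀ O ∈ {O : Set (X × X) | FinOrb O}, ∀ S : ℕ, κ ω (finE O S) = 0 := by
    rw [ae_ball_iff (countable_finOrb m)]
    intro O hO
    rw [ae_all_iff]
    exact hE O hO
  have hprod : ∀ᵐ ω ∂ν, κ ω = m.prod m := by
    filter_upwards [hgen, hjo, hE'] with ω h1 h2 h3
    rcases joining_class m h1 h2 with h4 | ⟨c, O, σ, hσ, h4⟩
    · exact h4
    · exfalso
      have hσp := hσ.join.prob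
      obtain ⟨S, hS⟩ := exists_nat_ge |c|
      have h5 := h3 O hσ.orb S
      rw [h4, Measure.map_apply (measurable_act2 _)
        (fin_isClosed_E (finOrb_closed hσ.orb) S).measurableSet] at h5
      have h6 : ∀ᵐ z ∂σ, z ∈ act2 (u c) ⁻¹' finE O S := by
        filter_upwards [hσ.full] with z hz
        refine ⟨-c, by rwa [abs_neg], ?_⟩
        rw [← act2_mul, u_neg_mul, act2_one]
        exact hz
      have h7 : σ univ = 0 := by
        have h8 : σ (act2 (u c) ⁻¹' finE O S)ᶜ = 0 := h6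
        have h9 := measure_union_le (μ := σ) (act2 (u c) ⁻¹' finE O S)
          (act2 (u c) ⁻¹' finE O S)ᶜ
        rw [union_compl_self, h5, h8, add_zero] at h9
        exact le_antisymm h9 bot_le
      rw [measure_univ] at h7
      exact one_ne_zero h7
  apply hp
  ext A hA
  rw [← hκν, Measure.bind_apply hA κ.measurable.aemeasurable]
  rw [lintegral_congr_ae (g := fun _ => (m.prod m) A) (by
    filter_upwards [hprod] with ω hω; rw [hω])]
  simp

/-- linearization at a generic point -/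
theorem fin_lin {O1 O : Set (X × X)} {σ : Measure (X × X)} (hσ : IsFO m σ O1) (hO : FinOrb O)
    {S0 ε0 L r2 : ℝ} (hε : 0 < ε0) (hL : 0 < L) {θ : X → ℝ} (hθc : Cc (fun x => 1 - θ x))
    (hθ8 : ∫ x, θ x ∂m ≤ ε0 / 8)
    (H : ∀ (z : X × X) (M : ℝ), 0 < M →
        ENNReal.ofReal (ε0 * M) ≤ volume {s ∈ Icc 0 M | u s • z ∈ nbh O r2 S0} →
        avg θ M z.1 ≤ ε0 / 4 →
        ∃ W ∈ disp O z, |W 0 1| ≤ L ∧ |W 0 0 - W 1 1| ≤ L / M ∧ |W 1 0| ≤ L / M ^ 2 ∧
          0 < W 0 0 + W 1 1)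
    (hnb : ε0 < σ.real (nbh O r2 S0)) : ∀ᵐ z ∂σ, ∃ b : ℝ, u b ∈ disp O z := by
  have := hσ.join.prob
  obtain ⟨φ, hφ, hφ1, hφ0, hφi⟩ := exists_cc_lower σ (isOpen_nbh hO r2 S0) hnb
  have hgm := (fin_gen_m m).2
  rw [← hσ.join.fst] at hgm
  have hg1 : ∀ᵐ z ∂σ, GenPt m z.1 := by
    have := ae_of_ae_map measurable_fst.aemeasurable hgm
    rwa [hσ.join.fst] at this
  filter_upwards [(fin_gen m hσ).2, hg1] with z hz hz1
  -- eventually the hypotheses hold
  have e1 : ∀ᶠ T : ℝ in atTop, ε0 < avg φ T z := (tendsto_order.1 (hz φ hφ)).1 _ hφi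
  have hθcont : Continuous θ := by
    have := (continuous_const (y := (1 : ℝ))).sub hθc.1
    exact this.congr fun x => by simp
  have e2 : ∀ᶠ T : ℝ in atTop, avg θ T z.1 < ε0 / 4 := by
    have h1 := hz1 _ hθc
    have h2 : ∫ x, (1 - θ x) ∂m = 1 - ∫ x, θ x ∂m := by
      have h3 : Integrable θ m := by
        have := (integrable_const (1 : ℝ)).sub (cc_integrable hθc m)
        refine this.congr (ae_of_all _ fun x => ?_)
        simp
      rw [integral_sub (integrable_const _) h3]; simp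
    have h4 : 1 - ε0 / 4 < ∫ x, (1 - θ x) ∂m := by rw [h2]; linarith
    filter_upwards [(tendsto_order.1 h1).1 _ h4, eventually_gt_atTop 0] with T hT hT0
    have h5 : avg (fun x => 1 - θ x) T z.1 = 1 - avg θ T z.1 := by
      unfold avg
      rw [intervalIntegral.integral_sub (intervalIntegrable_const)
        ((cont_orbit hθcont z.1).intervalIntegrable _ _)]
      simp only [intervalIntegral.integral_const, sub_zero, smul_eq_mul, mul_one]
      field_simp
    rw [h5] at hT; linarith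
  have e3 : ∀ᶠ n : ℕ in atTop, ∃ W ∈ disp O z, |W 0 1| ≤ L ∧ |W 0 0 - W 1 1| ≤ L / n ∧
      |W 1 0| ≤ L / (n : ℝ) ^ 2 ∧ 0 < W 0 0 + W 1 1 := by
    filter_upwards [tendsto_natCast_atTop_atTop.eventually e1,
      tendsto_natCast_atTop_atTop.eventually e2, eventually_gt_atTop 0] with n h1 h2 h3
    have h3' : (0 : ℝ) < n := by exact_mod_cast h3
    exact H z n h3' (time_lower hφ hφ1 hφ0 h3' z h1.le) h2.le
  -- pigeonhole
  let 𝒰 : Ultrafilter ℕ := Filter.hyperfilter ℕ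
  have hle : (𝒰 : Filter ℕ) ≤ atTop := by
    rw [← Nat.cofinite_eq_atTop]; exact Filter.hyperfilter_le_cofinite
  have e4 : ∀ᶠ n : ℕ in (𝒰 : Filter ℕ), ∃ W ∈ {W : G | W ∈ disp O z ∧ ∀ i j, |W i j| ≤
      2 * L + 1}, |W 0 0 - W 1 1| ≤ L / n ∧ |W 1 0| ≤ L / (n : ℝ) ^ 2 ∧ 0 < W 0 0 + W 1 1 := by
    filter_upwards [hle e3, hle (eventually_ge_atTop 1)] with n ⟨W, h1, h2, h3, h4, h5⟩ hn
    refine ⟨W, ⟨h1, ?_⟩, h3, h4, h5⟩
    have hn1 : (1 : ℝ) ≤ n := by exact_mod_cast hn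
    have h3' : |W 0 0 - W 1 1| ≤ L := h3.trans (div_le_self hL.le hn1)
    have h4' : |W 1 0| ≤ L := h4.trans (div_le_self hL.le (one_le_pow₀ hn1))
    have hd := G_det W
    have hBC : |W 0 1 * W 1 0| ≤ L * L := by
      rw [abs_mul]; exact mul_le_mul h2 h4' (abs_nonneg _) hL.le
    have hBC' := abs_le.1 hBC
    have hAD := abs_le.1 h3'
    have hsq : (W 0 0 + W 1 1) ^ 2 ≤ (3 * L + 2) ^ 2 := by nlinarith
    have hs' := abs_le.1 (abs_le_of_sq_le_sq hsq (by positivity))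
    have e00 : |W 0 0| ≤ 2 * L + 1 := by rw [abs_le]; constructor <;> linarith [hs'.1, hs'.2]
    have e11 : |W 1 1| ≤ 2 * L + 1 := by rw [abs_le]; constructor <;> linarith [hs'.1, hs'.2]
    intro i j
    fin_cases i <;> fin_cases j
    · exact e00
    · change |W 0 1| ≤ _; linarith
    · change |W 1 0| ≤ _; linarith
    · exact e11
  obtain ⟨W, hW, hWe⟩ := (Ultrafilter.eventually_exists_mem_iff (disp_finite hO z (2 * L + 1))).1 e4
  have l1 : Tendsto (fun n : ℕ => L / (n : ℝ)) 𝒰 (𝓝 0) :=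
    (tendsto_const_div_atTop_nhds_zero_nat L).mono_left hle
  have l2 : Tendsto (fun n : ℕ => L / (n : ℝ) ^ 2) 𝒰 (𝓝 0) :=
    (tendsto_const_div_pow L 2 two_ne_zero).mono_left hle
  have f1 : |W 0 0 - W 1 1| ≤ 0 := ge_of_tendsto l1 (hWe.mono fun n h => h.1)
  have f2 : |W 1 0| ≤ 0 := ge_of_tendsto l2 (hWe.mono fun n h => h.2.1)
  obtain ⟨n, _, _, f3⟩ := hWe.exists
  have g1 : W 0 0 - W 1 1 = 0 := abs_nonpos_iff.1 f1
  have g2 : W 1 0 = 0 := abs_nonpos_iff.1 f2
  have hd := G_det W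
  rw [g2] at hd
  have g3 : W 1 1 = W 0 0 := by linarith
  rw [g3] at hd f3
  have g4 : W 0 0 = 1 := by nlinarith
  refine ⟨W 0 1, ?_⟩
  have hWu : W = u (W 0 1) := by
    apply G_ext
    · rw [u00, g4]
    · rw [u01]
    · rw [u10, g2]
    · rw [u11, g3, g4]
  rw [← hWu]; exact hW.1

/-- translates of different orbits are almost surely different -/
theorem fin_same {O1 O : Set (X × X)} {σ : Measure (X × X)} (hσ : IsFO m σ O1) (hO : FinOrb O)
    (h : ∀ᵐ z ∂σ, ∃ b : ℝ, u b ∈ disp O z) : O1 = O := by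
  have hσp := hσ.join.prob
  by_contra hne
  obtain ⟨x0, hx0⟩ : ∃ x0 : X, True := by
    obtain ⟨x0⟩ := nonempty_of_prob m; exact ⟨x0, trivial⟩
  -- disjoint orbits
  have hdis : ∀ z, z ∈ O1 → z ∉ O := by
    intro z h1 h2
    exact hne ((finOrb_eq_orbit hσ.orb h1).trans (finOrb_eq_orbit hO h2).symm)
  let D : Set G := {δ | ∃ y, (x0, y) ∈ O1 ∧ (x0, δ • y) ∈ O}
  have hD : D.Countable := by
    obtain ⟨k1, _, hk1⟩ := finOrb_fibre hσ.orb
    obtain ⟨k2, _, hk2⟩ := finOrb_fibre hO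
    have : D ⊆ ⋃ y ∈ {y | (x0, y) ∈ O1}, ⋃ y' ∈ {y | (x0, y) ∈ O}, ⋃ n : ℕ,
        {g : G | g • y = y' ∧ ∀ i j, |g i j| ≤ (n : ℝ)} := by
      rintro δ ⟨y, h1, h2⟩
      simp only [mem_iUnion, exists_prop]
      obtain ⟨n, hn⟩ := exists_nat_ge (max (max |δ 0 0| |δ 0 1|) (max |δ 1 0| |δ 1 1|))
      refine ⟨y, h1, δ • y, h2, n, rfl, ?_⟩
      intro i j
      fin_cases i <;> fin_cases j
      · exact (le_max_left _ _).trans ((le_max_left _ _).trans hn)
      · exact (le_max_right _ _).trans ((le_max_left _ _).trans hn)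
      · exact (le_max_left _ _).trans ((le_max_right _ _).trans hn)
      · exact (le_max_right _ _).trans ((le_max_right _ _).trans hn)
    refine Set.Countable.mono this ?_
    refine (hk1 x0).1.countable.biUnion fun y _ => ?_
    refine (hk2 x0).1.countable.biUnion fun y' _ => ?_
    exact countable_iUnion fun n => (between_finite y y' n).countable
  have hD1 : ∀ δ ∈ D, δ ≠ 1 := by
    rintro δ ⟨y, h1, h2⟩ rfl
    rw [one_smul] at h2
    exact hdis _ h1 h2
  let lam : Measure G := Measure.haar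
  have hnull : ∀ᵐ g ∂lam, ∀ δ ∈ D, ∀ c : ℝ, g * δ * g⁻¹ ≠ u c := by
    rw [ae_ball_iff hD]
    intro δ hδ
    exact null_conj lam δ (hD1 δ hδ)
  have hm : ∀ᵐ x ∂m, ∀ (y : X) (c : ℝ), (x, y) ∈ O1 → (x, u c • y) ∉ O := by
    rw [ae_iff_ae m lam x0]
    filter_upwards [hnull] with g hg y c h1 h2
    refine hg (g⁻¹ * u c * g) ⟨g⁻¹ • y, ?_, ?_⟩ c (by group)
    · rw [← finOrb_smul hσ.orb g]
      simpa using h1
    · rw [← finOrb_smul hO g]
      have e : g • (x0, (g⁻¹ * u c * g) • g⁻¹ • y) = (g • x0, u c • y) := by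
        refine Prod.ext rfl ?_
        change g • (g⁻¹ * u c * g) • g⁻¹ • y = u c • y
        rw [← mul_smul, ← mul_smul]; congr 1; group
      rw [e]; exact h2
  rw [← hσ.join.fst] at hm
  have hm' := ae_of_ae_map measurable_fst.aemeasurable hm
  have hfalse : ∀ᵐ z ∂σ, False := by
    filter_upwards [h, hm', hσ.full] with z ⟨b, hb⟩ h2 h3
    refine h2 z.2 (-b) h3 ?_
    have h4 : (z.1, (u b)⁻¹ • z.2) ∈ O := hb
    rwa [u_inv] at h4
  rw [ae_iff] at hfalse
  simp at hfalse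

/-- the shift parameters are bounded -/
theorem fin_shift {f : X → ℝ} (hf : Cc f) {ε : ℝ} (hε : 0 < ε) :
    ∃ S0 > 0, ∀ (σ : Measure (X × X)) (O : Set (X × X)) (c τ : ℝ), IsFO m σ O → |τ| ≤ 1 →
        ε ≤ |(∫ z, f z.1 * f (a (-τ) • u c • z.2) ∂σ) - (∫ x, f x ∂m) ^ 2| → |c| ≤ S0 := by
  by_contra hcon
  push Not at hcon
  have h1 : ∀ n : ℕ, ∃ (σ : Measure (X × X)) (O : Set (X × X)) (c τ : ℝ), IsFO m σ O ∧ |τ| ≤ 1 ∧
      ε ≤ |(∫ z, f z.1 * f (a (-τ) • u c • z.2) ∂σ) - (∫ x, f x ∂m) ^ 2| ∧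
      (n : ℝ) + 1 < |c| := by
    intro n
    obtain ⟨σ, O, c, τ, h1, h2, h3, h4⟩ := hcon ((n : ℝ) + 1) (by positivity)
    exact ⟨σ, O, c, τ, h1, h2, h3, h4⟩
  choose σ O c τ hσ hτ hcor hc using h1
  let 𝒰 : Ultrafilter ℕ := Filter.hyperfilter ℕ
  have hle : (𝒰 : Filter ℕ) ≤ atTop := by
    rw [← Nat.cofinite_eq_atTop]; exact Filter.hyperfilter_le_cofinite
  let ρ : ℕ → Measure (X × X) := fun n => (σ n).map (act2 (u (c n)))
  have hρ : ∀ n, IsJoin m (ρ n) := fun n => join_act2 (hσ n).join _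
  obtain ⟨ν, hν, hlim⟩ := fin_lim m 𝒰 ρ hρ
  have hνp := hν.prob
  -- limit of tau
  obtain ⟨τ0, _, hτ0⟩ := (isCompact_Icc (a := (-1 : ℝ)) (b := 1)).ultrafilter_le_nhds (𝒰.map τ) (by
    rw [Ultrafilter.coe_map, le_principal_iff, mem_map]
    exact Filter.univ_mem' fun n => abs_le.1 (hτ n))
  rw [Ultrafilter.coe_map] at hτ0
  have hτ0' : Tendsto τ 𝒰 (𝓝 τ0) := hτ0
  have hg : Tendsto (fun n => a (-(τ n))) 𝒰 (𝓝 (a (-τ0))) :=
    (continuous_a.tendsto _).comp (hτ0'.neg)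
  -- the conjugating times
  have hc1 : ∀ n, 1 < |c n| := fun n => by
    have := hc n
    have : (0 : ℝ) ≤ n := Nat.cast_nonneg n
    linarith
  have hcne : ∀ n, c n ≠ 0 := fun n h => by
    have := hc1 n; rw [h, abs_zero] at this; linarith
  have hinv0 : Tendsto (fun n => 1 / c n) 𝒰 (𝓝 0) := by
    rw [tendsto_zero_iff_norm_tendsto_zero]
    refine squeeze_zero (fun _ => norm_nonneg _) (fun n => ?_)
      ((tendsto_one_div_add_atTop_nhds_zero_nat (𝕜 := ℝ)).mono_left hle)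
    rw [norm_div, norm_one, Real.norm_eq_abs]
    exact one_div_le_one_div_of_le (by positivity) (hc n).le
  let t : ℕ → ℝ := fun n => Real.log (1 + 1 / c n) / 2
  have ht0 : Tendsto t 𝒰 (𝓝 0) := by
    have h1 : Tendsto (fun n => Real.log (1 + 1 / c n)) 𝒰 (𝓝 (Real.log (1 + 0))) :=
      (Real.continuousAt_log (by norm_num)).tendsto.comp (tendsto_const_nhds.add hinv0)
    have h2 := h1.div_const 2
    rw [add_zero, Real.log_one, zero_div] at h2
    exact h2
  have hexp : ∀ n, Real.exp (2 * t n) * c n = 1 + c n := by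
    intro n
    have h1 : 0 < 1 + 1 / c n := by
      have h2 : |1 / c n| < 1 := by
        rw [abs_div, abs_one, div_lt_one (by linarith [hc1 n])]; exact hc1 n
      have := (abs_lt.1 h2).1
      linarith
    have h3 : 2 * t n = Real.log (1 + 1 / c n) := by simp only [t]; ring
    rw [h3, Real.exp_log h1]
    have := hcne n
    field_simp
    ring
  have hsm : Tendsto (fun n => a (t n)) 𝒰 (𝓝 1) := by
    have := (continuous_a.tendsto 0).comp ht0
    rwa [a_zero] at this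
  -- invariance of the limit
  have hνinv : ν.map (act2 (u 1)) = ν := by
    have := Measure.isProbabilityMeasure_map (μ := ν) (measurable_act2 (X := X) (u 1)).aemeasurable
    refine meas_ext fun φ hφ => ?_
    obtain ⟨B, hB0, hB⟩ := cc_bdd hφ
    rw [integral_map (measurable_act2 _).aemeasurable hφ.1.aestronglyMeasurable]
    have l1 := hlim (fun z => φ (act2 (u 1) z)) (hφ.1.comp (continuous_act2 _)) ⟨B, fun z => hB _⟩
    have l2 := hlim φ hφ.1 ⟨B, hB⟩
    refine tendsto_nhds_unique l1 ?_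
    have key : ∀ n, ∫ z, φ (act2 (u 1) z) ∂(ρ n) = ∫ z, φ (a (t n) • z) ∂(ρ n) := by
      intro n
      have hmeas : Measurable fun z : X × X => a (t n) • z := measurable_const_smul _
      have i1 : ∫ z, φ (act2 (u 1) z) ∂(ρ n) =
          ∫ z, φ (act2 (u 1) (act2 (u (c n)) z)) ∂(σ n) := by
        exact integral_map (f := fun z => φ (act2 (u 1) z)) (measurable_act2 _).aemeasurable
          (hφ.1.comp (continuous_act2 _)).aestronglyMeasurable
      have i2 : ∫ z, φ (a (t n) • z) ∂(ρ n) =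
          ∫ z, φ (a (t n) • act2 (u (c n)) z) ∂(σ n) := by
        exact integral_map (f := fun z => φ (a (t n) • z)) (measurable_act2 _).aemeasurable
          (hφ.1.comp (continuous_const_smul _)).aestronglyMeasurable
      rw [i1, i2]
      conv_lhs => rw [← (hσ n).inv (a (t n))]
      rw [integral_map (f := fun z => φ (act2 (u 1) (act2 (u (c n)) z))) hmeas.aemeasurable
        (hφ.1.comp ((continuous_act2 _).comp (continuous_act2 _))).aestronglyMeasurable]
      refine integral_congr_ae (ae_of_all _ fun z => ?_)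
      change φ _ = φ _
      congr 1
      refine Prod.ext rfl ?_
      change u 1 • u (c n) • a (t n) • z.2 = a (t n) • u (c n) • z.2
      rw [← mul_smul, ← mul_smul, ← mul_smul, a_mul_u, hexp, u_add]
    simp_rw [key]
    rw [Metric.tendsto_nhds] at l2 ⊢
    intro δ hδ
    filter_upwards [l2 (δ / 2) (half_pos hδ), fin_small hφ hsm (ε := δ / 4) (by positivity)]
      with n h1 h2
    have := (hρ n).prob
    have h3 := fin_int_close (ρ n) (cc_integrable (cc_smul hφ (a (t n))) (ρ n))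
      (cc_integrable hφ (ρ n)) h2
    rw [Real.dist_eq] at h1 ⊢
    have h1' := abs_lt.1 h1
    have h3' := abs_le.1 h3
    rw [abs_lt]
    constructor <;> linarith [h1'.1, h1'.2, h3'.1, h3'.2]
  have hνprod : ν = m.prod m := join_prod m hν one_ne_zero hνinv
  subst hνprod
  refine fin_corr_contra m (fun n => (hρ n).prob) hlim hf hg hε fun n => ?_
  have e : ∫ z, f z.1 * f (a (-(τ n)) • z.2) ∂(ρ n) =
      ∫ z, f z.1 * f (a (-(τ n)) • u (c n) • z.2) ∂(σ n) := by
    simp only [ρ]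
    rw [integral_map (measurable_act2 _).aemeasurable]
    · rfl
    · exact ((hf.1.comp continuous_fst).mul
        (hf.1.comp ((continuous_const_smul _).comp continuous_snd))).aestronglyMeasurable
  rw [e]; exact hcor n

theorem finite_bad {f : X → ℝ} (hf : Cc f) {ε : ℝ} (hε : 0 < ε) :
    ∃ OO : Set (Set (X × X)), OO.Finite ∧ (∀ O ∈ OO, FinOrb O) ∧ ∃ S0 > 0,
      ∀ (σ : Measure (X × X)) (O : Set (X × X)) (c τ : ℝ), IsFO m σ O → |τ| ≤ 1 →
        ε ≤ |(∫ z, f z.1 * f (a (-τ) • u c • z.2) ∂σ) - (∫ x, f x ∂m) ^ 2| →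
        O ∈ OO ∧ |c| ≤ S0 := by
  obtain ⟨S0, hS0, HS⟩ := fin_shift m hf hε
  let OO : Set (Set (X × X)) := {O | ∃ (σ : Measure (X × X)) (c τ : ℝ), IsFO m σ O ∧ |τ| ≤ 1 ∧
    ε ≤ |(∫ z, f z.1 * f (a (-τ) • u c • z.2) ∂σ) - (∫ x, f x ∂m) ^ 2|}
  refine ⟨OO, ?_, ?_, S0, hS0, fun σ O c τ h1 h2 h3 => ⟨⟨σ, c, τ, h1, h2, h3⟩,
    HS σ O c τ h1 h2 h3⟩⟩
  swap
  · rintro O ⟨σ, c, τ, h1, _, _⟩
    exact h1.orb
  by_contra hinf
  have hinf' : OO.Infinite := hinf
  let e := hinf'.natEmbedding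
  let O : ℕ → Set (X × X) := fun n => (e n : Set (X × X))
  have hinj : Function.Injective O := fun i j hij => e.injective (Subtype.ext hij)
  have hmem : ∀ n, O n ∈ OO := fun n => (e n).2
  choose σ c τ hσ hτ hcor using hmem
  have hc : ∀ n, |c n| ≤ S0 := fun n => HS _ _ _ _ (hσ n) (hτ n) (hcor n)
  let 𝒰 : Ultrafilter ℕ := Filter.hyperfilter ℕ
  have hρ : ∀ n, IsJoin m (σ n) := fun n => (hσ n).join
  obtain ⟨ν, hν, hlim⟩ := fin_lim m 𝒰 σ hρ
  have hνp := hν.prob
  obtain ⟨τ0, _, hτ0⟩ := (isCompact_Icc (a := (-1 : ℝ)) (b := 1)).ultrafilter_le_nhds (𝒰.map τ) (by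
    rw [Ultrafilter.coe_map, le_principal_iff, mem_map]
    exact Filter.univ_mem' fun n => abs_le.1 (hτ n))
  rw [Ultrafilter.coe_map] at hτ0
  have hτ0' : Tendsto τ 𝒰 (𝓝 τ0) := hτ0
  obtain ⟨c0, _, hc0⟩ := (isCompact_Icc (a := -S0) (b := S0)).ultrafilter_le_nhds (𝒰.map c) (by
    rw [Ultrafilter.coe_map, le_principal_iff, mem_map]
    exact Filter.univ_mem' fun n => abs_le.1 (hc n))
  rw [Ultrafilter.coe_map] at hc0
  have hc0' : Tendsto c 𝒰 (𝓝 c0) := hc0
  have hg : Tendsto (fun n => a (-(τ n)) * u (c n)) 𝒰 (𝓝 (a (-τ0) * u c0)) :=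
    ((continuous_a.tendsto _).comp (hτ0'.neg)).mul ((continuous_u.tendsto _).comp hc0')
  have hinv : ∀ s : ℝ, ν.map (fun z => u s • z) = ν := by
    intro s
    have hmeas : Measurable fun z : X × X => u s • z := measurable_const_smul _
    have := Measure.isProbabilityMeasure_map (μ := ν) hmeas.aemeasurable
    refine meas_ext fun φ hφ => ?_
    obtain ⟨B, hB0, hB⟩ := cc_bdd hφ
    rw [integral_map hmeas.aemeasurable hφ.1.aestronglyMeasurable]
    have l1 := hlim (fun z => φ (u s • z)) (hφ.1.comp (continuous_const_smul _)) ⟨B, fun z => hB _⟩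
    have l2 := hlim φ hφ.1 ⟨B, hB⟩
    refine tendsto_nhds_unique l1 (l2.congr fun n => ?_)
    conv_lhs => rw [← (hσ n).inv (u s)]
    rw [integral_map hmeas.aemeasurable hφ.1.aestronglyMeasurable]
  have hcor' : ∀ n, ε ≤ |(∫ z, f z.1 * f ((a (-(τ n)) * u (c n)) • z.2) ∂(σ n)) -
      (∫ x, f x ∂m) ^ 2| := by
    intro n
    simp_rw [mul_smul]
    exact hcor n
  have hne : ν ≠ m.prod m := by
    rintro rfl
    exact fin_corr_contra m (fun n => (hρ n).prob) hlim hf hg hε hcor'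
  obtain ⟨O', hO', S, hS⟩ := fin_exists_orbit m hν hinv hne
  set ε0 : ℝ := ν.real (finE O' S) / 2 with hε0
  have hpos : 0 < ν.real (finE O' S) := ENNReal.toReal_pos hS.ne' (measure_ne_top _ _)
  have hε0' : 0 < ε0 := by rw [hε0]; positivity
  obtain ⟨L, hL, r2, hr2, θ, hθ1, hθ2, hθ3, H⟩ := linearize m hO' (S0 := (S : ℝ) + 1)
    (by positivity) hε0'
  have hsub : finE O' S ⊆ nbh O' r2 ((S : ℝ) + 1) := by
    refine Subset.trans ?_ (fin_E_subset_nbh hr2)
    rintro z ⟨b, hb, hz⟩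
    exact ⟨b, hb.trans (by linarith), hz⟩
  have hνn : ε0 < ν.real (nbh O' r2 ((S : ℝ) + 1)) := by
    have h1 : ν.real (finE O' S) ≤ ν.real (nbh O' r2 ((S : ℝ) + 1)) := measureReal_mono hsub
    rw [hε0]; linarith
  obtain ⟨φ, hφ, hφ1, hφ0, hφi⟩ := exists_cc_lower ν (isOpen_nbh hO' r2 ((S : ℝ) + 1)) hνn
  obtain ⟨B, hB0, hB⟩ := cc_bdd hφ
  have hev : ∀ᶠ n in (𝒰 : Filter ℕ), ε0 < ∫ z, φ z ∂(σ n) :=
    (tendsto_order.1 (hlim φ hφ.1 ⟨B, hB⟩)).1 _ hφi
  have hev2 : ∀ᶠ n in (𝒰 : Filter ℕ), O n = O' := by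
    filter_upwards [hev] with n hn
    have := (hρ n).prob
    refine fin_same m (hσ n) hO' (fin_lin m (hσ n) hO' hε0' hL hθ1 hθ3 H ?_)
    refine hn.trans_le ?_
    have hme : MeasurableSet (nbh O' r2 ((S : ℝ) + 1)) := (isOpen_nbh hO' _ _).measurableSet
    rw [← integral_indicator_one hme]
    refine integral_mono (cc_integrable hφ (σ n)) ((integrable_const (1 : ℝ)).indicator hme) ?_
    intro y
    by_cases hy : y ∈ nbh O' r2 ((S : ℝ) + 1)
    · simp only [indicator_of_mem hy, Pi.one_apply]; exact (hφ1 y).2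
    · simp only [indicator_of_notMem hy]
      rw [hφ0 y hy]
  have hfin : {n | O n = O'}.Finite := by
    refine Set.Subsingleton.finite ?_
    intro i hi j hj
    exact hinj (hi.trans hj.symm)
  have h2 : {n | O n = O'} ∉ (𝒰 : Filter ℕ) := by
    intro h3
    exact Filter.notMem_hyperfilter_of_finite hfin h3
  exact h2 hev2

end Pool.Agent.Work.MP_c9c104_nt
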