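import Pool.Agent.Work.MP_c9c104_nt.Thick
import Pool.Agent.Work.MP_c9c104_nt.Zass
import Pool.Agent.Work.MP_c9c104_nt.Quot

/-!
Every orbit of the diagonal flow meets a fixed compact set.
-/

open MeasureTheory Filter Topology Set ProbabilityTheory
open scoped ENNReal NNReal

namespace Pool.Agent.Work.MP_c9c104_nt

variable {X : Type} [TopologicalSpace X] [MeasurableSpace X] [MulAction G X] [HomSp X]
variable {Z : Type} [TopologicalSpace Z] [MeasurableSpace Z] [MulAction G Z] [PhSp Z]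

/-- in a discrete subgroup, elements with small trace free part are central -/
theorem geod_ydisc {ε : ℝ} (hε : 0 < ε) {Λ : Subgroup G} (h : ∀ g ∈ Λ, nrm g < ε → g = 1) :
    ∃ δ > 0, ∀ g ∈ Λ, ynrm g < δ → ynrm g = 0 := by
  refine ⟨min (1 / 4) (ε / 4), by positivity, fun g hg hy => ?_⟩
  obtain ⟨h1, h2, h3⟩ := ynrm_lt_iff.1 hy
  have hd := G_det g
  set A := g 0 0 with hA
  set B := g 0 1 with hB
  set C := g 1 0 with hC
  set D := g 1 1 with hD
  set r := min (1 / 4) (ε / 4) with hr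
  have hr1 : r ≤ 1 / 4 := min_le_left _ _
  have hr2 : r ≤ ε / 4 := min_le_right _ _
  have hr0 : 0 < r := by rw [hr]; positivity
  have hBC : |B * C| ≤ r * (1 / 4) := by
    rw [abs_mul]
    exact mul_le_mul h2.le (h3.le.trans hr1) (abs_nonneg _) hr0.le
  have hBC' := abs_le.1 hBC
  have h1' := abs_lt.1 h1
  -- bounds for the trace
  have htr2 : (A + D) ^ 2 = (A - D) ^ 2 + 4 + 4 * (B * C) := by linear_combination 4 * hd
  have hsq : (A - D) ^ 2 ≤ 1 / 16 := by nlinarith [h1'.1, h1'.2]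
  have hsq0 := sq_nonneg (A - D)
  have htr_le : |A + D| ≤ 3 := by
    apply abs_le_of_sq_le_sq _ (by norm_num)
    rw [htr2]; nlinarith
  have htr_pos : 3 < (A + D) ^ 2 := by rw [htr2]; nlinarith
  have htr_le' := abs_le.1 htr_le
  have hAle : |A| ≤ 2 := by
    rw [abs_le]; constructor <;> linarith [h1'.1, h1'.2, htr_le'.1, htr_le'.2]
  have hDle : |D| ≤ 2 := by
    rw [abs_le]; constructor <;> linarith [h1'.1, h1'.2, htr_le'.1, htr_le'.2]
  have hg2 : g * g ∈ Λ := Λ.mul_mem hg hg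
  have hn : nrm (g * g) < ε := by
    rw [nrm_lt_iff]
    simp only [mul00, mul01, mul10, mul11, ← hA, ← hB, ← hC, ← hD]
    have hAy : |A * (A - D)| ≤ 2 * r := by
      rw [abs_mul]; exact mul_le_mul hAle h1.le (abs_nonneg _) (by norm_num)
    have hDy : |D * (A - D)| ≤ 2 * r := by
      rw [abs_mul]; exact mul_le_mul hDle h1.le (abs_nonneg _) (by norm_num)
    have hBt : |(A + D) * B| ≤ 3 * |B| := by
      rw [abs_mul]; exact mul_le_mul_of_nonneg_right htr_le (abs_nonneg _)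
    have hCt : |(A + D) * C| ≤ 3 * |C| := by
      rw [abs_mul]; exact mul_le_mul_of_nonneg_right htr_le (abs_nonneg _)
    have hAy' := abs_le.1 hAy
    have hDy' := abs_le.1 hDy
    refine ⟨?_, ?_, ?_, ?_⟩
    · rw [show A * A + B * C - 1 = A * (A - D) + 2 * (B * C) by linear_combination hd, abs_lt]
      constructor <;> linarith [hAy'.1, hAy'.2, hBC'.1, hBC'.2]
    · rw [show C * B + D * D - 1 = -(D * (A - D)) + 2 * (B * C) by linear_combination hd, abs_lt]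
      constructor <;> linarith [hDy'.1, hDy'.2, hBC'.1, hBC'.2]
    · rw [show A * B + B * D = (A + D) * B by ring]
      linarith
    · rw [show C * A + D * C = (A + D) * C by ring]
      linarith
  have h1g := h _ hg2 hn
  have e01 : (A + D) * B = 0 := by
    have := congrArg (fun w : G => w 0 1) h1g
    simp only [mul01, one01, ← hA, ← hB, ← hD] at this
    linarith
  have e10 : (A + D) * C = 0 := by
    have := congrArg (fun w : G => w 1 0) h1g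
    simp only [mul10, one10, ← hA, ← hC, ← hD] at this
    linarith
  have e00 : A * A + B * C = 1 := by
    have := congrArg (fun w : G => w 0 0) h1g
    simpa only [mul00, one00, ← hA, ← hB, ← hC] using this
  have e11 : C * B + D * D = 1 := by
    have := congrArg (fun w : G => w 1 1) h1g
    simpa only [mul11, one11, ← hD, ← hB, ← hC] using this
  have htr0 : A + D ≠ 0 := by
    intro h0; rw [h0] at htr_pos; norm_num at htr_pos
  have hB0 : B = 0 := by simpa [htr0] using e01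
  have hC0 : C = 0 := by simpa [htr0] using e10
  have hAD : A - D = 0 := by
    have : (A + D) * (A - D) = 0 := by linear_combination e00 - e11
    simpa [htr0] using this
  simp [ynrm, ← hA, ← hB, ← hC, ← hD, hB0, hC0, hAD]

theorem geod_comm_trans {η η1 η2 : G} (h0 : ynrm η ≠ 0) (h1 : η * η1 = η1 * η)
    (h2 : η * η2 = η2 * η) : η1 * η2 = η2 * η1 := by
  obtain ⟨c, a1, a2, a3⟩ := commute_prop h1 h0
  obtain ⟨d, b1, b2, b3⟩ := commute_prop h2 h0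
  apply G_ext
  · simp only [mul00]; rw [a2, b3, b2, a3]; ring
  · simp only [mul01]
    have e1 : η1 0 0 = η1 1 1 + c * (η 0 0 - η 1 1) := by linarith
    have e2 : η2 0 0 = η2 1 1 + d * (η 0 0 - η 1 1) := by linarith
    rw [e1, e2, a2, b2]; ring
  · simp only [mul10]
    have e1 : η1 0 0 = η1 1 1 + c * (η 0 0 - η 1 1) := by linarith
    have e2 : η2 0 0 = η2 1 1 + d * (η 0 0 - η 1 1) := by linarith
    rw [e1, e2, a3, b3]; ring
  · simp only [mul11]; rw [a2, b3, b2, a3]; ring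

omit [TopologicalSpace X] [MeasurableSpace X] [HomSp X] in
theorem geod_conj_smul (t : ℝ) (x : X) {ζ : G} (hζ : ζ ∈ MulAction.stabilizer G (a t • x)) :
    a (-t) * ζ * a t ∈ MulAction.stabilizer G x := by
  rw [MulAction.mem_stabilizer_iff] at hζ ⊢
  rw [mul_smul, mul_smul, hζ, ← mul_smul, ← a_add]
  simp

omit [TopologicalSpace X] [MeasurableSpace X] [HomSp X] in
theorem geod_conj_smul' (t : ℝ) (x : X) {η : G} (hη : η ∈ MulAction.stabilizer G x) :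
    a t * η * a (-t) ∈ MulAction.stabilizer G (a t • x) := by
  rw [MulAction.mem_stabilizer_iff] at hη ⊢
  rw [← mul_smul, mul_assoc, ← a_add, neg_add_cancel, a_zero, mul_one, mul_smul, hη]

theorem geod_aconj_inv (t : ℝ) (ζ : G) : a t * (a (-t) * ζ * a t) * a (-t) = ζ := by
  have h1 : a t * (a (-t) * ζ * a t) * a (-t) = (a t * a (-t)) * ζ * (a t * a (-t)) := by group
  rw [h1, ← a_add]; simp

theorem geod_conj_comm {w g h : G} (e : (w * g * w⁻¹) * (w * h * w⁻¹) =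
    (w * h * w⁻¹) * (w * g * w⁻¹)) : g * h = h * g := by
  have e1 : w⁻¹ * ((w * g * w⁻¹) * (w * h * w⁻¹)) * w = g * h := by group
  have e2 : w⁻¹ * ((w * h * w⁻¹) * (w * g * w⁻¹)) * w = h * g := by group
  rw [← e1, ← e2, e]

/-- If the whole diagonal orbit stays in the thin part, then there is a small diagonal element
in the stabilizer. -/
theorem geod_diag {ρ0 : ℝ} (hρ0 : ∀ Λ : Subgroup G, (∃ ε > 0, ∀ g ∈ Λ, nrm g < ε → g = 1) →
    ∀ η ∈ Λ, ∀ η' ∈ Λ, ynrm η < ρ0 → ynrm η' < ρ0 → η * η' = η' * η) {ρ : ℝ}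
    (hρ : ρ ≤ ρ0) (x : X) (hx : ∀ t : ℝ, a t • x ∉ thick X ρ) :
    ∃ η ∈ MulAction.stabilizer G x, η 0 1 = 0 ∧ η 1 0 = 0 ∧ ynrm η < ρ ∧ ynrm η ≠ 0 := by
  obtain ⟨ε, hε, hdisc⟩ := DiscStab.disc (X := X) x
  obtain ⟨δ, hδ, hydisc⟩ := geod_ydisc hε hdisc
  -- small elements at each time
  have hS : ∀ t : ℝ, ∃ η ∈ MulAction.stabilizer G x, ynrm (a t * η * a (-t)) < ρ ∧
      ynrm (a t * η * a (-t)) ≠ 0 := by
    intro t
    have h1 := hx t
    simp only [thick, mem_ofPred_eq, not_forall] at h1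
    obtain ⟨ζ, hζ, hζ1, hζ2⟩ := h1
    exact ⟨a (-t) * ζ * a t, geod_conj_smul t x hζ, by rwa [geod_aconj_inv],
      by rwa [geod_aconj_inv]⟩
  have hcomm : ∀ t : ℝ, ∀ η ∈ MulAction.stabilizer G x, ∀ η' ∈ MulAction.stabilizer G x,
      ynrm (a t * η * a (-t)) < ρ → ynrm (a t * η' * a (-t)) < ρ → η * η' = η' * η := by
    intro t η hη η' hη' h1 h2
    have h3 := hρ0 (MulAction.stabilizer G (a t • x)) (DiscStab.disc (X := X) (a t • x)) _
      (geod_conj_smul' t x hη) _ (geod_conj_smul' t x hη') (h1.trans_le hρ) (h2.trans_le hρ)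
    rw [← a_inv] at h3
    exact geod_conj_comm h3
  have hy0 : ∀ (t : ℝ) (η : G), ynrm (a t * η * a (-t)) ≠ 0 → ynrm η ≠ 0 := by
    intro t η h1 h2
    apply h1
    have h3 := ynrm_le_iff.1 h2.le
    have h4 : η 0 0 - η 1 1 = 0 := abs_nonpos_iff.1 h3.1
    have h5 : η 0 1 = 0 := abs_nonpos_iff.1 h3.2.1
    have h6 : η 1 0 = 0 := abs_nonpos_iff.1 h3.2.2
    unfold ynrm
    rw [aconj00, aconj11, aconj01, aconj10, h4, h5, h6]
    simp
  obtain ⟨η0, hη0, hη0a, hη0b⟩ := hS 0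
  have hη00 : ynrm η0 ≠ 0 := hy0 0 η0 hη0b
  -- all small elements commute with `η0`
  let A : Set ℝ := {t | ∀ η ∈ MulAction.stabilizer G x, ynrm (a t * η * a (-t)) < ρ →
    η * η0 = η0 * η}
  have hcont : ∀ η : G, Continuous fun t : ℝ => ynrm (a t * η * a (-t)) := by
    intro η
    apply continuous_ynrm.comp
    exact (continuous_a.mul continuous_const).mul (continuous_a.comp continuous_neg)
  have hnear : ∀ t : ℝ, ∃ η ∈ MulAction.stabilizer G x, ynrm η ≠ 0 ∧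
      ynrm (a t * η * a (-t)) < ρ ∧ ∀ᶠ t' in 𝓝 t, ynrm (a t' * η * a (-t')) < ρ := by
    intro t
    obtain ⟨η, h1, h2, h3⟩ := hS t
    exact ⟨η, h1, hy0 t η h3, h2, (hcont η).continuousAt.eventually (gt_mem_nhds h2)⟩
  have hopen : IsOpen A := by
    rw [isOpen_iff_mem_nhds]
    intro t ht
    obtain ⟨η, h1, h2, h3, h4⟩ := hnear t
    filter_upwards [h4] with t' ht' ζ hζ hζ'
    have c1 := hcomm t' η h1 ζ hζ ht' hζ'
    have c2 := ht η h1 h3
    exact geod_comm_trans h2 c1 c2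
  have hclosed : IsOpen Aᶜ := by
    rw [isOpen_iff_mem_nhds]
    intro t ht
    obtain ⟨η, h1, h2, h3, h4⟩ := hnear t
    filter_upwards [h4] with t' ht' hA'
    apply ht
    intro ζ hζ hζ'
    have c1 := hcomm t η h1 ζ hζ h3 hζ'
    have c2 := hA' η h1 ht'
    exact geod_comm_trans h2 c1 c2
  have hA0 : (0 : ℝ) ∈ A := by
    intro η hη h1
    exact hcomm 0 η hη η0 hη0 h1 hη0a
  have hAu : A = univ := by
    have hcl : IsClopen A := ⟨⟨hclosed⟩, hopen⟩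
    exact hcl.eq_univ ⟨0, hA0⟩
  -- off diagonal entries vanish
  have hprop : ∀ t : ℝ, ∃ c : ℝ, δ ≤ |c| * ynrm η0 ∧
      Real.exp (2 * t) * (|c| * |η0 0 1|) < ρ ∧ Real.exp (-(2 * t)) * (|c| * |η0 1 0|) < ρ := by
    intro t
    obtain ⟨η, h1, h2, h3⟩ := hS t
    have ht : t ∈ A := by rw [hAu]; trivial
    have hc := (ht η h1 h2).symm
    obtain ⟨c, c1, c2, c3⟩ := commute_prop hc hη00
    have hyη : ynrm η = |c| * ynrm η0 := by
      unfold ynrm
      rw [c1, c2, c3, abs_mul, abs_mul, abs_mul, mul_max_of_nonneg _ _ (abs_nonneg c),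
        mul_max_of_nonneg _ _ (abs_nonneg c)]
    obtain ⟨_, h5, h6⟩ := ynrm_lt_iff.1 h2
    rw [aconj01, c2, abs_mul, abs_mul, Real.abs_exp] at h5
    rw [aconj10, c3, abs_mul, abs_mul, Real.abs_exp] at h6
    refine ⟨c, ?_, h5, h6⟩
    rw [← hyη]
    by_contra hlt
    exact hy0 t η h3 (hydisc η h1 (not_le.1 hlt))
  have hyη0 : 0 < ynrm η0 := lt_of_le_of_ne (ynrm_nonneg _) (Ne.symm hη00)
  have hcl : ∀ b : ℝ, 0 ≤ b → (∀ M : ℝ, ∃ c : ℝ, δ ≤ |c| * ynrm η0 ∧ M * (|c| * b) < ρ) →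
      b = 0 := by
    intro b hb h
    by_contra hne
    have hb' : 0 < b := lt_of_le_of_ne hb (Ne.symm hne)
    have hq : 0 < δ / ynrm η0 * b := by positivity
    obtain ⟨c, h1, h2⟩ := h (max 0 (ρ / (δ / ynrm η0 * b)))
    have h3 : δ / ynrm η0 ≤ |c| := by rwa [div_le_iff₀ hyη0]
    have h4 : max 0 (ρ / (δ / ynrm η0 * b)) * (δ / ynrm η0 * b) < ρ :=
      (mul_le_mul_of_nonneg_left (mul_le_mul_of_nonneg_right h3 hb) (le_max_left _ _)).trans_lt h2
    have h5 : ρ / (δ / ynrm η0 * b) * (δ / ynrm η0 * b) < ρ :=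
      (mul_le_mul_of_nonneg_right (le_max_right _ _) hq.le).trans_lt h4
    rw [div_mul_cancel₀ _ hq.ne'] at h5
    exact lt_irrefl _ h5
  have hexp : ∀ M : ℝ, ∃ t : ℝ, M ≤ Real.exp (2 * t) := by
    intro M
    refine ⟨M / 2, ?_⟩
    have := Real.add_one_le_exp (2 * (M / 2))
    linarith
  have hb01 : |η0 0 1| = 0 := by
    apply hcl _ (abs_nonneg _)
    intro M
    obtain ⟨t, ht⟩ := hexp M
    obtain ⟨c, c1, c2, c3⟩ := hprop t
    exact ⟨c, c1, (mul_le_mul_of_nonneg_right ht (by positivity)).trans_lt c2⟩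
  have hb10 : |η0 1 0| = 0 := by
    apply hcl _ (abs_nonneg _)
    intro M
    obtain ⟨t, ht⟩ := hexp M
    obtain ⟨c, c1, c2, c3⟩ := hprop (-t)
    rw [show -(2 * -t) = 2 * t by ring] at c3
    exact ⟨c, c1, (mul_le_mul_of_nonneg_right ht (by positivity)).trans_lt c3⟩
  refine ⟨η0, hη0, abs_eq_zero.1 hb01, abs_eq_zero.1 hb10, ?_, hη00⟩
  have h7 : a 0 * η0 * a (-0) = η0 := by simp
  rwa [h7] at hη0a

/-- a minimal diagonal element -/
theorem geod_min {ρ : ℝ} (x : X) (hρ : ρ ≤ 1)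
    (h : ∃ η ∈ MulAction.stabilizer G x, η 0 1 = 0 ∧ η 1 0 = 0 ∧ ynrm η < ρ ∧ ynrm η ≠ 0) :
    ∃ η ∈ MulAction.stabilizer G x, η 0 1 = 0 ∧ η 1 0 = 0 ∧ ynrm η < ρ ∧ ynrm η ≠ 0 ∧
      ∀ ζ ∈ MulAction.stabilizer G x, ζ 0 1 = 0 → ζ 1 0 = 0 → ynrm ζ ≠ 0 →
        ynrm η ≤ ynrm ζ := by
  let F : Set G := {η | η ∈ MulAction.stabilizer G x ∧ η 0 1 = 0 ∧ η 1 0 = 0 ∧ ynrm η < ρ ∧
    ynrm η ≠ 0}
  have hF : F.Finite := by
    refine (between_finite x x 2).subset ?_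
    rintro η ⟨h1, h2, h3, h4, h5⟩
    refine ⟨MulAction.mem_stabilizer_iff.1 h1, ?_⟩
    have hd := G_det η
    rw [h2, h3] at hd
    obtain ⟨k1, k2, k3⟩ := ynrm_lt_iff.1 (h4.trans_le hρ)
    have k1' := abs_lt.1 k1
    have hs : (η 0 0 + η 1 1) ^ 2 ≤ 3 ^ 2 := by nlinarith
    have hs' := abs_le.1 (abs_le_of_sq_le_sq hs (by norm_num))
    have e00 : |η 0 0| ≤ 2 := by rw [abs_le]; constructor <;> linarith [hs'.1, hs'.2]
    have e11 : |η 1 1| ≤ 2 := by rw [abs_le]; constructor <;> linarith [hs'.1, hs'.2]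
    intro i j
    fin_cases i <;> fin_cases j
    · exact e00
    · change |η 0 1| ≤ 2; rw [h2]; norm_num
    · change |η 1 0| ≤ 2; rw [h3]; norm_num
    · exact e11
  obtain ⟨η', hη'⟩ := h
  obtain ⟨η, hη, hmin⟩ := F.exists_min_image ynrm hF ⟨η', hη'⟩
  refine ⟨η, hη.1, hη.2.1, hη.2.2.1, hη.2.2.2.1, hη.2.2.2.2, fun ζ h1 h2 h3 h4 => ?_⟩
  by_contra hlt
  push Not at hlt
  exact absurd (hmin ζ ⟨h1, h2, h3, hlt.trans hη.2.2.2.1, h4⟩) (not_le.2 hlt)

/-- push a short closed geodesic to the thick part by the horocycle flow -/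
theorem geod_push {ρ0 : ℝ} (hpos : 0 < ρ0)
    (hρ0 : ∀ Λ : Subgroup G, (∃ ε > 0, ∀ g ∈ Λ, nrm g < ε → g = 1) →
    ∀ η ∈ Λ, ∀ η' ∈ Λ, ynrm η < ρ0 → ynrm η' < ρ0 → η * η' = η' * η) {ρ : ℝ}
    (hρ : ρ ≤ ρ0 / 2) (x : X) {η : G} (hη : η ∈ MulAction.stabilizer G x) (h01 : η 0 1 = 0)
    (h10 : η 1 0 = 0) (h1 : ynrm η < ρ) (h2 : ynrm η ≠ 0)
    (hmin : ∀ ζ ∈ MulAction.stabilizer G x, ζ 0 1 = 0 → ζ 1 0 = 0 → ynrm ζ ≠ 0 →
        ynrm η ≤ ynrm ζ) :
    ∃ (y : X) (ξ : G), y ∈ thick X (ρ0 / 2) ∧ ξ ∈ MulAction.stabilizer G y ∧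
      (∀ i j, |ξ i j| ≤ ρ0 + 2) ∧ (ξ 0 0 + ξ 1 1) ^ 2 = 4 + ynrm η ^ 2 := by
  have hyη : 0 < ynrm η := lt_of_le_of_ne (ynrm_nonneg _) (Ne.symm h2)
  have hyd : ∀ ζ : G, ζ 0 1 = 0 → ζ 1 0 = 0 → ynrm ζ = |ζ 0 0 - ζ 1 1| := by
    intro ζ e1 e2
    unfold ynrm
    rw [e1, e2]; simp
  set s : ℝ := (ρ0 / 2) / ynrm η with hs
  have hs0 : 0 < s := by rw [hs]; positivity
  have hsη : s * ynrm η = ρ0 / 2 := by rw [hs]; field_simp
  set ξ : G := u s * η * u (-s) with hξ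
  have hξs : ξ ∈ MulAction.stabilizer G (u s • x) := by
    rw [MulAction.mem_stabilizer_iff] at hη ⊢
    rw [hξ, ← mul_smul, mul_assoc, u_neg_mul, mul_one, mul_smul, hη]
  have x00 : ξ 0 0 = η 0 0 := by rw [hξ, conj00, h10]; ring
  have x11 : ξ 1 1 = η 1 1 := by rw [hξ, conj11, h10]; ring
  have x10 : ξ 1 0 = 0 := by rw [hξ, conj10, h10]
  have x01 : ξ 0 1 = s * (η 1 1 - η 0 0) := by rw [hξ, conj01, h10, h01]; ring
  have x01' : |ξ 0 1| = ρ0 / 2 := by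
    rw [x01, abs_mul, abs_of_pos hs0, abs_sub_comm, ← hyd η h01 h10, hsη]
  have hyξ : ynrm ξ = ρ0 / 2 := by
    unfold ynrm
    rw [x00, x11, x10, x01', ← hyd η h01 h10, abs_zero]
    rw [max_eq_left (by positivity : (0 : ℝ) ≤ ρ0 / 2), max_eq_right (h1.le.trans hρ)]
  refine ⟨u s • x, ξ, ?_, hξs, ?_, ?_⟩
  · -- thick
    intro ζ hζ hζ1
    have hc := hρ0 (MulAction.stabilizer G (u s • x)) (DiscStab.disc (X := X) (u s • x)) ξ hξs ζ hζ
      (by rw [hyξ]; linarith) (by linarith)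
    set ζ' : G := u (-s) * ζ * u s with hζ'
    have hζ's : ζ' ∈ MulAction.stabilizer G x := by
      rw [MulAction.mem_stabilizer_iff] at hζ ⊢
      rw [hζ', mul_smul, mul_smul, hζ, ← mul_smul, u_neg_mul, one_smul]
    have hback : u s * ζ' * u (-s) = ζ := conj_neg ζ s
    have hc' : η * ζ' = ζ' * η := by
      have hc2 : (u s * η * (u s)⁻¹) * (u s * ζ' * (u s)⁻¹) =
          (u s * ζ' * (u s)⁻¹) * (u s * η * (u s)⁻¹) := by
        rw [u_inv, hback, ← hξ]; exact hc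
      exact geod_conj_comm hc2
    obtain ⟨c, c1, c2, c3⟩ := commute_prop hc' h2
    rw [h01, mul_zero] at c2
    rw [h10, mul_zero] at c3
    have hyζ' := hyd ζ' c2 c3
    have z01 : ζ 0 1 = s * (ζ' 1 1 - ζ' 0 0) := by
      rw [← hback, conj01, c2, c3]; ring
    have z01' : |ζ 0 1| = s * ynrm ζ' := by
      rw [z01, abs_mul, abs_of_pos hs0, abs_sub_comm, hyζ']
    by_cases h0 : ynrm ζ' = 0
    · have hd0 : ζ' 0 0 - ζ' 1 1 = 0 := by
        rw [hyζ'] at h0; exact abs_eq_zero.1 h0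
      have z00 : ζ 0 0 - ζ 1 1 = 0 := by
        rw [← hback, conj00, conj11, c3]; linarith
      have z10 : ζ 1 0 = 0 := by rw [← hback, conj10, c3]
      have z01'' : ζ 0 1 = 0 := by
        rw [z01]; rw [show ζ' 1 1 - ζ' 0 0 = 0 by linarith]; ring
      unfold ynrm
      rw [z00, z10, z01'']; simp
    · exfalso
      have h3 := hmin ζ' hζ's c2 c3 h0
      have h4 : ρ0 / 2 ≤ |ζ 0 1| := by
        rw [z01', ← hsη]; exact mul_le_mul_of_nonneg_left h3 hs0.le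
      have h5 := (ynrm_lt_iff.1 hζ1).2.1
      linarith
  · have hd := G_det η
    rw [h01, h10] at hd
    have k1 : |η 0 0 - η 1 1| < ρ0 := by
      rw [← hyd η h01 h10]; linarith
    have k1' := abs_lt.1 k1
    have hs : (η 0 0 + η 1 1) ^ 2 ≤ (ρ0 + 2) ^ 2 := by nlinarith
    have hs' := abs_le.1 (abs_le_of_sq_le_sq hs (by linarith))
    have e00 : |η 0 0| ≤ ρ0 + 2 := by rw [abs_le]; constructor <;> linarith [hs'.1, hs'.2]
    have e11 : |η 1 1| ≤ ρ0 + 2 := by rw [abs_le]; constructor <;> linarith [hs'.1, hs'.2]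
    intro i j
    fin_cases i <;> fin_cases j
    · change |ξ 0 0| ≤ _; rw [x00]; exact e00
    · change |ξ 0 1| ≤ _; rw [x01']; linarith
    · change |ξ 1 0| ≤ _; rw [x10, abs_zero]; linarith
    · change |ξ 1 1| ≤ _; rw [x11]; exact e11
  · rw [x00, x11, hyd η h01 h10, sq_abs]
    have hd := G_det η
    rw [h01, h10] at hd
    linear_combination 4 * hd

variable (m : Measure X) [IsProbabilityMeasure m] [SMulInvariantMeasure G X m]

include m in
theorem a_meets : ∃ K : Set X, IsCompact K ∧ ∀ x : X, ∃ t : ℝ, a t • x ∈ K := by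
  by_contra hcon
  push Not at hcon
  obtain ⟨ρ0, hpos, hρ0⟩ := zassenhaus
  have hx : ∀ n : ℕ, ∃ (y : X) (ξ : G), y ∈ thick X (ρ0 / 2) ∧ ξ ∈ MulAction.stabilizer G y ∧
      (∀ i j, |ξ i j| ≤ ρ0 + 2) ∧ 4 < (ξ 0 0 + ξ 1 1) ^ 2 ∧
      (ξ 0 0 + ξ 1 1) ^ 2 < 4 + 1 / ((n : ℝ) + 1) := by
    intro n
    have hn : (0 : ℝ) < 1 / ((n : ℝ) + 1) := by positivity
    set ρ : ℝ := min (ρ0 / 2) (min 1 (1 / ((n : ℝ) + 1))) with hρ
    have hρpos : 0 < ρ := by rw [hρ]; positivity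
    have r1 : ρ ≤ ρ0 / 2 := min_le_left _ _
    have r2 : ρ ≤ 1 := (min_le_right _ _).trans (min_le_left _ _)
    have r3 : ρ ≤ 1 / ((n : ℝ) + 1) := (min_le_right _ _).trans (min_le_right _ _)
    obtain ⟨x, hx⟩ := hcon (thick X ρ) (thick_compact m hρpos)
    have h1 := geod_diag hρ0 (r1.trans (by linarith)) x hx
    obtain ⟨η, hη, e1, e2, e3, e4, e5⟩ := geod_min x r2 h1
    obtain ⟨y, ξ, y1, y2, y3, y4⟩ := geod_push hpos hρ0 r1 x hη e1 e2 e3 e4 e5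
    have hyη : 0 < ynrm η := lt_of_le_of_ne (ynrm_nonneg _) (Ne.symm e4)
    refine ⟨y, ξ, y1, y2, y3, ?_, ?_⟩
    · rw [y4]; have := pow_pos hyη 2; linarith
    · rw [y4]; nlinarith
  choose y ξ hy hξ hξb h4 h4' using hx
  have hKc : IsCompact (thick X (ρ0 / 2)) := thick_compact m (by positivity)
  let 𝒰 : Ultrafilter ℕ := Filter.hyperfilter ℕ
  have hle : (𝒰 : Filter ℕ) ≤ atTop := by
    rw [← Nat.cofinite_eq_atTop]; exact Filter.hyperfilter_le_cofinite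
  obtain ⟨y0, hy0, hlim⟩ := hKc.ultrafilter_le_nhds (𝒰.map y) (by
    rw [Ultrafilter.coe_map, le_principal_iff, mem_map]
    exact Filter.univ_mem' hy)
  have hlim' : Tendsto y 𝒰 (𝓝 y0) := by
    rw [Ultrafilter.coe_map] at hlim; exact hlim
  obtain ⟨g, hg1, hg2⟩ := exists_small y0 hlim'
  -- conjugated elements
  have hst : ∀ n, (g n)⁻¹ * ξ n * g n ∈ MulAction.stabilizer G y0 := by
    intro n
    have h1 := MulAction.mem_stabilizer_iff.1 (hξ n)
    rw [MulAction.mem_stabilizer_iff, mul_smul, mul_smul, ← hg2 n, h1, hg2 n, inv_smul_smul]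
  have hgb : ∀ᶠ n in (𝒰 : Filter ℕ), nrm (g n) < 1 :=
    hg1.eventually (nrm_mem 1 one_pos)
  have hbd : ∀ᶠ n in (𝒰 : Filter ℕ), (g n)⁻¹ * ξ n * g n ∈
      {w : G | w • y0 = y0 ∧ ∀ i j, |w i j| ≤ 16 * (ρ0 + 2)} := by
    filter_upwards [hgb] with n hn
    refine ⟨MulAction.mem_stabilizer_iff.1 (hst n), ?_⟩
    obtain ⟨g1, g2, g3, g4⟩ := nrm_lt_iff.1 hn
    have k00 : |g n 0 0| ≤ 2 := by
      rw [abs_le]; have := abs_lt.1 g1; constructor <;> linarith [this.1, this.2]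
    have k11 : |g n 1 1| ≤ 2 := by
      rw [abs_le]; have := abs_lt.1 g2; constructor <;> linarith [this.1, this.2]
    have k01 : |g n 0 1| ≤ 2 := by linarith
    have k10 : |g n 1 0| ≤ 2 := by linarith
    have hM := hξb n
    have key : ∀ p q r : ℝ, |p| ≤ 2 → |q| ≤ ρ0 + 2 → |r| ≤ 2 → |p * q * r| ≤ 4 * (ρ0 + 2) := by
      intro p q r hp hq hr
      rw [abs_mul, abs_mul]
      have h1 : |p| * |q| ≤ 2 * (ρ0 + 2) := mul_le_mul hp hq (abs_nonneg _) (by norm_num)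
      calc |p| * |q| * |r| ≤ 2 * (ρ0 + 2) * 2 :=
            mul_le_mul h1 hr (abs_nonneg _) (by positivity)
        _ = 4 * (ρ0 + 2) := by ring
    have key4 : ∀ p q r t : ℝ, |p| ≤ 4 * (ρ0 + 2) → |q| ≤ 4 * (ρ0 + 2) → |r| ≤ 4 * (ρ0 + 2) →
        |t| ≤ 4 * (ρ0 + 2) → |p + q + r + t| ≤ 16 * (ρ0 + 2) := by
      intro p q r t hp hq hr ht
      have h1 := abs_add_le (p + q + r) t
      have h2 := abs_add_le (p + q) r
      have h3 := abs_add_le p q
      linarith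
    have n01 : |-(g n 0 1)| ≤ 2 := by rwa [abs_neg]
    have n10 : |-(g n 1 0)| ≤ 2 := by rwa [abs_neg]
    intro i j
    fin_cases i <;> fin_cases j
    · change |((g n)⁻¹ * ξ n * g n) 0 0| ≤ _
      rw [show ((g n)⁻¹ * ξ n * g n) 0 0 = g n 1 1 * ξ n 0 0 * g n 0 0 +
        -(g n 0 1) * ξ n 1 0 * g n 0 0 + g n 1 1 * ξ n 0 1 * g n 1 0 +
        -(g n 0 1) * ξ n 1 1 * g n 1 0 by simp only [mul00, mul01, inv00, inv01]; ring]
      exact key4 _ _ _ _ (key _ _ _ k11 (hM 0 0) k00) (key _ _ _ n01 (hM 1 0) k00)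
        (key _ _ _ k11 (hM 0 1) k10) (key _ _ _ n01 (hM 1 1) k10)
    · change |((g n)⁻¹ * ξ n * g n) 0 1| ≤ _
      rw [show ((g n)⁻¹ * ξ n * g n) 0 1 = g n 1 1 * ξ n 0 0 * g n 0 1 +
        -(g n 0 1) * ξ n 1 0 * g n 0 1 + g n 1 1 * ξ n 0 1 * g n 1 1 +
        -(g n 0 1) * ξ n 1 1 * g n 1 1 by simp only [mul00, mul01, inv00, inv01]; ring]
      exact key4 _ _ _ _ (key _ _ _ k11 (hM 0 0) k01) (key _ _ _ n01 (hM 1 0) k01)
        (key _ _ _ k11 (hM 0 1) k11) (key _ _ _ n01 (hM 1 1) k11)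
    · change |((g n)⁻¹ * ξ n * g n) 1 0| ≤ _
      rw [show ((g n)⁻¹ * ξ n * g n) 1 0 = -(g n 1 0) * ξ n 0 0 * g n 0 0 +
        g n 0 0 * ξ n 1 0 * g n 0 0 + -(g n 1 0) * ξ n 0 1 * g n 1 0 +
        g n 0 0 * ξ n 1 1 * g n 1 0 by simp only [mul10, mul11, inv10, inv11]; ring]
      exact key4 _ _ _ _ (key _ _ _ n10 (hM 0 0) k00) (key _ _ _ k00 (hM 1 0) k00)
        (key _ _ _ n10 (hM 0 1) k10) (key _ _ _ k00 (hM 1 1) k10)
    · change |((g n)⁻¹ * ξ n * g n) 1 1| ≤ _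
      rw [show ((g n)⁻¹ * ξ n * g n) 1 1 = -(g n 1 0) * ξ n 0 0 * g n 0 1 +
        g n 0 0 * ξ n 1 0 * g n 0 1 + -(g n 1 0) * ξ n 0 1 * g n 1 1 +
        g n 0 0 * ξ n 1 1 * g n 1 1 by simp only [mul10, mul11, inv10, inv11]; ring]
      exact key4 _ _ _ _ (key _ _ _ n10 (hM 0 0) k01) (key _ _ _ k00 (hM 1 0) k01)
        (key _ _ _ n10 (hM 0 1) k11) (key _ _ _ k00 (hM 1 1) k11)
  have hfin := between_finite y0 y0 (16 * (ρ0 + 2))
  -- eventually constant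
  obtain ⟨γ, hγ, hγe⟩ := (Ultrafilter.eventually_exists_mem_iff hfin).1
    (show ∀ᶠ n in (𝒰 : Filter ℕ), ∃ γ ∈ {w : G | w • y0 = y0 ∧ ∀ i j, |w i j| ≤ 16 * (ρ0 + 2)},
      (g n)⁻¹ * ξ n * g n = γ by
      filter_upwards [hbd] with n hn; exact ⟨_, hn, rfl⟩)
  have htr : ∀ n, (g n)⁻¹ * ξ n * g n = γ → ξ n 0 0 + ξ n 1 1 = γ 0 0 + γ 1 1 := by
    intro n hn
    have hd := G_det (g n)
    rw [← hn]
    simp only [mul00, mul01, mul10, mul11, inv00, inv01, inv10, inv11]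
    linear_combination (-(ξ n 0 0 + ξ n 1 1)) * hd
  obtain ⟨n0, hn0⟩ := hγe.exists
  have hgt : 4 < (γ 0 0 + γ 1 1) ^ 2 := by rw [← htr n0 hn0]; exact h4 n0
  have hlim2 : Tendsto (fun n : ℕ => 4 + 1 / ((n : ℝ) + 1)) 𝒰 (𝓝 (4 + 0)) :=
    (tendsto_const_nhds.add tendsto_one_div_add_atTop_nhds_zero_nat).mono_left hle
  rw [add_zero] at hlim2
  obtain ⟨n1, hn1, hn2⟩ := (hγe.and ((tendsto_order.1 hlim2).2 _ hgt)).exists
  have h5 := h4' n1
  rw [htr n1 hn1] at h5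
  linarith

end Pool.Agent.Work.MP_c9c104_nt
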