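import Pool.Agent.Work.MP_54969a_nt.Katai

/-!
Windowed Katai criterion along a filter.
-/

open MeasureTheory Filter Topology Set ProbabilityTheory
open scoped ENNReal NNReal

namespace Pool.Agent.Work.MP_c9c104_nt

namespace KataiWAux

open Finset Pool.Agent.Work.MP_54969a_nt

/-- Cauchy-Schwarz in one dyadic window -/
theorem cs_window (g F : ℕ → ℂ) (hg : ∀ n, ‖g n‖ ≤ 1) (hF : ∀ n, ‖F n‖ ≤ 1)
    (P : Finset ℕ) (hP : ∀ p ∈ P, p.Prime) (j : ℕ) (hj : ∀ p ∈ P, 2 ^ j ≤ p) (N : ℕ) (ε : ℝ)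
    (hε : 0 ≤ ε)
    (hcor : ∀ p ∈ P, ∀ q ∈ P, p ≠ q →
      ‖∑ m ∈ Finset.Icc 1 (N / max p q), F (p * m) * (starRingEnd ℂ) (F (q * m))‖ ≤
        ε * (N / max p q : ℕ)) :
    ‖∑ p ∈ P, ∑ m ∈ Finset.Icc 1 (N / p), F (p * m) * (g p * g m)‖ ≤
      (N : ℝ) / 2 ^ j * (√(P.card) + √ε * P.card) := by
  classical
  set M := N / 2 ^ j with hM
  have h2j : 0 < 2 ^ j := by positivity
  have hpM : ∀ p ∈ P, N / p ≤ M := fun p hp => Nat.div_le_div_left (hj p hp) h2j
  set h : ℕ → ℂ := fun m => ∑ p ∈ P, (if m ≤ N / p then g p * F (p * m) else 0) with hh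
  have hMr : (M : ℝ) ≤ (N : ℝ) / 2 ^ j := by
    have := @Nat.cast_div_le ℝ _ _ _ N (2 ^ j)
    rw [hM]; push_cast at this; exact this
  have s3 : ∑ p ∈ P, ∑ m ∈ Finset.Icc 1 (N / p), F (p * m) * (g p * g m) =
      ∑ m ∈ Finset.Icc 1 M, g m * h m := by
    simp_rw [hh, Finset.mul_sum]
    rw [Finset.sum_comm]
    refine Finset.sum_congr rfl fun p hp => ?_
    have : (Finset.Icc 1 (N / p)) = (Finset.Icc 1 M).filter (fun m => m ≤ N / p) := by
      ext m
      simp only [Finset.mem_filter, Finset.mem_Icc]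
      have := hpM p hp
      omega
    rw [this, Finset.sum_filter]
    refine Finset.sum_congr rfl fun m _ => ?_
    split_ifs
    · ring
    · simp
  rw [s3]
  have h1 : ‖∑ m ∈ Finset.Icc 1 M, g m * h m‖ ≤ ∑ m ∈ Finset.Icc 1 M, ‖h m‖ := by
    refine (norm_sum_le _ _).trans (Finset.sum_le_sum fun n _ => ?_)
    rw [norm_mul]
    have := hg n
    nlinarith [norm_nonneg (h n)]
  refine h1.trans ?_
  have h3 : ((∑ m ∈ Finset.Icc 1 M, ‖h m‖ ^ 2 : ℝ) : ℂ) = ∑ p ∈ P, ∑ q ∈ P,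
      (g p * (starRingEnd ℂ) (g q)) *
      ∑ m ∈ Finset.Icc 1 (N / max p q), F (p * m) * (starRingEnd ℂ) (F (q * m)) := by
    push_cast
    have : ∀ m, ((‖h m‖ : ℝ) : ℂ) ^ 2 = ∑ p ∈ P, ∑ q ∈ P,
        (if m ≤ min (N / p) (N / q) then (g p * (starRingEnd ℂ) (g q)) *
          (F (p * m) * (starRingEnd ℂ) (F (q * m))) else 0) := by
      intro m
      rw [← Complex.mul_conj', hh]
      simp only [map_sum]
      rw [Finset.sum_mul_sum]
      refine Finset.sum_congr rfl fun p _ => Finset.sum_congr rfl fun q _ => ?_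
      by_cases a1 : m ≤ N / p <;> by_cases a2 : m ≤ N / q <;>
        simp only [le_min_iff, a1, a2, if_true, if_false, and_self, and_false,
          and_true, map_mul, map_zero, mul_zero, zero_mul]
      ring
    simp_rw [this]
    rw [Finset.sum_comm]
    refine Finset.sum_congr rfl fun p hp => ?_
    rw [Finset.sum_comm]
    refine Finset.sum_congr rfl fun q hq => ?_
    rw [Finset.mul_sum, ← Finset.sum_filter]
    refine Finset.sum_congr ?_ fun _ _ => rfl
    have hmm : min (N / p) (N / q) = N / max p q := by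
      have hp0 := (hP p hp).pos
      have hq0 := (hP q hq).pos
      rcases le_total p q with hpq | hpq
      · rw [max_eq_right hpq, min_eq_right (Nat.div_le_div_left hpq hp0)]
      · rw [max_eq_left hpq, min_eq_left (Nat.div_le_div_left hpq hq0)]
    ext m
    simp only [Finset.mem_filter, Finset.mem_Icc]
    rw [hmm]
    have e1 := hpM p hp
    have e2 : N / max p q ≤ N / p := Nat.div_le_div_left (le_max_left _ _) (hP p hp).pos
    omega
  have hNj : 0 ≤ (N : ℝ) / 2 ^ j := by positivity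
  have h5 : ∑ m ∈ Finset.Icc 1 M, ‖h m‖ ^ 2 ≤ (N : ℝ) / 2 ^ j * (P.card + ε * (P.card : ℝ) ^ 2) := by
    have h4 : ∑ m ∈ Finset.Icc 1 M, ‖h m‖ ^ 2 = ‖((∑ m ∈ Finset.Icc 1 M, ‖h m‖ ^ 2 : ℝ) : ℂ)‖ := by
      rw [Complex.norm_real, Real.norm_of_nonneg (Finset.sum_nonneg fun _ _ => by positivity)]
    rw [h4, h3]
    have hdiv : ∀ p ∈ P, ((N / p : ℕ) : ℝ) ≤ (N : ℝ) / 2 ^ j := fun p hp =>
      le_trans (by exact_mod_cast hpM p hp) hMr
    have hterm : ∀ p ∈ P, ‖∑ q ∈ P, (g p * (starRingEnd ℂ) (g q)) *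
        ∑ m ∈ Finset.Icc 1 (N / max p q), F (p * m) * (starRingEnd ℂ) (F (q * m))‖ ≤
        (N : ℝ) / 2 ^ j + P.card * (ε * ((N : ℝ) / 2 ^ j)) := by
      intro p hp
      rw [← Finset.add_sum_erase P _ hp]
      refine (norm_add_le _ _).trans (add_le_add ?_ ?_)
      · rw [norm_mul, max_self]
        have h6 : ‖g p * (starRingEnd ℂ) (g p)‖ ≤ 1 := by
          rw [norm_mul, RCLike.norm_conj]
          exact mul_le_one₀ (hg _) (norm_nonneg _) (hg _)
        have h7 : ‖∑ m ∈ Finset.Icc 1 (N / p), F (p * m) * (starRingEnd ℂ) (F (p * m))‖ ≤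
            ((N / p : ℕ) : ℝ) := by
          refine (norm_sum_le _ _).trans ?_
          calc ∑ m ∈ Finset.Icc 1 (N / p), ‖F (p * m) * (starRingEnd ℂ) (F (p * m))‖
              ≤ ∑ m ∈ Finset.Icc 1 (N / p), (1 : ℝ) := by
                refine Finset.sum_le_sum fun m _ => ?_
                rw [norm_mul, RCLike.norm_conj]
                exact mul_le_one₀ (hF _) (norm_nonneg _) (hF _)
            _ = ((N / p : ℕ) : ℝ) := by simp
        calc _ ≤ 1 * ((N / p : ℕ) : ℝ) := mul_le_mul h6 h7 (norm_nonneg _) zero_le_one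
          _ = ((N / p : ℕ) : ℝ) := one_mul _
          _ ≤ _ := hdiv p hp
      · refine (norm_sum_le _ _).trans ?_
        have h8 : ∀ q ∈ P.erase p, ‖(g p * (starRingEnd ℂ) (g q)) *
            ∑ m ∈ Finset.Icc 1 (N / max p q), F (p * m) * (starRingEnd ℂ) (F (q * m))‖ ≤
            ε * ((N : ℝ) / 2 ^ j) := by
          intro q hq
          rw [Finset.mem_erase] at hq
          rw [norm_mul]
          have h6 : ‖g p * (starRingEnd ℂ) (g q)‖ ≤ 1 := by
            rw [norm_mul, RCLike.norm_conj]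
            exact mul_le_one₀ (hg _) (norm_nonneg _) (hg _)
          have h9 : ((N / max p q : ℕ) : ℝ) ≤ (N : ℝ) / 2 ^ j := by
            refine le_trans ?_ (hdiv p hp)
            exact_mod_cast Nat.div_le_div_left (le_max_left _ _) (hP p hp).pos
          calc _ ≤ 1 * ‖∑ m ∈ Finset.Icc 1 (N / max p q),
                F (p * m) * (starRingEnd ℂ) (F (q * m))‖ :=
                mul_le_mul_of_nonneg_right h6 (norm_nonneg _)
            _ = ‖∑ m ∈ Finset.Icc 1 (N / max p q), F (p * m) * (starRingEnd ℂ) (F (q * m))‖ :=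
                one_mul _
            _ ≤ ε * (N / max p q : ℕ) := hcor p hp q hq.2 (Ne.symm hq.1)
            _ ≤ _ := by gcongr
        refine (Finset.sum_le_sum h8).trans ?_
        rw [Finset.sum_const, nsmul_eq_mul]
        have : ((P.erase p).card : ℝ) ≤ P.card := by
          exact_mod_cast Finset.card_le_card (Finset.erase_subset _ _)
        gcongr
    refine (norm_sum_le _ _).trans ((Finset.sum_le_sum hterm).trans ?_)
    rw [Finset.sum_const, nsmul_eq_mul]
    apply le_of_eq; ring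
  have h6 : ∑ m ∈ Finset.Icc 1 M, ‖h m‖ ≤
      √(((N : ℝ) / 2 ^ j) ^ 2 * (P.card + ε * (P.card : ℝ) ^ 2)) := by
    apply Real.le_sqrt_of_sq_le
    have h2 := sq_sum_le_card_mul_sum_sq (s := Finset.Icc 1 M) (f := fun n => ‖h n‖)
    rw [Nat.card_Icc, Nat.add_sub_cancel] at h2
    refine h2.trans ?_
    calc (M : ℝ) * ∑ m ∈ Finset.Icc 1 M, ‖h m‖ ^ 2 ≤
        (N : ℝ) / 2 ^ j * ((N : ℝ) / 2 ^ j * (P.card + ε * (P.card : ℝ) ^ 2)) := by
          gcongr
      _ = _ := by ring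
  refine h6.trans ?_
  rw [Real.sqrt_mul (by positivity), Real.sqrt_sq hNj]
  refine mul_le_mul_of_nonneg_left ?_ hNj
  rw [Real.sqrt_le_left (by positivity), add_sq, mul_pow, Real.sq_sqrt (by positivity),
    Real.sq_sqrt hε]
  have : 0 ≤ 2 * √(P.card : ℝ) * (√ε * P.card) := by positivity
  linarith

theorem window_bound (g F : ℕ → ℂ) (hg : ∀ n, ‖g n‖ ≤ 1) (hF : ∀ n, ‖F n‖ ≤ 1)
    (hmul : ∀ p m, p.Prime → ¬ p ∣ m → g (p * m) = g p * g m)
    (P : Finset ℕ) (hP : ∀ p ∈ P, p.Prime) (N : ℕ) (ε : ℝ) (hε : 0 ≤ ε)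
    (hcor : ∀ p ∈ P, ∀ q ∈ P, p ≠ q → p ≤ 2 * q → q ≤ 2 * p →
      ‖∑ m ∈ Finset.Icc 1 (N / max p q), F (p * m) * (starRingEnd ℂ) (F (q * m))‖ ≤
        ε * (N / max p q : ℕ)) :
    recip P * ‖∑ n ∈ Finset.Icc 1 N, g n * F n‖ ≤
      √(N * (N * recip P + 2 * P.card * recip P)) + 2 * N * (∑ p ∈ P, 1 / (p : ℝ) ^ 2)
      + (4 * N + 2 * √ε * N * recip P) := by
  classical
  have hL : 0 ≤ recip P := Finset.sum_nonneg fun p _ => by positivity
  set A := ∑ n ∈ Finset.Icc 1 N, g n * F n with hA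
  set B := ∑ p ∈ P, ∑ m ∈ Finset.Icc 1 (N / p), F (p * m) * (g p * g m) with hB
  -- step 1
  have s1 : ∑ n ∈ Finset.Icc 1 N, (omegaP P n : ℂ) * (g n * F n) =
      ∑ p ∈ P, ∑ m ∈ Finset.Icc 1 (N / p), F (p * m) * g (p * m) := by
    have : ∀ n, (omegaP P n : ℂ) * (g n * F n) = ∑ p ∈ P, if p ∣ n then F n * g n else 0 := by
      intro n
      rw [omegaP]; push_cast
      rw [Finset.sum_mul]
      refine Finset.sum_congr rfl fun p _ => ?_
      by_cases h : p ∣ n <;> simp [h, mul_comm]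
    simp_rw [this]
    rw [Finset.sum_comm]
    exact Finset.sum_congr rfl fun p hp => sum_dvd_mul N p (hP p hp).pos (fun n => F n * g n)
  -- step 2
  have s2 : ‖∑ n ∈ Finset.Icc 1 N, (omegaP P n : ℂ) * (g n * F n) - B‖ ≤
      2 * N * (∑ p ∈ P, 1 / (p : ℝ) ^ 2) := by
    rw [s1, hB, ← Finset.sum_sub_distrib, Finset.mul_sum]
    refine (norm_sum_le _ _).trans (Finset.sum_le_sum fun p hp => ?_)
    have hp0 : 0 < p := (hP p hp).pos
    rw [← Finset.sum_sub_distrib]
    calc ‖∑ m ∈ Finset.Icc 1 (N / p), (F (p * m) * g (p * m) - F (p * m) * (g p * g m))‖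
        ≤ ∑ m ∈ Finset.Icc 1 (N / p), 2 * (if p ∣ m then (1 : ℝ) else 0) := by
          refine (norm_sum_le _ _).trans (Finset.sum_le_sum fun m _ => ?_)
          by_cases h : p ∣ m
          · rw [if_pos h]
            refine (norm_sub_le _ _).trans ?_
            rw [norm_mul, norm_mul, norm_mul]
            have h1 : ‖F (p * m)‖ * ‖g (p * m)‖ ≤ 1 :=
              mul_le_one₀ (hF _) (norm_nonneg _) (hg _)
            have h2 : ‖F (p * m)‖ * (‖g p‖ * ‖g m‖) ≤ 1 :=
              mul_le_one₀ (hF _) (by positivity) (mul_le_one₀ (hg _) (norm_nonneg _) (hg _))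
            linarith
          · rw [if_neg h, hmul p m (hP p hp) h]; simp
      _ = 2 * ((N / p / p : ℕ) : ℝ) := by rw [← Finset.mul_sum, sum_dvd _ _ hp0]
      _ ≤ 2 * (N : ℝ) * (1 / (p : ℝ) ^ 2) := by
          have h1 := floor_le (N / p) p
          have h2 := floor_le N p
          have h3 : (0 : ℝ) < p := by exact_mod_cast hp0
          have h4 : ((N / p : ℕ) : ℝ) / p ≤ (N : ℝ) / p / p := by gcongr
          have h5 : (N : ℝ) / p / p = N * (1 / (p : ℝ) ^ 2) := by field_simp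
          rw [h5] at h4
          linarith
  -- Turan-Kubilius
  have tk : ‖∑ n ∈ Finset.Icc 1 N, (omegaP P n : ℂ) * (g n * F n) - (recip P : ℂ) * A‖ ≤
      √(N * (N * recip P + 2 * P.card * recip P)) := by
    rw [hA, Finset.mul_sum, ← Finset.sum_sub_distrib]
    have h1 : ‖∑ n ∈ Finset.Icc 1 N, ((omegaP P n : ℂ) * (g n * F n) - (recip P : ℂ) * (g n * F n))‖ ≤
        ∑ n ∈ Finset.Icc 1 N, |omegaP P n - recip P| := by
      refine (norm_sum_le _ _).trans (Finset.sum_le_sum fun n _ => ?_)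
      rw [← sub_mul, norm_mul, norm_mul, ← Complex.ofReal_sub, Complex.norm_real, Real.norm_eq_abs]
      have : ‖g n‖ * ‖F n‖ ≤ 1 := mul_le_one₀ (hg _) (norm_nonneg _) (hF _)
      nlinarith [abs_nonneg (omegaP P n - recip P)]
    refine h1.trans ?_
    apply Real.le_sqrt_of_sq_le
    have h2 := sq_sum_le_card_mul_sum_sq (s := Finset.Icc 1 N) (f := fun n => |omegaP P n - recip P|)
    rw [Nat.card_Icc, Nat.add_sub_cancel] at h2
    refine h2.trans ?_
    apply mul_le_mul_of_nonneg_left _ (Nat.cast_nonneg N)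
    simp_rw [sq_abs]
    exact turan_kubilius P hP N
  -- windows
  have cs : ‖B‖ ≤ 4 * N + 2 * √ε * N * recip P := by
    set J := P.image (Nat.log 2) with hJ
    have hmaps : ∀ p ∈ P, Nat.log 2 p ∈ J := fun p hp => Finset.mem_image_of_mem _ hp
    have hfib : B = ∑ j ∈ J, ∑ p ∈ P.filter (fun p => Nat.log 2 p = j),
        ∑ m ∈ Finset.Icc 1 (N / p), F (p * m) * (g p * g m) := by
      rw [hB, Finset.sum_fiberwise_of_maps_to hmaps]
    have hwin : ∀ j, ∀ p ∈ P.filter (fun p => Nat.log 2 p = j), 2 ^ j ≤ p ∧ p < 2 ^ (j + 1) := by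
      intro j p hp
      rw [Finset.mem_filter] at hp
      have hp0 := (hP p hp.1).ne_zero
      rw [← hp.2]
      exact ⟨Nat.pow_log_le_self 2 hp0, Nat.lt_pow_succ_log_self (by norm_num) p⟩
    have hone : ∀ j ∈ J, ‖∑ p ∈ P.filter (fun p => Nat.log 2 p = j),
        ∑ m ∈ Finset.Icc 1 (N / p), F (p * m) * (g p * g m)‖ ≤
        (N : ℝ) * (3 / 4) ^ j + 2 * √ε * N * recip (P.filter (fun p => Nat.log 2 p = j)) := by
      intro j _
      set Q := P.filter (fun p => Nat.log 2 p = j) with hQ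
      have hQP : Q ⊆ P := Finset.filter_subset _ _
      have h1 := cs_window g F hg hF Q (fun p hp => hP p (hQP hp)) j
        (fun p hp => (hwin j p hp).1) N ε hε (fun p hp q hq hpq => by
          have a1 := hwin j p hp
          have a2 := hwin j q hq
          have e : 2 ^ (j + 1) = 2 * 2 ^ j := by ring
          exact hcor p (hQP hp) q (hQP hq) hpq (by omega) (by omega))
      refine h1.trans ?_
      have hcard : (Q.card : ℝ) ≤ 2 ^ j := by
        have : Q ⊆ Finset.Ico (2 ^ j) (2 ^ (j + 1)) := fun p hp =>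
          Finset.mem_Ico.2 (hwin j p hp)
        have h2 := Finset.card_le_card this
        rw [Nat.card_Ico] at h2
        have e : 2 ^ (j + 1) - 2 ^ j = 2 ^ j := by
          rw [pow_succ]; omega
        rw [e] at h2
        exact_mod_cast h2
      have hsq : √(Q.card : ℝ) ≤ (3 / 2) ^ j := by
        rw [Real.sqrt_le_left (by positivity)]
        refine hcard.trans ?_
        rw [← pow_mul, mul_comm, pow_mul]
        exact pow_le_pow_left₀ (by norm_num) (by norm_num) j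
      have hrec : (Q.card : ℝ) / 2 ^ j ≤ 2 * recip Q := by
        rw [recip, Finset.mul_sum, Finset.card_eq_sum_ones]
        push_cast
        rw [Finset.sum_div]
        refine Finset.sum_le_sum fun p hp => ?_
        have a1 := hwin j p hp
        have hp0 : (0 : ℝ) < p := by exact_mod_cast (hP p (hQP hp)).pos
        have a2 : (p : ℝ) ≤ 2 * 2 ^ j := by
          have : p ≤ 2 * 2 ^ j := by rw [← pow_succ']; exact a1.2.le
          exact_mod_cast this
        rw [mul_one_div, div_le_div_iff₀ (by positivity) hp0]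
        linarith
      rw [mul_add]
      refine add_le_add ?_ ?_
      · calc (N : ℝ) / 2 ^ j * √(Q.card : ℝ) ≤ (N : ℝ) / 2 ^ j * (3 / 2) ^ j := by gcongr
          _ = (N : ℝ) * (3 / 4) ^ j := by
            rw [show (3 / 4 : ℝ) = (3 / 2) / 2 by norm_num, div_pow (3 / 2 : ℝ) 2 j]; ring
      · calc (N : ℝ) / 2 ^ j * (√ε * Q.card) = √ε * N * ((Q.card : ℝ) / 2 ^ j) := by ring
          _ ≤ √ε * N * (2 * recip Q) := by gcongr
          _ = _ := by ring
    rw [hfib]
    refine (norm_sum_le _ _).trans ((Finset.sum_le_sum hone).trans ?_)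
    rw [Finset.sum_add_distrib, ← Finset.mul_sum, ← Finset.mul_sum]
    refine add_le_add ?_ ?_
    · have hsum : ∑ j ∈ J, (3 / 4 : ℝ) ^ j ≤ 4 := by
        have h1 : Summable (fun j : ℕ => (3 / 4 : ℝ) ^ j) :=
          summable_geometric_of_lt_one (by norm_num) (by norm_num)
        have h2 := h1.sum_le_tsum J (fun _ _ => by positivity)
        rw [tsum_geometric_of_lt_one (by norm_num) (by norm_num)] at h2
        norm_num at h2
        exact h2
      have hN : (0 : ℝ) ≤ N := Nat.cast_nonneg N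
      nlinarith
    · apply le_of_eq
      congr 1
      simp only [recip]
      rw [Finset.sum_fiberwise_of_maps_to hmaps]
  -- conclusion
  have e : recip P * ‖A‖ = ‖(recip P : ℂ) * A‖ := by
    rw [norm_mul, Complex.norm_real, Real.norm_of_nonneg hL]
  rw [e]
  set W := ∑ n ∈ Finset.Icc 1 N, (omegaP P n : ℂ) * (g n * F n)
  have e2 : (recip P : ℂ) * A = -(W - (recip P : ℂ) * A) + (W - B) + B := by ring
  rw [e2]
  refine (norm_add_le _ _).trans (add_le_add ((norm_add_le _ _).trans (add_le_add ?_ s2)) cs)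
  rw [norm_neg]; exact tk

end KataiWAux

open Pool.Agent.Work.MP_54969a_nt in
theorem katai_window {ι : Type} {l : Filter ι} [l.NeBot] (F : ι → ℕ → ℂ)
    (hF : ∀ i n, ‖F i n‖ ≤ 1) {N : ι → ℕ} (hN : Tendsto N l atTop)
    (h : ∀ ε : ℝ, 0 < ε → ∃ p0 : ℕ, ∀ p q : ℕ, p.Prime → q.Prime → p ≠ q → p0 ≤ p → p0 ≤ q →
      p ≤ 2 * q → q ≤ 2 * p → ∀ᶠ i in l,
        ‖∑ n ∈ Finset.Icc 1 (N i / max p q), F i (p * n) * (starRingEnd ℂ) (F i (q * n))‖ ≤
          ε * (N i / max p q : ℕ)) :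
    Tendsto (fun i => (1 / (N i : ℂ)) * ∑ n ∈ Finset.Icc 1 (N i), mu n * F i n) l (𝓝 0) := by
  set C0 : ℝ := ∑' n : ℕ, 1 / (n : ℝ) ^ 2 with hC0
  have hC0' : 0 ≤ C0 := tsum_nonneg fun _ => by positivity
  rw [Metric.tendsto_nhds]
  intro η hη
  set ε : ℝ := (η / 8) ^ 2 with hε
  have hε0 : 0 < ε := by positivity
  have hsε : √ε = η / 8 := by rw [hε, Real.sqrt_sq (by positivity)]
  obtain ⟨p0, hp0⟩ := h ε hε0
  obtain ⟨P, hPS, hPL⟩ := recip_large p0 (2 * (2 / η + 2 * C0 + 4) / η + 1)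
  have hP : ∀ p ∈ P, p.Prime := fun p hp => (hPS p hp).1
  set L := recip P with hLdef
  have hL1 : 1 ≤ L := le_trans (by
    have : 0 ≤ 2 * (2 / η + 2 * C0 + 4) / η := by positivity
    linarith) hPL
  have hmain : √(2 * L) + 2 * C0 + 4 + 2 * √ε * L < η * L := by
    have h1 : √(2 * L) ≤ (η / 2 * L + 2 / (η / 2)) / 2 := by
      have e1 : 2 * L = (η / 2 * L) * (2 / (η / 2)) := by field_simp
      rw [e1]
      have hx : 0 ≤ η / 2 * L := by positivity
      have hy : 0 ≤ 2 / (η / 2) := by positivity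
      rw [Real.sqrt_mul hx]
      have := sq_nonneg (√(η / 2 * L) - √(2 / (η / 2)))
      nlinarith [Real.sq_sqrt hx, Real.sq_sqrt hy]
    have h2 : 2 / (η / 2) = 2 * (2 / η) := by field_simp
    rw [h2] at h1
    have h3 : 2 * (2 / η + 2 * C0 + 4) / η < L := by linarith
    rw [div_lt_iff₀ hη] at h3
    rw [hsε]
    nlinarith
  have hev1 : ∀ᶠ i in l, ∀ p ∈ P, ∀ q ∈ P, p ≠ q → p ≤ 2 * q → q ≤ 2 * p →
      ‖∑ n ∈ Finset.Icc 1 (N i / max p q), F i (p * n) * (starRingEnd ℂ) (F i (q * n))‖ ≤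
          ε * (N i / max p q : ℕ) := by
    rw [Filter.eventually_all_finset]
    intro p hp
    rw [Filter.eventually_all_finset]
    intro q hq
    by_cases h1 : p ≠ q
    · by_cases h2 : p ≤ 2 * q
      · by_cases h3 : q ≤ 2 * p
        · filter_upwards [hp0 p q (hP p hp) (hP q hq) h1 (hPS p hp).2.le (hPS q hq).2.le h2 h3]
            with i hi _ _ _
          exact hi
        · exact Eventually.of_forall fun i _ _ h => absurd h h3
      · exact Eventually.of_forall fun i _ h => absurd h h2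
    · exact Eventually.of_forall fun i h => absurd h h1
  have hev2 : ∀ᶠ i in l, max 1 (2 * P.card) ≤ N i := hN.eventually_ge_atTop _
  filter_upwards [hev1, hev2] with i hi1 hi2
  have hN0 : 1 ≤ N i := le_trans (le_max_left _ _) hi2
  have hNP : 2 * P.card ≤ N i := le_trans (le_max_right _ _) hi2
  have hNr : (0 : ℝ) < N i := by exact_mod_cast hN0
  have hNP' : 2 * (P.card : ℝ) ≤ N i := by exact_mod_cast hNP
  have hb := KataiWAux.window_bound mu (F i) mu_norm_le (hF i)
    (fun p m hp hpm => mu_mul_of_coprime ((Nat.Prime.coprime_iff_not_dvd hp).mpr hpm))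
    P hP (N i) ε hε0.le hi1
  have hs1 : √(N i * (N i * L + 2 * P.card * L)) ≤ N i * √(2 * L) := by
    rw [show (N i : ℝ) * √(2 * L) = √((N i : ℝ) ^ 2 * (2 * L)) by
      rw [Real.sqrt_mul (sq_nonneg (N i : ℝ)) (2 * L), Real.sqrt_sq hNr.le]]
    apply Real.sqrt_le_sqrt
    nlinarith [mul_nonneg hNr.le (by linarith : (0 : ℝ) ≤ L)]
  have hs3 : 2 * (N i : ℝ) * (∑ p ∈ P, 1 / (p : ℝ) ^ 2) ≤ 2 * N i * C0 := by
    apply mul_le_mul_of_nonneg_left (sum_inv_sq_le P) (by positivity)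
  have hfin : L * ‖∑ n ∈ Finset.Icc 1 (N i), mu n * F i n‖ ≤
      N i * (√(2 * L) + 2 * C0 + 4 + 2 * √ε * L) := by
    rw [← hLdef] at hb
    linarith
  rw [dist_zero_right, norm_mul, norm_div, norm_one, Complex.norm_natCast, one_div,
    inv_mul_lt_iff₀ hNr]
  have hLpos : 0 < L := by linarith
  have : L * ‖∑ n ∈ Finset.Icc 1 (N i), mu n * F i n‖ < L * (N i * η) := by
    refine lt_of_le_of_lt hfin ?_
    have := mul_lt_mul_of_pos_left hmain hNr
    linarith
  exact lt_of_mul_lt_mul_left this hLpos.le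

end Pool.Agent.Work.MP_c9c104_nt
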