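import Pool.Agent.Work.MP_c9c104_nt.Fibres
import Pool.Agent.Work.MP_c9c104_nt.Quot

/-!
Large compact sets on which the fibres vary continuously.
-/

open MeasureTheory Filter Topology Set ProbabilityTheory
open scoped ENNReal NNReal

namespace Pool.Agent.Work.MP_c9c104_nt

variable {X : Type} [TopologicalSpace X] [MeasurableSpace X] [MulAction G X] [HomSp X]
variable {Z : Type} [TopologicalSpace Z] [MeasurableSpace Z] [MulAction G Z] [PhSp Z]

variable (m : Measure X) [IsProbabilityMeasure m] [SMulInvariantMeasure G X m]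

/-- inner approximation by compact sets in the product -/
theorem lus_inner (ν : Measure (X × X)) [IsFiniteMeasure ν] {A : Set (X × X)}
    (hA : MeasurableSet A) {ε : ℝ≥0∞} (hε : ε ≠ 0) :
    ∃ K ⊆ A, IsCompact K ∧ ν (A \ K) < ε := by
  have : ν.Regular := inferInstance
  have : ν.InnerRegularCompactLTTop := inferInstance
  exact hA.exists_isCompact_sdiff_lt (measure_ne_top _ _) hε

theorem lus_measurable (κ : Kernel X X) [IsMarkovKernel κ] :
    Measurable fun z : X × X => κ z.1 {z.2} := by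
  have hD : MeasurableSet {q : (X × X) × X | q.1.2 = q.2} :=
    (isClosed_eq (by fun_prop) (by fun_prop)).measurableSet
  set κ' : Kernel (X × X) X := κ.comap Prod.fst measurable_fst with hκ'
  have h1 := Kernel.measurable_kernel_prodMk_left (κ := κ') hD
  have he : (fun z : X × X => κ z.1 {z.2}) =
      fun z => κ' z (Prod.mk z ⁻¹' {q | q.1.2 = q.2}) := by
    funext z
    rw [hκ', Kernel.comap_apply]
    congr 1
    ext y
    simp [eq_comm]
  rw [he]
  exact h1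

/-- description of the fibre -/
theorem lus_fib {k : ℕ} {κ : Kernel X X} {x : X} {F : Finset X}
    (h : κ x = ∑ y ∈ F, ((k : ℝ≥0∞)⁻¹) • Measure.dirac y) :
    fib κ x = F ∧ ∀ A : Set X, MeasurableSet A →
      ((∃ y ∈ F, y ∈ A) → (k : ℝ≥0∞)⁻¹ ≤ κ x A) ∧ ((∀ y ∈ F, y ∉ A) → κ x A = 0) := by
  have hk' : (k : ℝ≥0∞)⁻¹ ≠ 0 := by simp
  have h2 : ∀ A : Set X, MeasurableSet A →
      ((∃ y ∈ F, y ∈ A) → (k : ℝ≥0∞)⁻¹ ≤ κ x A) ∧ ((∀ y ∈ F, y ∉ A) → κ x A = 0) := by
    intro A hA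
    have e : κ x A = ∑ y ∈ F, (k : ℝ≥0∞)⁻¹ * A.indicator 1 y := by
      rw [h, Measure.finsetSum_apply]
      refine Finset.sum_congr rfl fun y _ => ?_
      rw [Measure.smul_apply, Measure.dirac_apply' _ hA, smul_eq_mul]
    constructor
    · rintro ⟨y, hy, hyA⟩
      rw [e]
      refine le_trans (le_of_eq ?_) (Finset.single_le_sum (fun _ _ => zero_le) hy)
      simp [hyA]
    · intro hF
      rw [e]
      refine Finset.sum_eq_zero fun y hy => ?_
      simp [hF y hy]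
  refine ⟨?_, h2⟩
  ext y
  simp only [fib, mem_ofPred_eq, Finset.mem_coe]
  have h3 := h2 {y} (measurableSet_singleton y)
  constructor
  · intro hy
    by_contra hcon
    refine hy (h3.2 ?_)
    intro y' hy' hyy
    rw [mem_singleton_iff] at hyy
    exact hcon (hyy ▸ hy')
  · intro hy h0
    have := h3.1 ⟨y, hy, rfl⟩
    rw [h0] at this
    exact hk' (le_antisymm this (zero_le))

omit [SMulInvariantMeasure G X m] in
/-- a compact set of pairs and a measurable set of good base points -/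
theorem lus_step {ν : Measure (X × X)} {k : ℕ} {κ : Kernel X X} (hF : Fib m ν k κ) {δ : ℝ}
    (hδ : 0 < δ) :
    ∃ (K : Set (X × X)) (Q0 : Set X), IsCompact K ∧ MeasurableSet Q0 ∧
      m Q0ᶜ ≤ ENNReal.ofReal δ ∧ ∀ x ∈ Q0, (fib κ x).Finite ∧ (fib κ x).ncard = k ∧
        ∀ y, y ∈ fib κ x ↔ (x, y) ∈ K := by
  have := hF.markov
  have hk := hF.kpos
  have hkR : (0 : ℝ) < k := by exact_mod_cast hk
  have hνp : IsFiniteMeasure ν := by
    rw [← hF.comp]
    infer_instance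
  set Ω : Set (X × X) := {z | κ z.1 {z.2} ≠ 0} with hΩ
  have hΩm : MeasurableSet Ω := (lus_measurable κ) (measurableSet_singleton 0).compl
  obtain ⟨K, hKΩ, hK, hKν⟩ := lus_inner ν hΩm (ε := ENNReal.ofReal (δ / k)) (by
    simp; positivity)
  have hfin := hF.fin
  have hΩ0 : ν Ωᶜ = 0 := by
    rw [← hF.comp, Measure.compProd_apply hΩm.compl]
    refine (lintegral_eq_zero_iff (Kernel.measurable_kernel_prodMk_left hΩm.compl)).2 ?_
    filter_upwards [hfin] with x hx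
    obtain ⟨F, hFk, hFκ⟩ := hx
    obtain ⟨hf1, hf2⟩ := lus_fib hFκ
    refine (hf2 _ (measurable_prodMk_left hΩm.compl)).2 ?_
    intro y hy
    have hy' : y ∈ fib κ x := by rw [hf1]; exact hy
    simp only [mem_preimage, hΩ, mem_compl_iff, mem_ofPred_eq, not_not]
    exact hy'
  have hKc : ν Kᶜ ≤ ENNReal.ofReal (δ / k) := by
    have : Kᶜ ⊆ (Ω \ K) ∪ Ωᶜ := by
      intro z hz
      by_cases h : z ∈ Ω
      · exact Or.inl ⟨h, hz⟩
      · exact Or.inr h
    refine (measure_mono this).trans ((measure_union_le _ _).trans ?_)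
    rw [hΩ0, add_zero]
    exact hKν.le
  have hKm : MeasurableSet K := hK.isClosed.measurableSet
  have hφm : Measurable fun x => κ x (Prod.mk x ⁻¹' Kᶜ) :=
    Kernel.measurable_kernel_prodMk_left hKm.compl
  have hint : ∫⁻ x, κ x (Prod.mk x ⁻¹' Kᶜ) ∂m ≤ ENNReal.ofReal (δ / k) := by
    rw [← Measure.compProd_apply hKm.compl, hF.comp]
    exact hKc
  rw [ae_iff] at hfin
  set B0 := {x | ¬ ∃ F : Finset X, F.card = k ∧
    κ x = ∑ y ∈ F, ((k : ℝ≥0∞)⁻¹) • Measure.dirac y} with hB0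
  refine ⟨K, {x | κ x (Prod.mk x ⁻¹' Kᶜ) < (k : ℝ≥0∞)⁻¹} \ toMeasurable m B0, hK,
    (hφm measurableSet_Iio).diff (measurableSet_toMeasurable _ _), ?_, ?_⟩
  · have hsub : ({x | κ x (Prod.mk x ⁻¹' Kᶜ) < (k : ℝ≥0∞)⁻¹} \ toMeasurable m B0)ᶜ ⊆
        {x | (k : ℝ≥0∞)⁻¹ ≤ κ x (Prod.mk x ⁻¹' Kᶜ)} ∪ toMeasurable m B0 := by
      intro x hx
      by_cases h1 : κ x (Prod.mk x ⁻¹' Kᶜ) < (k : ℝ≥0∞)⁻¹
      · right
        by_contra h2
        exact hx ⟨h1, h2⟩
      · exact Or.inl (not_lt.1 h1)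
    refine (measure_mono hsub).trans ((measure_union_le _ _).trans ?_)
    rw [measure_toMeasurable, hfin, add_zero]
    refine (meas_ge_le_lintegral_div hφm.aemeasurable (by simp) (by
      simp only [ne_eq, ENNReal.inv_eq_top, Nat.cast_eq_zero]; omega)).trans ?_
    refine ENNReal.div_le_of_le_mul (hint.trans (le_of_eq ?_))
    rw [ENNReal.ofReal_div_of_pos hkR, ENNReal.ofReal_natCast, div_eq_mul_inv]
  · rintro x ⟨hx1, hx2⟩
    have hx3 : x ∉ B0 := fun h => hx2 (subset_toMeasurable _ _ h)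
    simp only [hB0, mem_ofPred_eq, not_not] at hx3
    obtain ⟨F, hFk, hFκ⟩ := hx3
    obtain ⟨hf1, hf2⟩ := lus_fib hFκ
    refine ⟨?_, ?_, ?_⟩
    · rw [hf1]
      exact F.finite_toSet
    · rw [hf1, ncard_coe_finset, hFk]
    · intro y
      constructor
      · intro hy
        by_contra hcon
        have h1 := (hf2 _ (measurable_prodMk_left hKm.compl)).1 ⟨y, by
          rw [hf1] at hy; exact hy, hcon⟩
        exact absurd h1 (not_le.2 hx1)
      · intro hy
        exact hKΩ hy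

/-- points which are displaced by a small group element inside `K` -/
def lusP (K : Set (X × X)) (n : ℕ) : Set X :=
  {x | ∃ y, ∃ h : G, (x, y) ∈ K ∧ (x, h • y) ∈ K ∧ h ≠ 1 ∧ nrm h ≤ 1 / (n + 1)}

theorem lusP_measurable {K : Set (X × X)} (hK : IsCompact K) (n : ℕ) :
    MeasurableSet (lusP K n) := by
  have he : lusP K n = ⋃ j : ℕ, (fun q : (X × X) × G => q.1.1) ''
      {q : (X × X) × G | q.1 ∈ K ∧ (q.1.1, q.2 • q.1.2) ∈ K ∧
        1 / ((j : ℝ) + 1) ≤ nrm q.2 ∧ nrm q.2 ≤ 1 / (n + 1)} := by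
    ext x
    simp only [lusP, mem_ofPred_eq, mem_iUnion, mem_image]
    constructor
    · rintro ⟨y, h, h1, h2, h3, h4⟩
      have h5 : 0 < nrm h := lt_of_le_of_ne (nrm_nonneg h) (fun h0 => h3 (nrm_eq_zero.1 h0.symm))
      obtain ⟨j, hj⟩ := exists_nat_one_div_lt h5
      exact ⟨j, ((x, y), h), ⟨h1, h2, hj.le, h4⟩, rfl⟩
    · rintro ⟨j, ⟨⟨x', y⟩, h⟩, ⟨h1, h2, h3, h4⟩, rfl⟩
      refine ⟨y, h, h1, h2, ?_, h4⟩
      rintro rfl
      rw [nrm_one] at h3
      have : (0 : ℝ) < 1 / ((j : ℝ) + 1) := by positivity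
      linarith
  rw [he]
  refine MeasurableSet.iUnion fun j => ?_
  refine IsCompact.measurableSet ?_
  refine IsCompact.image ?_ (by fun_prop)
  refine (hK.prod (isCompact_bdd 2)).of_isClosed_subset ?_ ?_
  · have c1 : Continuous fun q : (X × X) × G => q.1 := continuous_fst
    have c2 : Continuous fun q : (X × X) × G => (q.1.1, q.2 • q.1.2) :=
      (continuous_fst.comp c1).prodMk (continuous_snd.smul (continuous_snd.comp c1))
    have c3 : Continuous fun q : (X × X) × G => nrm q.2 := continuous_nrm.comp continuous_snd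
    refine (hK.isClosed.preimage c1).inter ((hK.isClosed.preimage c2).inter
      ((isClosed_le continuous_const c3).inter (isClosed_le c3 continuous_const)))
  · rintro ⟨z, h⟩ ⟨h1, h2, h3, h4⟩
    refine ⟨h1, ?_⟩
    have h5 : (1 : ℝ) / (n + 1) ≤ 1 := by
      rw [div_le_one (by positivity)]
      linarith [Nat.cast_nonneg (α := ℝ) n]
    obtain ⟨e1, e2, e3, e4⟩ := nrm_le_iff.1 (h4.trans h5)
    intro i j
    have t1 := abs_le.1 e1
    have t2 := abs_le.1 e2
    fin_cases i <;> fin_cases j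
    · show |h 0 0| ≤ 2
      rw [abs_le]; constructor <;> linarith
    · show |h 0 1| ≤ 2
      linarith
    · show |h 1 0| ≤ 2
      linarith
    · show |h 1 1| ≤ 2
      rw [abs_le]; constructor <;> linarith

omit [TopologicalSpace X] [MeasurableSpace X] [HomSp X] in
theorem lusP_antitone (K : Set (X × X)) : Antitone (lusP K) := by
  rintro i j hij x ⟨y, h, h1, h2, h3, h4⟩
  refine ⟨y, h, h1, h2, h3, h4.trans ?_⟩
  have : (i : ℝ) ≤ j := by exact_mod_cast hij
  exact one_div_le_one_div_of_le (by positivity) (by linarith)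

/-- with finitely many points, small displacements are trivial -/
theorem lusP_finite {K : Set (X × X)} {x : X} (hfin : {y | (x, y) ∈ K}.Finite) :
    ∃ n, x ∉ lusP K n := by
  have h1 : ∀ᶠ h : G in 𝓝 1, ∀ y ∈ {y | (x, y) ∈ K}, ∀ y' ∈ {y | (x, y) ∈ K},
      h • y = y' → h = 1 := by
    refine (hfin.eventually_all).2 fun y _ => (hfin.eventually_all).2 fun y' _ => ?_
    by_cases hyy : y = y'
    · subst hyy
      obtain ⟨ε, hε, hd⟩ := DiscStab.disc y
      filter_upwards [nrm_mem ε hε] with h hh hfix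
      exact hd h hfix hh
    · have hc : Tendsto (fun h : G => h • y) (𝓝 1) (𝓝 y) := by
        have : Continuous fun h : G => h • y := continuous_id.smul continuous_const
        simpa using this.tendsto 1
      filter_upwards [hc (isOpen_ne.mem_nhds hyy)] with h hh hfix
      exact absurd hfix hh
  obtain ⟨r, hr, hr2⟩ := exists_nrm h1
  obtain ⟨n, hn⟩ := exists_nat_one_div_lt hr
  refine ⟨n, ?_⟩
  rintro ⟨y, h, h1, h2, h3, h4⟩
  exact h3 (hr2 h (lt_of_le_of_lt h4 hn) y h1 _ h2 rfl)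

/-- the fibres vary continuously -/
theorem lus_match {k : ℕ} {κ : Kernel X X} {K : Set (X × X)} {Q : Set X} (hK : IsCompact K)
    (hQ : IsCompact Q) (hQK : ∀ x ∈ Q, (fib κ x).Finite ∧ (fib κ x).ncard = k ∧
        ∀ y, y ∈ fib κ x ↔ (x, y) ∈ K) {r0 : ℝ} (hr0 : 0 < r0)
    (hsep : ∀ x ∈ Q, ∀ y ∈ fib κ x, ∀ h : G, nrm h ≤ r0 → h • y ∈ fib κ x → h = 1)
    {ρ : ℝ} (hρ : 0 < ρ) : ∃ κ0 > 0, ∀ x ∈ Q, ∀ g : G, nrm g ≤ κ0 → g • x ∈ Q →
      ∀ y ∈ fib κ x, ∃ h : G, nrm h ≤ ρ ∧ h • y ∈ fib κ (g • x) := by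
  by_contra hcon
  have hcon' : ∀ n : ℕ, ∃ x ∈ Q, ∃ g : G, nrm g ≤ 1 / ((n : ℝ) + 1) ∧ g • x ∈ Q ∧
      ∃ y ∈ fib κ x, ∀ h : G, nrm h ≤ ρ → h • y ∉ fib κ (g • x) := by
    intro n
    by_contra h1
    refine hcon ⟨1 / ((n : ℝ) + 1), by positivity, fun x hx g hg hgx y hy => ?_⟩
    by_contra h2
    refine h1 ⟨x, hx, g, hg, hgx, y, hy, fun h hh hhy => h2 ⟨h, hh, hhy⟩⟩
  choose x hx g hg hgx y hy hbad using hcon'
  have henum : ∀ n, ∃ e : Fin k → X, Function.Injective e ∧ ∀ i, e i ∈ fib κ (g n • x n) := by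
    intro n
    obtain ⟨hf, hc, -⟩ := hQK _ (hgx n)
    have hcard : hf.toFinset.card = k := by rw [← ncard_eq_toFinset_card _ hf, hc]
    refine ⟨fun i => (Finset.equivFinOfCardEq hcard).symm i, ?_, ?_⟩
    · intro i j hij
      exact (Finset.equivFinOfCardEq hcard).symm.injective (Subtype.ext hij)
    · intro i
      exact hf.mem_toFinset.1 ((Finset.equivFinOfCardEq hcard).symm i).2
  choose e hinj hmem using henum
  set U : Ultrafilter ℕ := hyperfilter ℕ with hU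
  have hcpt : ∀ f : ℕ → X × X, (∀ n, f n ∈ K) → ∃ z ∈ K, Tendsto f U (𝓝 z) := by
    intro f hf
    obtain ⟨z, hz, hle⟩ := hK.ultrafilter_le_nhds (U.map f) (by
      rw [le_principal_iff]
      exact Filter.Eventually.of_forall (f := (U : Filter ℕ)) hf)
    exact ⟨z, hz, hle⟩
  have hUtop : (U : Filter ℕ) ≤ atTop := by
    rw [← Nat.cofinite_eq_atTop]
    exact hyperfilter_le_cofinite
  have hnat : Tendsto (fun n : ℕ => 1 / ((n : ℝ) + 1)) U (𝓝 0) :=
    tendsto_one_div_add_atTop_nhds_zero_nat.mono_left hUtop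
  have hg1 : Tendsto g U (𝓝 1) := by
    rw [nhds_one_eq, tendsto_comap_iff]
    exact squeeze_zero (fun n => nrm_nonneg _) hg hnat
  obtain ⟨z, hzK, hz⟩ := hcpt (fun n => (x n, y n)) (fun n => ((hQK _ (hx n)).2.2 _).1 (hy n))
  have hx1 : Tendsto x U (𝓝 z.1) := (continuous_fst.tendsto z).comp hz
  have hy1 : Tendsto y U (𝓝 z.2) := (continuous_snd.tendsto z).comp hz
  have hgx1 : Tendsto (fun n => g n • x n) U (𝓝 z.1) := by
    have := hg1.smul hx1
    simpa using this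
  have hzQ : z.1 ∈ Q := hQ.isClosed.mem_of_tendsto hx1 (Filter.Eventually.of_forall hx)
  have hlim : ∀ i : Fin k, ∃ w : X, (z.1, w) ∈ K ∧ Tendsto (fun n => e n i) U (𝓝 w) := by
    intro i
    obtain ⟨z', hz'K, hz'⟩ := hcpt (fun n => (g n • x n, e n i))
      (fun n => ((hQK _ (hgx n)).2.2 _).1 (hmem n i))
    have h1 : Tendsto (fun n => g n • x n) U (𝓝 z'.1) := (continuous_fst.tendsto z').comp hz'
    have h2 : z'.1 = z.1 := tendsto_nhds_unique h1 hgx1
    refine ⟨z'.2, ?_, (continuous_snd.tendsto z').comp hz'⟩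
    rw [← h2]
    exact hz'K
  choose E hEK hE using hlim
  -- two sequences with the same limit differ by small group elements
  have hsmall : ∀ (w : X) (s t : ℕ → X), Tendsto s U (𝓝 w) → Tendsto t U (𝓝 w) → ∀ ε > 0,
      ∃ n, ∃ h : G, nrm h ≤ ε ∧ h • s n = t n := by
    intro w s t hs ht ε hε
    obtain ⟨p, hp, hp'⟩ := exists_small w hs
    obtain ⟨q, hq, hq'⟩ := exists_small w ht
    have h1 : Tendsto (fun n => q n * (p n)⁻¹) U (𝓝 1) := by
      have := hq.mul hp.inv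
      simpa using this
    obtain ⟨n, hn⟩ := (h1.eventually (nrm_mem ε hε)).exists
    refine ⟨n, q n * (p n)⁻¹, le_of_lt hn, ?_⟩
    rw [hp', hq', ← mul_smul]
    congr 1
    group
  have hEinj : Function.Injective E := by
    intro i j hij
    by_contra hne
    obtain ⟨n, h, hh, hhe⟩ := hsmall (E i) (fun n => e n i) (fun n => e n j) (hE i)
      (by rw [hij]; exact hE j) r0 hr0
    have h1 := hsep _ (hgx n) _ (hmem n i) h hh (by rw [hhe]; exact hmem n j)
    rw [h1, one_smul] at hhe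
    exact hne (hinj n hhe)
  obtain ⟨hfz, hcz, hKz⟩ := hQK _ hzQ
  have hrange : range E = fib κ z.1 := by
    refine Set.eq_of_subset_of_ncard_le ?_ ?_ hfz
    · rintro _ ⟨i, rfl⟩
      exact (hKz _).2 (hEK i)
    · rw [hcz, ← image_univ, ncard_image_of_injective _ hEinj, ncard_univ]
      simp
  have hz2 : z.2 ∈ range E := by
    rw [hrange]
    exact (hKz _).2 hzK
  obtain ⟨i, hi⟩ := hz2
  obtain ⟨n, h, hh, hhe⟩ := hsmall z.2 y (fun n => e n i) hy1 (by rw [← hi]; exact hE i) ρ hρ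
  exact hbad n h hh (by rw [hhe]; exact hmem n i)

theorem lusin {ν : Measure (X × X)} {k : ℕ} {κ : Kernel X X} (hF : Fib m ν k κ) {δ : ℝ}
    (hδ : 0 < δ) :
    ∃ Q : Set X, IsCompact Q ∧ m Qᶜ ≤ ENNReal.ofReal δ ∧
      (∃ r0 > 0, ∀ x ∈ Q, ∀ y ∈ fib κ x, ∀ h : G, nrm h ≤ r0 → h • y ∈ fib κ x → h = 1) ∧
      ∀ ρ > 0, ∃ κ0 > 0, ∀ x ∈ Q, ∀ g : G, nrm g ≤ κ0 → g • x ∈ Q → ∀ y ∈ fib κ x,
        ∃ h : G, nrm h ≤ ρ ∧ h • y ∈ fib κ (g • x) := by
  obtain ⟨K, Q0, hK, hQ0, hQ0m, hQK⟩ := lus_step m hF (δ := δ / 3) (by positivity)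
  have hPm : ∀ n, MeasurableSet (Q0 ∩ lusP K n) := fun n => hQ0.inter (lusP_measurable hK n)
  have hempty : ⋂ n, (Q0 ∩ lusP K n) = ∅ := by
    rw [eq_empty_iff_forall_notMem]
    intro x hx
    rw [mem_iInter] at hx
    have hxQ := (hx 0).1
    obtain ⟨hf, -, hiff⟩ := hQK x hxQ
    have hfin : {y | (x, y) ∈ K}.Finite := by
      convert hf using 1
      ext y
      exact (hiff y).symm
    obtain ⟨n, hn⟩ := lusP_finite hfin
    exact hn (hx n).2
  have htend := tendsto_measure_iInter_atTop (μ := m) (s := fun n => Q0 ∩ lusP K n)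
    (fun n => (hPm n).nullMeasurableSet)
    (fun i j hij => inter_subset_inter_right _ (lusP_antitone K hij))
    ⟨0, measure_ne_top _ _⟩
  rw [hempty, measure_empty] at htend
  have hδ3 : (0 : ℝ≥0∞) < ENNReal.ofReal (δ / 3) := by
    rw [ENNReal.ofReal_pos]; positivity
  obtain ⟨n, hn⟩ := (htend.eventually (gt_mem_nhds hδ3)).exists
  simp only [Function.comp_apply] at hn
  obtain ⟨Q, hQs, hQc, hQm⟩ := (hQ0.diff (lusP_measurable hK n)).exists_isCompact_sdiff_lt
    (measure_ne_top m _) hδ3.ne'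
  have hsep : ∀ x ∈ Q, ∀ y ∈ fib κ x, ∀ h : G, nrm h ≤ 1 / ((n : ℝ) + 1) →
      h • y ∈ fib κ x → h = 1 := by
    intro x hx y hy h hh hhy
    by_contra hne
    obtain ⟨-, -, hiff⟩ := hQK x (hQs hx).1
    exact (hQs hx).2 ⟨y, h, (hiff _).1 hy, (hiff _).1 hhy, hne, hh⟩
  refine ⟨Q, hQc, ?_, ⟨1 / ((n : ℝ) + 1), by positivity, hsep⟩, fun ρ hρ => ?_⟩
  · have hsub : Qᶜ ⊆ Q0ᶜ ∪ (Q0 ∩ lusP K n) ∪ ((Q0 \ lusP K n) \ Q) := by
      intro x hx
      by_cases h1 : x ∈ Q0
      · by_cases h2 : x ∈ lusP K n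
        · exact Or.inl (Or.inr ⟨h1, h2⟩)
        · exact Or.inr ⟨⟨h1, h2⟩, hx⟩
      · exact Or.inl (Or.inl h1)
    calc m Qᶜ ≤ m (Q0ᶜ ∪ (Q0 ∩ lusP K n) ∪ ((Q0 \ lusP K n) \ Q)) := measure_mono hsub
      _ ≤ m (Q0ᶜ) + m (Q0 ∩ lusP K n) + m ((Q0 \ lusP K n) \ Q) :=
          (measure_union_le _ _).trans (add_le_add (measure_union_le _ _) le_rfl)
      _ ≤ ENNReal.ofReal (δ / 3) + ENNReal.ofReal (δ / 3) + ENNReal.ofReal (δ / 3) :=
          add_le_add (add_le_add hQ0m hn.le) hQm.le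
      _ = ENNReal.ofReal δ := by
          rw [← ENNReal.ofReal_add (by positivity) (by positivity),
            ← ENNReal.ofReal_add (by positivity) (by positivity)]
          congr 1
          ring
  · exact lus_match hK hQc (fun x hx => hQK x (hQs hx).1) (by positivity) hsep hρ

end Pool.Agent.Work.MP_c9c104_nt
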