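import Pool.Agent.Work.MP_c9c104_nt.Geod
import Pool.Agent.Work.MP_c9c104_nt.OrbBasic

/-!
Discreteness of translation lengths in a finite orbit.
-/

open MeasureTheory Filter Topology Set ProbabilityTheory
open scoped ENNReal NNReal

namespace Pool.Agent.Work.MP_c9c104_nt

variable {X : Type} [TopologicalSpace X] [MeasurableSpace X] [MulAction G X] [HomSp X]
variable {Z : Type} [TopologicalSpace Z] [MeasurableSpace Z] [MulAction G Z] [PhSp Z]

variable (m : Measure X) [IsProbabilityMeasure m] [SMulInvariantMeasure G X m]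

theorem cosh_fibre_finite (c : ℝ) : {τ : ℝ | Real.cosh τ = c}.Finite := by
  by_cases h : ∃ t : ℝ, Real.cosh t = c
  · obtain ⟨t, rfl⟩ := h
    refine (Set.toFinite ({t, -t} : Set ℝ)).subset ?_
    intro τ hτ
    have h1 : Real.cosh τ = Real.cosh t := hτ
    have h2 : |τ| = |t| := by
      have ha := Real.cosh_le_cosh.1 h1.le
      have hb := Real.cosh_le_cosh.1 h1.ge
      exact le_antisymm ha hb
    rcases abs_eq_abs.1 h2 with h3 | h3
    · left; exact h3
    · right; exact h3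
  · convert Set.finite_empty
    ext τ
    simp only [mem_ofPred_eq, mem_empty_iff_false, iff_false]
    exact fun hτ => h ⟨τ, hτ⟩

include m in
theorem finite_tau {O : Set (X × X)} (hO : FinOrb O) (R : ℝ) :
    {τ : ℝ | |τ| ≤ R ∧ ∃ x : X, (x, a τ • x) ∈ O}.Finite := by
  obtain ⟨K, hK, hmeet⟩ := a_meets (X := X) m
  obtain ⟨x0⟩ : Nonempty X := by
    obtain ⟨z0, _⟩ := hO
    exact ⟨z0.1⟩
  obtain ⟨R', hR'⟩ := compact_lift hK x0
  have hfin := disp_finite hO (x0, x0) (2 * (2 * (R' * Real.exp R) * R'))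
  have hbig : (⋃ W ∈ {W : G | W ∈ disp O (x0, x0) ∧
      ∀ i j, |W i j| ≤ 2 * (2 * (R' * Real.exp R) * R')},
      {τ : ℝ | Real.cosh τ = (W 0 0 + W 1 1) / 2}).Finite :=
    hfin.biUnion fun W _ => cosh_fibre_finite _
  refine hbig.subset ?_
  rintro τ ⟨hτ, x, hx⟩
  obtain ⟨t, ht⟩ := hmeet x
  obtain ⟨g, hg, hgb⟩ := hR' _ ht
  -- move to `K`
  have h1 : (a t • x, a τ • a t • x) ∈ O := by
    have h2 := (finOrb_smul hO (a t) (x, a τ • x)).2 hx
    rw [Prod.smul_mk, smul_smul, ← a_add, add_comm, a_add, mul_smul] at h2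
    exact h2
  rw [← hg] at h1
  have h3 : (x0, (g⁻¹ * a τ * g) • x0) ∈ O := by
    have h2 := (finOrb_smul hO g⁻¹ _).2 h1
    rw [Prod.smul_mk, inv_smul_smul, smul_smul, smul_smul] at h2
    exact h2
  have hinv : (g⁻¹ * a (-τ) * g)⁻¹ = g⁻¹ * a τ * g := by
    rw [mul_inv_rev, mul_inv_rev, inv_inv, a_inv, neg_neg, mul_assoc]
  have hab : ∀ i j, |(a (-τ)) i j| ≤ Real.exp R := by
    have h4 := abs_le.1 hτ
    have h5 : (0 : ℝ) ≤ Real.exp R := (Real.exp_pos R).le
    intro i j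
    fin_cases i <;> fin_cases j
    · change |(a (-τ)) 0 0| ≤ _
      rw [a00, abs_of_pos (Real.exp_pos _)]
      exact Real.exp_le_exp.2 (by linarith)
    · change |(a (-τ)) 0 1| ≤ _
      rw [a01, abs_zero]; exact h5
    · change |(a (-τ)) 1 0| ≤ _
      rw [a10, abs_zero]; exact h5
    · change |(a (-τ)) 1 1| ≤ _
      rw [a11, abs_of_pos (Real.exp_pos _)]
      exact Real.exp_le_exp.2 (by linarith)
  refine mem_biUnion (x := g⁻¹ * a (-τ) * g) ⟨?_, ?_⟩ ?_
  · change (x0, (g⁻¹ * a (-τ) * g)⁻¹ • x0) ∈ O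
    rw [hinv]
    exact h3
  · exact mul_entry_le (mul_entry_le (inv_entry_le hgb) hab) hgb
  · change Real.cosh τ = _
    have hd := G_det g
    have e : (g⁻¹ * a (-τ) * g) 0 0 + (g⁻¹ * a (-τ) * g) 1 1 =
        Real.exp (-τ) + Real.exp τ := by
      simp only [mul00, mul11, mul01, mul10, inv00, inv01, inv10, inv11, a00, a01, a10, a11,
        neg_neg]
      linear_combination (Real.exp (-τ) + Real.exp τ) * hd
    rw [e, Real.cosh_eq]
    ring

end Pool.Agent.Work.MP_c9c104_nt
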