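import Pool.Agent.Work.MP_c9c104_nt.Fin
import Pool.Agent.Work.MP_c9c104_nt.Tau
import Pool.Agent.Work.MP_c9c104_nt.Diag
import Pool.Agent.Work.MP_c9c104_nt.EquiDisc
import Pool.Agent.Work.MP_c9c104_nt.ErgDec
import Pool.Agent.Work.MP_c9c104_nt.Emp
import Pool.Agent.Work.MP_c9c104_nt.Tools

/-!
Bad prime pairs.
-/

open MeasureTheory Filter Topology Set ProbabilityTheory
open scoped ENNReal NNReal

namespace Pool.Agent.Work.MP_c9c104_nt

variable {X : Type} [TopologicalSpace X] [MeasurableSpace X] [MulAction G X] [HomSp X]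

variable (m : Measure X) [IsProbabilityMeasure m] [SMulInvariantMeasure G X m]

/-- components are ergodic for the time `h` map -/
theorem comp_ergodic {ν : Measure (X × X)} (hg : IsGen ν) (hj : IsJoin m ν) {h : ℝ} (hh : h ≠ 0) :
    Ergodic (fun z : X × X => u h • z) ν := by
  rcases joining_class m hg hj with hp | ⟨c, O, σ, hσ, rfl⟩
  · rw [hp]; exact ergodic_prod m hh
  · have := hσ.join.prob
    have hinv : SMulInvariantMeasure G (X × X) σ := ⟨fun g s hs => by
      rw [← Measure.map_apply (measurable_const_smul g) hs, hσ.inv g]⟩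
    obtain ⟨z0, hO, _⟩ := hσ.orb
    have h1 : Ergodic (fun z : X × X => u h • z) σ :=
      ergodic_u σ z0 (by rw [← hO]; exact hσ.full) hh
    have hmp : MeasurePreserving (act2H (X := X) (u c)).toMeasurableEquiv σ
        (σ.map (act2 (u c))) := ⟨(act2H (X := X) (u c)).toMeasurableEquiv.measurable, rfl⟩
    have h2 := (hmp.ergodic_conjugate_iff (f := fun z : X × X => u h • z)).2 h1
    have e : ((act2H (X := X) (u c)).toMeasurableEquiv ∘ (fun z : X × X => u h • z) ∘
        (act2H (X := X) (u c)).toMeasurableEquiv.symm) = (fun z : X × X => u h • z) := by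
      funext z
      change act2 (u c) (u h • act2 (u c)⁻¹ z) = u h • z
      rw [← u_act2, ← act2_mul]; simp
    rwa [e] at h2

/-- integrals of the correlation function over components -/
theorem comp_integral {ν : Measure (X × X)} {f : X → ℝ} (hf : Cc f) (τ c : ℝ)
    {σ : Measure (X × X)} (hσ : IsJoin m σ) (hν : ν = σ.map (act2 (u c))) :
    ∫ z, (f z.1 - ∫ x, f x ∂m) * (f (a (-τ) • z.2) - ∫ x, f x ∂m) ∂ν =
      (∫ z, f z.1 * f (a (-τ) • u c • z.2) ∂σ) - (∫ x, f x ∂m) ^ 2 := by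
  have := hσ.prob
  obtain ⟨B, hB0, hB⟩ := cc_bound hf
  set c0 := ∫ x, f x ∂m with hc0
  have hcont : Continuous fun z : X × X => (f z.1 - c0) * (f (a (-τ) • z.2) - c0) :=
    ((hf.1.comp continuous_fst).sub continuous_const).mul
      ((hf.1.comp ((continuous_const_smul _).comp continuous_snd)).sub continuous_const)
  rw [hν, integral_map (measurable_act2 _).aemeasurable hcont.aestronglyMeasurable]
  have c1 : Continuous fun z : X × X => f z.1 := hf.1.comp continuous_fst
  have c2 : Continuous fun z : X × X => f (a (-τ) • u c • z.2) :=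
    hf.1.comp ((continuous_const_smul _).comp ((continuous_const_smul _).comp continuous_snd))
  have i1 : Integrable (fun z : X × X => f z.1) σ :=
    Integrable.of_bound c1.aestronglyMeasurable B (ae_of_all _ fun z => hB _)
  have i2 : Integrable (fun z : X × X => f (a (-τ) • u c • z.2)) σ :=
    Integrable.of_bound c2.aestronglyMeasurable B (ae_of_all _ fun z => hB _)
  have i3 : Integrable (fun z : X × X => f z.1 * f (a (-τ) • u c • z.2)) σ :=
    Integrable.of_bound (c1.mul c2).aestronglyMeasurable (B * B) (ae_of_all _ fun z => by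
      rw [norm_mul]
      exact mul_le_mul (hB _) (hB _) (norm_nonneg _) hB0)
  have e1 : ∫ z, f z.1 ∂σ = c0 := by
    rw [hc0, ← hσ.fst, integral_map measurable_fst.aemeasurable hf.1.aestronglyMeasurable]
  have e2 : ∫ z, f (a (-τ) • u c • z.2) ∂σ = c0 := by
    have h1 : ∫ z, f (a (-τ) • u c • z.2) ∂σ = ∫ y, f (a (-τ) • u c • y) ∂m := by
      rw [← hσ.snd, integral_map measurable_snd.aemeasurable]
      exact (hf.1.comp ((continuous_const_smul _).comp
        (continuous_const_smul _))).aestronglyMeasurable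
    rw [h1, hc0]
    have h2 : ∀ g : G, ∫ y, f (g • y) ∂m = ∫ y, f y ∂m := by
      intro g
      conv_rhs => rw [← map_smul_inv m g]
      rw [integral_map (measurable_const_smul g).aemeasurable hf.1.aestronglyMeasurable]
    have h3 := h2 (a (-τ) * u c)
    simpa [mul_smul] using h3
  have e3 : ∀ z : X × X, (f (act2 (u c) z).1 - c0) * (f (a (-τ) • (act2 (u c) z).2) - c0) =
      f z.1 * f (a (-τ) • u c • z.2) - c0 * f z.1 - c0 * f (a (-τ) • u c • z.2) + c0 ^ 2 := by
    intro z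
    simp only [act2]
    ring
  simp_rw [e3]
  rw [integral_add, integral_sub, integral_sub, integral_const_mul, integral_const_mul, e1, e2]
  · simp; ring
  · exact i3
  · exact i1.const_mul c0
  · exact i3.sub (i1.const_mul c0)
  · exact i2.const_mul c0
  · exact (i3.sub (i1.const_mul c0)).sub (i2.const_mul c0)
  · exact integrable_const _

theorem prod_integral {f : X → ℝ} (hf : Cc f) (τ : ℝ) :
    ∫ z, (f z.1 - ∫ x, f x ∂m) * (f (a (-τ) • z.2) - ∫ x, f x ∂m) ∂(m.prod m) = 0 := by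
  rw [integral_prod_mul (fun x => f x - ∫ x, f x ∂m) (fun y => f (a (-τ) • y) - ∫ x, f x ∂m)]
  have : ∫ x, (f x - ∫ x, f x ∂m) ∂m = 0 := by
    obtain ⟨B, hB0, hB⟩ := cc_bound hf
    rw [integral_sub (Integrable.of_bound hf.1.aestronglyMeasurable B
      (ae_of_all _ fun z => hB _)) (integrable_const _)]
    simp
  rw [this, zero_mul]

/-- only finitely many pairs of distinct primes have a given finite set of log ratios -/
theorem exists_p0 {T : Set ℝ} (hT : T.Finite) : ∃ p0 : ℕ, ∀ p q : ℕ, p.Prime → q.Prime →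
    p ≠ q → p0 ≤ p → p0 ≤ q → Real.log (p / q) / 2 ∉ T := by
  let P : Set (ℕ × ℕ) := {pq | pq.1.Prime ∧ pq.2.Prime ∧ pq.1 ≠ pq.2 ∧
    Real.log (pq.1 / pq.2) / 2 ∈ T}
  have hinj : InjOn (fun pq : ℕ × ℕ => Real.log (pq.1 / pq.2) / 2) P := by
    rintro ⟨p, q⟩ ⟨hp, hq, hpq, _⟩ ⟨p', q'⟩ ⟨hp', hq', hpq', _⟩ h
    simp only at hp hq hpq hp' hq' hpq' h
    have hp0 : (0 : ℝ) < p := by exact_mod_cast hp.pos
    have hq0 : (0 : ℝ) < q := by exact_mod_cast hq.pos
    have hp0' : (0 : ℝ) < p' := by exact_mod_cast hp'.pos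
    have hq0' : (0 : ℝ) < q' := by exact_mod_cast hq'.pos
    have h1 : Real.log ((p : ℝ) / q) = Real.log ((p' : ℝ) / q') := by linarith
    have h2 : (p : ℝ) / q = p' / q' :=
      Real.log_injOn_pos (mem_Ioi.2 (by positivity)) (mem_Ioi.2 (by positivity)) h1
    rw [div_eq_div_iff hq0.ne' hq0'.ne'] at h2
    have h3 : p * q' = p' * q := by exact_mod_cast h2
    have h4 : p ∣ p' * q := ⟨q', h3.symm⟩
    rcases (hp.dvd_mul).1 h4 with h5 | h5
    · have h6 : p = p' := (Nat.prime_dvd_prime_iff_eq hp hp').1 h5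
      subst h6
      have h7 : q' = q := Nat.eq_of_mul_eq_mul_left hp.pos h3
      rw [h7]
    · exact absurd ((Nat.prime_dvd_prime_iff_eq hp hq).1 h5) hpq
  have hfin : P.Finite := Set.Finite.of_injOn (fun pq h => h.2.2.2) hinj hT
  obtain ⟨b, hb⟩ := (hfin.image Prod.fst).bddAbove
  refine ⟨b + 1, fun p q hp hq hpq h1 _ hmem => ?_⟩
  have : p ≤ b := hb ⟨(p, q), ⟨hp, hq, hpq, hmem⟩, rfl⟩
  omega

omit [TopologicalSpace X] [MeasurableSpace X] [HomSp X] in
theorem typeC_le {C : ℝ} {x : X} {N N' : ℝ} (h : N' ≤ N) (hT : TypeC C x N) : TypeC C x N' := by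
  obtain ⟨η, h1, h2, h3⟩ := hT
  exact ⟨η, h1, h2, fun s hs => h3 s ⟨hs.1, hs.2.trans h⟩⟩

/-- the segment of length `p (N / max p q)` is not of type C either -/
theorem not_typeC_sub {ι : Type} (𝒰 : Ultrafilter ι) {N : ι → ℕ} {x : ι → X}
    (hN : Tendsto N 𝒰 atTop) (hT : ∀ C : ℝ, ∀ᶠ i in (𝒰 : Filter ι), ¬ TypeC C (x i) (N i))
    {p Q : ℕ} (_hp : 0 < p) (hQ : Q ≤ 2 * p) (hQ0 : 0 < Q) (C : ℝ) :
    ∀ᶠ i in (𝒰 : Filter ι), ¬ TypeC C (x i) (p * (N i / Q : ℕ)) := by
  obtain ⟨C', hC'⟩ := typeC_scale (1 / 4) C (by norm_num) (by norm_num)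
  filter_upwards [hT C', hN.eventually_ge_atTop (4 * p + 1)] with i hi hNi hcon
  apply hi
  refine hC' X (x i) (N i) (by exact_mod_cast (show 0 < N i by omega)) (typeC_le ?_ hcon)
  have h1 : N i < Q * (N i / Q) + Q := by
    have := Nat.div_add_mod (N i) Q
    have := Nat.mod_lt (N i) hQ0
    omega
  have h2 : (N i : ℝ) < Q * ((N i / Q : ℕ) : ℝ) + Q := by exact_mod_cast h1
  have h3 : (Q : ℝ) ≤ 2 * p := by exact_mod_cast hQ
  have h4 : (4 * p + 1 : ℝ) ≤ N i := by exact_mod_cast hNi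
  have h5 : (Q : ℝ) * ((N i / Q : ℕ) : ℝ) ≤ 2 * p * ((N i / Q : ℕ) : ℝ) := by gcongr
  linarith

/-- both marginals of the smeared limit measure are `m` -/
theorem join_smear {νd νc : Measure (X × X)} [IsProbabilityMeasure νd] [IsProbabilityMeasure νc]
    {h : ℝ} (hh : 0 < h) (hd : IsJoin m νd)
    (hE : ∀ E : Set (X × X), MeasurableSet E →
        νc E = ENNReal.ofReal (1 / h) * ∫⁻ s in Icc 0 h, νd ((fun z => u s • z) ⁻¹' E)) :
    IsJoin m νc := by
  have key : ENNReal.ofReal (1 / h) * ENNReal.ofReal h = 1 := by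
    rw [← ENNReal.ofReal_mul (by positivity), one_div, inv_mul_cancel₀ hh.ne', ENNReal.ofReal_one]
  refine ⟨inferInstance, ?_, ?_⟩
  · ext A hA
    rw [Measure.map_apply measurable_fst hA, hE _ (measurable_fst hA)]
    have e : ∀ s : ℝ, νd ((fun z : X × X => u s • z) ⁻¹' (Prod.fst ⁻¹' A)) = m A := by
      intro s
      have e1 : (fun z : X × X => u s • z) ⁻¹' (Prod.fst ⁻¹' A) =
          Prod.fst ⁻¹' ((fun x : X => u s • x) ⁻¹' A) := rfl
      rw [e1, ← Measure.map_apply measurable_fst (measurable_const_smul (u s) hA), hd.fst,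
        ← Measure.map_apply (measurable_const_smul (u s)) hA, map_smul_inv m (u s)]
    simp only [e, lintegral_const, Measure.restrict_apply, MeasurableSet.univ, univ_inter,
      Real.volume_Icc, sub_zero]
    rw [mul_comm (m A), ← mul_assoc, key, one_mul]
  · ext A hA
    rw [Measure.map_apply measurable_snd hA, hE _ (measurable_snd hA)]
    have e : ∀ s : ℝ, νd ((fun z : X × X => u s • z) ⁻¹' (Prod.snd ⁻¹' A)) = m A := by
      intro s
      have e1 : (fun z : X × X => u s • z) ⁻¹' (Prod.snd ⁻¹' A) =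
          Prod.snd ⁻¹' ((fun x : X => u s • x) ⁻¹' A) := rfl
      rw [e1, ← Measure.map_apply measurable_snd (measurable_const_smul (u s) hA), hd.snd,
        ← Measure.map_apply (measurable_const_smul (u s)) hA, map_smul_inv m (u s)]
    simp only [e, lintegral_const, Measure.restrict_apply, MeasurableSet.univ, univ_inter,
      Real.volume_Icc, sub_zero]
    rw [mul_comm (m A), ← mul_assoc, key, one_mul]

/-- limits of empirical measures of pairs are joinings, discrete and continuous limits agree -/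
theorem pair_limit {ι : Type} (𝒰 : Ultrafilter ι) {h : ℝ} (hh : 0 < h) {M : ι → ℕ}
    (hM : Tendsto M 𝒰 atTop) (z : ι → X × X)
    (h1 : ∀ g : X → ℝ, Cc g → Tendsto (fun i => (1 / (M i : ℝ)) *
      ∑ n ∈ Finset.Icc 1 (M i), g (u (h * n) • (z i).1)) 𝒰 (𝓝 (∫ x, g x ∂m)))
    (h2 : ∀ g : X → ℝ, Cc g → Tendsto (fun i => (1 / (M i : ℝ)) *
      ∑ n ∈ Finset.Icc 1 (M i), g (u (h * n) • (z i).2)) 𝒰 (𝓝 (∫ x, g x ∂m))) :
    ∃ ν : Measure (X × X), IsJoin m ν ∧
      (∀ φ : X × X → ℝ, Continuous φ → (∃ B, ∀ z, |φ z| ≤ B) →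
        Tendsto (fun i => (1 / (M i : ℝ)) * ∑ n ∈ Finset.Icc 1 (M i), φ (u (h * n) • z i)) 𝒰
          (𝓝 (∫ z, φ z ∂ν))) ∧
      (∀ φ : X × X → ℝ, Cc φ →
        Tendsto (fun i => avg φ (h * M i) (z i)) 𝒰 (𝓝 (∫ z, φ z ∂ν))) ∧
      (∀ s : ℝ, ν.map (fun z => u s • z) = ν) := by
  obtain ⟨νd, νc, hpd, hpc, ha, hinv, hc, hsm, hinvc, hE⟩ := emp_limit 𝒰 hh hM z (by
    intro ε hε
    obtain ⟨χ, hχ, hχ1, hχ2⟩ := exists_cc_one m (ε := ε / 4) (by linarith)
    refine ⟨fun z => χ z.1 * χ z.2, ⟨?_, ?_⟩, fun z => ⟨mul_nonneg (hχ1 _).1 (hχ1 _).1,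
      mul_le_one₀ (hχ1 _).2 (hχ1 _).1 (hχ1 _).2⟩, ?_⟩
    · exact (hχ.1.comp continuous_fst).mul (hχ.1.comp continuous_snd)
    · refine HasCompactSupport.intro ((hχ.2.isCompact).prod (hχ.2.isCompact)) ?_
      rintro ⟨x, y⟩ hz
      rw [Set.mem_prod, not_and_or] at hz
      rcases hz with hz | hz
      · simp only [image_eq_zero_of_notMem_tsupport hz, zero_mul]
      · simp only [image_eq_zero_of_notMem_tsupport hz, mul_zero]
    · have t1 := (tendsto_order.1 (h1 χ hχ)).1 (1 - ε / 4) hχ2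
      have t2 := (tendsto_order.1 (h2 χ hχ)).1 (1 - ε / 4) hχ2
      filter_upwards [t1, t2, hM.eventually_ge_atTop 1] with i i1 i2 i3
      have hMi : (0 : ℝ) < M i := by exact_mod_cast (show 0 < M i by omega)
      have e : ∀ n : ℕ, χ (u (h * n) • (z i).1) + χ (u (h * n) • (z i).2) - 1 ≤
          χ (u (h * n) • z i).1 * χ (u (h * n) • z i).2 := by
        intro n
        have a1 := hχ1 (u (h * n) • (z i).1)
        have a2 := hχ1 (u (h * n) • (z i).2)
        change _ ≤ χ (u (h * n) • (z i).1) * χ (u (h * n) • (z i).2)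
        nlinarith [mul_nonneg (sub_nonneg.2 a1.2) (sub_nonneg.2 a2.2)]
      have s1 : ∑ n ∈ Finset.Icc 1 (M i), (χ (u (h * n) • (z i).1) +
          χ (u (h * n) • (z i).2) - 1) ≤
          ∑ n ∈ Finset.Icc 1 (M i), χ (u (h * n) • z i).1 * χ (u (h * n) • z i).2 :=
        Finset.sum_le_sum fun n _ => e n
      rw [Finset.sum_sub_distrib, Finset.sum_add_distrib] at s1
      simp only [Finset.sum_const, Nat.card_Icc, Nat.add_sub_cancel, nsmul_eq_mul, mul_one] at s1
      have s2 : (1 / (M i : ℝ)) * (∑ n ∈ Finset.Icc 1 (M i), χ (u (h * n) • (z i).1) +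
          ∑ n ∈ Finset.Icc 1 (M i), χ (u (h * n) • (z i).2) - M i) ≤
          (1 / (M i : ℝ)) *
            ∑ n ∈ Finset.Icc 1 (M i), χ (u (h * n) • z i).1 * χ (u (h * n) • z i).2 := by
        gcongr
      have s3 : (1 / (M i : ℝ)) * (M i : ℝ) = 1 := by field_simp
      rw [mul_sub, mul_add, s3] at s2
      linarith)
  have hjd : IsJoin m νd := by
    refine ⟨hpd, ?_, ?_⟩
    · have := Measure.isProbabilityMeasure_map (μ := νd) (measurable_fst (α := X)
        (β := X)).aemeasurable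
      refine meas_ext fun g hg => ?_
      obtain ⟨B, _, hB⟩ := cc_bound hg
      rw [integral_map measurable_fst.aemeasurable hg.1.aestronglyMeasurable]
      exact tendsto_nhds_unique (ha (fun z => g z.1) (hg.1.comp continuous_fst)
        ⟨B, fun z => hB _⟩) (h1 g hg)
    · have := Measure.isProbabilityMeasure_map (μ := νd) (measurable_snd (α := X)
        (β := X)).aemeasurable
      refine meas_ext fun g hg => ?_
      obtain ⟨B, _, hB⟩ := cc_bound hg
      rw [integral_map measurable_snd.aemeasurable hg.1.aestronglyMeasurable]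
      exact tendsto_nhds_unique (ha (fun z => g z.2) (hg.1.comp continuous_snd)
        ⟨B, fun z => hB _⟩) (h2 g hg)
  have hjc : IsJoin m νc := join_smear m hh hjd hE
  obtain ⟨κ, hκm, hκ, hκg⟩ := erg_decomp νc hinvc
  have hκj := comp_join m hjc κ hκ hκg
  have heq : νd = νc := by
    refine disc_cont νd νc hh hinv hsm κ hκ ?_ ?_
    · filter_upwards [hκg] with w hw using gen_inv hw
    · filter_upwards [hκg, hκj] with w hw hw' using comp_ergodic m hw hw' hh.ne'
  subst heq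
  exact ⟨νd, hjd, ha, hc, hinvc⟩

theorem avg_one_sub {θ : X → ℝ} (hθ : Continuous θ) {M : ℝ} (hM : 0 < M) (x : X) :
    avg θ M x = 1 - avg (fun y => 1 - θ y) M x := by
  have hc : Continuous fun s : ℝ => θ (u s • x) := hθ.comp (u_cont x)
  unfold avg
  rw [intervalIntegral.integral_sub (continuous_const.intervalIntegrable _ _)
    (hc.intervalIntegrable _ _)]
  simp
  field_simp
  ring

include m in
/-- from closeness to a finite orbit for a positive proportion of time to an exact relation -/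
theorem exact_relation {O : Set (X × X)} (hO : FinOrb O) {τ : ℝ} (hτ : τ ≠ 0) (hτ1 : |τ| ≤ 1)
    {S0 ε1 : ℝ} (hS0 : 0 < S0) (hε1 : 0 < ε1) {ι : Type} (𝒰 : Ultrafilter ι) {M : ι → ℝ}
    (hM : Tendsto M 𝒰 atTop) (x : ι → X) (hT : ∀ C : ℝ, ∀ᶠ i in (𝒰 : Filter ι),
      ¬ TypeC C (x i) (M i))
    {ν : Measure (X × X)} [IsProbabilityMeasure ν]
    (hc : ∀ φ : X × X → ℝ, Cc φ →
        Tendsto (fun i => avg φ (M i) (x i, a τ • x i)) 𝒰 (𝓝 (∫ z, φ z ∂ν)))
    (hν : ∀ r > 0, ε1 < ν.real (nbh O r S0)) : ∃ x : X, (x, a τ • x) ∈ O := by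
  obtain ⟨L, hL, r2, hr2, θ, hθc, hθ1, hθi, hlin⟩ := linearize m hO hS0 hε1
  obtain ⟨φ1, hφ1, hφ01, hφ0, hφi⟩ := exists_cc_lower ν (isOpen_nbh hO r2 S0) (hν r2 hr2)
  have hθcont : Continuous θ := by
    have h0 : θ = fun y => 1 - (1 - θ y) := by funext y; ring
    rw [h0]
    exact continuous_const.sub hθc.1
  have hev : ∀ δ > 0, ∃ τ' : ℝ, |τ' - τ| < δ ∧ ∃ y : X, (y, a τ' • y) ∈ O := by
    intro δ hδ
    obtain ⟨M0, hM0, hdiag⟩ := diagonalize hτ hL hδ
    have e1 := (tendsto_order.1 (hc φ1 hφ1)).1 ε1 hφi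
    have e2 := equi_cont m hM hT hθc
    have e3 : 1 - ε1 / 8 ≤ ∫ y, (1 - θ y) ∂m := by
      rw [integral_sub (integrable_const _) (Integrable.of_bound hθcont.aestronglyMeasurable 1
        (ae_of_all _ fun y => by
          rw [Real.norm_eq_abs, abs_of_nonneg (hθ1 y).1]; exact (hθ1 y).2))]
      simp
      linarith
    have e4 := (tendsto_order.1 e2).1 (1 - ε1 / 4) (by linarith)
    obtain ⟨i, i1, i2, i3, i4⟩ := (e1.and (e4.and ((hM.eventually_ge_atTop M0).and
      (hM.eventually_gt_atTop 0)))).exists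
    have t1 := time_lower (U := nbh O r2 S0) hφ1 hφ01 hφ0 i4 (x i, a τ • x i) i1.le
    have t2 : avg θ (M i) (x i, a τ • x i).1 ≤ ε1 / 4 := by
      change avg θ (M i) (x i) ≤ ε1 / 4
      rw [avg_one_sub hθcont i4]
      linarith
    obtain ⟨W, hW, w1, w2, w3, w4⟩ := hlin (x i, a τ • x i) (M i) i4 t1 t2
    obtain ⟨h, τ', hτ', hh⟩ := hdiag (M i) i3 W w1 w2 w3 w4
    refine ⟨τ', hτ', h • x i, ?_⟩
    have hW' : (x i, W⁻¹ • a τ • x i) ∈ O := hW
    have := (finOrb_smul hO h (x i, W⁻¹ • a τ • x i)).2 hW'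
    have e5 : a τ' • h • x i = h • W⁻¹ • a τ • x i := by
      rw [← hh, ← mul_smul, ← mul_smul, ← mul_smul]
      congr 1
      group
    rw [e5]
    exact this
  have hfin := finite_tau m hO 2
  set F := {τ : ℝ | |τ| ≤ 2 ∧ ∃ x : X, (x, a τ • x) ∈ O} with hF
  have hmem : τ ∈ closure F := by
    rw [Metric.mem_closure_iff]
    intro δ hδ
    obtain ⟨τ', h1, h2⟩ := hev (min δ 1) (lt_min hδ one_pos)
    have h3 : |τ'| ≤ 2 := by
      have := abs_sub_abs_le_abs_sub τ' τ
      have := h1.trans_le (min_le_right _ _)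
      linarith
    refine ⟨τ', ⟨h3, h2⟩, ?_⟩
    rw [dist_comm, Real.dist_eq]
    exact h1.trans_le (min_le_left _ _)
  rw [hfin.isClosed.closure_eq] at hmem
  exact hmem.2

/-- the correlations of a non type C sequence are small for all but finitely many pairs -/
theorem pair_small {f : X → ℝ} (hf : Cc f) {ε : ℝ} (hε : 0 < ε) :
    ∃ p0 : ℕ, ∀ p q : ℕ, p.Prime → q.Prime → p ≠ q → p0 ≤ p → p0 ≤ q → p ≤ 2 * q → q ≤ 2 * p →
      ∀ {ι : Type} (𝒰 : Ultrafilter ι) (N : ι → ℕ) (x : ι → X), Tendsto N 𝒰 atTop →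
      (∀ C : ℝ, ∀ᶠ i in (𝒰 : Filter ι), ¬ TypeC C (x i) (N i)) →
      ∀ᶠ i in (𝒰 : Filter ι),
        |∑ n ∈ Finset.Icc 1 (N i / max p q), (f (u ((p * n : ℕ) : ℝ) • x i) - ∫ x, f x ∂m) *
          (f (u ((q * n : ℕ) : ℝ) • x i) - ∫ x, f x ∂m)| ≤ ε * (N i / max p q : ℕ) := by
  obtain ⟨OO, hOO, hOf, S0, hS0, hbad⟩ := finite_bad m hf (half_pos hε)
  set T : Set ℝ := ⋃ O ∈ OO, {τ : ℝ | |τ| ≤ 1 ∧ ∃ x : X, (x, a τ • x) ∈ O} with hTdef
  have hTfin : T.Finite := hOO.biUnion fun O hO => finite_tau m (hOf O hO) 1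
  obtain ⟨p0, hp0⟩ := exists_p0 hTfin
  refine ⟨p0, fun p q hp hq hpq h1 h2 h3 h4 ι 𝒰 N x hN hT => ?_⟩
  by_contra hcon
  rw [← Ultrafilter.eventually_not] at hcon
  have hp0' : (0 : ℝ) < p := by exact_mod_cast hp.pos
  have hq0' : (0 : ℝ) < q := by exact_mod_cast hq.pos
  set τ : ℝ := Real.log (p / q) / 2 with hτdef
  set Q := max p q with hQ
  have hQ0 : 0 < Q := lt_max_of_lt_left hp.pos
  have hexp : Real.exp (2 * τ) = p / q := by
    rw [hτdef, mul_div_cancel₀ _ (by norm_num : (2 : ℝ) ≠ 0), Real.exp_log (by positivity)]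
  have hτ0 : τ ≠ 0 := by
    intro h0
    rw [h0, mul_zero, Real.exp_zero] at hexp
    have : (p : ℝ) = q := by field_simp at hexp; linarith
    exact hpq (by exact_mod_cast this)
  have hτ1 : |τ| ≤ 1 := by
    have hl2 : Real.log 2 ≤ 1 := by
      have := Real.log_two_lt_d9; linarith
    have a1 : (p : ℝ) ≤ 2 * q := by exact_mod_cast h3
    have a2 : (q : ℝ) ≤ 2 * p := by exact_mod_cast h4
    have b1 : Real.log ((p : ℝ) / q) ≤ Real.log 2 := by
      apply Real.log_le_log (by positivity)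
      rw [div_le_iff₀ hq0']; exact a1
    have b2 : -Real.log 2 ≤ Real.log ((p : ℝ) / q) := by
      rw [← Real.log_inv]
      apply Real.log_le_log (by positivity)
      rw [le_div_iff₀ hq0']
      linarith
    rw [abs_le]
    constructor <;> linarith
  have hτT : τ ∉ T := hp0 p q hp hq hpq h1 h2
  set M : ι → ℕ := fun i => N i / Q with hMdef
  have hM : Tendsto M 𝒰 atTop := (Nat.tendsto_div_const_atTop hQ0.ne').comp hN
  have hTp := not_typeC_sub 𝒰 hN hT hp.pos (Q := Q) (max_le (by omega) h4) hQ0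
  have hTq := not_typeC_sub 𝒰 hN hT hq.pos (Q := Q) (max_le h3 (by omega)) hQ0
  set c0 : ℝ := ∫ x, f x ∂m with hc0
  have hcomm : ∀ (n : ℕ) (y : X), u ((p : ℝ) * n) • a τ • y = a τ • u ((q : ℝ) * n) • y := by
    intro n y
    rw [← mul_smul, ← mul_smul, a_mul_u, hexp]
    congr 3
    field_simp
  have e1 : ∀ g : X → ℝ, Cc g → Tendsto (fun i => (1 / (M i : ℝ)) *
      ∑ n ∈ Finset.Icc 1 (M i), g (u ((p : ℝ) * n) • ((x i, a τ • x i) : X × X).1)) 𝒰
        (𝓝 (∫ x, g x ∂m)) :=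
    fun g hg => equi_disc m 𝒰 hp0' hM hTp hg
  have e2 : ∀ g : X → ℝ, Cc g → Tendsto (fun i => (1 / (M i : ℝ)) *
      ∑ n ∈ Finset.Icc 1 (M i), g (u ((p : ℝ) * n) • ((x i, a τ • x i) : X × X).2)) 𝒰
        (𝓝 (∫ x, g x ∂m)) := by
    intro g hg
    have h5 := equi_disc m 𝒰 hq0' hM hTq (cc_smul hg (a τ))
    have h6 : ∫ y, g (a τ • y) ∂m = ∫ y, g y ∂m := by
      conv_rhs => rw [← map_smul_inv m (a τ)]
      rw [integral_map (measurable_const_smul (a τ)).aemeasurable hg.1.aestronglyMeasurable]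
    rw [h6] at h5
    refine h5.congr fun i => ?_
    congr 1
    refine Finset.sum_congr rfl fun n _ => ?_
    rw [hcomm]
  obtain ⟨ν, hj, hdl, hcl, hinv⟩ := pair_limit m 𝒰 hp0' hM (fun i => (x i, a τ • x i)) e1 e2
  have hνp := hj.prob
  obtain ⟨B, hB0, hB⟩ := cc_bound hf
  set φ : X × X → ℝ := fun z => (f z.1 - c0) * (f (a (-τ) • z.2) - c0) with hφ
  have hφc : Continuous φ := ((hf.1.comp continuous_fst).sub continuous_const).mul
      ((hf.1.comp ((continuous_const_smul _).comp continuous_snd)).sub continuous_const)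
  have hφb : ∃ B, ∀ z, |φ z| ≤ B := by
    refine ⟨(B + |c0|) * (B + |c0|), fun z => ?_⟩
    rw [hφ, abs_mul]
    have a1 : ∀ y, |f y - c0| ≤ B + |c0| := fun y => (abs_sub _ _).trans (by linarith [hB y])
    exact mul_le_mul (a1 _) (a1 _) (abs_nonneg _) (by positivity)
  -- the limit correlation is not small
  have hbig : ε ≤ |∫ z, φ z ∂ν| := by
    have h5 := (hdl φ hφc hφb).abs
    refine ge_of_tendsto h5 ?_
    filter_upwards [hcon, hM.eventually_ge_atTop 1] with i hi hMi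
    push Not at hi
    have hMi' : (0 : ℝ) < M i := by exact_mod_cast (show 0 < M i by omega)
    have e3 : ∀ n : ℕ, φ (u ((p : ℝ) * n) • ((x i, a τ • x i) : X × X)) =
        (f (u ((p * n : ℕ) : ℝ) • x i) - c0) * (f (u ((q * n : ℕ) : ℝ) • x i) - c0) := by
      intro n
      simp only [hφ]
      change (f (u ((p : ℝ) * n) • x i) - c0) *
        (f (a (-τ) • u ((p : ℝ) * n) • a τ • x i) - c0) = _
      rw [hcomm, ← mul_smul (a (-τ)), ← a_add, neg_add_cancel, a_zero, one_smul]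
      push_cast
      rfl
    rw [Finset.sum_congr rfl fun n _ => e3 n, abs_mul, abs_of_pos (by positivity :
      (0 : ℝ) < 1 / (M i : ℝ)), one_div, ← div_eq_inv_mul, le_div_iff₀ hMi']
    exact hi.le
  obtain ⟨κ, hκm, hκ, hκg⟩ := erg_decomp ν hinv
  have hκj := comp_join m hj κ hκ hκg
  let D : Set (X × X) → Set (X × X) := fun O => {w | ∃ (c : ℝ) (σ : Measure (X × X)),
    IsFO m σ O ∧ |c| ≤ S0 ∧ κ w = σ.map (act2 (u c))}
  have hex : ∃ O ∈ OO, ν (D O) ≠ 0 := by
    by_contra hno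
    push Not at hno
    have hnull : ∀ᵐ w ∂ν, ∀ O ∈ OO, w ∉ D O := by
      rw [ae_ball_iff hOO.countable]
      intro O hO
      exact measure_eq_zero_iff_ae_notMem.1 (hno O hO)
    have hsmall : ∀ᵐ w ∂ν, |∫ z, φ z ∂(κ w)| ≤ ε / 2 := by
      filter_upwards [hκg, hκj, hnull] with w w1 w2 w3
      rcases joining_class m w1 w2 with h5 | ⟨c, O, σ, hσ, h5⟩
      · rw [h5]
        have := prod_integral m hf τ
        rw [this]
        simp; linarith
      · have h6 : ∫ z, φ z ∂(κ w) = (∫ z, f z.1 * f (a (-τ) • u c • z.2) ∂σ) - c0 ^ 2 :=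
          comp_integral m hf τ c hσ.join h5
        rw [h6]
        by_contra h7
        push Not at h7
        obtain ⟨h8, h9⟩ := hbad σ O c τ hσ hτ1 h7.le
        exact w3 O h8 ⟨c, σ, hσ, h9, h5⟩
    have := bind_bound ν κ hφc.measurable hφb hsmall
    rw [hκ] at this
    linarith
  obtain ⟨O, hO, hDO⟩ := hex
  have hDpos : 0 < (ν (D O)).toReal := ENNReal.toReal_pos hDO (measure_ne_top _ _)
  have hnbh : ∀ r > 0, (ν (D O)).toReal / 2 < ν.real (nbh O r S0) := by
    intro r hr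
    have hopen := isOpen_nbh (hOf O hO) r S0
    have h5 : ν (D O) ≤ ν (nbh O r S0) := by
      conv_rhs => rw [← hκ, Measure.bind_apply hopen.measurableSet κ.measurable.aemeasurable]
      have hm : MeasurableSet {w | 1 ≤ κ w (nbh O r S0)} :=
        (κ.measurable_coe hopen.measurableSet) measurableSet_Ici
      calc ν (D O) ≤ ν {w | 1 ≤ κ w (nbh O r S0)} := by
            refine measure_mono ?_
            rintro w ⟨c, σ, hσ, hc, hw⟩
            change 1 ≤ κ w (nbh O r S0)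
            rw [hw, Measure.map_apply (measurable_act2 _) hopen.measurableSet]
            have := hσ.join.prob
            have h6 : ∀ᵐ z ∂σ, z ∈ act2 (u c) ⁻¹' (nbh O r S0) := by
              filter_upwards [hσ.full] with z hz
              exact act2_mem_nbh hz hr hc
            rw [(prob_compl_eq_zero_iff ((measurable_act2 _) hopen.measurableSet)).1
              (mem_ae_iff.1 h6)]
        _ = ∫⁻ w, {w | 1 ≤ κ w (nbh O r S0)}.indicator 1 w ∂ν :=
            (lintegral_indicator_one hm).symm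
        _ ≤ ∫⁻ w, κ w (nbh O r S0) ∂ν := by
            refine lintegral_mono fun w => ?_
            by_cases hw : w ∈ {w | 1 ≤ κ w (nbh O r S0)}
            · rw [indicator_of_mem hw]; exact hw
            · rw [indicator_of_notMem hw]; exact zero_le
    have h6 : (ν (D O)).toReal ≤ ν.real (nbh O r S0) :=
      ENNReal.toReal_mono (measure_ne_top _ _) h5
    linarith
  have hMr : Tendsto (fun i => (p : ℝ) * (M i : ℝ)) 𝒰 atTop :=
    (tendsto_natCast_atTop_atTop.comp hM).const_mul_atTop hp0'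
  obtain ⟨y, hy⟩ := exact_relation m (hOf O hO) hτ0 hτ1 hS0 (half_pos hDpos) 𝒰 hMr x hTp hcl hnbh
  apply hτT
  rw [hTdef]
  exact mem_biUnion hO ⟨hτ1, y, hy⟩

end Pool.Agent.Work.MP_c9c104_nt
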