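import Pool.Agent.Work.MP_c9c104_nt.TCMain
import Pool.Agent.Work.MP_c9c104_nt.Pair
import Pool.Agent.Work.MP_c9c104_nt.KataiW

/-!
Uniform Moebius disjointness, left model.
-/

open MeasureTheory Filter Topology Set ProbabilityTheory
open scoped ENNReal NNReal

namespace Pool.Agent.Work.MP_c9c104_nt

open Pool.Agent.Work.MP_54969a_nt (mu mu_norm_le MuOrth muOrth_one)

variable {X : Type} [TopologicalSpace X] [MeasurableSpace X] [MulAction G X] [HomSp X]
variable (m : Measure X) [IsProbabilityMeasure m] [SMulInvariantMeasure G X m]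

theorem mu_real (n : ℕ) : mu n = (((ArithmeticFunction.moebius n : ℤ) : ℝ) : ℂ) := by
  simp [mu]

include m in
/-- the sequence of Moebius means tends to zero along any ultrafilter -/
theorem main_seq {f : X → ℝ} (hf : Cc f) (𝒰 : Ultrafilter ℕ) {x : ℕ → X}
    {N : ℕ → ℕ} (hN : Tendsto N 𝒰 atTop) :
    Tendsto (fun i => (1 / (N i : ℂ)) * ∑ n ∈ Finset.Icc 1 (N i),
      mu n * (f (u (n : ℝ) • x i) : ℂ)) 𝒰 (𝓝 0) := by
  by_cases hC : ∃ C, ∀ᶠ i in (𝒰 : Filter ℕ), TypeC C (x i) (N i)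
  · obtain ⟨C, hC⟩ := hC
    exact typeC_mobius hf 𝒰 hN hC
  have hC' : ∀ C : ℝ, ∀ᶠ i in (𝒰 : Filter ℕ), ¬ TypeC C (x i) (N i) := by
    intro C
    rw [Ultrafilter.eventually_not]
    exact fun h => hC ⟨C, h⟩
  obtain ⟨B0, _, hB0⟩ := cc_bdd hf
  set c0 : ℝ := ∫ x, f x ∂m with hc0
  set B : ℝ := |B0| + |c0| + 1 with hB
  have hBpos : 0 < B := by positivity
  have hfB : ∀ y, |f y - c0| ≤ B := by
    intro y
    have h1 := hB0 y
    have h2 := abs_sub (f y) c0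
    have h3 := le_abs_self B0
    linarith
  let F : ℕ → ℕ → ℂ := fun i n => (((f (u (n : ℝ) • x i) - c0) / B : ℝ) : ℂ)
  have hF : ∀ i n, ‖F i n‖ ≤ 1 := by
    intro i n
    simp only [F]
    rw [Complex.norm_real, Real.norm_eq_abs, abs_div, abs_of_pos hBpos, div_le_one hBpos]
    exact hfB _
  have hK := katai_window (l := (𝒰 : Filter ℕ)) F hF hN (by
    intro ε hε
    obtain ⟨p0, hp0⟩ := pair_small m hf (ε := ε * B ^ 2) (by positivity)
    refine ⟨p0, fun p q hp hq hpq h1 h2 h3 h4 => ?_⟩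
    filter_upwards [hp0 p q hp hq hpq h1 h2 h3 h4 𝒰 N x hN hC'] with i hi
    have e : ∑ n ∈ Finset.Icc 1 (N i / max p q), F i (p * n) *
        (starRingEnd ℂ) (F i (q * n)) =
        (((∑ n ∈ Finset.Icc 1 (N i / max p q), (f (u ((p * n : ℕ) : ℝ) • x i) - c0) *
          (f (u ((q * n : ℕ) : ℝ) • x i) - c0)) / B ^ 2 : ℝ) : ℂ) := by
      rw [Finset.sum_div, Complex.ofReal_sum]
      refine Finset.sum_congr rfl fun n _ => ?_
      simp only [F]
      rw [Complex.conj_ofReal, ← Complex.ofReal_mul]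
      congr 1
      field_simp
    rw [e, Complex.norm_real, Real.norm_eq_abs, abs_div, abs_of_pos (by positivity : 0 < B ^ 2),
      div_le_iff₀ (by positivity)]
    calc _ ≤ ε * B ^ 2 * ((N i / max p q : ℕ) : ℝ) := hi
      _ = ε * ((N i / max p q : ℕ) : ℝ) * B ^ 2 := by ring)
  have h1 := muOrth_one
  have h1' : Tendsto (fun i => (∑ k ∈ Finset.Icc 1 (N i), (1 : ℂ) * mu k) / (N i : ℂ)) 𝒰
      (𝓝 0) := by
    have := (show Tendsto (fun N : ℕ => (∑ k ∈ Finset.Icc 1 N, (1 : ℂ) * mu k) / (N : ℂ)) atTop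
      (𝓝 0) from h1).comp hN
    exact this
  have h2 := (hK.const_mul (B : ℂ)).add (h1'.const_mul (c0 : ℂ))
  rw [mul_zero, mul_zero, add_zero] at h2
  refine h2.congr fun i => ?_
  have e1 : ∀ n, mu n * (f (u (n : ℝ) • x i) : ℂ) = B * (mu n * F i n) + c0 * (1 * mu n) := by
    intro n
    simp only [F]
    push_cast
    have : (B : ℂ) ≠ 0 := by exact_mod_cast hBpos.ne'
    field_simp
    ring
  have e2 : ∑ n ∈ Finset.Icc 1 (N i), (B : ℂ) * (mu n * F i n) =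
      B * ∑ n ∈ Finset.Icc 1 (N i), mu n * F i n := by rw [Finset.mul_sum]
  have e3 : ∑ n ∈ Finset.Icc 1 (N i), (c0 : ℂ) * (1 * mu n) =
      c0 * ∑ n ∈ Finset.Icc 1 (N i), (1 * mu n) := by rw [Finset.mul_sum]
  rw [Finset.sum_congr rfl fun n _ => e1 n, Finset.sum_add_distrib, e2, e3]
  ring

include m in
theorem main_left {f : X → ℝ} (hf : Cc f) {ε : ℝ} (hε : 0 < ε) :
    ∃ N0 : ℕ, ∀ N ≥ N0, ∀ x : X,
      |∑ n ∈ Finset.Icc 1 N, (ArithmeticFunction.moebius n : ℝ) * f (u (n : ℝ) • x)| ≤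
        ε * N := by
  by_contra hcon
  push Not at hcon
  choose N hN x hx using hcon
  let 𝒰 : Ultrafilter ℕ := Filter.hyperfilter ℕ
  have hle : (𝒰 : Filter ℕ) ≤ atTop := by
    rw [← Nat.cofinite_eq_atTop]; exact Filter.hyperfilter_le_cofinite
  have hNt : Tendsto N 𝒰 atTop := (tendsto_atTop_mono hN tendsto_id).mono_left hle
  have key := main_seq m hf 𝒰 (x := x) hNt
  have h1 := key.norm
  rw [norm_zero] at h1
  have h2 : ∀ᶠ i in (𝒰 : Filter ℕ), ‖(1 / (N i : ℂ)) * ∑ n ∈ Finset.Icc 1 (N i),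
      mu n * (f (u (n : ℝ) • x i) : ℂ)‖ < ε := (tendsto_order.1 h1).2 ε hε
  have h3 : ∀ᶠ i in (𝒰 : Filter ℕ), 1 ≤ N i := hNt.eventually_ge_atTop 1
  obtain ⟨i, hi, hi1⟩ := (h2.and h3).exists
  have hNi : (0 : ℝ) < N i := by exact_mod_cast hi1
  have e : ∑ n ∈ Finset.Icc 1 (N i), mu n * (f (u (n : ℝ) • x i) : ℂ) =
      ((∑ n ∈ Finset.Icc 1 (N i), (ArithmeticFunction.moebius n : ℝ) *
        f (u (n : ℝ) • x i) : ℝ) : ℂ) := by
    rw [Complex.ofReal_sum]
    refine Finset.sum_congr rfl fun n _ => ?_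
    rw [mu_real]
    push_cast
    ring
  rw [e, norm_mul, norm_div, norm_one, Complex.norm_natCast, Complex.norm_real,
    Real.norm_eq_abs] at hi
  have h4 := hx i
  have h5 : |∑ n ∈ Finset.Icc 1 (N i), (ArithmeticFunction.moebius n : ℝ) *
      f (u (n : ℝ) • x i)| < ε * N i := by
    have := (mul_lt_mul_iff_of_pos_left hNi).2 hi
    rw [← mul_assoc, mul_one_div, div_self hNi.ne', one_mul] at this
    linarith
  linarith

end Pool.Agent.Work.MP_c9c104_nt
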