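import Pool.Agent.Work.MP_c9c104_nt.Lusin
import Pool.Agent.Work.MP_c9c104_nt.Poly

/-!
The matching lemma.
-/

open MeasureTheory Filter Topology Set ProbabilityTheory
open scoped ENNReal NNReal

namespace Pool.Agent.Work.MP_c9c104_nt

variable {X : Type} [TopologicalSpace X] [MeasurableSpace X] [MulAction G X] [HomSp X]
variable {Z : Type} [TopologicalSpace Z] [MeasurableSpace Z] [MulAction G Z] [PhSp Z]

/-- the matched time -/
noncomputable def matchTime (g : G) (s : ℝ) : ℝ := (s * g 0 0 - g 0 1) / (g 1 1 - s * g 1 0)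

theorem matchTime_conj {g : G} {s : ℝ} (hd : g 1 1 - s * g 1 0 ≠ 0) :
    (u (matchTime g s) * g * u (-s)) 0 0 = 1 / (g 1 1 - s * g 1 0) ∧
    (u (matchTime g s) * g * u (-s)) 0 1 = 0 ∧
    (u (matchTime g s) * g * u (-s)) 1 0 = g 1 0 ∧
    (u (matchTime g s) * g * u (-s)) 1 1 = g 1 1 - s * g 1 0 := by
  have hdet := G_det g
  have h01 : (u (matchTime g s) * g * u (-s)) 0 1 = 0 := by
    simp only [mul01, mul00, u00, u01, u11, matchTime]
    field_simp
    ring
  have h00 : (u (matchTime g s) * g * u (-s)) 0 0 = 1 / (g 1 1 - s * g 1 0) := by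
    simp only [mul00, u00, u01, u10, matchTime]
    field_simp
    linear_combination hdet
  refine ⟨h00, h01, ?_, ?_⟩
  · simp
  · simp only [mul11, mul10, u01, u10, u11]
    ring

theorem matchTime_small {ε : ℝ} (hε : 0 < ε) {g : G} {s S : ℝ} (hg : nrm g ≤ min (1 / 4) (ε / 4))
    (hs : s ∈ Icc 0 S) (hS : S * |g 1 0| ≤ min (1 / 4) (ε / 4)) :
    1 / 2 ≤ g 1 1 - s * g 1 0 ∧ nrm (u (matchTime g s) * g * u (-s)) ≤ ε := by
  obtain ⟨h1, h2, h3, h4⟩ := nrm_le_iff.1 hg
  have hk1 : min (1 / 4) (ε / 4) ≤ 1 / 4 := min_le_left _ _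
  have hk2 : min (1 / 4) (ε / 4) ≤ ε / 4 := min_le_right _ _
  have hk0 : 0 < min (1 / 4) (ε / 4) := by positivity
  set k := min (1 / 4) (ε / 4)
  have hsg : |s * g 1 0| ≤ k := by
    rw [abs_mul, abs_of_nonneg hs.1]
    exact le_trans (mul_le_mul_of_nonneg_right hs.2 (abs_nonneg _)) hS
  have hd1 : |g 1 1 - s * g 1 0 - 1| ≤ 2 * k := by
    have : g 1 1 - s * g 1 0 - 1 = (g 1 1 - 1) - s * g 1 0 := by ring
    rw [this]
    calc _ ≤ |g 1 1 - 1| + |s * g 1 0| := abs_sub _ _
      _ ≤ _ := by linarith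
  have hd2 : 1 / 2 ≤ g 1 1 - s * g 1 0 := by
    have := (abs_le.1 hd1).1
    linarith
  refine ⟨hd2, ?_⟩
  obtain ⟨e00, e01, e10, e11⟩ := matchTime_conj (g := g) (s := s) (by linarith)
  rw [nrm_le_iff, e00, e01, e10, e11]
  refine ⟨?_, ?_, ?_, ?_⟩
  · have : 1 / (g 1 1 - s * g 1 0) - 1 = -(g 1 1 - s * g 1 0 - 1) / (g 1 1 - s * g 1 0) := by
      have : g 1 1 - s * g 1 0 ≠ 0 := by linarith
      field_simp
      ring
    rw [this, abs_div, abs_neg, abs_of_nonneg (by linarith : 0 ≤ g 1 1 - s * g 1 0),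
      div_le_iff₀ (by linarith)]
    nlinarith
  · linarith
  · simp [hε.le]
  · linarith

theorem match_cont1 {r0 : ℝ} (hr : 0 < r0) : ∃ ρ > 0, ∀ g p p' : G, nrm g ≤ ρ → nrm p ≤ ρ →
    nrm p' ≤ ρ → nrm (g * p' * p⁻¹ * g⁻¹) ≤ r0 := by
  have hc : Continuous fun z : G × G × G => nrm (z.1 * z.2.2 * z.2.1⁻¹ * z.1⁻¹) := by
    refine continuous_nrm.comp ?_
    fun_prop
  have h1 : {z : G × G × G | nrm (z.1 * z.2.2 * z.2.1⁻¹ * z.1⁻¹) < r0} ∈
      𝓝 ((1 : G), (1 : G), (1 : G)) := by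
    refine (isOpen_Iio.preimage hc).mem_nhds ?_
    simp [hr]
  obtain ⟨⟨i, j, k⟩, ⟨hi, hj, hk⟩, h⟩ :=
    (nhds_one_basis.prod_nhds (nhds_one_basis.prod_nhds nhds_one_basis)).mem_iff.1 h1
  simp only at hi hj hk
  refine ⟨min i (min j k) / 2, by positivity, fun g p p' hg hp hp' => ?_⟩
  have hm : 0 < min i (min j k) := by positivity
  have m1 : min i (min j k) ≤ i := min_le_left _ _
  have m2 : min i (min j k) ≤ j := le_trans (min_le_right _ _) (min_le_left _ _)
  have m3 : min i (min j k) ≤ k := le_trans (min_le_right _ _) (min_le_right _ _)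
  have := h (show (g, p, p') ∈ _ from ⟨?_, ?_, ?_⟩)
  · exact le_of_lt this
  · show nrm g < i
    linarith
  · show nrm p < j
    linarith
  · show nrm p' < k
    linarith

theorem match_cont2 {r0 : ℝ} (hr : 0 < r0) : ∃ ρ > 0, ∀ g h : G, nrm g ≤ ρ → nrm h ≤ ρ →
    nrm (g⁻¹ * h) ≤ r0 := by
  have hc : Continuous fun z : G × G => nrm (z.1⁻¹ * z.2) := by
    refine continuous_nrm.comp ?_
    fun_prop
  have h1 : {z : G × G | nrm (z.1⁻¹ * z.2) < r0} ∈ 𝓝 ((1 : G), (1 : G)) := by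
    refine (isOpen_Iio.preimage hc).mem_nhds ?_
    simp [hr]
  obtain ⟨⟨i, j⟩, ⟨hi, hj⟩, h⟩ := (nhds_one_basis.prod_nhds nhds_one_basis).mem_iff.1 h1
  simp only at hi hj
  refine ⟨min i j / 2, by positivity, fun g p hg hp => ?_⟩
  have hm : 0 < min i j := by positivity
  have m1 : min i j ≤ i := min_le_left _ _
  have m2 : min i j ≤ j := min_le_right _ _
  have := h (show (g, p) ∈ _ from ⟨?_, ?_⟩)
  · exact le_of_lt this
  · show nrm g < i
    linarith
  · show nrm p < j
    linarith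

theorem match_good (w : G) {a b ρ ρ' : ℝ} (hab : a < b) (hρ : 0 < ρ) (hρ' : 0 ≤ ρ')
    (hs : ∃ s ∈ Icc a b, nrm (u s * w * u (-s)) = ρ) :
    volume {s ∈ Icc a b | nrm (u s * w * u (-s)) ≤ ρ'} ≤
      ENNReal.ofReal (4 * √(ρ' / ρ) * (b - a)) := by
  obtain ⟨s0, hs0, hP⟩ := hs
  have key : ∃ α β γ : ℝ, (∀ s, |α + β * s + γ * s ^ 2| ≤ nrm (u s * w * u (-s))) ∧
      |α + β * s0 + γ * s0 ^ 2| = ρ := by
    have e1 : ∀ s, |(w 0 0 - 1) + w 1 0 * s + 0 * s ^ 2| ≤ nrm (u s * w * u (-s)) := by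
      intro s
      have := (nrm_le_iff.1 (le_refl (nrm (u s * w * u (-s))))).1
      rw [conj00] at this
      convert this using 2
      ring
    have e2 : ∀ s, |(w 1 1 - 1) + (-w 1 0) * s + 0 * s ^ 2| ≤ nrm (u s * w * u (-s)) := by
      intro s
      have := (nrm_le_iff.1 (le_refl (nrm (u s * w * u (-s))))).2.1
      rw [conj11] at this
      convert this using 2
      ring
    have e3 : ∀ s, |w 0 1 + (w 1 1 - w 0 0) * s + (-w 1 0) * s ^ 2| ≤
        nrm (u s * w * u (-s)) := by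
      intro s
      have := (nrm_le_iff.1 (le_refl (nrm (u s * w * u (-s))))).2.2.1
      rw [conj01] at this
      convert this using 2
      ring
    have e4 : ∀ s, |w 1 0 + 0 * s + 0 * s ^ 2| ≤ nrm (u s * w * u (-s)) := by
      intro s
      have := (nrm_le_iff.1 (le_refl (nrm (u s * w * u (-s))))).2.2.2
      rw [conj10] at this
      convert this using 2
      ring
    have hmax : nrm (u s0 * w * u (-s0)) ≤
        max (max |(w 0 0 - 1) + w 1 0 * s0 + 0 * s0 ^ 2|
          |(w 1 1 - 1) + (-w 1 0) * s0 + 0 * s0 ^ 2|)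
          (max |w 0 1 + (w 1 1 - w 0 0) * s0 + (-w 1 0) * s0 ^ 2|
            |w 1 0 + 0 * s0 + 0 * s0 ^ 2|) := by
      unfold nrm
      rw [conj00, conj01, conj10, conj11]
      refine max_le_max (max_le_max (le_of_eq ?_) (le_of_eq ?_))
        (max_le_max (le_of_eq ?_) (le_of_eq ?_)) <;> congr 1 <;> ring
    rw [hP] at hmax
    rcases le_max_iff.1 hmax with h | h
    · rcases le_max_iff.1 h with h | h
      · exact ⟨_, _, _, e1, le_antisymm (hP ▸ e1 s0) h⟩
      · exact ⟨_, _, _, e2, le_antisymm (hP ▸ e2 s0) h⟩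
    · rcases le_max_iff.1 h with h | h
      · exact ⟨_, _, _, e3, le_antisymm (hP ▸ e3 s0) h⟩
      · exact ⟨_, _, _, e4, le_antisymm (hP ▸ e4 s0) h⟩
  obtain ⟨α, β, γ, h1, h2⟩ := key
  refine le_trans (measure_mono ?_) (quad_good α β γ a b ρ ρ' hab hρ hρ' ⟨s0, hs0, h2.ge⟩)
  rintro s ⟨hs1, hs2⟩
  exact ⟨hs1, le_trans (h1 s) hs2⟩

/-- null sets pull back to null sets under the matched time -/
theorem match_null {g : G} {S : ℝ} {N : Set ℝ} (hN : volume N = 0)
    (hd : ∀ s ∈ Icc 0 S, g 1 1 - s * g 1 0 ≠ 0) :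
    volume {s ∈ Icc 0 S | matchTime g s ∈ N} = 0 := by
  have hdet := G_det g
  have hF : ∀ s ∈ Icc 0 S, g 0 0 + matchTime g s * g 1 0 ≠ 0 ∧
      (matchTime g s * g 1 1 + g 0 1) / (g 0 0 + matchTime g s * g 1 0) = s := by
    intro s hs
    have h1 := hd s hs
    have e1 : g 0 0 + matchTime g s * g 1 0 = 1 / (g 1 1 - s * g 1 0) := by
      simp only [matchTime]
      field_simp
      linear_combination hdet
    have e2 : matchTime g s * g 1 1 + g 0 1 = s / (g 1 1 - s * g 1 0) := by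
      simp only [matchTime]
      field_simp
      linear_combination s * hdet
    refine ⟨?_, ?_⟩
    · rw [e1]
      exact one_div_ne_zero h1
    · rw [e1, e2]
      field_simp
  have hsub : {s ∈ Icc 0 S | matchTime g s ∈ N} ⊆
      (fun t : ℝ => (t * g 1 1 + g 0 1) / (g 0 0 + t * g 1 0)) ''
        {t ∈ N | g 0 0 + t * g 1 0 ≠ 0} := by
    rintro s ⟨hs, hsN⟩
    exact ⟨matchTime g s, ⟨hsN, (hF s hs).1⟩, (hF s hs).2⟩
  refine measure_mono_null hsub ?_
  refine addHaar_image_eq_zero_of_differentiableOn_of_addHaar_eq_zero volume ?_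
    (measure_mono_null (fun t ht => ht.1) hN)
  intro t ht
  refine DifferentiableAt.differentiableWithinAt ?_
  refine DifferentiableAt.div (by fun_prop) (by fun_prop) ht.2

theorem measurable_matchTime (g : G) : Measurable (matchTime g) := by
  unfold matchTime
  fun_prop

variable (m : Measure X) [IsProbabilityMeasure m] [SMulInvariantMeasure G X m]

theorem match_markov {Q : Set X} (hQ : IsClosed Q) {δ : ℝ} (hδ : 0 < δ)
    (hQm : m Qᶜ ≤ ENNReal.ofReal (δ / 4)) (g : G) {S : ℝ} (hS : 0 < S) :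
    ∃ A : Set X, MeasurableSet A ∧ m Aᶜ ≤ ENNReal.ofReal δ ∧ ∀ x ∈ A,
      ENNReal.ofReal (S / 4) <
        volume {s ∈ Icc 0 S | u s • x ∈ Q ∧ u (matchTime g s) • g • x ∈ Q} := by
  set D : Set (X × ℝ) :=
    {p : X × ℝ | ¬ (u p.2 • p.1 ∈ Q ∧ u (matchTime g p.2) • g • p.1 ∈ Q)} with hD
  have hDm : MeasurableSet D := by
    refine MeasurableSet.compl (MeasurableSet.inter ?_ ?_)
    · have hc : Continuous fun p : X × ℝ => u p.2 • p.1 :=
        (continuous_u.comp continuous_snd).smul continuous_fst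
      exact (hQ.preimage hc).measurableSet
    · have h1 : Measurable fun p : X × ℝ => (u (matchTime g p.2), g • p.1) := by
        refine Measurable.prodMk ?_ ?_
        · exact continuous_u.measurable.comp ((measurable_matchTime g).comp measurable_snd)
        · exact (continuous_const_smul g).measurable.comp measurable_fst
      have h2 : Continuous fun q : G × X => q.1 • q.2 := continuous_smul
      exact h1 (hQ.preimage h2).measurableSet
  set μ' : Measure ℝ := volume.restrict (Icc 0 S) with hμ'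
  have hμu : μ' univ = ENNReal.ofReal S := by
    simp [hμ']
  have hφm : Measurable fun x => μ' (Prod.mk x ⁻¹' D) := measurable_measure_prodMk_left hDm
  have hint : ∫⁻ x, μ' (Prod.mk x ⁻¹' D) ∂m ≤ 2 * m Qᶜ * ENNReal.ofReal S := by
    rw [← Measure.prod_apply hDm, Measure.prod_apply_symm hDm]
    calc ∫⁻ s, m ((fun x => (x, s)) ⁻¹' D) ∂μ' ≤ ∫⁻ _, 2 * m Qᶜ ∂μ' := by
          refine lintegral_mono fun s => ?_
          have hsub : (fun x => (x, s)) ⁻¹' D ⊆
              ((fun x => u s • x) ⁻¹' Qᶜ) ∪ ((fun x => (u (matchTime g s) * g) • x) ⁻¹' Qᶜ) := by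
            intro x hx
            simp only [hD, mem_preimage, mem_ofPred_eq, not_and_or] at hx
            rcases hx with h | h
            · exact Or.inl h
            · right
              simp only [mem_preimage, mul_smul]
              exact h
          refine (measure_mono hsub).trans ((measure_union_le _ _).trans ?_)
          rw [measure_preimage_smul, measure_preimage_smul, two_mul]
      _ = 2 * m Qᶜ * ENNReal.ofReal S := by
          rw [lintegral_const, hμu]
  refine ⟨{x | μ' (Prod.mk x ⁻¹' D) < ENNReal.ofReal (S / 2)}, hφm measurableSet_Iio, ?_, ?_⟩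
  · have hcompl : {x | μ' (Prod.mk x ⁻¹' D) < ENNReal.ofReal (S / 2)}ᶜ =
        {x | ENNReal.ofReal (S / 2) ≤ μ' (Prod.mk x ⁻¹' D)} := by
      ext x
      simp
    rw [hcompl]
    refine (meas_ge_le_lintegral_div hφm.aemeasurable (by simp [hS]) (by simp)).trans ?_
    refine ENNReal.div_le_of_le_mul (hint.trans ?_)
    calc 2 * m Qᶜ * ENNReal.ofReal S ≤ 2 * ENNReal.ofReal (δ / 4) * ENNReal.ofReal S := by
          gcongr
      _ = ENNReal.ofReal δ * ENNReal.ofReal (S / 2) := by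
          rw [← ENNReal.ofReal_mul hδ.le, show (2 : ℝ≥0∞) = ENNReal.ofReal 2 by simp,
            ← ENNReal.ofReal_mul (by norm_num), ← ENNReal.ofReal_mul (by positivity)]
          congr 1
          ring
  · intro x hx
    simp only [mem_ofPred_eq] at hx
    by_contra hcon
    rw [not_lt] at hcon
    have hDx : MeasurableSet (Prod.mk x ⁻¹' D) := measurable_prodMk_left hDm
    have h1 : μ' (Prod.mk x ⁻¹' D)ᶜ ≤ ENNReal.ofReal (S / 4) := by
      refine le_trans ?_ hcon
      rw [hμ', Measure.restrict_apply hDx.compl]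
      refine measure_mono ?_
      rintro s ⟨hs1, hs2⟩
      refine ⟨hs2, ?_⟩
      simpa [hD] using hs1
    have h2 : ENNReal.ofReal S < ENNReal.ofReal S := by
      calc ENNReal.ofReal S = μ' univ := hμu.symm
        _ ≤ μ' (Prod.mk x ⁻¹' D) + μ' (Prod.mk x ⁻¹' D)ᶜ := by
            rw [← union_compl_self (Prod.mk x ⁻¹' D)]
            exact measure_union_le _ _
        _ < ENNReal.ofReal (S / 2) + ENNReal.ofReal (S / 4) :=
            ENNReal.add_lt_add_of_lt_of_le (ne_top_of_le_ne_top ENNReal.ofReal_ne_top h1) hx h1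
        _ ≤ ENNReal.ofReal S := by
            rw [← ENNReal.ofReal_add (by positivity) (by positivity)]
            exact ENNReal.ofReal_le_ofReal (by linarith)
    exact lt_irrefl _ h2

theorem matching {ν : Measure (X × X)} {k : ℕ} {κ : Kernel X X} (hF : Fib m ν k κ)
    (hU : ∀ s : ℝ, ν.map (fun z => u s • z) = ν) {δ r1 : ℝ} (hδ : 0 < δ) (hr : 0 < r1) :
    ∃ κ0 > 0, ∀ g : G, nrm g ≤ κ0 → ∀ S > 0, S * |g 1 0| ≤ κ0 →
      ∃ A : Set X, MeasurableSet A ∧ m Aᶜ ≤ ENNReal.ofReal δ ∧ ∀ x ∈ A, ∀ y ∈ fib κ x,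
        ∃ w : G, g • w • y ∈ fib κ (g • x) ∧ ∀ s ∈ Icc 0 S, nrm (u s * w * u (-s)) ≤ r1 := by
  obtain ⟨Q, hQc, hQm, ⟨r0, hr0, hsep⟩, hmatch⟩ := lusin m hF (δ := δ / 4) (by positivity)
  obtain ⟨ρ1, hρ1, hc1⟩ := match_cont1 hr0
  obtain ⟨ρ, hρdef⟩ : ∃ ρ, ρ = min r1 ρ1 := ⟨_, rfl⟩
  have hρ : 0 < ρ := by rw [hρdef]; positivity
  have hρr1 : ρ ≤ r1 := hρdef ▸ min_le_left _ _
  have hρρ1 : ρ ≤ ρ1 := hρdef ▸ min_le_right _ _
  obtain ⟨ρ2, hρ2, hc2⟩ := match_cont2 (r0 := ρ / 1024) (by positivity)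
  obtain ⟨κ1, hκ1, hm⟩ := hmatch ρ2 hρ2
  obtain ⟨ε, hεdef⟩ : ∃ ε, ε = min ρ1 (min ρ2 κ1) := ⟨_, rfl⟩
  have hε : 0 < ε := by rw [hεdef]; positivity
  have hε1 : ε ≤ ρ1 := hεdef ▸ min_le_left _ _
  have hε2 : ε ≤ ρ2 := hεdef ▸ (min_le_right _ _).trans (min_le_left _ _)
  have hε3 : ε ≤ κ1 := hεdef ▸ (min_le_right _ _).trans (min_le_right _ _)
  refine ⟨min (1 / 4) (ε / 4), by positivity, fun g hg S hS hSg => ?_⟩
  obtain ⟨A1, hA1m, hA1, hA1E⟩ := match_markov m hQc.isClosed hδ hQm g hS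
  have hae1 := fib_equiv_time m hF hU
  have hae2 : ∀ᵐ x ∂m, ∀ᵐ s : ℝ,
      fib κ (u s • g • x) = (fun y => u s • y) '' fib κ (g • x) :=
    (measurePreserving_smul g m).quasiMeasurePreserving.ae hae1
  have hae := hae1.and hae2
  rw [ae_iff] at hae
  set B0 := {x | ¬ ((∀ᵐ s : ℝ, fib κ (u s • x) = (fun y => u s • y) '' fib κ x) ∧
    ∀ᵐ s : ℝ, fib κ (u s • g • x) = (fun y => u s • y) '' fib κ (g • x))} with hB0
  refine ⟨A1 \ toMeasurable m B0, hA1m.diff (measurableSet_toMeasurable _ _), ?_, ?_⟩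
  · have hsub : (A1 \ toMeasurable m B0)ᶜ ⊆ A1ᶜ ∪ toMeasurable m B0 := by
      intro x hx
      by_cases h1 : x ∈ A1
      · right
        by_contra h2
        exact hx ⟨h1, h2⟩
      · exact Or.inl h1
    refine (measure_mono hsub).trans ((measure_union_le _ _).trans ?_)
    rw [measure_toMeasurable, hae, add_zero]
    exact hA1
  rintro x ⟨hx1, hx2⟩ y hy
  have hx3 : x ∉ B0 := fun h => hx2 (subset_toMeasurable _ _ h)
  simp only [hB0, mem_ofPred_eq, not_not] at hx3
  obtain ⟨hN1, hN2⟩ := hx3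
  rw [ae_iff] at hN1 hN2
  set N1 := {s : ℝ | ¬ fib κ (u s • x) = (fun y => u s • y) '' fib κ x} with hN1d
  set N2 := {s : ℝ | ¬ fib κ (u s • g • x) = (fun y => u s • y) '' fib κ (g • x)} with hN2d
  have hsm : ∀ s ∈ Icc 0 S, 1 / 2 ≤ g 1 1 - s * g 1 0 ∧
      nrm (u (matchTime g s) * g * u (-s)) ≤ ε := fun s hs => matchTime_small hε hg hs hSg
  have hN3 := match_null (g := g) (S := S) hN2 (fun s hs => by
    have := (hsm s hs).1
    linarith)
  set N := toMeasurable volume (N1 ∪ {s ∈ Icc 0 S | matchTime g s ∈ N2}) with hN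
  have hN0 : volume N = 0 := by
    rw [hN, measure_toMeasurable]
    exact measure_union_null hN1 hN3
  set E := {s ∈ Icc 0 S | u s • x ∈ Q ∧ u (matchTime g s) • g • x ∈ Q} \ N with hE
  have hEm : MeasurableSet E := by
    refine MeasurableSet.diff ?_ (measurableSet_toMeasurable _ _)
    refine measurableSet_Icc.inter (MeasurableSet.inter ?_ ?_)
    · have hc : Continuous fun s : ℝ => u s • x := continuous_u.smul continuous_const
      exact (hQc.isClosed.preimage hc).measurableSet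
    · have hc : Continuous fun s : ℝ => u s • g • x := continuous_u.smul continuous_const
      exact measurable_matchTime g (hQc.isClosed.preimage hc).measurableSet
  have hEvol : ENNReal.ofReal (2 * (1 / 8) * S) < volume E := by
    have h1 : volume E =
        volume {s ∈ Icc 0 S | u s • x ∈ Q ∧ u (matchTime g s) • g • x ∈ Q} :=
      measure_sdiff_null hN0
    rw [h1]
    convert hA1E x hx1 using 2
    ring
  -- facts on `E`
  have hEf : ∀ s ∈ E, s ∈ Icc 0 S ∧ u s • x ∈ Q ∧ u (matchTime g s) • g • x ∈ Q ∧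
      fib κ (u s • x) = (fun y => u s • y) '' fib κ x ∧
      fib κ (u (matchTime g s) • g • x) =
        (fun y => u (matchTime g s) • y) '' fib κ (g • x) := by
    rintro s ⟨⟨hs1, hs2, hs3⟩, hs4⟩
    have hs5 : s ∉ N1 ∪ {s ∈ Icc 0 S | matchTime g s ∈ N2} :=
      fun h => hs4 (subset_toMeasurable _ _ h)
    refine ⟨hs1, hs2, hs3, ?_, ?_⟩
    · by_contra hcon
      exact hs5 (Or.inl hcon)
    · by_contra hcon
      exact hs5 (Or.inr ⟨hs1, hcon⟩)
  obtain ⟨P, ⟨w, hw, rfl⟩, hP1, -⟩ := covering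
    (PP := {P : ℝ → ℝ | ∃ w : G, g • w • y ∈ fib κ (g • x) ∧
      P = fun s => nrm (u s * w * u (-s))})
    (S := S) (ρ' := ρ / 1024) (ρ := ρ) (θ := 1 / 8) hS (by linarith) (by norm_num)
    (by
      rintro P ⟨w, hw, rfl⟩
      exact continuous_nrm.comp ((continuous_u.mul continuous_const).mul
        (continuous_u.comp continuous_neg)))
    (by
      rintro P ⟨w, hw, rfl⟩ a b ha hab hb hle hex
      refine (match_good w hab hρ (by positivity) hex).trans (le_of_eq ?_)
      have h1 : ρ / 1024 / ρ = (1 / 32) ^ 2 := by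
        field_simp
        norm_num
      rw [h1, Real.sqrt_sq (by norm_num)]
      norm_num)
    hEm (fun s hs => (hEf s hs).1)
    (by
      intro s hs
      obtain ⟨hsI, hsQ, hsQ', hf1, hf2⟩ := hEf s hs
      obtain ⟨-, hgs⟩ := hsm s hsI
      set gs := u (matchTime g s) * g * u (-s) with hgsd
      have hgx : gs • u s • x = u (matchTime g s) • g • x := by
        rw [hgsd, ← mul_smul, ← mul_smul, mul_assoc, u_neg_mul, mul_one]
      have hy1 : u s • y ∈ fib κ (u s • x) := by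
        rw [hf1]
        exact ⟨y, hy, rfl⟩
      obtain ⟨h, hh1, hh2⟩ := hm (u s • x) hsQ gs (hgs.trans hε3) (by rw [hgx]; exact hsQ')
        (u s • y) hy1
      rw [hgx, hf2] at hh2
      obtain ⟨y', hy', hyy⟩ := hh2
      simp only at hyy
      have hw : u s * (g⁻¹ * (u (matchTime g s))⁻¹ * h * u s) * u (-s) = gs⁻¹ * h := by
        rw [hgsd, ← u_inv]
        group
      refine ⟨_, ⟨g⁻¹ * (u (matchTime g s))⁻¹ * h * u s, ?_, rfl⟩, ?_⟩
      · have : g • (g⁻¹ * (u (matchTime g s))⁻¹ * h * u s) • y = y' := by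
          rw [← mul_smul]
          have h2 : g * (g⁻¹ * (u (matchTime g s))⁻¹ * h * u s) =
              (u (matchTime g s))⁻¹ * (h * u s) := by group
          rw [h2, mul_smul, mul_smul h, ← hyy, inv_smul_smul]
        rw [this]
        exact hy'
      · show nrm (u s * (g⁻¹ * (u (matchTime g s))⁻¹ * h * u s) * u (-s)) ≤ ρ / 1024
        rw [hw]
        exact hc2 gs h (hgs.trans hε2) hh1)
    (by
      rintro s hs P ⟨w, hw, rfl⟩ P' ⟨w', hw', rfl⟩ hP hP'
      obtain ⟨hsI, hsQ, hsQ', hf1, hf2⟩ := hEf s hs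
      obtain ⟨-, hgs⟩ := hsm s hsI
      set gs := u (matchTime g s) * g * u (-s) with hgsd
      simp only at hP hP'
      set p := u s * w * u (-s) with hp
      set p' := u s * w' * u (-s) with hp'
      have hz1 : u (matchTime g s) • g • w • y ∈ fib κ (u (matchTime g s) • g • x) := by
        rw [hf2]
        exact ⟨_, hw, rfl⟩
      have hz2 : (gs * p' * p⁻¹ * gs⁻¹) • u (matchTime g s) • g • w • y =
          u (matchTime g s) • g • w' • y := by
        simp only [← mul_smul]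
        congr 1
        rw [hgsd, hp, hp', ← u_inv]
        group
      have h1 := hsep _ hsQ' _ hz1 (gs * p' * p⁻¹ * gs⁻¹)
        (hc1 gs p p' (hgs.trans hε1) (hP.trans hρρ1) (hP'.trans hρρ1)) (by
          rw [hz2, hf2]
          exact ⟨_, hw', rfl⟩)
      have h2 : p' = p := by
        have h3 : gs⁻¹ * (gs * p' * p⁻¹ * gs⁻¹) * gs = p' * p⁻¹ := by group
        rw [h1] at h3
        have h4 : p' * p⁻¹ = 1 := by rw [← h3]; group
        exact mul_inv_eq_one.1 h4
      have h5 : w = w' := by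
        have e1 : w = (u s)⁻¹ * p * (u (-s))⁻¹ := by rw [hp]; group
        have e2 : w' = (u s)⁻¹ * p' * (u (-s))⁻¹ := by rw [hp']; group
        rw [e1, e2, h2]
      rw [h5])
    hEvol
  exact ⟨w, hw, fun s hs => (hP1 s hs).trans hρr1⟩

end Pool.Agent.Work.MP_c9c104_nt
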