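import Pool.Agent.Work.MP_c9c104_nt.ErgTrans

/-!
Mautner phenomenon: functions invariant under all `u s` are constant.
-/

open MeasureTheory Filter Topology Set ProbabilityTheory
open scoped ENNReal NNReal symmDiff

namespace Pool.Agent.Work.MP_c9c104_nt

variable {X : Type} [TopologicalSpace X] [MeasurableSpace X] [MulAction G X] [HomSp X]
variable {Z : Type} [TopologicalSpace Z] [MeasurableSpace Z] [MulAction G Z] [PhSp Z]

/-- the translation by `g` as a continuous map -/
def actC (Z : Type) [TopologicalSpace Z] [MeasurableSpace Z] [MulAction G Z] [PhSp Z] (g : G) :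
    C(Z, Z) := ⟨fun z => g • z, continuous_const_smul g⟩

theorem continuous_actC : Continuous (actC Z) := by
  apply ContinuousMap.continuous_of_continuous_uncurry
  exact continuous_fst.smul continuous_snd

theorem mp_smul (σ : Measure Z) [SMulInvariantMeasure G Z σ] (g : G) :
    MeasurePreserving (fun z : Z => g • z) σ σ := measurePreserving_smul g σ

/-- continuity of the action on the measure algebra -/
theorem tendsto_symmDiff (σ : Measure Z) [IsProbabilityMeasure σ] [SMulInvariantMeasure G Z σ]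
    {A : Set Z} (hA : MeasurableSet A) {α : Type*} {l : Filter α} {f : α → G} {g : G}
    (hf : Tendsto f l (𝓝 g)) :
    Tendsto (fun x => σ (((fun z => f x • z) ⁻¹' A) ∆ ((fun z => g • z) ⁻¹' A))) l (𝓝 0) := by
  have hreg : Measure.Regular σ := inferInstance
  have hin : σ.InnerRegularCompactLTTop := inferInstance
  have h1 : Tendsto (fun x => actC Z (f x)) l (𝓝 (actC Z g)) :=
    (continuous_actC.tendsto g).comp hf
  have h2 : ∀ᶠ x in l, MeasurePreserving (actC Z (f x)) σ σ :=
    Eventually.of_forall fun x => mp_smul σ (f x)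
  have h3 : MeasurePreserving (actC Z g) σ σ := mp_smul σ g
  have h4 := tendsto_measure_symmDiff_preimage_nhds_zero h1 h2 h3 hA.nullMeasurableSet
    (measure_ne_top σ A)
  exact h4

/-- matrix coefficients are continuous -/
theorem tendsto_inter (σ : Measure Z) [IsProbabilityMeasure σ] [SMulInvariantMeasure G Z σ]
    {A : Set Z} (hA : MeasurableSet A) {α : Type*} {l : Filter α} {f : α → G} {g : G}
    (hf : Tendsto f l (𝓝 g)) :
    Tendsto (fun x => σ.real (((fun z => f x • z) ⁻¹' A) ∩ A)) l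
      (𝓝 (σ.real (((fun z => g • z) ⁻¹' A) ∩ A))) := by
  have h1 := tendsto_symmDiff σ hA hf
  have h2 : Tendsto (fun x => σ.real (((fun z => f x • z) ⁻¹' A) ∆ ((fun z => g • z) ⁻¹' A))) l
      (𝓝 0) := by
    have := (ENNReal.tendsto_toReal ENNReal.zero_ne_top).comp h1
    simpa [Measure.real, Function.comp_def] using this
  rw [tendsto_iff_dist_tendsto_zero]
  refine squeeze_zero (fun _ => dist_nonneg) (fun x => ?_) h2
  set B := (fun z => f x • z) ⁻¹' A
  set C := (fun z => g • z) ⁻¹' A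
  rw [Real.dist_eq, abs_le]
  have hB : MeasurableSet B := (measurable_const_smul (f x)) hA
  have hC : MeasurableSet C := (measurable_const_smul g) hA
  have e1 : σ.real (B ∩ A) ≤ σ.real (C ∩ A) + σ.real (B ∆ C) := by
    refine le_trans (measureReal_mono ?_) (measureReal_union_le _ _)
    intro z hz
    by_cases hc : z ∈ C
    · exact Or.inl ⟨hc, hz.2⟩
    · exact Or.inr (Or.inl ⟨hz.1, hc⟩)
  have e2 : σ.real (C ∩ A) ≤ σ.real (B ∩ A) + σ.real (B ∆ C) := by
    refine le_trans (measureReal_mono ?_) (measureReal_union_le _ _)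
    intro z hz
    by_cases hc : z ∈ B
    · exact Or.inl ⟨hc, hz.2⟩
    · exact Or.inr (Or.inr ⟨hz.1, hc⟩)
  constructor <;> linarith

/-- matrix coefficients are bi-invariant -/
theorem inter_bi (σ : Measure Z) [IsProbabilityMeasure σ] [SMulInvariantMeasure G Z σ]
    {A : Set Z} (hA : MeasurableSet A)
    (hinv : ∀ s : ℝ, (fun z => u s • z) ⁻¹' A =ᵐ[σ] A) (x y : ℝ) (g : G) :
    σ.real (((fun z => (u x * g * u y) • z) ⁻¹' A) ∩ A) =
      σ.real (((fun z => g • z) ⁻¹' A) ∩ A) := by
  have h1 : (fun z => (u x * g * u y) • z) ⁻¹' A =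
      (fun z => u y • z) ⁻¹' ((fun z => g • z) ⁻¹' ((fun z => u x • z) ⁻¹' A)) := by
    ext z
    simp only [mem_preimage, mul_smul]
  have h2 : (((fun z => (u x * g * u y) • z) ⁻¹' A) ∩ A : Set Z) =ᵐ[σ]
      ((fun z => u y • z) ⁻¹' (((fun z => g • z) ⁻¹' A) ∩ A) : Set Z) := by
    rw [h1, preimage_inter]
    refine EventuallyEq.inter ?_ (hinv y).symm
    have h3 := (mp_smul σ g).quasiMeasurePreserving.preimage_ae_eq (hinv x)
    exact (mp_smul σ (u y)).quasiMeasurePreserving.preimage_ae_eq h3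
  rw [measureReal_congr h2]
  have h4 : NullMeasurableSet (((fun z => g • z) ⁻¹' A) ∩ A) σ :=
    (((measurable_const_smul g) hA).inter hA).nullMeasurableSet
  exact (mp_smul σ (u y)).measureReal_preimage h4

/-- normal form of elements with nonzero lower left entry -/
theorem normal_form (g : G) (c : ℝ) (hc : c ≠ 0) (hg : g 1 0 = c) :
    u (-(g 0 0 / c)) * g * u (-(g 1 1 / c)) =
      ⟨!![0, -(1 / c); c, 0], by simp [Matrix.det_fin_two, hc]⟩ := by
  have hd := G_det g
  rw [hg] at hd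
  apply G_ext
  · simp [hg]; field_simp; ring
  · simp [hg]; field_simp; linear_combination -hd
  · simp [hg]
  · simp [hg]; field_simp; ring

theorem inter_eq (σ : Measure Z) [IsProbabilityMeasure σ] [SMulInvariantMeasure G Z σ]
    {A : Set Z} (hA : MeasurableSet A)
    (hinv : ∀ s : ℝ, (fun z => u s • z) ⁻¹' A =ᵐ[σ] A) (g h : G) (hgh : g 1 0 = h 1 0)
    (hh : h 1 0 ≠ 0) :
    σ.real (((fun z => g • z) ⁻¹' A) ∩ A) = σ.real (((fun z => h • z) ⁻¹' A) ∩ A) := by
  rw [← inter_bi σ hA hinv (-(g 0 0 / h 1 0)) (-(g 1 1 / h 1 0)) g,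
    normal_form g (h 1 0) hh hgh,
    ← inter_bi σ hA hinv (-(h 0 0 / h 1 0)) (-(h 1 1 / h 1 0)) h,
    normal_form h (h 1 0) hh rfl]

theorem ae_eq_of_inter (σ : Measure Z) [IsProbabilityMeasure σ] [SMulInvariantMeasure G Z σ]
    {A : Set Z} (hA : MeasurableSet A) (g : G)
    (h : σ.real (((fun z => g • z) ⁻¹' A) ∩ A) = σ.real A) :
    (fun z => g • z) ⁻¹' A =ᵐ[σ] A := by
  have hB : MeasurableSet ((fun z => g • z) ⁻¹' A) := (measurable_const_smul g) hA
  have h1 : σ ((fun z => g • z) ⁻¹' A) = σ A := (mp_smul σ g).measure_preimage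
    hA.nullMeasurableSet
  have h2 : σ (((fun z => g • z) ⁻¹' A) ∩ A) = σ A := by
    have := h
    simp only [Measure.real] at this
    exact (ENNReal.toReal_eq_toReal_iff' (measure_ne_top _ _) (measure_ne_top _ _)).mp this
  have h3 : (((fun z => g • z) ⁻¹' A) ∩ A : Set Z) =ᵐ[σ] A :=
    ae_eq_of_subset_of_measure_ge inter_subset_right h2.ge (hB.inter hA).nullMeasurableSet
      (measure_ne_top _ _)
  have h4 : (((fun z => g • z) ⁻¹' A) ∩ A : Set Z) =ᵐ[σ] ((fun z => g • z) ⁻¹' A) :=
    ae_eq_of_subset_of_measure_ge inter_subset_left (h1.trans h2.symm).le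
      (hB.inter hA).nullMeasurableSet (measure_ne_top _ _)
  exact h4.symm.trans h3

theorem inv_a (σ : Measure Z) [IsProbabilityMeasure σ] [SMulInvariantMeasure G Z σ]
    {A : Set Z} (hA : MeasurableSet A)
    (hinv : ∀ s : ℝ, (fun z => u s • z) ⁻¹' A =ᵐ[σ] A) (t : ℝ) :
    (fun z => a t • z) ⁻¹' A =ᵐ[σ] A := by
  apply ae_eq_of_inter σ hA
  have hc : Tendsto (fun n : ℕ => 1 / ((n : ℝ) + 1)) atTop (𝓝 0) :=
    tendsto_one_div_add_atTop_nhds_zero_nat
  have hv : Tendsto (fun n : ℕ => v (1 / ((n : ℝ) + 1))) atTop (𝓝 1) := by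
    have := (continuous_v.tendsto 0).comp hc
    rwa [v_zero] at this
  have ha : Tendsto (fun n : ℕ => a t * v (1 / ((n : ℝ) + 1) * Real.exp t)) atTop (𝓝 (a t)) := by
    have h1 : Tendsto (fun n : ℕ => 1 / ((n : ℝ) + 1) * Real.exp t) atTop (𝓝 0) := by
      have := hc.mul_const (Real.exp t)
      rwa [zero_mul] at this
    have h2 := (continuous_v.tendsto 0).comp h1
    rw [v_zero] at h2
    have h3 := h2.const_mul (a t)
    rwa [mul_one] at h3
  have h1 := tendsto_inter σ hA hv
  have h2 := tendsto_inter σ hA ha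
  have h3 : ∀ n : ℕ, σ.real (((fun z => (a t * v (1 / ((n : ℝ) + 1) * Real.exp t)) • z) ⁻¹' A) ∩ A)
      = σ.real (((fun z => v (1 / ((n : ℝ) + 1)) • z) ⁻¹' A) ∩ A) := by
    intro n
    apply inter_eq σ hA hinv
    · simp only [mul10, a10, v00, a11, v10, zero_mul, zero_add]
      rw [mul_comm, mul_assoc, ← Real.exp_add]
      simp
    · rw [v10]
      positivity
  simp only [h3] at h2
  have h4 := tendsto_nhds_unique h2 h1
  rw [h4]
  congr 1
  ext z
  simp

theorem inv_v (σ : Measure Z) [IsProbabilityMeasure σ] [SMulInvariantMeasure G Z σ]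
    {A : Set Z} (hA : MeasurableSet A)
    (hinv : ∀ s : ℝ, (fun z => u s • z) ⁻¹' A =ᵐ[σ] A) (r : ℝ) :
    (fun z => v r • z) ⁻¹' A =ᵐ[σ] A := by
  have key : ∀ t : ℝ, σ (((fun z => v r • z) ⁻¹' A) ∆ A) =
      σ (((fun z => v (Real.exp (-(2 * t)) * r) • z) ⁻¹' A) ∆ A) := by
    intro t
    have e1 : (fun z : Z => v r • z) ⁻¹' A =ᵐ[σ]
        (fun z => a t • z) ⁻¹' ((fun z => v (Real.exp (-(2 * t)) * r) • z) ⁻¹' A) := by
      have e2 : (fun z : Z => a t • z) ⁻¹' ((fun z => v (Real.exp (-(2 * t)) * r) • z) ⁻¹' A) =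
          (fun z => v r • z) ⁻¹' ((fun z => a t • z) ⁻¹' A) := by
        ext z
        simp only [mem_preimage, smul_smul]
        rw [a_mul_v]
      rw [e2]
      exact (mp_smul σ (v r)).quasiMeasurePreserving.preimage_ae_eq (inv_a σ hA hinv t).symm
    have e3 : (((fun z : Z => v r • z) ⁻¹' A) ∆ A : Set Z) =ᵐ[σ]
        ((fun z => a t • z) ⁻¹' (((fun z => v (Real.exp (-(2 * t)) * r) • z) ⁻¹' A) ∆ A) :
          Set Z) := by
      have : (fun z : Z => a t • z) ⁻¹' (((fun z => v (Real.exp (-(2 * t)) * r) • z) ⁻¹' A) ∆ A) =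
          ((fun z => a t • z) ⁻¹' ((fun z => v (Real.exp (-(2 * t)) * r) • z) ⁻¹' A)) ∆
          ((fun z => a t • z) ⁻¹' A) := rfl
      rw [this]
      exact e1.symmDiff (inv_a σ hA hinv t).symm
    rw [measure_congr e3]
    refine (mp_smul σ (a t)).measure_preimage ?_
    exact (((measurable_const_smul _) hA).symmDiff hA).nullMeasurableSet
  have ht : Tendsto (fun t : ℝ => v (Real.exp (-(2 * t)) * r)) atTop (𝓝 1) := by
    have h1 : Tendsto (fun t : ℝ => Real.exp (-(2 * t)) * r) atTop (𝓝 0) := by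
      have h2 : Tendsto (fun t : ℝ => -(2 * t)) atTop atBot :=
        tendsto_neg_atTop_atBot.comp (tendsto_id.const_mul_atTop (by norm_num))
      have h3 := (Real.tendsto_exp_atBot.comp h2).mul_const r
      rwa [zero_mul] at h3
    have h4 := (continuous_v.tendsto 0).comp h1
    rwa [v_zero] at h4
  have h5 := tendsto_symmDiff σ hA ht
  have h6 : (fun z : Z => (1 : G) • z) ⁻¹' A = A := by
    ext z
    simp
  rw [h6] at h5
  have h7 : σ (((fun z => v r • z) ⁻¹' A) ∆ A) = 0 := by
    refine tendsto_nhds_unique (tendsto_const_nhds (x := σ (((fun z => v r • z) ⁻¹' A) ∆ A))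
      (f := (atTop : Filter ℝ))) (h5.congr fun t => (key t).symm)
  exact measure_symmDiff_eq_zero_iff.mp h7

theorem mautner (σ : Measure Z) [IsProbabilityMeasure σ] [SMulInvariantMeasure G Z σ]
    (z0 : Z) (h0 : ∀ᵐ z ∂σ, z ∈ MulAction.orbit G z0) {A : Set Z} (hA : MeasurableSet A)
    (hinv : ∀ s : ℝ, (fun z => u s • z) ⁻¹' A =ᵐ[σ] A) : σ A = 0 ∨ σ Aᶜ = 0 := by
  let S : Subgroup G :=
    { carrier := {g | (fun z => g • z) ⁻¹' A =ᵐ[σ] A}
      mul_mem' := by
        intro g h hg hh
        have e : (fun z : Z => (g * h) • z) ⁻¹' A =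
            (fun z => h • z) ⁻¹' ((fun z => g • z) ⁻¹' A) := by
          ext z
          simp only [mem_preimage, mul_smul]
        show (fun z : Z => (g * h) • z) ⁻¹' A =ᵐ[σ] A
        rw [e]
        exact ((mp_smul σ h).quasiMeasurePreserving.preimage_ae_eq hg).trans hh
      one_mem' := by
        show (fun z : Z => (1 : G) • z) ⁻¹' A =ᵐ[σ] A
        have e : (fun z : Z => (1 : G) • z) ⁻¹' A = A := by
          ext z
          simp
        exact (Eq.symm e) ▸ EventuallyEq.rfl
      inv_mem' := by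
        intro g hg
        have e : (fun z : Z => g⁻¹ • z) ⁻¹' ((fun z => g • z) ⁻¹' A) = A := by
          ext z
          simp only [mem_preimage, smul_inv_smul]
        have h1 := (mp_smul σ g⁻¹).quasiMeasurePreserving.preimage_ae_eq hg
        rw [e] at h1
        exact h1.symm }
  have hS : S = ⊤ := G_gen S (fun s => hinv s) (fun r => inv_v σ hA hinv r)
  refine erg_trans σ z0 h0 hA fun g => ?_
  have : g ∈ S := by
    rw [hS]
    exact Subgroup.mem_top g
  exact this

end Pool.Agent.Work.MP_c9c104_nt
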