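import Pool.Agent.Work.MP_c9c104_nt.Quot
import Pool.Agent.Work.MP_c9c104_nt.Zass

/-!
Finite index subgroups of stabilizers are not abelian.
-/

open MeasureTheory Filter Topology Set ProbabilityTheory
open scoped ENNReal NNReal

namespace Pool.Agent.Work.MP_c9c104_nt

variable {X : Type} [TopologicalSpace X] [MeasurableSpace X] [MulAction G X] [HomSp X]
variable {Z : Type} [TopologicalSpace Z] [MeasurableSpace Z] [MulAction G Z] [PhSp Z]

variable (m : Measure X) [IsProbabilityMeasure m] [SMulInvariantMeasure G X m]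

private lemma a_pow (t : ℝ) (n : ℕ) : (a t) ^ n = a (n * t) := by
  induction n with
  | zero => simp
  | succ n ih => rw [pow_succ, ih, ← a_add]; congr 1; push_cast; ring

/-- entries of the conjugate by `a (n t)` of a bounded family -/
private lemma recur_entry (x : X) (t : ℝ) (C : Set G) (hC : C.Finite) (Y : G)
    (hYC : ∀ γ ∈ MulAction.stabilizer G x, γ * Y * γ⁻¹ ∈ C) (g : G)
    (hrec : ∀ s ∈ 𝓝 (g • x), ∃ᶠ n : ℕ in atTop, (fun p : X => a t • p)^[n] (g • x) ∈ s) :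
    ∃ B : ℝ, ∃ᶠ n : ℕ in atTop, ∀ i j, |(a (n * t) * (g * Y * g⁻¹) * a (-(n * t))) i j| ≤ B := by
  have hK : IsCompact ((fun q : G × G => q.1 * (g * q.2 * g⁻¹) * q.1⁻¹) ''
      ({h : G | nrm h ≤ 1} ×ˢ C)) := by
    apply IsCompact.image ((isCompact_nrm_le 1).prod hC.isCompact)
    fun_prop
  have hbd : ∀ i j, ∃ B : ℝ, ∀ w ∈ (fun q : G × G => q.1 * (g * q.2 * g⁻¹) * q.1⁻¹) ''
      ({h : G | nrm h ≤ 1} ×ˢ C), |w i j| ≤ B := by
    intro i j
    obtain ⟨B, hB⟩ := hK.exists_bound_of_continuousOn (f := fun w : G => w i j)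
      (continuous_entry i j).continuousOn
    exact ⟨B, fun w hw => by simpa using hB w hw⟩
  choose B hB using hbd
  refine ⟨max (max (B 0 0) (B 0 1)) (max (B 1 0) (B 1 1)), ?_⟩
  have hs := smul_mem_nhds (g • x) (nrm_mem 1 one_pos)
  refine (hrec _ hs).mono ?_
  rintro n ⟨h, hh, hhx⟩
  have e1 : (fun p : X => a t • p)^[n] (g • x) = a (n * t) • g • x := by
    rw [smul_iterate, a_pow]
  rw [e1] at hhx
  change h • g • x = a (n * t) • g • x at hhx
  have hγ : g⁻¹ * h⁻¹ * a (n * t) * g ∈ MulAction.stabilizer G x := by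
    rw [MulAction.mem_stabilizer_iff]
    rw [mul_smul, mul_smul, ← hhx, mul_smul, inv_smul_smul, inv_smul_smul]
  have hmem := hYC _ hγ
  have e2 : a (n * t) * (g * Y * g⁻¹) * a (-(n * t)) =
      h * (g * ((g⁻¹ * h⁻¹ * a (n * t) * g) * Y * (g⁻¹ * h⁻¹ * a (n * t) * g)⁻¹) * g⁻¹) *
        h⁻¹ := by
    rw [← a_inv]
    group
  have hin : a (n * t) * (g * Y * g⁻¹) * a (-(n * t)) ∈
      (fun q : G × G => q.1 * (g * q.2 * g⁻¹) * q.1⁻¹) '' ({h : G | nrm h ≤ 1} ×ˢ C) := by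
    rw [e2]
    exact ⟨(h, _), ⟨show nrm h ≤ 1 from le_of_lt hh, hmem⟩, rfl⟩
  intro i j
  refine (hB i j _ hin).trans ?_
  fin_cases i <;> fin_cases j <;> simp

private lemma exp_unbdd {c B t : ℝ} (ht : 0 < t)
    (h : ∃ᶠ n : ℕ in atTop, |Real.exp (n * t) * c| ≤ B) : c = 0 := by
  by_contra hc
  have hc' : 0 < |c| := abs_pos.2 hc
  have h1 : Tendsto (fun n : ℕ => Real.exp (n * t) * |c|) atTop atTop := by
    apply Tendsto.atTop_mul_const hc'
    apply Real.tendsto_exp_atTop.comp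
    exact Tendsto.atTop_mul_const ht tendsto_natCast_atTop_atTop
  obtain ⟨n, h2, h3⟩ := (h.and_eventually (h1.eventually_gt_atTop B)).exists
  rw [abs_mul, abs_of_pos (Real.exp_pos _)] at h2
  linarith

include m in
theorem nonab (x y : X) (h : {z : X | ∃ γ ∈ MulAction.stabilizer G x, z = γ • y}.Finite) :
    ∃ γ₁ ∈ MulAction.stabilizer G x, ∃ γ₂ ∈ MulAction.stabilizer G x,
      γ₁ • y = y ∧ γ₂ • y = y ∧ γ₁ * γ₂ ≠ γ₂ * γ₁ := by
  classical
  by_contra hcon
  push Not at hcon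
  -- a non central element commuting with `Γ'`
  obtain ⟨Y, hY0, hY⟩ : ∃ Y : G, ynrm Y ≠ 0 ∧
      ∀ γ ∈ MulAction.stabilizer G x, γ • y = y → γ * Y = Y * γ := by
    by_cases hex : ∃ η ∈ MulAction.stabilizer G x, η • y = y ∧ ynrm η ≠ 0
    · obtain ⟨η, h1, h2, h3⟩ := hex
      exact ⟨η, h3, fun γ hγ hγy => hcon γ hγ η h1 hγy h2⟩
    · push Not at hex
      refine ⟨u 1, ?_, ?_⟩
      · intro h0
        have h1 := (ynrm_le_iff.1 h0.le).2.1
        rw [u01, abs_one] at h1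
        linarith
      · intro γ hγ hγy
        obtain ⟨h1, h2, h3⟩ := ynrm_le_iff.1 (hex γ hγ hγy).le
        have h1' := sub_eq_zero.1 (abs_nonpos_iff.1 h1)
        have h2' := abs_nonpos_iff.1 h2
        have h3' := abs_nonpos_iff.1 h3
        apply G_ext <;> simp [h2', h3', h1']
  -- the finite set of conjugates
  set C : Set G := {w | ∃ γ ∈ MulAction.stabilizer G x, w = γ * Y * γ⁻¹} with hCdef
  have hC : C.Finite := by
    have hsub : C ⊆ (fun z : X => if hz : ∃ γ ∈ MulAction.stabilizer G x, z = γ • y then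
        hz.choose * Y * hz.choose⁻¹ else 1) '' {z : X | ∃ γ ∈ MulAction.stabilizer G x,
          z = γ • y} := by
      rintro w ⟨γ, hγ, rfl⟩
      have hz : ∃ γ' ∈ MulAction.stabilizer G x, γ • y = γ' • y := ⟨γ, hγ, rfl⟩
      refine ⟨γ • y, hz, ?_⟩
      simp only [dif_pos hz]
      obtain ⟨h1, h2⟩ := hz.choose_spec
      set γ' := hz.choose
      have h3 : (γ⁻¹ * γ') * Y = Y * (γ⁻¹ * γ') := by
        apply hY
        · exact mul_mem (inv_mem hγ) h1
        · rw [mul_smul, ← h2, inv_smul_smul]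
      have h4 : γ' * Y = γ * (Y * (γ⁻¹ * γ')) := by rw [← h3]; group
      rw [h4]
      group
    exact (h.image _).subset hsub
  have hYC : ∀ γ ∈ MulAction.stabilizer G x, γ * Y * γ⁻¹ ∈ C := fun γ hγ => ⟨γ, hγ, rfl⟩
  -- recurrence
  have hrec : ∀ t : ℝ, ∀ᵐ p ∂m, ∀ s ∈ 𝓝 p,
      ∃ᶠ n : ℕ in atTop, (fun q : X => a t • q)^[n] p ∈ s := by
    intro t
    have h1 : MeasurePreserving (fun q : X => a t • q) m m := measurePreserving_smul (a t) m
    exact h1.conservative.ae_frequently_mem_of_mem_nhds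
  have hkey : ∀ᵐ p ∂m, ∀ g : G, g • x = p →
      (g * Y * g⁻¹) 0 1 = 0 ∧ (g * Y * g⁻¹) 1 0 = 0 := by
    filter_upwards [hrec 1, hrec (-1)] with p h1 h2 g hg
    subst hg
    obtain ⟨B1, hB1⟩ := recur_entry x 1 C hC Y hYC g h1
    obtain ⟨B2, hB2⟩ := recur_entry x (-1) C hC Y hYC g h2
    constructor
    · apply exp_unbdd (B := B1) (t := 2) two_pos
      refine hB1.mono fun n hn => ?_
      have h3 := hn 0 1
      rw [aconj01] at h3
      convert h3 using 4
      ring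
    · apply exp_unbdd (B := B2) (t := 2) two_pos
      refine hB2.mono fun n hn => ?_
      have h3 := hn 1 0
      rw [aconj10] at h3
      convert h3 using 4
      ring
  have hkey2 : ∀ᵐ p ∂m, ∀ g : G, g • x = u 1 • p →
      (g * Y * g⁻¹) 0 1 = 0 ∧ (g * Y * g⁻¹) 1 0 = 0 :=
    (measurePreserving_smul (u 1) m).quasiMeasurePreserving.ae hkey
  obtain ⟨p, hp1, hp2⟩ := (hkey.and hkey2).exists
  obtain ⟨g, hg⟩ := MulAction.exists_smul_eq G x p
  obtain ⟨e1, e2⟩ := hp1 g hg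
  obtain ⟨e3, -⟩ := hp2 (u 1 * g) (by rw [mul_smul, hg])
  have e4 : u 1 * g * Y * (u 1 * g)⁻¹ = u 1 * (g * Y * g⁻¹) * u (-1) := by
    rw [← u_inv]; group
  rw [e4, conj01, e1, e2] at e3
  set w := g * Y * g⁻¹ with hw
  have e5 : w 0 0 = w 1 1 := by linarith
  have e6 : ∀ k : G, w * k = k * w := by
    intro k
    apply G_ext <;> simp [e1, e2, e5] <;> ring
  have e7 : Y = w := by
    have : Y = g⁻¹ * (w * g) := by rw [hw]; group
    rw [this, e6 g]
    group
  apply hY0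
  rw [e7, ynrm, e1, e2, e5]
  simp

end Pool.Agent.Work.MP_c9c104_nt
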