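import Pool.Agent.Work.MP_c9c104_nt.Prod
import Pool.Agent.Work.MP_c9c104_nt.Poly
import Pool.Agent.Work.MP_c9c104_nt.Act
import Pool.Agent.Work.MP_c9c104_nt.Quot

/-!
Shearing: non product generic joinings have discrete fibres on a large compact set.
-/

open MeasureTheory Filter Topology Set ProbabilityTheory
open scoped ENNReal NNReal

namespace Pool.Agent.Work.MP_c9c104_nt

variable {X : Type} [TopologicalSpace X] [MeasurableSpace X] [MulAction G X] [HomSp X]
variable {Z : Type} [TopologicalSpace Z] [MeasurableSpace Z] [MulAction G Z] [PhSp Z]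

/-- first time at which a non constant quadratic polynomial reaches absolute value `1` -/
theorem first_time (c0 c1 c2 : ℝ) (h0 : |c0| < 1) (hne : c1 ≠ 0 ∨ c2 ≠ 0) :
    ∃ T > 0, |c0 + c1 * T + c2 * T ^ 2| = 1 ∧
      ∀ s ∈ Icc 0 T, |c0 + c1 * s + c2 * s ^ 2| ≤ 1 := by
  set p : ℝ → ℝ := fun s => c0 + c1 * s + c2 * s ^ 2 with hp
  have hpc : Continuous p := by fun_prop
  have hex : ∃ S > 0, 1 ≤ |p S| := by
    by_contra hcon
    push Not at hcon
    have hS : ∀ S > 0, |c1| ≤ 8 * 1 / S ∧ |c2| ≤ 8 * 1 / S ^ 2 := by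
      intro S hS
      have := quad_coef c0 c1 c2 S 1 hS (fun s hs => by
        rcases hs.1.eq_or_lt with h | h
        · rw [← h]; simp only [mul_zero, add_zero, ne_eq, OfNat.ofNat_ne_zero,
            not_false_eq_true, zero_pow]; exact h0.le
        · exact (hcon s h).le)
      exact this.2
    rcases hne with h | h
    · have hpos : 0 < |c1| := abs_pos.2 h
      have := (hS (16 / |c1|) (by positivity)).1
      rw [show 8 * 1 / (16 / |c1|) = |c1| / 2 by field_simp; norm_num] at this
      linarith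
    · have hpos : 0 < |c2| := abs_pos.2 h
      have h3 : 0 < 16 / |c2| := by positivity
      have h4 := (hS (max 1 (16 / |c2|)) (by positivity)).2
      have h1 : (1 : ℝ) ≤ max 1 (16 / |c2|) := le_max_left _ _
      have h2 : 16 / |c2| ≤ max 1 (16 / |c2|) := le_max_right _ _
      have h5 : 16 / |c2| ≤ (max 1 (16 / |c2|)) ^ 2 := by nlinarith
      have h6 : 8 * 1 / (max 1 (16 / |c2|)) ^ 2 ≤ 8 * 1 / (16 / |c2|) := by
        apply div_le_div_of_nonneg_left (by norm_num) h3 h5
      rw [show 8 * 1 / (16 / |c2|) = |c2| / 2 by field_simp; norm_num] at h6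
      linarith
  obtain ⟨S, hS, hS1⟩ := hex
  have hA : IsCompact {s ∈ Icc 0 S | 1 ≤ |p s|} :=
    isCompact_Icc.inter_right (isClosed_le continuous_const hpc.abs)
  obtain ⟨T, hT, hmin⟩ := hA.exists_isLeast ⟨S, ⟨hS.le, le_rfl⟩, hS1⟩
  have hT0 : 0 < T := by
    rcases hT.1.1.eq_or_lt with h | h
    · exfalso
      have h1 := hT.2
      rw [← h] at h1
      simp only [hp, mul_zero, add_zero, ne_eq, OfNat.ofNat_ne_zero, not_false_eq_true,
        zero_pow] at h1
      linarith
    · exact h
  have hlt : ∀ s ∈ Ico 0 T, |p s| ≤ 1 := by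
    intro s hs
    by_contra hc
    push Not at hc
    have := hmin ⟨⟨hs.1, hs.2.le.trans hT.1.2⟩, hc.le⟩
    linarith [hs.2]
  have hle : ∀ s ∈ Icc 0 T, |p s| ≤ 1 := by
    have h1 : closure (Ico 0 T) ⊆ {s | |p s| ≤ 1} :=
      closure_minimal hlt (isClosed_le hpc.abs continuous_const)
    rw [closure_Ico hT0.ne] at h1
    exact fun s hs => h1 hs
  exact ⟨T, hT0, le_antisymm (hle T ⟨hT0.le, le_rfl⟩) hT.2, hle⟩

/-- averages over windows -/
theorem window_avg {g : Z → ℝ} (hg : Continuous g) {z : Z} {I δ θ T T0 : ℝ} (hT0 : 0 < T0)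
    (hT : T0 ≤ T) (hθ : 0 < θ) (hθ1 : θ ≤ 1)
    (h : ∀ T ≥ T0, |avg g T z - I| ≤ δ) :
    |(∫ s in T..((1 + θ) * T), g (u s • z)) - θ * T * I| ≤ 3 * δ * T := by
  have hTpos : 0 < T := hT0.trans_le hT
  have hc : Continuous fun s : ℝ => g (u s • z) := hg.comp (continuous_u.smul continuous_const)
  have e : ∀ T ≥ T0, ∫ s in (0 : ℝ)..T, g (u s • z) = T * avg g T z := by
    intro T hT
    have : T ≠ 0 := (hT0.trans_le hT).ne'
    unfold avg; field_simp
  have hT' : T0 ≤ (1 + θ) * T := by nlinarith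
  have h1 := h T hT
  have h2 := h _ hT'
  have hsplit : ∫ s in T..((1 + θ) * T), g (u s • z) =
      (∫ s in (0 : ℝ)..((1 + θ) * T), g (u s • z)) - ∫ s in (0 : ℝ)..T, g (u s • z) := by
    rw [intervalIntegral.integral_interval_sub_left] <;> exact hc.intervalIntegrable _ _
  rw [hsplit, e _ hT, e _ hT']
  have hδ : 0 ≤ δ := (abs_nonneg _).trans h1
  have e2 : (1 + θ) * T * avg g ((1 + θ) * T) z - T * avg g T z - θ * T * I =
      (1 + θ) * T * (avg g ((1 + θ) * T) z - I) - T * (avg g T z - I) := by ring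
  rw [e2]
  have h3 : |(1 + θ) * T * (avg g ((1 + θ) * T) z - I)| ≤ (1 + θ) * T * δ := by
    rw [abs_mul, abs_of_pos (by positivity : 0 < (1 + θ) * T)]; gcongr
  have h4 : |T * (avg g T z - I)| ≤ T * δ := by
    rw [abs_mul, abs_of_pos hTpos]; gcongr
  have h5 := abs_sub ((1 + θ) * T * (avg g ((1 + θ) * T) z - I)) (T * (avg g T z - I))
  have h6 : θ * T * δ ≤ 1 * T * δ := by gcongr
  nlinarith

variable (m : Measure X) [IsProbabilityMeasure m] [SMulInvariantMeasure G X m]

/-- functions distinguishing a non product joining from its translate -/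
theorem exists_distinguish {ν : Measure (X × X)} (hj : IsJoin m ν) (hp : ν ≠ m.prod m) {s : ℝ}
    (hs : s ≠ 0) : ∃ f : X × X → ℝ, Cc f ∧ (∫ z, f (act2 (u s) z) ∂ν) ≠ ∫ z, f z ∂ν := by
  by_contra hcon
  push Not at hcon
  have := hj.prob
  have : IsProbabilityMeasure (ν.map (act2 (u s))) :=
    Measure.isProbabilityMeasure_map (measurable_act2 _).aemeasurable
  apply hp
  refine join_prod m hj hs (meas_ext fun f hf => ?_)
  rw [integral_map (measurable_act2 _).aemeasurable hf.1.aestronglyMeasurable]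
  exact hcon f hf

theorem cc_act2 {f : X × X → ℝ} (hf : Cc f) (g : G) : Cc (fun z => f (act2 g z)) :=
  ⟨hf.1.comp (continuous_act2 g), hf.2.comp_homeomorph (act2H g)⟩

theorem shear {ν : Measure (X × X)} (hg : IsGen ν) (hj : IsJoin m ν) (hp : ν ≠ m.prod m) :
    ∃ K : Set (X × X), IsCompact K ∧ ν K ≠ 0 ∧ ∃ r0 > 0, ∀ (x y : X) (w : G),
      (x, y) ∈ K → (x, w • y) ∈ K → nrm w ≤ r0 → w • y = y := by
  classical
  have hprob := hj.prob
  obtain ⟨f1, hf1, hd1⟩ := exists_distinguish m hj hp (s := 1) one_ne_zero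
  obtain ⟨f2, hf2, hd2⟩ := exists_distinguish m hj hp (s := -1) (by norm_num)
  set κ : ℝ := min |(∫ z, f1 (act2 (u 1) z) ∂ν) - ∫ z, f1 z ∂ν|
    |(∫ z, f2 (act2 (u (-1)) z) ∂ν) - ∫ z, f2 z ∂ν| with hκ
  have hκ0 : 0 < κ := lt_min (abs_pos.2 (sub_ne_zero.2 hd1)) (abs_pos.2 (sub_ne_zero.2 hd2))
  obtain ⟨δ1, hδ1, huc1⟩ := uc_two hf1 (show 0 < κ / 4 by positivity)
  obtain ⟨δ2, hδ2, huc2⟩ := uc_two hf2 (show 0 < κ / 4 by positivity)
  set δ0 : ℝ := min (min δ1 δ2) 1 with hδ0
  have hδ0' : 0 < δ0 := lt_min (lt_min hδ1 hδ2) one_pos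
  set θ : ℝ := δ0 / 128 with hθ
  have hθ0 : 0 < θ := by positivity
  have hθ1 : θ ≤ 1 := by
    have : δ0 ≤ 1 := min_le_right _ _
    rw [hθ]; linarith
  set δ : ℝ := θ * κ / 24 with hδ
  have hδpos : 0 < δ := by positivity
  obtain ⟨K, hKc, hKν, T0, hT0, hK⟩ := gen_egorov hg
    {f1, fun z => f1 (act2 (u 1) z), f2, fun z => f2 (act2 (u (-1)) z)} (by
      intro f hf
      simp only [Finset.mem_insert, Finset.mem_singleton] at hf
      rcases hf with rfl | rfl | rfl | rfl
      · exact hf1
      · exact cc_act2 hf1 _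
      · exact hf2
      · exact cc_act2 hf2 _) (show (0 : ℝ) < 1 / 2 by norm_num) hδpos
  refine ⟨K, hKc, ?_, ?_⟩
  · intro h0
    have h1 : ν univ ≤ ν K + ν Kᶜ := by
      rw [← union_compl_self K]; exact measure_union_le _ _
    rw [h0, zero_add, measure_univ] at h1
    have h2 := h1.trans hKν
    rw [ENNReal.one_le_ofReal] at h2
    norm_num at h2
  set T1 : ℝ := max T0 (max (128 / δ0) 1) with hT1
  have hT1a : T0 ≤ T1 := le_max_left _ _
  have hT1b : 128 / δ0 ≤ T1 := (le_max_left _ _).trans (le_max_right _ _)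
  have hT1c : 1 ≤ T1 := (le_max_right _ _).trans (le_max_right _ _)
  set r0 : ℝ := min (δ0 / 16) (1 / (2 * (1 + T1) ^ 2)) with hr0
  have hr0pos : 0 < r0 := lt_min (by positivity) (by positivity)
  have hr0a : r0 ≤ δ0 / 16 := min_le_left _ _
  have hr0b : r0 * (1 + T1) ^ 2 ≤ 1 / 2 := by
    have : r0 ≤ 1 / (2 * (1 + T1) ^ 2) := min_le_right _ _
    calc r0 * (1 + T1) ^ 2 ≤ 1 / (2 * (1 + T1) ^ 2) * (1 + T1) ^ 2 := by gcongr
      _ = 1 / 2 := by
        have : (1 + T1) ≠ 0 := by positivity
        field_simp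
  refine ⟨r0, hr0pos, fun x y w hxy hxwy hw => ?_⟩
  by_contra hne
  obtain ⟨w1, w2, w3, w4⟩ := nrm_le_iff.1 hw
  have hδ01 : δ0 ≤ 1 := min_le_right _ _
  by_cases hcase : w 1 0 = 0 ∧ w 1 1 = w 0 0
  · -- w is unipotent
    have hdet := G_det w
    rw [hcase.1, hcase.2] at hdet
    have h00 : w 0 0 = 1 := by
      have h1 : (w 0 0 - 1) * (w 0 0 + 1) = 0 := by linarith
      rcases mul_eq_zero.1 h1 with h | h
      · linarith
      · exfalso
        have := abs_le.1 w1
        linarith [this.1]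
    have hwu : w = u (w 0 1) := by
      apply G_ext
      · simp [h00]
      · simp
      · simp [hcase.1]
      · simp [hcase.2, h00]
    have hb : w 0 1 ≠ 0 := by
      intro h0
      apply hne
      rw [hwu, h0]; simp
    have g1 := (hK _ hxy).1
    have g2 := (hK _ hxwy).1
    have g3 : GenPt (ν.map (act2 (u (w 0 1)))) (act2 (u (w 0 1)) (x, y)) :=
      genPt_map (ν := ν) (act2H (X := X) (u (w 0 1))) 1 one_pos
        (fun s z => by rw [one_mul]; exact u_act2 s (w 0 1) z) g1
    have e : act2 (u (w 0 1)) (x, y) = (x, w • y) := by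
      rw [← hwu]; rfl
    rw [e] at g3
    have : IsProbabilityMeasure (ν.map (act2 (u (w 0 1)))) :=
      Measure.isProbabilityMeasure_map (measurable_act2 _).aemeasurable
    exact hp (join_prod m hj hb (genPt_unique g3 g2))
  · -- shearing
    have hne' : w 1 1 - w 0 0 ≠ 0 ∨ - w 1 0 ≠ 0 := by
      by_contra h
      push Not at h
      exact hcase ⟨neg_eq_zero.1 h.2, sub_eq_zero.1 h.1⟩
    have hr0c : r0 < 1 := lt_of_le_of_lt hr0a (by linarith)
    obtain ⟨T, hTpos, hT1eq, hTle⟩ := first_time (w 0 1) (w 1 1 - w 0 0) (- w 1 0)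
      (lt_of_le_of_lt w3 hr0c) hne'
    set b : ℝ → ℝ := fun s => w 0 1 + (w 1 1 - w 0 0) * s + (- w 1 0) * s ^ 2 with hb
    have hbT : |b T| = 1 := hT1eq
    obtain ⟨-, q1, q2⟩ := quad_coef _ _ _ T 1 hTpos hTle
    have hTlarge : T1 < T := by
      by_contra hc
      push Not at hc
      have h1 : |b T| ≤ r0 + 2 * r0 * T + r0 * T ^ 2 := by
        have a1 := abs_le.1 w1
        have a2 := abs_le.1 w2
        have a3 := abs_le.1 w3
        have a4 := abs_le.1 w4
        have hT2 : 0 ≤ T ^ 2 := by positivity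
        rw [hb, abs_le]
        constructor
        · have b1 : -(2 * r0) * T ≤ (w 1 1 - w 0 0) * T := by
            apply mul_le_mul_of_nonneg_right _ hTpos.le; linarith [a1.2, a2.1]
          have b2 : -r0 * T ^ 2 ≤ (- w 1 0) * T ^ 2 := by
            apply mul_le_mul_of_nonneg_right _ hT2; linarith [a4.2]
          simp only
          linarith [a3.1]
        · have b1 : (w 1 1 - w 0 0) * T ≤ (2 * r0) * T := by
            apply mul_le_mul_of_nonneg_right _ hTpos.le; linarith [a1.1, a2.2]
          have b2 : (- w 1 0) * T ^ 2 ≤ r0 * T ^ 2 := by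
            apply mul_le_mul_of_nonneg_right _ hT2; linarith [a4.1]
          simp only
          linarith [a3.2]
      have h2 : r0 + 2 * r0 * T + r0 * T ^ 2 ≤ r0 * (1 + T1) ^ 2 := by
        have : r0 + 2 * r0 * T + r0 * T ^ 2 = r0 * (1 + T) ^ 2 := by ring
        rw [this]
        have : 0 ≤ 1 + T := by positivity
        gcongr
      rw [hbT] at h1
      linarith
    have hTinv : 1 / T ≤ δ0 / 128 := by
      rw [div_le_div_iff₀ hTpos (by norm_num)]
      have : 128 / δ0 ≤ T := hT1b.trans hTlarge.le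
      rw [div_le_iff₀ hδ0'] at this
      linarith
    have q1' : |w 1 1 - w 0 0| * T ≤ 8 := by
      rw [le_div_iff₀ hTpos] at q1; linarith
    have q2' : |w 1 0| * T ^ 2 ≤ 8 := by
      rw [abs_neg, le_div_iff₀ (by positivity)] at q2; linarith
    -- closeness on the window
    have hclose : ∀ s ∈ Icc T ((1 + θ) * T),
        nrm (u s * w * u (-s) * u (-(b T))) < δ0 := by
      intro s hs
      have hs0 : 0 < s := hTpos.trans_le hs.1
      have hs2 : s ≤ 2 * T := hs.2.trans (by nlinarith)
      have hsT : s - T ≤ θ * T := by linarith [hs.2]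
      have hsT0 : 0 ≤ s - T := by linarith [hs.1]
      have k1 : |s * w 1 0| ≤ 16 * (1 / T) := by
        rw [abs_mul, abs_of_pos hs0]
        calc s * |w 1 0| ≤ 2 * T * |w 1 0| := by gcongr
          _ = 2 * (|w 1 0| * T ^ 2) * (1 / T) := by field_simp
          _ ≤ 2 * 8 * (1 / T) := by gcongr
          _ = 16 * (1 / T) := by norm_num
      have k2 : |b s - b T| ≤ 32 * θ := by
        have e1 : b s - b T = (w 1 1 - w 0 0) * (s - T) - w 1 0 * ((s - T) * (s + T)) := by
          simp only [hb]; ring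
        rw [e1]
        refine (abs_sub _ _).trans ?_
        rw [abs_mul, abs_mul, abs_of_nonneg hsT0,
          abs_of_nonneg (show 0 ≤ (s - T) * (s + T) by positivity)]
        have m1 : |w 1 1 - w 0 0| * (s - T) ≤ 8 * θ := by
          calc |w 1 1 - w 0 0| * (s - T) ≤ |w 1 1 - w 0 0| * (θ * T) := by gcongr
            _ = (|w 1 1 - w 0 0| * T) * θ := by ring
            _ ≤ 8 * θ := by gcongr
        have m2 : |w 1 0| * ((s - T) * (s + T)) ≤ 24 * θ := by
          calc |w 1 0| * ((s - T) * (s + T)) ≤ |w 1 0| * ((θ * T) * (3 * T)) := by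
                gcongr; linarith
            _ = 3 * (|w 1 0| * T ^ 2) * θ := by ring
            _ ≤ 3 * 8 * θ := by gcongr
            _ = 24 * θ := by norm_num
        linarith
      have hβ := hbT
      have hbs : w 0 1 + s * (w 1 1 - w 0 0) - s ^ 2 * w 1 0 = b s := by simp only [hb]; ring
      set W := u s * w * u (-s) with hW
      have W00 : W 0 0 = w 0 0 + s * w 1 0 := conj00 s w
      have W01 : W 0 1 = b s := by rw [← hbs]; exact conj01 s w
      have W10 : W 1 0 = w 1 0 := conj10 s w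
      have W11 : W 1 1 = w 1 1 - s * w 1 0 := conj11 s w
      have v00 : |w 0 0 + s * w 1 0 - 1| ≤ r0 + 16 * (1 / T) := by
        have : w 0 0 + s * w 1 0 - 1 = (w 0 0 - 1) + s * w 1 0 := by ring
        rw [this]
        exact (abs_add_le _ _).trans (add_le_add w1 k1)
      have v11 : |w 1 1 - s * w 1 0 - 1| ≤ r0 + 16 * (1 / T) := by
        have : w 1 1 - s * w 1 0 - 1 = (w 1 1 - 1) - s * w 1 0 := by ring
        rw [this]
        exact (abs_sub _ _).trans (add_le_add w2 k1)
      rw [nrm_lt_iff]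
      refine ⟨?_, ?_, ?_, ?_⟩
      · simp only [mul00, u00, u10, mul_one, mul_zero, add_zero]
        rw [W00]
        refine lt_of_le_of_lt v00 ?_
        linarith
      · simp only [mul11, u01, u11, mul_one]
        rw [W10, W11]
        have : w 1 0 * -(b T) + (w 1 1 - s * w 1 0) - 1 =
            (w 1 1 - s * w 1 0 - 1) - w 1 0 * b T := by ring
        rw [this]
        refine lt_of_le_of_lt (abs_sub _ _) ?_
        rw [abs_mul, hβ, mul_one]
        linarith
      · simp only [mul01, u01, u11, mul_one]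
        rw [W00, W01]
        have : (w 0 0 + s * w 1 0) * -(b T) + b s =
            (b s - b T) - (w 0 0 + s * w 1 0 - 1) * b T := by ring
        rw [this]
        refine lt_of_le_of_lt (abs_sub _ _) ?_
        rw [abs_mul, hβ, mul_one]
        have : 32 * θ = δ0 / 4 := by rw [hθ]; ring
        linarith
      · simp only [mul10, u00, u10, mul_one, mul_zero, add_zero]
        rw [W10]
        linarith
    -- the contradiction
    have hmain : ∀ (f : X × X → ℝ) (β : ℝ), β = b T → Cc f →
        (∀ g h : G, nrm g < δ0 → nrm h < δ0 → ∀ z : X × X, |f (g • z.1, h • z.2) - f z| ≤ κ / 4) →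
        (∀ T ≥ T0, |avg f T (x, w • y) - ∫ z, f z ∂ν| ≤ δ) →
        (∀ T ≥ T0, |avg (fun z => f (act2 (u β) z)) T (x, y) -
          ∫ z, f (act2 (u β) z) ∂ν| ≤ δ) →
        |(∫ z, f (act2 (u β) z) ∂ν) - ∫ z, f z ∂ν| ≤ κ / 2 := by
      intro f β hβ hf hu h1 h2
      have hTT0 : T0 ≤ T := hT1a.trans hTlarge.le
      have i1 := window_avg hf.1 hT0 hTT0 hθ0 hθ1 h1
      have i2 := window_avg (cc_act2 hf (u β)).1 hT0 hTT0 hθ0 hθ1 h2
      have hTle : T ≤ (1 + θ) * T := by nlinarith
      have c1 : Continuous fun s : ℝ => f (u s • (x, w • y)) :=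
        hf.1.comp (continuous_u.smul continuous_const)
      have c2 : Continuous fun s : ℝ => f (act2 (u β) (u s • (x, y))) :=
        (cc_act2 hf (u β)).1.comp (continuous_u.smul continuous_const)
      have i3 : |(∫ s in T..((1 + θ) * T), f (u s • (x, w • y))) -
          ∫ s in T..((1 + θ) * T), f (act2 (u β) (u s • (x, y)))| ≤ κ / 4 * (θ * T) := by
        rw [← intervalIntegral.integral_sub (c1.intervalIntegrable _ _)
          (c2.intervalIntegrable _ _)]
        have := intervalIntegral.norm_integral_le_of_norm_le_const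
          (a := T) (b := (1 + θ) * T) (C := κ / 4)
          (f := fun s => f (u s • (x, w • y)) - f (act2 (u β) (u s • (x, y)))) (fun s hs => by
            rw [uIoc_of_le hTle] at hs
            have hs' : s ∈ Icc T ((1 + θ) * T) := ⟨hs.1.le, hs.2⟩
            have hcl := hclose s hs'
            have h3 := hu 1 (u s * w * u (-s) * u (-(b T))) (by simpa using hδ0') hcl
              (act2 (u β) (u s • (x, y)))
            have e1 : u s • (x, w • y) = ((1 : G) • (act2 (u β) (u s • (x, y))).1,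
                (u s * w * u (-s) * u (-(b T))) • (act2 (u β) (u s • (x, y))).2) := by
              refine Prod.ext ?_ ?_
              · simp [act2]
              · simp only [act2, Prod.smul_mk]
                rw [← mul_smul, ← mul_smul, ← mul_smul, hβ]
                congr 1
                rw [mul_assoc (u s * w * u (-s)) (u (-(b T))) (u (b T)), u_neg_mul, mul_one,
                  mul_assoc (u s * w), u_neg_mul, mul_one]
            rw [Real.norm_eq_abs, e1]
            exact h3)
        rw [Real.norm_eq_abs, abs_of_nonneg (by nlinarith : 0 ≤ (1 + θ) * T - T)] at this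
        calc _ ≤ κ / 4 * ((1 + θ) * T - T) := this
          _ = κ / 4 * (θ * T) := by ring
      have hθT : 0 < θ * T := by positivity
      have hδT : 3 * δ * T = κ / 8 * (θ * T) := by rw [hδ]; ring
      rw [hδT] at i1 i2
      have j1 := abs_le.1 i1
      have j2 := abs_le.1 i2
      have j3 := abs_le.1 i3
      have key : θ * T * |(∫ z, f (act2 (u β) z) ∂ν) - ∫ z, f z ∂ν| ≤ θ * T * (κ / 2) := by
        rw [← abs_of_pos hθT, ← abs_mul, abs_of_pos hθT, abs_le]
        constructor
        · linarith [j1.1, j1.2, j2.1, j2.2, j3.1, j3.2]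
        · linarith [j1.1, j1.2, j2.1, j2.2, j3.1, j3.2]
      exact le_of_mul_le_mul_left key hθT
    rcases eq_or_eq_neg_of_abs_eq hbT with hβ | hβ
    · have h1 := hmain f1 1 hβ.symm hf1
        (fun g h hg' hh' z => huc1 g h
          (hg'.trans_le ((min_le_left _ _).trans (min_le_left _ _)))
          (hh'.trans_le ((min_le_left _ _).trans (min_le_left _ _))) z)
        (fun T hT => (hK _ hxwy).2 T hT _ (by simp))
        (fun T hT => (hK _ hxy).2 T hT _ (by simp))
      have h2 : κ ≤ |(∫ z, f1 (act2 (u 1) z) ∂ν) - ∫ z, f1 z ∂ν| := min_le_left _ _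
      linarith
    · have h1 := hmain f2 (-1) hβ.symm hf2
        (fun g h hg' hh' z => huc2 g h
          (hg'.trans_le ((min_le_left _ _).trans (min_le_right _ _)))
          (hh'.trans_le ((min_le_left _ _).trans (min_le_right _ _))) z)
        (fun T hT => (hK _ hxwy).2 T hT _ (by simp))
        (fun T hT => (hK _ hxy).2 T hT _ (by simp))
      have h2 : κ ≤ |(∫ z, f2 (act2 (u (-1)) z) ∂ν) - ∫ z, f2 z ∂ν| := min_le_right _ _
      linarith

end Pool.Agent.Work.MP_c9c104_nt
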