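import Pool.Agent.Work.MP_c9c104_nt.Defs

/-!
Exponential sums by linearization on short blocks.
-/

open MeasureTheory Filter Topology Set ProbabilityTheory
open scoped ENNReal NNReal

namespace Pool.Agent.Work.MP_c9c104_nt

variable {X : Type} [TopologicalSpace X] [MeasurableSpace X] [MulAction G X] [HomSp X]
variable {Z : Type} [TopologicalSpace Z] [MeasurableSpace Z] [MulAction G Z] [PhSp Z]

/-- distance to the nearest integer -/
noncomputable def dZ (x : ℝ) : ℝ := |x - round x|

theorem dZ_nonneg (x : ℝ) : 0 ≤ dZ x := abs_nonneg _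

/-- the unit circle character -/
noncomputable def ee (x : ℝ) : ℂ := Complex.exp (2 * Real.pi * Complex.I * (x : ℝ))

theorem ee_add (x y : ℝ) : ee (x + y) = ee x * ee y := by
  unfold ee
  rw [← Complex.exp_add]
  congr 1
  push_cast
  ring

theorem ee_norm (x : ℝ) : ‖ee x‖ = 1 := by
  unfold ee
  rw [show (2 * Real.pi * Complex.I * (x : ℝ) : ℂ) = ((2 * Real.pi * x : ℝ) : ℂ) * Complex.I by
    push_cast; ring]
  exact Complex.norm_exp_ofReal_mul_I _

theorem ee_sub_one (x : ℝ) : ‖ee x - 1‖ = 2 * |Real.sin (Real.pi * x)| := by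
  unfold ee
  rw [show (2 * Real.pi * Complex.I * (x : ℝ) : ℂ) = Complex.I * ((2 * Real.pi * x : ℝ) : ℂ) by
    push_cast; ring]
  rw [Complex.norm_exp_I_mul_ofReal_sub_one]
  rw [show 2 * Real.pi * x / 2 = Real.pi * x by ring, Real.norm_eq_abs, abs_mul]
  norm_num

theorem ee_sub_one_le (x : ℝ) : ‖ee x - 1‖ ≤ 2 * Real.pi * |x| := by
  rw [ee_sub_one]
  have h := Real.abs_sin_le_abs (x := Real.pi * x)
  rw [abs_mul, abs_of_pos Real.pi_pos] at h
  nlinarith

theorem ee_sub_one_ge (x : ℝ) : 4 * dZ x ≤ ‖ee x - 1‖ := by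
  rw [ee_sub_one]
  have h0 : |Real.sin (Real.pi * x)| = Real.sin (Real.pi * dZ x) := by
    have h1 : Real.sin (Real.pi * (x - round x)) = (-1) ^ (round x) * Real.sin (Real.pi * x) := by
      rw [mul_sub, mul_comm Real.pi (round x : ℝ)]
      exact Real.sin_sub_int_mul_pi _ _
    have h2 : |Real.sin (Real.pi * (x - round x))| = |Real.sin (Real.pi * x)| := by
      rw [h1, abs_mul, abs_zpow, abs_neg, abs_one, one_zpow, one_mul]
    rw [← h2]
    unfold dZ
    rcases abs_cases (x - round x) with ⟨h3, h4⟩ | ⟨h3, h4⟩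
    · rw [h3]
      apply abs_of_nonneg
      apply Real.sin_nonneg_of_nonneg_of_le_pi
      · exact mul_nonneg Real.pi_pos.le h4
      · have := abs_sub_round x
        rw [h3] at this
        nlinarith [Real.pi_pos]
    · rw [h3, mul_neg, Real.sin_neg]
      apply abs_of_nonpos
      apply Real.sin_nonpos_of_nonpos_of_neg_pi_le
      · exact mul_nonpos_of_nonneg_of_nonpos Real.pi_pos.le h4.le
      · have := abs_sub_round x
        rw [h3] at this
        nlinarith [Real.pi_pos]
  rw [h0]
  have h5 : dZ x ≤ 1 / 2 := abs_sub_round x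
  have h6 := Real.mul_le_sin (x := Real.pi * dZ x) (mul_nonneg Real.pi_pos.le (dZ_nonneg x))
    (by nlinarith [Real.pi_pos])
  have h7 : 2 / Real.pi * (Real.pi * dZ x) = 2 * dZ x := by
    field_simp
  rw [h7] at h6
  linarith

theorem ee_nat_mul (k : ℕ) (s : ℝ) : ee (k * s) = ee s ^ k := by
  unfold ee
  rw [← Complex.exp_nat_mul]
  congr 1
  push_cast
  ring

theorem geom_bound (L : ℕ) (hL : 0 < L) (s : ℝ) :
    ‖∑ k ∈ Finset.range L, ee (k * s)‖ ≤ L * (1 / max 1 (L * dZ s)) := by
  have hL' : (0 : ℝ) < L := by exact_mod_cast hL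
  have htriv : ‖∑ k ∈ Finset.range L, ee (k * s)‖ ≤ L := by
    refine (norm_sum_le _ _).trans ?_
    simp [ee_norm]
  rcases le_or_gt (L * dZ s) 1 with h | h
  · rw [max_eq_left h]
    simpa using htriv
  · rw [max_eq_right h.le]
    have hd : 0 < dZ s := by
      by_contra hc
      have : dZ s = 0 := le_antisymm (not_lt.mp hc) (dZ_nonneg s)
      rw [this] at h
      norm_num at h
    have h1 : ee s ≠ 1 := by
      intro h2
      have := ee_sub_one_ge s
      rw [h2, sub_self, norm_zero] at this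
      linarith
    have h3 : ∑ k ∈ Finset.range L, ee (k * s) = (ee s ^ L - 1) / (ee s - 1) := by
      rw [← geom_sum_eq h1]
      exact Finset.sum_congr rfl (fun k _ => ee_nat_mul k s)
    rw [h3, norm_div]
    have h4 : ‖ee s ^ L - 1‖ ≤ 2 := by
      refine (norm_sub_le _ _).trans ?_
      rw [norm_pow, ee_norm]
      norm_num
    have h5 := ee_sub_one_ge s
    have h6 : ‖ee s ^ L - 1‖ / ‖ee s - 1‖ ≤ 2 / (4 * dZ s) := by
      apply div_le_div₀ (by norm_num) h4 (by positivity) h5
    refine h6.trans ?_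
    rw [show (L : ℝ) * (1 / (L * dZ s)) = 1 / dZ s by field_simp]
    rw [div_le_div_iff₀ (by positivity) hd]
    nlinarith

theorem block_bound (N L : ℕ) (hL : 0 < L) (w : ℕ → ℂ) (hw : ∀ n, ‖w n‖ ≤ 1) (F s : ℕ → ℝ)
    {ε : ℝ} (hε : 0 ≤ ε)
    (h : ∀ n ∈ Finset.Icc 1 N, (∀ k < L, w (n + k) = 0) ∨
      ((∀ k < L, ‖w (n + k) - w n‖ ≤ ε) ∧ ∀ k < L, |F (n + k) - F n - k * s n| ≤ ε)) :
    ‖∑ n ∈ Finset.Icc 1 N, w n * Complex.exp (2 * Real.pi * Complex.I * (F n : ℝ))‖ ≤
      2 * L + 10 * ε * N + ∑ n ∈ (Finset.Icc 1 N).filter (fun n => ∃ k < L, w (n + k) ≠ 0),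
        1 / max 1 (L * dZ (s n)) := by
  classical
  have hL' : (0 : ℝ) < L := by exact_mod_cast hL
  set c : ℕ → ℂ := fun n => w n * ee (F n) with hc
  have hcn : ∀ n, ‖c n‖ ≤ 1 := by
    intro n
    rw [hc]
    simp only [norm_mul, ee_norm, mul_one]
    exact hw n
  change ‖∑ n ∈ Finset.Icc 1 N, c n‖ ≤ _
  -- the inner sums
  have hinner : ∀ n ∈ Finset.Icc 1 N, ‖∑ k ∈ Finset.range L, c (n + k)‖ ≤
      L * (10 * ε) + if (∃ k < L, w (n + k) ≠ 0) then L * (1 / max 1 (L * dZ (s n))) else 0 := by
    intro n hn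
    by_cases hz : ∃ k < L, w (n + k) ≠ 0
    · rw [if_pos hz]
      rcases h n hn with h0 | ⟨h1, h2⟩
      · obtain ⟨k, hk, hk'⟩ := hz
        exact absurd (h0 k hk) hk'
      · have key : ∀ k ∈ Finset.range L, ‖c (n + k) - c n * ee (k * s n)‖ ≤ 10 * ε := by
          intro k hk
          have hk' := Finset.mem_range.mp hk
          have e1 : c (n + k) - c n * ee (k * s n) =
              (w (n + k) - w n) * ee (F (n + k)) +
                w n * ee (F n) * ee (k * s n) * (ee (F (n + k) - F n - k * s n) - 1) := by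
            have e2 : ee (F (n + k)) = ee (F n) * ee (k * s n) * ee (F (n + k) - F n - k * s n) := by
              rw [← ee_add, ← ee_add]
              congr 1
              ring
            rw [hc]
            simp only
            rw [e2]
            ring
          rw [e1]
          refine (norm_add_le _ _).trans ?_
          rw [norm_mul, norm_mul, norm_mul, norm_mul, ee_norm, ee_norm, ee_norm]
          have e3 := h1 k hk'
          have e4 := ee_sub_one_le (F (n + k) - F n - k * s n)
          have e5 := h2 k hk'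
          have e6 : 2 * Real.pi * |F (n + k) - F n - k * s n| ≤ 2 * 4 * ε := by
            have := Real.pi_le_four
            have := abs_nonneg (F (n + k) - F n - k * s n)
            nlinarith [Real.pi_pos]
          have e7 := hw n
          have e8 := norm_nonneg (ee (F (n + k) - F n - k * s n) - 1)
          nlinarith
        have hsum : ∑ k ∈ Finset.range L, c (n + k) =
            ∑ k ∈ Finset.range L, (c (n + k) - c n * ee (k * s n)) +
              c n * ∑ k ∈ Finset.range L, ee (k * s n) := by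
          rw [Finset.mul_sum, ← Finset.sum_add_distrib]
          exact Finset.sum_congr rfl (fun k _ => by ring)
        rw [hsum]
        refine (norm_add_le _ _).trans (add_le_add ?_ ?_)
        · refine (norm_sum_le _ _).trans ((Finset.sum_le_sum key).trans ?_)
          simp
        · rw [norm_mul]
          have g1 := geom_bound L hL (s n)
          have g2 := hcn n
          have g3 := norm_nonneg (∑ k ∈ Finset.range L, ee (k * s n))
          nlinarith [norm_nonneg (c n)]
    · rw [if_neg hz]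
      have hz' : ∀ k < L, w (n + k) = 0 := by
        intro k hk
        by_contra hne
        exact hz ⟨k, hk, hne⟩
      have h0 : ∑ k ∈ Finset.range L, c (n + k) = 0 := by
        apply Finset.sum_eq_zero
        intro k hk
        rw [hc]
        simp only
        rw [hz' k (Finset.mem_range.mp hk), zero_mul]
      rw [h0, norm_zero]
      positivity
  -- sliding
  have hslide : ∀ k : ℕ, ‖∑ n ∈ Finset.Icc 1 N, c n - ∑ n ∈ Finset.Icc 1 N, c (n + k)‖ ≤ 2 * k := by
    intro k
    induction k with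
    | zero => simp
    | succ k ih =>
      have e1 : ∑ n ∈ Finset.Icc 1 N, c (n + k) - ∑ n ∈ Finset.Icc 1 N, c (n + (k + 1)) =
          c (1 + k) - c (N + 1 + k) := by
        have : ∀ M : ℕ, ∑ n ∈ Finset.Icc 1 M, c (n + k) - ∑ n ∈ Finset.Icc 1 M, c (n + (k + 1)) =
          c (1 + k) - c (M + 1 + k) := by
          intro M
          induction M with
          | zero => simp
          | succ M ihM =>
            rw [Finset.sum_Icc_succ_top (by omega), Finset.sum_Icc_succ_top (by omega)]
            have e9 : c (M + 1 + (k + 1)) = c (M + 1 + 1 + k) := by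
              congr 1; omega
            rw [e9]
            linear_combination ihM
        exact this N
      have e2 : ∑ n ∈ Finset.Icc 1 N, c n - ∑ n ∈ Finset.Icc 1 N, c (n + (k + 1)) =
          (∑ n ∈ Finset.Icc 1 N, c n - ∑ n ∈ Finset.Icc 1 N, c (n + k)) +
            (c (1 + k) - c (N + 1 + k)) := by
        rw [← e1]; ring
      rw [e2]
      refine (norm_add_le _ _).trans ?_
      have e3 : ‖c (1 + k) - c (N + 1 + k)‖ ≤ 2 := by
        refine (norm_sub_le _ _).trans ?_
        have := hcn (1 + k)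
        have := hcn (N + 1 + k)
        linarith
      push_cast
      linarith
  have htot : (L : ℂ) * ∑ n ∈ Finset.Icc 1 N, c n =
      ∑ k ∈ Finset.range L, (∑ n ∈ Finset.Icc 1 N, c n - ∑ n ∈ Finset.Icc 1 N, c (n + k)) +
        ∑ n ∈ Finset.Icc 1 N, ∑ k ∈ Finset.range L, c (n + k) := by
    rw [Finset.sum_comm (s := Finset.Icc 1 N), Finset.sum_sub_distrib]
    simp
  have hnorm : (L : ℝ) * ‖∑ n ∈ Finset.Icc 1 N, c n‖ ≤ (L : ℝ) * (2 * L) +
      ∑ n ∈ Finset.Icc 1 N, (L * (10 * ε) +
        if (∃ k < L, w (n + k) ≠ 0) then L * (1 / max 1 (L * dZ (s n))) else 0) := by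
    have e1 : (L : ℝ) * ‖∑ n ∈ Finset.Icc 1 N, c n‖ = ‖(L : ℂ) * ∑ n ∈ Finset.Icc 1 N, c n‖ := by
      rw [norm_mul, Complex.norm_natCast]
    rw [e1, htot]
    refine (norm_add_le _ _).trans (add_le_add ?_ ?_)
    · refine (norm_sum_le _ _).trans ?_
      have : ∀ k ∈ Finset.range L,
          ‖∑ n ∈ Finset.Icc 1 N, c n - ∑ n ∈ Finset.Icc 1 N, c (n + k)‖ ≤ 2 * L := by
        intro k hk
        refine (hslide k).trans ?_
        have : (k : ℝ) ≤ L := by exact_mod_cast (Finset.mem_range.mp hk).le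
        linarith
      refine (Finset.sum_le_sum this).trans ?_
      simp
    · exact (norm_sum_le _ _).trans (Finset.sum_le_sum hinner)
  rw [Finset.sum_add_distrib, ← Finset.sum_filter, ← Finset.mul_sum] at hnorm
  have hfin : (L : ℝ) * ‖∑ n ∈ Finset.Icc 1 N, c n‖ ≤ (L : ℝ) * (2 * L + 10 * ε * N +
      ∑ n ∈ (Finset.Icc 1 N).filter (fun n => ∃ k < L, w (n + k) ≠ 0),
        1 / max 1 (L * dZ (s n))) := by
    refine hnorm.trans (le_of_eq ?_)
    simp only [Finset.sum_const, Nat.card_Icc, add_tsub_cancel_right, nsmul_eq_mul]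
    rw [← Finset.mul_sum]
    ring
  exact le_of_mul_le_mul_left hfin hL'

end Pool.Agent.Work.MP_c9c104_nt
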