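import Pool.Agent.Work.MP_c9c104_nt.TCBlock

/-!
Correlations of the phases on closed horocycles.
-/

open MeasureTheory Filter Topology Set ProbabilityTheory
open scoped ENNReal NNReal

namespace Pool.Agent.Work.MP_c9c104_nt

variable {X : Type} [TopologicalSpace X] [MeasurableSpace X] [MulAction G X] [HomSp X]
variable {Z : Type} [TopologicalSpace Z] [MeasurableSpace Z] [MulAction G Z] [PhSp Z]

/-! ### the slope -/

private noncomputable def sl (J p q α t : ℝ) : ℝ :=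
  J * (α ^ 2 - p * q * t ^ 2) / ((α + p * t) ^ 2 * (α + q * t) ^ 2)

private theorem taylor (J p q : ℝ) {R κ : ℝ} (hR : 0 ≤ R) (hκ : 0 < κ) :
    ∃ C : ℝ, 0 ≤ C ∧ ∀ α c x h : ℝ, |α| ≤ R → |x * c| ≤ R → |h * c| ≤ R →
      κ ≤ |α + p * x * c| → κ ≤ |α + q * x * c| → κ ≤ |α + p * (x + h) * c| →
      κ ≤ |α + q * (x + h) * c| →
      |J * (x + h) / ((α + p * (x + h) * c) * (α + q * (x + h) * c)) -
        J * x / ((α + p * x * c) * (α + q * x * c)) - h * sl J p q α (x * c)| ≤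
          C * h ^ 2 * |c| := by
  refine ⟨|J| / κ ^ 2 * (|p| * |q| * R / κ ^ 2 + (R ^ 2 + |p| * |q| * R ^ 2) *
    (|p| * (R + |q| * R) + |q| * (R + |p| * R) + |p| * |q| * R) / κ ^ 4), by positivity, ?_⟩
  intro α c x h hα hx hh h1 h2 h3 h4
  set D := α + p * x * c with hD
  set E := α + q * x * c with hE
  set D' := α + p * (x + h) * c with hD'
  set E' := α + q * (x + h) * c with hE'
  have d1 : D ≠ 0 := fun h => by rw [h, abs_zero] at h1; linarith
  have d2 : E ≠ 0 := fun h => by rw [h, abs_zero] at h2; linarith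
  have d3 : D' ≠ 0 := fun h => by rw [h, abs_zero] at h3; linarith
  have d4 : E' ≠ 0 := fun h => by rw [h, abs_zero] at h4; linarith
  have key : J * (x + h) / (D' * E') - J * x / (D * E) - h * sl J p q α (x * c) =
      -(h ^ 2 * c) * (J / (D * E) * (p * q * (x * c) / (D' * E') +
        (α ^ 2 - p * q * (x * c) ^ 2) * (p * E + q * D + p * q * (h * c)) /
          ((D * E) * (D' * E')))) := by
    have hs : sl J p q α (x * c) = J * (α ^ 2 - p * q * (x * c) ^ 2) / (D ^ 2 * E ^ 2) := by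
      unfold sl
      rw [show α + p * (x * c) = D by rw [hD]; ring, show α + q * (x * c) = E by rw [hE]; ring]
    rw [hs]
    field_simp
    rw [hD, hE, hD', hE']
    ring
  rw [key, abs_mul, abs_neg, abs_mul, abs_pow, sq_abs]
  have b1 : |D| ≤ R + |p| * R := by
    calc |D| ≤ |α| + |p * (x * c)| := by
          rw [hD, show α + p * x * c = α + p * (x * c) by ring]; exact abs_add_le _ _
      _ ≤ R + |p| * R := by
          rw [abs_mul]; gcongr
  have b2 : |E| ≤ R + |q| * R := by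
    calc |E| ≤ |α| + |q * (x * c)| := by
          rw [hE, show α + q * x * c = α + q * (x * c) by ring]; exact abs_add_le _ _
      _ ≤ R + |q| * R := by
          rw [abs_mul]; gcongr
  have c1 : κ ^ 2 ≤ |D * E| := by
    rw [abs_mul, sq]; gcongr
  have c2 : κ ^ 2 ≤ |D' * E'| := by
    rw [abs_mul, sq]; gcongr
  have c3 : κ ^ 4 ≤ |(D * E) * (D' * E')| := by
    rw [abs_mul, show κ ^ 4 = κ ^ 2 * κ ^ 2 by ring]; gcongr
  have e1 : |p * q * (x * c) / (D' * E')| ≤ |p| * |q| * R / κ ^ 2 := by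
    rw [abs_div, abs_mul, abs_mul p q]
    gcongr
  have e2 : |(α ^ 2 - p * q * (x * c) ^ 2) * (p * E + q * D + p * q * (h * c)) /
          ((D * E) * (D' * E'))| ≤ (R ^ 2 + |p| * |q| * R ^ 2) *
    (|p| * (R + |q| * R) + |q| * (R + |p| * R) + |p| * |q| * R) / κ ^ 4 := by
    rw [abs_div, abs_mul]
    gcongr
    · calc |α ^ 2 - p * q * (x * c) ^ 2| ≤ |α ^ 2| + |p * q * (x * c) ^ 2| := abs_sub _ _
        _ ≤ R ^ 2 + |p| * |q| * R ^ 2 := by
          rw [abs_mul, abs_mul p q, abs_pow, abs_pow]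
          gcongr
    · calc |p * E + q * D + p * q * (h * c)| ≤ |p * E + q * D| + |p * q * (h * c)| :=
            abs_add_le _ _
        _ ≤ (|p * E| + |q * D|) + |p * q * (h * c)| := by gcongr; exact abs_add_le _ _
        _ ≤ _ := by
          rw [abs_mul, abs_mul q D, abs_mul, abs_mul p q]
          gcongr
  have e3 : |J / (D * E) * (p * q * (x * c) / (D' * E') +
        (α ^ 2 - p * q * (x * c) ^ 2) * (p * E + q * D + p * q * (h * c)) /
          ((D * E) * (D' * E')))| ≤ |J| / κ ^ 2 * (|p| * |q| * R / κ ^ 2 +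
      (R ^ 2 + |p| * |q| * R ^ 2) *
    (|p| * (R + |q| * R) + |q| * (R + |p| * R) + |p| * |q| * R) / κ ^ 4) := by
    rw [abs_mul, abs_div]
    gcongr
    exact (abs_add_le _ _).trans (add_le_add e1 e2)
  refine (mul_le_mul_of_nonneg_left e3 (by positivity)).trans_eq ?_
  ring

private theorem dZ_ge {x : ℝ} {m : ℤ} (h : |x - m| ≤ 1 / 2) : |x - m| ≤ dZ x := by
  unfold dZ
  by_cases hr : round x = m
  · rw [hr]
  · have h1 : (1 : ℝ) ≤ |(round x : ℝ) - m| := by
      have h2 : (1 : ℤ) ≤ |round x - m| := Int.one_le_abs (sub_ne_zero.2 hr)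
      exact_mod_cast h2
    have h3 : |(round x : ℝ) - m| ≤ |x - round x| + |x - m| := by
      have : (round x : ℝ) - m = -(x - round x) + (x - m) := by ring
      rw [this]
      refine (abs_add_le _ _).trans ?_
      rw [abs_neg]
    linarith

private theorem dZ_eq_norm (x : ℝ) : dZ x = ‖(x : UnitAddCircle)‖ := by
  rw [UnitAddCircle.norm_eq]; rfl

private theorem continuous_dZ : Continuous dZ := by
  have : dZ = fun x : ℝ => ‖(x : UnitAddCircle)‖ := funext dZ_eq_norm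
  rw [this]
  exact continuous_norm.comp (AddCircle.continuous_mk' _)


/-! ### counting -/

private theorem count_one {N N' : ℕ} (hN : 0 < N) (z : ℝ) {ρ : ℝ} (hρ : 0 ≤ ρ) :
    (((Finset.Icc 1 N').filter (fun n : ℕ => |(n : ℝ) / N - z| < ρ)).card : ℝ) ≤
      2 * ρ * N + 1 := by
  have hN' : (0 : ℝ) < N := by exact_mod_cast hN
  have h1 : ((Finset.Icc 1 N').filter (fun n : ℕ => |(n : ℝ) / N - z| < ρ)).card ≤
      (Finset.Icc ⌈(z - ρ) * N⌉ ⌊(z + ρ) * N⌋).card := by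
    refine Finset.card_le_card_of_injOn (fun n : ℕ => (n : ℤ)) ?_ ?_
    · intro n hn
      simp only [Finset.coe_filter, Finset.mem_Icc, mem_ofPred_eq, abs_lt] at hn
      obtain ⟨-, h2, h3⟩ := hn
      simp only [Finset.coe_Icc, mem_Icc]
      have h4 : z - ρ < n / N := by linarith
      have h5 : (n : ℝ) / N < z + ρ := by linarith
      rw [lt_div_iff₀ hN'] at h4
      rw [div_lt_iff₀ hN'] at h5
      constructor
      · rw [Int.ceil_le]; push_cast; exact h4.le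
      · rw [Int.le_floor]; push_cast; exact h5.le
    · intro a _ b _ h
      exact Int.ofNat_inj.1 h
  have h2 : ((Finset.Icc ⌈(z - ρ) * N⌉ ⌊(z + ρ) * N⌋).card : ℝ) ≤ 2 * ρ * N + 1 := by
    rw [Int.card_Icc]
    have h3 : ((⌊(z + ρ) * N⌋ + 1 - ⌈(z - ρ) * N⌉).toNat : ℝ) =
        max ((⌊(z + ρ) * N⌋ : ℝ) + 1 - ⌈(z - ρ) * N⌉) 0 := by
      have : (((⌊(z + ρ) * N⌋ + 1 - ⌈(z - ρ) * N⌉).toNat : ℤ) : ℝ) =
        ((max (⌊(z + ρ) * N⌋ + 1 - ⌈(z - ρ) * N⌉) 0 : ℤ) : ℝ) := by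
        rw [Int.toNat_eq_max]
      push_cast at this
      exact this
    rw [h3]
    refine max_le ?_ (by positivity)
    have h4 := Int.floor_le ((z + ρ) * N)
    have h5 := Int.le_ceil ((z - ρ) * N)
    linarith
  calc _ ≤ ((Finset.Icc ⌈(z - ρ) * N⌉ ⌊(z + ρ) * N⌋).card : ℝ) := by exact_mod_cast h1
    _ ≤ _ := h2

private theorem count_near {N N' : ℕ} (hN : 0 < N) (Z : Finset ℝ) {ρ : ℝ} (hρ : 0 ≤ ρ)
    (P : ℕ → Prop) [DecidablePred P]
    (h : ∀ n ∈ Finset.Icc 1 N', P n → ∃ z ∈ Z, |(n : ℝ) / N - z| < ρ) :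
    (((Finset.Icc 1 N').filter P).card : ℝ) ≤ Z.card * (2 * ρ * N + 1) := by
  have h1 : (Finset.Icc 1 N').filter P ⊆
      Z.biUnion fun z => (Finset.Icc 1 N').filter (fun n : ℕ => |(n : ℝ) / N - z| < ρ) := by
    intro n hn
    rw [Finset.mem_filter] at hn
    obtain ⟨z, hz, hnz⟩ := h n hn.1 hn.2
    exact Finset.mem_biUnion.2 ⟨z, hz, Finset.mem_filter.2 ⟨hn.1, hnz⟩⟩
  calc (((Finset.Icc 1 N').filter P).card : ℝ) ≤
      ((Z.biUnion fun z => (Finset.Icc 1 N').filter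
        (fun n : ℕ => |(n : ℝ) / N - z| < ρ)).card : ℝ) := by
        exact_mod_cast Finset.card_le_card h1
    _ ≤ ((∑ z ∈ Z, ((Finset.Icc 1 N').filter
        (fun n : ℕ => |(n : ℝ) / N - z| < ρ)).card : ℕ) : ℝ) := by
        exact_mod_cast Finset.card_biUnion_le
    _ = ∑ z ∈ Z, (((Finset.Icc 1 N').filter
        (fun n : ℕ => |(n : ℝ) / N - z| < ρ)).card : ℝ) := by push_cast; rfl
    _ ≤ ∑ z ∈ Z, (2 * ρ * N + 1) := Finset.sum_le_sum fun z _ => count_one hN z hρ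
    _ = _ := by rw [Finset.sum_const, nsmul_eq_mul]

/-! ### one index -/

private theorem core {p q : ℕ} (hp : 0 < p) (hq : 0 < q) (J : ℝ) {ψ : ℝ → ℂ} {κ1 : ℝ}
    (hκ : 0 < κ1) (hψ0 : ∀ D, |D| ≤ κ1 → ψ D = 0) {B : ℝ} (hB : 0 < B) (hψB : ∀ D, ‖ψ D‖ ≤ B)
    (huc : UniformContinuous ψ) {R : ℝ} (hR : 0 ≤ R) {η : ℝ} (hη : 0 < η) :
    ∃ θ > 0, ∀ (N N' L : ℕ) (α c : ℝ), N' ≤ N → |α| ≤ R → |c| * N ≤ R → 0 < L →
      (L : ℝ) ≤ η * N → (L : ℝ) ^ 2 * |c| ≤ θ →
      (((Finset.Icc 1 N').filter (fun n : ℕ => κ1 / 2 ≤ |α + p * n * c| ∧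
        κ1 / 2 ≤ |α + q * n * c| ∧ L * dZ (sl J p q α (n * c)) < 1 / η)).card : ℝ) ≤ η * N →
      ‖∑ n ∈ Finset.Icc 1 N',
        ψ (α + (p * n : ℕ) * c) * (starRingEnd ℂ) (ψ (α + (q * n : ℕ) * c)) *
          Complex.exp (2 * Real.pi * Complex.I * ((J * n /
            ((α + (p * n : ℕ) * c) * (α + (q * n : ℕ) * c)) : ℝ)))‖ ≤ 14 * η * B ^ 2 * N := by
  obtain ⟨C, hC0, hC⟩ := taylor J p q (R := R + 1) (κ := κ1 / 2) (by linarith) (by linarith)
  obtain ⟨δ, hδ, hδ2⟩ := Metric.uniformContinuous_iff.1 huc (η * B / 2) (by positivity)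
  have hp' : (0 : ℝ) < p := by exact_mod_cast hp
  have hq' : (0 : ℝ) < q := by exact_mod_cast hq
  -- θ
  obtain ⟨θ, hθ, t1, t2, t3, t4⟩ : ∃ θ > 0, θ ≤ 1 ∧ C * θ ≤ η ∧
      (p + q : ℝ) * θ < δ ∧ (p + q : ℝ) * θ ≤ κ1 / 2 := by
    refine ⟨min (min 1 (η / (C + 1))) (min (δ / 2 / (p + q)) (κ1 / 2 / (p + q))),
      by positivity, ?_, ?_, ?_, ?_⟩
    · exact (min_le_left _ _).trans (min_le_left _ _)
    · calc C * _ ≤ (C + 1) * (η / (C + 1)) := by
            gcongr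
            · linarith
            · exact (min_le_left _ _).trans (min_le_right _ _)
        _ = η := by field_simp
    · calc (p + q : ℝ) * _ ≤ (p + q) * (δ / 2 / (p + q)) := by
            gcongr
            exact (min_le_right _ _).trans (min_le_left _ _)
        _ = δ / 2 := by field_simp
        _ < δ := by linarith
    · calc (p + q : ℝ) * _ ≤ (p + q) * (κ1 / 2 / (p + q)) := by
            gcongr
            exact (min_le_right _ _).trans (min_le_right _ _)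
        _ = κ1 / 2 := by field_simp
  refine ⟨θ, hθ, ?_⟩
  intro N N' L α c hNN hα hcN hL hLN hLc hcount
  have hL' : (1 : ℝ) ≤ L := by exact_mod_cast hL
  have hLc1 : (L : ℝ) * |c| ≤ θ := by
    refine le_trans ?_ hLc
    gcongr
    nlinarith
  have hkc : ∀ k < L, (k : ℝ) * |c| ≤ θ := by
    intro k hk
    refine le_trans ?_ hLc1
    gcongr
  set w : ℕ → ℂ := fun n => ((B ^ 2 : ℝ) : ℂ)⁻¹ *
    (ψ (α + (p * n : ℕ) * c) * (starRingEnd ℂ) (ψ (α + (q * n : ℕ) * c))) with hw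
  set F : ℕ → ℝ := fun n => J * n / ((α + (p * n : ℕ) * c) * (α + (q * n : ℕ) * c)) with hF
  set s : ℕ → ℝ := fun n => sl J p q α (n * c) with hs
  have hB2 : ‖((B ^ 2 : ℝ) : ℂ)⁻¹‖ = (B ^ 2)⁻¹ := by
    rw [norm_inv, Complex.norm_real, Real.norm_eq_abs, abs_of_pos (by positivity)]
  have hw1 : ∀ n, ‖w n‖ ≤ 1 := by
    intro n
    simp only [hw]
    rw [norm_mul, hB2, norm_mul, RCLike.norm_conj]
    calc (B ^ 2)⁻¹ * (‖ψ (α + (p * n : ℕ) * c)‖ * ‖ψ (α + (q * n : ℕ) * c)‖) ≤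
        (B ^ 2)⁻¹ * (B * B) := by gcongr <;> exact hψB _
      _ = 1 := by field_simp
  -- region
  have hreg : ∀ n, ∀ k0 < L, w (n + k0) ≠ 0 → ∀ k < L, κ1 / 2 ≤ |α + p * (n + k : ℝ) * c| ∧
      κ1 / 2 ≤ |α + q * (n + k : ℝ) * c| := by
    intro n k0 hk0 hne k hk
    have hne1 : ψ (α + (p * (n + k0) : ℕ) * c) ≠ 0 := by
      intro h
      apply hne
      simp only [hw]
      rw [h]; simp
    have hne2 : ψ (α + (q * (n + k0) : ℕ) * c) ≠ 0 := by
      intro h
      apply hne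
      simp only [hw]
      rw [h]; simp
    have g1 : κ1 < |α + (p * (n + k0) : ℕ) * c| := by
      by_contra h
      exact hne1 (hψ0 _ (not_lt.1 h))
    have g2 : κ1 < |α + (q * (n + k0) : ℕ) * c| := by
      by_contra h
      exact hne2 (hψ0 _ (not_lt.1 h))
    have hkk : |((k0 : ℝ) - k)| ≤ L := by
      rw [abs_le]
      have h1 : (k0 : ℝ) < L := by exact_mod_cast hk0
      have h2 : (k : ℝ) < L := by exact_mod_cast hk
      have h3 : (0 : ℝ) ≤ k0 := by positivity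
      have h4 : (0 : ℝ) ≤ k := by positivity
      constructor <;> linarith
    have hkkc : |((k0 : ℝ) - k) * c| ≤ θ := by
      rw [abs_mul]
      refine le_trans ?_ hLc1
      gcongr
    have gen : ∀ r : ℕ, (r : ℝ) * θ ≤ κ1 / 2 → κ1 < |α + (r * (n + k0) : ℕ) * c| →
        κ1 / 2 ≤ |α + r * (n + k : ℝ) * c| := by
      intro r hr hg
      have e : α + (r * (n + k0) : ℕ) * c = (α + r * (n + k : ℝ) * c) +
          r * (((k0 : ℝ) - k) * c) := by push_cast; ring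
      rw [e] at hg
      have h1 := abs_add_le (α + r * (n + k : ℝ) * c) (r * (((k0 : ℝ) - k) * c))
      have h2 : |(r : ℝ) * (((k0 : ℝ) - k) * c)| ≤ r * θ := by
        rw [abs_mul, abs_of_nonneg (by positivity : (0 : ℝ) ≤ r)]
        gcongr
      linarith
    refine ⟨gen p ?_ g1, gen q ?_ g2⟩
    · nlinarith
    · nlinarith
  have hψd : ∀ r : ℕ, (r : ℝ) * θ < δ → ∀ n, ∀ k < L,
      ‖ψ (α + (r * (n + k) : ℕ) * c) - ψ (α + (r * n : ℕ) * c)‖ ≤ η * B / 2 := by
    intro r hr n k hk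
    rw [← dist_eq_norm]
    refine (hδ2 ?_).le
    rw [Real.dist_eq]
    have e : α + (r * (n + k) : ℕ) * c - (α + (r * n : ℕ) * c) = r * (k * c) := by
      push_cast; ring
    rw [e, abs_mul, abs_mul, abs_of_nonneg (by positivity : (0 : ℝ) ≤ r),
      abs_of_nonneg (by positivity : (0 : ℝ) ≤ k)]
    refine lt_of_le_of_lt ?_ hr
    gcongr
    exact hkc k hk
  have hpθ : (p : ℝ) * θ < δ := by nlinarith
  have hqθ : (q : ℝ) * θ < δ := by nlinarith
  have hwd : ∀ n, ∀ k < L, ‖w (n + k) - w n‖ ≤ η := by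
    intro n k hk
    simp only [hw]
    rw [← mul_sub, norm_mul, hB2]
    have e : ψ (α + (p * (n + k) : ℕ) * c) * (starRingEnd ℂ) (ψ (α + (q * (n + k) : ℕ) * c)) -
        ψ (α + (p * n : ℕ) * c) * (starRingEnd ℂ) (ψ (α + (q * n : ℕ) * c)) =
        (ψ (α + (p * (n + k) : ℕ) * c) - ψ (α + (p * n : ℕ) * c)) *
          (starRingEnd ℂ) (ψ (α + (q * (n + k) : ℕ) * c)) +
        ψ (α + (p * n : ℕ) * c) *
          (starRingEnd ℂ) (ψ (α + (q * (n + k) : ℕ) * c) - ψ (α + (q * n : ℕ) * c)) := by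
      rw [map_sub]; ring
    rw [e]
    calc (B ^ 2)⁻¹ * ‖_‖ ≤ (B ^ 2)⁻¹ * (η * B / 2 * B + B * (η * B / 2)) := by
          gcongr
          refine (norm_add_le _ _).trans ?_
          rw [norm_mul, norm_mul, RCLike.norm_conj, RCLike.norm_conj]
          gcongr
          · exact hψd p hpθ n k hk
          · exact hψB _
          · exact hψB _
          · exact hψd q hqθ n k hk
      _ = η := by field_simp; ring
  have hblock := block_bound N' L hL w hw1 F s hη.le (by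
    intro n hn
    by_cases hall : ∀ k < L, w (n + k) = 0
    · exact Or.inl hall
    · right
      push Not at hall
      obtain ⟨k0, hk0, hne⟩ := hall
      refine ⟨fun k hk => hwd n k hk, fun k hk => ?_⟩
      have r0 := hreg n k0 hk0 hne 0 hL
      have rk := hreg n k0 hk0 hne k hk
      have hn2 : (n : ℝ) ≤ N := by
        have := (Finset.mem_Icc.1 hn).2
        exact_mod_cast this.trans hNN
      have hnc : |(n : ℝ) * c| ≤ R + 1 := by
        rw [abs_mul, abs_of_nonneg (by positivity : (0 : ℝ) ≤ n), mul_comm]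
        have : |c| * n ≤ |c| * N := by gcongr
        linarith
      have hkc2 : |(k : ℝ) * c| ≤ R + 1 := by
        rw [abs_mul, abs_of_nonneg (by positivity : (0 : ℝ) ≤ k)]
        have := hkc k hk
        linarith
      have ht := hC α c n k (by linarith) hnc hkc2 (by simpa using r0.1) (by simpa using r0.2)
        rk.1 rk.2
      have e : F (n + k) - F n - k * s n =
        J * ((n : ℝ) + k) / ((α + p * (n + k) * c) * (α + q * (n + k) * c)) -
        J * n / ((α + p * n * c) * (α + q * n * c)) - k * sl J p q α (n * c) := by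
        simp only [hF, hs]
        push_cast
        ring
      rw [e]
      refine ht.trans ?_
      have hk2 : (k : ℝ) ^ 2 ≤ (L : ℝ) ^ 2 := by
        have : (k : ℝ) ≤ L := by exact_mod_cast hk.le
        gcongr
      calc C * (k : ℝ) ^ 2 * |c| ≤ C * (L : ℝ) ^ 2 * |c| := by gcongr
        _ = C * ((L : ℝ) ^ 2 * |c|) := by ring
        _ ≤ C * θ := by gcongr
        _ ≤ η := t2)
  have hlast : ∑ n ∈ (Finset.Icc 1 N').filter (fun n => ∃ k < L, w (n + k) ≠ 0),
        1 / max 1 (L * dZ (s n)) ≤ 2 * η * N := by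
    set bad := (Finset.Icc 1 N').filter (fun n : ℕ => κ1 / 2 ≤ |α + p * n * c| ∧
        κ1 / 2 ≤ |α + q * n * c| ∧ L * dZ (sl J p q α (n * c)) < 1 / η) with hbad
    have h1 : ∀ n ∈ (Finset.Icc 1 N').filter (fun n => ∃ k < L, w (n + k) ≠ 0),
        1 / max 1 (L * dZ (s n)) ≤ (if n ∈ bad then 1 else 0) + η := by
      intro n hn
      rw [Finset.mem_filter] at hn
      obtain ⟨hn1, k0, hk0, hne⟩ := hn
      have r0 := hreg n k0 hk0 hne 0 hL
      by_cases hb : L * dZ (s n) < 1 / η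
      · have : n ∈ bad := by
          rw [hbad, Finset.mem_filter]
          exact ⟨hn1, by simpa using r0.1, by simpa using r0.2, hb⟩
        rw [if_pos this]
        have : 1 / max 1 (L * dZ (s n)) ≤ 1 := by
          rw [div_le_one (by positivity)]
          exact le_max_left _ _
        linarith
      · have h2 : 1 / max 1 (L * dZ (s n)) ≤ η := by
          rw [div_le_iff₀ (by positivity)]
          have h3 : 1 / η ≤ max 1 (L * dZ (s n)) := (not_lt.1 hb).trans (le_max_right _ _)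
          rw [div_le_iff₀ hη] at h3
          linarith
        have : (0 : ℝ) ≤ if n ∈ bad then 1 else 0 := by split_ifs <;> norm_num
        linarith
    calc _ ≤ ∑ n ∈ (Finset.Icc 1 N').filter (fun n => ∃ k < L, w (n + k) ≠ 0),
          ((if n ∈ bad then 1 else 0) + η) := Finset.sum_le_sum h1
      _ ≤ ∑ n ∈ Finset.Icc 1 N', ((if n ∈ bad then (1 : ℝ) else 0) + η) := by
          refine Finset.sum_le_sum_of_subset_of_nonneg (Finset.filter_subset _ _) ?_
          intro n _ _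
          split_ifs <;> linarith
      _ = (bad.card : ℝ) + N' * η := by
          rw [Finset.sum_add_distrib, Finset.sum_const, Nat.card_Icc, Finset.sum_ite_mem,
            Finset.inter_eq_right.2 (Finset.filter_subset _ _), Finset.sum_const, nsmul_eq_mul,
            nsmul_eq_mul, mul_one, Nat.add_sub_cancel]
      _ ≤ η * N + N * η := by
          have : (N' : ℝ) ≤ N := by exact_mod_cast hNN
          gcongr
      _ = 2 * η * N := by ring
  have hfin : ‖∑ n ∈ Finset.Icc 1 N', w n * Complex.exp (2 * Real.pi * Complex.I * (F n : ℝ))‖ ≤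
      14 * η * N := by
    refine hblock.trans ?_
    have : (N' : ℝ) ≤ N := by exact_mod_cast hNN
    have h2 : 10 * η * N' ≤ 10 * η * N := by gcongr
    linarith
  have hsum : ∑ n ∈ Finset.Icc 1 N',
        ψ (α + (p * n : ℕ) * c) * (starRingEnd ℂ) (ψ (α + (q * n : ℕ) * c)) *
          Complex.exp (2 * Real.pi * Complex.I * ((J * n /
            ((α + (p * n : ℕ) * c) * (α + (q * n : ℕ) * c)) : ℝ))) = ((B ^ 2 : ℝ) : ℂ) *
      ∑ n ∈ Finset.Icc 1 N', w n * Complex.exp (2 * Real.pi * Complex.I * (F n : ℝ)) := by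
    rw [Finset.mul_sum]
    refine Finset.sum_congr rfl fun n _ => ?_
    have hBne : ((B ^ 2 : ℝ) : ℂ) ≠ 0 := by
      rw [Ne, Complex.ofReal_eq_zero]; positivity
    simp only [hw, hF]
    rw [← mul_assoc, mul_inv_cancel_left₀ hBne]
  rw [hsum, norm_mul, Complex.norm_real, Real.norm_eq_abs, abs_of_pos (by positivity)]
  calc B ^ 2 * _ ≤ B ^ 2 * (14 * η * N) := by gcongr
    _ = _ := by ring

/-! ### limits -/

private theorem exists_lim {ι : Type} (𝒰 : Ultrafilter ι) {f : ι → ℝ} {R : ℝ}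
    (h : ∀ᶠ i in (𝒰 : Filter ι), |f i| ≤ R) : ∃ a, Tendsto f 𝒰 (𝓝 a) := by
  have h1 : ((𝒰.map f : Ultrafilter ℝ) : Filter ℝ) ≤ 𝓟 (Icc (-R) R) := by
    rw [le_principal_iff]
    exact h.mono fun i hi => abs_le.1 hi
  obtain ⟨a, _, ha⟩ := isCompact_Icc.ultrafilter_le_nhds (𝒰.map f) h1
  exact ⟨a, ha⟩

private def Kset (S : Finset ℝ) (ρ : ℝ) : Set ℝ := {y | y ∈ Icc (0 : ℝ) 1 ∧ ∀ z ∈ S, ρ ≤ |y - z|}

private theorem isCompact_Kset (S : Finset ℝ) (ρ : ℝ) : IsCompact (Kset S ρ) := by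
  have h1 : Kset S ρ = Icc (0 : ℝ) 1 ∩ ⋂ z ∈ S, {y | ρ ≤ |y - z|} := by
    ext y
    simp [Kset]
  rw [h1]
  refine isCompact_Icc.inter_right ?_
  refine isClosed_biInter fun z _ => ?_
  exact isClosed_le continuous_const (continuous_id.sub continuous_const).abs

private theorem tube {E : Type} [TopologicalSpace E] {x₀ : E} {K : Set ℝ} (hK : IsCompact K)
    {P : ℝ → E → ℝ → Prop}
    (hP : ∀ y ∈ K, ∀ᶠ z : (ℝ × E) × ℝ in 𝓝 ((0, x₀), y), P z.1.1 z.1.2 z.2) :
    ∃ δ > 0, ∀ᶠ x in 𝓝 x₀, ∀ y ∈ K, P δ x y := by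
  have h1 := hK.eventually_forall_of_forall_eventually (x₀ := ((0 : ℝ), x₀))
    (P := fun (z : ℝ × E) y => P z.1 z.2 y) hP
  have h2 := h1.curry_nhds
  have h3 := h2.filter_mono (nhdsWithin_le_nhds (s := Ioi (0 : ℝ)))
  obtain ⟨δ, h4, h5⟩ := (h3.and self_mem_nhdsWithin).exists
  exact ⟨δ, h5, h4⟩

private noncomputable def SS (J : ℝ) (p q : ℕ) (ψ : ℝ → ℂ) (N' : ℕ) (α c : ℝ) : ℂ :=
  ∑ n ∈ Finset.Icc 1 N',
        ψ (α + (p * n : ℕ) * c) * (starRingEnd ℂ) (ψ (α + (q * n : ℕ) * c)) *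
          Complex.exp (2 * Real.pi * Complex.I * ((J * n /
            ((α + (p * n : ℕ) * c) * (α + (q * n : ℕ) * c)) : ℝ)))

private theorem contAt_sl (J p q : ℝ) {a t : ℝ} (h1 : a + p * t ≠ 0) (h2 : a + q * t ≠ 0) :
    ContinuousAt (fun z : ℝ × ℝ => sl J p q z.1 z.2) (a, t) := by
  unfold sl
  refine ContinuousAt.div (by fun_prop) (by fun_prop) ?_
  exact mul_ne_zero (pow_ne_zero 2 h1) (pow_ne_zero 2 h2)

private theorem caseA {ι : Type} (𝒰 : Ultrafilter ι) {N N' : ι → ℕ} (hN : Tendsto N 𝒰 atTop)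
    (hNN : ∀ i, N' i ≤ N i)
    {α c : ι → ℝ} {R : ℝ} (hR : 0 ≤ R) (hα : ∀ᶠ i in (𝒰 : Filter ι), |α i| ≤ R)
    (hc : ∀ᶠ i in (𝒰 : Filter ι), |c i| * N i ≤ R) (J : ℝ)
    {ψ : ℝ → ℂ} {κ1 : ℝ} (hκ : 0 < κ1) (hψ0 : ∀ D, |D| ≤ κ1 → ψ D = 0)
    {B : ℝ} (hB : 0 < B) (hψB : ∀ D, ‖ψ D‖ ≤ B) (huc : UniformContinuous ψ)
    {p q : ℕ} (hp : 0 < p) (hq : 0 < q) {a k : ℝ} (ha : Tendsto α 𝒰 (𝓝 a))
    (hk : Tendsto (fun i => c i * N i) 𝒰 (𝓝 k))
    (hZ : {y : ℝ | y ∈ Icc (0 : ℝ) 1 ∧ κ1 / 2 ≤ |a + p * (k * y)| ∧ κ1 / 2 ≤ |a + q * (k * y)| ∧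
      dZ (sl J p q a (k * y)) = 0}.Finite) {η : ℝ} (hη : 0 < η) :
    ∀ᶠ i in (𝒰 : Filter ι), ‖SS J p q ψ (N' i) (α i) (c i)‖ ≤ 14 * η * B ^ 2 * N i := by
  obtain ⟨θ, hθ, hcore⟩ := core hp hq J hκ hψ0 hB hψB huc hR hη
  set S := hZ.toFinset with hS
  set ρ : ℝ := η / (4 * (S.card + 1)) with hρ
  have hρ0 : 0 < ρ := by positivity
  obtain ⟨δ, hδ, htube⟩ := tube (E := ℝ × ℝ) (x₀ := (a, k)) (isCompact_Kset S ρ)
    (P := fun δ x y => κ1 / 2 ≤ |x.1 + p * (x.2 * y)| → κ1 / 2 ≤ |x.1 + q * (x.2 * y)| →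
      δ < dZ (sl J p q x.1 (x.2 * y))) (by
    intro y hy
    by_cases h1 : κ1 / 2 ≤ |a + p * (k * y)|
    · by_cases h2 : κ1 / 2 ≤ |a + q * (k * y)|
      · have n1 : a + p * (k * y) ≠ 0 := fun h => by rw [h, abs_zero] at h1; linarith
        have n2 : a + q * (k * y) ≠ 0 := fun h => by rw [h, abs_zero] at h2; linarith
        have h3 : dZ (sl J p q a (k * y)) ≠ 0 := by
          intro h3
          have : y ∈ S := by
            rw [hS, hZ.mem_toFinset]
            exact ⟨hy.1, h1, h2, h3⟩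
          have := hy.2 y this
          rw [sub_self, abs_zero] at this
          linarith
        have h4 : 0 < dZ (sl J p q a (k * y)) := lt_of_le_of_ne (dZ_nonneg _) (Ne.symm h3)
        have c1 : ContinuousAt (fun z : (ℝ × ℝ × ℝ) × ℝ =>
            dZ (sl J p q z.1.2.1 (z.1.2.2 * z.2))) ((0, a, k), y) := by
          refine continuous_dZ.continuousAt.comp ?_
          have := contAt_sl J p q n1 n2
          refine ContinuousAt.comp (x := ((0, a, k), y))
            (g := fun z : ℝ × ℝ => sl J p q z.1 z.2)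
            (f := fun z : (ℝ × ℝ × ℝ) × ℝ => (z.1.2.1, z.1.2.2 * z.2)) this ?_
          exact Continuous.continuousAt (by fun_prop)
        have c2 : ContinuousAt (fun z : (ℝ × ℝ × ℝ) × ℝ => z.1.1) ((0, a, k), y) :=
          Continuous.continuousAt (by fun_prop)
        have := c2.eventually_lt c1 h4
        exact this.mono fun z hz _ _ => hz
      · have c1 : ContinuousAt (fun z : (ℝ × ℝ × ℝ) × ℝ => |z.1.2.1 + q * (z.1.2.2 * z.2)|)
            ((0, a, k), y) := Continuous.continuousAt (by fun_prop)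
        have := c1.eventually_lt (continuousAt_const (y := κ1 / 2)) (not_le.1 h2)
        exact this.mono fun z hz _ h => absurd h (not_le.2 hz)
    · have c1 : ContinuousAt (fun z : (ℝ × ℝ × ℝ) × ℝ => |z.1.2.1 + p * (z.1.2.2 * z.2)|)
            ((0, a, k), y) := Continuous.continuousAt (by fun_prop)
      have := c1.eventually_lt (continuousAt_const (y := κ1 / 2)) (not_le.1 h1)
      exact this.mono fun z hz h => absurd h (not_le.2 hz))
  set L : ℕ := ⌈1 / (η * δ)⌉₊ + 1 with hL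
  have hLδ : 1 / η ≤ L * δ := by
    have h1 : 1 / (η * δ) ≤ (L : ℝ) := by
      rw [hL]; push_cast
      have := Nat.le_ceil (1 / (η * δ))
      linarith
    calc 1 / η = 1 / (η * δ) * δ := by field_simp
      _ ≤ L * δ := by gcongr
  have hN' : Tendsto (fun i => (N i : ℝ)) 𝒰 atTop := tendsto_natCast_atTop_atTop.comp hN
  filter_upwards [hα, hc, (ha.prodMk_nhds hk).eventually htube, hN'.eventually_ge_atTop 1,
    hN'.eventually_ge_atTop (L / η), hN'.eventually_ge_atTop (2 * S.card / η),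
    hN'.eventually_ge_atTop (L ^ 2 * R / θ)] with i h1 h2 h3 h4 h5 h6 h7
  have hNpos : 0 < N i := by
    have : (0 : ℝ) < N i := by linarith
    exact_mod_cast this
  have hNp : (0 : ℝ) < N i := by linarith
  refine hcore (N i) (N' i) L (α i) (c i) (hNN i) h1 h2 (by omega) ?_ ?_ ?_
  · rw [div_le_iff₀ hη] at h5
    linarith
  · rw [div_le_iff₀ hθ] at h7
    have h8 : (L : ℝ) ^ 2 * |c i| * N i ≤ θ * N i := by
      calc (L : ℝ) ^ 2 * |c i| * N i = L ^ 2 * (|c i| * N i) := by ring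
        _ ≤ L ^ 2 * R := by gcongr
        _ ≤ θ * N i := by linarith
    exact le_of_mul_le_mul_right h8 hNp
  · refine (count_near hNpos S hρ0.le _ ?_).trans ?_
    · intro n hn hbad
      by_contra hcon
      push Not at hcon
      have hy : (n : ℝ) / N i ∈ Kset S ρ := by
        refine ⟨⟨by positivity, ?_⟩, hcon⟩
        rw [div_le_one hNp]
        exact_mod_cast ((Finset.mem_Icc.1 hn).2.trans (hNN i))
      have h8 := h3 _ hy
      have e1 : c i * N i * ((n : ℝ) / N i) = n * c i := by field_simp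
      rw [e1] at h8
      have h9 := h8 (by rw [← mul_assoc]; exact hbad.1) (by rw [← mul_assoc]; exact hbad.2.1)
      have h10 : (L : ℝ) * δ ≤ L * dZ (sl J p q (α i) (n * c i)) := by gcongr
      linarith [hbad.2.2]
    · rw [div_le_iff₀ hη] at h6
      have h8 : (S.card : ℝ) * (2 * ρ * N i) ≤ η * N i / 2 := by
        have h9 : (S.card : ℝ) * (2 * ρ) ≤ η / 2 := by
          rw [hρ]
          have h10 : (S.card : ℝ) * (2 * (η / (4 * (S.card + 1)))) =
            η / 2 * (S.card / (S.card + 1)) := by field_simp; ring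
          rw [h10]
          have h11 : (S.card : ℝ) / (S.card + 1) ≤ 1 := by
            rw [div_le_one (by positivity)]; linarith
          nlinarith
        nlinarith
      nlinarith

/-! ### the degenerate case -/

private noncomputable def hf (J p q α t : ℝ) : ℝ :=
  -(J * (2 * (p + q) * α ^ 3 + ((p + q) ^ 2 + 3 * p * q) * α ^ 2 * t +
    2 * (p + q) * p * q * α * t ^ 2 + p ^ 2 * q ^ 2 * t ^ 3)) /
      (α ^ 2 * ((α + p * t) ^ 2 * (α + q * t) ^ 2))

private theorem sl_eq (J p q : ℝ) {α t : ℝ} (h0 : α ≠ 0) (h1 : α + p * t ≠ 0)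
    (h2 : α + q * t ≠ 0) : sl J p q α t = J / α ^ 2 + t * hf J p q α t := by
  unfold sl hf
  field_simp
  ring

private theorem contAt_hf (J p q : ℝ) {a t : ℝ} (h0 : a ≠ 0) (h1 : a + p * t ≠ 0)
    (h2 : a + q * t ≠ 0) : ContinuousAt (fun z : ℝ × ℝ => hf J p q z.1 z.2) (a, t) := by
  unfold hf
  refine ContinuousAt.div (by fun_prop) (by fun_prop) ?_
  exact mul_ne_zero (pow_ne_zero 2 h0) (mul_ne_zero (pow_ne_zero 2 h1) (pow_ne_zero 2 h2))

private theorem caseB {ι : Type} (𝒰 : Ultrafilter ι) {N N' : ι → ℕ} (hN : Tendsto N 𝒰 atTop)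
    (hNN : ∀ i, N' i ≤ N i)
    {α c : ι → ℝ} {R : ℝ} (hR : 0 ≤ R) (hα : ∀ᶠ i in (𝒰 : Filter ι), |α i| ≤ R)
    (hc : ∀ᶠ i in (𝒰 : Filter ι), |c i| * N i ≤ R) {J : ℝ} (hJ : J ≠ 0)
    {ψ : ℝ → ℂ} {κ1 : ℝ} (hκ : 0 < κ1) (hψ0 : ∀ D, |D| ≤ κ1 → ψ D = 0)
    {B : ℝ} (hB : 0 < B) (hψB : ∀ D, ‖ψ D‖ ≤ B) (huc : UniformContinuous ψ)
    {p q : ℕ} (hp : 0 < p) (hq : 0 < q) {a : ℝ} (ha : Tendsto α 𝒰 (𝓝 a)) (ha0 : a ≠ 0)
    (hk : Tendsto (fun i => c i * N i) 𝒰 (𝓝 0)) {m : ℤ} (hm : J / a ^ 2 = m)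
    (hne : ∀ R' : ℝ, ∀ᶠ i in (𝒰 : Filter ι),
      R' < max (N i * |J / α i ^ 2 - m|) ((N i : ℝ) ^ 2 * |c i|)) {η : ℝ} (hη : 0 < η) :
    ∀ᶠ i in (𝒰 : Filter ι), ‖SS J p q ψ (N' i) (α i) (c i)‖ ≤ 14 * η * B ^ 2 * N i := by
  obtain ⟨θ, hθ, hcore⟩ := core hp hq J hκ hψ0 hB hψB huc hR hη
  have hp' : (0 : ℝ) < p := by exact_mod_cast hp
  have hq' : (0 : ℝ) < q := by exact_mod_cast hq
  set Λ : ι → ℝ := fun i => max (N i * |J / α i ^ 2 - m|) ((N i : ℝ) ^ 2 * |c i|) with hΛ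
  set Ai : ι → ℝ := fun i => N i * (J / α i ^ 2 - m) / Λ i with hAi
  set Bi : ι → ℝ := fun i => (N i : ℝ) ^ 2 * c i / Λ i with hBi
  have hΛpos : ∀ᶠ i in (𝒰 : Filter ι), 0 < Λ i := hne 0
  have hA1 : ∀ᶠ i in (𝒰 : Filter ι), |Ai i| ≤ 1 := by
    filter_upwards [hΛpos] with i hi
    simp only [hAi]
    rw [abs_div, abs_of_pos hi, div_le_one hi, abs_mul, Nat.abs_cast]
    exact le_max_left _ _
  have hB1 : ∀ᶠ i in (𝒰 : Filter ι), |Bi i| ≤ 1 := by
    filter_upwards [hΛpos] with i hi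
    simp only [hBi]
    rw [abs_div, abs_of_pos hi, div_le_one hi, abs_mul, abs_of_nonneg (by positivity)]
    exact le_max_right _ _
  obtain ⟨A, hA⟩ := exists_lim 𝒰 hA1
  obtain ⟨b, hb⟩ := exists_lim 𝒰 hB1
  have hAb : max |A| |b| = 1 := by
    have h1 : Tendsto (fun i => max |Ai i| |Bi i|) 𝒰 (𝓝 (max |A| |b|)) := hA.abs.max hb.abs
    have h2 : Tendsto (fun i => max |Ai i| |Bi i|) 𝒰 (𝓝 1) := by
      refine tendsto_const_nhds.congr' ?_
      filter_upwards [hΛpos] with i hi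
      simp only [hAi, hBi]
      rw [abs_div, abs_of_pos hi, abs_mul, Nat.abs_cast, abs_div, abs_of_pos hi, abs_mul,
        abs_of_nonneg (by positivity : (0 : ℝ) ≤ (N i : ℝ) ^ 2), max_div_div_right hi.le]
      exact (div_self hi.ne').symm
    exact tendsto_nhds_unique h1 h2
  set hinf : ℝ := hf J p q a 0 with hhinf
  have hh0 : hinf ≠ 0 := by
    rw [hhinf]; unfold hf
    have : (2 * ((p : ℝ) + q) * a ^ 3 + ((p + q) ^ 2 + 3 * p * q) * a ^ 2 * 0 +
      2 * (p + q) * p * q * a * 0 ^ 2 + p ^ 2 * q ^ 2 * 0 ^ 3) = 2 * (p + q) * a ^ 3 := by ring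
    rw [this, mul_zero, mul_zero, add_zero]
    refine div_ne_zero (neg_ne_zero.2 (mul_ne_zero hJ ?_)) ?_
    · exact mul_ne_zero (by positivity) (pow_ne_zero 3 ha0)
    · exact mul_ne_zero (pow_ne_zero 2 ha0) (mul_ne_zero (pow_ne_zero 2 ha0) (pow_ne_zero 2 ha0))
  set z0 : ℝ := -A / (b * hinf) with hz0
  obtain ⟨δ, hδ, htube⟩ := tube (E := ℝ × ℝ × ℝ) (x₀ := (A, b, hinf))
    (isCompact_Kset {z0} (η / 4))
    (P := fun δ x y => δ < |x.1 + x.2.1 * y * x.2.2|) (by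
    intro y hy
    have h1 : (0 : ℝ) < |A + b * y * hinf| := by
      rw [abs_pos]
      intro h
      have hb0 : b ≠ 0 := by
        intro hb0
        rw [hb0] at h hAb
        have : A = 0 := by linarith
        rw [this] at hAb
        simp at hAb
      have h2 : y = z0 := by
        rw [hz0]; field_simp; linarith
      have h3 := hy.2 z0 (Finset.mem_singleton_self _)
      rw [h2, sub_self, abs_zero] at h3
      linarith
    have c1 : ContinuousAt (fun z : (ℝ × ℝ × ℝ × ℝ) × ℝ =>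
        |z.1.2.1 + z.1.2.2.1 * z.2 * z.1.2.2.2|) ((0, A, b, hinf), y) :=
      Continuous.continuousAt (by fun_prop)
    have c2 : ContinuousAt (fun z : (ℝ × ℝ × ℝ × ℝ) × ℝ => z.1.1) ((0, A, b, hinf), y) :=
      Continuous.continuousAt (by fun_prop)
    exact c2.eventually_lt c1 h1)
  -- uniformity in t
  have hQ : ∀ᶠ z : (ℝ × ℝ × ℝ) × ℝ in 𝓝 ((A, b, a), 0),
      (∀ y ∈ Kset {z0} (η / 4), δ < |z.1.1 + z.1.2.1 * y * hf J p q z.1.2.2 z.2|) ∧
      |sl J p q z.1.2.2 z.2 - m| < 1 / 2 ∧ z.1.2.2 ≠ 0 ∧ z.1.2.2 + p * z.2 ≠ 0 ∧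
        z.1.2.2 + q * z.2 ≠ 0 := by
    have n1 : a + p * 0 ≠ 0 := by simpa using ha0
    have n2 : a + q * 0 ≠ 0 := by simpa using ha0
    have cp : ContinuousAt (fun z : (ℝ × ℝ × ℝ) × ℝ => (z.1.2.2, z.2)) ((A, b, a), 0) :=
      Continuous.continuousAt (by fun_prop)
    have c1 : ContinuousAt (fun z : (ℝ × ℝ × ℝ) × ℝ => hf J p q z.1.2.2 z.2)
        ((A, b, a), 0) :=
      ContinuousAt.comp (x := ((A, b, a), (0 : ℝ))) (g := fun z : ℝ × ℝ => hf J p q z.1 z.2)
        (f := fun z : (ℝ × ℝ × ℝ) × ℝ => (z.1.2.2, z.2)) (contAt_hf J p q ha0 n1 n2) cp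
    have c2 : ContinuousAt (fun z : (ℝ × ℝ × ℝ) × ℝ => sl J p q z.1.2.2 z.2)
        ((A, b, a), 0) :=
      ContinuousAt.comp (x := ((A, b, a), (0 : ℝ))) (g := fun z : ℝ × ℝ => sl J p q z.1 z.2)
        (f := fun z : (ℝ × ℝ × ℝ) × ℝ => (z.1.2.2, z.2)) (contAt_sl J p q n1 n2) cp
    have c3 : ContinuousAt (fun z : (ℝ × ℝ × ℝ) × ℝ =>
        (z.1.1, z.1.2.1, hf J p q z.1.2.2 z.2)) ((A, b, a), 0) := by
      refine ContinuousAt.prodMk (Continuous.continuousAt (by fun_prop)) ?_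
      exact ContinuousAt.prodMk (Continuous.continuousAt (by fun_prop)) c1
    have e1 := c3.eventually htube
    have e2 : ∀ᶠ z : (ℝ × ℝ × ℝ) × ℝ in 𝓝 ((A, b, a), 0),
        |sl J p q z.1.2.2 z.2 - m| < 1 / 2 := by
      have c4 : ContinuousAt (fun z : (ℝ × ℝ × ℝ) × ℝ => |sl J p q z.1.2.2 z.2 - m|)
        ((A, b, a), 0) := (c2.sub continuousAt_const).abs
      refine c4.eventually_lt continuousAt_const ?_
      have : sl J p q a 0 = m := by
        rw [sl_eq J p q ha0 n1 n2, hm]; ring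
      simp only [this, sub_self, abs_zero]
      norm_num
    have e3 : ∀ᶠ z : (ℝ × ℝ × ℝ) × ℝ in 𝓝 ((A, b, a), 0), z.1.2.2 ≠ 0 :=
      (Continuous.continuousAt (by fun_prop)).eventually_ne ha0
    have e4 : ∀ᶠ z : (ℝ × ℝ × ℝ) × ℝ in 𝓝 ((A, b, a), 0), z.1.2.2 + p * z.2 ≠ 0 :=
      (Continuous.continuousAt (by fun_prop)).eventually_ne n1
    have e5 : ∀ᶠ z : (ℝ × ℝ × ℝ) × ℝ in 𝓝 ((A, b, a), 0), z.1.2.2 + q * z.2 ≠ 0 :=
      (Continuous.continuousAt (by fun_prop)).eventually_ne n2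
    filter_upwards [e1, e2, e3, e4, e5] with z g1 g2 g3 g4 g5
    exact ⟨g1, g2, g3, g4, g5⟩
  obtain ⟨ε, hε, hQε⟩ := Metric.eventually_nhds_iff.1 hQ
  set r : ℝ := 1 / (η * δ) with hr
  have hr0 : 0 < r := by positivity
  have hN' : Tendsto (fun i => (N i : ℝ)) 𝒰 atTop := tendsto_natCast_atTop_atTop.comp hN
  have hlim : ∀ᶠ i in (𝒰 : Filter ι), dist (Ai i, Bi i, α i) (A, b, a) < ε :=
    (hA.prodMk_nhds (hb.prodMk_nhds ha)).eventually (Metric.ball_mem_nhds _ hε)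
  have hkε : ∀ᶠ i in (𝒰 : Filter ι), |c i * N i| < ε := by
    have := hk.abs
    rw [abs_zero] at this
    exact this.eventually (gt_mem_nhds hε)
  filter_upwards [hα, hc, hN'.eventually_ge_atTop 1, hlim, hkε, hne 0, hne (2 * r / η),
    hne (4 * r ^ 2 / θ), hN'.eventually_ge_atTop (2 / η), hN'.eventually_ge_atTop (4 * R / θ)]
    with i h1 h2 h3 h4 h5 h6 h7 h8 h9 h10
  have hNp : (0 : ℝ) < N i := by linarith
  have hNpos : 0 < N i := by exact_mod_cast hNp
  have h6' : 0 < Λ i := h6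
  have h7' : 2 * r / η < Λ i := h7
  have h8' : 4 * r ^ 2 / θ < Λ i := h8
  set L : ℕ := ⌈r * N i / Λ i⌉₊ with hL
  have hL0 : 0 < L := Nat.ceil_pos.2 (by positivity)
  have hL1 : r * N i / Λ i ≤ L := Nat.le_ceil _
  have hL2 : (L : ℝ) ≤ r * N i / Λ i + 1 := (Nat.ceil_lt_add_one (by positivity)).le
  refine hcore (N i) (N' i) L (α i) (c i) (hNN i) h1 h2 hL0 ?_ ?_ ?_
  · have g1 : r * N i / Λ i ≤ η * N i / 2 := by
      rw [div_le_iff₀ h6']
      rw [div_lt_iff₀ hη] at h7'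
      have h11 := mul_le_mul_of_nonneg_right h7'.le hNp.le
      have h12 : η * N i / 2 * Λ i = Λ i * η * N i / 2 := by ring
      rw [h12]
      linarith
    have g2 : 1 ≤ η * N i / 2 := by
      rw [div_le_iff₀ hη] at h9
      linarith
    linarith
  · have g1 : (L : ℝ) ^ 2 ≤ 2 * (r * N i / Λ i) ^ 2 + 2 := by
      have : (L : ℝ) ^ 2 ≤ (r * N i / Λ i + 1) ^ 2 := by gcongr
      have h11 := sq_nonneg (r * N i / Λ i - 1)
      have h12 : (r * N i / Λ i + 1) ^ 2 =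
        2 * (r * N i / Λ i) ^ 2 + 2 - (r * N i / Λ i - 1) ^ 2 := by ring
      rw [h12] at this
      linarith
    have g2 : (N i : ℝ) ^ 2 * |c i| ≤ Λ i := le_max_right _ _
    have g3 : (r * N i / Λ i) ^ 2 * |c i| ≤ r ^ 2 / Λ i := by
      have : (r * N i / Λ i) ^ 2 * |c i| = r ^ 2 / Λ i ^ 2 * ((N i : ℝ) ^ 2 * |c i|) := by
        field_simp
      rw [this]
      calc r ^ 2 / Λ i ^ 2 * ((N i : ℝ) ^ 2 * |c i|) ≤ r ^ 2 / Λ i ^ 2 * Λ i := by gcongr
        _ = r ^ 2 / Λ i := by field_simp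
    have g4 : r ^ 2 / Λ i ≤ θ / 4 := by
      rw [div_le_iff₀ h6']
      rw [div_lt_iff₀ hθ] at h8'
      linarith
    have g5 : |c i| ≤ θ / 4 := by
      rw [div_le_iff₀ hθ] at h10
      have : |c i| * N i ≤ θ / 4 * N i := by linarith
      exact le_of_mul_le_mul_right this hNp
    calc (L : ℝ) ^ 2 * |c i| ≤ (2 * (r * N i / Λ i) ^ 2 + 2) * |c i| := by gcongr
      _ = 2 * ((r * N i / Λ i) ^ 2 * |c i|) + 2 * |c i| := by ring
      _ ≤ 2 * (θ / 4) + 2 * (θ / 4) := by gcongr; exact g3.trans g4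
      _ = θ := by ring
  · refine (count_near hNpos {z0} (ρ := η / 4) (by positivity) _ ?_).trans ?_
    · intro n hn hbad
      by_contra hcon
      push Not at hcon
      have hnN : (n : ℝ) ≤ N i := by exact_mod_cast ((Finset.mem_Icc.1 hn).2.trans (hNN i))
      have hy : (n : ℝ) / N i ∈ Kset {z0} (η / 4) := by
        refine ⟨⟨by positivity, ?_⟩, hcon⟩
        rw [div_le_one hNp]
        exact hnN
      have hd : dist (((Ai i, Bi i, α i), n * c i) : (ℝ × ℝ × ℝ) × ℝ) ((A, b, a), 0) < ε := by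
        rw [Prod.dist_eq, max_lt_iff]
        refine ⟨h4, ?_⟩
        simp only [Real.dist_eq, sub_zero]
        rw [abs_mul, Nat.abs_cast]
        rw [abs_mul, Nat.abs_cast] at h5
        refine lt_of_le_of_lt ?_ h5
        rw [mul_comm]
        gcongr
      obtain ⟨g1, g2, g3, g4, g5⟩ := hQε hd
      simp only at g1 g2 g3 g4 g5
      have g6 := g1 _ hy
      have g7 := dZ_ge g2.le
      have g8 : sl J p q (α i) (n * c i) - m = Λ i / N i * (Ai i + Bi i * ((n : ℝ) / N i) *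
          hf J p q (α i) (n * c i)) := by
        rw [sl_eq J p q g3 g4 g5]
        simp only [hAi, hBi]
        field_simp
        ring
      have g9 : Λ i / N i * δ < |sl J p q (α i) (n * c i) - m| := by
        rw [g8, abs_mul, abs_of_pos (by positivity : 0 < Λ i / N i)]
        gcongr
      have g10 : 1 / η ≤ L * (Λ i / N i * δ) := by
        calc 1 / η = (r * N i / Λ i) * (Λ i / N i * δ) := by
              rw [hr]; field_simp
          _ ≤ L * (Λ i / N i * δ) := by gcongr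
      have g11 : L * (Λ i / N i * δ) ≤ L * dZ (sl J p q (α i) (n * c i)) := by
        gcongr
        exact g9.le.trans g7
      exact absurd hbad.2.2 (not_lt.2 (g10.trans g11))
    · rw [div_le_iff₀ hη] at h9
      rw [Finset.card_singleton]
      have : ((1 : ℕ) : ℝ) * (2 * (η / 4) * N i + 1) = η * N i / 2 + 1 := by push_cast; ring
      rw [this]
      linarith

/-! ### finiteness of the exceptional set -/

private theorem poly_ne_zero {J a k : ℝ} {p q : ℝ} (hJ : J ≠ 0) (hp : 0 < p) (hq : 0 < q)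
    (hpq : p ≠ q) (hk : k ≠ 0) (m : ℝ) :
    (Polynomial.C m * (Polynomial.C a + Polynomial.C (p * k) * Polynomial.X) ^ 2 *
      (Polynomial.C a + Polynomial.C (q * k) * Polynomial.X) ^ 2 -
      Polynomial.C J * (Polynomial.C (a ^ 2) - Polynomial.C (p * q * k ^ 2) * Polynomial.X ^ 2) :
        Polynomial ℝ) ≠ 0 := by
  intro h
  have hev : ∀ y : ℝ, m * (a + p * k * y) ^ 2 * (a + q * k * y) ^ 2 -
      J * (a ^ 2 - p * q * k ^ 2 * y ^ 2) = 0 := by
    intro y
    have := congrArg (Polynomial.eval y) h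
    simpa using this
  have ha : a = 0 := by
    have h1 := hev (-a / (p * k))
    have e1 : a + p * k * (-a / (p * k)) = 0 := by field_simp; ring
    rw [e1] at h1
    have e2 : p * q * k ^ 2 * (-a / (p * k)) ^ 2 = q / p * a ^ 2 := by field_simp
    rw [e2] at h1
    have h2 : J * (a ^ 2 * (p - q)) = 0 := by
      have : J * (a ^ 2 - q / p * a ^ 2) = 0 := by linarith
      have h3 : J * (a ^ 2 * (p - q)) = p * (J * (a ^ 2 - q / p * a ^ 2)) := by field_simp
      rw [h3, this, mul_zero]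
    have h4 := (mul_eq_zero.1 h2).resolve_left hJ
    have h5 := (mul_eq_zero.1 h4).resolve_right (sub_ne_zero.2 hpq)
    exact pow_eq_zero_iff (two_ne_zero) |>.1 h5
  subst ha
  have h1 := hev 1
  have h2 := hev 2
  have h3 : J * (p * q * k ^ 2) = 0 := by
    linear_combination (16 * h1 - h2) / 12
  have : J * (p * q * k ^ 2) ≠ 0 := mul_ne_zero hJ (by positivity)
  exact this h3

private theorem finite_exc {J a k : ℝ} {p q : ℝ} (hJ : J ≠ 0) (hp : 0 < p) (hq : 0 < q)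
    (hpq : p ≠ q) {κ : ℝ} (hκ : 0 < κ)
    (hcase : ¬ (k = 0 ∧ a ≠ 0 ∧ ∃ m : ℤ, J / a ^ 2 = m)) :
    {y : ℝ | y ∈ Icc (0 : ℝ) 1 ∧ κ ≤ |a + p * (k * y)| ∧ κ ≤ |a + q * (k * y)| ∧
      dZ (sl J p q a (k * y)) = 0}.Finite := by
  have hround : ∀ x : ℝ, dZ x = 0 → x = (round x : ℤ) := by
    intro x hx
    unfold dZ at hx
    rw [abs_eq_zero] at hx
    linarith
  by_cases hk : k = 0
  · convert Set.finite_empty
    rw [eq_empty_iff_forall_notMem]
    rintro y ⟨-, h1, h2, h3⟩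
    apply hcase
    rw [hk] at h1 h3
    have ha : a ≠ 0 := by
      rintro rfl
      simp at h1
      linarith
    refine ⟨hk, ha, round (sl J p q a (0 * y)), ?_⟩
    rw [← hround _ h3, zero_mul, sl_eq J p q ha (by simpa using ha) (by simpa using ha)]
    ring
  · set bd : ℝ := |J| * (a ^ 2 + p * q * k ^ 2) / (κ ^ 2 * κ ^ 2) with hbd
    set P : ℤ → Polynomial ℝ := fun m =>
      Polynomial.C (m : ℝ) * (Polynomial.C a + Polynomial.C (p * k) * Polynomial.X) ^ 2 *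
      (Polynomial.C a + Polynomial.C (q * k) * Polynomial.X) ^ 2 -
      Polynomial.C J * (Polynomial.C (a ^ 2) - Polynomial.C (p * q * k ^ 2) * Polynomial.X ^ 2)
      with hP
    refine Set.Finite.subset (s := ⋃ m ∈ Finset.Icc (-⌈bd⌉) ⌈bd⌉, {y | y ∈ (P m).roots.toFinset})
      ?_ ?_
    · refine Set.Finite.biUnion (Finset.finite_toSet _) fun m _ => ?_
      exact Finset.finite_toSet _
    · rintro y ⟨hy, h1, h2, h3⟩
      have hm := hround _ h3
      set m : ℤ := round (sl J p q a (k * y)) with hmdef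
      have d1 : a + p * (k * y) ≠ 0 := fun h => by rw [h, abs_zero] at h1; linarith
      have d2 : a + q * (k * y) ≠ 0 := fun h => by rw [h, abs_zero] at h2; linarith
      have hb : |(m : ℝ)| ≤ bd := by
        rw [← hm, hbd]
        unfold sl
        rw [abs_div, abs_mul, abs_mul, abs_pow, abs_pow]
        have hky : (k * y) ^ 2 ≤ k ^ 2 := by
          have : y ^ 2 ≤ 1 := by
            have := hy.1; have := hy.2; nlinarith
          calc (k * y) ^ 2 = k ^ 2 * y ^ 2 := by ring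
            _ ≤ k ^ 2 * 1 := by gcongr
            _ = k ^ 2 := by ring
        gcongr
        calc |a ^ 2 - p * q * (k * y) ^ 2| ≤ |a ^ 2| + |p * q * (k * y) ^ 2| := abs_sub _ _
          _ = a ^ 2 + p * q * (k * y) ^ 2 := by
            rw [abs_of_nonneg (by positivity), abs_of_nonneg (by positivity)]
          _ ≤ a ^ 2 + p * q * k ^ 2 := by gcongr
      have hb2 : |m| ≤ ⌈bd⌉ := by
        have : ((|m| : ℤ) : ℝ) ≤ (⌈bd⌉ : ℝ) := by
          push_cast
          exact hb.trans (Int.le_ceil _)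
        exact_mod_cast this
      simp only [mem_iUnion]
      refine ⟨m, Finset.mem_Icc.2 (abs_le.1 hb2), ?_⟩
      rw [mem_ofPred_eq, Multiset.mem_toFinset, Polynomial.mem_roots
        (poly_ne_zero hJ hp hq hpq hk (m : ℝ)), Polynomial.IsRoot.def]
      simp only [Polynomial.eval_sub, Polynomial.eval_mul, Polynomial.eval_pow,
        Polynomial.eval_add, Polynomial.eval_C, Polynomial.eval_X]
      have e1 : (m : ℝ) * ((a + p * (k * y)) ^ 2 * (a + q * (k * y)) ^ 2) =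
          J * (a ^ 2 - p * q * (k * y) ^ 2) := by
        rw [← hm]; unfold sl
        exact div_mul_cancel₀ _ (mul_ne_zero (pow_ne_zero 2 d1) (pow_ne_zero 2 d2))
      linear_combination e1

theorem corr_small {ι : Type} (𝒰 : Ultrafilter ι) {N : ι → ℕ} (hN : Tendsto N 𝒰 atTop)
    {α c : ι → ℝ} {R : ℝ} (hα : ∀ᶠ i in (𝒰 : Filter ι), |α i| ≤ R)
    (hc : ∀ᶠ i in (𝒰 : Filter ι), |c i| * N i ≤ R) {j : ℤ} (hj : j ≠ 0)
    {ψ : ℝ → ℂ} (hψ : Continuous ψ) {κ1 : ℝ} (hκ : 0 < κ1) (hψ0 : ∀ D, |D| ≤ κ1 → ψ D = 0)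
    {p q : ℕ} (hp : 0 < p) (hq : 0 < q) (hpq : p ≠ q)
    (hne : ¬ ∃ (A : ℤ) (R' : ℝ), ∀ᶠ i in (𝒰 : Filter ι),
      N i * |j * ((p : ℝ) - q) / α i ^ 2 - A| ≤ R' ∧ (N i : ℝ) ^ 2 * |c i| ≤ R') :
    Tendsto (fun i => (1 / (N i : ℂ)) * ∑ n ∈ Finset.Icc 1 (N i / max p q),
      ψ (α i + (p * n : ℕ) * c i) * (starRingEnd ℂ) (ψ (α i + (q * n : ℕ) * c i)) *
        Complex.exp (2 * Real.pi * Complex.I * ((j * ((p : ℝ) - q) * n /
          ((α i + (p * n : ℕ) * c i) * (α i + (q * n : ℕ) * c i)) : ℝ)))) 𝒰 (𝓝 0) := by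
  have hR : 0 ≤ R := by
    obtain ⟨i, hi⟩ := hα.exists
    exact (abs_nonneg _).trans hi
  have hp' : (0 : ℝ) < p := by exact_mod_cast hp
  have hq' : (0 : ℝ) < q := by exact_mod_cast hq
  have hpq' : (p : ℝ) ≠ q := by exact_mod_cast hpq
  have hJ0 : (j : ℝ) * ((p : ℝ) - q) ≠ 0 :=
    mul_ne_zero (by exact_mod_cast hj) (sub_ne_zero.2 hpq')
  set J : ℝ := j * ((p : ℝ) - q) with hJ
  set T : ℝ := 2 * R + 1 + κ1 with hTdef
  have hT : -T ≤ T := by linarith
  set ψ' : ℝ → ℂ := fun D => ψ (projIcc (-T) T hT D) with hψ'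
  have hψ'eq : ∀ D, |D| ≤ T → ψ' D = ψ D := by
    intro D hD
    simp only [hψ']
    rw [projIcc_of_mem hT (abs_le.1 hD)]
  have hψ'0 : ∀ D, |D| ≤ κ1 → ψ' D = 0 := by
    intro D hD
    rw [hψ'eq D (by linarith), hψ0 D hD]
  have huc : UniformContinuous ψ' := by
    have h1 : UniformContinuous fun x : Icc (-T) T => ψ x :=
      CompactSpace.uniformContinuous_of_continuous (hψ.comp continuous_subtype_val)
    exact h1.comp (LipschitzWith.projIcc hT).uniformContinuous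
  obtain ⟨B, hB, hψB⟩ : ∃ B > 0, ∀ D, ‖ψ' D‖ ≤ B := by
    obtain ⟨B, hB⟩ := (isCompact_Icc (a := -T) (b := T)).exists_bound_of_continuousOn
      hψ.continuousOn
    refine ⟨max B 1, by positivity, fun D => ?_⟩
    exact (hB _ (projIcc (-T) T hT D).2).trans (le_max_left _ _)
  have hNN : ∀ i, N i / max p q ≤ N i := fun i => Nat.div_le_self _ _
  obtain ⟨a, ha⟩ := exists_lim 𝒰 hα
  have hc' : ∀ᶠ i in (𝒰 : Filter ι), |c i * N i| ≤ R := by
    filter_upwards [hc] with i hi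
    rwa [abs_mul, Nat.abs_cast]
  obtain ⟨k, hk⟩ := exists_lim 𝒰 hc'
  have key : ∀ η > 0, ∀ᶠ i in (𝒰 : Filter ι),
      ‖SS J p q ψ' (N i / max p q) (α i) (c i)‖ ≤ 14 * η * B ^ 2 * N i := by
    intro η hη
    by_cases hcase : k = 0 ∧ a ≠ 0 ∧ ∃ m : ℤ, J / a ^ 2 = m
    · obtain ⟨hk0, ha0, m, hm⟩ := hcase
      rw [hk0] at hk
      refine caseB 𝒰 hN hNN hR hα hc hJ0 hκ hψ'0 hB hψB huc hp hq ha ha0 hk hm ?_ hη
      intro R'
      have h1 : ¬ ∀ᶠ i in (𝒰 : Filter ι),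
          N i * |J / α i ^ 2 - m| ≤ R' ∧ (N i : ℝ) ^ 2 * |c i| ≤ R' := by
        intro h
        exact hne ⟨m, R', h⟩
      rw [← Ultrafilter.eventually_not] at h1
      filter_upwards [h1] with i hi
      rw [lt_max_iff]
      by_contra hcon
      rw [not_or, not_lt, not_lt] at hcon
      exact hi hcon
    · exact caseA 𝒰 hN hNN hR hα hc J hκ hψ'0 hB hψB huc hp hq ha hk
        (finite_exc hJ0 hp' hq' hpq' (by linarith) hcase) hη
  rw [Metric.tendsto_nhds]
  intro ε hε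
  have hN' : Tendsto (fun i => (N i : ℝ)) 𝒰 atTop := tendsto_natCast_atTop_atTop.comp hN
  filter_upwards [key (ε / (28 * B ^ 2)) (by positivity), hα, hc, hN'.eventually_ge_atTop 1]
    with i h1 h2 h3 h4
  have hNp : (0 : ℝ) < N i := by linarith
  have hsum : ∑ n ∈ Finset.Icc 1 (N i / max p q),
      ψ (α i + (p * n : ℕ) * c i) * (starRingEnd ℂ) (ψ (α i + (q * n : ℕ) * c i)) *
        Complex.exp (2 * Real.pi * Complex.I * ((J * n /
          ((α i + (p * n : ℕ) * c i) * (α i + (q * n : ℕ) * c i)) : ℝ))) =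
      SS J p q ψ' (N i / max p q) (α i) (c i) := by
    unfold SS
    refine Finset.sum_congr rfl fun n hn => ?_
    have hn2 : n * max p q ≤ N i :=
      (Nat.mul_le_mul_right _ (Finset.mem_Icc.1 hn).2).trans (Nat.div_mul_le_self _ _)
    have gen : ∀ r : ℕ, r ≤ max p q → |α i + (r * n : ℕ) * c i| ≤ T := by
      intro r hr
      have h5 : ((r * n : ℕ) : ℝ) ≤ N i := by
        have : r * n ≤ N i := by
          calc r * n ≤ max p q * n := Nat.mul_le_mul_right _ hr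
            _ = n * max p q := Nat.mul_comm _ _
            _ ≤ N i := hn2
        exact_mod_cast this
      calc |α i + (r * n : ℕ) * c i| ≤ |α i| + |((r * n : ℕ) : ℝ) * c i| := abs_add_le _ _
        _ = |α i| + |c i| * (r * n : ℕ) := by rw [abs_mul, Nat.abs_cast, mul_comm |c i|]
        _ ≤ R + |c i| * N i := by gcongr
        _ ≤ R + R := by gcongr
        _ ≤ T := by rw [hTdef]; linarith
    rw [hψ'eq _ (gen p (le_max_left _ _)), hψ'eq _ (gen q (le_max_right _ _))]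
  rw [hsum, dist_zero_right, norm_mul, norm_div, norm_one, Complex.norm_natCast]
  calc 1 / (N i : ℝ) * ‖SS J p q ψ' (N i / max p q) (α i) (c i)‖ ≤
      1 / (N i : ℝ) * (14 * (ε / (28 * B ^ 2)) * B ^ 2 * N i) := by gcongr
    _ = ε / 2 := by field_simp; norm_num
    _ < ε := by linarith

end Pool.Agent.Work.MP_c9c104_nt
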