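import Pool.Agent.Work.MP_c9c104_nt.Quot
import Pool.Agent.Work.MP_c9c104_nt.Poly

/-!
Type C sequences: parametrization by closed horocycles.
-/

open MeasureTheory Filter Topology Set ProbabilityTheory
open scoped ENNReal NNReal

namespace Pool.Agent.Work.MP_c9c104_nt

variable {X : Type} [TopologicalSpace X] [MeasurableSpace X] [MulAction G X] [HomSp X]
variable {Z : Type} [TopologicalSpace Z] [MeasurableSpace Z] [MulAction G Z] [PhSp Z]

theorem tcp_trsq (w : G) :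
    (w 0 0 + w 1 1) ^ 2 = 4 + (w 0 0 - w 1 1) ^ 2 + 4 * (w 0 1 * w 1 0) := by
  linear_combination 4 * G_det w

theorem tcp_conjtr (g w : G) :
    (g * w * g⁻¹) 0 0 + (g * w * g⁻¹) 1 1 = w 0 0 + w 1 1 := by
  simp only [mul00, mul01, mul10, mul11, inv00, inv01, inv10, inv11]
  linear_combination (w 0 0 + w 1 1) * G_det g

theorem tcp_sq01 (w : G) : (w * w) 0 1 = (w 0 0 + w 1 1) * w 0 1 := by simp; ring
theorem tcp_sq10 (w : G) : (w * w) 1 0 = (w 0 0 + w 1 1) * w 1 0 := by simp; ring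

theorem tcp_ynrm_zero {w : G} : ynrm w = 0 ↔ w 0 0 = w 1 1 ∧ w 0 1 = 0 ∧ w 1 0 = 0 := by
  constructor
  · intro h
    obtain ⟨h1, h2, h3⟩ := ynrm_le_iff.1 h.le
    exact ⟨by linarith [abs_nonpos_iff.1 h1], abs_nonpos_iff.1 h2, abs_nonpos_iff.1 h3⟩
  · rintro ⟨h1, h2, h3⟩
    refine le_antisymm ?_ (ynrm_nonneg _)
    rw [ynrm_le_iff, h1, h2, h3]
    simp

theorem tcp_ynrm_conj {g w : G} (h : ynrm w = 0) : ynrm (g * w * g⁻¹) = 0 := by
  rw [tcp_ynrm_zero] at h ⊢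
  obtain ⟨h1, h2, h3⟩ := h
  simp only [mul00, mul01, mul10, mul11, inv00, inv01, inv10, inv11, h1, h2, h3]
  refine ⟨by ring, by ring, by ring⟩

theorem tcp_conju (g : G) (σ : ℝ) :
    (g * u σ * g⁻¹) 0 0 = 1 - σ * (g 0 0 * g 1 0) ∧ (g * u σ * g⁻¹) 0 1 = σ * g 0 0 ^ 2 ∧
    (g * u σ * g⁻¹) 1 0 = - (σ * g 1 0 ^ 2) ∧ (g * u σ * g⁻¹) 1 1 = 1 + σ * (g 0 0 * g 1 0) := by
  have h := G_det g
  simp only [mul00, mul01, mul10, mul11, inv00, inv01, inv10, inv11, u00, u01, u10, u11]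
  refine ⟨?_, ?_, ?_, ?_⟩
  · linear_combination h
  · ring
  · ring
  · linear_combination h

theorem tcp_parab {γ : G} (h4 : (γ 0 0 + γ 1 1) ^ 2 = 4) (hy : ynrm γ ≠ 0) :
    ∃ (g1 : G) (σ : ℝ), (σ = 1 ∨ σ = -1) ∧ γ * γ = g1 * u σ * g1⁻¹ := by
  obtain ⟨τ, hτ⟩ : ∃ τ, τ = γ 0 0 + γ 1 1 := ⟨_, rfl⟩
  have hτ0 : τ ≠ 0 := by
    intro h; rw [← hτ, h] at h4; norm_num at h4
  have hdet := G_det γ
  have e00 : (γ * γ) 0 0 = 1 + τ * (γ 0 0 - γ 1 1) / 2 := by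
    rw [mul00, hτ]; linear_combination (-1) * hdet + (1/2) * h4
  have e11 : (γ * γ) 1 1 = 1 - τ * (γ 0 0 - γ 1 1) / 2 := by
    rw [mul11, hτ]; linear_combination (-1) * hdet + (1/2) * h4
  have e01 : (γ * γ) 0 1 = τ * γ 0 1 := by rw [tcp_sq01, hτ]
  have e10 : (γ * γ) 1 0 = τ * γ 1 0 := by rw [tcp_sq10, hτ]
  obtain ⟨p, hp⟩ : ∃ p, p = τ * (γ 0 0 - γ 1 1) / 2 := ⟨_, rfl⟩
  obtain ⟨q, hq⟩ : ∃ q, q = τ * γ 0 1 := ⟨_, rfl⟩
  obtain ⟨r, hr⟩ : ∃ r, r = τ * γ 1 0 := ⟨_, rfl⟩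
  rw [← hp] at e00 e11
  rw [← hq] at e01
  rw [← hr] at e10
  have hnil : p ^ 2 + q * r = 0 := by
    have := tcp_trsq γ
    rw [h4] at this
    rw [hp, hq, hr]
    linear_combination (-τ ^ 2 / 4) * this
  by_cases hq0 : q = 0
  · have hp0 : p = 0 := by
      rw [hq0] at hnil
      have : p ^ 2 = 0 := by linarith
      exact pow_eq_zero_iff (two_ne_zero) |>.1 this
    have hr0 : r ≠ 0 := by
      intro hr0
      apply hy
      rw [tcp_ynrm_zero]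
      refine ⟨?_, ?_, ?_⟩
      · rw [hp0] at hp
        have : γ 0 0 - γ 1 1 = 0 := by
          by_contra h
          exact (mul_ne_zero hτ0 h) (by linarith)
        linarith
      · rw [hq0] at hq
        rcases mul_eq_zero.1 hq.symm with h | h
        · exact absurd h hτ0
        · exact h
      · rw [hr0] at hr
        rcases mul_eq_zero.1 hr.symm with h | h
        · exact absurd h hτ0
        · exact h
    have hc0 : 0 < |r| := abs_pos.2 hr0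
    have hc : √|r| ≠ 0 := (Real.sqrt_pos.2 hc0).ne'
    have hc2 : √|r| ^ 2 = |r| := Real.sq_sqrt hc0.le
    refine ⟨⟨!![0, -(√|r|)⁻¹; √|r|, 0], ?_⟩, if 0 < r then -1 else 1, ?_, ?_⟩
    · rw [Matrix.det_fin_two]; simp [hc]
    · split_ifs <;> simp
    · obtain ⟨h1, h2, h3, h4⟩ := tcp_conju
        (⟨!![0, -(√|r|)⁻¹; √|r|, 0], by rw [Matrix.det_fin_two]; simp [hc]⟩ : G)
        (if 0 < r then -1 else 1)
      apply G_ext
      · rw [h1, e00, hp0]; simp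
      · rw [h2, e01, hq0]; simp
      · rw [h3, e10]
        simp only [Matrix.of_apply, Matrix.cons_val', Matrix.cons_val_zero, Matrix.cons_val_one,
          Matrix.cons_val_fin_one]
        rw [hc2]
        split_ifs with h
        · rw [abs_of_pos h]; ring
        · rw [abs_of_nonpos (not_lt.1 h)]; ring
      · rw [h4, e11, hp0]; simp
  · have hc0 : 0 < |q| := abs_pos.2 hq0
    have hc : √|q| ≠ 0 := (Real.sqrt_pos.2 hc0).ne'
    have hc2 : √|q| ^ 2 = |q| := Real.sq_sqrt hc0.le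
    obtain ⟨σ, hσ⟩ : ∃ σ : ℝ, σ = if 0 < q then 1 else -1 := ⟨_, rfl⟩
    have hσ1 : σ = 1 ∨ σ = -1 := by rw [hσ]; split_ifs <;> simp
    have hσ2 : σ * σ = 1 := by rcases hσ1 with h | h <;> rw [h] <;> norm_num
    have hσ3 : σ * |q| = q := by
      rw [hσ]
      split_ifs with h
      · rw [abs_of_pos h]; ring
      · rw [abs_of_nonpos (not_lt.1 h)]; ring
    refine ⟨⟨!![√|q|, 0; -(σ * p) / √|q|, (√|q|)⁻¹], ?_⟩, σ, hσ1, ?_⟩
    · rw [Matrix.det_fin_two]; simp [hc]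
    · obtain ⟨h1, h2, h3, h4⟩ := tcp_conju
        (⟨!![√|q|, 0; -(σ * p) / √|q|, (√|q|)⁻¹], by rw [Matrix.det_fin_two]; simp [hc]⟩ : G) σ
      have hm : √|q| * (-(σ * p) / √|q|) = -(σ * p) := by field_simp
      simp only [Matrix.of_apply, Matrix.cons_val', Matrix.cons_val_zero, Matrix.cons_val_one,
          Matrix.cons_val_fin_one] at h1 h2 h3 h4
      rw [hm] at h1 h4
      rw [hc2, hσ3] at h2
      rw [div_pow, hc2] at h3
      apply G_ext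
      · rw [h1, e00]; linear_combination (-p) * hσ2
      · rw [h2, e01]
      · rw [h3, e10]
        have : |q| ≠ 0 := hc0.ne'
        field_simp
        linear_combination σ ^ 3 * hnil + σ ^ 3 * r * hσ3 - r * |q| * (σ * σ + 1) * hσ2
      · rw [h4, e11]; linear_combination (p) * hσ2

/-- consequences of the type C condition for the matrix entries -/
theorem tcp_bound {η : G} {C N : ℝ} (hN : 0 < N)
    (h : ∀ s ∈ Icc 0 N, ynrm (u s * η * u (-s)) ≤ C) :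
    |η 0 1| ≤ C ∧ |η 0 0 - η 1 1| ≤ 8 * C / N ∧ |η 1 0| ≤ 8 * C / N ^ 2 := by
  have hq : ∀ s ∈ Icc 0 N, |η 0 1 + (η 1 1 - η 0 0) * s + (-η 1 0) * s ^ 2| ≤ C := by
    intro s hs
    have h1 := (ynrm_le_iff.1 (h s hs)).2.1
    rw [conj01] at h1
    convert h1 using 2
    ring
  obtain ⟨h1, h2, h3⟩ := quad_coef _ _ _ N C hN hq
  refine ⟨h1, ?_, ?_⟩
  · rw [abs_sub_comm]; exact h2
  · rw [← abs_neg]; exact h3

theorem typeC_param {f : X → ℝ} (hf : Cc f) {ι : Type} (𝒰 : Ultrafilter ι) {x : ι → X}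
    {N : ι → ℕ} (hN : Tendsto N 𝒰 atTop) {C : ℝ}
    (hT : ∀ᶠ i in (𝒰 : Filter ι), TypeC C (x i) (N i)) :
    (∀ᶠ i in (𝒰 : Filter ι), ∀ n ∈ Finset.Icc 1 (N i), f (u (n : ℝ) • x i) = 0) ∨
    ∃ (x0 : X) (R : ℝ) (ξ : ι → G), u 1 ∈ MulAction.stabilizer G x0 ∧
      ∀ᶠ i in (𝒰 : Filter ι), x i = ξ i • x0 ∧ |ξ i 0 0| ≤ R ∧ |ξ i 1 0| * N i ≤ R := by
  by_cases hzero : ∀ᶠ i in (𝒰 : Filter ι), ∀ n ∈ Finset.Icc 1 (N i), f (u (n : ℝ) • x i) = 0
  · exact Or.inl hzero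
  right
  rw [← Ultrafilter.eventually_not] at hzero
  obtain ⟨i0, -⟩ := (hzero.and hT).exists
  obtain ⟨xs⟩ : Nonempty X := ⟨x i0⟩
  have hNN : Tendsto (fun i => (N i : ℝ)) 𝒰 atTop := tendsto_natCast_atTop_atTop.comp hN
  have hN1 : ∀ᶠ i in (𝒰 : Filter ι), (1 : ℝ) ≤ N i := hNN.eventually_ge_atTop 1
  obtain ⟨F, hF, hFc⟩ := conj_finite hf.2 (3 + 11 * C) xs
  -- all data
  have hdata : ∀ᶠ i in (𝒰 : Filter ι), ∃ γ ∈ (F : Set G), ∃ n : ℕ, n ≤ N i ∧ ∃ η h : G,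
      ynrm η ≠ 0 ∧ (∀ s ∈ Icc (0 : ℝ) (N i), ynrm (u s * η * u (-s)) ≤ C) ∧
      h • xs = u (n : ℝ) • x i ∧ u (n : ℝ) * η * u (-(n : ℝ)) = h * γ * h⁻¹ := by
    filter_upwards [hzero, hT, hN1] with i h1 h2 h3
    push Not at h1
    obtain ⟨n, hn, hne⟩ := h1
    rw [Finset.mem_Icc] at hn
    obtain ⟨η, hη, hη0, hηC⟩ := h2
    have hn0 : (0 : ℝ) ≤ n := Nat.cast_nonneg _
    have hnN : (n : ℝ) ≤ N i := Nat.cast_le.2 hn.2
    have hC0 : 0 ≤ C := (ynrm_nonneg _).trans (hηC 0 ⟨le_rfl, hn0.trans hnN⟩)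
    have hmem : u (n : ℝ) • x i ∈ tsupport f := subset_tsupport f hne
    have hstab : u (n : ℝ) * η * u (-(n : ℝ)) ∈ MulAction.stabilizer G (u (n : ℝ) • x i) := by
      rw [MulAction.mem_stabilizer_iff, smul_smul, mul_assoc, u_neg_mul, mul_one, ← smul_smul,
        MulAction.mem_stabilizer_iff.1 hη]
    obtain ⟨b1, b2, b3⟩ := tcp_bound (by linarith : (0 : ℝ) < N i) hηC
    have hb2 : |η 0 0 - η 1 1| ≤ 8 * C := b2.trans (div_le_self (by positivity) h3)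
    have hb3 : |η 1 0| ≤ 8 * C := b3.trans (div_le_self (by positivity) (one_le_pow₀ h3))
    have htr : |η 0 0 + η 1 1| ≤ 2 + 10 * C := by
      refine abs_le_of_sq_le_sq ?_ (by positivity)
      rw [tcp_trsq]
      have e1 : (η 0 0 - η 1 1) ^ 2 ≤ (8 * C) ^ 2 := by
        rw [← sq_abs]; gcongr
      have e2 : η 0 1 * η 1 0 ≤ C * (8 * C) := by
        refine (le_abs_self _).trans ?_
        rw [abs_mul]
        gcongr
      nlinarith
    obtain ⟨y1, y2, y3⟩ := ynrm_le_iff.1 (hηC n ⟨hn0, hnN⟩)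
    have htr' : (u (n : ℝ) * η * u (-(n : ℝ))) 0 0 + (u (n : ℝ) * η * u (-(n : ℝ))) 1 1 =
        η 0 0 + η 1 1 := by
      rw [← u_inv, tcp_conjtr]
    rw [← htr'] at htr
    have hbd : ∀ a b, |(u (n : ℝ) * η * u (-(n : ℝ))) a b| ≤ 3 + 11 * C := by
      generalize u (n : ℝ) * η * u (-(n : ℝ)) = w at *
      rw [abs_le] at y1 y2 y3 htr
      intro a b
      rw [abs_le]
      fin_cases a <;> fin_cases b <;> simp only [Fin.zero_eta, Fin.mk_one] <;>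
        constructor <;> linarith
    obtain ⟨h, γ, hγ, hh, he⟩ := hFc _ hmem _ hstab hbd
    exact ⟨γ, hγ, n, hn.2, η, h, hη0, hηC, hh, he⟩
  rw [Ultrafilter.eventually_exists_mem_iff F.finite_toSet] at hdata
  obtain ⟨γ, hγF, hdata⟩ := hdata
  -- entries of the conjugated elements
  have hC0 : 0 ≤ C := by
    obtain ⟨i, ⟨n, -, η, h, -, h2, -⟩, h3⟩ := (hdata.and hN1).exists
    exact (ynrm_nonneg _).trans (h2 0 ⟨le_rfl, by linarith⟩)
  have htrace : (γ 0 0 + γ 1 1) ^ 2 = 4 := by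
    have hlim : Tendsto (fun i => (96 * C ^ 2) * ((N i : ℝ)⁻¹)) 𝒰 (𝓝 0) := by
      have := (tendsto_inv_atTop_zero.comp hNN).const_mul (96 * C ^ 2)
      simpa using this
    have hev : ∀ᶠ i in (𝒰 : Filter ι), |(γ 0 0 + γ 1 1) ^ 2 - 4| ≤ (96 * C ^ 2) * ((N i : ℝ)⁻¹) := by
      filter_upwards [hdata, hN1] with i h1 h3
      obtain ⟨n, hn, η, h, hη0, hηC, hh, he⟩ := h1
      have hN0 : (0 : ℝ) < N i := by linarith
      obtain ⟨b1, b2, b3⟩ := tcp_bound hN0 hηC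
      have htr : γ 0 0 + γ 1 1 = η 0 0 + η 1 1 := by
        rw [← tcp_conjtr h γ, ← he, ← u_inv, tcp_conjtr]
      rw [htr, tcp_trsq]
      have e1 : (η 0 0 - η 1 1) ^ 2 ≤ (8 * C / N i) ^ 2 := by
        rw [← sq_abs]; gcongr
      have e2 : |η 0 1 * η 1 0| ≤ C * (8 * C / N i ^ 2) := by
        rw [abs_mul]
        gcongr
      have e3 : |4 + (η 0 0 - η 1 1) ^ 2 + 4 * (η 0 1 * η 1 0) - 4| ≤
          (8 * C / N i) ^ 2 + 4 * (C * (8 * C / N i ^ 2)) := by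
        have := abs_le.1 e2
        rw [abs_le]
        constructor <;> nlinarith [sq_nonneg (η 0 0 - η 1 1), sq_nonneg (8 * C / N i : ℝ)]
      refine e3.trans ?_
      have e4 : (8 * C / N i) ^ 2 + 4 * (C * (8 * C / N i ^ 2)) = 96 * C ^ 2 * ((N i : ℝ)⁻¹) ^ 2 := by
        field_simp; ring
      rw [e4]
      have e5 : (N i : ℝ)⁻¹ ≤ 1 := inv_le_one_of_one_le₀ h3
      have e6 : 0 ≤ (N i : ℝ)⁻¹ := by positivity
      have e7 : ((N i : ℝ)⁻¹) ^ 2 ≤ (N i : ℝ)⁻¹ := by nlinarith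
      gcongr
    have h0 : |(γ 0 0 + γ 1 1) ^ 2 - 4| ≤ 0 := ge_of_tendsto hlim hev
    have := abs_nonpos_iff.1 h0
    linarith
  have hγy : ynrm γ ≠ 0 := by
    obtain ⟨i, ⟨n, hn, η, h, hη0, hηC, hh, he⟩⟩ := hdata.exists
    intro h0
    apply hη0
    have h1 := tcp_ynrm_conj (g := h) h0
    rw [← he] at h1
    have h2 := tcp_ynrm_conj (g := u (-(n : ℝ))) h1
    rw [u_inv, neg_neg] at h2
    have h3 : u (-(n : ℝ)) * (u (n : ℝ) * η * u (-(n : ℝ))) * u (n : ℝ) = η := by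
      have := conj_neg η (-(n : ℝ))
      rwa [neg_neg] at this
    rwa [h3] at h2
  obtain ⟨g1, σ, hσ, hγγ⟩ := tcp_parab htrace hγy
  have hγs : γ * γ ∈ MulAction.stabilizer G xs := mul_mem (hF γ hγF) (hF γ hγF)
  have hus : u σ ∈ MulAction.stabilizer G (g1⁻¹ • xs) := by
    rw [MulAction.mem_stabilizer_iff, smul_smul]
    rw [hγγ, MulAction.mem_stabilizer_iff, ← smul_smul] at hγs
    rw [← smul_smul, eq_inv_smul_iff, smul_smul, hγs]
  have hu1 : u 1 ∈ MulAction.stabilizer G (g1⁻¹ • xs) := by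
    rcases hσ with h | h
    · rwa [h] at hus
    · rw [h] at hus
      have := inv_mem hus
      rwa [u_inv, neg_neg] at this
  -- the elements
  have hξ : ∀ᶠ i in (𝒰 : Filter ι), ∃ ξ : G, x i = ξ • (g1⁻¹ • xs) ∧ |ξ 0 0| ≤ 16 * C + 1 ∧
      |ξ 1 0| * N i ≤ 16 * C + 1 := by
    filter_upwards [hdata, hN1] with i h1 h3
    obtain ⟨n, hn, η, h, hη0, hηC, hh, he⟩ := h1
    have hN0 : (0 : ℝ) < N i := by linarith
    obtain ⟨b1, b2, b3⟩ := tcp_bound hN0 hηC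
    have htr : (η 0 0 + η 1 1) ^ 2 = 4 := by
      rw [← htrace, ← tcp_conjtr h γ, ← he, ← u_inv, tcp_conjtr]
    have htr2 : |η 0 0 + η 1 1| = 2 := by
      rw [← abs_of_pos (show (0 : ℝ) < 2 by norm_num), ← sq_eq_sq_iff_abs_eq_abs, htr]
      norm_num
    obtain ⟨ξ, hξ⟩ : ∃ ξ : G, ξ = u (-(n : ℝ)) * h * g1 := ⟨_, rfl⟩
    have heq : η = u (-(n : ℝ)) * (h * γ * h⁻¹) * u (n : ℝ) := by
      rw [← he]
      have := conj_neg η (-(n : ℝ))
      rw [neg_neg] at this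
      exact this.symm
    have hun : u (n : ℝ) = (u (-(n : ℝ)))⁻¹ := by rw [u_inv, neg_neg]
    have hee : η * η = ξ * u σ * ξ⁻¹ := by
      calc η * η = (u (-(n : ℝ)) * (h * γ * h⁻¹) * u (n : ℝ)) *
            (u (-(n : ℝ)) * (h * γ * h⁻¹) * u (n : ℝ)) := by rw [← heq]
        _ = u (-(n : ℝ)) * h * (γ * γ) * h⁻¹ * u (n : ℝ) := by
            rw [hun]; group
        _ = ξ * u σ * ξ⁻¹ := by
            rw [hγγ, hξ, hun]; group
    obtain ⟨-, k01, k10, -⟩ := tcp_conju ξ σ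
    rw [← hee] at k01 k10
    rw [tcp_sq01] at k01
    rw [tcp_sq10] at k10
    have hσa : |σ| = 1 := by rcases hσ with h | h <;> rw [h] <;> norm_num
    have q1 : |ξ 0 0| ^ 2 = 2 * |η 0 1| := by
      have := congrArg abs k01
      rw [abs_mul, abs_mul, htr2, hσa, one_mul, abs_pow] at this
      exact this.symm
    have q2 : |ξ 1 0| ^ 2 = 2 * |η 1 0| := by
      have := congrArg abs k10
      rw [abs_neg, abs_mul, abs_mul, htr2, hσa, one_mul, abs_pow] at this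
      exact this.symm
    refine ⟨ξ, ?_, ?_, ?_⟩
    · rw [hξ, smul_smul, mul_assoc, mul_inv_cancel, mul_one, ← smul_smul, hh, smul_smul,
        u_neg_mul, one_smul]
    · refine le_of_sq_le_sq ?_ (by positivity)
      nlinarith
    · refine le_of_sq_le_sq ?_ (by positivity)
      rw [mul_pow, q2]
      rw [le_div_iff₀ (by positivity)] at b3
      nlinarith
  classical
  refine ⟨g1⁻¹ • xs, 16 * C + 1, fun i => if h : ∃ ξ : G, x i = ξ • (g1⁻¹ • xs) ∧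
    |ξ 0 0| ≤ 16 * C + 1 ∧ |ξ 1 0| * N i ≤ 16 * C + 1 then h.choose else 1, hu1, ?_⟩
  filter_upwards [hξ] with i hi
  rw [dif_pos hi]
  exact hi.choose_spec

end Pool.Agent.Work.MP_c9c104_nt
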