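import Pool.Agent.Work.MP_c9c104_nt.Quot

/-!
Fourier approximation near a closed horocycle.
-/

open MeasureTheory Filter Topology Set ProbabilityTheory
open scoped ENNReal NNReal

namespace Pool.Agent.Work.MP_c9c104_nt

variable {X : Type} [TopologicalSpace X] [MeasurableSpace X] [MulAction G X] [HomSp X]
variable {Z : Type} [TopologicalSpace Z] [MeasurableSpace Z] [MulAction G Z] [PhSp Z]

/-- diagonal matrices -/
noncomputable def dg (D : ℝ) (hD : D ≠ 0) : G :=
  ⟨!![D, 0; 0, D⁻¹], by simp [Matrix.det_fin_two, hD]⟩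

@[simp] theorem dg00 (D : ℝ) (hD : D ≠ 0) : dg D hD 0 0 = D := by simp [dg]
@[simp] theorem dg01 (D : ℝ) (hD : D ≠ 0) : dg D hD 0 1 = 0 := by simp [dg]
@[simp] theorem dg10 (D : ℝ) (hD : D ≠ 0) : dg D hD 1 0 = 0 := by simp [dg]
@[simp] theorem dg11 (D : ℝ) (hD : D ≠ 0) : dg D hD 1 1 = D⁻¹ := by simp [dg]

theorem trig_approx {g : ℝ → ℂ} (hg : Continuous g) (hp : ∀ t, g (t + 1) = g t) {ε : ℝ}
    (hε : 0 < ε) : ∃ c : ℤ →₀ ℂ, ∀ t : ℝ,
      ‖g t - c.sum (fun j z => z * Complex.exp (2 * Real.pi * Complex.I * (j * t : ℝ)))‖ ≤ ε := by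
  have : Fact ((0 : ℝ) < 1) := ⟨one_pos⟩
  have hper : Function.Periodic g 1 := hp
  set F : C(AddCircle (1 : ℝ), ℂ) := ⟨hper.lift, by
    apply continuous_coinduced_dom.2
    exact hg⟩ with hF
  have h1 : F ∈ (Submodule.span ℂ (range (@fourier (1 : ℝ)))).topologicalClosure := by
    rw [span_fourier_closure_eq_top]; trivial
  have h2 : F ∈ closure ((Submodule.span ℂ (range (@fourier (1 : ℝ)))) :
    Set (C(AddCircle (1 : ℝ), ℂ))) := h1
  rw [Metric.mem_closure_iff] at h2
  obtain ⟨b, hb, hd⟩ := h2 ε hε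
  obtain ⟨c, hc⟩ := Finsupp.mem_span_range_iff_exists_finsupp.1 hb
  refine ⟨c, fun t => ?_⟩
  have h3 : ‖(F - b) (t : AddCircle (1 : ℝ))‖ ≤ ‖F - b‖ := ContinuousMap.norm_coe_le_norm _ _
  rw [← dist_eq_norm F b] at h3
  have h4 : (F - b) (t : AddCircle (1 : ℝ)) =
      g t - c.sum (fun j z => z * Complex.exp (2 * Real.pi * Complex.I * (j * t : ℝ))) := by
    rw [ContinuousMap.sub_apply]
    congr 1
    rw [← hc]
    simp only [Finsupp.sum]
    rw [ContinuousMap.sum_apply]
    refine Finset.sum_congr rfl fun j _ => ?_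
    rw [ContinuousMap.smul_apply, fourier_coe_apply, smul_eq_mul]
    congr 2
    push_cast
    ring
  rw [← h4]
  exact h3.trans hd.le

theorem hat_sum (x : ℝ) (K : ℕ) (h : |x| + 1 ≤ K) :
    ∑ k ∈ Finset.Icc (-(K : ℤ)) K, max 0 (1 - |x - k|) = 1 := by
  set n : ℤ := ⌊x⌋ with hn
  have h1 : (n : ℝ) ≤ x := Int.floor_le x
  have h2 : x < n + 1 := Int.lt_floor_add_one x
  have hx := abs_le.1 (show |x| ≤ K - 1 by linarith)
  have hsub : ({n, n + 1} : Finset ℤ) ⊆ Finset.Icc (-(K : ℤ)) K := by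
    intro k hk
    rw [Finset.mem_insert, Finset.mem_singleton] at hk
    rw [Finset.mem_Icc]
    have e1 : (-(K : ℤ) : ℤ) ≤ n := by
      have : (-(K : ℤ) : ℝ) < n + 1 := by push_cast; linarith
      have : (-(K : ℤ) : ℤ) < n + 1 := by exact_mod_cast this
      omega
    have e2 : n + 1 ≤ (K : ℤ) := by
      have : ((n + 1 : ℤ) : ℝ) ≤ ((K : ℤ) : ℝ) := by push_cast; linarith
      exact_mod_cast this
    rcases hk with rfl | rfl
    · exact ⟨e1, by omega⟩
    · exact ⟨by omega, e2⟩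
  rw [← Finset.sum_subset hsub]
  · rw [Finset.sum_pair (by omega)]
    rw [abs_of_nonneg (by linarith), abs_of_nonpos (by push_cast; linarith),
      max_eq_right (by linarith), max_eq_right (by push_cast; linarith)]
    push_cast
    ring
  · intro k _ hk
    rw [Finset.mem_insert, Finset.mem_singleton, not_or] at hk
    apply max_eq_left
    have hk' : k ≤ n - 1 ∨ n + 2 ≤ k := by omega
    rcases hk' with hk' | hk'
    · have : (k : ℝ) ≤ n - 1 := by exact_mod_cast hk'
      rw [abs_of_nonneg (by linarith)]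
      linarith
    · have : (n : ℝ) + 2 ≤ k := by exact_mod_cast hk'
      rw [abs_of_nonpos (by linarith)]
      linarith

theorem small_zero {x0 : X} (h0 : u 1 ∈ MulAction.stabilizer G x0) {f : X → ℝ} (hf : Cc f) :
    ∃ κ > 0, ∀ ξ : G, |ξ 0 0| ≤ κ → |ξ 1 0| ≤ κ → f (ξ • x0) = 0 := by
  obtain ⟨ε, hε, hdisc⟩ := unif_disc (X := X) hf.2
  refine ⟨min 1 (ε / 2), by positivity, fun ξ h1 h2 => ?_⟩
  by_contra hne
  have hmem : ξ • x0 ∈ tsupport f := subset_tsupport f hne
  have hst : ξ * u 1 * ξ⁻¹ ∈ MulAction.stabilizer G (ξ • x0) := by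
    rw [MulAction.mem_stabilizer_iff]
    rw [smul_smul, mul_assoc, inv_mul_cancel, mul_one, mul_smul,
      MulAction.mem_stabilizer_iff.1 h0]
  have hk0 : (0 : ℝ) ≤ min 1 (ε / 2) := by positivity
  have hk1 : min 1 (ε / 2) ≤ 1 := min_le_left _ _
  have hk2 : min 1 (ε / 2) ≤ ε / 2 := min_le_right _ _
  have hb : ∀ x y : ℝ, |x| ≤ min 1 (ε / 2) → |y| ≤ min 1 (ε / 2) → |x * y| < ε := by
    intro x y hx hy
    rw [abs_mul]
    have : |x| * |y| ≤ 1 * (ε / 2) :=
      mul_le_mul (hx.trans hk1) (hy.trans hk2) (abs_nonneg _) (by norm_num)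
    linarith
  have hd := G_det ξ
  have hn : nrm (ξ * u 1 * ξ⁻¹) < ε := by
    rw [nrm_lt_iff]
    have e00 : (ξ * u 1 * ξ⁻¹) 0 0 - 1 = -(ξ 0 0 * ξ 1 0) := by
      simp only [mul00, mul01, u00, u01, u10, u11, inv00, inv10]
      linear_combination hd
    have e11 : (ξ * u 1 * ξ⁻¹) 1 1 - 1 = ξ 0 0 * ξ 1 0 := by
      simp only [mul10, mul11, u00, u01, u10, u11, inv01, inv11]
      linear_combination hd
    have e01 : (ξ * u 1 * ξ⁻¹) 0 1 = ξ 0 0 * ξ 0 0 := by
      simp only [mul00, mul01, u00, u01, u10, u11, inv01, inv11]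
      ring
    have e10 : (ξ * u 1 * ξ⁻¹) 1 0 = -(ξ 1 0 * ξ 1 0) := by
      simp only [mul10, mul11, u00, u01, u10, u11, inv00, inv10]
      ring
    rw [e00, e11, e01, e10, abs_neg, abs_neg]
    exact ⟨hb _ _ h1 h2, hb _ _ h1 h2, hb _ _ h1 h1, hb _ _ h2 h2⟩
  have h3 := hdisc _ hmem _ hst hn
  have h4 : u 1 = 1 := by
    have : ξ * u 1 = ξ := by
      calc ξ * u 1 = (ξ * u 1 * ξ⁻¹) * ξ := by group
        _ = ξ := by rw [h3, one_mul]
    simpa using this
  have h5 : u 1 0 1 = (1 : G) 0 1 := by rw [h4]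
  simp at h5

theorem slice_approx {x0 : X} (h0 : u 1 ∈ MulAction.stabilizer G x0) {f : X → ℝ} (hf : Cc f)
    {R ε : ℝ} (hR : 0 < R) (hε : 0 < ε) :
    ∃ (J : Finset ℤ) (ψ : ℤ → ℝ → ℂ) (κ1 : ℝ), 0 < κ1 ∧ (∀ j, Continuous (ψ j)) ∧
      (∀ j D, |D| ≤ κ1 → ψ j D = 0) ∧ ∃ δ > 0, ∀ ξ : G, |ξ 0 0| ≤ R → |ξ 1 0| ≤ δ →
        ‖(f (ξ • x0) : ℂ) - ∑ j ∈ J, ψ j (ξ 0 0) *
          Complex.exp (2 * Real.pi * Complex.I * (j * (ξ 0 1 / ξ 0 0) : ℝ))‖ ≤ ε := by
  obtain ⟨κ2, hκ2, hzero⟩ := small_zero h0 hf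
  obtain ⟨δ1, hδ1, huc⟩ := uc_one (Z := X) hf (ε := ε / 4) (by positivity)
  -- mesh
  obtain ⟨h, hh, hh1, hh2⟩ : ∃ h : ℝ, 0 < h ∧ 2 * h ≤ κ2 ∧ 2 * h / κ2 < δ1 := by
    refine ⟨min (κ2 / 2) (κ2 * δ1 / 4), by positivity, ?_, ?_⟩
    · have := min_le_left (κ2 / 2) (κ2 * δ1 / 4)
      linarith
    · rw [div_lt_iff₀ hκ2]
      have := min_le_right (κ2 / 2) (κ2 * δ1 / 4)
      nlinarith [mul_pos hκ2 hδ1]
  obtain ⟨K, hK⟩ := exists_nat_ge (R / h + 1)
  -- slices
  set Ψ : ℝ → ℝ → ℝ := fun D t => if hD : D ≠ 0 then f ((dg D hD * u t) • x0) else 0 with hΨ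
  have hΨ0 : ∀ D t, |D| ≤ κ2 → Ψ D t = 0 := by
    intro D t hD
    by_cases hD0 : D ≠ 0
    · simp only [hΨ, hD0, ne_eq, not_false_eq_true, dite_true]
      apply hzero
      · simpa using hD
      · simpa using hκ2.le
    · simp only [hΨ, hD0, dite_false]
  have hΨc : ∀ D, Continuous (Ψ D) := by
    intro D
    by_cases hD0 : D ≠ 0
    · simp only [hΨ, hD0, ne_eq, not_false_eq_true, dite_true]
      exact hf.1.comp ((continuous_const.mul continuous_u).smul continuous_const)
    · simp only [hΨ, hD0, dite_false]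
      exact continuous_const
  have hΨp : ∀ D t, Ψ D (t + 1) = Ψ D t := by
    intro D t
    by_cases hD0 : D ≠ 0
    · simp only [hΨ, hD0, ne_eq, not_false_eq_true, dite_true]
      rw [u_add, ← mul_assoc, mul_smul _ (u 1), MulAction.mem_stabilizer_iff.1 h0]
    · simp only [hΨ, hD0, dite_false]
  have hΨu : ∀ D D' t, |D - D'| ≤ h → |Ψ D t - Ψ D' t| ≤ ε / 4 := by
    intro D D' t hDD
    by_cases hc : |D| ≤ κ2 ∧ |D'| ≤ κ2
    · rw [hΨ0 D t hc.1, hΨ0 D' t hc.2]
      simp
      positivity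
    · have hb : κ2 / 2 ≤ |D| ∧ κ2 / 2 ≤ |D'| := by
        have e1 := abs_sub_abs_le_abs_sub D D'
        have e2 := abs_sub_abs_le_abs_sub D' D
        rw [abs_sub_comm D' D] at e2
        by_contra hcon
        apply hc
        rw [not_and_or] at hcon
        push Not at hcon
        rcases hcon with hcon | hcon
        · constructor <;> linarith
        · constructor <;> linarith
      have hD0 : D ≠ 0 := by
        intro e; rw [e, abs_zero] at hb; linarith [hb.1]
      have hD0' : D' ≠ 0 := by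
        intro e; rw [e, abs_zero] at hb; linarith [hb.2]
      simp only [hΨ, hD0, hD0', ne_eq, not_false_eq_true, dite_true]
      have e : dg D hD0 * u t = dg (D / D') (div_ne_zero hD0 hD0') * (dg D' hD0' * u t) := by
        apply G_ext
        · simp; field_simp
        · simp; field_simp
        · simp
        · simp; field_simp
      rw [e, mul_smul]
      apply huc
      rw [nrm_lt_iff]
      have hq : ∀ x y : ℝ, κ2 / 2 ≤ |y| → |x - y| ≤ h → |x / y - 1| < δ1 := by
        intro x y hy hxy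
        have hy0 : y ≠ 0 := by
          intro e; rw [e, abs_zero] at hy; linarith
        have : x / y - 1 = (x - y) / y := by field_simp
        rw [this, abs_div]
        refine lt_of_le_of_lt ?_ hh2
        rw [div_le_div_iff₀ (by positivity) hκ2]
        nlinarith [abs_nonneg (x - y)]
      refine ⟨?_, ?_, by simpa using hδ1, by simpa using hδ1⟩
      · rw [dg00]; exact hq D D' hb.2 hDD
      · rw [dg11, inv_div]; exact hq D' D hb.1 (by rw [abs_sub_comm]; exact hDD)
  -- approximation of the slices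
  have hap : ∀ k : ℤ, ∃ c : ℤ →₀ ℂ, (|(k : ℝ) * h| ≤ κ2 → c = 0) ∧ ∀ t : ℝ,
      ‖(Ψ (k * h) t : ℂ) - c.sum (fun j z => z *
        Complex.exp (2 * Real.pi * Complex.I * (j * t : ℝ)))‖ ≤ ε / 4 := by
    intro k
    by_cases hk : |(k : ℝ) * h| ≤ κ2
    · refine ⟨0, fun _ => rfl, fun t => ?_⟩
      rw [hΨ0 _ _ hk]
      simp
      positivity
    · obtain ⟨c, hc⟩ := trig_approx (g := fun t => (Ψ (k * h) t : ℂ))
        (Complex.continuous_ofReal.comp (hΨc _)) (fun t => by simp only [hΨp]) (ε := ε / 4)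
        (by positivity)
      exact ⟨c, fun e => absurd e hk, hc⟩
  choose c hc0 hc using hap
  set I : Finset ℤ := Finset.Icc (-(K : ℤ)) K with hI
  set J : Finset ℤ := I.biUnion (fun k => (c k).support) with hJ
  set φ : ℤ → ℝ → ℝ := fun k D => max 0 (1 - |D / h - k|) with hφ
  have hφc : ∀ k, Continuous (φ k) := by
    intro k; simp only [hφ]; fun_prop
  have hφ0 : ∀ k D, 0 ≤ φ k D := fun k D => le_max_left _ _
  have hφs : ∀ k D, φ k D ≠ 0 → |D - k * h| ≤ h := by
    intro k D hk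
    have h1 : 0 < 1 - |D / h - k| := by
      by_contra hcon
      exact hk (max_eq_left (not_lt.1 hcon))
    have h2 : D - k * h = (D / h - k) * h := by field_simp
    rw [h2, abs_mul, abs_of_pos hh]
    nlinarith
  refine ⟨J, fun j D => ∑ k ∈ I, (φ k D : ℂ) * c k j, κ2 / 2, by positivity, ?_, ?_,
    min κ2 (κ2 / 2 * δ1 / 2), by positivity, ?_⟩
  · intro j
    exact continuous_finsetSum _ fun k _ =>
      (Complex.continuous_ofReal.comp (hφc k)).mul continuous_const
  · intro j D hD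
    apply Finset.sum_eq_zero
    intro k _
    by_cases hk : φ k D = 0
    · rw [hk]; simp
    · have h1 := hφs k D hk
      have h2 : |(k : ℝ) * h| ≤ κ2 := by
        have := abs_sub_abs_le_abs_sub ((k : ℝ) * h) D
        rw [abs_sub_comm] at this
        linarith
      rw [hc0 k h2]
      simp
  · intro ξ hξ0 hξ1
    have hξ1' : |ξ 1 0| ≤ κ2 := hξ1.trans (min_le_left _ _)
    have hξ2' : |ξ 1 0| ≤ κ2 / 2 * δ1 / 2 := hξ1.trans (min_le_right _ _)
    set D := ξ 0 0 with hD
    set t := ξ 0 1 / ξ 0 0 with ht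
    -- first part
    have hpart1 : |f (ξ • x0) - Ψ D t| ≤ ε / 4 := by
      by_cases hDk : |D| ≤ κ2 / 2
      · rw [hΨ0 D t (by linarith), hzero ξ (by linarith) hξ1']
        simp
        positivity
      · push Not at hDk
        have hD0 : D ≠ 0 := by
          intro e; rw [e, abs_zero] at hDk; linarith
        simp only [hΨ, hD0, ne_eq, not_false_eq_true, dite_true]
        have e : ξ = v (ξ 1 0 / D) * (dg D hD0 * u t) := by
          have hdet := G_det ξ
          have hD0' : ξ 0 0 ≠ 0 := hD0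
          apply G_ext
          · simp [← hD]
          · simp [ht, ← hD]; field_simp
          · simp; field_simp
          · simp [ht, ← hD]; field_simp; rw [← hD] at hdet; linear_combination hdet
        rw [show f (ξ • x0) = f ((v (ξ 1 0 / D)) • ((dg D hD0 * u t) • x0)) by
          rw [← mul_smul, ← e]]
        apply huc
        rw [nrm_lt_iff]
        refine ⟨by simpa using hδ1, by simpa using hδ1, by simpa using hδ1, ?_⟩
        rw [v10, abs_div, div_lt_iff₀ (by linarith [abs_pos.2 hD0])]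
        nlinarith [mul_pos hκ2 hδ1]
    -- second part
    have hsum : ∑ j ∈ J, (∑ k ∈ I, (φ k D : ℂ) * c k j) *
        Complex.exp (2 * Real.pi * Complex.I * (j * t : ℝ)) =
        ∑ k ∈ I, (φ k D : ℂ) * (c k).sum (fun j z => z *
          Complex.exp (2 * Real.pi * Complex.I * (j * t : ℝ))) := by
      simp only [Finset.sum_mul]
      rw [Finset.sum_comm]
      refine Finset.sum_congr rfl fun k hk => ?_
      rw [Finsupp.sum_of_support_subset (c k) (s := J) (Finset.subset_biUnion_of_mem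
        (fun k => (c k).support) hk) _ (by intro i _; simp), Finset.mul_sum]
      refine Finset.sum_congr rfl fun j _ => ?_
      ring
    have hone : ∑ k ∈ I, φ k D = 1 := by
      apply hat_sum
      have : |D / h| ≤ R / h := by
        rw [abs_div, abs_of_pos hh]
        exact div_le_div_of_nonneg_right hξ0 hh.le
      linarith
    have hone' : ∑ k ∈ I, (φ k D : ℂ) = 1 := by exact_mod_cast hone
    have hpart2 : ‖(Ψ D t : ℂ) - ∑ k ∈ I, (φ k D : ℂ) * (c k).sum (fun j z => z *
          Complex.exp (2 * Real.pi * Complex.I * (j * t : ℝ)))‖ ≤ ε / 2 := by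
      have e : (Ψ D t : ℂ) = ∑ k ∈ I, (φ k D : ℂ) * (Ψ D t : ℂ) := by
        rw [← Finset.sum_mul, hone', one_mul]
      rw [e, ← Finset.sum_sub_distrib]
      refine (norm_sum_le _ _).trans ?_
      calc ∑ k ∈ I, ‖(φ k D : ℂ) * (Ψ D t : ℂ) - (φ k D : ℂ) * (c k).sum (fun j z => z *
            Complex.exp (2 * Real.pi * Complex.I * (j * t : ℝ)))‖
          ≤ ∑ k ∈ I, φ k D * (ε / 2) := by
            refine Finset.sum_le_sum fun k _ => ?_
            rw [← mul_sub, norm_mul, Complex.norm_real, Real.norm_eq_abs,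
              abs_of_nonneg (hφ0 k D)]
            by_cases hk : φ k D = 0
            · rw [hk]; simp
            · apply mul_le_mul_of_nonneg_left _ (hφ0 k D)
              have h1 := hΨu D (k * h) t (hφs k D hk)
              have h2 := hc k t
              calc ‖(Ψ D t : ℂ) - (c k).sum (fun j z => z *
                    Complex.exp (2 * Real.pi * Complex.I * (j * t : ℝ)))‖
                  = ‖((Ψ D t - Ψ (k * h) t : ℝ) : ℂ) + ((Ψ (k * h) t : ℂ) -
                      (c k).sum (fun j z => z *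
                    Complex.exp (2 * Real.pi * Complex.I * (j * t : ℝ))))‖ := by
                    congr 1; push_cast; ring
                _ ≤ ε / 4 + ε / 4 := by
                    refine (norm_add_le _ _).trans (add_le_add ?_ h2)
                    rw [Complex.norm_real, Real.norm_eq_abs]
                    exact h1
                _ = ε / 2 := by ring
        _ = ε / 2 := by rw [← Finset.sum_mul, hone, one_mul]
    rw [hsum]
    calc ‖(f (ξ • x0) : ℂ) - ∑ k ∈ I, (φ k D : ℂ) * (c k).sum (fun j z => z *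
          Complex.exp (2 * Real.pi * Complex.I * (j * t : ℝ)))‖
        = ‖((f (ξ • x0) - Ψ D t : ℝ) : ℂ) + ((Ψ D t : ℂ) - ∑ k ∈ I, (φ k D : ℂ) *
            (c k).sum (fun j z => z *
          Complex.exp (2 * Real.pi * Complex.I * (j * t : ℝ))))‖ := by
          congr 1; push_cast; ring
      _ ≤ ε / 4 + ε / 2 := by
          refine (norm_add_le _ _).trans (add_le_add ?_ hpart2)
          rw [Complex.norm_real, Real.norm_eq_abs]
          exact hpart1
      _ ≤ ε := by linarith

end Pool.Agent.Work.MP_c9c104_nt
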