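import Pool.Agent.Work.MP_c9c104_nt.TCPhase
import Pool.Agent.Work.MP_c9c104_nt.TCParam
import Pool.Agent.Work.MP_c9c104_nt.TCSlice

/-!
Moebius orthogonality for type C sequences.
-/

open MeasureTheory Filter Topology Set ProbabilityTheory
open scoped ENNReal NNReal

namespace Pool.Agent.Work.MP_c9c104_nt

open Pool.Agent.Work.MP_54969a_nt (mu mu_norm_le)

variable {X : Type} [TopologicalSpace X] [MeasurableSpace X] [MulAction G X] [HomSp X]

theorem typeC_mobius {f : X → ℝ} (hf : Cc f) {ι : Type} (𝒰 : Ultrafilter ι) {x : ι → X}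
    {N : ι → ℕ} (hN : Tendsto N 𝒰 atTop) {C : ℝ}
    (hT : ∀ᶠ i in (𝒰 : Filter ι), TypeC C (x i) (N i)) :
    Tendsto (fun i => (1 / (N i : ℂ)) * ∑ n ∈ Finset.Icc 1 (N i),
      Pool.Agent.Work.MP_54969a_nt.mu n * (f (u (n : ℝ) • x i) : ℂ)) 𝒰 (𝓝 0) := by
  rcases typeC_param hf 𝒰 hN hT with h0 | ⟨x0, R, ξ, hx0, hξ⟩
  · refine (tendsto_const_nhds (x := (0 : ℂ))).congr' ?_
    filter_upwards [h0] with i hi
    rw [Finset.sum_eq_zero, mul_zero]
    intro n hn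
    rw [hi n hn]; simp
  · have hNr : Tendsto (fun i => (N i : ℝ)) 𝒰 atTop := tendsto_natCast_atTop_atTop.comp hN
    rw [Metric.tendsto_nhds]
    intro ε hε
    have hR : ∀ᶠ i in (𝒰 : Filter ι), 0 ≤ R := by
      filter_upwards [hξ] with i hi using (abs_nonneg _).trans hi.2.1
    obtain ⟨i0, hi0⟩ := hR.exists
    obtain ⟨J, ψ, κ1, hκ1, hψc, hψ0, δ, hδ, happ⟩ := slice_approx hx0 hf
      (R := 2 * R + 1) (ε := ε / 4) (by positivity) (by positivity)
    have hsum : Tendsto (fun i => ∑ j ∈ J, (1 / (N i : ℂ)) * ∑ n ∈ Finset.Icc 1 (N i),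
        mu n * (ψ j (ξ i 0 0 + n * ξ i 1 0) *
        Complex.exp (2 * Real.pi * Complex.I * ((j * ((ξ i 0 1 + n * ξ i 1 1) /
          (ξ i 0 0 + n * ξ i 1 0)) : ℝ))))) 𝒰 (𝓝 (∑ j ∈ J, 0)) := by
      refine tendsto_finsetSum _ fun j _ => ?_
      exact phase_sum 𝒰 hN (hξ.mono fun i hi => hi.2) j (hψc j) hκ1 (hψ0 j)
    rw [Finset.sum_const_zero] at hsum
    have h1 : ∀ᶠ i in (𝒰 : Filter ι), ‖∑ j ∈ J, (1 / (N i : ℂ)) * ∑ n ∈ Finset.Icc 1 (N i),
        mu n * (ψ j (ξ i 0 0 + n * ξ i 1 0) *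
        Complex.exp (2 * Real.pi * Complex.I * ((j * ((ξ i 0 1 + n * ξ i 1 1) /
          (ξ i 0 0 + n * ξ i 1 0)) : ℝ))))‖ < ε / 4 := by
      have := hsum.norm
      rw [norm_zero] at this
      exact (tendsto_order.1 this).2 _ (by positivity)
    filter_upwards [h1, hξ, hN.eventually_ge_atTop 1, hNr.eventually_ge_atTop (R / δ)]
      with i h1 h2 h3 h4
    obtain ⟨hxi, hα, hc⟩ := h2
    have hNi : (0 : ℝ) < N i := by exact_mod_cast (show 0 < N i by omega)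
    have hcδ : |ξ i 1 0| ≤ δ := by
      have h5 : R ≤ δ * N i := by
        rw [div_le_iff₀ hδ] at h4; linarith
      have h6 : |ξ i 1 0| * N i ≤ δ * N i := hc.trans h5
      exact le_of_mul_le_mul_right h6 hNi
    -- pointwise approximation
    have key : ∀ n ∈ Finset.Icc 1 (N i), ‖(f (u (n : ℝ) • x i) : ℂ) - ∑ j ∈ J,
        ψ j (ξ i 0 0 + n * ξ i 1 0) *
        Complex.exp (2 * Real.pi * Complex.I * ((j * ((ξ i 0 1 + n * ξ i 1 1) /
          (ξ i 0 0 + n * ξ i 1 0)) : ℝ)))‖ ≤ ε / 4 := by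
      intro n hn
      have hnN : (n : ℝ) ≤ N i := by exact_mod_cast (Finset.mem_Icc.1 hn).2
      have e00 : (u (n : ℝ) * ξ i) 0 0 = ξ i 0 0 + n * ξ i 1 0 := by simp
      have e01 : (u (n : ℝ) * ξ i) 0 1 = ξ i 0 1 + n * ξ i 1 1 := by simp
      have e10 : (u (n : ℝ) * ξ i) 1 0 = ξ i 1 0 := by simp
      have h7 : |ξ i 0 0 + n * ξ i 1 0| ≤ 2 * R + 1 := by
        refine (abs_add_le _ _).trans ?_
        rw [abs_mul, Nat.abs_cast]
        have : (n : ℝ) * |ξ i 1 0| ≤ R := by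
          refine le_trans ?_ hc
          rw [mul_comm]
          gcongr
        linarith
      have := happ (u (n : ℝ) * ξ i) (by rw [e00]; exact h7) (by rw [e10]; exact hcδ)
      rw [e00, e01, mul_smul, ← hxi] at this
      exact this
    rw [dist_zero_right]
    set S := ∑ n ∈ Finset.Icc 1 (N i), mu n * (f (u (n : ℝ) • x i) : ℂ) with hS
    set T := ∑ j ∈ J, (1 / (N i : ℂ)) * ∑ n ∈ Finset.Icc 1 (N i),
        mu n * (ψ j (ξ i 0 0 + n * ξ i 1 0) *
        Complex.exp (2 * Real.pi * Complex.I * ((j * ((ξ i 0 1 + n * ξ i 1 1) /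
          (ξ i 0 0 + n * ξ i 1 0)) : ℝ)))) with hT'
    have e1 : (1 / (N i : ℂ)) * S - T = (1 / (N i : ℂ)) * ∑ n ∈ Finset.Icc 1 (N i),
        mu n * ((f (u (n : ℝ) • x i) : ℂ) - ∑ j ∈ J,
        ψ j (ξ i 0 0 + n * ξ i 1 0) *
        Complex.exp (2 * Real.pi * Complex.I * ((j * ((ξ i 0 1 + n * ξ i 1 1) /
          (ξ i 0 0 + n * ξ i 1 0)) : ℝ)))) := by
      rw [hS, hT', ← Finset.mul_sum, Finset.sum_comm, ← mul_sub, ← Finset.sum_sub_distrib]
      congr 1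
      refine Finset.sum_congr rfl fun n _ => ?_
      rw [mul_sub, Finset.mul_sum]
    have e2 : ‖(1 / (N i : ℂ)) * S - T‖ ≤ ε / 4 := by
      rw [e1, norm_mul, norm_div, norm_one, Complex.norm_natCast]
      have h8 : ‖∑ n ∈ Finset.Icc 1 (N i),
        mu n * ((f (u (n : ℝ) • x i) : ℂ) - ∑ j ∈ J,
        ψ j (ξ i 0 0 + n * ξ i 1 0) *
        Complex.exp (2 * Real.pi * Complex.I * ((j * ((ξ i 0 1 + n * ξ i 1 1) /
          (ξ i 0 0 + n * ξ i 1 0)) : ℝ))))‖ ≤ N i * (ε / 4) := by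
        refine (norm_sum_le _ _).trans ((Finset.sum_le_sum (g := fun _ => ε / 4)
          fun n hn => ?_).trans ?_)
        · rw [norm_mul]
          calc _ ≤ 1 * (ε / 4) := mul_le_mul (mu_norm_le n) (key n hn) (norm_nonneg _) zero_le_one
            _ = ε / 4 := one_mul _
        · simp
      calc 1 / (N i : ℝ) * _ ≤ 1 / (N i : ℝ) * (N i * (ε / 4)) := by gcongr
        _ = ε / 4 := by field_simp
    have e3 : (1 / (N i : ℂ)) * S = ((1 / (N i : ℂ)) * S - T) + T := by ring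
    rw [e3]
    refine (norm_add_le _ _).trans_lt ?_
    linarith

end Pool.Agent.Work.MP_c9c104_nt
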