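import Pool.Agent.Work.MP_54969a_nt.PNT
import Pool.Agent.Work.MP_c9c104_nt.Defs

/-!
Moebius orthogonality with slowly varying weights.
-/

open MeasureTheory Filter Topology Set ProbabilityTheory
open scoped ENNReal NNReal

namespace Pool.Agent.Work.MP_c9c104_nt

variable {X : Type} [TopologicalSpace X] [MeasurableSpace X] [MulAction G X] [HomSp X]
variable {Z : Type} [TopologicalSpace Z] [MeasurableSpace Z] [MulAction G Z] [PhSp Z]

theorem muOrth_lin {w : ℕ → ℂ} (hw : Pool.Agent.Work.MP_54969a_nt.MuOrth w)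
    (hb : ∀ n, ‖w n‖ ≤ 1) {η : ℝ} (hη : 0 < η) :
    ∃ C : ℝ, 0 ≤ C ∧ ∀ M : ℕ, ‖∑ n ∈ Finset.Icc 1 M,
      Pool.Agent.Work.MP_54969a_nt.mu n * w n‖ ≤ η * M + C := by
  unfold Pool.Agent.Work.MP_54969a_nt.MuOrth at hw
  rw [tendsto_zero_iff_norm_tendsto_zero, Metric.tendsto_atTop] at hw
  obtain ⟨M0, hM0⟩ := hw η hη
  refine ⟨M0, by positivity, fun M => ?_⟩
  rcases le_or_gt M0 M with h | h
  · have h1 := hM0 M h
    rw [dist_zero_right, norm_norm] at h1
    rcases Nat.eq_zero_or_pos M with h0 | h0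
    · subst h0
      simp
    · have h2 : (0 : ℝ) < M := by exact_mod_cast h0
      rw [norm_div, Complex.norm_natCast, div_lt_iff₀ h2] at h1
      have h3 : ∑ n ∈ Finset.Icc 1 M, Pool.Agent.Work.MP_54969a_nt.mu n * w n =
          ∑ k ∈ Finset.Icc 1 M, w k * Pool.Agent.Work.MP_54969a_nt.mu k :=
        Finset.sum_congr rfl (fun k _ => mul_comm _ _)
      rw [h3]
      have : (0 : ℝ) ≤ M0 := by positivity
      linarith
  · refine (norm_sum_le _ _).trans ?_
    have h1 : ∑ n ∈ Finset.Icc 1 M, ‖Pool.Agent.Work.MP_54969a_nt.mu n * w n‖ ≤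
        ∑ n ∈ Finset.Icc 1 M, (1 : ℝ) := by
      refine Finset.sum_le_sum (fun n _ => ?_)
      rw [norm_mul]
      have := Pool.Agent.Work.MP_54969a_nt.mu_norm_le n
      have := hb n
      have := norm_nonneg (w n)
      have := norm_nonneg (Pool.Agent.Work.MP_54969a_nt.mu n)
      nlinarith
    refine h1.trans ?_
    simp only [Finset.sum_const, Nat.card_Icc, add_tsub_cancel_right, nsmul_eq_mul, mul_one]
    have h2 : (M : ℝ) ≤ M0 := by exact_mod_cast h.le
    have h3 : 0 ≤ η * M := by positivity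
    linarith

theorem sum_blocks (N K : ℕ) (hK : 0 < K) (f : ℕ → ℂ) :
    ∑ n ∈ Finset.Icc 1 N, f n =
      ∑ j ∈ Finset.range K, ∑ n ∈ Finset.Ioc (j * N / K) ((j + 1) * N / K), f n := by
  have h : ∀ J : ℕ, ∑ n ∈ Finset.Ioc 0 (J * N / K), f n =
      ∑ j ∈ Finset.range J, ∑ n ∈ Finset.Ioc (j * N / K) ((j + 1) * N / K), f n := by
    intro J
    induction J with
    | zero => simp
    | succ J ih =>
      rw [Finset.sum_range_succ, ← ih]
      symm
      apply Finset.sum_Ioc_consecutive f (Nat.zero_le _)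
      exact Nat.div_le_div_right (Nat.mul_le_mul_right _ (Nat.le_succ J))
  rw [← h K, Nat.mul_div_cancel_left N hK]
  rfl

theorem pnt_slow {w : ℕ → ℂ} (hw : Pool.Agent.Work.MP_54969a_nt.MuOrth w) (hb : ∀ n, ‖w n‖ ≤ 1)
    {ι : Type} {l : Filter ι} {N : ι → ℕ} (hN : Tendsto N l atTop) (g : ι → ℝ → ℂ) (B : ℝ)
    (hg : ∀ i y, ‖g i y‖ ≤ B)
    (hc : ∀ ε > 0, ∃ δ > 0, ∀ᶠ i in l, ∀ y ∈ Icc (0 : ℝ) 1, ∀ y' ∈ Icc (0 : ℝ) 1,
      |y - y'| ≤ δ → ‖g i y - g i y'‖ ≤ ε) :
    Tendsto (fun i => (1 / (N i : ℂ)) * ∑ n ∈ Finset.Icc 1 (N i),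
      Pool.Agent.Work.MP_54969a_nt.mu n * (w n * g i (n / N i))) l (𝓝 0) := by
  rw [tendsto_zero_iff_norm_tendsto_zero]
  rw [Metric.tendsto_nhds]
  intro ε' hε'
  set ε := ε' / 4 with hεdef
  have hε : 0 < ε := by positivity
  obtain ⟨δ, hδ, hcδ⟩ := hc ε hε
  obtain ⟨K, hK⟩ := exists_nat_gt (1 / δ)
  have hK0 : (0 : ℝ) < K := (by positivity : (0 : ℝ) < 1 / δ).trans hK
  have hKn : 0 < K := by exact_mod_cast hK0
  have hKδ : 1 / (K : ℝ) ≤ δ := by
    rw [div_le_iff₀ hK0]
    rw [div_lt_iff₀ hδ] at hK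
    linarith
  set η := ε / (2 * K * (|B| + 1)) with hη
  have hη0 : 0 < η := by positivity
  obtain ⟨C, hC0, hC⟩ := muOrth_lin hw hb hη0
  obtain ⟨M0, hM0⟩ := exists_nat_gt (2 * K * |B| * C / ε)
  have hN1 : ∀ᶠ i in l, max M0 1 ≤ N i := hN.eventually_ge_atTop _
  filter_upwards [hcδ, hN1] with i hi hNi
  have hNpos : 0 < N i := lt_of_lt_of_le Nat.one_pos ((le_max_right _ _).trans hNi)
  have hNr : (0 : ℝ) < N i := by exact_mod_cast hNpos
  rw [dist_zero_right, norm_norm, norm_mul, norm_div, norm_one, Complex.norm_natCast]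
  -- the block estimate
  have hblock : ∀ j ∈ Finset.range K,
      ‖∑ n ∈ Finset.Ioc (j * N i / K) ((j + 1) * N i / K),
        Pool.Agent.Work.MP_54969a_nt.mu n * (w n * g i (n / N i))‖ ≤
      |B| * (2 * (η * N i + C)) +
        ∑ n ∈ Finset.Ioc (j * N i / K) ((j + 1) * N i / K), ε := by
    intro j hj
    have hjK : j < K := Finset.mem_range.mp hj
    have hmono : j * N i / K ≤ (j + 1) * N i / K :=
      Nat.div_le_div_right (Nat.mul_le_mul_right _ (Nat.le_succ j))
    have htop : (j + 1) * N i / K ≤ N i := by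
      calc (j + 1) * N i / K ≤ K * N i / K :=
            Nat.div_le_div_right (Nat.mul_le_mul_right _ hjK)
        _ = N i := Nat.mul_div_cancel_left _ hKn
    have hsplit : ∑ n ∈ Finset.Ioc (j * N i / K) ((j + 1) * N i / K),
        Pool.Agent.Work.MP_54969a_nt.mu n * (w n * g i (n / N i)) =
        g i (j / K) * ∑ n ∈ Finset.Ioc (j * N i / K) ((j + 1) * N i / K),
          Pool.Agent.Work.MP_54969a_nt.mu n * w n +
        ∑ n ∈ Finset.Ioc (j * N i / K) ((j + 1) * N i / K),
          Pool.Agent.Work.MP_54969a_nt.mu n * w n * (g i (n / N i) - g i (j / K)) := by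
      rw [Finset.mul_sum, ← Finset.sum_add_distrib]
      exact Finset.sum_congr rfl (fun n _ => by ring)
    rw [hsplit]
    refine (norm_add_le _ _).trans (add_le_add ?_ ?_)
    · rw [norm_mul]
      have h1 : ∑ n ∈ Finset.Ioc (j * N i / K) ((j + 1) * N i / K),
          Pool.Agent.Work.MP_54969a_nt.mu n * w n =
          ∑ n ∈ Finset.Icc 1 ((j + 1) * N i / K), Pool.Agent.Work.MP_54969a_nt.mu n * w n -
          ∑ n ∈ Finset.Icc 1 (j * N i / K), Pool.Agent.Work.MP_54969a_nt.mu n * w n := by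
        have := Finset.sum_Ioc_consecutive
          (fun n => Pool.Agent.Work.MP_54969a_nt.mu n * w n) (Nat.zero_le (j * N i / K)) hmono
        rw [eq_sub_iff_add_eq, add_comm]
        exact this
      have h2 : ‖∑ n ∈ Finset.Ioc (j * N i / K) ((j + 1) * N i / K),
          Pool.Agent.Work.MP_54969a_nt.mu n * w n‖ ≤ 2 * (η * N i + C) := by
        rw [h1]
        refine (norm_sub_le _ _).trans ?_
        have e1 := hC ((j + 1) * N i / K)
        have e2 := hC (j * N i / K)
        have e3 : (((j + 1) * N i / K : ℕ) : ℝ) ≤ N i := by exact_mod_cast htop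
        have e4 : ((j * N i / K : ℕ) : ℝ) ≤ N i := by exact_mod_cast hmono.trans htop
        have e5 : η * (((j + 1) * N i / K : ℕ) : ℝ) ≤ η * N i :=
          mul_le_mul_of_nonneg_left e3 hη0.le
        have e6 : η * ((j * N i / K : ℕ) : ℝ) ≤ η * N i :=
          mul_le_mul_of_nonneg_left e4 hη0.le
        linarith
      exact mul_le_mul ((hg i _).trans (le_abs_self B)) h2 (norm_nonneg _) (abs_nonneg _)
    · refine (norm_sum_le _ _).trans (Finset.sum_le_sum (fun n hn => ?_))
      rw [norm_mul, norm_mul]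
      obtain ⟨hn1, hn2⟩ := Finset.mem_Ioc.mp hn
      have hlow : (j : ℝ) / K < n / N i := by
        rw [div_lt_div_iff₀ hK0 hNr]
        have : j * N i < n * K := by
          rw [← Nat.div_lt_iff_lt_mul hKn]
          exact hn1
        exact_mod_cast this
      have hup : (n : ℝ) / N i ≤ (j + 1) / K := by
        rw [div_le_div_iff₀ hNr hK0]
        have : n * K ≤ (j + 1) * N i := by
          rw [← Nat.le_div_iff_mul_le hKn]
          exact hn2
        exact_mod_cast this
      have hj0 : (0 : ℝ) ≤ (j : ℝ) / K := by positivity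
      have hj1 : ((j : ℝ) + 1) / K ≤ 1 := by
        rw [div_le_one hK0]
        exact_mod_cast hjK
      have hj2 : ((j : ℝ) + 1) / K = j / K + 1 / K := by ring
      have hd := hi (n / N i) ⟨by positivity, by linarith⟩ (j / K)
        ⟨hj0, by have : (0 : ℝ) < 1 / K := by positivity
                 linarith⟩ (by
          rw [abs_of_nonneg (by linarith)]
          linarith)
      have e1 := Pool.Agent.Work.MP_54969a_nt.mu_norm_le n
      have e2 := hb n
      have e3 : ‖Pool.Agent.Work.MP_54969a_nt.mu n‖ * ‖w n‖ ≤ 1 := by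
        have := norm_nonneg (w n)
        have := norm_nonneg (Pool.Agent.Work.MP_54969a_nt.mu n)
        nlinarith
      calc ‖Pool.Agent.Work.MP_54969a_nt.mu n‖ * ‖w n‖ * ‖g i (n / N i) - g i (j / K)‖
          ≤ 1 * ε := mul_le_mul e3 hd (norm_nonneg _) (by norm_num)
        _ = ε := one_mul _
  have htotal : ‖∑ n ∈ Finset.Icc 1 (N i),
      Pool.Agent.Work.MP_54969a_nt.mu n * (w n * g i (n / N i))‖ ≤
      K * (|B| * (2 * (η * N i + C))) + ε * N i := by
    rw [sum_blocks (N i) K hKn]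
    refine (norm_sum_le _ _).trans ((Finset.sum_le_sum hblock).trans ?_)
    rw [Finset.sum_add_distrib]
    refine add_le_add (by simp) ?_
    have h1 : ∀ J : ℕ, ∑ j ∈ Finset.range J,
        ∑ n ∈ Finset.Ioc (j * N i / K) ((j + 1) * N i / K), ε =
        ε * ((J * N i / K : ℕ) : ℝ) := by
      intro J
      induction J with
      | zero => simp
      | succ J ih =>
        rw [Finset.sum_range_succ, ih]
        simp only [Finset.sum_const, Nat.card_Ioc, nsmul_eq_mul]
        have hmono : J * N i / K ≤ (J + 1) * N i / K :=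
          Nat.div_le_div_right (Nat.mul_le_mul_right _ (Nat.le_succ J))
        rw [Nat.cast_sub hmono]
        ring
    rw [h1 K, Nat.mul_div_cancel_left _ hKn]
  have hNM : 2 * K * |B| * C / ε < N i :=
    hM0.trans_le (by exact_mod_cast (le_max_left _ _).trans hNi)
  rw [div_lt_iff₀ hε] at hNM
  have hηK : K * (|B| * (2 * (η * N i))) ≤ ε * N i := by
    have : K * (|B| * (2 * (η * N i))) = ε * N i * (|B| / (|B| + 1)) := by
      rw [hη]
      field_simp
    rw [this]
    have h1 : |B| / (|B| + 1) ≤ 1 := by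
      rw [div_le_one (by positivity)]
      linarith
    have h2 : 0 ≤ ε * N i := by positivity
    nlinarith
  have hfin : ‖∑ n ∈ Finset.Icc 1 (N i),
      Pool.Agent.Work.MP_54969a_nt.mu n * (w n * g i (n / N i))‖ ≤ 3 * ε * N i := by
    refine htotal.trans ?_
    have : K * (|B| * (2 * (η * N i + C))) = K * (|B| * (2 * (η * N i))) + 2 * K * |B| * C := by
      ring
    rw [this]
    linarith
  calc 1 / (N i : ℝ) * ‖∑ n ∈ Finset.Icc 1 (N i),
      Pool.Agent.Work.MP_54969a_nt.mu n * (w n * g i (n / N i))‖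
      ≤ 1 / (N i : ℝ) * (3 * ε * N i) := by gcongr
    _ = 3 * ε := by field_simp
    _ < ε' := by rw [hεdef]; linarith

end Pool.Agent.Work.MP_c9c104_nt
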