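import Pool.Agent.Work.MP_c9c104_nt.TCCorr
import Pool.Agent.Work.MP_c9c104_nt.TCPnt
import Pool.Agent.Work.MP_c9c104_nt.KataiW
import Pool.Agent.Work.MP_c9c104_nt.Basic

/-!
Moebius sums of the phases on closed horocycles.
-/

open MeasureTheory Filter Topology Set ProbabilityTheory
open scoped ENNReal NNReal

namespace Pool.Agent.Work.MP_c9c104_nt

variable {X : Type} [TopologicalSpace X] [MeasurableSpace X] [MulAction G X] [HomSp X]
variable {Z : Type} [TopologicalSpace Z] [MeasurableSpace Z] [MulAction G Z] [PhSp Z]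

/-- Moebius sums against weights depending continuously on bounded parameters -/
theorem slow_param {E : Type*} [MetricSpace E] {K : Set E} (hK : IsCompact K)
    {Φ : ℝ × E → ℂ} (hΦ : ContinuousOn Φ (Icc 0 1 ×ˢ K)) {w : ℕ → ℂ}
    (hw : Pool.Agent.Work.MP_54969a_nt.MuOrth w) (hb : ∀ n, ‖w n‖ ≤ 1)
    {ι : Type} {l : Filter ι} {N : ι → ℕ} (hN : Tendsto N l atTop) {θ : ι → E}
    (hθ : ∀ᶠ i in l, θ i ∈ K) :
    Tendsto (fun i => (1 / (N i : ℂ)) * ∑ n ∈ Finset.Icc 1 (N i),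
      Pool.Agent.Work.MP_54969a_nt.mu n * (w n * Φ (n / N i, θ i))) l (𝓝 0) := by
  classical
  have hcpt : IsCompact (Icc (0 : ℝ) 1 ×ˢ K) := isCompact_Icc.prod hK
  obtain ⟨B, hB⟩ := hcpt.exists_bound_of_continuousOn hΦ
  have huc := hcpt.uniformContinuousOn_of_continuous hΦ
  rw [Metric.uniformContinuousOn_iff] at huc
  have key := pnt_slow hw hb hN (fun i y => if (y, θ i) ∈ Icc (0 : ℝ) 1 ×ˢ K then Φ (y, θ i) else 0)
    (max B 0) (fun i y => by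
      split_ifs with h
      · exact (hB _ h).trans (le_max_left _ _)
      · rw [norm_zero]; exact le_max_right _ _) (by
      intro ε hε
      obtain ⟨δ, hδ, h⟩ := huc ε hε
      refine ⟨δ / 2, by positivity, ?_⟩
      filter_upwards [hθ] with i hi y hy y' hy' hyy
      have m1 : (y, θ i) ∈ Icc (0 : ℝ) 1 ×ˢ K := ⟨hy, hi⟩
      have m2 : (y', θ i) ∈ Icc (0 : ℝ) 1 ×ˢ K := ⟨hy', hi⟩
      rw [if_pos m1, if_pos m2, ← dist_eq_norm]
      refine (h _ m1 _ m2 ?_).le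
      rw [Prod.dist_eq, dist_self, Real.dist_eq, max_eq_left (abs_nonneg _)]
      linarith)
  refine key.congr' ?_
  filter_upwards [hθ, hN.eventually_ge_atTop 1] with i hi hi1
  congr 1
  refine Finset.sum_congr rfl fun n hn => ?_
  rw [Finset.mem_Icc] at hn
  have m1 : ((n : ℝ) / N i, θ i) ∈ Icc (0 : ℝ) 1 ×ˢ K := by
    refine ⟨⟨by positivity, ?_⟩, hi⟩
    rw [div_le_one (by exact_mod_cast hi1)]
    exact_mod_cast hn.2
  rw [if_pos m1]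

theorem tph_diff {ξ : G} {x y : ℝ} (hx : ξ 0 0 + x * ξ 1 0 ≠ 0) (hy : ξ 0 0 + y * ξ 1 0 ≠ 0) :
    (ξ 0 1 + x * ξ 1 1) / (ξ 0 0 + x * ξ 1 0) - (ξ 0 1 + y * ξ 1 1) / (ξ 0 0 + y * ξ 1 0) =
      (x - y) / ((ξ 0 0 + x * ξ 1 0) * (ξ 0 0 + y * ξ 1 0)) := by
  have h := G_det ξ
  rw [div_sub_div _ _ hx hy]
  congr 1
  linear_combination (x - y) * h

theorem muOrth_ee (A B : ℤ) (hB : B ≠ 0) :
    Pool.Agent.Work.MP_54969a_nt.MuOrth (fun n => ee (n * A / B)) := by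
  refine Pool.Agent.Work.MP_54969a_nt.muOrth_periodic B.natAbs (Int.natAbs_pos.2 hB) _ ?_
  intro n
  have hB' : (B : ℝ) ≠ 0 := Int.cast_ne_zero.2 hB
  have hint : ∀ m : ℤ, ee (m : ℝ) = 1 := by
    intro m
    unfold ee
    rw [show (2 * Real.pi * Complex.I * ((m : ℝ) : ℂ) : ℂ) = m * (2 * Real.pi * Complex.I) by
        push_cast; ring]
    exact Complex.exp_int_mul_two_pi_mul_I m
  rcases Int.natAbs_eq B with h | h
  · have h0 : ((B.natAbs : ℕ) : ℝ) = B := by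
      rw [← Int.cast_natCast, ← h]
    rw [Nat.cast_add, h0, show ((n : ℝ) + B) * A / B = n * A / B + A by field_simp, ee_add,
      hint, mul_one]
  · have h0 : ((B.natAbs : ℕ) : ℝ) = -B := by
      rw [← Int.cast_natCast, eq_neg_iff_add_eq_zero, ← Int.cast_add]
      have : (B.natAbs : ℤ) + B = 0 := by omega
      rw [this, Int.cast_zero]
    rw [Nat.cast_add, h0, show ((n : ℝ) + -B) * A / B = n * A / B + (-A : ℤ) by
      push_cast; field_simp, ee_add, hint, mul_one]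

theorem phase_j0 {ι : Type} (𝒰 : Ultrafilter ι) {N : ι → ℕ} (hN : Tendsto N 𝒰 atTop)
    {ξ : ι → G} {R : ℝ} (hξ : ∀ᶠ i in (𝒰 : Filter ι), |ξ i 0 0| ≤ R ∧ |ξ i 1 0| * N i ≤ R)
    {ψ : ℝ → ℂ} (hψ : Continuous ψ) :
    Tendsto (fun i => (1 / (N i : ℂ)) * ∑ n ∈ Finset.Icc 1 (N i),
      Pool.Agent.Work.MP_54969a_nt.mu n * ψ (ξ i 0 0 + n * ξ i 1 0)) 𝒰 (𝓝 0) := by
  have hK : IsCompact (Icc (-R) R ×ˢ Icc (-R) R) := isCompact_Icc.prod isCompact_Icc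
  have hΦ : ContinuousOn (fun p : ℝ × ℝ × ℝ => ψ (p.2.1 + p.1 * p.2.2))
      (Icc 0 1 ×ˢ (Icc (-R) R ×ˢ Icc (-R) R)) := by
    apply Continuous.continuousOn
    fun_prop
  have hθ : ∀ᶠ i in (𝒰 : Filter ι), (ξ i 0 0, (N i : ℝ) * ξ i 1 0) ∈
      (Icc (-R) R ×ˢ Icc (-R) R) := by
    filter_upwards [hξ] with i hi
    refine ⟨abs_le.1 hi.1, abs_le.1 ?_⟩
    rw [abs_mul, abs_of_nonneg (Nat.cast_nonneg _), mul_comm]
    exact hi.2
  have key := slow_param hK hΦ Pool.Agent.Work.MP_54969a_nt.muOrth_one (by simp) hN hθ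
  refine key.congr' ?_
  filter_upwards [hN.eventually_ge_atTop 1] with i hi
  have hN0 : (N i : ℝ) ≠ 0 := by positivity
  congr 1
  refine Finset.sum_congr rfl fun n hn => ?_
  rw [one_mul, show (n : ℝ) / N i * (N i * ξ i 1 0) = n * ξ i 1 0 by field_simp]

theorem continuous_ee : Continuous ee := by
  unfold ee
  fun_prop

theorem ee_conj (x : ℝ) : (starRingEnd ℂ) (ee x) = ee (-x) := by
  unfold ee
  rw [← Complex.exp_conj]
  congr 1
  simp only [map_mul, Complex.conj_ofReal, Complex.conj_I, map_ofNat]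
  push_cast
  ring

theorem phase_slow {ι : Type} (𝒰 : Ultrafilter ι) {N : ι → ℕ} (hN : Tendsto N 𝒰 atTop)
    {ξ : ι → G} {R : ℝ} (hξ : ∀ᶠ i in (𝒰 : Filter ι), |ξ i 0 0| ≤ R ∧ |ξ i 1 0| * N i ≤ R)
    (j : ℤ) {ψ : ℝ → ℂ} (hψ : Continuous ψ) {κ1 : ℝ} (hκ : 0 < κ1)
    (hψ0 : ∀ D, |D| ≤ κ1 → ψ D = 0) {A B : ℤ} (hB : B ≠ 0) {R' : ℝ}
    (hex : ∀ᶠ i in (𝒰 : Filter ι), N i * |j * (B : ℝ) / ξ i 0 0 ^ 2 - A| ≤ R' ∧
      (N i : ℝ) ^ 2 * |ξ i 1 0| ≤ R') :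
    Tendsto (fun i => (1 / (N i : ℂ)) * ∑ n ∈ Finset.Icc 1 (N i),
      Pool.Agent.Work.MP_54969a_nt.mu n * (ψ (ξ i 0 0 + n * ξ i 1 0) *
        ee (j * ((ξ i 0 1 + n * ξ i 1 1) / (ξ i 0 0 + n * ξ i 1 0))))) 𝒰 (𝓝 0) := by
  have hNN : Tendsto (fun i => (N i : ℝ)) 𝒰 atTop := tendsto_natCast_atTop_atTop.comp hN
  have hsm : ∀ᶠ i in (𝒰 : Filter ι), |(N i : ℝ) * ξ i 1 0| ≤ κ1 / 4 := by
    filter_upwards [hex, hNN.eventually_ge_atTop (4 * R' / κ1), hNN.eventually_ge_atTop 1]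
      with i h1 h2 h3
    have hN0 : (0 : ℝ) < N i := by linarith
    rw [abs_mul, abs_of_pos hN0]
    rw [div_le_iff₀ hκ] at h2
    have h4 := h1.2
    by_contra hcon
    push Not at hcon
    have : (N i : ℝ) * (κ1 / 4) < N i * (N i * |ξ i 1 0|) := by gcongr
    nlinarith
  by_cases hα : ∀ᶠ i in (𝒰 : Filter ι), |ξ i 0 0| < κ1 / 2
  · refine tendsto_const_nhds.congr' ?_
    filter_upwards [hα, hsm] with i h1 h2
    symm
    rw [Finset.sum_eq_zero, mul_zero]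
    intro n hn
    rw [Finset.mem_Icc] at hn
    rw [hψ0, zero_mul, mul_zero]
    have h3 : |(n : ℝ) * ξ i 1 0| ≤ |(N i : ℝ) * ξ i 1 0| := by
      rw [abs_mul, abs_mul, Nat.abs_cast, Nat.abs_cast]
      have : (n : ℝ) ≤ N i := by exact_mod_cast hn.2
      gcongr
    calc |ξ i 0 0 + n * ξ i 1 0| ≤ |ξ i 0 0| + |n * ξ i 1 0| := abs_add_le _ _
      _ ≤ κ1 := by linarith
  · rw [← Ultrafilter.eventually_not] at hα
    have hB' : (B : ℝ) ≠ 0 := Int.cast_ne_zero.2 hB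
    set K0 : Set (ℝ × ℝ × ℝ × ℝ × ℂ) := Icc (-R) R ×ˢ Icc (-R') R' ×ˢ Icc (-R') R' ×ˢ
      Icc (-(κ1 / 4)) (κ1 / 4) ×ˢ Metric.closedBall (0 : ℂ) 1 with hK0
    have hK0c : IsCompact K0 := isCompact_Icc.prod (isCompact_Icc.prod (isCompact_Icc.prod
      (isCompact_Icc.prod (isCompact_closedBall _ _))))
    have hcl : IsClosed {p : ℝ × ℝ × ℝ × ℝ × ℂ | κ1 / 2 ≤ |p.1|} :=
      isClosed_le continuous_const (by fun_prop)
    have hK : IsCompact (K0 ∩ {p : ℝ × ℝ × ℝ × ℝ × ℂ | κ1 / 2 ≤ |p.1|}) := hK0c.inter_right hcl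
    have hbig : ∀ p ∈ Icc (0 : ℝ) 1 ×ˢ (K0 ∩ {p : ℝ × ℝ × ℝ × ℝ × ℂ | κ1 / 2 ≤ |p.1|}),
        p.2.1 ≠ 0 ∧ p.2.1 + p.1 * p.2.2.2.2.1 ≠ 0 := by
      rintro ⟨y, a, a1, b, e, z⟩ ⟨hy, ⟨-, -, -, he, -⟩, ha⟩
      simp only [mem_ofPred_eq] at ha hy he ⊢
      have h1 : |y * e| ≤ κ1 / 4 := by
        rw [abs_mul]
        have e1 : |y| ≤ 1 := abs_le.2 ⟨by linarith [hy.1], hy.2⟩
        have e2 : |e| ≤ κ1 / 4 := abs_le.2 he
        calc |y| * |e| ≤ 1 * |e| := by gcongr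
          _ ≤ _ := by linarith
      constructor
      · intro h; rw [h, abs_zero] at ha; linarith
      · intro h
        have : a = - (y * e) := by linarith
        rw [this, abs_neg] at ha
        linarith
    have hΦ : ContinuousOn (fun p : ℝ × ℝ × ℝ × ℝ × ℝ × ℂ => p.2.2.2.2.2 *
        (ψ (p.2.1 + p.1 * p.2.2.2.2.1) * ee (p.1 * p.2.2.1 / B -
          j * p.1 ^ 2 * p.2.2.2.1 / (p.2.1 ^ 2 * (p.2.1 + p.1 * p.2.2.2.2.1)))))
      (Icc (0 : ℝ) 1 ×ˢ (K0 ∩ {p : ℝ × ℝ × ℝ × ℝ × ℂ | κ1 / 2 ≤ |p.1|})) := by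
      refine ContinuousOn.mul (by fun_prop) (ContinuousOn.mul (Continuous.continuousOn
        (by fun_prop)) (continuous_ee.comp_continuousOn ?_))
      refine ContinuousOn.sub (Continuous.continuousOn (by fun_prop)) ?_
      refine ContinuousOn.div (Continuous.continuousOn (by fun_prop))
        (Continuous.continuousOn (by fun_prop)) ?_
      intro p hp
      obtain ⟨h1, h2⟩ := hbig p hp
      exact mul_ne_zero (pow_ne_zero _ h1) h2
    have hθ : ∀ᶠ i in (𝒰 : Filter ι), (ξ i 0 0, N i * (j * (B : ℝ) / ξ i 0 0 ^ 2 - A),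
        (N i : ℝ) ^ 2 * ξ i 1 0, (N i : ℝ) * ξ i 1 0, ee (j * ξ i 0 1 / ξ i 0 0)) ∈
        (K0 ∩ {p : ℝ × ℝ × ℝ × ℝ × ℂ | κ1 / 2 ≤ |p.1|}) := by
      filter_upwards [hξ, hex, hsm, hα] with i h1 h2 h3 h4
      refine ⟨⟨abs_le.1 h1.1, abs_le.1 ?_, abs_le.1 ?_, abs_le.1 h3, ?_⟩, not_lt.1 h4⟩
      · rw [abs_mul, abs_of_nonneg (Nat.cast_nonneg _)]; exact h2.1
      · rw [abs_mul, abs_of_nonneg (by positivity)]; exact h2.2
      · rw [mem_closedBall_zero_iff, ee_norm]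
    have key := slow_param hK hΦ (muOrth_ee A B hB) (fun n => (ee_norm _).le) hN hθ
    refine key.congr' ?_
    filter_upwards [hN.eventually_ge_atTop 1, hθ] with i hi hi2
    have hN0 : (N i : ℝ) ≠ 0 := by positivity
    congr 1
    refine Finset.sum_congr rfl fun n hn => ?_
    rw [Finset.mem_Icc] at hn
    have m1 : (n : ℝ) / N i ∈ Icc (0 : ℝ) 1 := by
      refine ⟨by positivity, ?_⟩
      rw [div_le_one (by exact_mod_cast hi)]
      exact_mod_cast hn.2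
    obtain ⟨g1, g2⟩ := hbig ⟨_, _⟩ ⟨m1, hi2⟩
    dsimp only at g1 g2 ⊢
    have hye : (n : ℝ) / N i * (N i * ξ i 1 0) = n * ξ i 1 0 := by field_simp
    rw [hye] at g2 ⊢
    have hph : (j * ((ξ i 0 1 + n * ξ i 1 1) / (ξ i 0 0 + n * ξ i 1 0)) : ℝ) =
        n * A / B + (j * ξ i 0 1 / ξ i 0 0 + ((n : ℝ) / N i * (N i * (j * (B : ℝ) / ξ i 0 0 ^ 2 - A)) / B -
          j * ((n : ℝ) / N i) ^ 2 * ((N i : ℝ) ^ 2 * ξ i 1 0) / (ξ i 0 0 ^ 2 * (ξ i 0 0 + n * ξ i 1 0)))) := by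
      have hd := G_det (ξ i)
      field_simp
      linear_combination (j * n * ξ i 0 0 * B) * hd
    rw [hph, ee_add, ee_add]
    ring

theorem phase_katai {ι : Type} (𝒰 : Ultrafilter ι) {N : ι → ℕ} (hN : Tendsto N 𝒰 atTop)
    {ξ : ι → G} {R : ℝ} (hξ : ∀ᶠ i in (𝒰 : Filter ι), |ξ i 0 0| ≤ R ∧ |ξ i 1 0| * N i ≤ R)
    {j : ℤ} (hj : j ≠ 0) {ψ : ℝ → ℂ} (hψ : Continuous ψ) {κ1 : ℝ} (hκ : 0 < κ1)
    (hψ0 : ∀ D, |D| ≤ κ1 → ψ D = 0) (hψ1 : ∀ D, ‖ψ D‖ ≤ 1)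
    (hne : ∀ p q : ℕ, 0 < p → 0 < q → p ≠ q →
      ¬ ∃ (A : ℤ) (R' : ℝ), ∀ᶠ i in (𝒰 : Filter ι),
      N i * |j * ((p : ℝ) - q) / ξ i 0 0 ^ 2 - A| ≤ R' ∧ (N i : ℝ) ^ 2 * |ξ i 1 0| ≤ R') :
    Tendsto (fun i => (1 / (N i : ℂ)) * ∑ n ∈ Finset.Icc 1 (N i),
      Pool.Agent.Work.MP_54969a_nt.mu n * (ψ (ξ i 0 0 + n * ξ i 1 0) *
        ee (j * ((ξ i 0 1 + n * ξ i 1 1) / (ξ i 0 0 + n * ξ i 1 0))))) 𝒰 (𝓝 0) := by
  refine katai_window (l := (𝒰 : Filter ι)) (fun i n => ψ (ξ i 0 0 + n * ξ i 1 0) *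
        ee (j * ((ξ i 0 1 + n * ξ i 1 1) / (ξ i 0 0 + n * ξ i 1 0)))) ?_ hN ?_
  · intro i n
    rw [norm_mul, ee_norm, mul_one]
    exact hψ1 _
  · intro ε hε
    refine ⟨0, fun p q hp hq hpq _ _ _ _ => ?_⟩
    set m : ℕ := max p q with hm
    have hm0 : 0 < m := lt_max_of_lt_left hp.pos
    have hmr : (0 : ℝ) < m := by exact_mod_cast hm0
    have key := corr_small 𝒰 hN (hξ.mono fun i h => h.1) (hξ.mono fun i h => h.2) hj hψ hκ hψ0
      hp.pos hq.pos hpq (hne p q hp.pos hq.pos hpq)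
    rw [tendsto_zero_iff_norm_tendsto_zero] at key
    have h1 := key.eventually_le_const (show (0 : ℝ) < ε / (2 * m) by positivity)
    filter_upwards [h1, hN.eventually_ge_atTop m] with i hi hi2
    have hNpos : 0 < N i := lt_of_lt_of_le hm0 hi2
    have hNr : (0 : ℝ) < N i := by exact_mod_cast hNpos
    have hsum : ∑ n ∈ Finset.Icc 1 (N i / m),
        (ψ (ξ i 0 0 + (p * n : ℕ) * ξ i 1 0) *
          ee (j * ((ξ i 0 1 + (p * n : ℕ) * ξ i 1 1) / (ξ i 0 0 + (p * n : ℕ) * ξ i 1 0)))) *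
        (starRingEnd ℂ) (ψ (ξ i 0 0 + (q * n : ℕ) * ξ i 1 0) *
          ee (j * ((ξ i 0 1 + (q * n : ℕ) * ξ i 1 1) / (ξ i 0 0 + (q * n : ℕ) * ξ i 1 0)))) =
        ∑ n ∈ Finset.Icc 1 (N i / m),
          ψ (ξ i 0 0 + (p * n : ℕ) * ξ i 1 0) *
            (starRingEnd ℂ) (ψ (ξ i 0 0 + (q * n : ℕ) * ξ i 1 0)) *
          Complex.exp (2 * Real.pi * Complex.I * ((j * ((p : ℝ) - q) * n /
          ((ξ i 0 0 + (p * n : ℕ) * ξ i 1 0) * (ξ i 0 0 + (q * n : ℕ) * ξ i 1 0)) : ℝ))) := by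
      refine Finset.sum_congr rfl fun n hn => ?_
      by_cases z1 : ψ (ξ i 0 0 + (p * n : ℕ) * ξ i 1 0) = 0
      · rw [z1]; simp
      by_cases z2 : ψ (ξ i 0 0 + (q * n : ℕ) * ξ i 1 0) = 0
      · rw [z2]; simp
      have d1 : ξ i 0 0 + (p * n : ℕ) * ξ i 1 0 ≠ 0 := fun h => z1 (by
        rw [h]; exact hψ0 0 (by rw [abs_zero]; exact hκ.le))
      have d2 : ξ i 0 0 + (q * n : ℕ) * ξ i 1 0 ≠ 0 := fun h => z2 (by
        rw [h]; exact hψ0 0 (by rw [abs_zero]; exact hκ.le))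
      have e1 := tph_diff d1 d2
      have e2 : (starRingEnd ℂ) (ee (j * ((ξ i 0 1 + (q * n : ℕ) * ξ i 1 1) /
          (ξ i 0 0 + (q * n : ℕ) * ξ i 1 0)))) = ee (-(j * ((ξ i 0 1 + (q * n : ℕ) * ξ i 1 1) /
          (ξ i 0 0 + (q * n : ℕ) * ξ i 1 0)))) := by
        exact ee_conj _
      have e3 : (j * ((ξ i 0 1 + (p * n : ℕ) * ξ i 1 1) / (ξ i 0 0 + (p * n : ℕ) * ξ i 1 0)) : ℝ) +
          -(j * ((ξ i 0 1 + (q * n : ℕ) * ξ i 1 1) / (ξ i 0 0 + (q * n : ℕ) * ξ i 1 0))) =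
          j * ((p : ℝ) - q) * n /
          ((ξ i 0 0 + (p * n : ℕ) * ξ i 1 0) * (ξ i 0 0 + (q * n : ℕ) * ξ i 1 0)) := by
        rw [← sub_eq_add_neg, ← mul_sub, e1]
        push_cast
        ring
      rw [map_mul, e2]
      rw [show Complex.exp (2 * Real.pi * Complex.I * ((j * ((p : ℝ) - q) * n /
          ((ξ i 0 0 + (p * n : ℕ) * ξ i 1 0) * (ξ i 0 0 + (q * n : ℕ) * ξ i 1 0)) : ℝ))) =
          ee (j * ((p : ℝ) - q) * n /
          ((ξ i 0 0 + (p * n : ℕ) * ξ i 1 0) * (ξ i 0 0 + (q * n : ℕ) * ξ i 1 0))) from rfl,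
        ← e3, ee_add]
      ring
    rw [hsum]
    rw [norm_mul, norm_div, norm_one, Complex.norm_natCast, one_div, inv_mul_le_iff₀ hNr] at hi
    refine hi.trans ?_
    have h2 : (N i : ℝ) ≤ 2 * m * (N i / m : ℕ) := by
      have h3 : 1 ≤ N i / m := (Nat.one_le_div_iff hm0).2 hi2
      have h4 : N i < m * (N i / m) + m := by
        have := Nat.lt_div_mul_add (a := N i) hm0
        rwa [mul_comm] at this
      have h5 : N i ≤ 2 * m * (N i / m) := by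
        have : m ≤ m * (N i / m) := Nat.le_mul_of_pos_right _ h3
        nlinarith
      exact_mod_cast h5
    calc (N i : ℝ) * (ε / (2 * m)) ≤ (2 * m * (N i / m : ℕ)) * (ε / (2 * m)) := by gcongr
      _ = ε * (N i / m : ℕ) := by field_simp

theorem phase_sum {ι : Type} (𝒰 : Ultrafilter ι) {N : ι → ℕ} (hN : Tendsto N 𝒰 atTop)
    {ξ : ι → G} {R : ℝ} (hξ : ∀ᶠ i in (𝒰 : Filter ι), |ξ i 0 0| ≤ R ∧ |ξ i 1 0| * N i ≤ R)
    (j : ℤ) {ψ : ℝ → ℂ} (hψ : Continuous ψ) {κ1 : ℝ} (hκ : 0 < κ1)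
    (hψ0 : ∀ D, |D| ≤ κ1 → ψ D = 0) :
    Tendsto (fun i => (1 / (N i : ℂ)) * ∑ n ∈ Finset.Icc 1 (N i),
      Pool.Agent.Work.MP_54969a_nt.mu n * (ψ (ξ i 0 0 + n * ξ i 1 0) *
        Complex.exp (2 * Real.pi * Complex.I * ((j * ((ξ i 0 1 + n * ξ i 1 1) /
          (ξ i 0 0 + n * ξ i 1 0)) : ℝ))))) 𝒰 (𝓝 0) := by
  have hR : 0 ≤ R := by
    obtain ⟨i, hi⟩ := hξ.exists
    exact (abs_nonneg _).trans hi.1
  -- reduction to the circle character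
  change Tendsto (fun i => (1 / (N i : ℂ)) * ∑ n ∈ Finset.Icc 1 (N i),
      Pool.Agent.Work.MP_54969a_nt.mu n * (ψ (ξ i 0 0 + n * ξ i 1 0) *
        ee (j * ((ξ i 0 1 + n * ξ i 1 1) / (ξ i 0 0 + n * ξ i 1 0))))) 𝒰 (𝓝 0)
  by_cases hj : j = 0
  · refine (phase_j0 𝒰 hN hξ hψ).congr fun i => ?_
    congr 1
    refine Finset.sum_congr rfl fun n _ => ?_
    rw [hj]
    simp [ee]
  by_cases hex : ∃ p q : ℕ, 0 < p ∧ 0 < q ∧ p ≠ q ∧ ∃ (A : ℤ) (R' : ℝ),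
      ∀ᶠ i in (𝒰 : Filter ι), N i * |j * ((p : ℝ) - q) / ξ i 0 0 ^ 2 - A| ≤ R' ∧
        (N i : ℝ) ^ 2 * |ξ i 1 0| ≤ R'
  · obtain ⟨p, q, -, -, hpq, A, R', h⟩ := hex
    refine phase_slow 𝒰 hN hξ j hψ hκ hψ0 (A := A) (B := (p : ℤ) - q) ?_ (R' := R') ?_
    · intro h0
      apply hpq
      omega
    · push_cast
      exact h
  · -- truncation
    obtain ⟨M, hM⟩ := (isCompact_Icc (a := -(2 * R)) (b := 2 * R)).exists_bound_of_continuousOn
      hψ.continuousOn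
    set M' : ℝ := max M 1 with hM'
    have hM'0 : 0 < M' := lt_max_of_lt_right one_pos
    set cl : ℝ → ℝ := fun D => max (-(2 * R)) (min D (2 * R)) with hcl
    have hclc : Continuous cl := by fun_prop
    have hclm : ∀ D, cl D ∈ Icc (-(2 * R)) (2 * R) := fun D =>
      ⟨le_max_left _ _, max_le (by linarith) (min_le_right _ _)⟩
    have hclabs : ∀ D, |cl D| ≤ |D| := by
      intro D
      rw [hcl]
      dsimp only
      rcases le_total D (2 * R) with h1 | h1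
      · rw [min_eq_left h1]
        rcases le_total (-(2 * R)) D with h2 | h2
        · rw [max_eq_right h2]
        · rw [max_eq_left h2, abs_neg, abs_of_nonneg (by linarith), abs_of_nonpos (by linarith)]
          linarith
      · rw [min_eq_right h1, max_eq_right (by linarith), abs_of_nonneg (by linarith),
          abs_of_nonneg (by linarith)]
        exact h1
    have hcleq : ∀ D, |D| ≤ 2 * R → cl D = D := by
      intro D hD
      rw [abs_le] at hD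
      rw [hcl]
      dsimp only
      rw [min_eq_left hD.2, max_eq_right hD.1]
    have key := phase_katai 𝒰 hN hξ hj (ψ := fun D => (M' : ℂ)⁻¹ * ψ (cl D)) (by fun_prop) hκ
      (fun D hD => by rw [hψ0 _ ((hclabs D).trans hD), mul_zero]) (fun D => by
        rw [norm_mul, norm_inv, Complex.norm_real, Real.norm_of_nonneg hM'0.le,
          inv_mul_le_iff₀ hM'0, mul_one]
        exact (hM _ (hclm D)).trans (le_max_left _ _))
      (fun p q hp hq hpq h => hex ⟨p, q, hp, hq, hpq, h⟩)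
    have key2 := key.const_mul (M' : ℂ)
    rw [mul_zero] at key2
    refine key2.congr' ?_
    filter_upwards [hξ] with i hi
    rw [mul_left_comm]
    congr 1
    rw [Finset.mul_sum]
    refine Finset.sum_congr rfl fun n hn => ?_
    rw [Finset.mem_Icc] at hn
    have h3 : |(n : ℝ) * ξ i 1 0| ≤ R := by
      rw [abs_mul, Nat.abs_cast]
      have : (n : ℝ) ≤ N i := by exact_mod_cast hn.2
      calc (n : ℝ) * |ξ i 1 0| ≤ N i * |ξ i 1 0| := by gcongr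
        _ = |ξ i 1 0| * N i := mul_comm _ _
        _ ≤ R := hi.2
    have h4 : |ξ i 0 0 + n * ξ i 1 0| ≤ 2 * R := by
      calc |ξ i 0 0 + n * ξ i 1 0| ≤ |ξ i 0 0| + |n * ξ i 1 0| := abs_add_le _ _
        _ ≤ 2 * R := by linarith [hi.1]
    rw [hcleq _ h4]
    have hMc : (M' : ℂ) ≠ 0 := by exact_mod_cast hM'0.ne'
    field_simp

end Pool.Agent.Work.MP_c9c104_nt
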